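import Pool.Agent.Lib.MP_d0e829_nt.SS.SpecB

/-!
# BAL: balanced exponents, numerically
-/

set_option autoImplicit false

open NumberField

namespace Pool.Agent.Lib.MP_d0e829_nt.SS

/-- BAL -/
theorem specBAL : SpecBAL := by
  intro m N hN d τ D η R c s hD hη hη1 hc hd hbd hbal
  have hNr : (0 : ℝ) < N := by exact_mod_cast hN
  have hR : 0 ≤ R := (abs_nonneg _).trans (hc ⟨0, hN⟩)
  -- the sums over `h`
  have hle : ∀ (h : Fin m) (j : Fin N), (s (h, j) : ℝ) / d h ≤ 1 := by
    intro h j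
    have h0 : (0 : ℝ) < d h := by exact_mod_cast (hd h).1
    rw [div_le_one h0]
    have h1 : s (h, j) ≤ bd s h :=
      Finset.single_le_sum (f := fun i => s (h, i)) (fun i _ => Nat.zero_le _) (Finset.mem_univ j)
    rw [hbd h] at h1
    exact_mod_cast h1
  have key : ∀ j : Fin N, |∑ h, τ h * (s (h, j) : ℝ) - D * m / N| ≤ 2 * η * m * D := by
    intro j
    set σ : ℝ := ∑ h, (s (h, j) : ℝ) / d h with hσ
    have hσm : σ ≤ m := by
      have : σ ≤ ∑ _h : Fin m, (1 : ℝ) := Finset.sum_le_sum fun h _ => hle h j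
      simpa using this
    have hlow : D * σ ≤ ∑ h, τ h * (s (h, j) : ℝ) := by
      rw [hσ, Finset.mul_sum]
      refine Finset.sum_le_sum fun h _ => ?_
      have h0 : (0 : ℝ) < d h := by exact_mod_cast (hd h).1
      have h1 : (0 : ℝ) ≤ (s (h, j) : ℝ) / d h := by positivity
      calc D * ((s (h, j) : ℝ) / d h) ≤ τ h * d h * ((s (h, j) : ℝ) / d h) :=
            mul_le_mul_of_nonneg_right (hd h).2.2.1 h1
        _ = τ h * (s (h, j) : ℝ) := by field_simp
    have hup : ∑ h, τ h * (s (h, j) : ℝ) ≤ (1 + η) * D * σ := by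
      rw [hσ, Finset.mul_sum]
      refine Finset.sum_le_sum fun h _ => ?_
      have h0 : (0 : ℝ) < d h := by exact_mod_cast (hd h).1
      have h1 : (0 : ℝ) ≤ (s (h, j) : ℝ) / d h := by positivity
      calc τ h * (s (h, j) : ℝ) = τ h * d h * ((s (h, j) : ℝ) / d h) := by field_simp
        _ ≤ (1 + η) * D * ((s (h, j) : ℝ) / d h) :=
            mul_le_mul_of_nonneg_right (hd h).2.2.2 h1
    have hb := abs_le.mp (hbal j)
    rw [← hσ] at hb
    have hm0 : (0 : ℝ) ≤ m := Nat.cast_nonneg m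
    have e1 : D * (m : ℝ) / N = D * ((m : ℝ) / N) := by ring
    have h1 : D * (-(η * m)) ≤ D * (σ - (m : ℝ) / N) := mul_le_mul_of_nonneg_left hb.1 hD
    have h2 : D * (σ - (m : ℝ) / N) ≤ D * (η * m) := mul_le_mul_of_nonneg_left hb.2 hD
    have h3 : η * D * σ ≤ η * D * m := mul_le_mul_of_nonneg_left hσm (mul_nonneg hη hD)
    have h4 : 0 ≤ η * m * D := by positivity
    rw [abs_le, e1]
    constructor
    · nlinarith
    · nlinarith
  have e : ∑ h, ∑ j, τ h * c j * (s (h, j) : ℝ) - D * m / N * ∑ j, c j =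
      ∑ j, c j * (∑ h, τ h * (s (h, j) : ℝ) - D * m / N) := by
    rw [Finset.sum_comm, Finset.mul_sum, ← Finset.sum_sub_distrib]
    refine Finset.sum_congr rfl fun j _ => ?_
    rw [mul_sub, Finset.mul_sum]
    congr 1
    · exact Finset.sum_congr rfl fun h _ => by ring
    · ring
  have hb : ∑ j, c j * (∑ h, τ h * (s (h, j) : ℝ) - D * m / N) ≤
      ∑ _j : Fin N, R * (2 * η * m * D) := by
    refine Finset.sum_le_sum fun j _ => ?_
    calc c j * (∑ h, τ h * (s (h, j) : ℝ) - D * m / N)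
        ≤ |c j * (∑ h, τ h * (s (h, j) : ℝ) - D * m / N)| := le_abs_self _
      _ = |c j| * |∑ h, τ h * (s (h, j) : ℝ) - D * m / N| := abs_mul _ _
      _ ≤ R * (2 * η * m * D) :=
          mul_le_mul (hc j) (key j) (abs_nonneg _) hR
  rw [← e] at hb
  have e2 : ∑ _j : Fin N, R * (2 * η * m * D) = 2 * N * R * η * m * D := by
    rw [Finset.sum_const, Finset.card_univ, Fintype.card_fin, nsmul_eq_mul]
    ring
  rw [e2] at hb
  linarith

end Pool.Agent.Lib.MP_d0e829_nt.SS
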