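import Pool.Agent.Lib.MP_d0e829_nt.SS.SpecB

/-!
# Part B1, module BDJ: degrees of the Taylor coefficients, homogeneity of `sbs M P`
-/

set_option autoImplicit false

namespace Pool.Agent.Lib.MP_d0e829_nt.SS

open scoped Classical

namespace BDJM

variable {K : Type} [Field K] {m N : ℕ}

/-- the weight of the block `h` -/
def wt (h : Fin m) : Fin m × Fin N → ℕ := fun p => if p.1 = h then 1 else 0

lemma weight_wt (h : Fin m) (s : Fin m × Fin N →₀ ℕ) : Finsupp.weight (wt h) s = bd s h := by
  rw [Finsupp.weight_apply, Finsupp.sum_fintype _ _ (fun i => by simp)]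
  unfold bd wt
  rw [Fintype.sum_prod_type]
  rw [Finset.sum_eq_single h]
  · simp
  · intro b _ hb
    simp [hb]
  · simp

lemma sbs_hom (M : Matrix (Fin N) (Fin N) K) (P : MvPolynomial (Fin m × Fin N) ℤ) {d : Fin m → ℕ}
    (hP : BH P d) (h : Fin m) : MvPolynomial.IsWeightedHomogeneous (wt h) (sbs M P) (d h) := by
  unfold sbs
  rw [MvPolynomial.aeval_def, MvPolynomial.eval₂_eq']
  refine MvPolynomial.IsWeightedHomogeneous.sum _ _ _ fun J hJ => ?_
  have h1 : d h = 0 + ∑ p : Fin m × Fin N, J p • wt h p := by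
    have h2 := weight_wt h J
    rw [Finsupp.weight_apply, Finsupp.sum_fintype _ _ (fun i => by simp)] at h2
    rw [zero_add, h2]
    exact (hP J hJ h).symm
  rw [h1]
  refine MvPolynomial.IsWeightedHomogeneous.mul ?_ ?_
  · have : (algebraMap ℤ (MvPolynomial (Fin m × Fin N) K)) (MvPolynomial.coeff J P) =
        MvPolynomial.C ((MvPolynomial.coeff J P : ℤ) : K) := by
      simp
    rw [this]
    exact MvPolynomial.isWeightedHomogeneous_C _ _
  · refine MvPolynomial.IsWeightedHomogeneous.prod _ _ _ fun p _ => ?_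
    refine MvPolynomial.IsWeightedHomogeneous.pow ?_ _
    refine MvPolynomial.IsWeightedHomogeneous.sum _ _ _ fun j _ => ?_
    have h3 : wt (N := N) h p = 0 + wt h ((p.1, j) : Fin m × Fin N) := by
      unfold wt
      simp
    rw [h3]
    exact (MvPolynomial.isWeightedHomogeneous_C _ _).mul (MvPolynomial.isWeightedHomogeneous_X _ _ _)

lemma comp_eq (L : Matrix (Fin N) (Fin N) K) (hL : L.det ≠ 0) (z : Fin m × Fin N → K)
    (P : MvPolynomial (Fin m × Fin N) ℤ) :
    tay P z = MvPolynomial.aeval (fun p : Fin m × Fin N =>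
      MvPolynomial.C (∑ i, L p.2 i * z (p.1, i)) +
        ∑ i, MvPolynomial.C (L p.2 i) * MvPolynomial.X ((p.1, i) : Fin m × Fin N)) (sbs L⁻¹ P) := by
  set φ : Fin m × Fin N → MvPolynomial (Fin m × Fin N) K := fun p : Fin m × Fin N =>
      MvPolynomial.C (∑ i, L p.2 i * z (p.1, i)) +
        ∑ i, MvPolynomial.C (L p.2 i) * MvPolynomial.X ((p.1, i) : Fin m × Fin N) with hφ
  have hinv : L⁻¹ * L = 1 := Matrix.nonsing_inv_mul L (isUnit_iff_ne_zero.2 hL)
  unfold tay sbs
  induction P using MvPolynomial.induction_on with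
  | C a => simp
  | add p q hp hq => simp only [map_add, hp, hq]
  | mul_X p n hp =>
    rw [map_mul, map_mul, map_mul, hp]
    congr 1
    rw [MvPolynomial.aeval_X, MvPolynomial.aeval_X, map_sum]
    have h1 : ∀ j : Fin N, (MvPolynomial.aeval φ)
        (MvPolynomial.C (L⁻¹ n.2 j) * MvPolynomial.X ((n.1, j) : Fin m × Fin N)) =
        MvPolynomial.C (L⁻¹ n.2 j) * (MvPolynomial.C (∑ i, L j i * z (n.1, i)) +
        ∑ i, MvPolynomial.C (L j i) * MvPolynomial.X ((n.1, i) : Fin m × Fin N)) := by
      intro j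
      rw [map_mul, MvPolynomial.aeval_X, MvPolynomial.aeval_C, MvPolynomial.algebraMap_eq]
    rw [Finset.sum_congr rfl fun j _ => h1 j]
    simp_rw [mul_add, Finset.sum_add_distrib]
    have h2 : ∀ i : Fin N, ∑ j, L⁻¹ n.2 j * L j i = if n.2 = i then 1 else 0 := by
      intro i
      have := congrFun (congrFun hinv n.2) i
      rw [Matrix.mul_apply, Matrix.one_apply] at this
      exact this
    congr 1
    · have h3 : ∀ j : Fin N, (MvPolynomial.C (L⁻¹ n.2 j) * MvPolynomial.C (∑ i, L j i * z (n.1, i)) :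
          MvPolynomial (Fin m × Fin N) K) = MvPolynomial.C (∑ i, (L⁻¹ n.2 j * L j i) * z (n.1, i)) := by
        intro j
        rw [← map_mul, Finset.mul_sum]
        simp_rw [mul_assoc]
      rw [Finset.sum_congr rfl fun j _ => h3 j, ← map_sum, Finset.sum_comm]
      congr 1
      simp_rw [← Finset.sum_mul, h2]
      simp
    · simp_rw [Finset.mul_sum, ← mul_assoc, ← map_mul]
      rw [Finset.sum_comm]
      simp_rw [← Finset.sum_mul, ← map_sum, h2]
      simp

end BDJM

open BDJM in
theorem specBDJ (hTMC : SpecTMC) : SpecBDJ := by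
  intro K _ m N P d hP
  refine ⟨?_, ?_, ?_⟩
  · intro z J hJ h
    unfold tay at hJ
    rw [hTMC] at hJ
    obtain ⟨s, hs, hs2⟩ := Finset.exists_ne_zero_of_sum_ne_zero hJ
    have h1 : ∀ p, J p ≤ s p := by
      intro p
      by_contra hc
      apply hs2
      rw [Finset.prod_eq_zero (Finset.mem_univ p), mul_zero]
      rw [Nat.choose_eq_zero_of_lt (by omega)]
      simp
    have h2 := hP s hs h
    unfold bd
    rw [← h2]
    exact Finset.sum_le_sum fun i _ => h1 _
  · intro M s hs h
    have h1 := sbs_hom M P hP h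
    rw [← weight_wt h s]
    exact h1 (MvPolynomial.mem_support_iff.1 hs)
  · intro L hL z
    exact comp_eq L hL z P

end Pool.Agent.Lib.MP_d0e829_nt.SS
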