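import Pool.Agent.Lib.MP_d0e829_nt.SS.SpecA

/-!
# Module CB: compound matrices are multiplicative
-/

set_option autoImplicit false

namespace Pool.Agent.Lib.MP_d0e829_nt.SS

namespace CBM

variable (K : Type) [Field K] (N p : ℕ)

/-- the subsets with `p` elements in the form used by Mathlib -/
noncomputable def e : Fin (N.choose p) ≃ Set.powersetCard (Fin N) p := eqv N p

/-- the standard basis of the exterior power -/
noncomputable def bas : Module.Basis (Fin (N.choose p)) K (⋀[K]^p (Fin N → K)) :=
  ((Pi.basisFun K (Fin N)).exteriorPower p).reindex (e N p).symm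

lemma entry (A : Matrix (Fin N) (Fin N) K) (a b : Fin (N.choose p)) :
    LinearMap.toMatrix (bas K N p) (bas K N p) (exteriorPower.map p (Matrix.toLin' A)) a b =
      cpd p A a b := by
  rw [LinearMap.toMatrix_apply]
  simp only [bas, Module.Basis.reindex_apply, Module.Basis.repr_reindex_apply, Equiv.symm_symm]
  rw [exteriorPower.basis_apply, exteriorPower.map_apply_ιMulti_family,
    exteriorPower.basis_repr_apply, exteriorPower.ιMulti_family,
    exteriorPower.ιMultiDual_apply_ιMulti]
  unfold cpd minor
  rw [← Matrix.det_transpose]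
  congr 1
  ext i j
  simp only [Matrix.transpose_apply, Matrix.of_apply, Function.comp_apply,
    Module.Basis.coord_apply, Pi.basisFun_apply, Pi.basisFun_repr, Matrix.submatrix_apply,
    Matrix.toLin'_apply, Matrix.mulVec_single_one, Matrix.col_apply,
    Set.powersetCard.ofFinEmbEquiv_symm_apply]
  rfl

lemma mat (A : Matrix (Fin N) (Fin N) K) :
    LinearMap.toMatrix (bas K N p) (bas K N p) (exteriorPower.map p (Matrix.toLin' A)) =
      cpd p A := by
  ext a b
  exact entry K N p A a b

end CBM

theorem specCB : SpecCB := by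
  intro K _ N p
  refine ⟨fun A B => ?_, ?_⟩
  · rw [← CBM.mat, ← CBM.mat, ← CBM.mat, Matrix.toLin'_mul, exteriorPower.map_comp]
    exact LinearMap.toMatrix_comp _ _ _ _ _
  · rw [← CBM.mat, Matrix.toLin'_one, exteriorPower.map_id]
    exact LinearMap.toMatrix_id _

end Pool.Agent.Lib.MP_d0e829_nt.SS
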