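import Pool.Agent.Lib.MP_d0e829_nt.SS.SpecB

/-!
# SS, module CHE: Chebyshev's inequality for exponents of a given multidegree
-/

set_option autoImplicit false

namespace Pool.Agent.Lib.MP_d0e829_nt.SS

open Finset
open scoped Classical

namespace CHEM

lemma second_moment {m : ℕ} {α : Type} (t : Fin m → Finset α) (Y : Fin m → α → ℝ)
    (h0 : ∀ h, ∑ x ∈ t h, Y h x = 0) (h1 : ∀ h, ∀ x ∈ t h, |Y h x| ≤ 1) :
    ∑ f ∈ Fintype.piFinset t, (∑ h, Y h (f h)) ^ 2 ≤ m * ((Fintype.piFinset t).card : ℝ) := by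
  have e1 : ∑ f ∈ Fintype.piFinset t, (∑ h, Y h (f h)) ^ 2 =
      ∑ h, ∑ h', ∑ f ∈ Fintype.piFinset t, Y h (f h) * Y h' (f h') := by
    have e2 : ∀ f : Fin m → α, (∑ h, Y h (f h)) ^ 2 = ∑ h, ∑ h', Y h (f h) * Y h' (f h') := by
      intro f
      rw [sq, Finset.sum_mul_sum]
    simp_rw [e2]
    rw [Finset.sum_comm]
    refine Finset.sum_congr rfl fun h _ => ?_
    rw [Finset.sum_comm]
  rw [e1]
  have e3 : ∀ h h' : Fin m, h ≠ h' →
      ∑ f ∈ Fintype.piFinset t, Y h (f h) * Y h' (f h') = 0 := by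
    intro h h' hne
    have e4 := Finset.prod_univ_sum t
      (fun i x => if i = h then Y h x else if i = h' then Y h' x else (1 : ℝ))
    have e5 : ∏ i, ∑ x ∈ t i, (if i = h then Y h x else if i = h' then Y h' x else (1 : ℝ)) = 0 := by
      refine Finset.prod_eq_zero (Finset.mem_univ h) ?_
      simp only [if_true]
      exact h0 h
    rw [e5] at e4
    rw [e4]
    refine Finset.sum_congr rfl fun f _ => ?_
    rw [Finset.prod_eq_mul h h' hne]
    · simp only [if_true, if_neg hne.symm]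
    · intro i _ hi
      rw [if_neg hi.1, if_neg hi.2]
    · intro hh; exact absurd (Finset.mem_univ _) hh
    · intro hh; exact absurd (Finset.mem_univ _) hh
  have e6 : ∀ h : Fin m, ∑ h', ∑ f ∈ Fintype.piFinset t, Y h (f h) * Y h' (f h') ≤
      ((Fintype.piFinset t).card : ℝ) := by
    intro h
    rw [Finset.sum_eq_single h (fun h' _ hne => e3 h h' hne.symm)
      (fun hh => absurd (Finset.mem_univ _) hh)]
    rw [← nsmul_one, ← Finset.sum_const]
    refine Finset.sum_le_sum fun f hf => ?_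
    have h2 := h1 h (f h) (Fintype.mem_piFinset.1 hf h)
    rw [← sq, ← sq_abs]
    exact pow_le_one₀ (abs_nonneg _) h2
  refine (Finset.sum_le_sum fun h _ => e6 h).trans ?_
  rw [Finset.sum_const, Finset.card_univ, Fintype.card_fin, nsmul_eq_mul]

lemma sum_swap {N : ℕ} (D : ℕ) (j j' : Fin N) :
    ∑ x ∈ Finset.piAntidiag (Finset.univ : Finset (Fin N)) D, (x j : ℝ) =
      ∑ x ∈ Finset.piAntidiag (Finset.univ : Finset (Fin N)) D, (x j' : ℝ) := by
  have hm : ∀ x : Fin N → ℕ, x ∈ Finset.piAntidiag (Finset.univ : Finset (Fin N)) D →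
      (fun i => x (Equiv.swap j j' i)) ∈ Finset.piAntidiag (Finset.univ : Finset (Fin N)) D := by
    intro x hx
    rw [Finset.mem_piAntidiag] at hx ⊢
    refine ⟨?_, fun i _ => Finset.mem_univ i⟩
    rw [Equiv.sum_comp (Equiv.swap j j') x]
    exact hx.1
  refine Finset.sum_nbij' (fun x i => x (Equiv.swap j j' i)) (fun x i => x (Equiv.swap j j' i))
    hm hm ?_ ?_ ?_
  · intro x _
    funext i
    simp
  · intro x _
    funext i
    simp
  · intro x _
    simp

lemma mean {N : ℕ} (hN : 0 < N) {D : ℕ} (hD : 0 < D) (j : Fin N) :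
    ∑ x ∈ Finset.piAntidiag (Finset.univ : Finset (Fin N)) D, ((x j : ℝ) / D - 1 / N) = 0 := by
  set A := Finset.piAntidiag (Finset.univ : Finset (Fin N)) D with hA
  have hN0 : (0 : ℝ) < N := by exact_mod_cast hN
  have hD0 : (0 : ℝ) < D := by exact_mod_cast hD
  have h1 : ∑ i : Fin N, ∑ x ∈ A, (x i : ℝ) = (A.card : ℝ) * D := by
    rw [Finset.sum_comm]
    have h2 : ∀ x ∈ A, ∑ i : Fin N, (x i : ℝ) = D := by
      intro x hx
      rw [hA, Finset.mem_piAntidiag] at hx
      exact_mod_cast hx.1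
    rw [Finset.sum_congr rfl h2, Finset.sum_const, nsmul_eq_mul]
  have h3 : ∑ i : Fin N, ∑ x ∈ A, (x i : ℝ) = N * ∑ x ∈ A, (x j : ℝ) := by
    rw [Finset.sum_congr rfl fun i _ => sum_swap D i j, Finset.sum_const, Finset.card_univ,
      Fintype.card_fin, nsmul_eq_mul]
  rw [Finset.sum_sub_distrib, ← Finset.sum_div, Finset.sum_const, nsmul_eq_mul]
  rw [h3] at h1
  field_simp
  linarith

lemma bdd {N : ℕ} (hN : 0 < N) {D : ℕ} (hD : 0 < D) (j : Fin N) {x : Fin N → ℕ}
    (hx : x ∈ Finset.piAntidiag (Finset.univ : Finset (Fin N)) D) :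
    |(x j : ℝ) / D - 1 / N| ≤ 1 := by
  have hN0 : (1 : ℝ) ≤ N := by exact_mod_cast hN
  have hD0 : (0 : ℝ) < D := by exact_mod_cast hD
  rw [Finset.mem_piAntidiag] at hx
  have h1 : x j ≤ D := by
    rw [← hx.1]
    exact Finset.single_le_sum (f := x) (fun i _ => Nat.zero_le _) (Finset.mem_univ j)
  have h2 : (x j : ℝ) / D ≤ 1 := by
    rw [div_le_one hD0]; exact_mod_cast h1
  have h3 : (0 : ℝ) ≤ (x j : ℝ) / D := by positivity
  have h4 : (1 : ℝ) / N ≤ 1 := by
    rw [div_le_one (by linarith)]; exact hN0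
  have h5 : (0 : ℝ) ≤ 1 / (N : ℝ) := by positivity
  rw [abs_le]
  constructor <;> linarith

end CHEM

open CHEM in
theorem specCHE : SpecCHE := by
  intro N hN W η hW hη
  refine ⟨⌈W * N / η ^ 2⌉₊ + 1, Nat.succ_pos _, ?_⟩
  set m := ⌈W * N / η ^ 2⌉₊ + 1 with hm
  have hmW : W * N / η ^ 2 ≤ m := by
    rw [hm]; push_cast
    linarith [Nat.le_ceil (W * N / η ^ 2)]
  have hm0 : (0 : ℝ) < m := by rw [hm]; positivity
  intro d hd
  set t : Fin m → Finset (Fin N → ℕ) := fun h =>
    Finset.piAntidiag (Finset.univ : Finset (Fin N)) (d h) with ht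
  have hinj : Function.Injective (fun f : Fin m → Fin N → ℕ =>
      (Finsupp.equivFunOnFinite.symm fun p : Fin m × Fin N => f p.1 p.2)) := by
    intro f g hfg
    have h1 := Finsupp.equivFunOnFinite.symm.injective hfg
    funext h i
    exact congrFun h1 (h, i)
  have hcard : (mons N d).card = (Fintype.piFinset t).card := by
    unfold mons
    rw [Finset.card_image_of_injective _ hinj]
  have hbad : ((mons N d).filter fun s => ∃ j : Fin N,
      η * m < |∑ h, (s (h, j) : ℝ) / d h - m / N|).card =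
      ((Fintype.piFinset t).filter fun f => ∃ j : Fin N,
      η * m < |∑ h, (f h j : ℝ) / d h - m / N|).card := by
    unfold mons
    rw [Finset.filter_image, Finset.card_image_of_injective _ hinj]
    rfl
  rw [hcard, hbad]
  set Ω := Fintype.piFinset t with hΩ
  have hj : ∀ j : Fin N, ((Ω.filter fun f => η * m < |∑ h, (f h j : ℝ) / d h - m / N|).card : ℝ) *
      (η * m) ^ 2 ≤ m * (Ω.card : ℝ) := by
    intro j
    have h1 := second_moment t (fun h x => (x j : ℝ) / d h - 1 / N)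
      (fun h => mean hN (hd h) j) (fun h x hx => bdd hN (hd h) j hx)
    refine le_trans ?_ h1
    rw [← hΩ, ← nsmul_eq_mul, ← Finset.sum_const]
    refine (Finset.sum_le_sum (f := fun _ => (η * m) ^ 2) (g := fun f : Fin m → Fin N → ℕ =>
      (∑ h, ((f h j : ℝ) / d h - 1 / N)) ^ 2) fun f hf => ?_).trans
      (Finset.sum_le_sum_of_subset_of_nonneg (Finset.filter_subset _ _) fun _ _ _ => sq_nonneg _)
    have h2 := (Finset.mem_filter.1 hf).2
    have h3 : ∑ h, ((f h j : ℝ) / d h - 1 / N) = ∑ h, (f h j : ℝ) / d h - m / N := by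
      rw [Finset.sum_sub_distrib, Finset.sum_const, Finset.card_univ, Fintype.card_fin,
        nsmul_eq_mul, mul_one_div]
    show (η * m) ^ 2 ≤ (∑ h, ((f h j : ℝ) / d h - 1 / N)) ^ 2
    rw [h3, ← sq_abs (∑ h, (f h j : ℝ) / d h - m / N)]
    exact pow_le_pow_left₀ (by positivity) h2.le 2
  have hun : ((Ω.filter fun f => ∃ j : Fin N, η * m < |∑ h, (f h j : ℝ) / d h - m / N|).card : ℝ) ≤
      ∑ j : Fin N, ((Ω.filter fun f => η * m < |∑ h, (f h j : ℝ) / d h - m / N|).card : ℝ) := by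
    have h1 : (Ω.filter fun f => ∃ j : Fin N, η * m < |∑ h, (f h j : ℝ) / d h - m / N|) ⊆
        Finset.univ.biUnion fun j : Fin N =>
          Ω.filter fun f => η * m < |∑ h, (f h j : ℝ) / d h - m / N| := by
      intro f hf
      obtain ⟨hfΩ, j, hj⟩ := Finset.mem_filter.1 hf
      exact Finset.mem_biUnion.2 ⟨j, Finset.mem_univ j, Finset.mem_filter.2 ⟨hfΩ, hj⟩⟩
    have h2 := (Finset.card_le_card h1).trans Finset.card_biUnion_le
    exact_mod_cast h2
  have hηm : 0 < η ^ 2 * m := by positivity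
  have hsum : (∑ j : Fin N,
      ((Ω.filter fun f => η * m < |∑ h, (f h j : ℝ) / d h - m / N|).card : ℝ)) * (η ^ 2 * m) ≤
      N * (Ω.card : ℝ) := by
    rw [Finset.sum_mul]
    have h1 : ∀ j : Fin N, ((Ω.filter fun f => η * m < |∑ h, (f h j : ℝ) / d h - m / N|).card : ℝ) *
        (η ^ 2 * m) ≤ (Ω.card : ℝ) := by
      intro j
      have h2 := hj j
      have h3 : (((Ω.filter fun f => η * m < |∑ h, (f h j : ℝ) / d h - m / N|).card : ℝ) *
        (η ^ 2 * m)) * m ≤ (Ω.card : ℝ) * m := by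
        calc _ = ((Ω.filter fun f => η * m < |∑ h, (f h j : ℝ) / d h - m / N|).card : ℝ) *
            (η * m) ^ 2 := by ring
          _ ≤ m * (Ω.card : ℝ) := h2
          _ = _ := by ring
      exact le_of_mul_le_mul_right h3 hm0
    refine (Finset.sum_le_sum fun j _ => h1 j).trans ?_
    rw [Finset.sum_const, Finset.card_univ, Fintype.card_fin, nsmul_eq_mul]
  have hW2 : W * N ≤ m * η ^ 2 := by
    rwa [div_le_iff₀ (by positivity)] at hmW
  set S := ∑ j : Fin N,
      ((Ω.filter fun f => η * m < |∑ h, (f h j : ℝ) / d h - m / N|).card : ℝ) with hS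
  have hΩ0 : (0 : ℝ) ≤ Ω.card := Nat.cast_nonneg _
  have h1 : W * S * (η ^ 2 * m) ≤ (Ω.card : ℝ) * (η ^ 2 * m) := by
    calc W * S * (η ^ 2 * m) = W * (S * (η ^ 2 * m)) := by ring
      _ ≤ W * (N * (Ω.card : ℝ)) := mul_le_mul_of_nonneg_left hsum hW
      _ = (W * N) * (Ω.card : ℝ) := by ring
      _ ≤ (m * η ^ 2) * (Ω.card : ℝ) := mul_le_mul_of_nonneg_right hW2 hΩ0
      _ = _ := by ring
  have h2 := le_of_mul_le_mul_right h1 hηm
  exact (mul_le_mul_of_nonneg_left hun hW).trans h2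

end Pool.Agent.Lib.MP_d0e829_nt.SS
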