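import Pool.Agent.Lib.MP_d0e829_nt.SS.SpecA

/-!
# CMP: comparison of the twisted height with the height
-/

set_option autoImplicit false

open NumberField

namespace Pool.Agent.Lib.MP_d0e829_nt.SS

open scoped Classical

variable {K : Type} [Field K] [NumberField K]

/-- a matrix is bounded for the local norm -/
lemma CMPM.mulVec_bound {N : ℕ} (A : Matrix (Fin N) (Fin N) K) (w : Place K) :
    ∃ B : ℝ, 1 ≤ B ∧ ∀ (x : Fin N → K) (i : Fin N), absV w (A.mulVec x i) ≤ B * nrm w x := by
  set M : ℝ := ∑ i, ∑ j, absV w (A i j) with hM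
  have hM0 : 0 ≤ M := Finset.sum_nonneg fun i _ => Finset.sum_nonneg fun j _ => absV_nonneg w _
  have hMij : ∀ i j, absV w (A i j) ≤ M := by
    intro i j
    calc absV w (A i j) ≤ ∑ j', absV w (A i j') :=
          Finset.single_le_sum (f := fun j' => absV w (A i j'))
            (fun j' _ => absV_nonneg w _) (Finset.mem_univ j)
      _ ≤ M := Finset.single_le_sum (f := fun i' => ∑ j', absV w (A i' j'))
            (fun i' _ => Finset.sum_nonneg fun j' _ => absV_nonneg w _) (Finset.mem_univ i)
  have hN : 0 ≤ ((Finset.univ : Finset (Fin N)).card : ℝ) ^ sw w :=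
    Real.rpow_nonneg (Nat.cast_nonneg _) _
  refine ⟨((Finset.univ : Finset (Fin N)).card : ℝ) ^ sw w * M + 1,
    by linarith [mul_nonneg hN hM0], fun x i => ?_⟩
  have h1 : A.mulVec x i = ∑ j, A i j * x j := rfl
  have h2 : absV w (A.mulVec x i) ≤
      ((Finset.univ : Finset (Fin N)).card : ℝ) ^ sw w * (M * nrm w x) := by
    rw [h1]
    refine absV_sum_le w Finset.univ _ (mul_nonneg hM0 (nrm_nonneg w x)) fun j _ => ?_
    rw [absV_mul]
    exact mul_le_mul (hMij i j) (absV_le_nrm w x j) (absV_nonneg w _) hM0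
  nlinarith [nrm_nonneg w x]

/-- the comparison at one place -/
lemma CMPM.local_cmp {N : ℕ} (L : Matrix (Fin N) (Fin N) K) (w : Place K) :
    ∃ C : ℝ, 0 ≤ C ∧ (L.det ≠ 0 → ∀ (r : Fin N → ℝ) (R : ℝ), (∀ i, |r i| ≤ R) →
      ∀ x : Fin N → K, x ≠ 0 → |Real.log (tw L r w x) - Real.log (nrm w x)| ≤ C + R) := by
  obtain ⟨B, hB1, hB⟩ := CMPM.mulVec_bound L w
  obtain ⟨B', hB1', hB'⟩ := CMPM.mulVec_bound L⁻¹ w
  have hlB := Real.log_nonneg hB1
  have hlB' := Real.log_nonneg hB1'
  refine ⟨Real.log B + Real.log B', by linarith, fun hL r R hr x hx => ?_⟩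
  have hn := nrm_pos w hx
  have ht := tw_pos hL r w hx
  have hB0 : 0 < B := by linarith
  have hB0' : 0 < B' := by linarith
  have h1 : tw L r w x ≤ B * nrm w x * Real.exp R := by
    refine tw_le L r w x (by positivity) fun i => ?_
    refine mul_le_mul (hB x i) (Real.exp_le_exp.mpr ?_) (Real.exp_pos _).le (by positivity)
    linarith [(abs_le.mp (hr i)).1]
  have h2 : nrm w x ≤ B' * (tw L r w x * Real.exp R) := by
    have hinv : L⁻¹.mulVec (L.mulVec x) = x := by
      rw [Matrix.mulVec_mulVec, Matrix.nonsing_inv_mul L (Ne.isUnit hL), Matrix.one_mulVec]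
    have h3 : nrm w (L.mulVec x) ≤ tw L r w x * Real.exp R := by
      refine nrm_le w _ (by positivity) fun i => ?_
      refine (absV_form_le L r w x i).trans ?_
      exact mul_le_mul_of_nonneg_left (Real.exp_le_exp.mpr (le_trans (le_abs_self _) (hr i))) ht.le
    refine nrm_le w x (by positivity) fun j => ?_
    have h4 := hB' (L.mulVec x) j
    rw [hinv] at h4
    exact h4.trans (mul_le_mul_of_nonneg_left h3 hB0'.le)
  have h5 : Real.log (tw L r w x) ≤ Real.log B + Real.log (nrm w x) + R := by
    have := Real.log_le_log ht h1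
    rwa [Real.log_mul (by positivity) (Real.exp_pos _).ne', Real.log_mul hB0.ne' hn.ne',
      Real.log_exp] at this
  have h6 : Real.log (nrm w x) ≤ Real.log B' + (Real.log (tw L r w x) + R) := by
    have := Real.log_le_log hn h2
    rwa [Real.log_mul hB0'.ne' (by positivity), Real.log_mul ht.ne' (Real.exp_pos _).ne',
      Real.log_exp] at this
  rw [abs_le]
  constructor <;> linarith

theorem specCMP : SpecCMP := by
  intro K _ _ N S L hL
  choose C hC0 hC using fun w : Place K => CMPM.local_cmp (L w) w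
  refine ⟨∑ v ∈ S, C v, Finset.sum_nonneg fun v _ => hC0 v, fun r R _ hr x hx => ?_⟩
  have h1 : htw S L r x - ht x =
      ∑ v ∈ S, (Real.log (tw (L v) (r v) v x) - Real.log (nrm v x)) := by
    unfold htw ht
    rw [← finsum_sub_distrib (support_log_lcn_finite S L r hx) (support_log_nrm_finite hx)]
    rw [finsum_eq_sum_of_support_subset (s := S)]
    · refine Finset.sum_congr rfl fun v hv => ?_
      simp only [lcn, if_pos hv]
    · intro w hw
      by_contra hcon
      apply hw
      have : w ∉ S := hcon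
      simp only [lcn, if_neg this, sub_self]
  rw [h1]
  refine (Finset.abs_sum_le_sum_abs _ _).trans ?_
  calc ∑ v ∈ S, |Real.log (tw (L v) (r v) v x) - Real.log (nrm v x)|
      ≤ ∑ v ∈ S, (C v + R) := Finset.sum_le_sum fun v hv => hC v (hL v hv) (r v) R (hr v hv) x hx
    _ = ∑ v ∈ S, C v + S.card * R := by
        rw [Finset.sum_add_distrib, Finset.sum_const, nsmul_eq_mul]

end Pool.Agent.Lib.MP_d0e829_nt.SS
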