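import Pool.Agent.Lib.MP_d0e829_nt.SS.SpecB

/-!
# Module COE: denominators and sizes of the coefficients of products of linear forms
-/

set_option autoImplicit false

open NumberField

namespace Pool.Agent.Lib.MP_d0e829_nt.SS

namespace COEM

variable {K : Type} [Field K] [NumberField K] {σ : Type}

lemma house_zero' : NumberField.house (0 : K) = 0 := by
  have := NumberField.house_intCast (K := K) 0
  simpa using this

lemma house_one' : NumberField.house (1 : K) = 1 := by
  have := NumberField.house_intCast (K := K) 1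
  simpa using this

/-- the sum of the houses of the coefficients -/
noncomputable def hs (F : MvPolynomial σ K) : ℝ := ∑ s ∈ F.support, NumberField.house (F.coeff s)

lemma hs_eq (F : MvPolynomial σ K) {T : Finset (σ →₀ ℕ)} (h : F.support ⊆ T) :
    hs F = ∑ s ∈ T, NumberField.house (F.coeff s) := by
  unfold hs
  refine Finset.sum_subset h fun s _ hs' => ?_
  rw [MvPolynomial.notMem_support_iff.1 hs', house_zero']

lemma hs_nonneg (F : MvPolynomial σ K) : 0 ≤ hs F :=
  Finset.sum_nonneg fun _ _ => NumberField.house_nonneg _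

lemma coeff_le_hs (F : MvPolynomial σ K) (s : σ →₀ ℕ) : NumberField.house (F.coeff s) ≤ hs F := by
  classical
  rw [hs_eq F (Finset.subset_insert s F.support)]
  exact Finset.single_le_sum (f := fun s => NumberField.house (F.coeff s))
    (fun _ _ => NumberField.house_nonneg _) (Finset.mem_insert_self _ _)

lemma hs_add (F G : MvPolynomial σ K) : hs (F + G) ≤ hs F + hs G := by
  classical
  rw [hs_eq (F + G) (T := F.support ∪ G.support) MvPolynomial.support_add,
    hs_eq F (T := F.support ∪ G.support) Finset.subset_union_left,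
    hs_eq G (T := F.support ∪ G.support) Finset.subset_union_right, ← Finset.sum_add_distrib]
  refine Finset.sum_le_sum fun s _ => ?_
  rw [MvPolynomial.coeff_add]
  exact NumberField.house_add_le _ _

lemma hs_zero : hs (0 : MvPolynomial σ K) = 0 := by
  simp [hs]

lemma hs_sum {ι : Type*} (T : Finset ι) (F : ι → MvPolynomial σ K) :
    hs (∑ i ∈ T, F i) ≤ ∑ i ∈ T, hs (F i) := by
  classical
  induction T using Finset.induction_on with
  | empty => simp [hs_zero]
  | insert a T ha ih =>
    rw [Finset.sum_insert ha, Finset.sum_insert ha]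
    exact (hs_add _ _).trans (by linarith)

lemma hs_monomial (s : σ →₀ ℕ) (a : K) :
    hs (MvPolynomial.monomial s a) = NumberField.house a := by
  classical
  rw [hs_eq (MvPolynomial.monomial s a) MvPolynomial.support_monomial_subset,
    Finset.sum_singleton, MvPolynomial.coeff_monomial, if_pos rfl]

lemma hs_mul (F G : MvPolynomial σ K) : hs (F * G) ≤ hs F * hs G := by
  have h1 : F * G = ∑ a ∈ F.support, ∑ b ∈ G.support,
      MvPolynomial.monomial (a + b) (F.coeff a * G.coeff b) := by
    rw [MvPolynomial.mul_def]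
    rfl
  rw [h1]
  refine (hs_sum _ _).trans ?_
  have h2 : hs F * hs G = ∑ a ∈ F.support, ∑ b ∈ G.support,
      NumberField.house (F.coeff a) * NumberField.house (G.coeff b) := by
    unfold hs
    rw [Finset.sum_mul_sum]
  rw [h2]
  refine Finset.sum_le_sum fun a _ => (hs_sum _ _).trans (Finset.sum_le_sum fun b _ => ?_)
  rw [hs_monomial]
  exact NumberField.house_mul_le _ _

lemma hs_one : hs (1 : MvPolynomial σ K) = 1 := by
  have := hs_monomial (K := K) (0 : σ →₀ ℕ) 1
  rw [house_one'] at this
  simpa using this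

lemma hs_pow (F : MvPolynomial σ K) (n : ℕ) : hs (F ^ n) ≤ hs F ^ n := by
  induction n with
  | zero => rw [pow_zero, pow_zero, hs_one]
  | succ n ih =>
    rw [pow_succ, pow_succ]
    exact (hs_mul _ _).trans (mul_le_mul_of_nonneg_right ih (hs_nonneg _))

lemma hs_prod {ι : Type*} (T : Finset ι) (F : ι → MvPolynomial σ K) :
    hs (∏ i ∈ T, F i) ≤ ∏ i ∈ T, hs (F i) := by
  classical
  induction T using Finset.induction_on with
  | empty => simp [hs_one]
  | insert a T ha ih =>
    rw [Finset.prod_insert ha, Finset.prod_insert ha]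
    exact (hs_mul _ _).trans (mul_le_mul_of_nonneg_left ih (hs_nonneg _))

/-- all coefficients are integral -/
def II (F : MvPolynomial σ K) : Prop := ∀ s, IsIntegral ℤ (F.coeff s)

lemma ii_sum {ι : Type*} (T : Finset ι) (F : ι → MvPolynomial σ K) (h : ∀ i ∈ T, II (F i)) :
    II (∑ i ∈ T, F i) := by
  intro s
  rw [MvPolynomial.coeff_sum]
  exact IsIntegral.sum _ fun i hi => h i hi s

lemma ii_mul {F G : MvPolynomial σ K} (hF : II F) (hG : II G) : II (F * G) := by
  classical
  intro s
  rw [MvPolynomial.coeff_mul]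
  exact IsIntegral.sum _ fun x _ => (hF x.1).mul (hG x.2)

lemma ii_monomial (t : σ →₀ ℕ) {a : K} (ha : IsIntegral ℤ a) : II (MvPolynomial.monomial t a) := by
  classical
  intro s
  rw [MvPolynomial.coeff_monomial]
  split_ifs
  · exact ha
  · exact isIntegral_zero

lemma ii_one : II (1 : MvPolynomial σ K) := by
  have := ii_monomial (K := K) (0 : σ →₀ ℕ) (isIntegral_one (R := ℤ) (B := K))
  simpa using this

lemma ii_pow {F : MvPolynomial σ K} (hF : II F) (n : ℕ) : II (F ^ n) := by
  induction n with
  | zero => rw [pow_zero]; exact ii_one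
  | succ n ih => rw [pow_succ]; exact ii_mul ih hF

lemma ii_prod {ι : Type*} (T : Finset ι) (F : ι → MvPolynomial σ K) (h : ∀ i ∈ T, II (F i)) :
    II (∏ i ∈ T, F i) := by
  classical
  induction T using Finset.induction_on with
  | empty => rw [Finset.prod_empty]; exact ii_one
  | insert a T ha ih =>
    rw [Finset.prod_insert ha]
    exact ii_mul (h a (Finset.mem_insert_self _ _))
      (ih fun i hi => h i (Finset.mem_insert_of_mem hi))

/-- a common denominator -/
lemma exists_den {N : ℕ} (M : Matrix (Fin N) (Fin N) K) :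
    ∃ b : ℕ, 0 < b ∧ ∀ i j, IsIntegral ℤ ((b : K) * M i j) := by
  classical
  obtain ⟨y, hy, h⟩ := exists_integral_multiples ℤ ℚ
    ((Finset.univ : Finset (Fin N × Fin N)).image fun p => M p.1 p.2)
  obtain ⟨n, hn⟩ := Int.eq_nat_or_neg y
  have hn0 : 0 < n := by
    rcases Nat.eq_zero_or_pos n with h0 | h0
    · subst h0
      exfalso
      rcases hn with h1 | h1 <;> exact hy (by simpa using h1)
    · exact h0
  refine ⟨n, hn0, fun i j => ?_⟩
  have h1 := h (M i j) (Finset.mem_image.2 ⟨(i, j), Finset.mem_univ _, rfl⟩)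
  rw [zsmul_eq_mul] at h1
  rcases hn with h2 | h2
  · rw [h2] at h1
    simpa using h1
  · rw [h2] at h1
    have h3 := h1.neg
    simpa using h3

end COEM

open COEM in
theorem specCOE : SpecCOE := by
  classical
  intro K _ _ N M
  obtain ⟨b, hb, hint⟩ := exists_den M
  obtain ⟨H, hH⟩ : ∃ H : ℝ, H = max 1 (∑ i, ∑ j, NumberField.house ((b : K) * M i j)) := ⟨_, rfl⟩
  have hH1 : 1 ≤ H := by rw [hH]; exact le_max_left _ _
  refine ⟨b, Real.log H, hb, Real.log_nonneg hH1, fun m J s => ?_⟩
  obtain ⟨φ, hφ⟩ : ∃ φ : Fin m × Fin N → MvPolynomial (Fin m × Fin N) K, ∀ p, φ p =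
    ∑ j, MvPolynomial.monomial (Finsupp.single ((p.1, j) : Fin m × Fin N) 1)
      ((b : K) * M p.2 j) := ⟨_, fun _ => rfl⟩
  have hφI : ∀ p, II (φ p) := by
    intro p
    rw [hφ]
    exact ii_sum _ _ fun j _ => ii_monomial _ (hint p.2 j)
  have hφH : ∀ p, hs (φ p) ≤ H := by
    intro p
    rw [hφ, hH]
    refine (hs_sum _ _).trans (le_trans ?_ (le_max_right _ _))
    have h1 : ∑ j, hs (MvPolynomial.monomial (Finsupp.single ((p.1, j) : Fin m × Fin N) 1)
        ((b : K) * M p.2 j)) = ∑ j, NumberField.house ((b : K) * M p.2 j) :=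
      Finset.sum_congr rfl fun j _ => hs_monomial _ _
    rw [h1]
    exact Finset.single_le_sum (f := fun i => ∑ j, NumberField.house ((b : K) * M i j))
      (fun _ _ => Finset.sum_nonneg fun _ _ => NumberField.house_nonneg _) (Finset.mem_univ p.2)
  -- the product
  have hprod : MvPolynomial.C ((b : K) ^ (∑ p, J p)) * sbs M (MvPolynomial.monomial J (1 : ℤ)) =
      ∏ p, φ p ^ J p := by
    unfold sbs
    rw [MvPolynomial.aeval_monomial, map_one, one_mul, Finsupp.prod_fintype _ _ (by simp),
      map_pow, ← Finset.prod_pow_eq_pow_sum, ← Finset.prod_mul_distrib]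
    refine Finset.prod_congr rfl fun p _ => ?_
    rw [← mul_pow]
    congr 1
    rw [hφ, Finset.mul_sum]
    refine Finset.sum_congr rfl fun j _ => ?_
    rw [← mul_assoc, ← MvPolynomial.C_mul, MvPolynomial.C_mul_X_eq_monomial]
  have hco : (b : K) ^ (∑ p, J p) * (sbs M (MvPolynomial.monomial J (1 : ℤ))).coeff s =
      (∏ p, φ p ^ J p).coeff s := by
    rw [← hprod, MvPolynomial.coeff_C_mul]
  rw [hco]
  refine ⟨ii_prod _ _ (fun p _ => ii_pow (hφI p) _) s, ?_⟩
  refine (coeff_le_hs _ _).trans ?_
  have h1 : hs (∏ p, φ p ^ J p) ≤ ∏ p, H ^ J p :=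
    (hs_prod _ _).trans (Finset.prod_le_prod (fun p _ => hs_nonneg _) fun p _ =>
      (hs_pow _ _).trans (pow_le_pow_left₀ (hs_nonneg _) (hφH p) _))
  refine h1.trans (le_of_eq ?_)
  have hH0 : 0 < H := by linarith
  rw [Finset.prod_pow_eq_pow_sum, Real.exp_mul, Real.exp_log hH0]
  rw [← Real.rpow_natCast]
  congr 1
  push_cast
  rfl

end Pool.Agent.Lib.MP_d0e829_nt.SS
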