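import Pool.Agent.Lib.MP_d0e829_nt.SS.SpecA

/-!
# SS, module DAV (helper53): Davenport's lemma at one place
-/

set_option autoImplicit false

open NumberField

namespace Pool.Agent.Lib.MP_d0e829_nt.SS

open scoped Classical

namespace DAVM

variable {K : Type} [Field K] [NumberField K]

/-- on `T_j` the forms `π 0, …, π (j-1)` control all the forms -/
def Q {N : ℕ} (L : Matrix (Fin N) (Fin N) K) (v : Place K) (r : Fin N → ℝ) (x : Fin N → Fin N → K)
    (j : ℕ) (π : Equiv.Perm (Fin N)) : Prop :=
  ∀ y : Fin N → K, y ∈ Fl x j → ∀ B : ℝ, 0 ≤ B →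
    (∀ i : Fin N, (i : ℕ) < j → absV v (L.mulVec y (π i)) * Real.exp (-(r (π i))) ≤ B) →
    ∀ i : Fin N, absV v (L.mulVec y i) * Real.exp (-(r i)) ≤ (((N : ℝ) ^ sw v) ^ (N - j)) * B

/-- a relation between `m + 1` forms on `T_m` -/
theorem relation {N m : ℕ} (hm : m + 1 ≤ N) (L : Matrix (Fin N) (Fin N) K)
    (x : Fin N → Fin N → K) (π : Equiv.Perm (Fin N)) :
    ∃ b : Fin (m + 1) → K, b ≠ 0 ∧ ∀ y ∈ Fl x m,
      ∑ i : Fin (m + 1), b i * L.mulVec y (π (Fin.castLE hm i)) = 0 := by
  let f : (Fin (m + 1) → K) →ₗ[K] (Fin m → K) :=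
    Matrix.mulVecLin (Matrix.of fun (k : Fin m) (i : Fin (m + 1)) =>
      L.mulVec (x (Fin.castLE (by omega) k)) (π (Fin.castLE hm i)))
  have hker : LinearMap.ker f ≠ ⊥ := by
    apply LinearMap.ker_ne_bot_of_finrank_lt
    simp
  obtain ⟨b, hb, hb0⟩ := Submodule.exists_mem_ne_zero_of_ne_bot hker
  refine ⟨b, hb0, ?_⟩
  have hk : ∀ k : Fin m, ∑ i : Fin (m + 1), b i * L.mulVec (x (Fin.castLE (by omega) k))
      (π (Fin.castLE hm i)) = 0 := by
    intro k
    have h1 := congrFun (LinearMap.mem_ker.1 hb) k
    simp only [f, Matrix.mulVecLin_apply, Matrix.mulVec, dotProduct, Matrix.of_apply, Pi.zero_apply] at h1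
    rw [← h1]
    apply Finset.sum_congr rfl
    intro i _
    simp only [Matrix.mulVec, dotProduct]
    ring
  intro y hy
  unfold Fl at hy
  refine Submodule.span_induction (p := fun y _ =>
    ∑ i : Fin (m + 1), b i * L.mulVec y (π (Fin.castLE hm i)) = 0) ?_ ?_ ?_ ?_ hy
  · rintro y ⟨k, hk1, rfl⟩
    have h2 := hk ⟨(k : ℕ), hk1⟩
    exact h2
  · simp
  · intro y z _ _ h1 h2
    simp only [Matrix.mulVec_add, Pi.add_apply, mul_add, Finset.sum_add_distrib, h1, h2, add_zero]
  · intro c y _ h1
    simp only [Matrix.mulVec_smul, Pi.smul_apply, smul_eq_mul]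
    have : ∀ i : Fin (m + 1), b i * (c * L.mulVec y (π (Fin.castLE hm i))) =
        c * (b i * L.mulVec y (π (Fin.castLE hm i))) := fun i => by ring
    simp only [this, ← Finset.mul_sum, h1, mul_zero]

/-- the step -/
theorem step {N : ℕ} (L : Matrix (Fin N) (Fin N) K) (v : Place K) (r : Fin N → ℝ)
    (x : Fin N → Fin N → K) (m : ℕ) (hm : m + 1 ≤ N) (π : Equiv.Perm (Fin N))
    (hQ : ∀ j, m + 1 ≤ j → j ≤ N → Q L v r x j π) :
    ∃ π' : Equiv.Perm (Fin N), ∀ j, m ≤ j → j ≤ N → Q L v r x j π' := by
  obtain ⟨b, hb0, hb⟩ := relation hm L x π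
  obtain ⟨l, hl⟩ := Finite.exists_max (fun i : Fin (m + 1) =>
    absV v (b i) * Real.exp (r (π (Fin.castLE hm i))))
  have hbl : 0 < absV v (b l) := by
    obtain ⟨i, hi⟩ := Function.ne_iff.1 hb0
    have h1 : 0 < absV v (b i) * Real.exp (r (π (Fin.castLE hm i))) :=
      mul_pos (absV_pos v hi) (Real.exp_pos _)
    have h2 := lt_of_lt_of_le h1 (hl i)
    exact pos_of_mul_pos_left h2 (Real.exp_pos _).le
  have hbl0 : b l ≠ 0 := by
    intro h
    rw [h, absV_zero] at hbl
    exact lt_irrefl _ hbl
  set c : Fin N := Fin.castLE hm l with hc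
  set d : Fin N := ⟨m, by omega⟩ with hd
  have hcm : (c : ℕ) ≤ m := by
    have := l.2
    simp only [hc, Fin.val_castLE]
    omega
  have hdm : (d : ℕ) = m := rfl
  have hN1 : (1 : ℝ) ≤ (N : ℝ) ^ sw v := by
    apply Real.one_le_rpow
    · have : 1 ≤ N := by omega
      exact_mod_cast this
    · exact sw_nonneg v
  refine ⟨(Equiv.swap c d).trans π, ?_⟩
  have hsw : ∀ (j : ℕ), m + 1 ≤ j → ∀ i : Fin N, (i : ℕ) < j → ((Equiv.swap c d i : Fin N) : ℕ) < j := by
    intro j hj i hi
    rcases eq_or_ne i c with h | h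
    · rw [h, Equiv.swap_apply_left, hdm]
      omega
    · rcases eq_or_ne i d with h' | h'
      · rw [h', Equiv.swap_apply_right]
        omega
      · rw [Equiv.swap_apply_of_ne_of_ne h h']
        exact hi
  have hbig : ∀ j, m + 1 ≤ j → j ≤ N → Q L v r x j ((Equiv.swap c d).trans π) := by
    intro j hj hjN y hy B hB h
    refine hQ j hj hjN y hy B hB fun i hi => ?_
    have h1 := h (Equiv.swap c d i) (hsw j hj i hi)
    simpa only [Equiv.trans_apply, Equiv.swap_apply_self] using h1
  intro j hj hjN
  rcases Nat.lt_or_ge m j with hlt | hge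
  · exact hbig j hlt hjN
  · have hjm : j = m := le_antisymm hge hj
    subst hjm
    intro y hy B hB h
    have hrel := hb y hy
    -- all the forms with index `< m + 1`, except `l`
    have hoth : ∀ i : Fin N, (i : ℕ) < j + 1 → i ≠ c →
        absV v (L.mulVec y (π i)) * Real.exp (-(r (π i))) ≤ B := by
      intro i hi hic
      have h1 := h (Equiv.swap c d i) ?_
      · simpa only [Equiv.trans_apply, Equiv.swap_apply_self] using h1
      · rcases eq_or_ne i d with h' | h'
        · rw [h', Equiv.swap_apply_right]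
          have : (c : ℕ) ≠ j := by
            intro hcj
            apply hic
            rw [h']
            apply Fin.ext
            rw [hcj]
          omega
        · rw [Equiv.swap_apply_of_ne_of_ne hic h']
          have : (i : ℕ) ≠ j := by
            intro hij
            apply h'
            apply Fin.ext
            rw [hij]
          omega
    have hl2 : absV v (L.mulVec y (π c)) * Real.exp (-(r (π c))) ≤ (N : ℝ) ^ sw v * B := by
      have e1 : L.mulVec y (π c) = ∑ i ∈ Finset.univ.erase l,
          (-(b i / b l)) * L.mulVec y (π (Fin.castLE hm i)) := by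
        rw [← Finset.add_sum_erase Finset.univ _ (Finset.mem_univ l)] at hrel
        have h2 : b l * L.mulVec y (π c) =
            -∑ i ∈ Finset.univ.erase l, b i * L.mulVec y (π (Fin.castLE hm i)) := by
          rw [hc]
          linear_combination hrel
        have h3 : ∑ i ∈ Finset.univ.erase l, (-(b i / b l)) * L.mulVec y (π (Fin.castLE hm i)) =
            (b l)⁻¹ * -∑ i ∈ Finset.univ.erase l, b i * L.mulVec y (π (Fin.castLE hm i)) := by
          rw [mul_neg, Finset.mul_sum, ← Finset.sum_neg_distrib]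
          apply Finset.sum_congr rfl
          intro i _
          field_simp
        rw [h3, ← h2, ← mul_assoc, inv_mul_cancel₀ hbl0, one_mul]
      have e2 : ∀ i ∈ Finset.univ.erase l,
          absV v ((-(b i / b l)) * L.mulVec y (π (Fin.castLE hm i))) ≤ B * Real.exp (r (π c)) := by
        intro i hi
        have hil : i ≠ l := (Finset.mem_erase.1 hi).1
        have h1 := hoth (Fin.castLE hm i) (by simp only [Fin.val_castLE]; exact i.2) (by
          intro hcon
          apply hil
          rw [hc] at hcon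
          exact Fin.castLE_injective hm hcon)
        have h2 := hl i
        have e3 : absV v (-(b i / b l)) * absV v (b l) = absV v (b i) := by
          rw [← absV_mul, neg_mul, div_mul_cancel₀ _ hbl0, absV_neg]
        have h3 : absV v (-(b i / b l)) * Real.exp (r (π (Fin.castLE hm i))) ≤ Real.exp (r (π c)) := by
          rw [← mul_le_mul_iff_of_pos_right hbl]
          calc absV v (-(b i / b l)) * Real.exp (r (π (Fin.castLE hm i))) * absV v (b l)
              = absV v (b i) * Real.exp (r (π (Fin.castLE hm i))) := by rw [← e3]; ring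
            _ ≤ absV v (b l) * Real.exp (r (π (Fin.castLE hm l))) := h2
            _ = Real.exp (r (π c)) * absV v (b l) := by rw [hc]; ring
        have h4 : absV v (L.mulVec y (π (Fin.castLE hm i))) ≤ B * Real.exp (r (π (Fin.castLE hm i))) := by
          calc absV v (L.mulVec y (π (Fin.castLE hm i)))
              = absV v (L.mulVec y (π (Fin.castLE hm i))) * Real.exp (-(r (π (Fin.castLE hm i)))) *
                Real.exp (r (π (Fin.castLE hm i))) := by
                rw [mul_assoc, ← Real.exp_add, neg_add_cancel, Real.exp_zero, mul_one]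
            _ ≤ B * Real.exp (r (π (Fin.castLE hm i))) := by gcongr
        rw [absV_mul]
        calc absV v (-(b i / b l)) * absV v (L.mulVec y (π (Fin.castLE hm i)))
            ≤ absV v (-(b i / b l)) * (B * Real.exp (r (π (Fin.castLE hm i)))) :=
              mul_le_mul_of_nonneg_left h4 (absV_nonneg v _)
          _ = B * (absV v (-(b i / b l)) * Real.exp (r (π (Fin.castLE hm i)))) := by ring
          _ ≤ B * Real.exp (r (π c)) := mul_le_mul_of_nonneg_left h3 hB
      have e4 := absV_sum_le v (Finset.univ.erase l)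
        (fun i => (-(b i / b l)) * L.mulVec y (π (Fin.castLE hm i)))
        (B := B * Real.exp (r (π c))) (by positivity) e2
      rw [← e1] at e4
      have e5 : (((Finset.univ.erase l : Finset (Fin (j + 1))).card : ℝ)) ^ sw v ≤ (N : ℝ) ^ sw v := by
        apply Real.rpow_le_rpow (by positivity) _ (sw_nonneg v)
        rw [Finset.card_erase_of_mem (Finset.mem_univ l), Finset.card_univ, Fintype.card_fin]
        have : j + 1 - 1 ≤ N := by omega
        exact_mod_cast this
      calc absV v (L.mulVec y (π c)) * Real.exp (-(r (π c)))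
          ≤ ((N : ℝ) ^ sw v * (B * Real.exp (r (π c)))) * Real.exp (-(r (π c))) := by
            apply mul_le_mul_of_nonneg_right _ (Real.exp_pos _).le
            refine e4.trans ?_
            exact mul_le_mul_of_nonneg_right e5 (by positivity)
        _ = (N : ℝ) ^ sw v * B * (Real.exp (r (π c)) * Real.exp (-(r (π c)))) := by ring
        _ = (N : ℝ) ^ sw v * B := by
            rw [← Real.exp_add, add_neg_cancel, Real.exp_zero, mul_one]
    have hB' : B ≤ (N : ℝ) ^ sw v * B := le_mul_of_one_le_left hB hN1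
    have hyj : y ∈ Fl x (j + 1) := by
      unfold Fl at hy ⊢
      refine Submodule.span_mono (Set.image_mono ?_) hy
      intro i hi
      simp only [Set.mem_ofPred_eq] at hi ⊢
      omega
    have hfin := hQ (j + 1) le_rfl hm y hyj ((N : ℝ) ^ sw v * B) (by positivity) (fun i hi => by
      rcases eq_or_ne i c with h' | h'
      · rw [h']
        exact hl2
      · exact (hoth i hi h').trans hB')
    intro i
    refine (hfin i).trans (le_of_eq ?_)
    have : N - j = (N - (j + 1)) + 1 := by omega
    rw [this, pow_succ]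
    ring

theorem main {N : ℕ} (L : Matrix (Fin N) (Fin N) K) (v : Place K) (r : Fin N → ℝ)
    (x : Fin N → Fin N → K) (k : ℕ) : k ≤ N →
    ∃ π : Equiv.Perm (Fin N), ∀ j, N - k ≤ j → j ≤ N → Q L v r x j π := by
  induction k with
  | zero =>
    intro _
    refine ⟨Equiv.refl _, fun j hj hjN => ?_⟩
    have hjN' : j = N := by omega
    subst hjN'
    intro y _ B hB h i
    rw [Nat.sub_self, pow_zero, one_mul]
    exact h i i.2
  | succ k ih =>
    intro hk
    obtain ⟨π, hπ⟩ := ih (by omega)
    obtain ⟨π', hπ'⟩ := step L v r x (N - (k + 1)) (by omega) π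
      (fun j hj hjN => hπ j (by omega) hjN)
    exact ⟨π', hπ'⟩

end DAVM

open DAVM in
theorem specDAV : SpecDAV := by
  intro K _ _ N L v r x _
  obtain ⟨π, hπ⟩ := main L v r x N le_rfl
  refine ⟨π, fun j y hy B hB h => ?_⟩
  rcases Nat.eq_zero_or_pos N with hN | hN
  · subst hN
    refine tw_le L r v y (by positivity) fun i => i.elim0
  have hN1 : (1 : ℝ) ≤ (N : ℝ) ^ sw v := by
    apply Real.one_le_rpow
    · exact_mod_cast hN
    · exact sw_nonneg v
  have hpow : ((N : ℝ) ^ sw v) ^ N = (N : ℝ) ^ ((N : ℝ) * sw v) := by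
    rw [← Real.rpow_natCast, ← Real.rpow_mul (by positivity)]
    congr 1
    ring
  rw [← hpow]
  refine tw_le L r v y (by positivity) fun i => ?_
  rcases Nat.lt_or_ge N j with hlt | hge
  · have h1 := h (π.symm i) (lt_trans (π.symm i).2 hlt)
    rw [Equiv.apply_symm_apply] at h1
    refine h1.trans (le_mul_of_one_le_left hB (one_le_pow₀ hN1))
  · have h1 := hπ j (by omega) hge y hy B hB h i
    refine h1.trans ?_
    apply mul_le_mul_of_nonneg_right _ hB
    exact pow_le_pow_right₀ hN1 (Nat.sub_le _ _)

end Pool.Agent.Lib.MP_d0e829_nt.SS
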