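import Pool.Agent.Lib.MP_d0e829_nt.SS.SpecB

/-!
DEG: choice of the degrees.
-/

set_option autoImplicit false

open NumberField

namespace Pool.Agent.Lib.MP_d0e829_nt.SS

theorem specDEG : SpecDEG := by
  intro m τ t₁ η ht hη hη1 hτ
  have hτ0 : ∀ h, 0 < τ h := fun h => lt_of_lt_of_le ht (hτ h)
  set D : ℝ := (∑ h, τ h) / η + 1 with hD
  have hs : 0 ≤ ∑ h, τ h := Finset.sum_nonneg fun h _ => (hτ0 h).le
  have hDpos : 0 < D := by positivity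
  have hτD : ∀ h, τ h ≤ η * D := by
    intro h
    have h1 : τ h ≤ ∑ h, τ h := Finset.single_le_sum (fun h _ => (hτ0 h).le) (Finset.mem_univ h)
    have h2 : η * D = (∑ h, τ h) + η := by
      rw [hD]
      field_simp
    rw [h2]
    linarith
  refine ⟨D, fun h => ⌈D / τ h⌉₊, hDpos, fun h => ?_⟩
  have h0 := hτ0 h
  have h1 : D / τ h ≤ (⌈D / τ h⌉₊ : ℝ) := Nat.le_ceil _
  have h2 : (⌈D / τ h⌉₊ : ℝ) < D / τ h + 1 := Nat.ceil_lt_add_one (by positivity)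
  have h3 : D ≤ τ h * (⌈D / τ h⌉₊ : ℝ) := by
    rw [div_le_iff₀ h0] at h1
    linarith
  have h4 : τ h * (⌈D / τ h⌉₊ : ℝ) ≤ (1 + η) * D := by
    have h5 : τ h * (⌈D / τ h⌉₊ : ℝ) ≤ τ h * (D / τ h + 1) :=
      mul_le_mul_of_nonneg_left h2.le h0.le
    have h6 : τ h * (D / τ h + 1) = D + τ h := by
      field_simp
    have h7 := hτD h
    linarith
  refine ⟨Nat.ceil_pos.2 (by positivity), h3, h4, ?_⟩
  have h8 : (⌈D / τ h⌉₊ : ℝ) * t₁ ≤ (⌈D / τ h⌉₊ : ℝ) * τ h :=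
    mul_le_mul_of_nonneg_left (hτ h) (Nat.cast_nonneg _)
  have h9 : (1 + η) * D ≤ 2 * D := mul_le_mul_of_nonneg_right (by linarith) hDpos.le
  linarith

end Pool.Agent.Lib.MP_d0e829_nt.SS
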