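import Pool.Agent.Lib.MP_d0e829_nt.SS.SpecB

/-!
# DPR: the product formula for the pairing of dual systems
-/

set_option autoImplicit false

open NumberField

namespace Pool.Agent.Lib.MP_d0e829_nt.SS

open scoped Classical

/-- DPR -/
theorem specDPR : SpecDPR := by
  intro K _ _ N hN S L hL
  have hNr : (1 : ℝ) ≤ N := by exact_mod_cast (by omega : 1 ≤ N)
  have hN0 : (0 : ℝ) < N := lt_of_lt_of_le one_pos hNr
  refine ⟨Real.log N, Real.log_nonneg hNr, ?_⟩
  intro r b x hne
  have hb : b ≠ 0 := by
    rintro rfl
    exact hne (by simp)
  have hx : x ≠ 0 := by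
    rintro rfl
    exact hne (by simp)
  have hdL : ∀ v ∈ S, (dL L v).det ≠ 0 := by
    intro v hv
    unfold dL
    rw [Matrix.det_transpose]
    have hu : IsUnit (L v).det := (hL v hv).isUnit
    exact (Matrix.isUnit_nonsing_inv_det _ hu).ne_zero
  -- the local estimate
  have hloc : ∀ v : Place K, absV v (∑ i, b i * x i) ≤
      (N : ℝ) ^ sw v * (lcn S (dL L) (fun v i => -r v i) v b * lcn S L r v x) := by
    intro v
    by_cases hv : v ∈ S
    · have e : ∑ i, b i * x i = ∑ j, (dL L v).mulVec b j * (L v).mulVec x j := by
        have hu : IsUnit (L v).det := (hL v hv).isUnit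
        have h1 : (dL L v).mulVec b ⬝ᵥ (L v).mulVec x = b ⬝ᵥ x := by
          unfold dL
          rw [Matrix.mulVec_transpose, ← Matrix.dotProduct_mulVec, Matrix.mulVec_mulVec,
            Matrix.nonsing_inv_mul _ hu, Matrix.one_mulVec]
        exact h1.symm
      rw [e]
      have h2 := absV_sum_le v (Finset.univ : Finset (Fin N))
        (fun j => (dL L v).mulVec b j * (L v).mulVec x j)
        (B := tw (dL L v) (fun i => -r v i) v b * tw (L v) (r v) v x)
        (mul_nonneg (tw_nonneg _ _ _ _) (tw_nonneg _ _ _ _)) (by
          intro j _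
          rw [absV_mul]
          calc absV v ((dL L v).mulVec b j) * absV v ((L v).mulVec x j)
              ≤ (tw (dL L v) (fun i => -r v i) v b * Real.exp (-r v j)) *
                (tw (L v) (r v) v x * Real.exp (r v j)) :=
                mul_le_mul (absV_form_le _ _ _ _ _) (absV_form_le _ _ _ _ _)
                  (absV_nonneg _ _) (mul_nonneg (tw_nonneg _ _ _ _) (Real.exp_pos _).le)
            _ = tw (dL L v) (fun i => -r v i) v b * tw (L v) (r v) v x *
                (Real.exp (-r v j) * Real.exp (r v j)) := by ring
            _ = tw (dL L v) (fun i => -r v i) v b * tw (L v) (r v) v x := by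
                rw [← Real.exp_add]; simp)
      rw [Finset.card_univ, Fintype.card_fin] at h2
      simpa only [lcn, if_pos hv] using h2
    · have h2 := absV_sum_le v (Finset.univ : Finset (Fin N))
        (fun j => b j * x j) (B := nrm v b * nrm v x)
        (mul_nonneg (nrm_nonneg _ _) (nrm_nonneg _ _)) (by
          intro j _
          rw [absV_mul]
          exact mul_le_mul (absV_le_nrm v b j) (absV_le_nrm v x j) (absV_nonneg _ _)
            (nrm_nonneg _ _))
      rw [Finset.card_univ, Fintype.card_fin] at h2
      simpa only [lcn, if_neg hv] using h2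
  have hlog : ∀ v : Place K, Real.log (absV v (∑ i, b i * x i)) ≤
      sw v * Real.log N + (Real.log (lcn S (dL L) (fun v i => -r v i) v b) +
        Real.log (lcn S L r v x)) := by
    intro v
    have p1 := lcn_pos hdL (fun v i => -r v i) v hb
    have p2 := lcn_pos hL r v hx
    have p3 : (0 : ℝ) < (N : ℝ) ^ sw v := Real.rpow_pos_of_pos hN0 _
    calc Real.log (absV v (∑ i, b i * x i)) ≤ Real.log ((N : ℝ) ^ sw v *
          (lcn S (dL L) (fun v i => -r v i) v b * lcn S L r v x)) :=
          Real.log_le_log (absV_pos v hne) (hloc v)
      _ = _ := by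
          rw [Real.log_mul p3.ne' (mul_pos p1 p2).ne', Real.log_rpow hN0,
            Real.log_mul p1.ne' p2.ne']
  have s1 : (Function.support fun v : Place K => sw v * Real.log N).Finite :=
    support_sw_finite.subset (by
      intro v hv h0
      apply hv
      simp only at h0 ⊢
      rw [h0, zero_mul])
  have s2 := support_log_lcn_finite S (dL L) (fun v i => -r v i) hb
  have s3 := support_log_lcn_finite S L r hx
  have s23 : (Function.support fun v : Place K =>
      Real.log (lcn S (dL L) (fun v i => -r v i) v b) + Real.log (lcn S L r v x)).Finite :=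
    (s2.union s3).subset (Function.support_add _ _)
  have s4 : (Function.support fun v : Place K => sw v * Real.log N +
      (Real.log (lcn S (dL L) (fun v i => -r v i) v b) + Real.log (lcn S L r v x))).Finite :=
    (s1.union s23).subset (Function.support_add _ _)
  have hsum := finsum_mono (support_log_absV_finite hne) s4 hlog
  rw [product_formula hne, finsum_add_distrib s1 s23, finsum_add_distrib s2 s3] at hsum
  have e1 : ∑ᶠ v : Place K, sw v * Real.log N = Real.log N := by
    rw [← finsum_mul, finsum_sw, one_mul]
  rw [e1] at hsum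
  unfold htw
  linarith

end Pool.Agent.Lib.MP_d0e829_nt.SS
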