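import Pool.Agent.Lib.MP_d0e829_nt.SS.SpecA

/-!
# GAP: a gap at any place
-/

set_option autoImplicit false

open NumberField

namespace Pool.Agent.Lib.MP_d0e829_nt.SS

open scoped Classical

namespace GAPM

variable {K : Type} [Field K] [NumberField K]

lemma absV_prod {ι : Type*} (w : Place K) (s : Finset ι) (f : ι → K) :
    absV w (∏ i ∈ s, f i) = ∏ i ∈ s, absV w (f i) := by
  induction s using Finset.induction_on with
  | empty => simp
  | insert a s ha ih => rw [Finset.prod_insert ha, Finset.prod_insert ha, absV_mul, ih]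

lemma absV_det_le {p : ℕ} (w : Place K) (A : Matrix (Fin p) (Fin p) K) (B R : Fin p → ℝ)
    (hB : ∀ s, 0 ≤ B s) (hR : ∀ s, 0 ≤ R s) (h : ∀ a b, absV w (A a b) ≤ B b * R a) :
    absV w A.det ≤ (p.factorial : ℝ) ^ sw w * ((∏ s, B s) * ∏ s, R s) := by
  have h0 : 0 ≤ (∏ s, B s) * ∏ s, R s :=
    mul_nonneg (Finset.prod_nonneg fun s _ => hB s) (Finset.prod_nonneg fun s _ => hR s)
  rw [Matrix.det_apply]
  have h1 := absV_sum_le w (Finset.univ : Finset (Equiv.Perm (Fin p)))
    (fun σ => Equiv.Perm.sign σ • ∏ i, A (σ i) i) h0 (fun σ _ => by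
      have h2 : absV w (Equiv.Perm.sign σ • ∏ i, A (σ i) i) = ∏ i, absV w (A (σ i) i) := by
        rw [← absV_prod]
        rcases Int.units_eq_one_or (Equiv.Perm.sign σ) with hs | hs
        · rw [hs, one_smul]
        · rw [hs, Units.neg_smul, one_smul, absV_neg]
      rw [h2]
      calc ∏ i, absV w (A (σ i) i) ≤ ∏ i, (B i * R (σ i)) :=
            Finset.prod_le_prod (fun i _ => absV_nonneg w _) (fun i _ => h _ _)
        _ = (∏ s, B s) * ∏ s, R s := by
          rw [Finset.prod_mul_distrib, Equiv.prod_comp σ R])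
  rwa [Finset.card_univ, Fintype.card_perm, Fintype.card_fin] at h1

lemma prod_orderEmb {N p : ℕ} (I : Sub N p) (f : Fin N → ℝ) :
    ∏ s : Fin p, f (I.1.orderEmbOfFin I.2 s) = ∏ i ∈ I.1, f i := by
  conv_rhs => rw [← Finset.map_orderEmbOfFin_univ I.1 I.2]
  rw [Finset.prod_map]
  rfl

lemma sum_orderEmb {N p : ℕ} (I : Sub N p) (f : Fin N → ℝ) :
    ∑ s : Fin p, f (I.1.orderEmbOfFin I.2 s) = ∑ i ∈ I.1, f i := by
  conv_rhs => rw [← Finset.map_orderEmbOfFin_univ I.1 I.2]
  rw [Finset.sum_map]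
  rfl

lemma absV_minor_le {N p : ℕ} (w : Place K) (A : Matrix (Fin N) (Fin N) K) (B R : Fin N → ℝ)
    (hB : ∀ s, 0 ≤ B s) (hR : ∀ s, 0 ≤ R s) (h : ∀ a b, absV w (A a b) ≤ B b * R a)
    (J I : Sub N p) :
    absV w (minor A J I) ≤ (p.factorial : ℝ) ^ sw w * ((∏ i ∈ I.1, B i) * ∏ j ∈ J.1, R j) := by
  have h1 := absV_det_le w (A.submatrix (fun a : Fin p => J.1.orderEmbOfFin J.2 a)
    (fun a : Fin p => I.1.orderEmbOfFin I.2 a)) (fun s => B (I.1.orderEmbOfFin I.2 s))
    (fun s => R (J.1.orderEmbOfFin J.2 s)) (fun s => hB _) (fun s => hR _) (fun a b => h _ _)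
  rwa [prod_orderEmb, prod_orderEmb] at h1

/-- the matrix with the columns `x j` -/
def XM {N : ℕ} (x : Fin N → Fin N → K) : Matrix (Fin N) (Fin N) K := fun i j => x j i

/-- the column `a` of the compound matrix -/
noncomputable def xc {N : ℕ} (p : ℕ) (X : Matrix (Fin N) (Fin N) K) (a : Fin (N.choose p)) :
    Fin (N.choose p) → K := fun b => cpd p X b a

lemma mulVec_xc (hCB : SpecCB) {N p : ℕ} (A X : Matrix (Fin N) (Fin N) K)
    (a : Fin (N.choose p)) : (cpd p A).mulVec (xc p X a) = xc p (A * X) a := by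
  funext b
  have h := congrFun (congrFun ((hCB K N p).1 A X) b) a
  rw [xc, h, Matrix.mul_apply]
  rfl

lemma det_cpd (hCB : SpecCB) {N : ℕ} (p : ℕ) {A : Matrix (Fin N) (Fin N) K} (hA : A.det ≠ 0) :
    (cpd p A).det ≠ 0 := by
  have h1 : A * A⁻¹ = 1 := Matrix.mul_nonsing_inv A (isUnit_iff_ne_zero.2 hA)
  have h2 := (hCB K N p).1 A A⁻¹
  rw [h1, (hCB K N p).2] at h2
  have h3 := congrArg Matrix.det h2
  rw [Matrix.det_one, Matrix.det_mul] at h3
  intro h
  rw [h, zero_mul] at h3
  exact one_ne_zero h3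

lemma det_XM {N : ℕ} {x : Fin N → Fin N → K} (hx : LinearIndependent K x) : (XM x).det ≠ 0 := by
  have h : LinearIndependent K (XM x).col := hx
  exact ((Matrix.isUnit_iff_isUnit_det _).1 (Matrix.linearIndependent_cols_iff_isUnit.1 h)).ne_zero

lemma li_xc (hCB : SpecCB) {N : ℕ} (p : ℕ) {X : Matrix (Fin N) (Fin N) K} (hX : X.det ≠ 0) :
    LinearIndependent K (xc p X) := by
  have h := Matrix.linearIndependent_cols_of_det_ne_zero (det_cpd hCB p hX)
  exact h

lemma local_le (hCB : SpecCB) {N p : ℕ} (S : Finset (Place K))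
    (L : Place K → Matrix (Fin N) (Fin N) K) (r : Place K → Fin N → ℝ) (x : Fin N → Fin N → K)
    (v : Place K) (a : Fin (N.choose p)) :
    lcn S (fun v => cpd p (L v)) (fun v b => ∑ i ∈ (eqv N p b).1, r v i) v (xc p (XM x) a) ≤
      (p.factorial : ℝ) ^ sw v * ∏ i ∈ (eqv N p a).1, lcn S L r v (x i) := by
  have hf : (0 : ℝ) ≤ (p.factorial : ℝ) ^ sw v := Real.rpow_nonneg (Nat.cast_nonneg _) _
  by_cases hv : v ∈ S
  · have e1 : ∀ y : Fin N → K, lcn S L r v y = tw (L v) (r v) v y := fun y => by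
      unfold lcn
      rw [if_pos hv]
    have e2 : lcn S (fun v => cpd p (L v)) (fun v b => ∑ i ∈ (eqv N p b).1, r v i) v
        (xc p (XM x) a) = tw (cpd p (L v)) (fun b => ∑ i ∈ (eqv N p b).1, r v i) v
          (xc p (XM x) a) := by
      unfold lcn
      rw [if_pos hv]
    rw [e2]
    simp only [e1]
    have hB : ∀ i, 0 ≤ tw (L v) (r v) v (x i) := fun i => tw_nonneg _ _ _ _
    refine tw_le _ _ _ _ (mul_nonneg hf (Finset.prod_nonneg fun i _ => hB i)) fun b => ?_
    rw [mulVec_xc hCB]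
    have h1 := absV_minor_le v (L v * XM x) (fun i => tw (L v) (r v) v (x i))
      (fun j => Real.exp (r v j)) hB (fun j => (Real.exp_pos _).le) (fun j i => by
        have h2 : (L v * XM x) j i = (L v).mulVec (x i) j := by
          rw [Matrix.mul_apply]
          rfl
        rw [h2]
        exact absV_form_le _ _ _ _ _) (eqv N p b) (eqv N p a)
    rw [← Real.exp_sum] at h1
    calc absV v (xc p (L v * XM x) a b) * Real.exp (-∑ i ∈ (eqv N p b).1, r v i)
        ≤ (p.factorial : ℝ) ^ sw v * ((∏ i ∈ (eqv N p a).1, tw (L v) (r v) v (x i)) *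
            Real.exp (∑ i ∈ (eqv N p b).1, r v i)) * Real.exp (-∑ i ∈ (eqv N p b).1, r v i) :=
          mul_le_mul_of_nonneg_right h1 (Real.exp_pos _).le
      _ = (p.factorial : ℝ) ^ sw v * (∏ i ∈ (eqv N p a).1, tw (L v) (r v) v (x i)) *
            (Real.exp (∑ i ∈ (eqv N p b).1, r v i) *
              Real.exp (-∑ i ∈ (eqv N p b).1, r v i)) := by ring
      _ = _ := by
          rw [← Real.exp_add, add_neg_cancel, Real.exp_zero, mul_one]
  · have e1 : ∀ y : Fin N → K, lcn S L r v y = nrm v y := fun y => by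
      unfold lcn
      rw [if_neg hv]
    have e2 : lcn S (fun v => cpd p (L v)) (fun v b => ∑ i ∈ (eqv N p b).1, r v i) v
        (xc p (XM x) a) = nrm v (xc p (XM x) a) := by
      unfold lcn
      rw [if_neg hv]
    rw [e2]
    simp only [e1]
    have hB : ∀ i, 0 ≤ nrm v (x i) := fun i => nrm_nonneg _ _
    refine nrm_le _ _ (mul_nonneg hf (Finset.prod_nonneg fun i _ => hB i)) fun b => ?_
    have h1 := absV_minor_le v (XM x) (fun i => nrm v (x i)) (fun _ => 1) hB
      (fun j => zero_le_one) (fun j i => by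
        rw [mul_one]
        exact absV_le_nrm v (x i) j) (eqv N p b) (eqv N p a)
    rwa [Finset.prod_const_one, mul_one] at h1

lemma htw_xc_le (hCB : SpecCB) {N p : ℕ} {S : Finset (Place K)}
    {L : Place K → Matrix (Fin N) (Fin N) K} (hL : ∀ v ∈ S, (L v).det ≠ 0)
    (r : Place K → Fin N → ℝ) {x : Fin N → Fin N → K} (hx : LinearIndependent K x)
    (a : Fin (N.choose p)) :
    htw S (fun v => cpd p (L v)) (fun v b => ∑ i ∈ (eqv N p b).1, r v i) (xc p (XM x) a) ≤
      Real.log p.factorial + ∑ i ∈ (eqv N p a).1, htw S L r (x i) := by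
  have hL' : ∀ v ∈ S, (cpd p (L v)).det ≠ 0 := fun v hv => det_cpd hCB p (hL v hv)
  have hne : xc p (XM x) a ≠ 0 := (li_xc hCB p (det_XM hx)).ne_zero a
  have hxi : ∀ i, x i ≠ 0 := fun i => hx.ne_zero i
  have hpf : (0 : ℝ) < p.factorial := by exact_mod_cast p.factorial_pos
  have hs1 : (Function.support fun w : Place K => sw w * Real.log (p.factorial : ℝ)).Finite := by
    refine support_sw_finite.subset fun w hw => ?_
    intro h
    apply hw
    change sw w * _ = 0
    rw [show sw w = 0 from h, zero_mul]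
  have hs2 : ∀ i ∈ (eqv N p a).1, (Function.support fun w : Place K =>
      Real.log (lcn S L r w (x i))).Finite := fun i _ => support_log_lcn_finite S L r (hxi i)
  have hs3 : (Function.support fun w : Place K => ∑ i ∈ (eqv N p a).1,
      Real.log (lcn S L r w (x i))).Finite := by
    refine (Set.Finite.biUnion (eqv N p a).1.finite_toSet hs2).subset fun w hw => ?_
    by_contra hcon
    apply hw
    refine Finset.sum_eq_zero fun i hi => ?_
    by_contra h
    exact hcon (Set.mem_biUnion hi h)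
  have h1 : htw S (fun v => cpd p (L v)) (fun v b => ∑ i ∈ (eqv N p b).1, r v i)
      (xc p (XM x) a) ≤ ∑ᶠ w : Place K, (sw w * Real.log (p.factorial : ℝ) +
        ∑ i ∈ (eqv N p a).1, Real.log (lcn S L r w (x i))) := by
    refine finsum_mono (support_log_lcn_finite _ _ _ hne) ?_ fun w => ?_
    · refine (hs1.union hs3).subset fun w hw => ?_
      by_contra hcon
      apply hw
      rw [Set.mem_union, not_or] at hcon
      have e1 : sw w * Real.log (p.factorial : ℝ) = 0 := by
        by_contra h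
        exact hcon.1 h
      have e2 : ∑ i ∈ (eqv N p a).1, Real.log (lcn S L r w (x i)) = 0 := by
        by_contra h
        exact hcon.2 h
      change sw w * Real.log (p.factorial : ℝ) + ∑ i ∈ (eqv N p a).1,
        Real.log (lcn S L r w (x i)) = 0
      rw [e1, e2, add_zero]
    · have h2 := Real.log_le_log (lcn_pos hL' _ w hne) (local_le hCB S L r x w a)
      rw [Real.log_mul (Real.rpow_pos_of_pos hpf _).ne'
        (Finset.prod_pos fun i _ => lcn_pos hL r w (hxi i)).ne', Real.log_rpow hpf,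
        Real.log_prod fun i _ => (lcn_pos hL r w (hxi i)).ne'] at h2
      exact h2
  refine h1.trans (le_of_eq ?_)
  rw [finsum_add_distrib hs1 hs3, finsum_sum_comm _ _ hs2]
  congr 1
  rw [← finsum_mul' _ _ support_sw_finite, finsum_sw, one_mul]

lemma finrank_image {ι E : Type*} [AddCommGroup E] [Module K E] {f : ι → E}
    (hf : LinearIndependent K f) (A : Finset ι) :
    Module.finrank K (Submodule.span K (f '' (A : Set ι))) = A.card := by
  have h1 := hf.comp (Subtype.val : A → ι) Subtype.val_injective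
  have h2 := finrank_span_eq_card h1
  rw [Fintype.card_coe] at h2
  rw [← h2]
  have h3 : f '' (A : Set ι) = Set.range (f ∘ (Subtype.val : A → ι)) := by
    rw [Set.range_comp]
    congr 1
    ext z
    simp
  rw [h3]

lemma finrank_Fl {N : ℕ} {x : Fin N → Fin N → K} (hx : LinearIndependent K x) {j : ℕ}
    (hj : j ≤ N) : Module.finrank K (Fl x j) = j := by
  have h1 := finrank_image hx (Finset.univ.filter fun i : Fin N => (i : ℕ) < j)
  have h2 : ((Finset.univ.filter fun i : Fin N => (i : ℕ) < j : Finset (Fin N)) : Set (Fin N)) =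
      {i : Fin N | (i : ℕ) < j} := by
    ext i
    simp
  rw [h2] at h1
  have h3 : (Finset.univ.filter fun i : Fin N => (i : ℕ) < j).card = j := by
    rw [Fin.card_filter_val_lt]
    exact min_eq_right hj
  rw [h3] at h1
  exact h1

/-- every `i` is in the same number of sets -/
lemma exists_mult (N p : ℕ) : ∃ m : ℝ, 0 ≤ m ∧ ∀ f : Fin N → ℝ,
    ∑ a, ∑ i ∈ (eqv N p a).1, f i = m * ∑ i, f i := by
  rcases Nat.eq_zero_or_pos N with rfl | hN
  · refine ⟨0, le_rfl, fun f => ?_⟩
    rw [zero_mul]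
    refine Finset.sum_eq_zero fun a _ => Finset.sum_eq_zero fun i _ => ?_
    exact i.elim0
  let cnt : Fin N → ℕ := fun i => (Finset.univ.filter fun I : Sub N p => i ∈ I.1).card
  have hc : ∀ i j, cnt i = cnt j := by
    intro i j
    have hmem : ∀ (I : Finset (Fin N)) (l : Fin N),
        l ∈ I.map (Equiv.swap i j).toEmbedding ↔ Equiv.swap i j l ∈ I := by
      intro I l
      rw [Finset.mem_map_equiv, Equiv.symm_swap]
    refine Finset.card_bij (fun I _ => ⟨I.1.map (Equiv.swap i j).toEmbedding, by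
      rw [Finset.card_map]
      exact I.2⟩) ?_ ?_ ?_
    · intro I hI
      rw [Finset.mem_filter] at hI ⊢
      refine ⟨Finset.mem_univ _, ?_⟩
      rw [hmem, Equiv.swap_apply_right]
      exact hI.2
    · intro I _ I' _ h
      apply Subtype.ext
      exact Finset.map_injective _ (congrArg Subtype.val h)
    · intro I hI
      rw [Finset.mem_filter] at hI
      refine ⟨⟨I.1.map (Equiv.swap i j).toEmbedding, by
        rw [Finset.card_map]
        exact I.2⟩, ?_, ?_⟩
      · rw [Finset.mem_filter]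
        refine ⟨Finset.mem_univ _, ?_⟩
        rw [hmem, Equiv.swap_apply_left]
        exact hI.2
      · apply Subtype.ext
        ext l
        rw [hmem, hmem, Equiv.swap_apply_self]
  refine ⟨cnt ⟨0, hN⟩, Nat.cast_nonneg _, fun f => ?_⟩
  have h1 : ∑ a, ∑ i ∈ (eqv N p a).1, f i = ∑ I : Sub N p, ∑ i ∈ I.1, f i :=
    Equiv.sum_comp (eqv N p) (fun I : Sub N p => ∑ i ∈ I.1, f i)
  rw [h1]
  have h2 : ∀ I : Sub N p, ∑ i ∈ I.1, f i = ∑ i, if i ∈ I.1 then f i else 0 := by
    intro I
    rw [Finset.sum_ite_mem, Finset.univ_inter]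
  simp only [h2]
  rw [Finset.sum_comm, Finset.mul_sum]
  refine Finset.sum_congr rfl fun i _ => ?_
  rw [← Finset.sum_filter, Finset.sum_const, nsmul_eq_mul, hc ⟨0, hN⟩ i]

lemma li_update {ι E : Type*} [Fintype ι] [DecidableEq ι] [AddCommGroup E] [Module K E] {e : ι → E}
    (he : LinearIndependent K e) (a₀ : ι) (z : E)
    (hz : z ∉ Submodule.span K (e '' {a | a ≠ a₀})) :
    LinearIndependent K (Function.update e a₀ z) := by
  rw [Fintype.linearIndependent_iff]
  intro g hg
  have h1 : g a₀ • z + ∑ a ∈ Finset.univ.erase a₀, g a • e a = 0 := by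
    rw [← Finset.add_sum_erase Finset.univ _ (Finset.mem_univ a₀), Function.update_self] at hg
    rw [← hg]
    congr 1
    refine Finset.sum_congr rfl fun a ha => ?_
    rw [Function.update_of_ne (Finset.ne_of_mem_erase ha)]
  have h2 : g a₀ = 0 := by
    by_contra h
    have h3 : g a₀ • z ∈ Submodule.span K (e '' {a | a ≠ a₀}) := by
      rw [eq_neg_of_add_eq_zero_left h1]
      refine Submodule.neg_mem _ (Submodule.sum_mem _ fun a ha => ?_)
      exact Submodule.smul_mem _ _ (Submodule.subset_span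
        (Set.mem_image_of_mem _ (Finset.ne_of_mem_erase ha)))
    exact hz ((Submodule.smul_mem_iff _ h).1 h3)
  have h4 : ∑ a, g a • e a = 0 := by
    rw [← Finset.add_sum_erase Finset.univ _ (Finset.mem_univ a₀), h2, zero_smul]
    rw [h2, zero_smul] at h1
    exact h1
  exact Fintype.linearIndependent_iff.1 he g h4

/-- recovers the span of the first `k` vectors -/
noncomputable def Phi {N p : ℕ} (a₀ : Fin (N.choose p)) (k : ℕ)
    (V : Submodule K (Fin (N.choose p) → K)) : Submodule K (Fin N → K) :=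
  Submodule.span K {a | ∀ j : Fin N, k ≤ (j : ℕ) → ∀ Y : Matrix (Fin N) (Fin N) K,
    (∀ i, Y i j = a i) → xc p Y a₀ ∈ V}

lemma xc_eq_sum (hCB : SpecCB) {N p : ℕ} (X Z : Matrix (Fin N) (Fin N) K)
    (a : Fin (N.choose p)) : xc p (X * Z) a = ∑ b, xc p Z a b • xc p X b := by
  rw [← mulVec_xc hCB]
  funext c
  rw [Finset.sum_apply]
  simp only [Matrix.mulVec, dotProduct, Pi.smul_apply, smul_eq_mul]
  refine Finset.sum_congr rfl fun b _ => ?_
  rw [mul_comm]
  rfl

lemma inv_mulVec {N : ℕ} {x : Fin N → Fin N → K} (hx : LinearIndependent K x) (l : Fin N) :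
    (XM x)⁻¹.mulVec (x l) = Pi.single l 1 := by
  have h1 : x l = (XM x).mulVec (Pi.single l 1) := by
    rw [Matrix.mulVec_single_one]
    rfl
  rw [h1, Matrix.mulVec_mulVec, Matrix.nonsing_inv_mul _ (isUnit_iff_ne_zero.2 (det_XM hx)),
    Matrix.one_mulVec]

lemma mem_Fl_iff {N : ℕ} {x : Fin N → Fin N → K} (hx : LinearIndependent K x) (k : ℕ)
    (a : Fin N → K) : a ∈ Fl x k ↔ ∀ j : Fin N, k ≤ (j : ℕ) → (XM x)⁻¹.mulVec a j = 0 := by
  constructor
  · intro ha j hj
    have h1 : Fl x k ≤ LinearMap.ker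
        ((LinearMap.proj j : (Fin N → K) →ₗ[K] K).comp (Matrix.mulVecLin (XM x)⁻¹)) := by
      refine Submodule.span_le.2 ?_
      rintro _ ⟨i, hi, rfl⟩
      change (XM x)⁻¹.mulVec (x i) j = 0
      rw [inv_mulVec hx]
      have hij : j ≠ i := by
        rintro rfl
        have : (j : ℕ) < k := hi
        omega
      rw [Pi.single_eq_of_ne hij]
    exact h1 ha
  · intro h
    have h1 : a = ∑ i, (XM x)⁻¹.mulVec a i • x i := by
      have h2 : a = (XM x).mulVec ((XM x)⁻¹.mulVec a) := by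
        rw [Matrix.mulVec_mulVec, Matrix.mul_nonsing_inv _ (isUnit_iff_ne_zero.2 (det_XM hx)),
          Matrix.one_mulVec]
      conv_lhs => rw [h2]
      funext c
      rw [Finset.sum_apply]
      simp only [Matrix.mulVec, dotProduct, Pi.smul_apply, smul_eq_mul]
      refine Finset.sum_congr rfl fun b _ => ?_
      rw [mul_comm]
      rfl
    rw [h1]
    refine Submodule.sum_mem _ fun i _ => ?_
    by_cases hi : (i : ℕ) < k
    · exact Submodule.smul_mem _ _ (Submodule.subset_span (Set.mem_image_of_mem _ hi))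
    · rw [h i (not_lt.1 hi), zero_smul]
      exact Submodule.zero_mem _

lemma Phi_eq (hCB : SpecCB) {N p : ℕ} {x : Fin N → Fin N → K} (hx : LinearIndependent K x)
    {k : ℕ} (a₀ : Fin (N.choose p)) (ha₀ : ∀ i, i ∈ (eqv N p a₀).1 ↔ k ≤ (i : ℕ)) :
    Phi a₀ k (Submodule.span K (xc p (XM x) '' {a | a ≠ a₀})) = Fl x k := by
  have hdet := det_XM hx
  have heli := li_xc hCB p hdet
  set V : Submodule K (Fin (N.choose p) → K) :=
    Submodule.span K (xc p (XM x) '' {a | a ≠ a₀}) with hV
  have hmem : ∀ b, b ≠ a₀ → xc p (XM x) b ∈ V := fun b hb =>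
    Submodule.subset_span (Set.mem_image_of_mem _ hb)
  have hexp : ∀ Y : Matrix (Fin N) (Fin N) K,
      xc p Y a₀ = ∑ b, xc p ((XM x)⁻¹ * Y) a₀ b • xc p (XM x) b := by
    intro Y
    rw [← xc_eq_sum hCB, ← Matrix.mul_assoc, Matrix.mul_nonsing_inv _ (isUnit_iff_ne_zero.2 hdet),
      Matrix.one_mul]
  have hset : {a | ∀ j : Fin N, k ≤ (j : ℕ) → ∀ Y : Matrix (Fin N) (Fin N) K,
      (∀ i, Y i j = a i) → xc p Y a₀ ∈ V} = (Fl x k : Set (Fin N → K)) := by
    ext a
    constructor
    · intro ha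
      change a ∈ Fl x k
      rw [mem_Fl_iff hx]
      intro j hj
      by_contra hne
      set ξ : Fin N → K := (XM x)⁻¹.mulVec a with hξ
      have hY := ha j hj ((XM x).updateCol j a) (fun i => by rw [Matrix.updateCol_self])
      set v : Fin (N.choose p) → K := xc p ((XM x)⁻¹ * (XM x).updateCol j a) a₀ with hv
      have hj0 : j ∈ (eqv N p a₀).1 := (ha₀ j).2 hj
      obtain ⟨s, hs⟩ : ∃ s, (eqv N p a₀).1.orderEmbOfFin (eqv N p a₀).2 s = j := by
        have h1 := Finset.range_orderEmbOfFin (eqv N p a₀).1 (eqv N p a₀).2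
        have h2 : j ∈ Set.range ((eqv N p a₀).1.orderEmbOfFin (eqv N p a₀).2) := by
          rw [h1]
          exact hj0
        exact h2
      have hva : v a₀ = ξ j := by
        have h1 : ((XM x)⁻¹ * (XM x).updateCol j a).submatrix
            (fun a : Fin p => (eqv N p a₀).1.orderEmbOfFin (eqv N p a₀).2 a)
            (fun a : Fin p => (eqv N p a₀).1.orderEmbOfFin (eqv N p a₀).2 a) =
            (1 : Matrix (Fin p) (Fin p) K).updateCol s
              (fun a => ξ ((eqv N p a₀).1.orderEmbOfFin (eqv N p a₀).2 a)) := by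
          ext u w
          rw [Matrix.submatrix_apply]
          by_cases hw : w = s
          · subst hw
            rw [Matrix.updateCol_self, hs, hξ]
            change ((XM x)⁻¹ * (XM x).updateCol j a) _ j = _
            rw [Matrix.mul_apply]
            simp only [Matrix.updateCol_self]
            rfl
          · rw [Matrix.updateCol_ne hw]
            have hne' : (eqv N p a₀).1.orderEmbOfFin (eqv N p a₀).2 w ≠ j := by
              rw [← hs]
              exact fun h => hw ((eqv N p a₀).1.orderEmbOfFin (eqv N p a₀).2 |>.injective h)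
            rw [Matrix.mul_apply]
            simp only [Matrix.updateCol_ne hne']
            rw [← Matrix.mul_apply, Matrix.nonsing_inv_mul _ (isUnit_iff_ne_zero.2 hdet)]
            by_cases huw : u = w
            · rw [huw, Matrix.one_apply_eq, Matrix.one_apply_eq]
            · rw [Matrix.one_apply_ne huw, Matrix.one_apply_ne]
              exact fun h => huw ((eqv N p a₀).1.orderEmbOfFin (eqv N p a₀).2 |>.injective h)
        have h2 : v a₀ = (((XM x)⁻¹ * (XM x).updateCol j a).submatrix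
            (fun a : Fin p => (eqv N p a₀).1.orderEmbOfFin (eqv N p a₀).2 a)
            (fun a : Fin p => (eqv N p a₀).1.orderEmbOfFin (eqv N p a₀).2 a)).det := rfl
        rw [h2, h1, ← Matrix.cramer_apply, Matrix.cramer_one]
        change ξ ((eqv N p a₀).1.orderEmbOfFin (eqv N p a₀).2 s) = ξ j
        rw [hs]
      have h3 : v a₀ • xc p (XM x) a₀ ∈ V := by
        have h4 := hexp ((XM x).updateCol j a)
        rw [← Finset.add_sum_erase Finset.univ _ (Finset.mem_univ a₀)] at h4
        have h5 : v a₀ • xc p (XM x) a₀ = xc p ((XM x).updateCol j a) a₀ -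
            ∑ b ∈ Finset.univ.erase a₀, v b • xc p (XM x) b := by
          rw [h4]
          exact (add_sub_cancel_right _ _).symm
        rw [h5]
        refine Submodule.sub_mem _ hY (Submodule.sum_mem _ fun b hb => ?_)
        exact Submodule.smul_mem _ _ (hmem b (Finset.ne_of_mem_erase hb))
      have h6 := (Submodule.smul_mem_iff _ (by rw [hva]; exact hne)).1 h3
      exact heli.notMem_span_image (s := {a | a ≠ a₀}) (fun h => h rfl) h6
    · intro ha j hj Y hY
      rw [hexp Y]
      refine Submodule.sum_mem _ fun b _ => ?_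
      by_cases hb : b = a₀
      · subst hb
        have hj0 : j ∈ (eqv N p b).1 := (ha₀ j).2 hj
        obtain ⟨s, hs⟩ : ∃ s, (eqv N p b).1.orderEmbOfFin (eqv N p b).2 s = j := by
          have h1 := Finset.range_orderEmbOfFin (eqv N p b).1 (eqv N p b).2
          have h2 : j ∈ Set.range ((eqv N p b).1.orderEmbOfFin (eqv N p b).2) := by
            rw [h1]
            exact hj0
          exact h2
        have h1 : xc p ((XM x)⁻¹ * Y) b b = 0 := by
          refine Matrix.det_eq_zero_of_column_eq_zero s fun u => ?_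
          rw [Matrix.submatrix_apply, hs]
          have h2 : ((XM x)⁻¹ * Y) ((eqv N p b).1.orderEmbOfFin (eqv N p b).2 u) j =
              (XM x)⁻¹.mulVec a ((eqv N p b).1.orderEmbOfFin (eqv N p b).2 u) := by
            rw [Matrix.mul_apply]
            simp only [hY]
            rfl
          rw [h2]
          refine (mem_Fl_iff hx k a).1 ha _ ?_
          exact (ha₀ _).1 (Finset.orderEmbOfFin_mem _ _ _)
        rw [h1, zero_smul]
        exact Submodule.zero_mem _
      · exact Submodule.smul_mem _ _ (hmem b hb)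
  unfold Phi
  rw [hset, Submodule.span_eq]

end GAPM

open GAPM in
theorem specGAP (hPEN : SpecPEN) (hCB : SpecCB) (hLB : SpecLB) (hM2 : SpecM2) (hCMP : SpecCMP)
    (hRED : SpecRED) : SpecGAP := by
  intro K _ _ N S hS L hL c hc δ hδ k hk0 hkN
  obtain ⟨p, hp⟩ : ∃ p, p = N - k := ⟨_, rfl⟩
  have hp0 : 0 < p := by omega
  have hpN : p < N := by omega
  have hN0 : 0 < N := by omega
  have hN' : 2 ≤ N.choose p := by
    obtain ⟨n, rfl⟩ : ∃ n, N = n + 1 := ⟨N - 1, by omega⟩
    obtain ⟨q, rfl⟩ : ∃ q, p = q + 1 := ⟨p - 1, by omega⟩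
    rw [Nat.choose_succ_succ]
    have h1 : 0 < n.choose q := Nat.choose_pos (by omega)
    have h2 : 0 < n.choose q.succ := Nat.choose_pos (by omega)
    omega
  have hL' : ∀ v ∈ S, (cpd p (L v)).det ≠ 0 := fun v hv => det_cpd hCB p (hL v hv)
  obtain ⟨m, hm0, hm⟩ := exists_mult N p
  have hc' : ∑ v ∈ S, ∑ b, (∑ i ∈ (eqv N p b).1, c v i) = 0 := by
    simp only [hm]
    rw [← Finset.mul_sum, hc, mul_zero]
  have hcard : (Finset.univ.filter fun i : Fin N => k ≤ (i : ℕ)).card = p := by
    have h1 : (Finset.univ.filter fun i : Fin N => (i : ℕ) < k).card = k := by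
      rw [Fin.card_filter_val_lt]
      exact min_eq_right hkN.le
    have h2 := Finset.card_filter_add_card_filter_not (s := (Finset.univ : Finset (Fin N)))
      (fun i : Fin N => (i : ℕ) < k)
    rw [h1, Finset.card_univ, Fintype.card_fin] at h2
    have h3 : (Finset.univ.filter fun i : Fin N => ¬ (i : ℕ) < k) =
        (Finset.univ.filter fun i : Fin N => k ≤ (i : ℕ)) := by
      ext i
      simp
    rw [h3] at h2
    omega
  obtain ⟨I₀, hI₀⟩ : ∃ I₀ : Sub N p, ∀ i, i ∈ I₀.1 ↔ k ≤ (i : ℕ) :=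
    ⟨⟨Finset.univ.filter fun i : Fin N => k ≤ (i : ℕ), hcard⟩, fun i => by simp⟩
  obtain ⟨a₀, ha₀'⟩ : ∃ a₀, eqv N p a₀ = I₀ := (eqv N p).surjective I₀
  have ha₀ : ∀ i, i ∈ (eqv N p a₀).1 ↔ k ≤ (i : ℕ) := by
    rw [ha₀']
    exact hI₀
  obtain ⟨C₁, hC₁, h1⟩ := hCMP K (N.choose p) S (fun v => cpd p (L v)) hL'
  obtain ⟨C₂, hC₂, h2⟩ := hLB K (N.choose p) S (fun v => cpd p (L v)) hL'
  obtain ⟨C₃, hC₃, h3⟩ := hM2 K N hN0 S hS L hL
  obtain ⟨t₄, H₄, hH₄, h4⟩ := hPEN K (N.choose p) hN' S hS (fun v => cpd p (L v)) hL'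
    (fun v b => ∑ i ∈ (eqv N p b).1, c v i) hc' (δ / 2) (half_pos hδ)
  obtain ⟨lf, hlf⟩ : ∃ lf : ℝ, lf = Real.log p.factorial := ⟨_, rfl⟩
  have hlf0 : 0 ≤ lf := by
    rw [hlf]
    exact Real.log_nonneg (by exact_mod_cast Nat.one_le_iff_ne_zero.2 p.factorial_ne_zero)
  obtain ⟨CB, hCBd⟩ : ∃ CB : ℝ, CB = C₂ + (N.choose p : ℝ) * lf + m * C₃ := ⟨_, rfl⟩
  have hCB0 : 0 ≤ CB := by
    rw [hCBd]
    positivity
  refine ⟨max t₄ (max 0 (2 * (lf + 1 + CB + 1) / δ)), Phi a₀ k '' H₄, hH₄.image _,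
    fun t ht x hx hgap => ?_⟩
  have ht4 : t₄ ≤ t := (le_max_left _ _).trans ht
  have ht0 : 0 ≤ t := ((le_max_left _ _).trans (le_max_right _ _)).trans ht
  have htδ : 2 * (lf + 1 + CB + 1) ≤ t * δ := by
    have h5 : 2 * (lf + 1 + CB + 1) / δ ≤ t :=
      ((le_max_right _ _).trans (le_max_right _ _)).trans ht
    rwa [div_le_iff₀ hδ] at h5
  have hxli := hx.1
  have hdet := det_XM hxli
  have heli := li_xc hCB p hdet
  obtain ⟨F, hFd⟩ : ∃ F : (Fin (N.choose p) → K) → ℝ, F = htw S (fun v => cpd p (L v))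
    (fun v b => t * ∑ i ∈ (eqv N p b).1, c v i) := ⟨_, rfl⟩
  obtain ⟨lam, hlam⟩ : ∃ lam : Fin N → ℝ, lam = fun i => htw S L (fun v i => t * c v i) (x i) :=
    ⟨_, rfl⟩
  obtain ⟨mu, hmu⟩ : ∃ mu : Fin (N.choose p) → ℝ, mu = fun a => ∑ i ∈ (eqv N p a).1, lam i :=
    ⟨_, rfl⟩
  have hr : (fun (v : Place K) (b : Fin (N.choose p)) => t * ∑ i ∈ (eqv N p b).1, c v i) =
      fun v b => ∑ i ∈ (eqv N p b).1, t * c v i := by
    funext v b
    rw [Finset.mul_sum]
  have hF : ∀ a, F (xc p (XM x) a) ≤ lf + mu a := by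
    intro a
    have h5 := htw_xc_le hCB hL (fun v i => t * c v i) hxli a
    rw [hFd, hr, hlf, hmu, hlam]
    exact h5
  -- a reduced basis
  have hlow : ∃ B : ℝ, ∀ y, y ≠ 0 → B ≤ F y := by
    obtain ⟨R, hR⟩ : ∃ R : ℝ, R = ∑ v ∈ S, ∑ b, |t * ∑ i ∈ (eqv N p b).1, c v i| := ⟨_, rfl⟩
    have hR0 : 0 ≤ R := by
      rw [hR]
      exact Finset.sum_nonneg fun v _ => Finset.sum_nonneg fun b _ => abs_nonneg _
    refine ⟨-(C₁ + S.card * R), fun y hy => ?_⟩
    have h5 := h1 (fun v b => t * ∑ i ∈ (eqv N p b).1, c v i) R hR0 (fun v hv b => by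
      rw [hR]
      refine le_trans ?_ (Finset.single_le_sum (f := fun v => ∑ b, |t * ∑ i ∈ (eqv N p b).1, c v i|)
        (fun v _ => Finset.sum_nonneg fun b _ => abs_nonneg _) hv)
      exact Finset.single_le_sum (f := fun b => |t * ∑ i ∈ (eqv N p b).1, c v i|)
        (fun b _ => abs_nonneg _) (Finset.mem_univ b)) y hy
    have h6 := ht_nonneg hy
    rw [hFd]
    have h7 := (abs_le.1 h5).1
    linarith
  obtain ⟨y, hy⟩ := hRED K (N.choose p) F hlow
  obtain ⟨V, hV⟩ : ∃ V : Submodule K (Fin (N.choose p) → K),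
    V = Submodule.span K (xc p (XM x) '' {a | a ≠ a₀}) := ⟨_, rfl⟩
  have hVr : Module.finrank K V = N.choose p - 1 := by
    have h5 := finrank_image heli (Finset.univ.erase a₀)
    rw [Finset.card_erase_of_mem (Finset.mem_univ _), Finset.card_univ, Fintype.card_fin] at h5
    have h6 : ((Finset.univ.erase a₀ : Finset (Fin (N.choose p))) : Set (Fin (N.choose p))) =
        {a | a ≠ a₀} := by
      ext a
      simp
    rw [h6] at h5
    rw [hV]
    exact h5
  have hmem : ∀ b, b ≠ a₀ → xc p (XM x) b ∈ V := fun b hb => by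
    rw [hV]
    exact Submodule.subset_span (Set.mem_image_of_mem _ hb)
  have hmu1 : ∑ a, mu a ≤ m * C₃ := by
    rw [hmu]
    rw [hm lam]
    refine mul_le_mul_of_nonneg_left ?_ hm0
    rw [hlam]
    refine h3 (fun v i => t * c v i) ?_ x hx
    simp only [← Finset.mul_sum]
    rw [hc, mul_zero]
  have hmu2 : ∀ a, a ≠ a₀ → mu a ≤ mu a₀ - δ * t := by
    intro a ha
    have hne : ((Finset.univ.filter fun i : Fin N => k ≤ (i : ℕ))).Nonempty := by
      rw [← Finset.card_pos, hcard]
      exact hp0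
    obtain ⟨j₁, hj₁, hmin⟩ := Finset.exists_min_image _ lam hne
    rw [Finset.mem_filter] at hj₁
    have hlo : ∀ i : Fin N, (i : ℕ) < k → lam i ≤ lam j₁ - δ * t := by
      intro i hi
      have h5 := hgap i j₁ hi hj₁.2
      rw [hlam]
      simp only
      linarith
    have hhi : ∀ i : Fin N, k ≤ (i : ℕ) → lam j₁ ≤ lam i := fun i hi =>
      hmin i (Finset.mem_filter.2 ⟨Finset.mem_univ _, hi⟩)
    have e1 := Finset.sum_inter_add_sum_sdiff (eqv N p a).1 (eqv N p a₀).1 lam
    have e2 := Finset.sum_inter_add_sum_sdiff (eqv N p a₀).1 (eqv N p a).1 lam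
    rw [Finset.inter_comm] at e2
    have hcd : ((eqv N p a).1 \ (eqv N p a₀).1).card = ((eqv N p a₀).1 \ (eqv N p a).1).card :=
      Finset.card_sdiff_comm ((eqv N p a).2.trans (eqv N p a₀).2.symm)
    have hn1 : 1 ≤ ((eqv N p a).1 \ (eqv N p a₀).1).card := by
      rw [Nat.one_le_iff_ne_zero, Ne, Finset.card_eq_zero, Finset.sdiff_eq_empty_iff_subset]
      intro hsub
      have h5 := Finset.eq_of_subset_of_card_le hsub (by rw [(eqv N p a).2, (eqv N p a₀).2])
      exact ha ((eqv N p).injective (Subtype.ext h5))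
    have e3 : ∑ i ∈ (eqv N p a).1 \ (eqv N p a₀).1, lam i ≤
        ((eqv N p a).1 \ (eqv N p a₀).1).card • (lam j₁ - δ * t) := by
      refine Finset.sum_le_card_nsmul _ _ _ fun i hi => ?_
      rw [Finset.mem_sdiff, ha₀] at hi
      exact hlo i (not_le.1 hi.2)
    have e4 : ((eqv N p a₀).1 \ (eqv N p a).1).card • lam j₁ ≤
        ∑ i ∈ (eqv N p a₀).1 \ (eqv N p a).1, lam i := by
      refine Finset.card_nsmul_le_sum _ _ _ fun i hi => ?_
      rw [Finset.mem_sdiff, ha₀] at hi
      exact hhi i hi.1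
    rw [nsmul_eq_mul] at e3 e4
    rw [← hcd] at e4
    have hn1' : (1 : ℝ) ≤ (((eqv N p a).1 \ (eqv N p a₀).1).card : ℝ) := by exact_mod_cast hn1
    have hdt : 0 ≤ δ * t := mul_nonneg hδ.le ht0
    have e5 : δ * t ≤ (((eqv N p a).1 \ (eqv N p a₀).1).card : ℝ) * (δ * t) := by nlinarith
    rw [hmu]
    simp only
    rw [← e1, ← e2]
    have e6 : (((eqv N p a).1 \ (eqv N p a₀).1).card : ℝ) * (lam j₁ - δ * t) =
      (((eqv N p a).1 \ (eqv N p a₀).1).card : ℝ) * lam j₁ -
        (((eqv N p a).1 \ (eqv N p a₀).1).card : ℝ) * (δ * t) := by ring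
    rw [e6] at e3
    linarith
  -- upper bounds
  have hA : ∀ j : Fin (N.choose p), (j : ℕ) < N.choose p - 1 →
      F (y j) ≤ mu a₀ - δ * t + (lf + 1) := by
    intro j hj
    obtain ⟨a, ha, haF⟩ : ∃ a, a ≠ a₀ ∧ xc p (XM x) a ∉ Fl y j := by
      by_contra hcon
      push Not at hcon
      have h5 : V ≤ Fl y j := by
        rw [hV]
        refine Submodule.span_le.2 ?_
        rintro _ ⟨a, ha, rfl⟩
        exact hcon a ha
      have h6 := Submodule.finrank_mono h5
      rw [hVr, finrank_Fl hy.1 j.2.le] at h6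
      omega
    have h5 := hy.2 j _ haF
    have h6 := hF a
    have h7 := hmu2 a ha
    linarith
  -- lower bound
  have hB : ∀ z, z ∉ V → mu a₀ - CB ≤ F z := by
    intro z hz
    have hzli := li_update heli a₀ z (by rw [← hV]; exact hz)
    have h5 := h2 (fun v b => t * ∑ i ∈ (eqv N p b).1, c v i) _ hzli
    have h6 : ∑ v ∈ S, ∑ b, t * ∑ i ∈ (eqv N p b).1, c v i = 0 := by
      simp only [← Finset.mul_sum]
      rw [hc', mul_zero]
    rw [h6, sub_zero, ← hFd] at h5
    rw [← Finset.add_sum_erase Finset.univ _ (Finset.mem_univ a₀), Function.update_self] at h5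
    have h7 : ∑ a ∈ Finset.univ.erase a₀, F (Function.update (xc p (XM x)) a₀ z a) ≤
        ∑ a ∈ Finset.univ.erase a₀, (lf + mu a) := by
      refine Finset.sum_le_sum fun a ha => ?_
      rw [Function.update_of_ne (Finset.ne_of_mem_erase ha)]
      exact hF a
    have h8 : (lf + mu a₀) + ∑ a ∈ Finset.univ.erase a₀, (lf + mu a) =
        (N.choose p : ℝ) * lf + ∑ a, mu a := by
      rw [Finset.add_sum_erase Finset.univ (fun a => lf + mu a) (Finset.mem_univ a₀),
        Finset.sum_add_distrib, Finset.sum_const, Finset.card_univ, Fintype.card_fin, nsmul_eq_mul]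
    rw [hCBd]
    linarith
  have hin : ∀ j : Fin (N.choose p), (j : ℕ) < N.choose p - 1 → y j ∈ V := by
    intro j hj
    by_contra h
    have h5 := hA j hj
    have h6 := hB _ h
    nlinarith
  have hle : Fl y (N.choose p - 1) ≤ V := by
    refine Submodule.span_le.2 ?_
    rintro _ ⟨j, hj, rfl⟩
    exact hin j hj
  have heq : Fl y (N.choose p - 1) = V :=
    Submodule.eq_of_le_of_finrank_eq hle (by rw [hVr, finrank_Fl hy.1 (by omega)])
  have hlast : ∀ j : Fin (N.choose p), (j : ℕ) = N.choose p - 1 → y j ∉ V := by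
    intro j hj hjV
    have h5 : Fl y (N.choose p) ≤ V := by
      refine Submodule.span_le.2 ?_
      rintro _ ⟨i, _, rfl⟩
      by_cases hi : (i : ℕ) < N.choose p - 1
      · exact hin i hi
      · have : i = j := Fin.ext (by have := i.2; omega)
        rw [this]
        exact hjV
    have h6 := Submodule.finrank_mono h5
    rw [hVr, finrank_Fl hy.1 le_rfl] at h6
    omega
  have hfin : Fl y (N.choose p - 1) ∈ H₄ := by
    rw [hFd] at hy
    refine h4 t ht4 y hy fun i j hi hj => ?_
    have h5 := hA i hi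
    have h6 := hB _ (hlast j hj)
    rw [hFd] at h5 h6
    linarith
  refine ⟨V, heq ▸ hfin, ?_⟩
  rw [hV]
  exact Phi_eq hCB hxli a₀ ha₀

end Pool.Agent.Lib.MP_d0e829_nt.SS
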