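import Pool.Agent.Lib.MP_d0e829_nt.SS.SpecA

/-!
# Module GOOD: every finite set of places is contained in a good one
-/

set_option autoImplicit false

open NumberField

namespace Pool.Agent.Lib.MP_d0e829_nt.SS.GOODM

open scoped Classical

variable {K : Type} [Field K] [NumberField K]

theorem fin_le_one (w : FinitePlace K) (b : ℕ) : w (b : K) ≤ 1 := by
  have h := FinitePlace.norm_le_one w.maximalIdeal (b : 𝓞 K) (K := K)
  rw [FinitePlace.norm_embedding_eq] at h
  simpa using h

theorem fin_lt_one (w : FinitePlace K) (b : ℕ) (hb : (b : 𝓞 K) ∈ w.maximalIdeal.asIdeal) :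
    w (b : K) < 1 := by
  have h := (FinitePlace.norm_lt_one_iff_mem w.maximalIdeal (b : 𝓞 K) (K := K)).mpr hb
  rw [FinitePlace.norm_embedding_eq] at h
  simpa using h

theorem absV_le (w : FinitePlace K) (b : ℕ) : absV (Sum.inr w : Place K) (b : K) ≤ 1 := by
  have h := fin_le_one w b
  have h0 := rawAbs_nonneg (Sum.inr w : Place K) (b : K)
  exact Real.rpow_le_one h0 h (weight_pos _).le

theorem absV_lt (w : FinitePlace K) (b : ℕ) (hb : (b : 𝓞 K) ∈ w.maximalIdeal.asIdeal) :
    absV (Sum.inr w : Place K) (b : K) < 1 := by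
  have h := fin_lt_one w b hb
  have h0 := rawAbs_nonneg (Sum.inr w : Place K) (b : K)
  exact Real.rpow_lt_one h0 h (weight_pos _)

/-- the factor of the place `w` -/
noncomputable def fac : Place K → ℕ
  | .inl _ => 1
  | .inr w => Ideal.absNorm w.maximalIdeal.asIdeal

theorem fac_pos (w : Place K) : 0 < fac w := by
  cases w with
  | inl w => exact one_pos
  | inr w =>
    apply Nat.pos_of_ne_zero
    change Ideal.absNorm w.maximalIdeal.asIdeal ≠ 0
    rw [Ne, Ideal.absNorm_eq_zero_iff]
    exact w.maximalIdeal.ne_bot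

theorem main (S₀ : Finset (Place K)) : ∃ S : Finset (Place K), S₀ ⊆ S ∧ Good S := by
  set b : ℕ := ∏ w ∈ S₀, fac w with hb
  have hb0 : 0 < b := Finset.prod_pos fun w _ => fac_pos w
  have hbK : (b : K) ≠ 0 := by exact_mod_cast hb0.ne'
  have hfin := support_log_absV_finite (K := K) hbK
  set S : Finset (Place K) := (Finset.univ.image Sum.inl) ∪
    (hfin.toFinset.filter fun w => ∃ u : FinitePlace K, w = Sum.inr u) with hS
  have hmem : ∀ w : FinitePlace K, ((Sum.inr w : Place K) ∈ S ↔
      absV (Sum.inr w : Place K) (b : K) < 1) := by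
    intro w
    have h1 : 0 < absV (Sum.inr w : Place K) (b : K) := absV_pos _ hbK
    have h2 := absV_le w b
    rw [hS, Finset.mem_union, Finset.mem_filter, Set.Finite.mem_toFinset, Function.mem_support]
    constructor
    · rintro (h | h)
      · obtain ⟨v, _, hv⟩ := Finset.mem_image.mp h
        exact absurd hv (by simp)
      · refine lt_of_le_of_ne h2 ?_
        intro h3
        exact h.1 (by rw [h3, Real.log_one])
    · intro h
      right
      refine ⟨?_, w, rfl⟩
      exact (Real.log_neg h1 h).ne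
  refine ⟨S, ?_, ?_, b, hb0, hmem⟩
  · intro w hw
    cases w with
    | inl w =>
      rw [hS]
      exact Finset.mem_union_left _ (Finset.mem_image.mpr ⟨w, Finset.mem_univ _, rfl⟩)
    | inr w =>
      rw [hmem w]
      apply absV_lt
      have h1 : fac (Sum.inr w : Place K) ∣ b := Finset.dvd_prod_of_mem _ hw
      obtain ⟨c, hc⟩ := h1
      rw [hc, Nat.cast_mul]
      exact Ideal.mul_mem_right _ _ (Ideal.absNorm_mem _)
  · intro w
    rw [hS]
    exact Finset.mem_union_left _ (Finset.mem_image.mpr ⟨w, Finset.mem_univ _, rfl⟩)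

end Pool.Agent.Lib.MP_d0e829_nt.SS.GOODM

namespace Pool.Agent.Lib.MP_d0e829_nt.SS

theorem specGOOD : SpecGOOD := by
  intro K _ _ S₀
  exact GOODM.main S₀

end Pool.Agent.Lib.MP_d0e829_nt.SS
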