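import Pool.Agent.Lib.MP_d0e829_nt.SS.SpecB

/-!
GR1: the grid lemma with multiplicities.
-/

set_option autoImplicit false

open NumberField

namespace Pool.Agent.Lib.MP_d0e829_nt.SS

namespace GR1M

open Polynomial in
/-- for a finite set `s` the multiplicities of the roots in `s` add up to at most the degree -/
lemma sum_mult {R : Type} [CommRing R] [IsDomain R] [DecidableEq R] (f : Polynomial R) (s : Finset R) :
    ∑ a ∈ s, f.rootMultiplicity a ≤ f.natDegree := by
  refine le_trans ?_ (Polynomial.card_roots' f)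
  rw [← Multiset.toFinset_sum_count_eq]
  calc ∑ a ∈ s, f.rootMultiplicity a = ∑ a ∈ s, f.roots.count a := by
        refine Finset.sum_congr rfl fun a _ => ?_
        rw [Polynomial.count_roots]
    _ = ∑ a ∈ s ∩ f.roots.toFinset, f.roots.count a := by
        refine (Finset.sum_subset Finset.inter_subset_left fun a ha h => ?_).symm
        rw [Multiset.count_eq_zero]
        intro h'
        exact h (Finset.mem_inter.2 ⟨ha, Multiset.mem_toFinset.2 h'⟩)
    _ ≤ ∑ a ∈ f.roots.toFinset, f.roots.count a :=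
        Finset.sum_le_sum_of_subset Finset.inter_subset_right

/-- some point `j ≤ B` has small multiplicity -/
lemma exists_small {R : Type} [CommRing R] [IsDomain R] [CharZero R] (f : Polynomial R) (e B : ℕ)
    (he : f.natDegree ≤ e) : ∃ j : ℕ, j ≤ B ∧ f.rootMultiplicity (j : R) * (B + 1) ≤ e := by
  classical
  by_contra hcon
  push Not at hcon
  have h1 : ∑ j ∈ Finset.range (B + 1), f.rootMultiplicity ((j : ℕ) : R) ≤ e := by
    refine le_trans ?_ he
    refine le_trans (le_of_eq ?_) (sum_mult f ((Finset.range (B + 1)).image fun j : ℕ => (j : R)))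
    rw [Finset.sum_image]
    intro a _ b _ h
    exact Nat.cast_injective h
  have h2 : ∑ j ∈ Finset.range (B + 1), (e + 1) ≤
      ∑ j ∈ Finset.range (B + 1), f.rootMultiplicity ((j : ℕ) : R) * (B + 1) := by
    refine Finset.sum_le_sum fun j hj => ?_
    exact hcon j (Nat.lt_succ_iff.1 (Finset.mem_range.1 hj))
  rw [← Finset.sum_mul, Finset.sum_const, Finset.card_range, smul_eq_mul] at h2
  nlinarith

/-- the coefficient of the Taylor expansion at the exponent of the multiplicity -/
lemma taylor_coeff_ne {R : Type} [CommRing R] [IsDomain R] (f : Polynomial R) (hf : f ≠ 0) (a : R) :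
    (Polynomial.taylor a f).coeff (f.rootMultiplicity a) ≠ 0 := by
  obtain ⟨g, hg, hnd⟩ := Polynomial.exists_eq_pow_rootMultiplicity_mul_and_not_dvd f hf a
  set k := f.rootMultiplicity a with hk
  have h1 : Polynomial.taylor a f = Polynomial.X ^ k * Polynomial.taylor a g := by
    conv_lhs => rw [hg]
    rw [Polynomial.taylor_mul, Polynomial.taylor_pow]
    congr 2
    simp [Polynomial.taylor_apply]
  rw [h1]
  have h2 : (Polynomial.X ^ k * Polynomial.taylor a g).coeff k = (Polynomial.taylor a g).coeff 0 := by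
    have := Polynomial.coeff_X_pow_mul (Polynomial.taylor a g) k 0
    simpa using this
  rw [h2, Polynomial.taylor_coeff_zero]
  intro h3
  exact hnd (Polynomial.dvd_iff_isRoot.2 h3)

/-- shift -/
noncomputable def sh {K : Type} [Field K] {n : ℕ} (s : Fin n → ℕ) :
    MvPolynomial (Fin n) K →ₐ[K] MvPolynomial (Fin n) K :=
  MvPolynomial.aeval (fun i => MvPolynomial.C (s i : K) + MvPolynomial.X i)

lemma finSucc_sh {K : Type} [Field K] {n : ℕ} (s₀ : ℕ) (s : Fin n → ℕ)
    (F : MvPolynomial (Fin (n + 1)) K) :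
    MvPolynomial.finSuccEquiv K n (sh (Fin.cons s₀ s : Fin (n + 1) → ℕ) F) =
      (Polynomial.taylor ((s₀ : ℕ) : MvPolynomial (Fin n) K)
        (MvPolynomial.finSuccEquiv K n F)).map (sh s).toRingHom := by
  induction F using MvPolynomial.induction_on with
  | C a =>
    simp [sh, MvPolynomial.finSuccEquiv_apply, MvPolynomial.algebraMap_eq]
  | add p q hp hq =>
    rw [map_add, map_add, map_add, map_add, Polynomial.map_add, hp, hq]
  | mul_X p i hp =>
    have hX : MvPolynomial.finSuccEquiv K n (sh (Fin.cons s₀ s : Fin (n + 1) → ℕ)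
        (MvPolynomial.X i)) = (Polynomial.taylor ((s₀ : ℕ) : MvPolynomial (Fin n) K)
        (MvPolynomial.finSuccEquiv K n (MvPolynomial.X i))).map (sh s).toRingHom := by
      refine Fin.cases ?_ (fun j => ?_) i
      · simp [sh, Polynomial.taylor_X, MvPolynomial.finSuccEquiv_X_zero, add_comm]
      · simp [sh, Polynomial.taylor_C, MvPolynomial.finSuccEquiv_X_succ]
    rw [map_mul, map_mul, map_mul, Polynomial.taylor_mul, Polynomial.map_mul, hp, hX]

lemma degreeOf_taylor {K : Type} [Field K] {n : ℕ} (s₀ k : ℕ) (f : Polynomial (MvPolynomial (Fin n) K))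
    (i : Fin n) (e : ℕ) (h : ∀ j, (f.coeff j).degreeOf i ≤ e) :
    ((Polynomial.taylor ((s₀ : ℕ) : MvPolynomial (Fin n) K) f).coeff k).degreeOf i ≤ e := by
  rw [Polynomial.taylor_coeff, Polynomial.eval_eq_sum, Polynomial.sum]
  refine le_trans (MvPolynomial.degreeOf_sum_le i _ _) ?_
  refine Finset.sup_le fun j _ => ?_
  rw [Polynomial.hasseDeriv_coeff]
  have h1 : (((j + k).choose k : ℕ) : MvPolynomial (Fin n) K) * f.coeff (j + k) *
      ((s₀ : ℕ) : MvPolynomial (Fin n) K) ^ j =
      MvPolynomial.C ((((j + k).choose k : ℕ) : K) * (s₀ : K) ^ j) * f.coeff (j + k) := by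
    simp only [map_mul, map_pow, map_natCast]
    ring
  rw [h1]
  exact le_trans (MvPolynomial.degreeOf_C_mul_le _ _ _) (h _)

end GR1M

open GR1M

theorem specGR1 (_hTMC : SpecTMC) : SpecGR1 := by
  intro K _ _ n
  induction n with
  | zero =>
    intro F hF e he B
    refine ⟨fun i => 0, 0, fun i => Nat.zero_le _, fun i => by simp, ?_⟩
    obtain ⟨a, rfl⟩ := MvPolynomial.C_surjective (Fin 0) F
    simpa using hF
  | succ n ih =>
    intro F hF e he B
    set f := MvPolynomial.finSuccEquiv K n F with hf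
    have hf0 : f ≠ 0 := by
      intro h
      apply hF
      exact (MvPolynomial.finSuccEquiv K n).injective (by rw [← hf, h, map_zero])
    have hdeg : f.natDegree ≤ e 0 := by
      rw [hf, MvPolynomial.natDegree_finSuccEquiv]
      exact he 0
    obtain ⟨s₀, hs₀, hm⟩ := exists_small f (e 0) B hdeg
    set k₀ := f.rootMultiplicity ((s₀ : ℕ) : MvPolynomial (Fin n) K) with hk₀
    have hne := taylor_coeff_ne f hf0 ((s₀ : ℕ) : MvPolynomial (Fin n) K)
    rw [← hk₀] at hne
    obtain ⟨s, κ, h1, h2, h3⟩ := ih _ hne (fun i => e i.succ) (fun i => degreeOf_taylor s₀ k₀ f i _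
      fun j => le_trans (MvPolynomial.degreeOf_coeff_finSuccEquiv F i j) (he i.succ)) B
    refine ⟨Fin.cons s₀ s, κ.cons k₀, ?_, ?_, ?_⟩
    · intro i
      refine Fin.cases ?_ (fun j => ?_) i
      · simpa using hs₀
      · simpa using h1 j
    · intro i
      refine Fin.cases ?_ (fun j => ?_) i
      · simpa using hm
      · simpa using h2 j
    · have h4 := finSucc_sh s₀ s F
      have h5 : (sh (Fin.cons s₀ s : Fin (n + 1) → ℕ) F).coeff (κ.cons k₀) =
          (sh s ((Polynomial.taylor ((s₀ : ℕ) : MvPolynomial (Fin n) K) f).coeff k₀)).coeff κ := by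
        rw [← MvPolynomial.finSuccEquiv_coeff_coeff, h4, Polynomial.coeff_map]
        rfl
      change (sh (Fin.cons s₀ s : Fin (n + 1) → ℕ) F).coeff (κ.cons k₀) ≠ 0
      rw [h5]
      exact h3

end Pool.Agent.Lib.MP_d0e829_nt.SS
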