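import Pool.Agent.Lib.MP_d0e829_nt.SS.SpecB

set_option autoImplicit false

open NumberField

namespace Pool.Agent.Lib.MP_d0e829_nt.SS

open scoped Classical

namespace GRDM

variable {K : Type} [Field K] {m N : ℕ}

/-- the linear forms `λ_p` in the variables `T` -/
noncomputable def lam (y : Fin m → Fin (N - 1) → Fin N → K) (p : Fin m × Fin N) :
    MvPolynomial (Fin m × Fin (N - 1)) K :=
  ∑ l, MvPolynomial.C (y p.1 l p.2) * MvPolynomial.X ((p.1, l) : Fin m × Fin (N - 1))

/-- block weight -/
def bw (M : ℕ) (h : Fin m) (q : Fin m × Fin M) : ℕ := if q.1 = h then 1 else 0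

lemma lam_hom (y : Fin m → Fin (N - 1) → Fin N → K) (h : Fin m) (p : Fin m × Fin N) :
    MvPolynomial.IsWeightedHomogeneous (bw (N - 1) h) (lam y p) (bw N h p) := by
  unfold lam
  refine MvPolynomial.IsWeightedHomogeneous.sum _ _ _ fun l _ => ?_
  refine MvPolynomial.IsWeightedHomogeneous.C_mul ?_ _
  exact MvPolynomial.isWeightedHomogeneous_X K (bw (N - 1) h) (p.1, l)

lemma weight_bw (M : ℕ) (h : Fin m) (κ : Fin m × Fin M →₀ ℕ) :
    Finsupp.weight (bw M h) κ = ∑ l, κ (h, l) := by
  rw [Finsupp.weight_apply, Finsupp.sum_fintype _ _ (by simp), Fintype.sum_prod_type]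
  simp only [bw, smul_eq_mul, mul_ite, mul_one, mul_zero]
  rw [Finset.sum_eq_single h]
  · simp
  · intro b _ hb
    simp [hb]
  · intro hh; exact absurd (Finset.mem_univ _) hh

lemma sum_bw (h : Fin m) (f : Fin m × Fin N → ℕ) :
    ∑ p, f p * bw N h p = ∑ i, f (h, i) := by
  rw [Fintype.sum_prod_type]
  simp only [bw, mul_ite, mul_one, mul_zero]
  rw [Finset.sum_eq_single h]
  · simp
  · intro b _ hb
    simp [hb]
  · intro hh; exact absurd (Finset.mem_univ _) hh

lemma hom_term (y : Fin m → Fin (N - 1) → Fin N → K) (s J : Fin m × Fin N →₀ ℕ)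
    (κ : Fin m × Fin (N - 1) →₀ ℕ)
    (hκ : (∏ p, (((s p).choose (J p) : ℕ) : MvPolynomial (Fin m × Fin (N - 1)) K) *
      lam y p ^ (s p - J p)).coeff κ ≠ 0) (h : Fin m) :
    ∑ l, κ (h, l) + bd J h = bd s h := by
  have hJ : ∀ p, J p ≤ s p := by
    intro p
    by_contra hcon
    apply hκ
    rw [Finset.prod_eq_zero (Finset.mem_univ p)]
    · simp
    · rw [Nat.choose_eq_zero_of_lt (not_le.mp hcon)]
      simp
  have hhom : MvPolynomial.IsWeightedHomogeneous (bw (N - 1) h)
      (∏ p, (((s p).choose (J p) : ℕ) : MvPolynomial (Fin m × Fin (N - 1)) K) *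
        lam y p ^ (s p - J p)) (∑ p, (s p - J p) * bw N h p) := by
    refine MvPolynomial.IsWeightedHomogeneous.prod _ _ _ fun p _ => ?_
    have h1 := (lam_hom y h p).pow (s p - J p)
    rw [smul_eq_mul] at h1
    have h2 := h1.C_mul (((s p).choose (J p) : ℕ) : K)
    rwa [map_natCast] at h2
  have h3 := hhom hκ
  rw [weight_bw, sum_bw] at h3
  rw [h3]
  unfold bd
  rw [← Finset.sum_add_distrib]
  exact Finset.sum_congr rfl fun i _ => Nat.sub_add_cancel (hJ _)

lemma mem_span_of_ker (hN : 2 ≤ N) {a : Fin N → K} (ha : a ≠ 0) {y : Fin (N - 1) → Fin N → K}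
    (hy : LinearIndependent K y) (hay : ∀ l, ∑ i, a i * y l i = 0) {x : Fin N → K}
    (hx : ∑ i, a i * x i = 0) : ∃ u : Fin (N - 1) → K, ∀ i, x i = ∑ l, u l * y l i := by
  let f : (Fin N → K) →ₗ[K] K :=
    { toFun := fun x => ∑ i, a i * x i
      map_add' := fun x y => by
        simp only [Pi.add_apply, mul_add, Finset.sum_add_distrib]
      map_smul' := fun c x => by
        simp only [Pi.smul_apply, smul_eq_mul, RingHom.id_apply, Finset.mul_sum]
        exact Finset.sum_congr rfl fun i _ => by ring }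
  have hf : f ≠ 0 := by
    obtain ⟨i, hi⟩ := Function.ne_iff.mp ha
    intro h0
    apply hi
    have : f (Pi.single i 1) = 0 := by rw [h0]; rfl
    simpa [f, Pi.single_apply] using this
  have hker : Module.finrank K (LinearMap.ker f) = N - 1 := by
    have h1 := LinearMap.finrank_range_add_finrank_ker f
    have h2 : Module.finrank K (LinearMap.range f) = 1 := by
      rw [LinearMap.range_eq_top.mpr (LinearMap.surjective hf), finrank_top]
      simp
    rw [h2, Module.finrank_fin_fun] at h1
    omega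
  have hle : Submodule.span K (Set.range y) ≤ LinearMap.ker f := by
    rw [Submodule.span_le]
    rintro _ ⟨l, rfl⟩
    exact hay l
  have heq : Submodule.span K (Set.range y) = LinearMap.ker f := by
    apply Submodule.eq_of_le_of_finrank_eq hle
    rw [hker, finrank_span_eq_card hy, Fintype.card_fin]
  have hxm : x ∈ Submodule.span K (Set.range y) := by
    rw [heq]; exact hx
  rw [Submodule.mem_span_range_iff_exists_fun] at hxm
  obtain ⟨u, hu⟩ := hxm
  refine ⟨u, fun i => ?_⟩
  rw [← hu]
  simp

end GRDM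

open GRDM in
theorem specGRD (hGR1 : SpecGR1) (hTMC : SpecTMC) : SpecGRD := by
  intro K _ _ m N hN P d hBH a ha y hy hay J x hx hJ B
  have hu : ∀ h, ∃ u : Fin (N - 1) → K, ∀ i, x (h, i) = ∑ l, u l * y h l i := fun h =>
    mem_span_of_ker hN (ha h) (hy h) (hay h) (hx h)
  choose u hu using hu
  set F : MvPolynomial (Fin m × Fin (N - 1)) K :=
    (MvPolynomial.aeval (fun p => MvPolynomial.C (lam y p) + MvPolynomial.X p) P :
      MvPolynomial (Fin m × Fin N) (MvPolynomial (Fin m × Fin (N - 1)) K)).coeff J with hF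
  have hF1 := hTMC ℤ (MvPolynomial (Fin m × Fin (N - 1)) K) (Fin m × Fin N) P (lam y) J
  rw [← hF] at hF1
  -- F is not zero
  have hF0 : F ≠ 0 := by
    intro h0
    apply hJ
    have h1 := hTMC ℤ K (Fin m × Fin N) P x J
    have h2 : (tay P x).coeff J = MvPolynomial.eval (fun q : Fin m × Fin (N - 1) => u q.1 q.2) F := by
      rw [hF1, map_sum]
      refine h1.trans (Finset.sum_congr rfl fun s _ => ?_)
      rw [map_mul, map_prod]
      congr 1
      · simp
      · refine Finset.prod_congr rfl fun p _ => ?_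
        rw [map_mul, map_pow, map_natCast]
        congr 2
        unfold lam
        rw [map_sum, show x p = x (p.1, p.2) from rfl, hu p.1 p.2]
        refine Finset.sum_congr rfl fun l _ => ?_
        simp [mul_comm]
    rw [h2, h0, map_zero]
  have hdeg : ∀ q : Fin m × Fin (N - 1), F.degreeOf q ≤ d q.1 := by
    intro q
    rw [MvPolynomial.degreeOf_le_iff]
    intro κ hκ
    rw [MvPolynomial.mem_support_iff, hF1, MvPolynomial.coeff_sum] at hκ
    obtain ⟨s, hs, hsκ⟩ := Finset.exists_ne_zero_of_sum_ne_zero hκ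
    have h2 : algebraMap ℤ (MvPolynomial (Fin m × Fin (N - 1)) K) (P.coeff s) =
        MvPolynomial.C ((P.coeff s : ℤ) : K) := by simp
    rw [h2, MvPolynomial.coeff_C_mul] at hsκ
    have h3 := hom_term y s J κ (right_ne_zero_of_mul hsκ) q.1
    have h4 : bd s q.1 = d q.1 := hBH s hs q.1
    have h5 : κ (q.1, q.2) ≤ ∑ l, κ (q.1, l) :=
      Finset.single_le_sum (f := fun l => κ (q.1, l)) (fun _ _ => Nat.zero_le _)
        (Finset.mem_univ q.2)
    have h6 : κ q = κ (q.1, q.2) := rfl
    omega
  -- grid lemma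
  let e := Fintype.equivFin (Fin m × Fin (N - 1))
  have hF' : MvPolynomial.rename e F ≠ 0 := by
    intro h0
    exact hF0 (MvPolynomial.rename_injective e e.injective (by rw [h0, map_zero]))
  obtain ⟨s', κ', hs', hκ', hne⟩ := hGR1 K _ (MvPolynomial.rename e F) hF'
    (fun i => d (e.symm i).1) (fun i => by
      have h1 := MvPolynomial.degreeOf_rename_of_injective (p := F) e.injective (e.symm i)
      rw [Equiv.apply_symm_apply] at h1
      rw [h1]
      exact hdeg _) B
  set s : Fin m × Fin (N - 1) → ℕ := fun q => s' (e q) with hs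
  set κ : Fin m × Fin (N - 1) →₀ ℕ := Finsupp.equivMapDomain e.symm κ' with hκd
  have hren : (MvPolynomial.aeval (fun i => MvPolynomial.C (s' i : K) + MvPolynomial.X i)
      (MvPolynomial.rename e F) : MvPolynomial (Fin (Fintype.card (Fin m × Fin (N - 1)))) K) =
      MvPolynomial.rename e (MvPolynomial.aeval
        (fun q => MvPolynomial.C (s q : K) + MvPolynomial.X q) F) := by
    rw [MvPolynomial.aeval_rename]
    have h1 : (MvPolynomial.rename (R := K) e).comp (MvPolynomial.aeval
        (fun q => MvPolynomial.C (s q : K) + MvPolynomial.X q)) =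
        MvPolynomial.aeval ((fun i => MvPolynomial.C (s' i : K) + MvPolynomial.X i) ∘ e) := by
      apply MvPolynomial.algHom_ext
      intro q
      simp [hs]
    rw [← h1]
    rfl
  have hκ2 : Finsupp.mapDomain e κ = κ' := by
    rw [hκd, ← Finsupp.equivMapDomain_eq_mapDomain, ← Finsupp.equivMapDomain_trans]
    simp
  rw [hren, ← hκ2, MvPolynomial.coeff_rename_mapDomain _ e.injective] at hne
  have hκB : ∀ q : Fin m × Fin (N - 1), κ q * (B + 1) ≤ d q.1 := by
    intro q
    have h1 := hκ' (e q)
    rw [Equiv.symm_apply_apply] at h1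
    have h2 : κ q = κ' (e q) := by
      rw [hκd, Finsupp.equivMapDomain_apply]
      simp
    rw [h2]; exact h1
  -- the shifted polynomial
  set z : Fin m × Fin N → K := fun p => ∑ l, (s (p.1, l) : K) * y p.1 l p.2 with hz
  let sh : MvPolynomial (Fin m × Fin (N - 1)) K →ₐ[K] MvPolynomial (Fin m × Fin (N - 1)) K :=
    MvPolynomial.aeval (fun q => MvPolynomial.C (s q : K) + MvPolynomial.X q)
  have hsh : sh F = (MvPolynomial.aeval (fun p => MvPolynomial.C (lam y p) + MvPolynomial.X p)
      (tay P z) :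
      MvPolynomial (Fin m × Fin N) (MvPolynomial (Fin m × Fin (N - 1)) K)).coeff J := by
    have h1 : sh F = (MvPolynomial.map (sh : MvPolynomial (Fin m × Fin (N - 1)) K →+*
        MvPolynomial (Fin m × Fin (N - 1)) K)
        (MvPolynomial.aeval (fun p => MvPolynomial.C (lam y p) + MvPolynomial.X p) P :
      MvPolynomial (Fin m × Fin N) (MvPolynomial (Fin m × Fin (N - 1)) K))).coeff J := by
      rw [MvPolynomial.coeff_map]
      rfl
    rw [h1]
    congr 1
    have hlam : ∀ p, sh (lam y p) = MvPolynomial.C (z p) + lam y p := by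
      intro p
      unfold lam
      rw [map_sum, hz]
      simp only
      rw [map_sum, ← Finset.sum_add_distrib]
      refine Finset.sum_congr rfl fun l _ => ?_
      simp [sh]
      ring
    have e1 : (MvPolynomial.map (sh : MvPolynomial (Fin m × Fin (N - 1)) K →+*
        MvPolynomial (Fin m × Fin (N - 1)) K)).comp
        ((MvPolynomial.aeval (fun p : Fin m × Fin N =>
          MvPolynomial.C (lam y p) + MvPolynomial.X p) :
          MvPolynomial (Fin m × Fin N) ℤ →ₐ[ℤ]
            MvPolynomial (Fin m × Fin N) (MvPolynomial (Fin m × Fin (N - 1)) K)) :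
            MvPolynomial (Fin m × Fin N) ℤ →+*
            MvPolynomial (Fin m × Fin N) (MvPolynomial (Fin m × Fin (N - 1)) K)) =
        ((MvPolynomial.aeval (fun p : Fin m × Fin N =>
          MvPolynomial.C (lam y p) + MvPolynomial.X p) :
          MvPolynomial (Fin m × Fin N) K →ₐ[K]
            MvPolynomial (Fin m × Fin N) (MvPolynomial (Fin m × Fin (N - 1)) K)) :
            MvPolynomial (Fin m × Fin N) K →+*
            MvPolynomial (Fin m × Fin N) (MvPolynomial (Fin m × Fin (N - 1)) K)).comp
        ((MvPolynomial.aeval (fun p : Fin m × Fin N =>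
          MvPolynomial.C (z p) + MvPolynomial.X p) :
          MvPolynomial (Fin m × Fin N) ℤ →ₐ[ℤ] MvPolynomial (Fin m × Fin N) K) :
            MvPolynomial (Fin m × Fin N) ℤ →+* MvPolynomial (Fin m × Fin N) K) := by
      apply MvPolynomial.ringHom_ext
      · intro r
        simp
      · intro p
        have h5 := hlam p
        simp only [RingHom.comp_apply, RingHom.coe_coe, MvPolynomial.aeval_X, map_add,
          MvPolynomial.map_C, MvPolynomial.map_X]
        rw [h5, map_add]
        have h6 : (MvPolynomial.aeval (fun p : Fin m × Fin N =>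
          MvPolynomial.C (lam y p) + MvPolynomial.X p) (MvPolynomial.C (z p)) :
            MvPolynomial (Fin m × Fin N) (MvPolynomial (Fin m × Fin (N - 1)) K)) =
            MvPolynomial.C (MvPolynomial.C (z p)) := by
          rw [MvPolynomial.aeval_C]
          rfl
        rw [h6]
        ring
    exact RingHom.congr_fun e1 P
  have hne2 : (sh F).coeff κ ≠ 0 := hne
  rw [hsh, hTMC K (MvPolynomial (Fin m × Fin (N - 1)) K) (Fin m × Fin N) (tay P z) (lam y) J,
    MvPolynomial.coeff_sum] at hne2
  obtain ⟨J', hJ', hJκ⟩ := Finset.exists_ne_zero_of_sum_ne_zero hne2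
  rw [MvPolynomial.algebraMap_eq, MvPolynomial.coeff_C_mul] at hJκ
  refine ⟨J', fun h l => s (h, l), fun h l => hs' _, fun h => ?_, ?_⟩
  · have h3 := hom_term y J' J κ (right_ne_zero_of_mul hJκ) h
    have h4 : (bd J' h : ℝ) = (∑ l, (κ (h, l) : ℝ)) + bd J h := by
      rw [← h3]; push_cast; rfl
    have hB : (0 : ℝ) < (B : ℝ) + 1 := by positivity
    have h5 : ∀ l : Fin (N - 1), (κ (h, l) : ℝ) ≤ d h / (B + 1) := by
      intro l
      rw [le_div_iff₀ hB]
      exact_mod_cast hκB (h, l)
    have h6 : ∑ l, (κ (h, l) : ℝ) ≤ (N - 1 : ℝ) * d h / (B + 1) := by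
      calc ∑ l, (κ (h, l) : ℝ) ≤ ∑ _l : Fin (N - 1), (d h : ℝ) / (B + 1) :=
            Finset.sum_le_sum fun l _ => h5 l
        _ = (N - 1 : ℝ) * d h / (B + 1) := by
            rw [Finset.sum_const, Finset.card_univ, Fintype.card_fin, nsmul_eq_mul,
              Nat.cast_sub (by omega : 1 ≤ N)]
            push_cast
            ring
    rw [h4]
    linarith
  · rw [MvPolynomial.mem_support_iff] at hJ'
    exact hJ'

end Pool.Agent.Lib.MP_d0e829_nt.SS
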