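import Pool.Agent.Lib.MP_d0e829_nt.SS.SpecB

/-!
# Part B1, module KEY: the global inequality for a nonvanishing Taylor coefficient
-/

set_option autoImplicit false

open NumberField

namespace Pool.Agent.Lib.MP_d0e829_nt.SS

open scoped Classical

namespace KEYM

variable {K : Type} [Field K] [NumberField K]

lemma sum_sw {S : Finset (Place K)} (hS : Good S) : ∑ v ∈ S, sw v = 1 := by
  rw [← finsum_sw (K := K)]
  symm
  refine finsum_eq_sum_of_support_subset _ ?_
  intro w hw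
  cases w with
  | inl w => exact hS.1 w
  | inr w => exact absurd rfl hw

lemma local_sum {S : Finset (Place K)} {g : K} (hg : g ≠ 0) (h : ∀ w, w ∉ S → absV w g ≤ 1) :
    0 ≤ ∑ v ∈ S, Real.log (absV v g) := by
  have h1 : ∑ v ∈ S, Real.log (absV v g) = ∑ᶠ w : Place K, if w ∈ S then Real.log (absV w g) else 0 := by
    rw [finsum_eq_sum_of_support_subset (s := S)]
    · exact Finset.sum_congr rfl fun w hw => by rw [if_pos hw]
    · intro w hw
      by_contra hc
      exact hw (if_neg hc)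
  rw [h1]
  refine (product_formula hg).symm.le.trans ?_
  refine finsum_mono (support_log_absV_finite hg) ?_ ?_
  · refine S.finite_toSet.subset ?_
    intro w hw
    by_contra hc
    exact hw (if_neg hc)
  · intro w
    split_ifs with hw
    · exact le_refl _
    · exact Real.log_nonpos (absV_nonneg _ _) (h w hw)

end KEYM

open KEYM in
theorem specKEY (hLVS : SpecLVS) (hLVN : SpecLVN) (hBDJ : SpecBDJ) : SpecKEY := by
  intro K _ _ N hN S hS L hL
  have h1 : ∀ v : Place K, v ∈ S → ∃ C : ℝ, 0 ≤ C ∧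
    ∀ (m : ℕ) (d : Fin m → ℕ) (P : MvPolynomial (Fin m × Fin N) ℤ) (A : ℝ), 0 ≤ A → BH P d →
      (∀ J, |((P.coeff J : ℤ) : ℝ)| ≤ Real.exp A) →
      ∀ (R Z : ℝ) (c : Fin N → ℝ) (τ E : Fin m → ℝ), 0 ≤ R → (∀ j, |c j| ≤ R) → (∀ h, 0 ≤ τ h) →
      ∀ z : Fin m × Fin N → K,
        (∀ h j, absV v (∑ i, L v j i * z (h, i)) ≤ Real.exp (E h + τ h * c j)) →
        (∀ s ∈ (sbs (L v)⁻¹ P).support, ∑ h, ∑ j, τ h * c j * (s (h, j) : ℝ) ≤ Z) →
        ∀ J, (tay P z).coeff J ≠ 0 →
          Real.log (absV v ((tay P z).coeff J)) ≤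
            A + C * ∑ h, (d h : ℝ) + ∑ h, E h * ((d h : ℝ) - bd J h) + Z +
              R * ∑ h, τ h * (bd J h : ℝ) :=
    fun v hv => hLVS K N (by omega) v (L v) (hL v hv)
  choose! Cf hCf0 hCf using h1
  refine ⟨∑ v ∈ S, Cf v, Finset.sum_nonneg fun v hv => hCf0 v hv, ?_⟩
  intro m d P A hA hP hPA R G c Z τ E hR hG hc hτ z hz1 hz2 hz3 J hJ
  have hbd := (hBDJ K m N P d hP).1 z J hJ
  have h0 : 0 ≤ ∑ v ∈ S, Real.log (absV v ((tay P z).coeff J)) := by
    refine local_sum hJ fun w hw => ?_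
    cases w with
    | inl w => exact absurd (hS.1 w) hw
    | inr w => exact hLVN K w (Fin m × Fin N) P z (hz1 _ hw) J
  refine h0.trans ?_
  have hterm : ∀ v ∈ S, Real.log (absV v ((tay P z).coeff J)) ≤
      (A + G * ∑ h, (d h : ℝ)) + Cf v * ∑ h, (d h : ℝ) - sw v * ∑ h, E h * ((d h : ℝ) - bd J h) + Z v +
        R * ∑ h, τ h * (bd J h : ℝ) := by
    intro v hv
    have h2 := hCf v hv m d P A hA hP hPA R (Z v) (c v) τ (fun h => G - sw v * E h) hR (hc v hv) hτ z
      (hz2 v hv) (hz3 v hv) J hJ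
    refine h2.trans ?_
    have h3 : ∑ h, (G - sw v * E h) * ((d h : ℝ) - bd J h) =
        G * ∑ h, ((d h : ℝ) - bd J h) - sw v * ∑ h, E h * ((d h : ℝ) - bd J h) := by
      rw [Finset.mul_sum, Finset.mul_sum, ← Finset.sum_sub_distrib]
      exact Finset.sum_congr rfl fun h _ => by ring
    have h4 : ∑ h, ((d h : ℝ) - bd J h) ≤ ∑ h, (d h : ℝ) := by
      refine Finset.sum_le_sum fun h _ => ?_
      have : (0 : ℝ) ≤ bd J h := Nat.cast_nonneg _
      linarith
    have h5 := mul_le_mul_of_nonneg_left h4 hG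
    rw [h3]
    linarith
  refine (Finset.sum_le_sum hterm).trans (le_of_eq ?_)
  rw [Finset.sum_add_distrib, Finset.sum_add_distrib, Finset.sum_sub_distrib, Finset.sum_add_distrib,
    Finset.sum_const, Finset.sum_const, ← Finset.sum_mul, ← Finset.sum_mul, sum_sw hS]
  simp only [nsmul_eq_mul]
  ring

end Pool.Agent.Lib.MP_d0e829_nt.SS
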