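import Pool.Agent.Lib.MP_d0e829_nt.SS.SpecA

/-!
# Module LB: the trivial lower bound for the product of the minima
-/

set_option autoImplicit false

open NumberField

namespace Pool.Agent.Lib.MP_d0e829_nt.SS

open scoped Classical

namespace LBM

variable {K : Type} [Field K] [NumberField K]

lemma absV_prod {ι : Type} (w : Place K) (s : Finset ι) (f : ι → K) :
    absV w (∏ i ∈ s, f i) = ∏ i ∈ s, absV w (f i) := by
  induction s using Finset.induction_on with
  | empty => simp
  | insert a s ha ih => rw [Finset.prod_insert ha, Finset.prod_insert ha, absV_mul, ih]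

lemma absV_sign {N : ℕ} (w : Place K) (σ : Equiv.Perm (Fin N)) (z : K) :
    absV w (Equiv.Perm.sign σ • z) = absV w z := by
  rcases Int.units_eq_one_or (Equiv.Perm.sign σ) with h | h
  · rw [h, one_smul]
  · rw [h]
    have : ((-1 : ℤˣ) • z) = -z := by
      rw [Units.smul_def]
      simp
    rw [this, absV_neg]

/-- the determinant of a matrix with `|A i j|_w ≤ a i * b j` -/
lemma absV_det_le {N : ℕ} (w : Place K) (A : Matrix (Fin N) (Fin N) K) (a b : Fin N → ℝ)
    (ha : ∀ i, 0 ≤ a i) (hb : ∀ i, 0 ≤ b i) (h : ∀ i j, absV w (A i j) ≤ a i * b j) :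
    absV w A.det ≤ (N.factorial : ℝ) ^ sw w * ((∏ i, a i) * ∏ j, b j) := by
  rw [Matrix.det_apply]
  have hB : 0 ≤ (∏ i, a i) * ∏ j, b j :=
    mul_nonneg (Finset.prod_nonneg fun i _ => ha i) (Finset.prod_nonneg fun i _ => hb i)
  have h1 := absV_sum_le w (Finset.univ : Finset (Equiv.Perm (Fin N)))
    (fun σ => Equiv.Perm.sign σ • ∏ i, A (σ i) i) hB (by
      intro σ _
      rw [absV_sign, absV_prod]
      calc ∏ i, absV w (A (σ i) i) ≤ ∏ i, (a (σ i) * b i) :=
            Finset.prod_le_prod (fun i _ => absV_nonneg w _) (fun i _ => h (σ i) i)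
        _ = (∏ i, a (σ i)) * ∏ j, b j := Finset.prod_mul_distrib
        _ = (∏ i, a i) * ∏ j, b j := by rw [Equiv.prod_comp σ a])
  have hcard : ((Finset.univ : Finset (Equiv.Perm (Fin N))).card : ℝ) = N.factorial := by
    rw [Finset.card_univ, Fintype.card_perm, Fintype.card_fin]
  rw [hcard] at h1
  exact h1

end LBM

open LBM in
/-- the trivial lower bound for the product of the minima -/
theorem specLB : SpecLB := by
  intro K _ _ N S L hL
  set C₀ : ℝ := Real.log (N.factorial) - ∑ v ∈ S, Real.log (absV v (L v).det) with hC₀
  refine ⟨|C₀|, abs_nonneg _, fun r x hx => ?_⟩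
  set M : Matrix (Fin N) (Fin N) K := Matrix.of x with hM
  have hdet : M.det ≠ 0 := by
    have h1 : IsUnit M := (Matrix.linearIndependent_rows_iff_isUnit (A := M)).mp hx
    have h2 := (Matrix.isUnit_iff_isUnit_det M).mp h1
    exact h2.ne_zero
  have hx0 : ∀ j, x j ≠ 0 := fun j => hx.ne_zero j
  have hf1 : (1 : ℝ) ≤ (N.factorial : ℝ) := by exact_mod_cast Nat.succ_le_of_lt N.factorial_pos
  have hf0 : (0 : ℝ) < (N.factorial : ℝ) := by linarith
  -- the local inequality
  have hloc : ∀ w : Place K, Real.log (absV w M.det) ≤
      sw w * Real.log (N.factorial) + ∑ j, Real.log (lcn S L r w (x j)) +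
        (if w ∈ S then ∑ i, r w i - Real.log (absV w (L w).det) else 0) := by
    intro w
    have hl : ∀ j, 0 < lcn S L r w (x j) := fun j => lcn_pos hL r w (hx0 j)
    have hp : 0 < ∏ j, lcn S L r w (x j) := Finset.prod_pos fun j _ => hl j
    by_cases hw : w ∈ S
    · rw [if_pos hw]
      have h1 := absV_det_le w (L w * M.transpose) (fun i => Real.exp (r w i))
        (fun j => tw (L w) (r w) w (x j)) (fun i => (Real.exp_pos _).le) (fun j => tw_nonneg _ _ _ _)
        (by
          intro i j
          have h2 : (L w * M.transpose) i j = (L w).mulVec (x j) i := by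
            simp [Matrix.mul_apply, Matrix.mulVec, dotProduct, hM]
          rw [h2, mul_comm]
          exact absV_form_le (L w) (r w) w (x j) i)
      rw [Matrix.det_mul, Matrix.det_transpose, absV_mul, ← Real.exp_sum] at h1
      have h3 : ∀ j, tw (L w) (r w) w (x j) = lcn S L r w (x j) := by
        intro j
        unfold lcn
        rw [if_pos hw]
      simp only [h3] at h1
      have h4 := Real.log_le_log (mul_pos (absV_pos w (hL w hw)) (absV_pos w hdet)) h1
      rw [Real.log_mul (absV_pos w (hL w hw)).ne' (absV_pos w hdet).ne',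
        Real.log_mul (Real.rpow_pos_of_pos hf0 _).ne' (mul_pos (Real.exp_pos _) hp).ne',
        Real.log_mul (Real.exp_pos _).ne' hp.ne', Real.log_exp, Real.log_rpow hf0,
        Real.log_prod (fun j _ => (hl j).ne')] at h4
      linarith
    · rw [if_neg hw]
      have h1 := absV_det_le w M.transpose (fun _ => 1) (fun j => nrm w (x j))
        (fun i => zero_le_one) (fun j => nrm_nonneg _ _)
        (by
          intro i j
          rw [one_mul]
          exact absV_le_nrm w (x j) i)
      rw [Matrix.det_transpose, Finset.prod_const_one, one_mul] at h1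
      have h3 : ∀ j, nrm w (x j) = lcn S L r w (x j) := by
        intro j
        unfold lcn
        rw [if_neg hw]
      simp only [h3] at h1
      have h4 := Real.log_le_log (absV_pos w hdet) h1
      rw [Real.log_mul (Real.rpow_pos_of_pos hf0 _).ne' hp.ne', Real.log_rpow hf0,
        Real.log_prod (fun j _ => (hl j).ne')] at h4
      linarith
  -- summation over all places
  have hs1 : (Function.support fun w : Place K => sw w * Real.log (N.factorial)).Finite := by
    refine (support_sw_finite (K := K)).subset ?_
    intro w hw
    simp only [Function.mem_support, ne_eq, mul_eq_zero, not_or] at hw ⊢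
    exact hw.1
  have hs2 : ∀ j, (Function.support fun w : Place K => Real.log (lcn S L r w (x j))).Finite :=
    fun j => support_log_lcn_finite S L r (hx0 j)
  have hs3 : (Function.support fun w : Place K => ∑ j, Real.log (lcn S L r w (x j))).Finite := by
    refine (Set.finite_iUnion hs2).subset ?_
    intro w hw
    by_contra hcon
    apply hw
    simp only [Set.mem_iUnion, Function.mem_support, not_exists, not_not] at hcon
    exact Finset.sum_eq_zero fun j _ => hcon j
  have hs4 : (Function.support fun w : Place K =>
      (if w ∈ S then ∑ i, r w i - Real.log (absV w (L w).det) else 0)).Finite := by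
    refine S.finite_toSet.subset ?_
    intro w hw
    by_contra hcon
    apply hw
    simp only
    rw [if_neg (by simpa using hcon)]
  have hs5 : (Function.support fun w : Place K =>
      sw w * Real.log (N.factorial) + ∑ j, Real.log (lcn S L r w (x j))).Finite :=
    (hs1.union hs3).subset (Function.support_add _ _)
  have hs6 : (Function.support fun w : Place K =>
      sw w * Real.log (N.factorial) + ∑ j, Real.log (lcn S L r w (x j)) +
        (if w ∈ S then ∑ i, r w i - Real.log (absV w (L w).det) else 0)).Finite :=
    (hs5.union hs4).subset (Function.support_add _ _)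
  have hmain := finsum_mono (support_log_absV_finite hdet) hs6 hloc
  rw [product_formula hdet, finsum_add_distrib hs5 hs4, finsum_add_distrib hs1 hs3] at hmain
  have e1 : ∑ᶠ w : Place K, sw w * Real.log (N.factorial) = Real.log (N.factorial) := by
    rw [← finsum_mul, finsum_sw, one_mul]
  have e2 : ∑ᶠ w : Place K, ∑ j, Real.log (lcn S L r w (x j)) = ∑ j, htw S L r (x j) := by
    unfold htw
    exact finsum_sum_comm _ _ fun j _ => hs2 j
  have e3 : ∑ᶠ w : Place K, (if w ∈ S then ∑ i, r w i - Real.log (absV w (L w).det) else 0) =
      ∑ v ∈ S, ∑ i, r v i - ∑ v ∈ S, Real.log (absV v (L v).det) := by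
    rw [finsum_eq_sum_of_support_subset (s := S)]
    · rw [← Finset.sum_sub_distrib]
      exact Finset.sum_congr rfl fun v hv => if_pos hv
    · intro w hw
      by_contra hcon
      apply hw
      simp only
      rw [if_neg (by simpa using hcon)]
  rw [e1, e2, e3] at hmain
  have h7 := le_abs_self C₀
  linarith

end Pool.Agent.Lib.MP_d0e829_nt.SS
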