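import Pool.Agent.Lib.MP_d0e829_nt.SS.SpecB

/-!
# SS, module LIO (helper53): Liouville's inequality for the values of the forms
-/

set_option autoImplicit false

open NumberField

namespace Pool.Agent.Lib.MP_d0e829_nt.SS

open scoped Classical

namespace LIOM

variable {K : Type} [Field K] [NumberField K]

/-- the sizes of the entries -/
noncomputable def kl {N : ℕ} (M : Matrix (Fin N) (Fin N) K) (w : Place K) : ℝ :=
  ∑ p : Fin N × Fin N, |Real.log (absV w (M p.1 p.2))|

theorem kl_nonneg {N : ℕ} (M : Matrix (Fin N) (Fin N) K) (w : Place K) : 0 ≤ kl M w :=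
  Finset.sum_nonneg fun _ _ => abs_nonneg _

theorem entry_le {N : ℕ} (M : Matrix (Fin N) (Fin N) K) (w : Place K) (i j : Fin N) :
    absV w (M i j) ≤ Real.exp (kl M w) := by
  by_cases h : M i j = 0
  · rw [h, absV_zero]
    exact (Real.exp_pos _).le
  · have h1 := absV_pos w h
    rw [← Real.exp_log h1]
    apply Real.exp_le_exp.2
    have h2 : |Real.log (absV w (M (i, j).1 (i, j).2))| ≤ kl M w :=
      Finset.single_le_sum (f := fun p : Fin N × Fin N => |Real.log (absV w (M p.1 p.2))|)
        (fun _ _ => abs_nonneg _) (Finset.mem_univ (i, j))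
    exact (le_abs_self _).trans h2

theorem kl_support {N : ℕ} (M : Matrix (Fin N) (Fin N) K) :
    (Function.support fun w : Place K => kl M w).Finite := by
  have hfin : (⋃ p : Fin N × Fin N,
      Function.support fun w : Place K => |Real.log (absV w (M p.1 p.2))|).Finite := by
    refine Set.finite_iUnion fun p => ?_
    by_cases h : M p.1 p.2 = 0
    · have : (Function.support fun w : Place K => |Real.log (absV w (M p.1 p.2))|) = ∅ := by
        rw [Function.support_eq_empty_iff]
        funext w
        rw [h, absV_zero, Real.log_zero, abs_zero]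
        rfl
      rw [this]
      exact Set.finite_empty
    · refine (support_log_absV_finite h).subset ?_
      intro w hw
      rw [Function.mem_support] at hw ⊢
      intro h0
      apply hw
      rw [h0, abs_zero]
  refine hfin.subset ?_
  intro w hw
  by_contra hcon
  simp only [Set.mem_iUnion, Function.mem_support, not_exists, not_not] at hcon
  apply hw
  show kl M w = 0
  unfold kl
  exact Finset.sum_eq_zero fun p _ => hcon p

end LIOM

open LIOM in
theorem specLIO : SpecLIO := by
  intro K _ _ N M
  refine ⟨Real.log N + ∑ᶠ w : Place K, kl M w, ?_, ?_⟩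
  · have h1 : 0 ≤ Real.log (N : ℝ) := Real.log_natCast_nonneg N
    have h2 : 0 ≤ ∑ᶠ w : Place K, kl M w := finsum_nonneg fun w => kl_nonneg M w
    linarith
  intro v a j hμ
  have ha : a ≠ 0 := by
    rintro rfl
    apply hμ
    simp
  have hN : 0 < N := Fin.pos j
  have hN' : (0 : ℝ) < N := by exact_mod_cast hN
  have hlogN : 0 ≤ Real.log (N : ℝ) := Real.log_natCast_nonneg N
  -- the local inequality
  have hloc : ∀ w : Place K, Real.log (absV w (M.mulVec a j)) ≤
      sw w * Real.log N + kl M w + Real.log (nrm w a) := by
    intro w
    have h1 : absV w (M.mulVec a j) ≤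
        ((Finset.univ : Finset (Fin N)).card : ℝ) ^ sw w * (Real.exp (kl M w) * nrm w a) := by
      refine absV_sum_le w Finset.univ (fun i => M j i * a i)
        (mul_nonneg (Real.exp_pos _).le (nrm_nonneg w a)) (fun i _ => ?_)
      rw [absV_mul]
      exact mul_le_mul (entry_le M w j i) (absV_le_nrm w a i) (absV_nonneg w _) (Real.exp_pos _).le
    rw [Finset.card_univ, Fintype.card_fin] at h1
    have h2 := Real.log_le_log (absV_pos w hμ) h1
    have hn := nrm_pos w ha
    rw [Real.log_mul (Real.rpow_pos_of_pos hN' _).ne' (mul_pos (Real.exp_pos _) hn).ne',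
      Real.log_mul (Real.exp_pos _).ne' hn.ne', Real.log_exp, Real.log_rpow hN'] at h2
    linarith
  have s1 : (Function.support fun w : Place K => sw w * Real.log N).Finite :=
    (support_sw_finite (K := K)).subset fun w hw => by
      rw [Function.mem_support] at hw ⊢
      intro h0
      apply hw
      rw [h0, zero_mul]
  have s2 := kl_support M
  have s3 := support_log_nrm_finite ha
  have s4 := support_log_absV_finite (K := K) hμ
  have s12 : (Function.support fun w : Place K => sw w * Real.log N + kl M w).Finite :=
    (s1.union s2).subset (Function.support_add _ _)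
  have s123 : (Function.support fun w : Place K =>
      sw w * Real.log N + kl M w + Real.log (nrm w a)).Finite :=
    (s12.union s3).subset (Function.support_add _ _)
  have s1234 : (Function.support fun w : Place K =>
      (sw w * Real.log N + kl M w + Real.log (nrm w a)) - Real.log (absV w (M.mulVec a j))).Finite :=
    (s123.union s4).subset (Function.support_sub _ _)
  have hsum : ∑ᶠ w : Place K, ((sw w * Real.log N + kl M w + Real.log (nrm w a)) -
      Real.log (absV w (M.mulVec a j))) = Real.log N + ∑ᶠ w : Place K, kl M w + ht a := by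
    rw [finsum_sub_distrib s123 s4, finsum_add_distrib s12 s3, finsum_add_distrib s1 s2,
      product_formula hμ, sub_zero, ← finsum_mul, finsum_sw, one_mul]
    rfl
  have hle := single_le_finsum v s1234 (fun w => sub_nonneg.2 (hloc w))
  rw [hsum] at hle
  have h1 : 0 ≤ sw v * Real.log N := mul_nonneg (sw_nonneg v) hlogN
  have h2 := kl_nonneg M v
  linarith

end Pool.Agent.Lib.MP_d0e829_nt.SS
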