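import Pool.Agent.Lib.MP_d0e829_nt.SS.SpecB

/-!
LVN: local bound at a finite place outside `S`.
-/

set_option autoImplicit false

open NumberField

namespace Pool.Agent.Lib.MP_d0e829_nt.SS

namespace LVNM

variable {K : Type} [Field K] [NumberField K]

lemma sum_le_one (w : FinitePlace K) {ι : Type} (s : Finset ι) (f : ι → K)
    (h : ∀ i ∈ s, absV (Sum.inr w : Place K) (f i) ≤ 1) :
    absV (Sum.inr w : Place K) (∑ i ∈ s, f i) ≤ 1 := by
  have h1 := absV_sum_le (Sum.inr w : Place K) s f (B := 1) zero_le_one h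
  have h2 : sw (Sum.inr w : Place K) = 0 := rfl
  rw [h2, Real.rpow_zero, one_mul] at h1
  exact h1

lemma mul_le_one' (w : Place K) {a b : K} (ha : absV w a ≤ 1) (hb : absV w b ≤ 1) :
    absV w (a * b) ≤ 1 := by
  rw [absV_mul]
  exact mul_le_one₀ ha (absV_nonneg w b) hb

lemma pow_le_one' (w : Place K) {a : K} (ha : absV w a ≤ 1) (n : ℕ) : absV w (a ^ n) ≤ 1 := by
  induction n with
  | zero => simp
  | succ n ih => rw [pow_succ]; exact mul_le_one' w ih ha

lemma prod_le_one' (w : Place K) {ι : Type} (s : Finset ι) (f : ι → K)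
    (h : ∀ i ∈ s, absV w (f i) ≤ 1) : absV w (∏ i ∈ s, f i) ≤ 1 := by
  classical
  induction s using Finset.induction_on with
  | empty => simp
  | insert a s ha ih =>
    rw [Finset.prod_insert ha]
    exact mul_le_one' w (h a (Finset.mem_insert_self a s))
      (ih fun i hi => h i (Finset.mem_insert_of_mem hi))

lemma nat_le_one (w : FinitePlace K) (n : ℕ) : absV (Sum.inr w : Place K) (n : K) ≤ 1 := by
  have h1 : (n : K) = ∑ _i ∈ Finset.range n, (1 : K) := by simp
  rw [h1]
  exact sum_le_one w _ _ fun i _ => by simp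

lemma int_le_one (w : FinitePlace K) (n : ℤ) : absV (Sum.inr w : Place K) (n : K) ≤ 1 := by
  obtain ⟨k, rfl | rfl⟩ := Int.eq_nat_or_neg n
  · simpa using nat_le_one w k
  · rw [Int.cast_neg, absV_neg]
    simpa using nat_le_one w k

end LVNM

open LVNM

theorem specLVN (hTMC : SpecTMC) : SpecLVN := by
  intro K _ _ w ι _ P z hz J
  have h : (tay P z).coeff J = _ := hTMC ℤ K ι P z J
  rw [h]
  refine sum_le_one w _ _ fun s _ => ?_
  refine mul_le_one' _ ?_ (prod_le_one' _ _ _ fun p _ => mul_le_one' _ (nat_le_one w _)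
    (pow_le_one' _ (hz p) _))
  simpa using int_le_one w (P.coeff s)

end Pool.Agent.Lib.MP_d0e829_nt.SS
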