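import Pool.Agent.Lib.MP_d0e829_nt.SS.SpecB

set_option autoImplicit false

open NumberField

namespace Pool.Agent.Lib.MP_d0e829_nt.SS

open scoped Classical

namespace LVSM

variable {K : Type} [Field K] [NumberField K] {m N : ℕ}

lemma weight_inf_le_one (w : InfinitePlace K) : weight (Sum.inl w : Place K) ≤ 1 := by
  rw [← sum_weight_inf (K := K)]
  exact Finset.single_le_sum (f := fun w : InfinitePlace K => weight (Sum.inl w : Place K))
    (fun w _ => (weight_pos _).le) (Finset.mem_univ w)

lemma absV_nat_fin (w : FinitePlace K) (n : ℕ) : absV (Sum.inr w : Place K) (n : K) ≤ 1 := by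
  have h : rawAbs (Sum.inr w : Place K) (n : K) ≤ 1 := by
    induction n with
    | zero => simp
    | succ n ih =>
      push_cast
      have h1 : rawAbs (Sum.inr w : Place K) ((n : K) + 1) ≤
        max (rawAbs (Sum.inr w : Place K) (n : K)) (rawAbs (Sum.inr w : Place K) 1) :=
        FinitePlace.add_le w _ _
      refine h1.trans (max_le ih ?_)
      simp
  calc absV (Sum.inr w : Place K) (n : K) ≤ (1 : ℝ) ^ weight (Sum.inr w : Place K) :=
        Real.rpow_le_rpow (rawAbs_nonneg _ _) h (weight_pos _).le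
    _ = 1 := Real.one_rpow _

lemma absV_int_le (v : Place K) (n : ℤ) {B : ℝ} (hB : 1 ≤ B) (h : |(n : ℝ)| ≤ B) :
    absV v (n : K) ≤ B := by
  cases v with
  | inl w =>
    have h1 : rawAbs (Sum.inl w : Place K) (n : K) = |(n : ℝ)| := by
      show w (n : K) = _
      rw [← InfinitePlace.norm_embedding_eq w (n : K), map_intCast]
      simp
    have h2 : absV (Sum.inl w : Place K) (n : K) ≤ B ^ weight (Sum.inl w : Place K) := by
      unfold absV
      rw [h1]
      exact Real.rpow_le_rpow (abs_nonneg _) h (weight_pos _).le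
    refine h2.trans ?_
    calc B ^ weight (Sum.inl w : Place K) ≤ B ^ (1 : ℝ) :=
          Real.rpow_le_rpow_of_exponent_le hB (weight_inf_le_one w)
      _ = B := Real.rpow_one B
  | inr w =>
    refine le_trans ?_ hB
    rcases Int.natAbs_eq n with h1 | h1
    · rw [h1, Int.cast_natCast]
      exact absV_nat_fin w _
    · rw [h1, Int.cast_neg, Int.cast_natCast, absV_neg]
      exact absV_nat_fin w _

lemma card_anti (N n : ℕ) :
    ((Finset.piAntidiag (Finset.univ : Finset (Fin N)) n).card : ℝ) ≤ Real.exp (N * n) := by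
  have h1 : Finset.piAntidiag (Finset.univ : Finset (Fin N)) n ⊆
      Fintype.piFinset (fun _ : Fin N => Finset.range (n + 1)) := by
    intro f hf
    rw [Finset.mem_piAntidiag] at hf
    rw [Fintype.mem_piFinset]
    intro i
    rw [Finset.mem_range, Nat.lt_succ_iff, ← hf.1]
    exact Finset.single_le_sum (f := f) (fun _ _ => Nat.zero_le _) (Finset.mem_univ i)
  have h2 := Finset.card_le_card h1
  rw [Fintype.card_piFinset] at h2
  simp only [Finset.card_range, Finset.prod_const, Finset.card_univ, Fintype.card_fin] at h2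
  calc ((Finset.piAntidiag (Finset.univ : Finset (Fin N)) n).card : ℝ) ≤ ((n + 1) ^ N : ℕ) := by
        exact_mod_cast h2
    _ = ((n : ℝ) + 1) ^ N := by push_cast; ring
    _ ≤ (Real.exp n) ^ N := by
        apply pow_le_pow_left₀ (by positivity)
        exact Real.add_one_le_exp _
    _ = Real.exp (N * n) := by rw [← Real.exp_nat_mul]

lemma card_mons (N : ℕ) (d : Fin m → ℕ) :
    ((mons N d).card : ℝ) ≤ Real.exp (N * ∑ h, (d h : ℝ)) := by
  unfold mons
  have h1 := Finset.card_image_le (s := Fintype.piFinset fun h =>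
    Finset.piAntidiag (Finset.univ : Finset (Fin N)) (d h))
    (f := fun f : Fin m → Fin N → ℕ => (Finsupp.equivFunOnFinite.symm
      fun p : Fin m × Fin N => f p.1 p.2))
  rw [Fintype.card_piFinset] at h1
  calc (_ : ℝ) ≤ ((∏ h, (Finset.piAntidiag (Finset.univ : Finset (Fin N)) (d h)).card : ℕ) : ℝ) := by
        exact_mod_cast h1
    _ = ∏ h, ((Finset.piAntidiag (Finset.univ : Finset (Fin N)) (d h)).card : ℝ) := by
        push_cast; rfl
    _ ≤ ∏ h, Real.exp (N * d h) :=
        Finset.prod_le_prod (fun _ _ => Nat.cast_nonneg _) fun h _ => card_anti N (d h)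
    _ = Real.exp (N * ∑ h, (d h : ℝ)) := by
        rw [← Real.exp_sum, Finset.mul_sum]

lemma sum_eq_bd (s : Fin m × Fin N →₀ ℕ) : ∑ p, s p = ∑ h, bd s h := by
  rw [Fintype.sum_prod_type]
  rfl

end LVSM

open LVSM in
theorem specLVS (hWNM : SpecWNM) (hBDJ : SpecBDJ) : SpecLVS := by
  intro K _ _ N hN v L hL
  set ℓ : ℝ := 1 + ∑ i, ∑ j, absV v (L i j) + ∑ i, ∑ j, absV v (L⁻¹ i j) with hℓ
  have hs1 : 0 ≤ ∑ i, ∑ j, absV v (L i j) :=
    Finset.sum_nonneg fun i _ => Finset.sum_nonneg fun j _ => absV_nonneg _ _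
  have hs2 : 0 ≤ ∑ i, ∑ j, absV v (L⁻¹ i j) :=
    Finset.sum_nonneg fun i _ => Finset.sum_nonneg fun j _ => absV_nonneg _ _
  have hℓ1 : 1 ≤ ℓ := by rw [hℓ]; linarith
  have hent : ∀ (M : Matrix (Fin N) (Fin N) K) (i j : Fin N),
      absV v (M i j) ≤ ∑ i, ∑ j, absV v (M i j) := by
    intro M i j
    refine le_trans ?_ (Finset.single_le_sum (f := fun i => ∑ j, absV v (M i j))
      (fun i _ => Finset.sum_nonneg fun j _ => absV_nonneg _ _) (Finset.mem_univ i))
    exact Finset.single_le_sum (f := fun j => absV v (M i j))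
      (fun j _ => absV_nonneg _ _) (Finset.mem_univ j)
  have hLe : ∀ i j, absV v (L i j) ≤ ℓ := by
    intro i j; have := hent L i j; rw [hℓ]; linarith
  have hLi : ∀ i j, absV v (L⁻¹ i j) ≤ ℓ := by
    intro i j; have := hent L⁻¹ i j; rw [hℓ]; linarith
  have hN1 : (1 : ℝ) ≤ N := by exact_mod_cast hN
  set q : ℝ := N * ℓ with hq
  have hq1 : 1 ≤ q := by rw [hq]; nlinarith
  have hq0 : 0 < q := by linarith
  have hlq : 0 ≤ Real.log q := Real.log_nonneg hq1
  have hl2 : 0 ≤ Real.log 2 := Real.log_nonneg (by norm_num)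
  refine ⟨N + Real.log 2 + 2 * Real.log q, by positivity, ?_⟩
  intro m d P A hA hBH hP R Z c τ E hR hc hτ z hz hZ J hJ
  obtain ⟨hb1, hb2, hb3⟩ := hBDJ K m N P d hBH
  -- linear forms
  have hlin : ∀ (lam : Fin m → ℝ) (hl : ∀ h, 0 < lam h) (M : Matrix (Fin N) (Fin N) K)
      (hM : ∀ i j, absV v (M i j) ≤ ℓ) (h : Fin m) (j : Fin N),
      wn v lam (∑ i, MvPolynomial.C (M j i) * MvPolynomial.X ((h, i) : Fin m × Fin N)) ≤
        q * lam h := by
    intro lam hl M hM h j
    obtain ⟨w1, w2, w3, w4, w5, w6⟩ := hWNM K m N v lam hl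
    have hsum : ∀ (T : Finset (Fin N)),
        wn v lam (∑ i ∈ T, MvPolynomial.C (M j i) * MvPolynomial.X ((h, i) : Fin m × Fin N)) ≤
          ∑ i ∈ T, ℓ * lam h := by
      intro T
      induction T using Finset.induction_on with
      | empty => simp [wn]
      | insert a T ha ih =>
        rw [Finset.sum_insert ha, Finset.sum_insert ha]
        refine (w3 _ _).trans (add_le_add ?_ ih)
        refine (w4 _ _).trans ?_
        rw [w1, w2]
        exact mul_le_mul_of_nonneg_right (hM _ _) (hl _).le
    refine (hsum Finset.univ).trans ?_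
    simp only [Finset.sum_const, Finset.card_univ, Fintype.card_fin, nsmul_eq_mul]
    apply le_of_eq
    rw [hq]; ring
  have hwnn : ∀ (lam : Fin m → ℝ) (hl : ∀ h, 0 < lam h) (F : MvPolynomial (Fin m × Fin N) K),
      0 ≤ wn v lam F := fun lam hl F =>
    Finset.sum_nonneg fun J _ => mul_nonneg (absV_nonneg _ _)
      (Finset.prod_nonneg fun h _ => (pow_pos (hl h) _).le)
  set Dn : ℕ := ∑ h, d h with hDn
  have hDnR : (Dn : ℝ) = ∑ h, (d h : ℝ) := by rw [hDn]; push_cast; rfl
  -- step (i)
  set Rv := sbs L⁻¹ P with hRv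
  have hRsum : ∑ s ∈ Rv.support, absV v (Rv.coeff s) ≤
      Real.exp (N * Dn) * Real.exp A * q ^ Dn := by
    obtain ⟨w1, w2, w3, w4, w5, w6⟩ := hWNM K m N v (fun _ => 1) (fun _ => one_pos)
    have e1 : ∑ s ∈ Rv.support, absV v (Rv.coeff s) = wn v (fun _ => (1 : ℝ)) Rv := by
      unfold wn
      refine Finset.sum_congr rfl fun s _ => ?_
      simp
    rw [e1, hRv]
    unfold sbs
    rw [← MvPolynomial.aeval_map_algebraMap K]
    refine (w6 _ _).trans ?_
    have hsub : (MvPolynomial.map (algebraMap ℤ K) P).support ⊆ mons N d := by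
      intro s hs
      exact mem_mons.mpr (fun h => hBH s (MvPolynomial.support_map_subset _ _ hs) h)
    have hterm : ∀ s ∈ (MvPolynomial.map (algebraMap ℤ K) P).support,
        absV v ((MvPolynomial.map (algebraMap ℤ K) P).coeff s) *
          ∏ p : Fin m × Fin N, wn v (fun _ => (1 : ℝ)) (∑ j, MvPolynomial.C (L⁻¹ p.2 j) *
            MvPolynomial.X ((p.1, j) : Fin m × Fin N)) ^ s p ≤ Real.exp A * q ^ Dn := by
      intro s hs
      have hsd := mem_mons.mp (hsub hs)
      refine mul_le_mul ?_ ?_ (Finset.prod_nonneg fun p _ =>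
        pow_nonneg (hwnn _ (fun _ => one_pos) _) _) (Real.exp_pos _).le
      · rw [MvPolynomial.coeff_map]
        exact absV_int_le v _ (Real.one_le_exp hA) (hP s)
      · calc _ ≤ ∏ p : Fin m × Fin N, q ^ s p := by
              refine Finset.prod_le_prod (fun p _ => pow_nonneg (hwnn _ (fun _ => one_pos) _) _)
                fun p _ => ?_
              refine pow_le_pow_left₀ (hwnn _ (fun _ => one_pos) _) ?_ _
              have := hlin (fun _ => 1) (fun _ => one_pos) L⁻¹ hLi p.1 p.2
              rwa [mul_one] at this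
          _ = q ^ Dn := by
              rw [Finset.prod_pow_eq_pow_sum, sum_eq_bd]
              congr 1
              exact Finset.sum_congr rfl fun h _ => hsd h
    refine (Finset.sum_le_sum hterm).trans ?_
    rw [Finset.sum_const, nsmul_eq_mul, mul_assoc]
    refine mul_le_mul_of_nonneg_right ?_ (by positivity)
    calc (((MvPolynomial.map (algebraMap ℤ K) P).support.card : ℕ) : ℝ) ≤ ((mons N d).card : ℝ) := by
          exact_mod_cast Finset.card_le_card hsub
      _ ≤ _ := by rw [hDnR]; exact card_mons N d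
  -- step (ii)
  set lam : Fin m → ℝ := fun h => Real.exp (E h - R * τ h) / q with hlam
  have hl : ∀ h, 0 < lam h := fun h => by rw [hlam]; positivity
  obtain ⟨w1, w2, w3, w4, w5, w6⟩ := hWNM K m N v lam hl
  have hwt : wn v lam (tay P z) ≤
      (Real.exp (N * Dn) * Real.exp A * q ^ Dn) * (2 ^ Dn * Real.exp (∑ h, E h * d h + Z)) := by
    rw [hb3 L hL z]
    refine (w6 _ _).trans ?_
    refine le_trans ?_ (mul_le_mul_of_nonneg_right hRsum (by positivity))
    rw [Finset.sum_mul]
    refine Finset.sum_le_sum fun s hs => ?_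
    refine mul_le_mul_of_nonneg_left ?_ (absV_nonneg _ _)
    have hsd := hb2 L⁻¹ s hs
    calc _ ≤ ∏ p : Fin m × Fin N, (2 * Real.exp (E p.1 + τ p.1 * c p.2)) ^ s p := by
          refine Finset.prod_le_prod (fun p _ => pow_nonneg (hwnn _ hl _) _) fun p _ => ?_
          refine pow_le_pow_left₀ (hwnn _ hl _) ?_ _
          refine (w3 _ _).trans ?_
          rw [w1]
          have h1 := hz p.1 p.2
          have h2 := hlin lam hl L hLe p.1 p.2
          have h3 : q * lam p.1 ≤ Real.exp (E p.1 + τ p.1 * c p.2) := by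
            rw [hlam]
            simp only
            rw [mul_div_cancel₀ _ hq0.ne']
            apply Real.exp_le_exp.mpr
            have h4 := (abs_le.mp (hc p.2)).1
            have h5 := hτ p.1
            nlinarith
          linarith
      _ = 2 ^ Dn * Real.exp (∑ p : Fin m × Fin N, (s p : ℝ) * (E p.1 + τ p.1 * c p.2)) := by
          rw [Real.exp_sum]
          simp only [mul_pow, Finset.prod_mul_distrib]
          rw [Finset.prod_pow_eq_pow_sum, sum_eq_bd]
          congr 1
          · congr 1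
            exact Finset.sum_congr rfl fun h _ => hsd h
          · refine Finset.prod_congr rfl fun p _ => ?_
            rw [← Real.exp_nat_mul]
      _ ≤ 2 ^ Dn * Real.exp (∑ h, E h * d h + Z) := by
          refine mul_le_mul_of_nonneg_left ?_ (by positivity)
          apply Real.exp_le_exp.mpr
          have h1 : ∑ p : Fin m × Fin N, (s p : ℝ) * (E p.1 + τ p.1 * c p.2) =
              ∑ h, E h * d h + ∑ h, ∑ j, τ h * c j * (s (h, j) : ℝ) := by
            rw [Fintype.sum_prod_type, ← Finset.sum_add_distrib]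
            refine Finset.sum_congr rfl fun h _ => ?_
            have h2 : (d h : ℝ) = ∑ j, (s (h, j) : ℝ) := by
              rw [← hsd h]; unfold bd; push_cast; rfl
            rw [h2, Finset.mul_sum, ← Finset.sum_add_distrib]
            refine Finset.sum_congr rfl fun j _ => ?_
            simp only
            ring
          rw [h1]
          have := hZ s hs
          linarith
  -- step (iii)
  have h5 := (w5 (tay P z) J).trans hwt
  have hpos : 0 < absV v ((tay P z).coeff J) := absV_pos v hJ
  have hprod : 0 < ∏ h, lam h ^ bd J h := Finset.prod_pos fun h _ => pow_pos (hl h) _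
  have h6 := Real.log_le_log (mul_pos hpos hprod) h5
  rw [Real.log_mul hpos.ne' hprod.ne', Real.log_mul (by positivity) (by positivity),
    Real.log_mul (by positivity) (by positivity), Real.log_mul (by positivity) (by positivity),
    Real.log_mul (by positivity) (by positivity), Real.log_exp, Real.log_exp, Real.log_exp,
    Real.log_pow, Real.log_pow, Real.log_prod (fun h _ => (pow_pos (hl h) _).ne')] at h6
  have h7 : ∑ h, Real.log (lam h ^ bd J h) =
      ∑ h, E h * (bd J h : ℝ) - R * ∑ h, τ h * (bd J h : ℝ) - Real.log q * ∑ h, (bd J h : ℝ) := by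
    rw [Finset.mul_sum, Finset.mul_sum, ← Finset.sum_sub_distrib, ← Finset.sum_sub_distrib]
    refine Finset.sum_congr rfl fun h _ => ?_
    rw [Real.log_pow, hlam]
    simp only
    rw [Real.log_div (Real.exp_pos _).ne' hq0.ne', Real.log_exp]
    ring
  have h8 : ∑ h, (bd J h : ℝ) ≤ Dn := by
    rw [hDnR]
    exact Finset.sum_le_sum fun h _ => by exact_mod_cast hb1 z J hJ h
  have h9 : ∑ h, E h * ((d h : ℝ) - bd J h) = ∑ h, E h * d h - ∑ h, E h * (bd J h : ℝ) := by
    rw [← Finset.sum_sub_distrib]
    exact Finset.sum_congr rfl fun h _ => by ring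
  rw [h7] at h6
  rw [h9, ← hDnR]
  have h10 : Real.log q * ∑ h, (bd J h : ℝ) ≤ Real.log q * Dn :=
    mul_le_mul_of_nonneg_left h8 hlq
  nlinarith

end Pool.Agent.Lib.MP_d0e829_nt.SS
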