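import Pool.Agent.Lib.MP_d0e829_nt.SS.SpecA

/-!
# Module M1: the first minimum by pigeonhole
-/

set_option autoImplicit false

open NumberField Finset

namespace Pool.Agent.Lib.MP_d0e829_nt.SS

open scoped Classical

namespace M1M

variable {K : Type} [Field K] [NumberField K]

/-! ### cells at the infinite places -/

/-- the cell of `z` -/
noncomputable def cl (v : InfinitePlace K) (s : ℝ) (z : K) : ℤ × ℤ :=
  (⌊(v.embedding z).re / s⌋, ⌊(v.embedding z).im / s⌋)

/-- the possible cells -/
noncomputable def DD (v : InfinitePlace K) (B s : ℝ) : Finset (ℤ × ℤ) :=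
  Icc (-⌈B / s⌉) ⌈B / s⌉ ×ˢ (if v.IsReal then {0} else Icc (-⌈B / s⌉) ⌈B / s⌉)

lemma floor_mem {t B s : ℝ} (hs : 0 < s) (hB : |t| ≤ B) :
    ⌊t / s⌋ ∈ Icc (-⌈B / s⌉) ⌈B / s⌉ := by
  rw [abs_le] at hB
  rw [Finset.mem_Icc]
  constructor
  · rw [← Int.floor_neg, ← neg_div]
    exact Int.floor_mono (div_le_div_of_nonneg_right hB.1 hs.le)
  · exact (Int.floor_mono (div_le_div_of_nonneg_right hB.2 hs.le)).trans (Int.floor_le_ceil _)

lemma cl_mem (v : InfinitePlace K) {B s : ℝ} (hs : 0 < s) {z : K} (hz : v z ≤ B) :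
    cl v s z ∈ DD v B s := by
  have h1 : |(v.embedding z).re| ≤ B :=
    ((Complex.abs_re_le_norm _).trans (InfinitePlace.norm_embedding_eq v z).le).trans hz
  have h2 : |(v.embedding z).im| ≤ B :=
    ((Complex.abs_im_le_norm _).trans (InfinitePlace.norm_embedding_eq v z).le).trans hz
  unfold cl DD
  rw [Finset.mem_product]
  refine ⟨floor_mem hs h1, ?_⟩
  split_ifs with h
  · have h3 : (v.embedding z).im = 0 := by
      rw [← InfinitePlace.embedding_of_isReal_apply h z]
      exact Complex.ofReal_im _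
    simp [h3]
  · exact floor_mem hs h2

lemma card_Icc_le {t : ℝ} (ht : 0 ≤ t) : ((Icc (-⌈t⌉) ⌈t⌉).card : ℝ) ≤ 2 * t + 3 := by
  have h0 : 0 ≤ ⌈t⌉ := Int.ceil_nonneg ht
  rw [Int.card_Icc]
  have h1 : (((⌈t⌉ + 1 - -⌈t⌉).toNat : ℤ) : ℝ) = 2 * (⌈t⌉ : ℝ) + 1 := by
    rw [Int.toNat_of_nonneg (by omega)]
    push_cast
    ring
  have h2 := (Int.ceil_lt_add_one t).le
  have h3 : (((⌈t⌉ + 1 - -⌈t⌉).toNat : ℕ) : ℝ) = 2 * (⌈t⌉ : ℝ) + 1 := by exact_mod_cast h1
  rw [h3]
  linarith

lemma DD_card (v : InfinitePlace K) {B s : ℝ} (hB : 0 ≤ B) (hs : 0 < s) :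
    ((DD v B s).card : ℝ) ≤ (2 * (B / s) + 3) ^ v.mult := by
  have h1 := card_Icc_le (t := B / s) (by positivity)
  unfold DD
  rw [Finset.card_product]
  push_cast
  unfold InfinitePlace.mult
  split_ifs with h
  · simpa using h1
  · rw [pow_two]
    exact mul_le_mul h1 h1 (by positivity) (by positivity)

lemma cl_eq (v : InfinitePlace K) {s : ℝ} (hs : 0 < s) {z z' : K} (h : cl v s z = cl v s z') :
    v (z - z') ≤ 2 * s := by
  unfold cl at h
  rw [Prod.mk.injEq] at h
  have key : ∀ t t' : ℝ, ⌊t / s⌋ = ⌊t' / s⌋ → |t - t'| ≤ s := by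
    intro t t' h
    have h1 := (Int.abs_sub_lt_one_of_floor_eq_floor h).le
    rw [← sub_div, abs_div, abs_of_pos hs, div_le_one hs] at h1
    exact h1
  have h1 := key _ _ h.1
  have h2 := key _ _ h.2
  rw [← InfinitePlace.norm_embedding_eq, map_sub]
  have h3 := Complex.norm_le_abs_re_add_abs_im (v.embedding z - v.embedding z')
  rw [Complex.sub_re, Complex.sub_im] at h3
  linarith

/-! ### the finite places -/

/-- the norm of the prime ideal -/
noncomputable def qq (v : FinitePlace K) : ℕ := Ideal.absNorm v.maximalIdeal.asIdeal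

lemma one_lt_qq (v : FinitePlace K) : 1 < qq v := by
  have h := NumberField.HeightOneSpectrum.one_lt_absNorm v.maximalIdeal
  exact h

lemma fin_le (v : FinitePlace K) {x : 𝓞 K} {e : ℕ} (h : x ∈ v.maximalIdeal.asIdeal ^ e) :
    v (x : K) * (qq v : ℝ) ^ e ≤ 1 := by
  by_cases hx : x = 0
  · subst hx
    simp
  have h1 := FinitePlace.apply_mul_absNorm_pow_eq_one v hx
  have h2 : e ≤ multiplicity v.maximalIdeal.asIdeal (Ideal.span {x}) := by
    have hd : v.maximalIdeal.asIdeal ^ e ∣ Ideal.span {x} := by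
      rw [Ideal.dvd_span_singleton]
      exact h
    have hfin : FiniteMultiplicity v.maximalIdeal.asIdeal (Ideal.span {x}) := by
      refine FiniteMultiplicity.of_prime_left v.maximalIdeal.prime ?_
      rw [Ne, Ideal.zero_eq_bot, Ideal.span_singleton_eq_bot]
      exact hx
    exact hfin.le_multiplicity_of_pow_dvd hd
  have hq : (1 : ℝ) ≤ (qq v : ℝ) := by exact_mod_cast (one_lt_qq v).le
  have h0 : 0 ≤ v (x : K) := apply_nonneg v _
  calc v (x : K) * (qq v : ℝ) ^ e ≤ v (x : K) *
        (qq v : ℝ) ^ multiplicity v.maximalIdeal.asIdeal (Ideal.span {x}) := by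
        gcongr
    _ = 1 := h1

lemma fin_int (v : FinitePlace K) (x : 𝓞 K) : v (x : K) ≤ 1 := by
  have h := fin_le v (x := x) (e := 0) (by simp)
  simpa using h

lemma ceil_pow {q t : ℝ} (hq : 1 < q) (ht : 0 ≤ t) :
    Real.exp t ≤ q ^ ⌈t / Real.log q⌉₊ ∧ q ^ ⌈t / Real.log q⌉₊ ≤ q * Real.exp t := by
  have hl : 0 < Real.log q := Real.log_pos hq
  have hq0 : 0 < q := by linarith
  have e1 : q ^ ⌈t / Real.log q⌉₊ = Real.exp (⌈t / Real.log q⌉₊ * Real.log q) := by
    rw [← Real.log_pow, Real.exp_log (by positivity)]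
  rw [e1]
  constructor
  · apply Real.exp_le_exp.2
    have h := Nat.le_ceil (t / Real.log q)
    rwa [div_le_iff₀ hl] at h
  · have e2 : q * Real.exp t = Real.exp (Real.log q + t) := by
      rw [Real.exp_add, Real.exp_log hq0]
    rw [e2]
    apply Real.exp_le_exp.2
    have h := (Nat.ceil_lt_add_one (show 0 ≤ t / Real.log q by positivity)).le
    have h2 := mul_le_mul_of_nonneg_right h hl.le
    rw [add_mul, div_mul_cancel₀ _ hl.ne'] at h2
    linarith

/-! ### the vectors -/

/-- the vector with the given coordinates in the integral basis -/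
noncomputable def vec {N : ℕ} (y : Fin N → Module.Free.ChooseBasisIndex ℤ (𝓞 K) → ℕ) (j : Fin N) : 𝓞 K :=
  ∑ k, ((y j k : ℕ) : ℤ) • RingOfIntegers.basis K k

lemma vec_inj {N : ℕ} {y y' : Fin N → Module.Free.ChooseBasisIndex ℤ (𝓞 K) → ℕ}
    (h : vec y = vec y') : y = y' := by
  funext j k
  have h1 : vec y j = vec y' j := congrFun h j
  unfold vec at h1
  rw [← Module.Basis.equivFun_symm_apply, ← Module.Basis.equivFun_symm_apply] at h1
  have h2 := (RingOfIntegers.basis K).equivFun.symm.injective h1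
  have h3 := congrFun h2 k
  exact_mod_cast h3

/-- the bound for the forms -/
noncomputable def BB {N : ℕ} (L : Place K → Matrix (Fin N) (Fin N) K) : ℝ :=
  ∑ v : InfinitePlace K, ∑ i, ∑ j, ∑ k, v (L (.inl v) i j) * v ((RingOfIntegers.basis K k : 𝓞 K) : K)

lemma BB_nonneg {N : ℕ} (L : Place K → Matrix (Fin N) (Fin N) K) : 0 ≤ BB L := by
  unfold BB
  refine Finset.sum_nonneg fun v _ => Finset.sum_nonneg fun i _ => Finset.sum_nonneg fun j _ =>
    Finset.sum_nonneg fun k _ => mul_nonneg (apply_nonneg v _) (apply_nonneg v _)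

lemma form_le {N : ℕ} (L : Place K → Matrix (Fin N) (Fin N) K) (v : InfinitePlace K) (i : Fin N)
    {y : Fin N → Module.Free.ChooseBasisIndex ℤ (𝓞 K) → ℕ} {X : ℝ} (hX : 0 ≤ X)
    (hy : ∀ j k, (y j k : ℝ) ≤ X) :
    v ((L (.inl v)).mulVec (fun j => (vec y j : K)) i) ≤ BB L * X := by
  have h1 : (L (.inl v)).mulVec (fun j => (vec y j : K)) i =
      ∑ j, ∑ k, L (.inl v) i j * (((y j k : ℕ) : K) * ((RingOfIntegers.basis K k : 𝓞 K) : K)) := by
    unfold Matrix.mulVec dotProduct
    refine Finset.sum_congr rfl fun j _ => ?_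
    rw [← Finset.mul_sum]
    congr 1
    show algebraMap (𝓞 K) K (vec y j) = _
    unfold vec
    rw [map_sum]
    refine Finset.sum_congr rfl fun k _ => ?_
    rw [zsmul_eq_mul, map_mul, map_intCast, Int.cast_natCast]
  have hnat : ∀ m : ℕ, v ((m : ℕ) : K) = m := by
    intro m
    rw [← InfinitePlace.norm_embedding_eq, map_natCast, Complex.norm_natCast]
  rw [h1]
  calc v (∑ j, ∑ k, L (.inl v) i j * (((y j k : ℕ) : K) * ((RingOfIntegers.basis K k : 𝓞 K) : K)))
      ≤ ∑ j, v (∑ k, L (.inl v) i j * (((y j k : ℕ) : K) * ((RingOfIntegers.basis K k : 𝓞 K) : K))) :=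
        v.1.sum_le _ _
    _ ≤ ∑ j, ∑ k, v (L (.inl v) i j * (((y j k : ℕ) : K) * ((RingOfIntegers.basis K k : 𝓞 K) : K))) :=
        Finset.sum_le_sum fun j _ => v.1.sum_le _ _
    _ ≤ ∑ j, ∑ k, v (L (.inl v) i j) * v ((RingOfIntegers.basis K k : 𝓞 K) : K) * X := by
        refine Finset.sum_le_sum fun j _ => Finset.sum_le_sum fun k _ => ?_
        rw [map_mul, map_mul, hnat]
        have h2 := hy j k
        have h3 : 0 ≤ v (L (.inl v) i j) := apply_nonneg v _
        have h4 : 0 ≤ v ((RingOfIntegers.basis K k : 𝓞 K) : K) := apply_nonneg v _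
        calc v (L (.inl v) i j) * ((y j k : ℝ) * v ((RingOfIntegers.basis K k : 𝓞 K) : K))
            = v (L (.inl v) i j) * v ((RingOfIntegers.basis K k : 𝓞 K) : K) * (y j k : ℝ) := by ring
          _ ≤ _ := mul_le_mul_of_nonneg_left h2 (mul_nonneg h3 h4)
    _ = (∑ j, ∑ k, v (L (.inl v) i j) * v ((RingOfIntegers.basis K k : 𝓞 K) : K)) * X := by
        rw [Finset.sum_mul]
        refine Finset.sum_congr rfl fun j _ => ?_
        rw [Finset.sum_mul]
    _ ≤ BB L * X := by
        refine mul_le_mul_of_nonneg_right ?_ hX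
        have nn : ∀ (w : InfinitePlace K) (i' : Fin N),
            0 ≤ ∑ j, ∑ k, w (L (.inl w) i' j) * w ((RingOfIntegers.basis K k : 𝓞 K) : K) :=
          fun w i' => Finset.sum_nonneg fun j _ => Finset.sum_nonneg fun k _ =>
            mul_nonneg (apply_nonneg w _) (apply_nonneg w _)
        unfold BB
        refine le_trans ?_ (Finset.single_le_sum
          (f := fun w : InfinitePlace K => ∑ i', ∑ j, ∑ k, w (L (.inl w) i' j) *
            w ((RingOfIntegers.basis K k : 𝓞 K) : K))
          (fun w _ => Finset.sum_nonneg fun i' _ => nn w i') (Finset.mem_univ v))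
        exact Finset.single_le_sum (f := fun i' => ∑ j, ∑ k, v (L (.inl v) i' j) *
          v ((RingOfIntegers.basis K k : 𝓞 K) : K)) (fun i' _ => nn v i') (Finset.mem_univ i)

lemma finite_quot (v : FinitePlace K) (e : ℕ) : Finite (𝓞 K ⧸ v.maximalIdeal.asIdeal ^ e) := by
  apply Ideal.finiteQuotientOfFreeOfNeBot
  exact pow_ne_zero _ v.maximalIdeal.ne_bot

lemma card_quot (v : FinitePlace K) (e : ℕ) :
    Nat.card (𝓞 K ⧸ v.maximalIdeal.asIdeal ^ e) = qq v ^ e := by
  have h : Ideal.absNorm (v.maximalIdeal.asIdeal ^ e) = qq v ^ e := map_pow _ _ _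
  rw [← h, Ideal.absNorm_apply, Submodule.cardQuot_apply]

/-! ### the pigeonhole principle -/

lemma pig (N : ℕ) (hN : 0 < N) (T : Finset (FinitePlace K))
    (L : Place K → Matrix (Fin N) (Fin N) K) : ∃ E : ℝ, 1 ≤ E ∧
    ∀ (ρ : InfinitePlace K → Fin N → ℝ) (σ : FinitePlace K → Fin N → ℝ),
      (∀ v ∈ T, ∀ i, σ v i ≤ 0) →
      0 ≤ ∑ v : InfinitePlace K, ∑ i, (v.mult : ℝ) * ρ v i + ∑ v ∈ T, ∑ i, σ v i →
      ∃ x : Fin N → 𝓞 K, x ≠ 0 ∧
        (∀ (v : InfinitePlace K) (i : Fin N),
          v ((L (.inl v)).mulVec (fun j => (x j : K)) i) ≤ E * Real.exp (ρ v i)) ∧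
        (∀ v ∈ T, ∀ i : Fin N,
          v ((L (.inr v)).mulVec (fun j => (x j : K)) i) ≤ Real.exp (σ v i)) := by
  obtain ⟨a, ha⟩ := IsLocalization.exist_integer_multiples (nonZeroDivisors (𝓞 K))
    (T ×ˢ (univ : Finset (Fin N × Fin N))) (fun t => L (.inr t.1) t.2.1 t.2.2)
  set a₀ : 𝓞 K := (a : 𝓞 K) with ha₀
  have ha0 : a₀ ≠ 0 := nonZeroDivisors.coe_ne_zero a
  have hM : ∀ (v : FinitePlace K) (i j : Fin N), ∃ m : 𝓞 K, v ∈ T →
      (m : K) = (a₀ : K) * L (.inr v) i j := by
    intro v i j
    by_cases hv : v ∈ T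
    · obtain ⟨m, hm⟩ := ha (v, (i, j)) (Finset.mem_product.2 ⟨hv, Finset.mem_univ _⟩)
      refine ⟨m, fun _ => ?_⟩
      rw [Algebra.smul_def] at hm
      exact hm
    · exact ⟨0, fun h => absurd h hv⟩
  choose M hM using hM
  set n := Module.finrank ℚ K with hn
  have hn0 : 0 < n := Module.finrank_pos
  set G : ℝ := ∏ v ∈ T, ((qq v : ℝ) / v (a₀ : K)) ^ N with hG
  have hapos : ∀ v : FinitePlace K, 0 < v (a₀ : K) := fun v =>
    FinitePlace.pos_iff.2 (by simpa using ha0)
  have hqpos : ∀ v : FinitePlace K, (1 : ℝ) < qq v := fun v => by exact_mod_cast one_lt_qq v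
  have hG0 : 0 < G := Finset.prod_pos fun v _ => by
    have := hapos v
    have := hqpos v
    positivity
  set B := BB L with hB
  have hB0 : 0 ≤ B := BB_nonneg L
  set E₀ : ℝ := (2 * B + 3) * (G + 1) with hE₀
  have hE₀1 : 1 ≤ E₀ := by nlinarith
  refine ⟨2 * E₀, by linarith, fun ρ σ hσ hsum => ?_⟩
  set s : InfinitePlace K → Fin N → ℝ := fun v i => E₀ * Real.exp (ρ v i) with hs
  have hs0 : ∀ v i, 0 < s v i := fun v i => by positivity
  set X : ℝ := ∑ v, ∑ i, s v i with hX
  have hsX : ∀ v i, s v i ≤ X := fun v i =>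
    (Finset.single_le_sum (f := fun i' => s v i') (fun i' _ => (hs0 v i').le) (Finset.mem_univ i)).trans
      (Finset.single_le_sum (f := fun v' => ∑ i', s v' i')
        (fun v' _ => Finset.sum_nonneg fun i' _ => (hs0 v' i').le) (Finset.mem_univ v))
  obtain ⟨v₁⟩ : Nonempty (InfinitePlace K) := inferInstance
  have hX0 : 0 < X := (hs0 v₁ ⟨0, hN⟩).trans_le (hsX v₁ ⟨0, hN⟩)
  set Y : ℕ := ⌈X⌉₊ with hY
  have hXY : X ≤ Y := Nat.le_ceil X
  set e : FinitePlace K → Fin N → ℕ := fun v i =>
    ⌈(-σ v i - Real.log (v (a₀ : K))) / Real.log (qq v : ℝ)⌉₊ with he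
  have hlog : ∀ v : FinitePlace K, Real.log (v (a₀ : K)) ≤ 0 := fun v =>
    Real.log_nonpos (hapos v).le (fin_int v a₀)
  have he1 : ∀ v ∈ T, ∀ i, Real.exp (-σ v i) / v (a₀ : K) ≤ (qq v : ℝ) ^ e v i ∧
      (qq v : ℝ) ^ e v i ≤ (qq v : ℝ) / v (a₀ : K) * Real.exp (-σ v i) := by
    intro v hv i
    have h1 := ceil_pow (hqpos v) (show 0 ≤ -σ v i - Real.log (v (a₀ : K)) by
      linarith [hσ v hv i, hlog v])
    have h2 : Real.exp (-σ v i - Real.log (v (a₀ : K))) = Real.exp (-σ v i) / v (a₀ : K) := by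
      rw [Real.exp_sub, Real.exp_log (hapos v)]
    rw [h2] at h1
    refine ⟨h1.1, h1.2.trans (le_of_eq (by ring))⟩
  -- the map
  have hfinq : ∀ (v : {v // v ∈ T}) (i : Fin N), Finite (𝓞 K ⧸ v.1.maximalIdeal.asIdeal ^ e v.1 i) :=
    fun v i => finite_quot _ _
  have instq : ∀ (v : {v // v ∈ T}) (i : Fin N), Fintype (𝓞 K ⧸ v.1.maximalIdeal.asIdeal ^ e v.1 i) :=
    fun v i => Fintype.ofFinite _
  let F : (Fin N → Module.Free.ChooseBasisIndex ℤ (𝓞 K) → ℕ) →
      (InfinitePlace K → Fin N → ℤ × ℤ) ×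
      ((v : {v // v ∈ T}) → (i : Fin N) → (𝓞 K ⧸ v.1.maximalIdeal.asIdeal ^ e v.1 i)) :=
    fun y => (fun v i => cl v (s v i) ((L (.inl v)).mulVec (fun j => (vec y j : K)) i),
      fun v i => Ideal.Quotient.mk _ (∑ j, M v.1 i j * vec y j))
  let Src : Finset (Fin N → Module.Free.ChooseBasisIndex ℤ (𝓞 K) → ℕ) :=
    Fintype.piFinset (fun _ => Fintype.piFinset (fun _ => range Y))
  let Tgt : Finset ((InfinitePlace K → Fin N → ℤ × ℤ) ×
      ((v : {v // v ∈ T}) → (i : Fin N) → (𝓞 K ⧸ v.1.maximalIdeal.asIdeal ^ e v.1 i))) :=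
    (Fintype.piFinset (fun v => Fintype.piFinset (fun i => DD v (B * X) (s v i)))) ×ˢ univ
  have hmaps : ∀ y ∈ Src, F y ∈ Tgt := by
    intro y hy
    rw [Finset.mem_product]
    refine ⟨?_, Finset.mem_univ _⟩
    rw [Fintype.mem_piFinset]
    intro v
    rw [Fintype.mem_piFinset]
    intro i
    refine cl_mem v (hs0 v i) (form_le L v i hX0.le fun j k => ?_)
    have h1 : y j k ∈ range Y := Fintype.mem_piFinset.1 (Fintype.mem_piFinset.1 hy j) k
    exact (Nat.lt_ceil.1 (Finset.mem_range.1 h1)).le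
  have hcard : Tgt.card < Src.card := by
    have c1 : Src.card = (Y ^ n) ^ N := by
      simp only [Src, Fintype.card_piFinset, Finset.card_range, Finset.prod_const, Finset.card_univ,
        Fintype.card_fin]
      congr 2
      rw [hn, ← RingOfIntegers.rank K, Module.finrank_eq_card_chooseBasisIndex]
    have c2 : Tgt.card = (∏ v : InfinitePlace K, ∏ i, (DD v (B * X) (s v i)).card) *
        ∏ v : {v // v ∈ T}, ∏ i, qq v.1 ^ e v.1 i := by
      simp only [Tgt, Finset.card_product, Fintype.card_piFinset, Finset.card_univ, Fintype.card_pi]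
      congr 1
      refine Finset.prod_congr rfl fun v _ => Finset.prod_congr rfl fun i _ => ?_
      rw [← card_quot, Nat.card_eq_fintype_card]
    have c3 : ∏ v : {v // v ∈ T}, ∏ i, qq v.1 ^ e v.1 i = ∏ v ∈ T, ∏ i, qq v ^ e v i :=
      Finset.prod_coe_sort T (fun v => ∏ i, qq v ^ e v i)
    rw [c3] at c2
    have d1 : ((∏ v : InfinitePlace K, ∏ i, (DD v (B * X) (s v i)).card : ℕ) : ℝ) ≤
        (X / (G + 1)) ^ (n * N) * Real.exp (-(∑ v : InfinitePlace K, ∑ i, (v.mult : ℝ) * ρ v i)) := by
      have f1 : ∀ (v : InfinitePlace K) (i : Fin N), ((DD v (B * X) (s v i)).card : ℝ) ≤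
          (X / (G + 1)) ^ v.mult * Real.exp (-((v.mult : ℝ) * ρ v i)) := by
        intro v i
        have g1 := DD_card v (show 0 ≤ B * X by positivity) (hs0 v i)
        have g2 : 2 * (B * X / s v i) + 3 ≤ X / (G + 1) * Real.exp (-ρ v i) := by
          have g3 : 3 ≤ 3 * (X / s v i) := by
            have : 1 ≤ X / s v i := by
              rw [le_div_iff₀ (hs0 v i), one_mul]
              exact hsX v i
            linarith
          have g4 : X / (G + 1) * Real.exp (-ρ v i) = (2 * B + 3) * (X / s v i) := by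
            simp only [hs, hE₀]
            rw [Real.exp_neg]
            have : 0 < 2 * B + 3 := by linarith
            have := Real.exp_pos (ρ v i)
            field_simp
          have g5 : 2 * (B * X / s v i) = 2 * B * (X / s v i) := by ring
          rw [g4, g5]
          linarith
        calc ((DD v (B * X) (s v i)).card : ℝ) ≤ (2 * (B * X / s v i) + 3) ^ v.mult := g1
          _ ≤ (X / (G + 1) * Real.exp (-ρ v i)) ^ v.mult := by
              refine pow_le_pow_left₀ ?_ g2 _
              have := hs0 v i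
              positivity
          _ = _ := by
              rw [mul_pow, ← Real.exp_nat_mul]
              congr 2
              ring
      push_cast
      calc ∏ v : InfinitePlace K, ∏ i, ((DD v (B * X) (s v i)).card : ℝ)
          ≤ ∏ v : InfinitePlace K, ∏ i : Fin N, ((X / (G + 1)) ^ v.mult *
              Real.exp (-((v.mult : ℝ) * ρ v i))) :=
            Finset.prod_le_prod (fun v _ => Finset.prod_nonneg fun i _ => Nat.cast_nonneg _)
              fun v _ => Finset.prod_le_prod (fun i _ => Nat.cast_nonneg _) fun i _ => f1 v i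
        _ = (∏ v : InfinitePlace K, ∏ _i : Fin N, (X / (G + 1)) ^ v.mult) *
              ∏ v : InfinitePlace K, ∏ i : Fin N, Real.exp (-((v.mult : ℝ) * ρ v i)) := by
            simp only [Finset.prod_mul_distrib]
        _ = _ := by
            congr 1
            · simp only [Finset.prod_const, Finset.card_univ, Fintype.card_fin]
              rw [Finset.prod_pow, Finset.prod_pow_eq_pow_sum, InfinitePlace.sum_mult_eq, ← pow_mul]
            · simp only [← Real.exp_sum]
              congr 1
              simp only [Finset.sum_neg_distrib]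
    have d2 : ((∏ v ∈ T, ∏ i, qq v ^ e v i : ℕ) : ℝ) ≤ G * Real.exp (-(∑ v ∈ T, ∑ i, σ v i)) := by
      push_cast
      calc ∏ v ∈ T, ∏ i, (qq v : ℝ) ^ e v i
          ≤ ∏ v ∈ T, ∏ i : Fin N, ((qq v : ℝ) / v (a₀ : K) * Real.exp (-σ v i)) :=
            Finset.prod_le_prod (fun v _ => Finset.prod_nonneg fun i _ => by positivity)
              fun v hv => Finset.prod_le_prod (fun i _ => by positivity) fun i _ => (he1 v hv i).2
        _ = (∏ v ∈ T, ∏ _i : Fin N, ((qq v : ℝ) / v (a₀ : K))) * ∏ v ∈ T, ∏ i, Real.exp (-σ v i) := by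
            simp only [Finset.prod_mul_distrib]
        _ = _ := by
            congr 1
            · simp only [Finset.prod_const, Finset.card_univ, Fintype.card_fin, hG]
            · simp only [← Real.exp_sum]
              congr 1
              simp only [Finset.sum_neg_distrib]
    have d3 : (Tgt.card : ℝ) < (Src.card : ℝ) := by
      rw [c1, c2]
      push_cast at d1 d2 ⊢
      have hXG : 0 < X / (G + 1) := by positivity
      calc (∏ v : InfinitePlace K, ∏ i, ((DD v (B * X) (s v i)).card : ℝ)) *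
            ∏ v ∈ T, ∏ i, (qq v : ℝ) ^ e v i
          ≤ ((X / (G + 1)) ^ (n * N) * Real.exp (-(∑ v : InfinitePlace K, ∑ i, (v.mult : ℝ) * ρ v i))) *
            (G * Real.exp (-(∑ v ∈ T, ∑ i, σ v i))) :=
            mul_le_mul d1 d2 (Finset.prod_nonneg fun v _ => Finset.prod_nonneg fun i _ => by positivity)
              (by positivity)
        _ = (X / (G + 1)) ^ (n * N) * G * Real.exp (-(∑ v : InfinitePlace K, ∑ i, (v.mult : ℝ) * ρ v i +
            ∑ v ∈ T, ∑ i, σ v i)) := by
            rw [neg_add, Real.exp_add]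
            ring
        _ ≤ (X / (G + 1)) ^ (n * N) * G * 1 := by
            refine mul_le_mul_of_nonneg_left ?_ (by positivity)
            rw [Real.exp_le_one_iff]
            linarith
        _ < (X / (G + 1)) ^ (n * N) * (G + 1) := by
            rw [mul_one]
            exact mul_lt_mul_of_pos_left (by linarith) (by positivity)
        _ ≤ (X / (G + 1)) ^ (n * N) * (G + 1) ^ (n * N) := by
            refine mul_le_mul_of_nonneg_left ?_ (by positivity)
            exact le_self_pow₀ (by linarith) (Nat.mul_pos hn0 hN).ne'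
        _ = X ^ (n * N) := by
            rw [← mul_pow, div_mul_cancel₀ _ (by positivity)]
        _ ≤ ((Y : ℝ) ^ n) ^ N := by
            rw [← pow_mul]
            exact pow_le_pow_left₀ hX0.le hXY _
    exact_mod_cast d3
  obtain ⟨y, hy, y', hy', hne, heq⟩ := Finset.exists_ne_map_eq_of_card_lt_of_maps_to hcard hmaps
  rw [Prod.mk.injEq] at heq
  refine ⟨fun j => vec y j - vec y' j, ?_, ?_, ?_⟩
  · intro h
    apply hne
    apply vec_inj
    funext j
    exact sub_eq_zero.1 (congrFun h j)
  · intro v i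
    have h1 := congrFun (congrFun heq.1 v) i
    have h2 := cl_eq v (hs0 v i) h1
    have h3 : (L (.inl v)).mulVec (fun j => ((vec y j - vec y' j : 𝓞 K) : K)) i =
        (L (.inl v)).mulVec (fun j => (vec y j : K)) i - (L (.inl v)).mulVec (fun j => (vec y' j : K)) i := by
      rw [← Pi.sub_apply, ← Matrix.mulVec_sub]
      congr 1
    rw [h3, mul_assoc]
    exact h2
  · intro v hv i
    have h1 := congrFun (congrFun heq.2 ⟨v, hv⟩) i
    have h1' := Ideal.Quotient.eq.1 h1
    have h2 := fin_le v h1'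
    have h3 : ((∑ j, M v i j * vec y j - ∑ j, M v i j * vec y' j : 𝓞 K) : K) =
        (a₀ : K) * (L (.inr v)).mulVec (fun j => ((vec y j - vec y' j : 𝓞 K) : K)) i := by
      show algebraMap (𝓞 K) K (∑ j, M v i j * vec y j - ∑ j, M v i j * vec y' j) =
        (a₀ : K) * ∑ j, L (.inr v) i j * algebraMap (𝓞 K) K (vec y j - vec y' j)
      rw [map_sub, map_sum, map_sum, ← Finset.sum_sub_distrib, Finset.mul_sum]
      refine Finset.sum_congr rfl fun j _ => ?_
      rw [map_mul, map_mul, map_sub]
      have h4 := hM v i j hv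
      have h5 : (algebraMap (𝓞 K) K) (M v i j) = (a₀ : K) * L (.inr v) i j := h4
      rw [h5]
      ring
    have h4 := (he1 v hv i).1
    have h5 : v ((∑ j, M v i j * vec y j - ∑ j, M v i j * vec y' j : 𝓞 K) : K) *
        (qq v : ℝ) ^ e v i ≤ 1 := h2
    rw [h3, map_mul] at h5
    set z := v ((L (.inr v)).mulVec (fun j => ((vec y j - vec y' j : 𝓞 K) : K)) i) with hz
    have hz0 : 0 ≤ z := apply_nonneg v _
    have h6 : v (a₀ : K) * z * (Real.exp (-σ v i) / v (a₀ : K)) ≤ 1 :=
      (mul_le_mul_of_nonneg_left h4 (mul_nonneg (hapos v).le hz0)).trans h5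
    have h7 : v (a₀ : K) * z * (Real.exp (-σ v i) / v (a₀ : K)) = z * Real.exp (-σ v i) := by
      have := (hapos v).ne'
      field_simp
    rw [h7] at h6
    have h8 := mul_le_mul_of_nonneg_right h6 (Real.exp_pos (σ v i)).le
    rwa [mul_assoc, ← Real.exp_add, neg_add_cancel, Real.exp_zero, mul_one, one_mul] at h8

lemma exists_shift (T : Finset (FinitePlace K)) {N : ℕ} (r : Place K → Fin N → ℝ)
    (l : FinitePlace K → ℝ) (hl : ∀ v ∈ T, l v < 0) :
    ∃ k : ℝ, ∀ v ∈ T, ∀ i, r (.inr v) i + k * l v ≤ 0 := by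
  refine ⟨∑ v ∈ T, ∑ i, |r (.inr v) i| / (-l v), fun v hv i => ?_⟩
  have h1 : |r (.inr v) i| / (-l v) ≤ ∑ v ∈ T, ∑ i, |r (.inr v) i| / (-l v) := by
    have nn : ∀ w ∈ T, ∀ i', 0 ≤ |r (.inr w) i'| / (-l w) := fun w hw i' =>
      div_nonneg (abs_nonneg _) (by linarith [hl w hw])
    exact (Finset.single_le_sum (f := fun i' => |r (.inr v) i'| / (-l v)) (fun i' _ => nn v hv i')
      (Finset.mem_univ i)).trans (Finset.single_le_sum (f := fun w => ∑ i', |r (.inr w) i'| / (-l w))
        (fun w hw => Finset.sum_nonneg fun i' _ => nn w hw i') hv)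
  have h2 := hl v hv
  rw [div_le_iff₀ (by linarith)] at h1
  have h3 := le_abs_self (r (.inr v) i)
  linarith

end M1M

open M1M in
theorem specM1 : SpecM1 := by
  intro K _ _ N hN S hS L hL
  obtain ⟨hinf, b, hb0, hb⟩ := hS
  set T : Finset (FinitePlace K) := S.toRight with hT
  have hTmem : ∀ v : FinitePlace K, v ∈ T ↔ (Sum.inr v : Place K) ∈ S := fun v => by
    rw [hT, Finset.mem_toRight]
  obtain ⟨E, hE1, hE⟩ := pig N hN T L
  refine ⟨Real.log E, fun r hr => ?_⟩
  have hleft : S.toLeft = univ := by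
    ext v
    simp only [Finset.mem_toLeft, Finset.mem_univ, iff_true]
    exact hinf v
  have hsumS : ∀ f : Place K → ℝ, ∑ v ∈ S, f v =
      ∑ v : InfinitePlace K, f (.inl v) + ∑ v ∈ T, f (.inr v) := by
    intro f
    conv_lhs => rw [← Finset.toLeft_disjSum_toRight (u := S)]
    rw [Finset.sum_disjSum, hleft]
  have hbK : (b : K) ≠ 0 := by exact_mod_cast hb0.ne'
  have hn0 : (0 : ℝ) < Module.finrank ℚ K := finrank_pos' (K := K)
  have hint : ∀ (v : FinitePlace K) (z : 𝓞 K), absV (Sum.inr v : Place K) (z : K) ≤ 1 := by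
    intro v z
    exact Real.rpow_le_one (apply_nonneg v _) (fin_int v z) (weight_pos _).le
  have hout : ∀ w : Place K, w ∉ S → Real.log (absV w (b : K)) = 0 := by
    intro w hw
    cases w with
    | inl v => exact absurd (hinf v) hw
    | inr v =>
      have h1 : absV (Sum.inr v : Place K) (b : K) ≤ 1 := by
        have := hint v (b : 𝓞 K)
        simpa using this
      have h2 : ¬ absV (Sum.inr v : Place K) (b : K) < 1 := fun h => hw ((hb v).2 h)
      rw [le_antisymm h1 (not_lt.1 h2), Real.log_one]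
  have hprod : ∑ v ∈ S, Real.log (absV v (b : K)) = 0 := by
    rw [← product_formula hbK]
    refine (finsum_eq_sum_of_support_subset _ ?_).symm
    intro w hw
    by_contra hcon
    exact hw (hout w hcon)
  obtain ⟨k, hk⟩ := exists_shift T r (fun v => Real.log (absV (Sum.inr v : Place K) (b : K)))
    (fun v hv => Real.log_neg (absV_pos _ hbK) ((hb v).1 ((hTmem v).1 hv)))
  set r' : Place K → Fin N → ℝ := fun v i => r v i + k * Real.log (absV v (b : K)) with hr'
  obtain ⟨x, hx0, hx1, hx2⟩ := hE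
    (fun v i => r' (.inl v) i / weight (Sum.inl v : Place K))
    (fun v i => (Module.finrank ℚ K : ℝ) * r' (.inr v) i)
    (fun v hv i => mul_nonpos_of_nonneg_of_nonpos hn0.le (hk v hv i))
    (by
      have h1 : ∑ v ∈ S, ∑ i, r' v i = ∑ v ∈ S, ∑ i, r v i := by
        simp only [hr', Finset.sum_add_distrib, Finset.sum_const, Finset.card_univ, Fintype.card_fin]
        have : ∑ v ∈ S, N • (k * Real.log (absV v (b : K))) =
            N * k * ∑ v ∈ S, Real.log (absV v (b : K)) := by
          rw [Finset.mul_sum]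
          refine Finset.sum_congr rfl fun v _ => ?_
          rw [nsmul_eq_mul]
          ring
        rw [this, hprod]
        ring
      have h2 : ∑ v : InfinitePlace K, ∑ i, (v.mult : ℝ) * (r' (.inl v) i / weight (Sum.inl v : Place K)) +
          ∑ v ∈ T, ∑ i, (Module.finrank ℚ K : ℝ) * r' (.inr v) i =
          (Module.finrank ℚ K : ℝ) * ∑ v ∈ S, ∑ i, r' v i := by
        rw [hsumS, mul_add, Finset.mul_sum, Finset.mul_sum]
        congr 1
        · refine Finset.sum_congr rfl fun v _ => ?_
          rw [Finset.mul_sum]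
          refine Finset.sum_congr rfl fun i _ => ?_
          have : (0 : ℝ) < v.mult := by exact_mod_cast v.mult_pos
          simp only [weight]
          field_simp
        · refine Finset.sum_congr rfl fun v _ => ?_
          rw [Finset.mul_sum]
      rw [h2, h1]
      positivity)
  set z : Fin N → K := fun j => (x j : K) with hz
  have hz0 : z ≠ 0 := by
    intro h
    apply hx0
    funext j
    have h1 : (x j : K) = 0 := congrFun h j
    exact_mod_cast h1
  refine ⟨z, hz0, ?_⟩
  have hE0 : 0 < E := by linarith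
  have key : ∀ w : Place K, Real.log (lcn S L r w z) ≤
      Real.log E * sw w + k * Real.log (absV w (b : K)) := by
    intro w
    rw [Real.log_le_iff_le_exp (lcn_pos hL r w hz0)]
    cases w with
    | inl v =>
      unfold lcn
      rw [if_pos (hinf v)]
      refine tw_le _ _ _ _ (Real.exp_pos _).le fun i => ?_
      have h1 := hx1 v i
      have hw := weight_pos (Sum.inl v : Place K)
      have h2 : absV (Sum.inl v : Place K) ((L (.inl v)).mulVec z i) ≤
          Real.exp (Real.log E * weight (Sum.inl v : Place K) + r' (.inl v) i) := by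
        calc absV (Sum.inl v : Place K) ((L (.inl v)).mulVec z i)
            ≤ (E * Real.exp (r' (.inl v) i / weight (Sum.inl v : Place K))) ^
                weight (Sum.inl v : Place K) :=
              Real.rpow_le_rpow (apply_nonneg v _) h1 hw.le
          _ = _ := by
              rw [Real.mul_rpow hE0.le (Real.exp_pos _).le, ← Real.exp_mul,
                div_mul_cancel₀ _ hw.ne', Real.rpow_def_of_pos hE0, ← Real.exp_add]
      calc absV (Sum.inl v : Place K) ((L (.inl v)).mulVec z i) * Real.exp (-(r (.inl v) i))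
          ≤ Real.exp (Real.log E * weight (Sum.inl v : Place K) + r' (.inl v) i) *
            Real.exp (-(r (.inl v) i)) := mul_le_mul_of_nonneg_right h2 (Real.exp_pos _).le
        _ = _ := by
            rw [← Real.exp_add]
            congr 1
            simp only [hr', sw]
            ring
    | inr v =>
      by_cases hv : (Sum.inr v : Place K) ∈ S
      · unfold lcn
        rw [if_pos hv]
        refine tw_le _ _ _ _ (Real.exp_pos _).le fun i => ?_
        have h1 := hx2 v ((hTmem v).2 hv) i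
        have hw := weight_pos (Sum.inr v : Place K)
        have h2 : absV (Sum.inr v : Place K) ((L (.inr v)).mulVec z i) ≤ Real.exp (r' (.inr v) i) := by
          calc absV (Sum.inr v : Place K) ((L (.inr v)).mulVec z i)
              ≤ (Real.exp ((Module.finrank ℚ K : ℝ) * r' (.inr v) i)) ^ weight (Sum.inr v : Place K) :=
                Real.rpow_le_rpow (apply_nonneg v _) h1 hw.le
            _ = _ := by
                rw [← Real.exp_mul]
                congr 1
                simp only [weight]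
                field_simp
        calc absV (Sum.inr v : Place K) ((L (.inr v)).mulVec z i) * Real.exp (-(r (.inr v) i))
            ≤ Real.exp (r' (.inr v) i) * Real.exp (-(r (.inr v) i)) :=
              mul_le_mul_of_nonneg_right h2 (Real.exp_pos _).le
          _ = _ := by
              rw [← Real.exp_add]
              congr 1
              simp only [hr', sw]
              ring
      · unfold lcn
        rw [if_neg hv, hout _ hv]
        refine nrm_le _ _ (Real.exp_pos _).le fun j => ?_
        simp only [sw, mul_zero, add_zero, Real.exp_zero]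
        exact hint v (x j)
  have hs1 : (Function.support fun w : Place K => Real.log E * sw w).Finite :=
    support_sw_finite.subset fun w hw => by
      intro h
      apply hw
      simp only [h, mul_zero]
  have hs2 : (Function.support fun w : Place K => k * Real.log (absV w (b : K))).Finite :=
    (support_log_absV_finite hbK).subset fun w hw => by
      intro h
      apply hw
      simp only [h, mul_zero]
  unfold htw
  refine (finsum_mono (support_log_lcn_finite S L r hz0) ?_ key).trans ?_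
  · refine (hs1.union hs2).subset ?_
    exact Function.support_add _ _
  · rw [finsum_add_distrib hs1 hs2, ← mul_finsum _ , ← mul_finsum _ , finsum_sw, product_formula hbK]
    simp

end Pool.Agent.Lib.MP_d0e829_nt.SS

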