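import Pool.Agent.Lib.MP_d0e829_nt.SS.SpecB

/-!
# NCH: there is no long chain of exceptional parameters (helper94)
-/

set_option autoImplicit false

open NumberField

namespace Pool.Agent.Lib.MP_d0e829_nt.SS

open scoped Classical

namespace NCHM

/-- the final numerical contradiction -/
lemma final {δ s R η θ D CA G CK CN t₁ SD ST SE Z : ℝ} {m N : ℝ} (hδ : 0 < δ) (hs : 0 ≤ s)
    (hR : 0 ≤ R) (hD : 0 < D) (hm : 1 ≤ m) (ht₁ : 0 < t₁) (hCA : 0 ≤ CA) (hG : 0 ≤ G)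
    (hCK : 0 ≤ CK) (hCN : 0 ≤ CN) (h1 : 2 * s * N * R * η ≤ δ / 8)
    (h2 : 4 * (δ + s * R) * θ ≤ δ / 8) (h3 : 2 * (s * (CA + G) + CK + CN) ≤ δ / 8 * t₁)
    (hSD : SD * t₁ ≤ 2 * m * D) (hST : ST ≤ 4 * θ * D)
    (hSE : δ * (m * D) - δ * ST - CN * SD ≤ SE) (hZ : Z ≤ 2 * s * N * R * η * (m * D))
    (hkey : 0 ≤ s * (CA * SD + G * SD) + CK * SD - SE + Z + s * (R * ST)) : False := by
  have hmD : 0 < m * D := by positivity
  have e1 : (s * (CA + G) + CK + CN) * SD ≤ δ / 8 * (m * D) := by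
    have h4 : 0 ≤ s * (CA + G) + CK + CN := by positivity
    have h5 : (s * (CA + G) + CK + CN) * (SD * t₁) ≤ (s * (CA + G) + CK + CN) * (2 * m * D) :=
      mul_le_mul_of_nonneg_left hSD h4
    have h6 : (s * (CA + G) + CK + CN) * (2 * m * D) ≤ δ / 8 * t₁ * (m * D) := by
      have := mul_le_mul_of_nonneg_right h3 hmD.le
      nlinarith
    have h7 : (s * (CA + G) + CK + CN) * SD * t₁ ≤ δ / 8 * (m * D) * t₁ := by nlinarith
    exact le_of_mul_le_mul_right h7 ht₁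
  have e2 : (δ + s * R) * ST ≤ δ / 8 * (m * D) := by
    have h4 : 0 ≤ δ + s * R := by positivity
    have h5 := mul_le_mul_of_nonneg_left hST h4
    have h6 := mul_le_mul_of_nonneg_right h2 hD.le
    have h7 : D ≤ m * D := by nlinarith
    nlinarith
  have e3 : Z ≤ δ / 8 * (m * D) := hZ.trans (mul_le_mul_of_nonneg_right h1 hmD.le)
  nlinarith

end NCHM

open NCHM in
theorem specNCH (hRL : SpecRL) (hAUX : SpecAUX) (hNSC : SpecNSC) (hKEY : SpecKEY)
    (hGRD : SpecGRD) (hBAL : SpecBAL) (hBDJ : SpecBDJ) (hDEG : SpecDEG) (hZBD : SpecZBD) :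
    SpecNCH := by
  intro K _ _ N hN S hS L hL c hc δ c₁ hδ hc₁
  obtain ⟨CA, hCA, hAUX⟩ := hAUX K N hN S L hL
  obtain ⟨CN, hCN, hNSC⟩ := hNSC K N (by omega) S hS L hL
  obtain ⟨CK, hCK, hKEY⟩ := hKEY K N hN S hS L hL
  have hN0 : (0 : ℝ) < N := by
    have : 0 < N := by omega
    exact_mod_cast this
  have hN1 : (1 : ℝ) ≤ N := by
    have : 1 ≤ N := by omega
    exact_mod_cast this
  -- the bound for the weights
  obtain ⟨R, hR1, hR⟩ : ∃ R : ℝ, 1 ≤ R ∧ ∀ v ∈ S, ∀ j, |c v j| ≤ R := by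
    refine ⟨1 + ∑ v ∈ S, ∑ j, |c v j|, ?_, fun v hv j => ?_⟩
    · have : 0 ≤ ∑ v ∈ S, ∑ j, |c v j| :=
        Finset.sum_nonneg fun _ _ => Finset.sum_nonneg fun _ _ => abs_nonneg _
      linarith
    · have h1 : |c v j| ≤ ∑ j, |c v j| :=
        Finset.single_le_sum (f := fun j => |c v j|) (fun _ _ => abs_nonneg _) (Finset.mem_univ j)
      have h2 : ∑ j, |c v j| ≤ ∑ v ∈ S, ∑ j, |c v j| :=
        Finset.single_le_sum (f := fun v => ∑ j, |c v j|)
          (fun _ _ => Finset.sum_nonneg fun _ _ => abs_nonneg _) hv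
      linarith
  have hR0 : 0 < R := by linarith
  obtain ⟨s, hsdef⟩ : ∃ s : ℝ, s = (S.card : ℝ) := ⟨_, rfl⟩
  have hs : 0 ≤ s := by rw [hsdef]; positivity
  -- the constants
  obtain ⟨η, hη0, hη1, hη⟩ : ∃ η : ℝ, 0 < η ∧ η ≤ 1 ∧ 2 * s * N * R * η ≤ δ / 8 := by
    have hpos : 0 < 16 * (s + 1) * N * R := by positivity
    refine ⟨min 1 (δ / (16 * (s + 1) * N * R)), lt_min one_pos (by positivity), min_le_left _ _, ?_⟩
    have h1 : min 1 (δ / (16 * (s + 1) * N * R)) ≤ δ / (16 * (s + 1) * N * R) := min_le_right _ _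
    calc 2 * s * N * R * min 1 (δ / (16 * (s + 1) * N * R))
        ≤ 2 * s * N * R * (δ / (16 * (s + 1) * N * R)) :=
          mul_le_mul_of_nonneg_left h1 (by positivity)
      _ ≤ 2 * (s + 1) * N * R * (δ / (16 * (s + 1) * N * R)) := by
          apply mul_le_mul_of_nonneg_right _ (by positivity)
          have : s ≤ s + 1 := by linarith
          gcongr
      _ = δ / 8 := by
          field_simp
          norm_num
  obtain ⟨m, hm, hAUX⟩ := hAUX η hη0
  have hm1 : (1 : ℝ) ≤ m := by exact_mod_cast hm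
  obtain ⟨θ, hθ0, hθ⟩ : ∃ θ : ℝ, 0 < θ ∧ 4 * (δ + s * R) * θ ≤ δ / 8 := by
    have hpos : 0 < δ + s * R := by positivity
    refine ⟨δ / (32 * (δ + s * R)), by positivity, le_of_eq ?_⟩
    field_simp
    norm_num
  obtain ⟨σ, C, hσ, hC, hRL⟩ := hRL K m N hm hN θ hθ0
  obtain ⟨B, hB1, hB⟩ : ∃ B : ℕ, 1 ≤ B ∧ (N - 1 : ℝ) * m / (B + 1) ≤ θ := by
    obtain ⟨B, hB⟩ := exists_nat_ge ((N - 1 : ℝ) * m / θ)
    refine ⟨B + 1, by omega, ?_⟩
    have h1 : (N - 1 : ℝ) * m ≤ B * θ := by rwa [div_le_iff₀ hθ0] at hB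
    rw [div_le_iff₀ (by positivity)]
    push_cast
    nlinarith
  obtain ⟨G, hGdef⟩ : ∃ G : ℝ, G = Real.log ((N : ℝ) * B) := ⟨_, rfl⟩
  have hG : 0 ≤ G := by
    rw [hGdef]
    apply Real.log_nonneg
    have : (1 : ℝ) ≤ B := by exact_mod_cast hB1
    nlinarith
  obtain ⟨Ω, hΩ1, hΩ⟩ : ∃ Ω : ℝ, 1 ≤ Ω ∧ 2 ≤ Ω * σ := by
    refine ⟨max 1 (2 / σ), le_max_left _ _, ?_⟩
    have h1 : 2 / σ ≤ max 1 (2 / σ) := le_max_right _ _
    rwa [div_le_iff₀ hσ] at h1
  obtain ⟨t₁, ht₁, ht₁a, ht₁b⟩ : ∃ t₁ : ℝ, 0 < t₁ ∧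
      2 * (s * (CA + G) + CK + CN) ≤ δ / 8 * t₁ ∧ C * (2 * CA * m + 2) ≤ c₁ * t₁ := by
    obtain ⟨u, hu⟩ : ∃ u : ℝ, u = max 1 (max (16 * (s * (CA + G) + CK + CN) / δ)
      (C * (2 * CA * m + 2) / c₁)) := ⟨_, rfl⟩
    have h1 : 1 ≤ u := by rw [hu]; exact le_max_left _ _
    have h2 : 16 * (s * (CA + G) + CK + CN) / δ ≤ u := by
      rw [hu]; exact (le_max_left _ _).trans (le_max_right _ _)
    have h3 : C * (2 * CA * m + 2) / c₁ ≤ u := by
      rw [hu]; exact (le_max_right _ _).trans (le_max_right _ _)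
    rw [div_le_iff₀ hδ] at h2
    rw [div_le_iff₀ hc₁] at h3
    exact ⟨u, by linarith, by linarith, by linarith⟩
  refine ⟨m, t₁, Ω, hm, ht₁, hΩ1, ?_⟩
  intro τ x a hτ hchain hx hhtw ha hax
  have hτ0 : ∀ h, 0 < τ h := fun h => ht₁.trans_le (hτ h)
  obtain ⟨D, d, hD, hd⟩ := hDEG m τ t₁ η ht₁ hη0 hη1 hτ
  have hd0 : ∀ h, 0 < d h := fun h => (hd h).1
  have hdR : ∀ h, (0 : ℝ) < d h := fun h => by exact_mod_cast hd0 h
  have hd2 : ∀ h, τ h * d h ≤ 2 * D := fun h => by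
    have := (hd h).2.2.1
    nlinarith
  obtain ⟨P, hP0, hBH, hPc, hPb⟩ := hAUX d hd0
  obtain ⟨SD, hSDdef⟩ : ∃ SD : ℝ, SD = ∑ h, (d h : ℝ) := ⟨_, rfl⟩
  have hSD0 : 0 ≤ SD := by
    rw [hSDdef]
    exact Finset.sum_nonneg fun h _ => (hdR h).le
  have hSD : SD * t₁ ≤ 2 * m * D := by
    rw [hSDdef, Finset.sum_mul]
    calc ∑ h, (d h : ℝ) * t₁ ≤ ∑ _h : Fin m, 2 * D := Finset.sum_le_sum fun h _ => (hd h).2.2.2
      _ = 2 * m * D := by
        rw [Finset.sum_const, Finset.card_univ, Fintype.card_fin, nsmul_eq_mul]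
        ring
  rw [← hSDdef] at hPc
  have hA0 : 0 ≤ CA * SD := mul_nonneg hCA hSD0
  -- Roth's lemma
  obtain ⟨J, x₀, hJ, hx₀, hJne⟩ := hRL d ⌊2 * D / t₁⌋₊ (CA * SD) P a
    (fun h => ⟨hd0 h, Nat.le_floor (by
      rw [le_div_iff₀ ht₁]
      exact (hd h).2.2.2)⟩)
    (fun h h' hh => by
      have h1 := hchain h h' hh
      have h2 := hd2 h'
      have h3 := (hd h).2.1
      have h4 : Ω * τ h * d h' ≤ 2 * D := by
        have := mul_le_mul_of_nonneg_right h1 (hdR h').le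
        linarith
      have h5 : 2 * D ≤ Ω * σ * (τ h * d h) := by
        have h6 : 0 ≤ Ω * σ := by linarith
        calc 2 * D ≤ Ω * σ * D := mul_le_mul_of_nonneg_right hΩ hD.le
          _ ≤ _ := mul_le_mul_of_nonneg_left h3 h6
      have h6 : 0 < Ω * τ h := mul_pos (by linarith) (hτ0 h)
      have h7 : Ω * τ h * d h' ≤ Ω * τ h * (σ * d h) := by nlinarith
      exact le_of_mul_le_mul_left h7 h6)
    hA0 hP0 hBH hPc (fun h => ⟨(ha h).1, by
      have h1 : (⌊2 * D / t₁⌋₊ : ℝ) ≤ 2 * D / t₁ := Nat.floor_le (by positivity)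
      have h2 : SD ≤ 2 * m * D / t₁ := by rwa [le_div_iff₀ ht₁]
      have h3 : CA * SD + (⌊2 * D / t₁⌋₊ : ℝ) ≤ (2 * CA * m + 2) * D / t₁ := by
        have h4 := mul_le_mul_of_nonneg_left h2 hCA
        have h5 : (2 * CA * m + 2) * D / t₁ = CA * (2 * m * D / t₁) + 2 * D / t₁ := by ring
        rw [h5]
        linarith
      have h4 : C * (CA * SD + (⌊2 * D / t₁⌋₊ : ℝ)) ≤ c₁ * D := by
        calc C * (CA * SD + (⌊2 * D / t₁⌋₊ : ℝ)) ≤ C * ((2 * CA * m + 2) * D / t₁) :=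
              mul_le_mul_of_nonneg_left h3 hC.le
          _ = C * (2 * CA * m + 2) * D / t₁ := by ring
          _ ≤ c₁ * D := by
              rw [div_le_iff₀ ht₁]
              nlinarith
      have h5 : c₁ * D ≤ c₁ * (τ h * d h) := mul_le_mul_of_nonneg_left (hd h).2.1 hc₁.le
      have h6 : c₁ * τ h * d h ≤ ht (a h) * d h :=
        mul_le_mul_of_nonneg_right (ha h).2 (hdR h).le
      nlinarith⟩)
  -- scaling
  have hscale : ∀ h l, ∃ α : K, α ≠ 0 ∧ ∀ w, lcn S L (fun v i => τ h * c v i) w (α • x h l) ≤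
      Real.exp (-(sw w * (δ * τ h - CN))) := by
    intro h l
    obtain ⟨α, hα, hαw⟩ := hNSC (fun v i => τ h * c v i) (x h l) ((hx h).ne_zero l)
    refine ⟨α, hα, fun w => (hαw w).trans (Real.exp_le_exp.mpr ?_)⟩
    have h1 := hhtw h l
    have h2 := sw_nonneg w
    nlinarith
  choose α hα hαw using hscale
  obtain ⟨y, hydef⟩ : ∃ y : Fin m → Fin (N - 1) → Fin N → K, y = fun h l => α h l • x h l :=
    ⟨_, rfl⟩
  have hy : ∀ h, LinearIndependent K (y h) := by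
    intro h
    have h1 := (hx h).units_smul (fun l => Units.mk0 (α h l) (hα h l))
    rw [hydef]
    exact h1
  have hay : ∀ h l, ∑ i, a h i * y h l i = 0 := by
    intro h l
    have h1 := hax h l
    calc ∑ i, a h i * y h l i = α h l * ∑ i, a h i * x h l i := by
          rw [hydef, Finset.mul_sum]
          refine Finset.sum_congr rfl fun i _ => ?_
          show a h i * (α h l * x h l i) = α h l * (a h i * x h l i)
          ring
      _ = 0 := by rw [h1, mul_zero]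
  obtain ⟨J', q, hq, hJ', hne⟩ := hGRD K m N hN P d hBH a (fun h => (ha h).1) y hy hay J x₀ hx₀
    hJne B
  obtain ⟨z, hzdef⟩ : ∃ z : Fin m × Fin N → K, z = fun p => ∑ l, (q p.1 l : K) * y p.1 l p.2 :=
    ⟨_, rfl⟩
  rw [← hzdef] at hne
  have hZB := fun h => hZBD K N hN S hS L (fun v i => τ h * c v i) (δ * τ h - CN) (y h)
    (fun l w => by
      rw [hydef]
      exact hαw h l w) B (q h) hB1 (hq h)
  have hbdJ' : ∀ h, bd J' h ≤ d h := (hBDJ K m N P d hBH).1 z J' hne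
  -- the key inequality
  have hkey := hKEY m d P (CA * SD) hA0 hBH hPc R G c
    (fun v => D * m / N * (∑ j, c v j) + 2 * N * R * η * m * D) τ (fun h => δ * τ h - CN)
    hR0.le hG hR (fun h => (hτ0 h).le) z
    (fun w hw p => by
      rw [hzdef]
      exact (hZB p.1).1 w hw p.2)
    (fun v hv h j => by
      rw [hzdef, hGdef]
      exact (hZB h).2 v hv j)
    (fun v hv t ht => hBAL m N (by omega) d τ D η R (c v) t hD.le hη0.le hη1 (hR v hv)
      (fun h => ⟨hd0 h, (hτ0 h).le, (hd h).2.1, (hd h).2.2.1⟩)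
      (fun h => (hBDJ K m N P d hBH).2.1 (L v)⁻¹ t ht h) (hPb v hv t ht))
    J' hne
  rw [← hsdef, ← hSDdef] at hkey
  have hZsum : ∑ v ∈ S, (D * m / N * (∑ j, c v j) + 2 * N * R * η * m * D) =
      2 * s * N * R * η * (m * D) := by
    rw [Finset.sum_add_distrib, ← Finset.mul_sum, hc, mul_zero, Finset.sum_const, nsmul_eq_mul,
      ← hsdef]
    ring
  obtain ⟨ST, hSTdef⟩ : ∃ ST : ℝ, ST = ∑ h, τ h * (bd J' h : ℝ) := ⟨_, rfl⟩
  have hST : ST ≤ 4 * θ * D := by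
    have h1 : ∀ h, τ h * (bd J' h : ℝ) ≤
        2 * D * ((∑ i, (J (h, i) : ℝ)) / d h + (N - 1 : ℝ) / (B + 1)) := by
      intro h
      have h2 := hJ' h
      have h3 : τ h ≤ 2 * D / d h := by
        rw [le_div_iff₀ (hdR h)]
        exact hd2 h
      have h4 : (0 : ℝ) ≤ bd J' h := Nat.cast_nonneg _
      calc τ h * (bd J' h : ℝ) ≤ 2 * D / d h * (bd J' h : ℝ) :=
            mul_le_mul_of_nonneg_right h3 h4
        _ ≤ 2 * D / d h * (bd J h + (N - 1 : ℝ) * d h / (B + 1)) :=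
            mul_le_mul_of_nonneg_left h2 (by positivity)
        _ = 2 * D * ((∑ i, (J (h, i) : ℝ)) / d h + (N - 1 : ℝ) / (B + 1)) := by
            have h5 : ((bd J h : ℕ) : ℝ) = ∑ i, (J (h, i) : ℝ) := by
              rw [bd]
              push_cast
              rfl
            rw [h5]
            have h6 : (d h : ℝ) ≠ 0 := (hdR h).ne'
            field_simp
    rw [hSTdef]
    calc ∑ h, τ h * (bd J' h : ℝ) ≤
          ∑ h, 2 * D * ((∑ i, (J (h, i) : ℝ)) / d h + (N - 1 : ℝ) / (B + 1)) :=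
          Finset.sum_le_sum fun h _ => h1 h
      _ = 2 * D * (∑ h, (∑ i, (J (h, i) : ℝ)) / d h + (N - 1 : ℝ) * m / (B + 1)) := by
          rw [← Finset.mul_sum, Finset.sum_add_distrib, Finset.sum_const, Finset.card_univ,
            Fintype.card_fin, nsmul_eq_mul]
          ring
      _ ≤ 2 * D * (θ + θ) := by
          apply mul_le_mul_of_nonneg_left _ (by positivity)
          linarith
      _ = 4 * θ * D := by ring
  have hSE : δ * (m * D) - δ * ST - CN * SD ≤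
      ∑ h, (δ * τ h - CN) * ((d h : ℝ) - bd J' h) := by
    have h1 : ∀ h, δ * D - δ * (τ h * (bd J' h : ℝ)) - CN * d h ≤
        (δ * τ h - CN) * ((d h : ℝ) - bd J' h) := by
      intro h
      have h2 : (0 : ℝ) ≤ bd J' h := Nat.cast_nonneg _
      have h3 := mul_le_mul_of_nonneg_left (hd h).2.1 hδ.le
      have h4 := mul_nonneg hCN h2
      nlinarith
    calc δ * (m * D) - δ * ST - CN * SD =
          ∑ h, (δ * D - δ * (τ h * (bd J' h : ℝ)) - CN * d h) := by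
          rw [Finset.sum_sub_distrib, Finset.sum_sub_distrib, Finset.sum_const, Finset.card_univ,
            Fintype.card_fin, nsmul_eq_mul, hSTdef, hSDdef, Finset.mul_sum, Finset.mul_sum]
          ring
      _ ≤ _ := Finset.sum_le_sum fun h _ => h1 h
  rw [← hSTdef] at hkey
  exact final hδ hs hR0.le hD hm1 ht₁ hCA hG hCK hCN hη hθ ht₁a hSD hST hSE hZsum.le hkey

end Pool.Agent.Lib.MP_d0e829_nt.SS
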