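import Pool.Agent.Lib.MP_d0e829_nt.SS.SpecA

/-!
# Module NRM: Minkowski's theorem for one variable
-/

set_option autoImplicit false

open NumberField IsDedekindDomain

namespace Pool.Agent.Lib.MP_d0e829_nt.SS

open scoped Classical nonZeroDivisors

namespace NRMM

variable {K : Type} [Field K] [NumberField K]

/-- the norm of a prime ideal -/
noncomputable def qq (v : HeightOneSpectrum (𝓞 K)) : ℝ := (Ideal.absNorm v.asIdeal : ℝ)

lemma one_lt_qq (v : HeightOneSpectrum (𝓞 K)) : 1 < qq v := by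
  unfold qq
  exact_mod_cast NumberField.HeightOneSpectrum.one_lt_absNorm v

lemma qq_pos (v : HeightOneSpectrum (𝓞 K)) : 0 < qq v := lt_trans one_pos (one_lt_qq v)

lemma log_qq_pos (v : HeightOneSpectrum (𝓞 K)) : 0 < Real.log (qq v) := Real.log_pos (one_lt_qq v)

lemma place_int (v : HeightOneSpectrum (𝓞 K)) {x : 𝓞 K} (hx : x ≠ 0) :
    FinitePlace.mk v (algebraMap (𝓞 K) K x) =
      qq v ^ (-(FractionalIdeal.count K v
        (FractionalIdeal.spanSingleton (𝓞 K)⁰ (algebraMap (𝓞 K) K x)))) := by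
  have h := NumberField.HeightOneSpectrum.embedding_mul_absNorm K v hx
  rw [FinitePlace.mk_apply]
  have h1 : FractionalIdeal.spanSingleton (𝓞 K)⁰ (algebraMap (𝓞 K) K x) =
      ((Ideal.span {x} : Ideal (𝓞 K)) : FractionalIdeal (𝓞 K)⁰ K) :=
    (FractionalIdeal.coeIdeal_span_singleton x).symm
  have h3 : (Ideal.span {x} : Ideal (𝓞 K)) ≠ 0 := by simpa using hx
  rw [h1, FractionalIdeal.count_coe K v h3, zpow_neg, zpow_natCast]
  rw [HeightOneSpectrum.maxPowDividing, map_pow, Nat.cast_pow] at h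
  have h4 : (qq v) ^ ((Associates.mk v.asIdeal).count (Associates.mk (Ideal.span {x})).factors) ≠ 0 :=
    pow_ne_zero _ (qq_pos v).ne'
  unfold qq at h4 ⊢
  exact eq_inv_of_mul_eq_one_left h

lemma place_eq (v : HeightOneSpectrum (𝓞 K)) {a : K} (ha : a ≠ 0) :
    FinitePlace.mk v a =
      qq v ^ (-(FractionalIdeal.count K v (FractionalIdeal.spanSingleton (𝓞 K)⁰ a))) := by
  obtain ⟨x, y, hy, rfl⟩ := IsFractionRing.div_surjective (𝓞 K) a
  have hy0 : y ≠ 0 := nonZeroDivisors.ne_zero hy
  have hx0 : x ≠ 0 := by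
    rintro rfl
    simp at ha
  have hx1 : algebraMap (𝓞 K) K x ≠ 0 := by simpa using hx0
  have hy1 : algebraMap (𝓞 K) K y ≠ 0 := by simpa using hy0
  have h1 : FractionalIdeal.spanSingleton (𝓞 K)⁰ (algebraMap (𝓞 K) K x / algebraMap (𝓞 K) K y) =
      FractionalIdeal.spanSingleton (𝓞 K)⁰ (algebraMap (𝓞 K) K x) *
        (FractionalIdeal.spanSingleton (𝓞 K)⁰ (algebraMap (𝓞 K) K y))⁻¹ := by
    rw [FractionalIdeal.spanSingleton_inv, FractionalIdeal.spanSingleton_mul_spanSingleton,
      div_eq_mul_inv]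
  have h2 : FractionalIdeal.spanSingleton (𝓞 K)⁰ (algebraMap (𝓞 K) K x) ≠ 0 :=
    FractionalIdeal.spanSingleton_ne_zero_iff.mpr hx1
  have h3 : (FractionalIdeal.spanSingleton (𝓞 K)⁰ (algebraMap (𝓞 K) K y))⁻¹ ≠ 0 :=
    inv_ne_zero (FractionalIdeal.spanSingleton_ne_zero_iff.mpr hy1)
  rw [h1, FractionalIdeal.count_mul K v h2 h3, FractionalIdeal.count_inv, map_div₀,
    place_int v hx0, place_int v hy0, ← zpow_sub₀ (qq_pos v).ne']
  congr 1
  ring

lemma place_le (v : HeightOneSpectrum (𝓞 K)) {I : FractionalIdeal (𝓞 K)⁰ K} {a : K} (ha : a ≠ 0)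
    (haI : a ∈ I) : FinitePlace.mk v a ≤ qq v ^ (-(FractionalIdeal.count K v I)) := by
  rw [place_eq v ha]
  apply zpow_le_zpow_right₀ (one_lt_qq v).le
  apply neg_le_neg
  apply FractionalIdeal.count_mono K v (FractionalIdeal.spanSingleton_ne_zero_iff.mpr ha)
  exact (FractionalIdeal.spanSingleton_le_iff_mem).mpr haI

/-- the fractional ideal with prescribed exponents -/
noncomputable def II (s : Finset (HeightOneSpectrum (𝓞 K))) (e : HeightOneSpectrum (𝓞 K) → ℤ) :
    FractionalIdeal (𝓞 K)⁰ K := ∏ v ∈ s, (v.asIdeal : FractionalIdeal (𝓞 K)⁰ K) ^ e v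

lemma II_ne_zero (s : Finset (HeightOneSpectrum (𝓞 K))) (e : HeightOneSpectrum (𝓞 K) → ℤ) :
    II s e ≠ 0 :=
  Finset.prod_ne_zero_iff.mpr fun v _ =>
    zpow_ne_zero _ (FractionalIdeal.coeIdeal_ne_zero.mpr v.ne_bot)

lemma count_II (s : Finset (HeightOneSpectrum (𝓞 K))) (e : HeightOneSpectrum (𝓞 K) → ℤ)
    (h : ∀ v, v ∉ s → e v = 0) (v : HeightOneSpectrum (𝓞 K)) :
    FractionalIdeal.count K v (II s e) = e v := by
  unfold II
  rw [FractionalIdeal.count_prod]
  · simp only [FractionalIdeal.count_zpow, FractionalIdeal.count_maximal, mul_ite, mul_one,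
      mul_zero]
    rw [Finset.sum_ite_eq' s v e]
    split_ifs with hv
    · rfl
    · exact (h v hv).symm
  · exact fun v hv ↦ zpow_ne_zero _ (FractionalIdeal.coeIdeal_ne_zero.mpr v.ne_bot)

lemma absNorm_II (s : Finset (HeightOneSpectrum (𝓞 K))) (e : HeightOneSpectrum (𝓞 K) → ℤ) :
    ((FractionalIdeal.absNorm (II s e) : ℚ) : ℝ) = ∏ v ∈ s, qq v ^ e v := by
  unfold II qq
  rw [map_prod]
  push_cast
  apply Finset.prod_congr rfl
  intro v _
  rw [map_zpow₀, FractionalIdeal.coeIdeal_absNorm]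
  push_cast
  rfl

/-- Minkowski's theorem for a box -/
lemma mink (K : Type) [Field K] [NumberField K] : ∃ V₀ : ℝ, 0 ≤ V₀ ∧
    ∀ (I : FractionalIdeal (𝓞 K)⁰ K), I ≠ 0 → ∀ f : InfinitePlace K → ℝ, (∀ w, 0 < f w) →
      ((FractionalIdeal.absNorm I : ℚ) : ℝ) * V₀ < ∏ w, f w ^ w.mult →
      ∃ a ∈ I, a ≠ 0 ∧ ∀ w : InfinitePlace K, w a < f w := by
  obtain ⟨V, hV⟩ : ∃ V : ENNReal, V = MeasureTheory.volume (ZSpan.fundamentalDomain
    (mixedEmbedding.latticeBasis K)) * 2 ^ Module.finrank ℝ (mixedEmbedding.mixedSpace K) :=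
    ⟨_, rfl⟩
  have hVtop : V ≠ ⊤ := by
    rw [hV]
    apply ENNReal.mul_ne_top
    · exact (ZSpan.fundamentalDomain_isBounded _).measure_lt_top.ne
    · exact ENNReal.pow_ne_top (by norm_num)
  have hF : (0 : ℝ) < (mixedEmbedding.convexBodyLTFactor K : ℝ) := by
    have := mixedEmbedding.convexBodyLTFactor_ne_zero K
    positivity
  refine ⟨V.toReal / (mixedEmbedding.convexBodyLTFactor K : ℝ), by positivity, ?_⟩
  intro I hI f hf hlt
  set f' : InfinitePlace K → NNReal := fun w => (f w).toNNReal with hf'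
  have hN0 : 0 ≤ ((FractionalIdeal.absNorm I : ℚ) : ℝ) := by
    exact_mod_cast FractionalIdeal.absNorm_nonneg I
  have key : mixedEmbedding.minkowskiBound K (Units.mk0 I hI) <
      MeasureTheory.volume (mixedEmbedding.convexBodyLT K f') := by
    rw [mixedEmbedding.minkowskiBound,
      mixedEmbedding.volume_fundamentalDomain_fractionalIdealLatticeBasis,
      mixedEmbedding.convexBodyLT_volume, mul_assoc, ← hV]
    have e1 : ENNReal.ofReal ((FractionalIdeal.absNorm ((Units.mk0 I hI : (FractionalIdeal (𝓞 K)⁰ K)ˣ) :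
        FractionalIdeal (𝓞 K)⁰ K) : ℚ) : ℝ) * V =
        ENNReal.ofReal (((FractionalIdeal.absNorm I : ℚ) : ℝ) * V.toReal) := by
      rw [ENNReal.ofReal_mul hN0, ENNReal.ofReal_toReal hVtop]
      rfl
    rw [e1, ENNReal.ofReal_lt_iff_lt_toReal (by positivity)
      (ENNReal.mul_ne_top ENNReal.coe_ne_top ENNReal.coe_ne_top), ENNReal.toReal_mul,
      ENNReal.coe_toReal, ENNReal.coe_toReal]
    have e2 : ((∏ w, f' w ^ w.mult : NNReal) : ℝ) = ∏ w, f w ^ w.mult := by
      push_cast
      apply Finset.prod_congr rfl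
      intro w _
      rw [hf']
      simp only
      rw [Real.coe_toNNReal _ (hf w).le]
    rw [e2]
    rw [mul_div_assoc', div_lt_iff₀ hF] at hlt
    linarith
  obtain ⟨a, haI, ha0, ha⟩ := mixedEmbedding.exists_ne_zero_mem_ideal_lt K (Units.mk0 I hI) key
  refine ⟨a, haI, ha0, fun w => ?_⟩
  have := ha w
  rw [hf'] at this
  simp only at this
  rwa [Real.coe_toNNReal _ (hf w).le] at this

/-- the place of a prime ideal -/
noncomputable def pl (v : HeightOneSpectrum (𝓞 K)) : Place K := Sum.inr (FinitePlace.mk v)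

lemma pl_injective : Function.Injective (pl (K := K)) := by
  intro v v' h
  unfold pl at h
  exact FinitePlace.mk_eq_iff.mp (Sum.inr.inj h)

lemma log_pl (v : HeightOneSpectrum (𝓞 K)) {a : K} (ha : a ≠ 0) :
    Real.log (absV (pl v) a) = 1 / Module.finrank ℚ K * Real.log (FinitePlace.mk v a) := by
  rw [log_absV _ ha]
  rfl

/-- the contribution of a place of `S` to the constant -/
noncomputable def GG : Place K → ℝ
  | .inl _ => 0
  | .inr w => Real.log (qq w.maximalIdeal)

lemma GG_nonneg (w : Place K) : 0 ≤ GG w := by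
  cases w with
  | inl w => exact le_rfl
  | inr w => exact (log_qq_pos _).le

lemma GG_pl (v : HeightOneSpectrum (𝓞 K)) : GG (pl v) = Real.log (qq v) := by
  unfold pl GG
  simp only [FinitePlace.maximalIdeal_mk]

end NRMM

open NRMM in
/-- Minkowski's theorem for one variable -/
theorem specNRM : SpecNRM := by
  intro K _ _ S _
  obtain ⟨V₀, hV₀, hmink⟩ := mink K
  set n : ℝ := (Module.finrank ℚ K : ℝ) with hn
  have hn1 : 1 ≤ n := by
    rw [hn]
    exact_mod_cast Nat.succ_le_of_lt (Module.finrank_pos (R := ℚ) (M := K))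
  have hn0 : 0 < n := by linarith
  set Q : ℝ := ∑ w ∈ S, GG w with hQ
  refine ⟨Real.exp Q * V₀, by positivity, fun ρ hρ hfin hsum => ?_⟩
  set C : ℝ := Real.exp Q * V₀ with hC
  have hC0 : 0 ≤ C := by positivity
  set e : HeightOneSpectrum (𝓞 K) → ℤ := fun v => ⌈-(n * ρ (pl v)) / Real.log (qq v)⌉ with he
  have hfs : ((pl (K := K)) ⁻¹' (Function.support ρ)).Finite := hfin.preimage pl_injective.injOn
  set s : Finset (HeightOneSpectrum (𝓞 K)) := hfs.toFinset with hs
  have hs0 : ∀ v, v ∉ s → ρ (pl v) = 0 := by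
    intro v hv
    by_contra h
    apply hv
    rw [hs, Set.Finite.mem_toFinset]
    exact h
  have he0 : ∀ v, v ∉ s → e v = 0 := by
    intro v hv
    simp only [he, hs0 v hv]
    simp
  have he1 : ∀ v, -(n * ρ (pl v)) ≤ e v * Real.log (qq v) := by
    intro v
    have h1 := Int.le_ceil (-(n * ρ (pl v)) / Real.log (qq v))
    rwa [div_le_iff₀ (log_qq_pos v)] at h1
  have he2 : ∀ v, e v * Real.log (qq v) ≤
      -(n * ρ (pl v)) + (if pl v ∈ S then Real.log (qq v) else 0) := by
    intro v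
    have hl := log_qq_pos v
    by_cases hv : pl v ∈ S
    · rw [if_pos hv]
      have h1 := (Int.ceil_lt_add_one (-(n * ρ (pl v)) / Real.log (qq v))).le
      calc (e v : ℝ) * Real.log (qq v)
          ≤ (-(n * ρ (pl v)) / Real.log (qq v) + 1) * Real.log (qq v) := by gcongr
        _ = -(n * ρ (pl v)) + Real.log (qq v) := by field_simp
    · rw [if_neg hv, add_zero]
      obtain ⟨a, ha, hρa⟩ := hρ (pl v) hv
      set m : ℤ := FractionalIdeal.count K v (FractionalIdeal.spanSingleton (𝓞 K)⁰ a) with hm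
      have h1 : Real.log (FinitePlace.mk v a) = -(m : ℝ) * Real.log (qq v) := by
        rw [place_eq v ha, Real.log_zpow, ← hm]
        push_cast
        ring
      have h2 : n * ρ (pl v) = -(m : ℝ) * Real.log (qq v) := by
        rw [hρa, log_pl v ha, h1, ← hn]
        field_simp
      have h3 : -(n * ρ (pl v)) / Real.log (qq v) = (m : ℝ) := by
        rw [h2]
        field_simp
      have h4 : e v = m := by
        simp only [he]
        rw [h3, Int.ceil_intCast]
      rw [h4, h2]
      linarith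
  -- the norm of the ideal
  set A : ℝ := ((FractionalIdeal.absNorm (II s e) : ℚ) : ℝ) with hA
  have hAeq : A = ∏ v ∈ s, qq v ^ e v := absNorm_II s e
  have hA0 : 0 < A := by
    rw [hAeq]
    exact Finset.prod_pos fun v _ => zpow_pos (qq_pos v) _
  have hlogA : Real.log A ≤ -(n * ∑ v ∈ s, ρ (pl v)) + Q := by
    have h1 : Real.log A = ∑ v ∈ s, (e v : ℝ) * Real.log (qq v) := by
      rw [hAeq, Real.log_prod fun v _ => (zpow_pos (qq_pos v) _).ne']
      exact Finset.sum_congr rfl fun v _ => Real.log_zpow _ _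
    have h2 : ∑ v ∈ s, (if pl v ∈ S then Real.log (qq v) else 0) ≤ Q := by
      rw [← Finset.sum_filter]
      calc ∑ v ∈ s.filter (fun v => pl v ∈ S), Real.log (qq v)
          = ∑ v ∈ s.filter (fun v => pl v ∈ S), GG (pl v) :=
            Finset.sum_congr rfl fun v _ => (GG_pl v).symm
        _ = ∑ w ∈ (s.filter (fun v => pl v ∈ S)).image pl, GG w := by
            rw [Finset.sum_image pl_injective.injOn]
        _ ≤ Q := by
            apply Finset.sum_le_sum_of_subset_of_nonneg
            · intro w hw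
              rw [Finset.mem_image] at hw
              obtain ⟨v, hv, rfl⟩ := hw
              exact (Finset.mem_filter.mp hv).2
            · intro w _ _
              exact GG_nonneg w
    rw [h1]
    calc ∑ v ∈ s, (e v : ℝ) * Real.log (qq v)
        ≤ ∑ v ∈ s, (-(n * ρ (pl v)) + (if pl v ∈ S then Real.log (qq v) else 0)) :=
          Finset.sum_le_sum fun v _ => he2 v
      _ = -(n * ∑ v ∈ s, ρ (pl v)) + ∑ v ∈ s, (if pl v ∈ S then Real.log (qq v) else 0) := by
          rw [Finset.sum_add_distrib, Finset.sum_neg_distrib, Finset.mul_sum]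
      _ ≤ -(n * ∑ v ∈ s, ρ (pl v)) + Q := by gcongr
  have hAle : A ≤ Real.exp (-(n * ∑ v ∈ s, ρ (pl v)) + Q) := by
    rw [← Real.log_le_iff_le_exp hA0]
    exact hlogA
  -- the sum of `ρ`
  have hsplit : ∑ᶠ w, ρ w = ∑ w : InfinitePlace K, ρ (Sum.inl w) + ∑ v ∈ s, ρ (pl v) := by
    rw [finsum_sum_type ρ hfin, finsum_eq_sum_of_fintype]
    congr 1
    rw [← finsum_comp_equiv (FinitePlace.equivHeightOneSpectrum (K := K)).symm]
    have h1 : ∀ v, ρ (Sum.inr ((FinitePlace.equivHeightOneSpectrum (K := K)).symm v)) =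
        ρ (pl v) := fun v => rfl
    simp only [h1]
    apply finsum_eq_sum_of_support_subset
    intro v hv
    by_contra hcon
    exact hv (hs0 v (by simpa using hcon))
  rw [hsplit] at hsum
  -- the box
  set f : InfinitePlace K → ℝ := fun w =>
    Real.exp ((ρ (Sum.inl w) + C * sw (Sum.inl w : Place K)) / weight (Sum.inl w : Place K)) with hf
  have hprod : ∏ w, f w ^ w.mult =
      Real.exp (n * ∑ w : InfinitePlace K, ρ (Sum.inl w) + n * C) := by
    have h1 : ∀ w : InfinitePlace K, f w ^ w.mult =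
        Real.exp (n * (ρ (Sum.inl w) + C * weight (Sum.inl w : Place K))) := by
      intro w
      have hw : (0 : ℝ) < w.mult := by exact_mod_cast w.mult_pos
      have h2 : weight (Sum.inl w : Place K) = (w.mult : ℝ) / n := rfl
      have h3 : sw (Sum.inl w : Place K) = weight (Sum.inl w : Place K) := rfl
      simp only [hf]
      rw [← Real.exp_nat_mul, h3, h2]
      congr 1
      field_simp
    rw [Finset.prod_congr rfl fun w _ => h1 w, ← Real.exp_sum]
    congr 1
    rw [← Finset.mul_sum, Finset.sum_add_distrib, ← Finset.mul_sum, sum_weight_inf]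
    ring
  have hcond : A * V₀ < ∏ w, f w ^ w.mult := by
    rw [hprod]
    have h1 : C < Real.exp (n * C) := by
      have h2 := Real.add_one_le_exp (n * C)
      have h3 : C ≤ n * C := le_mul_of_one_le_left hC0 hn1
      linarith
    calc A * V₀ ≤ Real.exp (-(n * ∑ v ∈ s, ρ (pl v)) + Q) * V₀ := by gcongr
      _ = Real.exp (-(n * ∑ v ∈ s, ρ (pl v))) * C := by
          rw [hC, Real.exp_add]
          ring
      _ < Real.exp (-(n * ∑ v ∈ s, ρ (pl v))) * Real.exp (n * C) := by
          exact mul_lt_mul_of_pos_left h1 (Real.exp_pos _)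
      _ ≤ Real.exp (n * ∑ w : InfinitePlace K, ρ (Sum.inl w)) * Real.exp (n * C) := by
          apply mul_le_mul_of_nonneg_right _ (Real.exp_pos _).le
          apply Real.exp_le_exp.mpr
          nlinarith
      _ = Real.exp (n * ∑ w : InfinitePlace K, ρ (Sum.inl w) + n * C) := by
          rw [Real.exp_add]
  obtain ⟨a, haI, ha0, ha⟩ := hmink (II s e) (II_ne_zero s e) f (fun w => Real.exp_pos _) hcond
  refine ⟨a, ha0, fun w => ?_⟩
  cases w with
  | inl w =>
    have hw : 0 < weight (Sum.inl w : Place K) := weight_pos _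
    calc absV (Sum.inl w : Place K) a ≤ (f w) ^ weight (Sum.inl w : Place K) :=
          Real.rpow_le_rpow (rawAbs_nonneg _ _) (ha w).le hw.le
      _ = Real.exp (ρ (Sum.inl w) + C * sw (Sum.inl w : Place K)) := by
          simp only [hf]
          rw [← Real.exp_mul, div_mul_cancel₀ _ hw.ne']
  | inr w =>
    obtain ⟨v, rfl⟩ : ∃ v, w = FinitePlace.mk v := ⟨w.maximalIdeal, (FinitePlace.mk_maximalIdeal w).symm⟩
    have h1 : FinitePlace.mk v a ≤ qq v ^ (-(e v)) := by
      have := place_le v ha0 haI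
      rwa [count_II s e he0 v] at this
    have h2 : 0 < FinitePlace.mk v a := FinitePlace.pos_iff.mpr ha0
    have h3 : Real.log (FinitePlace.mk v a) ≤ -((e v : ℝ) * Real.log (qq v)) := by
      have := Real.log_le_log h2 h1
      rw [Real.log_zpow] at this
      push_cast at this
      linarith
    have h4 : Real.log (absV (pl v) a) ≤ ρ (pl v) := by
      rw [log_pl v ha0, ← hn, one_div, inv_mul_le_iff₀ hn0]
      have := he1 v
      linarith
    have h5 : absV (pl v) a ≤ Real.exp (ρ (pl v)) := by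
      rw [← Real.log_le_iff_le_exp (absV_pos _ ha0)]
      exact h4
    have h6 : sw (Sum.inr (FinitePlace.mk v) : Place K) = 0 := rfl
    rw [h6, mul_zero, add_zero]
    exact h5

end Pool.Agent.Lib.MP_d0e829_nt.SS
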