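import Pool.Agent.Lib.MP_d0e829_nt.SS.SpecB

/-!
# NSC: scaling a vector so that its local norms are as equal as possible
-/

set_option autoImplicit false

open NumberField

namespace Pool.Agent.Lib.MP_d0e829_nt.SS

open scoped Classical

theorem specNSC (hNRM : SpecNRM) : SpecNSC := by
  intro K _ _ N hN S hS L hL
  obtain ⟨C, hC, h⟩ := hNRM K S hS
  refine ⟨C, hC, fun r x hx => ?_⟩
  set H : ℝ := htw S L r x with hH
  set ρ : Place K → ℝ := fun w => -Real.log (lcn S L r w x) + sw w * H with hρ
  have hs1 := support_log_lcn_finite S L r hx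
  have hs1' : (Function.support fun w : Place K => -Real.log (lcn S L r w x)).Finite := by
    refine hs1.subset ?_
    intro w hw
    simpa using hw
  have hs2 : (Function.support fun w : Place K => sw w * H).Finite := by
    refine support_sw_finite.subset ?_
    intro w hw
    rw [Function.mem_support] at hw ⊢
    intro h0
    exact hw (by rw [h0, zero_mul])
  have hsupp : (Function.support ρ).Finite := by
    refine (hs1'.union hs2).subset ?_
    exact Function.support_add _ _
  have hsum : ∑ᶠ w, ρ w = 0 := by
    rw [hρ, finsum_add_distrib hs1' hs2, finsum_neg_distrib, ← finsum_mul,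
      finsum_sw]
    show -(htw S L r x) + 1 * H = 0
    rw [← hH]; ring
  have hout : ∀ w, w ∉ S → ∃ a : K, a ≠ 0 ∧ ρ w = Real.log (absV w a) := by
    intro w hw
    cases w with
    | inl w => exact absurd (hS.1 w) hw
    | inr w =>
      have hne : Nonempty (Fin N) := ⟨⟨0, hN⟩⟩
      obtain ⟨j, hj⟩ := exists_eq_ciSup_of_finite (f := fun j => absV (Sum.inr w : Place K) (x j))
      have hj' : absV (Sum.inr w : Place K) (x j) = nrm (Sum.inr w : Place K) x := hj
      have hpos := nrm_pos (Sum.inr w : Place K) hx
      have hxj : x j ≠ 0 := by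
        intro h0
        rw [h0, absV_zero] at hj'
        linarith
      refine ⟨(x j)⁻¹, inv_ne_zero hxj, ?_⟩
      have h1 : absV (Sum.inr w : Place K) (x j)⁻¹ * absV (Sum.inr w : Place K) (x j) = 1 := by
        rw [← absV_mul, inv_mul_cancel₀ hxj, absV_one]
      have h2 : absV (Sum.inr w : Place K) (x j)⁻¹ = (absV (Sum.inr w : Place K) (x j))⁻¹ :=
        eq_inv_of_mul_eq_one_left h1
      have h3 : lcn S L r (Sum.inr w : Place K) x = nrm (Sum.inr w : Place K) x := by
        unfold lcn
        rw [if_neg hw]
      show -Real.log (lcn S L r (Sum.inr w : Place K) x) + sw (Sum.inr w : Place K) * H = _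
      rw [h3, h2, Real.log_inv, hj']
      simp [sw]
  obtain ⟨a, ha, haw⟩ := h ρ hout hsupp hsum.ge
  refine ⟨a, ha, fun w => ?_⟩
  rw [lcn_smul]
  have hpos := lcn_pos hL r w hx
  calc absV w a * lcn S L r w x ≤ Real.exp (ρ w + C * sw w) * lcn S L r w x :=
        mul_le_mul_of_nonneg_right (haw w) hpos.le
    _ = Real.exp (sw w * (H + C)) := by
        have h1 : lcn S L r w x = Real.exp (Real.log (lcn S L r w x)) := (Real.exp_log hpos).symm
        conv_lhs => rw [h1]
        rw [← Real.exp_add]
        congr 1
        simp only [hρ]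
        ring

end Pool.Agent.Lib.MP_d0e829_nt.SS
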