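import Pool.Agent.Lib.MP_d0e829_nt.SS.SpecB

/-!
# Module PAT: patterns, the hyperplanes whose form satisfies too many relations
-/

set_option autoImplicit false

open NumberField

namespace Pool.Agent.Lib.MP_d0e829_nt.SS

open scoped Classical

namespace PATM

variable {K : Type} [Field K] [NumberField K]

/-- the space of the forms with a given pattern -/
def FA {N : ℕ} (S : Finset (Place K)) (L : Place K → Matrix (Fin N) (Fin N) K)
    (J : Place K → Finset (Fin N)) : Submodule K (Fin N → K) where
  carrier := {b | ∀ v ∈ S, ∀ j, j ∉ J v → (dL L v).mulVec b j = 0}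
  add_mem' := by
    intro a b ha hb v hv j hj
    rw [Matrix.mulVec_add, Pi.add_apply, ha v hv j hj, hb v hv j hj, add_zero]
  zero_mem' := by
    intro v _ j _
    rw [Matrix.mulVec_zero]; rfl
  smul_mem' := by
    intro c a ha v hv j hj
    rw [Matrix.mulVec_smul, Pi.smul_apply, ha v hv j hj, smul_zero]

/-- the annihilator of a space of forms -/
def An {N : ℕ} (A : Submodule K (Fin N → K)) : Submodule K (Fin N → K) where
  carrier := {y | ∀ b ∈ A, ∑ i, b i * y i = 0}
  add_mem' := by
    intro x y hx hy b hb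
    have h1 : ∑ i, b i * (x + y) i = ∑ i, b i * x i + ∑ i, b i * y i := by
      rw [← Finset.sum_add_distrib]
      exact Finset.sum_congr rfl fun i _ => by rw [Pi.add_apply, mul_add]
    rw [h1, hx b hb, hy b hb, add_zero]
  zero_mem' := by
    intro b _
    simp
  smul_mem' := by
    intro c x hx b hb
    have h1 : ∑ i, b i * (c • x) i = c * ∑ i, b i * x i := by
      rw [Finset.mul_sum]
      exact Finset.sum_congr rfl fun i _ => by rw [Pi.smul_apply, smul_eq_mul]; ring
    rw [h1, hx b hb, mul_zero]

lemma det_dL {N : ℕ} {L : Place K → Matrix (Fin N) (Fin N) K} {v : Place K}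
    (h : (L v).det ≠ 0) : (dL L v).det ≠ 0 := by
  unfold dL
  rw [Matrix.det_transpose, Matrix.det_nonsing_inv]
  exact (Ring.inverse_of_isUnit h.isUnit ▸ h.isUnit.unit⁻¹.ne_zero : Ring.inverse (L v).det ≠ 0)

/-- the growth of the twisted height of a form with a pattern -/
lemma growth {N : ℕ} {S : Finset (Place K)} {L : Place K → Matrix (Fin N) (Fin N) K}
    (hL : ∀ v ∈ S, (L v).det ≠ 0) {c : Place K → Fin N → ℝ} {J : Place K → Finset (Fin N)}
    {e : Place K → ℝ} (hce : ∀ v ∈ S, ∀ j ∈ J v, c v j ≤ e v) {b : Fin N → K} (hb : b ≠ 0)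
    (hbA : b ∈ FA S L J) {t : ℝ} (ht : 0 ≤ t) :
    htw S (dL L) (fun v i => -(t * c v i)) b ≤
      htw S (dL L) (fun _ _ => 0) b + t * ∑ v ∈ S, e v := by
  have hdL : ∀ v ∈ S, ((dL L) v).det ≠ 0 := fun v hv => det_dL (hL v hv)
  have hpt : ∀ v : Place K, Real.log (lcn S (dL L) (fun v i => -(t * c v i)) v b) ≤
      Real.log (lcn S (dL L) (fun _ _ => 0) v b) + (if v ∈ S then t * e v else 0) := by
    intro v
    have hpos := lcn_pos hdL (fun v i => -(t * c v i)) v hb
    have hpos0 := lcn_pos hdL (fun _ _ => 0) v hb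
    by_cases hv : v ∈ S
    · rw [if_pos hv]
      have h1 : lcn S (dL L) (fun v i => -(t * c v i)) v b ≤
          lcn S (dL L) (fun _ _ => 0) v b * Real.exp (t * e v) := by
        have hpos0' := hpos0
        unfold lcn at hpos0' ⊢
        rw [if_pos hv] at hpos0' ⊢
        rw [if_pos hv]
        refine tw_le _ _ _ _ (mul_nonneg hpos0'.le (Real.exp_pos _).le) fun i => ?_
        by_cases hi : i ∈ J v
        · have h2 := le_tw (dL L v) (fun _ => 0) v b i
          simp only [neg_zero, Real.exp_zero, mul_one] at h2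
          have h3 : Real.exp (-(-(t * c v i))) ≤ Real.exp (t * e v) := by
            refine Real.exp_le_exp.2 ?_
            rw [neg_neg]
            exact mul_le_mul_of_nonneg_left (hce v hv i hi) ht
          exact mul_le_mul h2 h3 (Real.exp_pos _).le hpos0'.le
        · rw [hbA v hv i hi, absV_zero, zero_mul]
          exact mul_nonneg hpos0'.le (Real.exp_pos _).le
      calc Real.log (lcn S (dL L) (fun v i => -(t * c v i)) v b)
          ≤ Real.log (lcn S (dL L) (fun _ _ => 0) v b * Real.exp (t * e v)) :=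
            Real.log_le_log hpos h1
        _ = _ := by rw [Real.log_mul hpos0.ne' (Real.exp_pos _).ne', Real.log_exp]
    · rw [if_neg hv, add_zero]
      have : lcn S (dL L) (fun v i => -(t * c v i)) v b =
          lcn S (dL L) (fun _ _ => 0) v b := by
        unfold lcn
        rw [if_neg hv, if_neg hv]
      rw [this]
  have hfin : (Function.support fun v : Place K => if v ∈ S then t * e v else 0).Finite := by
    refine S.finite_toSet.subset fun v hv => ?_
    by_contra hcon
    apply hv
    show (if v ∈ S then t * e v else 0) = 0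
    rw [if_neg fun h => hcon (Finset.mem_coe.2 h)]
  have h1 : ∑ᶠ v : Place K, (if v ∈ S then t * e v else 0) = t * ∑ v ∈ S, e v := by
    rw [finsum_eq_sum_of_support_subset (s := S) _ (by
      intro v hv
      by_contra hcon
      apply hv
      show (if v ∈ S then t * e v else 0) = 0
      rw [if_neg fun h => hcon (Finset.mem_coe.2 h)]), Finset.mul_sum]
    exact Finset.sum_congr rfl fun v hv => by rw [if_pos hv]
  unfold htw
  rw [← h1, ← finsum_add_distrib (support_log_lcn_finite S (dL L) _ hb) hfin]
  refine finsum_mono (support_log_lcn_finite S (dL L) _ hb) ?_ hpt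
  exact ((support_log_lcn_finite S (dL L) _ hb).union hfin).subset (Function.support_add _ _)

/-- the dimension of the kernel of a nonzero form -/
lemma finrank_ker {N : ℕ} {a : Fin N → K} (ha : a ≠ 0) {V : Submodule K (Fin N → K)}
    (hV : ∀ y ∈ V, ∑ i, a i * y i = 0) : Module.finrank K V ≤ N - 1 := by
  obtain ⟨i, hi⟩ := Function.ne_iff.1 ha
  by_contra hcon
  have h1 : Module.finrank K V = N := by
    have h2 := Submodule.finrank_le V
    rw [Module.finrank_fin_fun] at h2
    omega
  have h3 : V = ⊤ := Submodule.eq_top_of_finrank_eq (by rw [h1, Module.finrank_fin_fun])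
  have h4 := hV (Pi.single i 1) (by rw [h3]; trivial)
  rw [Finset.sum_eq_single i (fun j _ hj => by rw [Pi.single_eq_of_ne hj, mul_zero])
    (fun h => absurd (Finset.mem_univ i) h), Pi.single_eq_same, mul_one] at h4
  exact hi h4

end PATM

open PATM in
theorem specPAT (hDPR : SpecDPR) : SpecPAT := by
  intro K _ _ N hN S L hL c δ hδ J e hce he
  obtain ⟨C, hC0, hC⟩ := hDPR K N hN S L hL
  obtain ⟨s, hs⟩ := (IsNoetherian.noetherian (FA S L J) : (FA S L J).FG)
  obtain ⟨t₀, ht₀⟩ : ∃ t₀ : ℝ, t₀ = ∑ b ∈ s, |htw S (dL L) (fun _ _ => 0) b| := ⟨_, rfl⟩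
  refine ⟨(C + t₀ + 1) / δ, An (FA S L J), ?_⟩
  intro t ht x hx hxt a ha hax haJ
  have ht00 : 0 ≤ t₀ := by rw [ht₀]; exact Finset.sum_nonneg fun _ _ => abs_nonneg _
  have hpos : 0 < (C + t₀ + 1) / δ := by positivity
  have ht0 : 0 ≤ t := by linarith
  have htδ : C + t₀ + 1 ≤ δ * t := by
    rw [div_le_iff₀ hδ] at ht
    linarith
  -- orthogonality
  have horth : ∀ b ∈ s, ∀ l, ∑ i, b i * x l i = 0 := by
    intro b hb l
    by_contra hne
    have hb0 : b ≠ 0 := by
      rintro rfl
      apply hne
      simp
    have hbA : b ∈ FA S L J := by rw [← hs]; exact Submodule.subset_span hb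
    have h1 := hC (fun v i => t * c v i) b (x l) hne
    have h2 := growth hL hce hb0 hbA ht0
    have h3 := hxt l
    have h4 : htw S (dL L) (fun _ _ => 0) b ≤ t₀ := by
      rw [ht₀]
      exact (le_abs_self _).trans (Finset.single_le_sum
        (f := fun b => |htw S (dL L) (fun _ _ => 0) b|) (fun _ _ => abs_nonneg _) hb)
    have h5 : t * ∑ v ∈ S, e v ≤ 0 := mul_nonpos_of_nonneg_of_nonpos ht0 he.le
    linarith
  have horthA : ∀ b ∈ FA S L J, ∀ l, ∑ i, b i * x l i = 0 := by
    intro b hb l
    rw [← hs] at hb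
    induction hb using Submodule.span_induction with
    | mem b hb => exact horth b hb l
    | zero => simp
    | add b b' _ _ h1 h2 =>
      have : ∑ i, (b + b') i * x l i = ∑ i, b i * x l i + ∑ i, b' i * x l i := by
        rw [← Finset.sum_add_distrib]
        exact Finset.sum_congr rfl fun i _ => by rw [Pi.add_apply, add_mul]
      rw [this, h1, h2, add_zero]
    | smul k b _ h1 =>
      have : ∑ i, (k • b) i * x l i = k * ∑ i, b i * x l i := by
        rw [Finset.mul_sum]
        exact Finset.sum_congr rfl fun i _ => by rw [Pi.smul_apply, smul_eq_mul]; ring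
      rw [this, h1, mul_zero]
  have hle : Submodule.span K (Set.range x) ≤ An (FA S L J) := by
    rw [Submodule.span_le]
    rintro _ ⟨l, rfl⟩ b hb
    exact horthA b hb l
  have haA : a ∈ FA S L J := haJ
  refine Submodule.eq_of_le_of_finrank_le hle ?_
  rw [finrank_span_eq_card hx, Fintype.card_fin]
  exact finrank_ker ha fun y hy => hy a haA

end Pool.Agent.Lib.MP_d0e829_nt.SS
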