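import Pool.Agent.Lib.MP_d0e829_nt.SS.SpecA

/-!
# The Subspace theorem, module PEN: a gap before the last minimum
-/

set_option autoImplicit false

open NumberField

namespace Pool.Agent.Lib.MP_d0e829_nt.SS

open scoped Classical

namespace PENM

variable {K : Type} [Field K] [NumberField K] {N : ℕ}

/-- the running maximum -/
noncomputable def rm (a : Fin N → ℝ) (j : Fin N) : ℝ :=
  (Finset.Iic j).sup' ⟨j, Finset.mem_Iic.2 le_rfl⟩ a

theorem le_rm (a : Fin N → ℝ) {l j : Fin N} (h : l ≤ j) : a l ≤ rm a j :=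
  Finset.le_sup' a (Finset.mem_Iic.2 h)

theorem rm_le (a : Fin N → ℝ) {j : Fin N} {B : ℝ} (h : ∀ l ≤ j, a l ≤ B) : rm a j ≤ B :=
  Finset.sup'_le _ _ fun l hl => h l (Finset.mem_Iic.1 hl)

theorem rm_mono (a : Fin N → ℝ) {l j : Fin N} (h : l ≤ j) : rm a l ≤ rm a j :=
  rm_le a fun _ hi => le_rm a (hi.trans h)

theorem sum_two (h : Fin N → ℝ) {a p q : ℝ} {i j : Fin N} (hij : i ≠ j) (ha : ∀ l, a ≤ h l)
    (hi : a + p ≤ h i) (hj : a + q ≤ h j) : N * a + p + q ≤ ∑ l, h l := by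
  have h1 : ∑ l : Fin N, (a + (if l = i then p else 0) + (if l = j then q else 0)) =
      N * a + p + q := by
    simp [Finset.sum_add_distrib]
  rw [← h1]
  refine Finset.sum_le_sum fun l _ => ?_
  by_cases h2 : l = i
  · rw [h2, if_pos rfl, if_neg hij]
    linarith
  · by_cases h3 : l = j
    · rw [h3, if_pos rfl, if_neg hij.symm]
      linarith
    · rw [if_neg h2, if_neg h3]
      linarith [ha l]

theorem sum_one (h : Fin N → ℝ) {a p : ℝ} {i : Fin N} (ha : ∀ l, a ≤ h l)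
    (hi : a + p ≤ h i) : N * a + p ≤ ∑ l, h l := by
  have h1 : ∑ l : Fin N, (a + (if l = i then p else 0)) = N * a + p := by
    simp [Finset.sum_add_distrib]
  rw [← h1]
  refine Finset.sum_le_sum fun l _ => ?_
  by_cases h2 : l = i
  · rw [h2, if_pos rfl]
    linarith
  · rw [if_neg h2]
    linarith [ha l]

/-! ### flags -/

omit [NumberField K] in
theorem fl_mono (x : Fin N → Fin N → K) {a b : ℕ} (h : a ≤ b) : Fl x a ≤ Fl x b := by
  unfold Fl
  exact Submodule.span_mono (Set.image_mono fun i (hi : (i : ℕ) < a) => lt_of_lt_of_le hi h)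

omit [NumberField K] in
theorem fl_zero (x : Fin N → Fin N → K) : Fl x 0 = ⊥ := by
  unfold Fl
  simp

theorem fl_top (x : Fin N → Fin N → K) (hx : LinearIndependent K x) : Fl x N = ⊤ := by
  unfold Fl
  have h1 : {i : Fin N | (i : ℕ) < N} = Set.univ := by
    ext i
    simp
  rw [h1, Set.image_univ]
  refine hx.span_eq_top_of_card_eq_finrank' ?_
  simp

omit [NumberField K] in
theorem not_mem_fl (x : Fin N → Fin N → K) (hx : LinearIndependent K x) {l j : Fin N}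
    (h : l ≤ j) : x j ∉ Fl x l := by
  unfold Fl
  refine hx.notMem_span_image ?_
  intro h2
  have h3 : (j : ℕ) < l := h2
  have h4 : (l : ℕ) ≤ j := h
  omega

theorem level (x : Fin N → Fin N → K) (hx : LinearIndependent K x) {y : Fin N → K} (hy : y ≠ 0) :
    ∃ j : Fin N, y ∈ Fl x (j + 1) ∧ y ∉ Fl x j := by
  have hex : ∃ m, y ∈ Fl x m := ⟨N, by rw [fl_top x hx]; trivial⟩
  have hm := Nat.find_spec hex
  have hmN : Nat.find hex ≤ N := Nat.find_min' hex (by rw [fl_top x hx]; trivial)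
  have hm0 : Nat.find hex ≠ 0 := by
    intro h0
    rw [h0, fl_zero, Submodule.mem_bot] at hm
    exact hy hm
  obtain ⟨j, hj⟩ := Nat.exists_eq_succ_of_ne_zero hm0
  rw [hj] at hm hmN
  have hyj : y ∉ Fl x j := Nat.find_min hex (by omega)
  exact ⟨⟨j, by omega⟩, hm, hyj⟩

omit [NumberField K] in
theorem finrank_fl {M : ℕ} (x : Fin (M + 2) → Fin (M + 2) → K) :
    Module.finrank K (Fl x (M + 1)) ≤ M + 1 := by
  have hr : x '' {i : Fin (M + 2) | (i : ℕ) < M + 1} =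
      Set.range (fun k : Fin (M + 1) => x k.castSucc) := by
    ext y
    simp only [Set.mem_image, Set.mem_ofPred_eq, Set.mem_range]
    constructor
    · rintro ⟨i, hi, rfl⟩
      exact ⟨⟨i, hi⟩, rfl⟩
    · rintro ⟨k, rfl⟩
      exact ⟨k.castSucc, k.2, rfl⟩
  have h1 : (Set.range (fun k : Fin (M + 1) => x k.castSucc)).finrank K ≤
      Fintype.card (Fin (M + 1)) := finrank_range_le_card _
  unfold Fl
  rw [hr]
  simpa [Set.finrank] using h1

/-! ### shifting the weights at one place -/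

/-- shifting the weights at one place -/
noncomputable def shf (v₀ : Place K) (π : Equiv.Perm (Fin N)) (s : Fin N → ℝ)
    (r : Place K → Fin N → ℝ) : Place K → Fin N → ℝ :=
  fun v i => if v = v₀ then r v i + s (π.symm i) else r v i

theorem shf_at (v₀ : Place K) (π : Equiv.Perm (Fin N)) (s : Fin N → ℝ)
    (r : Place K → Fin N → ℝ) (i : Fin N) : shf v₀ π s r v₀ i = r v₀ i + s (π.symm i) := by
  simp [shf]

theorem shf_ne (v₀ : Place K) (π : Equiv.Perm (Fin N)) (s : Fin N → ℝ)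
    (r : Place K → Fin N → ℝ) {w : Place K} (hw : w ≠ v₀) : shf v₀ π s r w = r w := by
  funext i
  simp [shf, hw]

theorem smul_shf (v₀ : Place K) (π : Equiv.Perm (Fin N)) (s : Fin N → ℝ)
    (r : Place K → Fin N → ℝ) (t : ℝ) : (fun v i => t * shf v₀ π s r v i) =
      shf v₀ π (fun j => t * s j) (fun v i => t * r v i) := by
  funext v i
  simp only [shf]
  split_ifs <;> ring

theorem sum_shf {S : Finset (Place K)} {v₀ : Place K} (hv₀ : v₀ ∈ S) (π : Equiv.Perm (Fin N))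
    (s : Fin N → ℝ) (r : Place K → Fin N → ℝ) :
    ∑ v ∈ S, ∑ i, shf v₀ π s r v i = ∑ v ∈ S, ∑ i, r v i + ∑ i, s i := by
  rw [← Finset.add_sum_erase S _ hv₀, ← Finset.add_sum_erase S (fun v => ∑ i, r v i) hv₀]
  have h2 : ∑ v ∈ S.erase v₀, ∑ i, shf v₀ π s r v i = ∑ v ∈ S.erase v₀, ∑ i, r v i := by
    refine Finset.sum_congr rfl fun v hv => ?_
    rw [shf_ne v₀ π s r (Finset.ne_of_mem_erase hv)]
  have h3 : ∑ i, shf v₀ π s r v₀ i = ∑ i, r v₀ i + ∑ i, s i := by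
    rw [← Equiv.sum_comp π.symm s, ← Finset.sum_add_distrib]
    exact Finset.sum_congr rfl fun i _ => shf_at v₀ π s r i
  rw [h2, h3]
  ring

/-- comparison of two systems of weights that differ at one place only -/
theorem htw_le_of_one {S : Finset (Place K)} {L : Place K → Matrix (Fin N) (Fin N) K}
    {v₀ : Place K} (hv₀ : v₀ ∈ S) {r r' : Place K → Fin N → ℝ} (h : ∀ w, w ≠ v₀ → r w = r' w)
    {y : Fin N → K} (hy : y ≠ 0) {D : ℝ}
    (hD : Real.log (tw (L v₀) (r v₀) v₀ y) ≤ Real.log (tw (L v₀) (r' v₀) v₀ y) + D) :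
    htw S L r y ≤ htw S L r' y + D := by
  have hf1 := support_log_lcn_finite S L r hy
  have hf2 := support_log_lcn_finite S L r' hy
  have hf3 : (Function.support fun w : Place K => if w = v₀ then D else 0).Finite := by
    refine (Set.finite_singleton v₀).subset ?_
    intro w hw
    by_contra hne
    apply hw
    have : w ≠ v₀ := hne
    simp [this]
  have hf4 : ∑ᶠ w : Place K, (if w = v₀ then D else 0) = D := by
    rw [finsum_eq_single (fun w : Place K => if w = v₀ then D else 0) v₀ (fun w hw => by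
      simp [hw])]
    simp
  unfold htw
  rw [← hf4, ← finsum_add_distrib hf2 hf3]
  refine finsum_mono hf1 ((hf2.union hf3).subset ?_) fun w => ?_
  · exact Function.support_add _ _
  · by_cases hw : w = v₀
    · subst hw
      simp only [lcn, hv₀, if_true]
      linarith
    · have h1 : lcn S L r w y = lcn S L r' w y := by
        unfold lcn
        rw [h w hw]
      simp [hw, h1]

/-- the lower bound from Davenport's lemma -/
theorem htw_shf_low {S : Finset (Place K)} {L : Place K → Matrix (Fin N) (Fin N) K}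
    (hL : ∀ v ∈ S, (L v).det ≠ 0) {v₀ : Place K} (hv₀ : v₀ ∈ S) (hN : 0 < N)
    {r : Place K → Fin N → ℝ} {x : Fin N → Fin N → K} {π : Equiv.Perm (Fin N)}
    (hπ : ∀ (j : ℕ) (y : Fin N → K), y ∈ Fl x j → ∀ B : ℝ, 0 ≤ B →
      (∀ i : Fin N, (i : ℕ) < j →
        absV v₀ ((L v₀).mulVec y (π i)) * Real.exp (-(r v₀ (π i))) ≤ B) →
      tw (L v₀) (r v₀) v₀ y ≤ (N : ℝ) ^ ((N : ℝ) * sw v₀) * B)
    {s : Fin N → ℝ} (hs : Monotone s) {y : Fin N → K} (hy : y ≠ 0) (j : Fin N)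
    (hyj : y ∈ Fl x (j + 1)) :
    htw S L r y ≤ htw S L (shf v₀ π s r) y + ((N : ℝ) * sw v₀ * Real.log N + s j) := by
  have hNr : (0 : ℝ) < N := by exact_mod_cast hN
  refine htw_le_of_one hv₀ (fun w hw => (shf_ne v₀ π s r hw).symm) hy ?_
  have hLv := hL v₀ hv₀
  have htw' : 0 < tw (L v₀) (shf v₀ π s r v₀) v₀ y := tw_pos hLv _ _ hy
  have hcmp : tw (L v₀) (r v₀) v₀ y ≤
      (N : ℝ) ^ ((N : ℝ) * sw v₀) * (tw (L v₀) (shf v₀ π s r v₀) v₀ y * Real.exp (s j)) := by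
    refine hπ (j + 1) y hyj _ (mul_nonneg htw'.le (Real.exp_pos _).le) fun i hi => ?_
    have h1 := le_tw (L v₀) (shf v₀ π s r v₀) v₀ y (π i)
    rw [shf_at, Equiv.symm_apply_apply] at h1
    have h3 : Real.exp (-(r v₀ (π i))) = Real.exp (-(r v₀ (π i) + s i)) * Real.exp (s i) := by
      rw [← Real.exp_add]
      congr 1
      ring
    rw [h3, ← mul_assoc]
    have h4 : Real.exp (s i) ≤ Real.exp (s j) := by
      refine Real.exp_le_exp.2 (hs ?_)
      rw [Fin.le_def]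
      omega
    exact mul_le_mul h1 h4 (Real.exp_pos _).le htw'.le
  have h1 := Real.log_le_log (tw_pos hLv (r v₀) v₀ hy) hcmp
  have h2 : (0 : ℝ) < (N : ℝ) ^ ((N : ℝ) * sw v₀) := Real.rpow_pos_of_pos hNr _
  rw [Real.log_mul h2.ne' (mul_pos htw' (Real.exp_pos _)).ne',
    Real.log_mul htw'.ne' (Real.exp_pos _).ne', Real.log_exp, Real.log_rpow hNr] at h1
  linarith

/-- small changes of the shift -/
theorem htw_shf_mono {S : Finset (Place K)} {L : Place K → Matrix (Fin N) (Fin N) K}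
    (hL : ∀ v ∈ S, (L v).det ≠ 0) {v₀ : Place K} (hv₀ : v₀ ∈ S) {r : Place K → Fin N → ℝ}
    {π : Equiv.Perm (Fin N)} {s τ : Fin N → ℝ} {ρ : ℝ} (h : ∀ j, s j ≤ τ j + ρ)
    {y : Fin N → K} (hy : y ≠ 0) :
    htw S L (shf v₀ π τ r) y ≤ htw S L (shf v₀ π s r) y + ρ := by
  refine htw_le_of_one hv₀ (fun w hw => ?_) hy ?_
  · rw [shf_ne _ _ _ _ hw, shf_ne _ _ _ _ hw]
  have hLv := hL v₀ hv₀
  have h1 : 0 < tw (L v₀) (shf v₀ π s r v₀) v₀ y := tw_pos hLv _ _ hy
  have h2 : 0 < tw (L v₀) (shf v₀ π τ r v₀) v₀ y := tw_pos hLv _ _ hy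
  have h3 : tw (L v₀) (shf v₀ π τ r v₀) v₀ y ≤
      tw (L v₀) (shf v₀ π s r v₀) v₀ y * Real.exp ρ := by
    refine tw_le _ _ _ _ (mul_nonneg h1.le (Real.exp_pos _).le) fun i => ?_
    have h4 := le_tw (L v₀) (shf v₀ π s r v₀) v₀ y i
    have h5 : Real.exp (-(shf v₀ π τ r v₀ i)) ≤
        Real.exp (-(shf v₀ π s r v₀ i)) * Real.exp ρ := by
      rw [← Real.exp_add, shf_at, shf_at]
      refine Real.exp_le_exp.2 ?_
      have := h (π.symm i)
      linarith
    calc absV v₀ ((L v₀).mulVec y i) * Real.exp (-(shf v₀ π τ r v₀ i))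
        ≤ absV v₀ ((L v₀).mulVec y i) * (Real.exp (-(shf v₀ π s r v₀ i)) * Real.exp ρ) :=
          mul_le_mul_of_nonneg_left h5 (absV_nonneg _ _)
      _ = absV v₀ ((L v₀).mulVec y i) * Real.exp (-(shf v₀ π s r v₀ i)) * Real.exp ρ := by ring
      _ ≤ _ := mul_le_mul_of_nonneg_right h4 (Real.exp_pos _).le
  have h6 := Real.log_le_log h2 h3
  rw [Real.log_mul h1.ne' (Real.exp_pos _).ne', Real.log_exp] at h6
  exact h6

/-! ### discretisation -/

/-- the discretised shift -/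
noncomputable def dsc {M : ℕ} (η : ℝ) (m : Fin (M + 1) → ℤ) : Fin (M + 2) → ℝ :=
  Fin.snoc (α := fun _ => ℝ) (fun i => η * (m i : ℝ)) (-∑ i, η * (m i : ℝ))

theorem sum_dsc {M : ℕ} (η : ℝ) (m : Fin (M + 1) → ℤ) : ∑ j, dsc η m j = 0 := by
  rw [Fin.sum_univ_castSucc]
  simp [dsc]

theorem le_dsc {M : ℕ} {η : ℝ} (hη : 0 < η) {s : Fin (M + 2) → ℝ} (hs : ∑ j, s j = 0)
    (j : Fin (M + 2)) : s j ≤ dsc η (fun i => ⌊s i.castSucc / η⌋) j + η := by
  refine Fin.lastCases ?_ (fun i => ?_) j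
  · rw [Fin.sum_univ_castSucc] at hs
    have h1 : ∀ i : Fin (M + 1), η * (⌊s i.castSucc / η⌋ : ℝ) ≤ s i.castSucc := by
      intro i
      have h2 := Int.floor_le (s i.castSucc / η)
      rw [le_div_iff₀ hη] at h2
      linarith
    have h2 := Finset.sum_le_sum fun i (_ : i ∈ Finset.univ) => h1 i
    simp only [dsc, Fin.snoc_last]
    linarith
  · have h1 := Int.lt_floor_add_one (s i.castSucc / η)
    simp only [dsc, Fin.snoc_castSucc]
    rw [div_lt_iff₀ hη] at h1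
    linarith

theorem abs_floor_le {u B : ℝ} (h : |u| ≤ B) : |(⌊u⌋ : ℝ)| ≤ B + 1 := by
  have h1 := Int.floor_le u
  have h2 := Int.lt_floor_add_one u
  obtain ⟨h3, h4⟩ := abs_le.1 h
  rw [abs_le]
  constructor <;> linarith

theorem box_finite {ι : Type} [Finite ι] (Q : ℝ) : {m : ι → ℤ | ∀ i, |(m i : ℝ)| ≤ Q}.Finite := by
  refine (Set.Finite.pi' fun _ : ι => Set.finite_Icc (-⌈Q⌉) ⌈Q⌉).subset ?_
  intro m hm i
  obtain ⟨h1, h2⟩ := abs_le.1 (hm i)
  have h3 := Int.le_ceil Q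
  constructor
  · have h4 : ((-⌈Q⌉ : ℤ) : ℝ) ≤ (m i : ℝ) := by
      push_cast
      linarith
    exact_mod_cast h4
  · have h4 : (m i : ℝ) ≤ ((⌈Q⌉ : ℤ) : ℝ) := by linarith
    exact_mod_cast h4

/-! ### the core of the proof, for fixed weights -/

theorem core {M : ℕ} {S : Finset (Place K)} {L : Place K → Matrix (Fin (M + 2)) (Fin (M + 2)) K}
    (hDAV : SpecDAV) (hRED : SpecRED) (hL : ∀ v ∈ S, (L v).det ≠ 0) {v₀ : Place K}
    (hv₀ : v₀ ∈ S) {CL CM D : ℝ}
    (hCL : ∀ (r : Place K → Fin (M + 2) → ℝ) (x : Fin (M + 2) → Fin (M + 2) → K),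
      LinearIndependent K x → -CL - ∑ v ∈ S, ∑ i, r v i ≤ ∑ j, htw S L r (x j))
    (hCM : ∀ r : Place K → Fin (M + 2) → ℝ, ∑ v ∈ S, ∑ i, r v i = 0 →
      ∀ x : Fin (M + 2) → Fin (M + 2) → K, Red (htw S L r) x → ∑ j, htw S L r (x j) ≤ CM)
    (hD : ((M + 2 : ℕ) : ℝ) * sw v₀ * Real.log (M + 2 : ℕ) ≤ D)
    {r : Place K → Fin (M + 2) → ℝ} (hr : ∑ v ∈ S, ∑ i, r v i = 0)
    {x : Fin (M + 2) → Fin (M + 2) → K} (hx : Red (htw S L r) x) {g : ℝ} (hg0 : 0 ≤ g)
    (hg : CM + CL + ((M : ℝ) + 2) * (D + 2) < g)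
    (hgap : ∀ i : Fin (M + 1),
      htw S L r (x i.castSucc) + g ≤ htw S L r (x (Fin.last (M + 1))))
    {B : ℝ} (hB : ∀ j, |htw S L r (x j)| ≤ B) :
    ∃ (π : Equiv.Perm (Fin (M + 2))) (s : Fin (M + 2) → ℝ) (z : Fin (M + 1) → Fin (M + 2) → K),
      ∑ j, s j = 0 ∧ (∀ j, |s j| ≤ 2 * B) ∧ LinearIndependent K z ∧
      Submodule.span K (Set.range z) = Fl x (M + 1) ∧
      ∀ l, ((M : ℝ) + 2) * htw S L (shf v₀ π s r) (z l) ≤
        -g + (((M : ℝ) + 2) * CM + ((M : ℝ) + 2) * ((M : ℝ) + 1) * (D + 2) +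
          ((M : ℝ) + 1) * CL) := by
  have hNpos : (0 : ℝ) < (M : ℝ) + 2 := by positivity
  obtain ⟨hli, hred⟩ := hx
  obtain ⟨lam, hlam⟩ : ∃ lam : Fin (M + 2) → ℝ, ∀ j, lam j = htw S L r (x j) :=
    ⟨fun j => htw S L r (x j), fun _ => rfl⟩
  obtain ⟨pn, hpn⟩ : ∃ pn : Fin (M + 2), pn = (Fin.last M).castSucc := ⟨_, rfl⟩
  have hpnv : (pn : ℕ) = M := by rw [hpn]; simp
  obtain ⟨mu, hmu⟩ : ∃ mu : Fin (M + 2) → ℝ, ∀ j, mu j = rm lam (min j pn) :=
    ⟨fun j => rm lam (min j pn), fun _ => rfl⟩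
  obtain ⟨κ, hκ⟩ : ∃ κ : ℝ, κ = (∑ j, mu j) / ((M : ℝ) + 2) := ⟨_, rfl⟩
  obtain ⟨s, hs⟩ : ∃ s : Fin (M + 2) → ℝ, ∀ j, s j = mu j - κ := ⟨fun j => mu j - κ, fun _ => rfl⟩
  obtain ⟨G, hG⟩ : ∃ G : ℝ, G = lam (Fin.last (M + 1)) - rm lam pn := ⟨_, rfl⟩
  have hNκ : ((M : ℝ) + 2) * κ = ∑ j, mu j := by
    rw [hκ]
    field_simp
  have hs0 : ∑ j, s j = 0 := by
    have h1 : ∑ j, s j = ∑ j, mu j - ((M : ℝ) + 2) * κ := by
      rw [Finset.sum_congr rfl fun j _ => hs j]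
      simp only [Finset.sum_sub_distrib, Finset.sum_const, Finset.card_univ, Fintype.card_fin,
        nsmul_eq_mul]
      push_cast
      ring
    rw [h1, hNκ, sub_self]
  have hmono : Monotone s := by
    intro i j hij
    have h1 := rm_mono lam (min_le_min_right pn hij)
    rw [hs, hs, hmu, hmu]
    linarith
  have hrm1 : ∀ j, rm lam j ≤ lam j + 1 := by
    intro j
    refine rm_le lam fun l hl => ?_
    rw [hlam, hlam]
    exact hred l (x j) (not_mem_fl x hli hl)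
  have hmuc : ∀ i : Fin (M + 2), (i : ℕ) ≤ M → mu i = rm lam i := by
    intro i hi
    have h1 : i ≤ pn := by
      rw [Fin.le_def, hpnv]
      exact hi
    rw [hmu, min_eq_left h1]
  have hmul : mu (Fin.last (M + 1)) = rm lam pn := by
    rw [hmu, min_eq_right (Fin.le_last _)]
  have hGg : g ≤ G := by
    have h1 : rm lam pn ≤ lam (Fin.last (M + 1)) - g := by
      refine rm_le lam fun l hl => ?_
      have h2 : (l : ℕ) < M + 1 := by
        rw [Fin.le_def, hpnv] at hl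
        omega
      have h3 := hgap ⟨l, h2⟩
      have h4 : (⟨l, h2⟩ : Fin (M + 1)).castSucc = l := Fin.ext rfl
      rw [h4, ← hlam, ← hlam] at h3
      linarith
    linarith
  have hsum : -CL - G ≤ ((M : ℝ) + 2) * κ := by
    have h1 := hCL r x hli
    rw [hr, Fin.sum_univ_castSucc] at h1
    simp only [← hlam] at h1
    rw [hNκ, Fin.sum_univ_castSucc, hmul]
    have h2 : ∑ i : Fin (M + 1), lam i.castSucc ≤ ∑ i : Fin (M + 1), mu i.castSucc := by
      refine Finset.sum_le_sum fun i _ => ?_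
      have h3 : ((i.castSucc : Fin (M + 2)) : ℕ) ≤ M := by
        have := i.2
        simp only [Fin.val_castSucc]
        omega
      rw [hmuc _ h3]
      exact le_rm lam le_rfl
    linarith
  have hlamB : ∀ j, |lam j| ≤ B := fun j => by rw [hlam]; exact hB j
  have hmuB : ∀ j, -B ≤ mu j ∧ mu j ≤ B := by
    intro j
    rw [hmu]
    refine ⟨?_, rm_le lam fun l _ => (abs_le.1 (hlamB l)).2⟩
    exact (abs_le.1 (hlamB (min j pn))).1.trans (le_rm lam le_rfl)
  have hκB : -B ≤ κ ∧ κ ≤ B := by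
    have h1 : ∑ _j : Fin (M + 2), (-B) ≤ ∑ j, mu j := Finset.sum_le_sum fun j _ => (hmuB j).1
    have h2 : ∑ j, mu j ≤ ∑ _j : Fin (M + 2), B := Finset.sum_le_sum fun j _ => (hmuB j).2
    simp only [Finset.sum_const, Finset.card_univ, Fintype.card_fin, nsmul_eq_mul] at h1 h2
    push_cast at h1 h2
    rw [← hNκ] at h1 h2
    constructor
    · nlinarith
    · nlinarith
  have hsB : ∀ j, |s j| ≤ 2 * B := by
    intro j
    rw [hs, abs_le]
    obtain ⟨h1, h2⟩ := hmuB j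
    obtain ⟨h3, h4⟩ := hκB
    constructor <;> linarith
  obtain ⟨π, hπ⟩ := hDAV K (M + 2) (L v₀) v₀ (r v₀) x hli
  have hr' : ∑ v ∈ S, ∑ i, shf v₀ π s r v i = 0 := by
    rw [sum_shf hv₀, hr, hs0, add_zero]
  have key : ∀ y : Fin (M + 2) → K, y ≠ 0 → κ - (D + 2) ≤ htw S L (shf v₀ π s r) y ∧
      (y ∉ Fl x (M + 1) → κ - (D + 2) + G ≤ htw S L (shf v₀ π s r) y) := by
    intro y hy
    obtain ⟨j, hj1, hj2⟩ := level x hli hy
    have h1 := hred j y hj2
    have h2 := htw_shf_low hL hv₀ (by omega : 0 < M + 2) hπ hmono hy j hj1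
    rw [← hlam] at h1
    rw [hs] at h2
    by_cases hj : (j : ℕ) ≤ M
    · have h3 := hrm1 j
      rw [hmuc j hj] at h2
      refine ⟨by linarith, fun h4 => ?_⟩
      exact absurd (fl_mono x (by omega : (j : ℕ) + 1 ≤ M + 1) hj1) h4
    · have h3 : j = Fin.last (M + 1) := by
        apply Fin.ext
        have := j.2
        simp only [Fin.val_last]
        omega
      rw [h3, hmul] at h2
      rw [h3] at h1
      exact ⟨by linarith, fun _ => by linarith⟩
  obtain ⟨y, hy⟩ := hRED K (M + 2) (htw S L (shf v₀ π s r))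
    ⟨κ - (D + 2), fun y hy => (key y hy).1⟩
  have hM := hCM _ hr' y hy
  have hyli := hy.1
  have hy0 : ∀ j, y j ≠ 0 := fun j => hyli.ne_zero j
  have hall : ∀ j, κ - (D + 2) ≤ htw S L (shf v₀ π s r) (y j) := fun j => (key _ (hy0 j)).1
  have hfr := finrank_fl x
  obtain ⟨js, hjs⟩ : ∃ js, y js ∉ Fl x (M + 1) := by
    by_contra hcon
    push Not at hcon
    have h1 : Submodule.span K (Set.range y) ≤ Fl x (M + 1) := by
      rw [Submodule.span_le]
      rintro _ ⟨j, rfl⟩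
      exact hcon j
    have h2 := Submodule.finrank_mono h1
    rw [finrank_span_eq_card hyli, Fintype.card_fin] at h2
    omega
  have hjsG := (key _ (hy0 js)).2 hjs
  have hoth : ∀ j, j ≠ js → y j ∈ Fl x (M + 1) := by
    intro j hj
    by_contra hcon
    have h1 := sum_two (fun j => htw S L (shf v₀ π s r) (y j)) (Ne.symm hj) hall hjsG
      ((key _ (hy0 j)).2 hcon)
    push_cast at h1
    nlinarith
  refine ⟨π, s, fun l => y (js.succAbove l), hs0, hsB,
    hyli.comp _ Fin.succAbove_right_injective, ?_, fun l => ?_⟩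
  · refine Submodule.eq_of_le_of_finrank_le ?_ ?_
    · rw [Submodule.span_le]
      rintro _ ⟨l, rfl⟩
      exact hoth _ (Fin.succAbove_ne js l)
    · have h1 : LinearIndependent K (fun l => y (js.succAbove l)) :=
        hyli.comp _ Fin.succAbove_right_injective
      rw [finrank_span_eq_card h1, Fintype.card_fin]
      exact hfr
  · have hne := Fin.succAbove_ne js l
    have h1 := sum_two (fun j => htw S L (shf v₀ π s r) (y j)) (Ne.symm hne) hall hjsG
      (q := htw S L (shf v₀ π s r) (y (js.succAbove l)) - (κ - (D + 2))) (by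
        show _ ≤ htw S L (shf v₀ π s r) (y (js.succAbove l))
        linarith)
    push_cast at h1
    have h2 : ((M : ℝ) + 1) * (-CL - G) ≤ ((M : ℝ) + 1) * (((M : ℝ) + 2) * κ) :=
      mul_le_mul_of_nonneg_left hsum (by positivity)
    have h3 := mul_le_mul_of_nonneg_left (h1.trans hM) hNpos.le
    nlinarith

end PENM

open PENM in
theorem specPEN (hRC : SpecRC) (hDAV : SpecDAV) (hLB : SpecLB) (hM2 : SpecM2) (hCMP : SpecCMP)
    (hRED : SpecRED) : SpecPEN := by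
  intro K _ _ N hN2 S hS L hL c hc δ hδ
  obtain ⟨M, rfl⟩ : ∃ M, N = M + 2 := ⟨N - 2, by omega⟩
  obtain ⟨CL, hCL0, hCL⟩ := hLB K (M + 2) S L hL
  obtain ⟨CM, hCM0, hCM⟩ := hM2 K (M + 2) (by omega) S hS L hL
  obtain ⟨CC, hCC0, hCC⟩ := hCMP K (M + 2) S L hL
  obtain ⟨v₁⟩ : Nonempty (InfinitePlace K) := inferInstance
  obtain ⟨v₀, hv₀⟩ : ∃ v₀ : Place K, v₀ = Sum.inl v₁ := ⟨_, rfl⟩
  have hv₀S : v₀ ∈ S := by
    rw [hv₀]
    exact hS.1 v₁
  have hNpos : (0 : ℝ) < (M : ℝ) + 2 := by positivity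
  obtain ⟨D, hD⟩ : ∃ D : ℝ, D = ((M + 2 : ℕ) : ℝ) * sw v₀ * Real.log (M + 2 : ℕ) := ⟨_, rfl⟩
  obtain ⟨η, hη⟩ : ∃ η : ℝ, η = δ / (4 * ((M : ℝ) + 2)) := ⟨_, rfl⟩
  have hη0 : 0 < η := by
    rw [hη]
    positivity
  -- the bounds
  obtain ⟨R₀, hR₀⟩ : ∃ R₀ : ℝ, R₀ = ∑ v ∈ S, ∑ i, |c v i| := ⟨_, rfl⟩
  have hR₀0 : 0 ≤ R₀ := by
    rw [hR₀]
    exact Finset.sum_nonneg fun v _ => Finset.sum_nonneg fun i _ => abs_nonneg _
  have hcR : ∀ v ∈ S, ∀ i, |c v i| ≤ R₀ := by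
    intro v hv i
    rw [hR₀]
    exact (Finset.single_le_sum (f := fun i => |c v i|) (fun i _ => abs_nonneg _)
      (Finset.mem_univ i)).trans (Finset.single_le_sum (f := fun v => ∑ i, |c v i|)
        (fun v _ => Finset.sum_nonneg fun i _ => abs_nonneg _) hv)
  obtain ⟨A, hA⟩ : ∃ A : ℝ, A = CC + S.card * R₀ := ⟨_, rfl⟩
  have hA0 : 0 ≤ A := by
    rw [hA]
    positivity
  obtain ⟨A', hA'⟩ : ∃ A' : ℝ, A' = CM + ((M : ℝ) + 2) * A := ⟨_, rfl⟩
  have hA'0 : 0 ≤ A' := by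
    rw [hA']
    positivity
  obtain ⟨C', hC'⟩ : ∃ C' : ℝ, C' = ((M : ℝ) + 2) * CM +
      ((M : ℝ) + 2) * ((M : ℝ) + 1) * (D + 2) + ((M : ℝ) + 1) * CL := ⟨_, rfl⟩
  obtain ⟨C₂, hC₂⟩ : ∃ C₂ : ℝ, C₂ = max (4 * C') (CM + CL + ((M : ℝ) + 2) * (D + 2) + 1) :=
    ⟨_, rfl⟩
  obtain ⟨Q, hQ⟩ : ∃ Q : ℝ, Q = 2 * A' / η + 1 := ⟨_, rfl⟩
  -- the finitely many systems
  have hRC' := fun p : Equiv.Perm (Fin (M + 2)) × (Fin (M + 1) → ℤ) =>
    hRC K (M + 2) hN2 S hS L hL (shf v₀ p.1 (dsc η p.2) c)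
      (by rw [sum_shf hv₀S, hc, sum_dsc, add_zero]) (δ / (2 * ((M : ℝ) + 2))) (by positivity)
  choose t₁ H₁ hH₁ hR₁ using hRC'
  have hbox : {p : Equiv.Perm (Fin (M + 2)) × (Fin (M + 1) → ℤ) |
      ∀ i, |(p.2 i : ℝ)| ≤ Q}.Finite := by
    refine (Set.finite_univ.prod (box_finite (ι := Fin (M + 1)) Q)).subset ?_
    intro p hp
    exact ⟨trivial, hp⟩
  obtain ⟨T₁, hT₁⟩ := (hbox.image t₁).bddAbove
  refine ⟨max (max 1 T₁) (C₂ / δ), ⋃ p ∈ {p : Equiv.Perm (Fin (M + 2)) × (Fin (M + 1) → ℤ) |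
      ∀ i, |(p.2 i : ℝ)| ≤ Q}, H₁ p, hbox.biUnion fun p _ => hH₁ p, fun t ht x hx hgap => ?_⟩
  have ht1 : 1 ≤ t := (le_max_left _ _).trans ((le_max_left _ _).trans ht)
  have ht0 : 0 < t := by linarith
  have htT : T₁ ≤ t := (le_max_right _ _).trans ((le_max_left _ _).trans ht)
  have htC : C₂ ≤ δ * t := by
    have h1 : C₂ / δ ≤ t := (le_max_right _ _).trans ht
    rw [div_le_iff₀ hδ] at h1
    linarith
  have htC' : 4 * C' ≤ δ * t := (le_max_left _ _).trans (by rw [← hC₂]; exact htC)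
  have htg : CM + CL + ((M : ℝ) + 2) * (D + 2) + 1 ≤ δ * t :=
    (le_max_right _ _).trans (by rw [← hC₂]; exact htC)
  have hr : ∑ v ∈ S, ∑ i, t * c v i = 0 := by
    simp only [← Finset.mul_sum]
    rw [hc, mul_zero]
  -- the size of the minima
  have hlow : ∀ j, -(A * t) ≤ htw S L (fun v i => t * c v i) (x j) := by
    intro j
    have hxj := hx.1.ne_zero j
    have h1 := hCC (fun v i => t * c v i) (t * R₀) (by positivity) (fun v hv i => by
      rw [abs_mul, abs_of_pos ht0]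
      exact mul_le_mul_of_nonneg_left (hcR v hv i) ht0.le) (x j) hxj
    have h2 := ht_nonneg hxj
    have h3 := (abs_le.1 h1).1
    have h4 : CC ≤ CC * t := le_mul_of_one_le_right hCC0 ht1
    rw [hA]
    nlinarith
  have hup : ∀ j, htw S L (fun v i => t * c v i) (x j) ≤ CM + ((M : ℝ) + 1) * (A * t) := by
    intro j
    have h1 := sum_one (fun j => htw S L (fun v i => t * c v i) (x j)) (i := j)
      (p := htw S L (fun v i => t * c v i) (x j) - (-(A * t))) hlow (by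
        show _ ≤ htw S L (fun v i => t * c v i) (x j)
        linarith)
    have h2 := hCM _ hr x hx
    push_cast at h1
    linarith
  have hB : ∀ j, |htw S L (fun v i => t * c v i) (x j)| ≤ A' * t := by
    intro j
    have h1 := hlow j
    have h2 := hup j
    have h3 : 0 ≤ A * t := by positivity
    have h4 : CM ≤ CM * t := le_mul_of_one_le_right hCM0 ht1
    have h5 : A' * t = CM * t + ((M : ℝ) + 1) * (A * t) + A * t := by
      rw [hA']
      ring
    have h6 : 0 ≤ ((M : ℝ) + 1) * (A * t) := by positivity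
    rw [abs_le, h5]
    constructor <;> linarith
  obtain ⟨π, s, z, hs0, hsB, hz, hspan, hzl⟩ := core hDAV hRED hL hv₀S hCL hCM hD.ge hr hx
    (g := δ * t) (by positivity) (by linarith) (fun i => hgap _ _ (by
      have := i.2
      simp only [Fin.val_castSucc]
      omega) (by
      simp only [Fin.val_last]
      omega)) hB
  -- the discretisation
  obtain ⟨m, hm⟩ : ∃ m : Fin (M + 1) → ℤ, m = fun i => ⌊(s i.castSucc / t) / η⌋ := ⟨_, rfl⟩
  have hmem : (π, m) ∈ {p : Equiv.Perm (Fin (M + 2)) × (Fin (M + 1) → ℤ) |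
      ∀ i, |(p.2 i : ℝ)| ≤ Q} := by
    intro i
    show |(m i : ℝ)| ≤ Q
    rw [hm, hQ]
    refine abs_floor_le ?_
    rw [abs_div, abs_div, abs_of_pos ht0, abs_of_pos hη0]
    refine div_le_div_of_nonneg_right ?_ hη0.le
    rw [div_le_iff₀ ht0]
    have h1 := hsB i.castSucc
    linarith
  have hs0' : ∑ j, s j / t = 0 := by
    rw [← Finset.sum_div, hs0, zero_div]
  have hfin := hR₁ (π, m) t ((hT₁ ⟨_, hmem, rfl⟩).trans htT) z hz (fun l => ?_)
  · rw [hspan] at hfin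
    exact Set.mem_biUnion hmem hfin
  · rw [smul_shf]
    have hz0 : z l ≠ 0 := hz.ne_zero l
    have h1 := htw_shf_mono (S := S) (L := L) hL hv₀S (r := fun v i => t * c v i) (π := π)
      (s := s) (τ := fun j => t * dsc η m j) (ρ := t * η) (fun j => by
        have h2 := le_dsc hη0 hs0' j
        rw [← hm, div_le_iff₀ ht0] at h2
        linarith) hz0
    have h2 := hzl l
    rw [← hC'] at h2
    have h3 : -(δ / (2 * ((M : ℝ) + 2)) * t) = (-(δ * t) / 2) / ((M : ℝ) + 2) := by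
      field_simp
    rw [h3, le_div_iff₀ hNpos]
    have h4 : ((M : ℝ) + 2) * (t * η) = δ * t / 4 := by
      rw [hη]
      field_simp
    have h5 := mul_le_mul_of_nonneg_left h1 hNpos.le
    rw [mul_comm]
    linarith

end Pool.Agent.Lib.MP_d0e829_nt.SS
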