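import Pool.Agent.Lib.MP_d0e829_nt.SS.SpecA

/-!
# PST: the parametric Subspace theorem
-/

set_option autoImplicit false

open NumberField

namespace Pool.Agent.Lib.MP_d0e829_nt.SS

open scoped Classical

namespace PSTM

variable {K : Type} [Field K] [NumberField K] {N : ℕ}

lemma fl_mono (x : Fin N → Fin N → K) {j k : ℕ} (h : j ≤ k) : Fl x j ≤ Fl x k :=
  Submodule.span_mono (Set.image_mono fun _ hi => lt_of_lt_of_le hi h)

lemma notMem {x : Fin N → Fin N → K} (hx : LinearIndependent K x) {j : ℕ} {l : Fin N}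
    (h : j ≤ (l : ℕ)) : x l ∉ Fl x j :=
  hx.notMem_span_image (s := {i : Fin N | (i : ℕ) < j}) (by
    intro h'
    exact absurd (show (l : ℕ) < j from h') (not_lt.2 h))

/-- the combinatorial core: position of the gap -/
lemma core (f : (Fin N → K) → ℝ) (x : Fin N → Fin N → K) (hx : Red f x) (hN : 0 < N)
    (C δ t : ℝ) (hC : 0 ≤ C) (hδ : 0 < δ)
    (hsum : -C ≤ ∑ j, f (x j)) (ht : 2 * (1 + C) + 4 * N ≤ δ * t)
    (y : Fin N → K) (hy : y ≠ 0) (hfy : f y ≤ -(δ * t)) :
    ∃ k : ℕ, 0 < k ∧ k < N ∧ y ∈ Fl x k ∧ ∀ i j : Fin N, (i : ℕ) < k → k ≤ (j : ℕ) →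
      f (x i) + δ / (2 * N) * t ≤ f (x j) := by
  obtain ⟨hli, hred⟩ := hx
  have N0 : (0 : ℝ) < N := by exact_mod_cast hN
  have N1 : (1 : ℝ) ≤ N := by exact_mod_cast hN
  have hCN : C / N ≤ C := div_le_self hC N1
  have almost : ∀ i l : Fin N, (i : ℕ) ≤ l → f (x i) ≤ f (x l) + 1 := fun i l h =>
    hred i (x l) (notMem hli h)
  -- the index j₁
  have hj : ∃ j₁ : Fin N, -(C / N) ≤ f (x j₁) := by
    by_contra hcon
    push Not at hcon
    have : ∑ j, f (x j) < ∑ _j : Fin N, (-(C / N)) := by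
      refine Finset.sum_lt_sum_of_nonempty ⟨⟨0, hN⟩, Finset.mem_univ _⟩ fun j _ => hcon j
    rw [Finset.sum_const, Finset.card_univ, Fintype.card_fin, nsmul_eq_mul] at this
    have e : (N : ℝ) * -(C / N) = -C := by field_simp
    linarith
  obtain ⟨j₁, hj₁⟩ := hj
  -- the index k₀
  have hex : ∃ n : ℕ, ∃ h : n < N, -(δ * t) + 1 < f (x ⟨n, h⟩) :=
    ⟨j₁, j₁.2, by
      have : f (x ⟨(j₁ : ℕ), j₁.2⟩) = f (x j₁) := rfl
      rw [this]
      linarith⟩
  obtain ⟨hk₀N, hk₀⟩ := Nat.find_spec hex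
  have hmin : ∀ n, n < Nat.find hex → ∀ h : n < N, f (x ⟨n, h⟩) ≤ -(δ * t) + 1 := by
    intro n hn h
    by_contra hcon
    exact Nat.find_min hex hn ⟨h, not_le.1 hcon⟩
  set k₀ := Nat.find hex with hk₀def
  have hyk₀ : y ∈ Fl x k₀ := by
    by_contra hcon
    have := hred ⟨k₀, hk₀N⟩ y hcon
    linarith
  have hk₀pos : 0 < k₀ := by
    rcases Nat.eq_zero_or_pos k₀ with h | h
    · exfalso
      rw [h] at hyk₀
      unfold Fl at hyk₀
      have : {i : Fin N | (i : ℕ) < 0} = ∅ := by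
        ext i; simp
      rw [this, Set.image_empty, Submodule.span_empty, Submodule.mem_bot] at hyk₀
      exact hy hyk₀
    · exact h
  have hk₀j₁ : k₀ ≤ (j₁ : ℕ) := by
    by_contra hcon
    have := hmin j₁ (not_le.1 hcon) j₁.2
    have e : f (x ⟨(j₁ : ℕ), j₁.2⟩) = f (x j₁) := rfl
    rw [e] at this
    linarith
  -- the values on ℕ
  set lam : ℕ → ℝ := fun n => if h : n < N then f (x ⟨n, h⟩) else 0 with hlam
  have lam_eq : ∀ i : Fin N, lam i = f (x i) := by
    intro i
    rw [hlam]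
    simp only [i.2, dif_pos]
  set D : ℝ := (δ * t - 1 - C / N) / N with hD
  have hDt : δ / (2 * N) * t + 2 ≤ D := by
    rw [hD, le_div_iff₀ N0]
    have e : (δ / (2 * N) * t + 2) * N = δ * t / 2 + 2 * N := by field_simp
    rw [e]
    linarith
  have D0 : 0 ≤ D := by
    have : 0 ≤ δ * t := by nlinarith
    have : 0 ≤ δ / (2 * N) * t := by
      have e : δ / (2 * N) * t = δ * t / (2 * N) := by ring
      rw [e]; positivity
    linarith
  have hgap : ∃ k : ℕ, k₀ ≤ k ∧ k ≤ (j₁ : ℕ) ∧ lam (k - 1) + D ≤ lam k := by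
    by_contra hcon
    push Not at hcon
    have hind : ∀ m : ℕ, k₀ + m ≤ (j₁ : ℕ) → lam (k₀ + m) < lam (k₀ - 1) + (m + 1) * D := by
      intro m
      induction m with
      | zero =>
        intro hm
        have := hcon k₀ le_rfl (by simpa using hm)
        simpa using this
      | succ m ih =>
        intro hm
        have h1 := ih (by omega)
        have h2 := hcon (k₀ + (m + 1)) (by omega) hm
        have e : k₀ + (m + 1) - 1 = k₀ + m := by omega
        rw [e] at h2
        push_cast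
        linarith
    have h1 := hind ((j₁ : ℕ) - k₀) (by omega)
    have e1 : k₀ + ((j₁ : ℕ) - k₀) = j₁ := by omega
    rw [e1, lam_eq] at h1
    have h2 : lam (k₀ - 1) ≤ -(δ * t) + 1 := by
      have h3 : k₀ - 1 < N := by omega
      rw [hlam]
      simp only [h3, dif_pos]
      exact hmin (k₀ - 1) (by omega) h3
    have h4 : ((((j₁ : ℕ) - k₀ : ℕ) : ℝ) + 1) * D ≤ N * D := by
      refine mul_le_mul_of_nonneg_right ?_ D0
      have : (j₁ : ℕ) - k₀ + 1 ≤ N := by have := j₁.2; omega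
      exact_mod_cast this
    have h5 : (N : ℝ) * D = δ * t - 1 - C / N := by
      rw [hD]; field_simp
    linarith
  obtain ⟨k, hk1, hk2, hk3⟩ := hgap
  have hkN : k < N := lt_of_le_of_lt hk2 j₁.2
  refine ⟨k, by omega, hkN, fl_mono x hk1 hyk₀, ?_⟩
  intro i j hi hj
  have a1 : f (x i) ≤ lam (k - 1) + 1 := by
    have h3 : k - 1 < N := by omega
    have h4 := almost i ⟨k - 1, h3⟩ (by
      have : (i : ℕ) ≤ k - 1 := by omega
      exact this)
    rw [hlam]
    simp only [h3, dif_pos]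
    exact h4
  have a2 : lam k ≤ f (x j) + 1 := by
    have h4 := almost ⟨k, hkN⟩ j hj
    rw [hlam]
    simp only [hkN, dif_pos]
    exact h4
  linarith

end PSTM

theorem specPST (hGAP : SpecGAP) (hLB : SpecLB) (hCMP : SpecCMP) (hRED : SpecRED) : SpecPST := by
  intro K _ _ N hN S hS L hL c hc δ hδ
  obtain ⟨C, hC, hLB⟩ := hLB K N S L hL
  obtain ⟨C', hC', hCMP⟩ := hCMP K N S L hL
  have N0 : (0 : ℝ) < N := by exact_mod_cast hN
  have hg : ∀ k : ℕ, ∃ (t₀ : ℝ) (H : Set (Submodule K (Fin N → K))), H.Finite ∧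
      ∀ t : ℝ, t₀ ≤ t → ∀ x : Fin N → Fin N → K, Red (htw S L (fun v i => t * c v i)) x →
        (∀ i j : Fin N, (i : ℕ) < k → k ≤ (j : ℕ) →
          htw S L (fun v i => t * c v i) (x i) + δ / (2 * N) * t ≤
            htw S L (fun v i => t * c v i) (x j)) → 0 < k → k < N → Fl x k ∈ H := by
    intro k
    by_cases h1 : 0 < k
    · by_cases h2 : k < N
      · obtain ⟨t₀, H, hH, h⟩ := hGAP K N S hS L hL c hc (δ / (2 * N)) (by positivity) k h1 h2
        exact ⟨t₀, H, hH, fun t ht x hx hgap _ _ => h t ht x hx hgap⟩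
      · exact ⟨0, ∅, Set.finite_empty, fun t _ x _ _ _ h => absurd h h2⟩
    · exact ⟨0, ∅, Set.finite_empty, fun t _ x _ _ h _ => absurd h h1⟩
  choose tk Hk hHk hk using hg
  refine ⟨(∑ k ∈ Finset.range N, |tk k|) + (2 * (1 + C) + 4 * N) / δ,
    {T | (∃ k ∈ Finset.range N, T ∈ Hk k) ∧ T ≠ ⊤}, ?_, fun T hT => hT.2, ?_⟩
  · have : (⋃ k ∈ (Finset.range N : Finset ℕ), Hk k).Finite :=
      Set.Finite.biUnion (Finset.finite_toSet _) fun k _ => hHk k
    refine this.subset ?_
    rintro T ⟨⟨k, hk, hT⟩, -⟩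
    simp only [Set.mem_iUnion]
    exact ⟨k, hk, hT⟩
  · intro t ht y hy hfy
    have hsum0 : 0 ≤ ∑ k ∈ Finset.range N, |tk k| := Finset.sum_nonneg fun _ _ => abs_nonneg _
    have hq0 : 0 ≤ (2 * (1 + C) + 4 * N) / δ := by positivity
    have ht0 : 0 ≤ t := by linarith
    have ht1 : 2 * (1 + C) + 4 * N ≤ δ * t := by
      have : (2 * (1 + C) + 4 * N) / δ ≤ t := by linarith
      rw [div_le_iff₀ hδ] at this
      linarith
    -- the reduced basis
    set R : ℝ := t * ∑ v ∈ S, ∑ i, |c v i| with hR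
    have hR0 : 0 ≤ R := by positivity
    have hbd : ∃ B : ℝ, ∀ z : Fin N → K, z ≠ 0 → B ≤ htw S L (fun v i => t * c v i) z := by
      refine ⟨-(C' + S.card * R), fun z hz => ?_⟩
      have h1 := hCMP (fun v i => t * c v i) R hR0 (by
        intro v hv i
        rw [abs_mul, abs_of_nonneg ht0, hR]
        refine mul_le_mul_of_nonneg_left ?_ ht0
        calc |c v i| ≤ ∑ i, |c v i| :=
              Finset.single_le_sum (f := fun i => |c v i|) (fun _ _ => abs_nonneg _)
                (Finset.mem_univ i)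
          _ ≤ ∑ v ∈ S, ∑ i, |c v i| :=
              Finset.single_le_sum (f := fun v => ∑ i, |c v i|)
                (fun _ _ => Finset.sum_nonneg fun _ _ => abs_nonneg _) hv) z hz
      have h2 := ht_nonneg hz
      have h3 := (abs_le.1 h1).1
      linarith
    obtain ⟨x, hx⟩ := hRED K N (htw S L (fun v i => t * c v i)) hbd
    have hs : -C ≤ ∑ j, htw S L (fun v i => t * c v i) (x j) := by
      have h := hLB (fun v i => t * c v i) x hx.1
      have e : ∑ v ∈ S, ∑ i, t * c v i = 0 := by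
        have : ∑ v ∈ S, ∑ i, t * c v i = t * ∑ v ∈ S, ∑ i, c v i := by
          rw [Finset.mul_sum]
          exact Finset.sum_congr rfl fun v _ => by rw [Finset.mul_sum]
        rw [this, hc, mul_zero]
      rw [e, sub_zero] at h
      exact h
    obtain ⟨k, k0, kN, hyk, hgap⟩ := PSTM.core (htw S L (fun v i => t * c v i)) x hx hN C δ t hC hδ
      hs ht1 y hy hfy
    refine ⟨Fl x k, ⟨⟨k, Finset.mem_range.2 kN, ?_⟩, ?_⟩, hyk⟩
    · refine hk k t ?_ x hx hgap k0 kN
      have h1 : |tk k| ≤ ∑ k ∈ Finset.range N, |tk k| :=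
        Finset.single_le_sum (f := fun k => |tk k|) (fun _ _ => abs_nonneg _)
          (Finset.mem_range.2 kN)
      have h2 := le_abs_self (tk k)
      linarith
    · intro htop
      have h1 : x ⟨k, kN⟩ ∉ Fl x k := PSTM.notMem hx.1 le_rfl
      rw [htop] at h1
      exact h1 Submodule.mem_top

end Pool.Agent.Lib.MP_d0e829_nt.SS
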