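import Pool.Agent.Lib.MP_d0e829_nt.SS.DefsR

/-!
# Module RDER (helper69): calculus of the divided derivatives
-/

set_option autoImplicit false

open MvPolynomial

namespace Pool.Agent.Lib.MP_d0e829_nt.SS

variable {σ τ R S : Type} [CommRing R] [CommRing S]

theorem dd_add (J : σ →₀ ℕ) (P Q : MvPolynomial σ R) : dd J (P + Q) = dd J P + dd J Q := by
  unfold dd tayl
  rw [map_add, coeff_add]

theorem dd_zero (J : σ →₀ ℕ) : dd J (0 : MvPolynomial σ R) = 0 := by
  unfold dd tayl
  rw [map_zero, coeff_zero]

theorem dd_sum {ι : Type} (s : Finset ι) (J : σ →₀ ℕ) (f : ι → MvPolynomial σ R) :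
    dd J (∑ i ∈ s, f i) = ∑ i ∈ s, dd J (f i) := by
  unfold dd tayl
  rw [map_sum, coeff_sum]

theorem dd_C_mul (J : σ →₀ ℕ) (c : R) (P : MvPolynomial σ R) :
    dd J (C c * P) = C c * dd J P := by
  unfold dd tayl
  rw [map_mul]
  have h : (aeval (fun i => (C (X i) + X i : MvPolynomial σ (MvPolynomial σ R)))) (C c) =
      (C (C c) : MvPolynomial σ (MvPolynomial σ R)) := by
    rw [aeval_C]
    rfl
  rw [h, coeff_C_mul]

theorem dd_smul (J : σ →₀ ℕ) (c : R) (P : MvPolynomial σ R) : dd J (c • P) = c • dd J P := by
  rw [smul_eq_C_mul, smul_eq_C_mul, dd_C_mul]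

theorem dd_neg (J : σ →₀ ℕ) (P : MvPolynomial σ R) : dd J (-P) = -dd J P := by
  unfold dd tayl
  rw [map_neg, coeff_neg]

/-- Leibniz -/
theorem dd_mul [DecidableEq σ] (J : σ →₀ ℕ) (P Q : MvPolynomial σ R) :
    dd J (P * Q) = ∑ p ∈ Finset.HasAntidiagonal.antidiagonal J, dd p.1 P * dd p.2 Q := by
  unfold dd tayl
  rw [map_mul, coeff_mul]

open Classical in
theorem dd_C (J : σ →₀ ℕ) (a : R) :
    dd J (C a : MvPolynomial σ R) = if J = 0 then C a else 0 := by
  unfold dd tayl
  have h : (aeval (fun i => (C (X i) + X i : MvPolynomial σ (MvPolynomial σ R)))) (C a) =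
      (C (C a) : MvPolynomial σ (MvPolynomial σ R)) := by
    rw [aeval_C]
    rfl
  rw [h, coeff_C]
  by_cases h1 : J = 0
  · rw [if_pos h1, if_pos h1.symm]
  · rw [if_neg h1, if_neg (fun h2 => h1 h2.symm)]

open Classical in
theorem dd_mul_X (J : σ →₀ ℕ) (P : MvPolynomial σ R) (i : σ) :
    dd J (P * X i) = dd J P * X i + if J i = 0 then 0 else dd (J - Finsupp.single i 1) P := by
  unfold dd tayl
  rw [map_mul, aeval_X, mul_add, coeff_add, coeff_mul_X', mul_comm _ (C (X i)), coeff_C_mul,
    mul_comm (X i)]
  congr 1
  by_cases h : J i = 0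
  · rw [if_pos h, if_neg (by simpa using h)]
  · rw [if_neg h, if_pos (by simpa using h)]

theorem dd_zero_idx (P : MvPolynomial σ R) : dd 0 P = P := by
  induction P using MvPolynomial.induction_on with
  | C a => rw [dd_C, if_pos rfl]
  | add p q hp hq => rw [dd_add, hp, hq]
  | mul_X p i hp => rw [dd_mul_X, hp, if_pos (by rfl), add_zero]

theorem bin_pascal [Fintype σ] (α J : σ →₀ ℕ) (i : σ) (hα : α i ≠ 0) (hJ : J i ≠ 0) :
    bin (α - Finsupp.single i 1 + J) J +
      bin (α + (J - Finsupp.single i 1)) (J - Finsupp.single i 1) = bin (α + J) J := by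
  classical
  unfold bin
  rw [← Finset.mul_prod_erase Finset.univ (fun k => ((α - Finsupp.single i 1 + J : σ →₀ ℕ) k).choose (J k))
    (Finset.mem_univ i), ← Finset.mul_prod_erase Finset.univ
    (fun k => ((α + (J - Finsupp.single i 1) : σ →₀ ℕ) k).choose
      ((J - Finsupp.single i 1 : σ →₀ ℕ) k))
    (Finset.mem_univ i), ← Finset.mul_prod_erase Finset.univ (fun k => ((α + J : σ →₀ ℕ) k).choose (J k))
    (Finset.mem_univ i)]
  have h1 : ∏ k ∈ Finset.univ.erase i, ((α - Finsupp.single i 1 + J : σ →₀ ℕ) k).choose (J k) =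
      ∏ k ∈ Finset.univ.erase i, ((α + J : σ →₀ ℕ) k).choose (J k) := by
    refine Finset.prod_congr rfl (fun k hk => ?_)
    have hk' : i ≠ k := (Finset.ne_of_mem_erase hk).symm
    simp [Finsupp.single_apply, hk']
  have h2 : ∏ k ∈ Finset.univ.erase i,
      ((α + (J - Finsupp.single i 1) : σ →₀ ℕ) k).choose ((J - Finsupp.single i 1 : σ →₀ ℕ) k) =
      ∏ k ∈ Finset.univ.erase i, ((α + J : σ →₀ ℕ) k).choose (J k) := by
    refine Finset.prod_congr rfl (fun k hk => ?_)
    have hk' : i ≠ k := (Finset.ne_of_mem_erase hk).symm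
    simp [Finsupp.single_apply, hk']
  rw [h1, h2, ← add_mul]
  congr 1
  simp only [Finsupp.coe_add, Finsupp.coe_tsub, Pi.add_apply, Pi.sub_apply, Finsupp.single_eq_same]
  obtain ⟨a, ha⟩ := Nat.exists_eq_succ_of_ne_zero hα
  obtain ⟨b, hb⟩ := Nat.exists_eq_succ_of_ne_zero hJ
  rw [ha, hb]
  have e1 : a.succ - 1 + b.succ = a + b + 1 := by omega
  have e2 : a.succ + (b.succ - 1) = a + b + 1 := by omega
  have e3 : b.succ - 1 = b := by omega
  have e4 : a.succ + b.succ = (a + b + 1) + 1 := by omega
  rw [e1, e2, e3, e4, Nat.succ_eq_add_one b, Nat.choose_succ_succ (a + b + 1) b, add_comm]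

theorem bin_left [Fintype σ] (α J : σ →₀ ℕ) (i : σ) (hα : α i ≠ 0) (hJ : J i = 0) :
    bin (α - Finsupp.single i 1 + J) J = bin (α + J) J := by
  classical
  unfold bin
  refine Finset.prod_congr rfl (fun k _ => ?_)
  by_cases hk : i = k
  · subst hk
    rw [hJ, Nat.choose_zero_right, Nat.choose_zero_right]
  · simp [Finsupp.single_apply, hk]

theorem bin_right [Fintype σ] (α J : σ →₀ ℕ) (i : σ) (hα : α i = 0) (hJ : J i ≠ 0) :
    bin (α + (J - Finsupp.single i 1)) (J - Finsupp.single i 1) = bin (α + J) J := by
  classical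
  unfold bin
  refine Finset.prod_congr rfl (fun k _ => ?_)
  by_cases hk : i = k
  · subst hk
    simp [hα]
  · simp [Finsupp.single_apply, hk]

theorem coeff_dd [Fintype σ] (J α : σ →₀ ℕ) (P : MvPolynomial σ R) :
    coeff α (dd J P) = (bin (α + J) J : R) * coeff (α + J) P := by
  classical
  induction P using MvPolynomial.induction_on generalizing α J with
  | C a =>
    rw [dd_C, coeff_C]
    by_cases hJ : J = 0
    · subst hJ
      rw [if_pos rfl, coeff_C, add_zero]
      by_cases h : 0 = α
      · rw [if_pos h, ← h]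
        simp [bin]
      · rw [if_neg h, mul_zero]
    · rw [if_neg hJ, coeff_zero, if_neg, mul_zero]
      intro h
      apply hJ
      have h2 := (add_eq_zero.1 h.symm).2
      exact h2
  | add p q hp hq => rw [dd_add, coeff_add, hp, hq, coeff_add, mul_add]
  | mul_X p i hp =>
    rw [dd_mul_X, coeff_add, coeff_mul_X', coeff_mul_X']
    by_cases hα : α i = 0
    · rw [if_neg (by simpa using hα), zero_add]
      by_cases hJ : J i = 0
      · rw [if_pos hJ, coeff_zero, if_neg (by simp [hα, hJ]), mul_zero]
      · have h1 : α + (J - Finsupp.single i 1) = α + J - Finsupp.single i 1 := by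
          ext k
          by_cases hk : i = k
          · subst hk
            simp
            omega
          · simp [hk]
        rw [if_neg hJ, if_pos (by simp [hJ]), hp, bin_right α J i hα hJ, h1]
    · by_cases hJ : J i = 0
      · have h1 : α - Finsupp.single i 1 + J = α + J - Finsupp.single i 1 := by
          ext k
          by_cases hk : i = k
          · subst hk
            simp
            omega
          · simp [hk]
        rw [if_pos (by simpa using hα), if_pos hJ, coeff_zero, add_zero, if_pos (by simp [hα]), hp,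
          bin_left α J i hα hJ, h1]
      · have h1 : α - Finsupp.single i 1 + J = α + J - Finsupp.single i 1 := by
          ext k
          by_cases hk : i = k
          · subst hk
            simp
            omega
          · simp [hk]
        have h2 : α + (J - Finsupp.single i 1) = α + J - Finsupp.single i 1 := by
          ext k
          by_cases hk : i = k
          · subst hk
            simp
            omega
          · simp [hk]
        rw [if_pos (by simpa using hα), if_neg hJ, if_pos (by simp [hα]), hp, hp,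
          ← bin_pascal α J i hα hJ, h1, h2]
        push_cast
        ring

/-- Leibniz for a product over `Fin k`, in the form in which it is used -/
theorem dd_prod_ne_zero {K : Type} [Field K] [Algebra R K] {k : ℕ} (J : σ →₀ ℕ)
    (f : Fin k → MvPolynomial σ R) (ξ : σ → K) (h : aeval ξ (dd J (∏ i, f i)) ≠ 0) :
    ∃ J' : Fin k → (σ →₀ ℕ), ∑ i, J' i = J ∧ ∀ i, aeval ξ (dd (J' i) (f i)) ≠ 0 := by
  classical
  induction k generalizing J with
  | zero =>
    refine ⟨fun i => 0, ?_, fun i => i.elim0⟩
    simp only [Finset.univ_eq_empty, Finset.prod_empty, Finset.sum_empty] at h ⊢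
    by_contra hJ
    apply h
    have h1 : (1 : MvPolynomial σ R) = C 1 := by simp
    rw [h1, dd_C, if_neg (fun h2 => hJ h2.symm), map_zero]
  | succ k ih =>
    rw [Fin.prod_univ_succ, dd_mul, map_sum] at h
    obtain ⟨p, hp, hne⟩ := Finset.exists_ne_zero_of_sum_ne_zero h
    rw [map_mul] at hne
    obtain ⟨J', hJ', hne'⟩ := ih p.2 (fun i => f i.succ) (right_ne_zero_of_mul hne)
    refine ⟨Fin.cons p.1 J', ?_, ?_⟩
    · rw [Fin.sum_univ_succ]
      simp only [Fin.cons_zero, Fin.cons_succ]
      rw [hJ']
      exact Finset.HasAntidiagonal.mem_antidiagonal.1 hp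
    · intro i
      refine Fin.cases ?_ (fun j => ?_) i
      · rw [Fin.cons_zero]
        exact left_ne_zero_of_mul hne
      · rw [Fin.cons_succ]
        exact hne' j

/-- composition -/
theorem dd_dd [Fintype σ] (I J : σ →₀ ℕ) (P : MvPolynomial σ R) :
    dd I (dd J P) = (bin (I + J) I : R) • dd (I + J) P := by
  ext α
  rw [coeff_smul, smul_eq_mul, coeff_dd, coeff_dd, coeff_dd, ← mul_assoc, ← mul_assoc, add_assoc]
  congr 1
  rw [← Nat.cast_mul, ← Nat.cast_mul]
  congr 1
  unfold bin
  rw [← Finset.prod_mul_distrib, ← Finset.prod_mul_distrib]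
  refine Finset.prod_congr rfl (fun k _ => ?_)
  simp only [Finsupp.coe_add, Pi.add_apply]
  have h := Nat.choose_mul (n := α k + (I k + J k)) (k := I k + J k) (s := J k) (by omega)
  have e1 : α k + (I k + J k) - J k = α k + I k := by omega
  have e2 : I k + J k - J k = I k := by omega
  rw [e1, e2] at h
  have h2 : (I k + J k).choose (J k) = (I k + J k).choose (I k) := by
    rw [← Nat.choose_symm (by omega : J k ≤ I k + J k), e2]
  rw [h2] at h
  rw [mul_comm, ← h, mul_comm]

theorem pderiv_dd [DecidableEq σ] (i : σ) (J : σ →₀ ℕ) (P : MvPolynomial σ R) :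
    pderiv i (dd J P) = ((J i + 1 : ℕ) : R) • dd (J + Finsupp.single i 1) P := by
  induction P using MvPolynomial.induction_on generalizing J with
  | C a =>
    rw [dd_C, dd_C, if_neg (c := J + Finsupp.single i 1 = 0), smul_zero]
    · split_ifs
      · exact pderiv_C
      · exact map_zero _
    · intro h
      have h1 := DFunLike.congr_fun h i
      simp at h1
  | add p q hp hq => rw [dd_add, map_add, hp, hq, dd_add, smul_add]
  | mul_X p j hp =>
    rw [dd_mul_X, dd_mul_X, map_add, Derivation.leibniz, hp, pderiv_X]
    by_cases hij : j = i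
    · subst hij
      have h1 : (J + Finsupp.single j 1 : σ →₀ ℕ) j ≠ 0 := by simp
      have h2 : J + Finsupp.single j 1 - Finsupp.single j 1 = J := by
        ext k
        simp
      rw [if_neg h1, h2, Pi.single_eq_same]
      by_cases hJ : J j = 0
      · rw [if_pos hJ, map_zero, hJ]
        simp only [smul_eq_mul, smul_eq_C_mul, zero_add, Nat.cast_one, map_one]
        ring
      · have h3 : J - Finsupp.single j 1 + Finsupp.single j 1 = J := by
          ext k
          by_cases hk : j = k
          · subst hk
            simp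
            omega
          · simp [hk]
        have h4 : (J - Finsupp.single j 1 : σ →₀ ℕ) j + 1 = J j := by
          simp
          omega
        rw [if_neg hJ, hp, h3, h4]
        simp only [smul_eq_mul, smul_eq_C_mul]
        push_cast
        simp only [map_natCast, map_add, map_one]
        ring
    · have hij' : ¬ i = j := fun h => hij h.symm
      rw [Pi.single_eq_of_ne hij]
      have h1 : (J + Finsupp.single i 1 : σ →₀ ℕ) j = J j := by
        simp [Finsupp.single_apply, hij']
      rw [h1]
      by_cases hJ : J j = 0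
      · rw [if_pos hJ, if_pos hJ, map_zero]
        simp only [smul_eq_mul, smul_eq_C_mul]
        ring
      · have h3 : J - Finsupp.single j 1 + Finsupp.single i 1 =
            J + Finsupp.single i 1 - Finsupp.single j 1 := by
          ext k
          by_cases hk : j = k
          · subst hk
            simp [Finsupp.single_apply, hij']
          · simp [Finsupp.single_apply, hk]
        have h4 : (J - Finsupp.single j 1 : σ →₀ ℕ) i = J i := by
          simp [Finsupp.single_apply, hij]
        rw [if_neg hJ, if_neg hJ, hp, h3, h4]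
        simp only [smul_eq_mul, smul_eq_C_mul]
        ring

theorem dd_map (f : R →+* S) (J : σ →₀ ℕ) (P : MvPolynomial σ R) :
    dd J (map f P) = map f (dd J P) := by
  classical
  induction P using MvPolynomial.induction_on generalizing J with
  | C a =>
    rw [map_C, dd_C, dd_C]
    split_ifs
    · rw [map_C]
    · rw [map_zero]
  | add p q hp hq => rw [map_add, dd_add, dd_add, map_add, hp, hq]
  | mul_X p i hp =>
    rw [map_mul, map_X, dd_mul_X, dd_mul_X, map_add, map_mul, map_X, hp]
    split_ifs
    · rw [map_zero]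
    · rw [hp]

theorem dd_rename_equiv (e : σ ≃ τ) (J : σ →₀ ℕ) (P : MvPolynomial σ R) :
    dd (J.mapDomain e) (rename e P) = rename e (dd J P) := by
  classical
  induction P using MvPolynomial.induction_on generalizing J with
  | C a =>
    rw [rename_C, dd_C, dd_C]
    by_cases hJ : J = 0
    · subst hJ
      rw [Finsupp.mapDomain_zero, if_pos rfl, if_pos rfl, rename_C]
    · rw [if_neg hJ, if_neg, map_zero]
      intro h
      apply hJ
      ext k
      have h1 := DFunLike.congr_fun h (e k)
      rw [Finsupp.mapDomain_equiv_apply] at h1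
      simpa using h1
  | add p q hp hq => rw [map_add, dd_add, dd_add, map_add, hp, hq]
  | mul_X p i hp =>
    have h1 : (J.mapDomain e) (e i) = J i := by
      rw [Finsupp.mapDomain_equiv_apply]
      simp
    have h2 : J.mapDomain e - Finsupp.single (e i) 1 = (J - Finsupp.single i 1).mapDomain e := by
      ext k
      rw [Finsupp.mapDomain_equiv_apply, Finsupp.tsub_apply, Finsupp.tsub_apply,
        Finsupp.mapDomain_equiv_apply]
      congr 1
      rw [Finsupp.single_apply, Finsupp.single_apply]
      by_cases hk : i = e.symm k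
      · rw [if_pos hk, if_pos]
        rw [hk]
        simp
      · rw [if_neg hk, if_neg]
        intro h3
        apply hk
        rw [← h3]
        simp
    rw [map_mul, rename_X, dd_mul_X, dd_mul_X, map_add, map_mul, rename_X, hp, h1, h2, hp]
    split_ifs
    · rw [map_zero]
    · rfl

theorem dd_inr (J : σ →₀ ℕ) (J' : τ →₀ ℕ) (g : MvPolynomial τ R) [Decidable (J = 0)] :
    dd (Finsupp.sumElim J J') (rename Sum.inr g : MvPolynomial (σ ⊕ τ) R) =
      if J = 0 then rename Sum.inr (dd J' g) else 0 := by
  classical
  induction g using MvPolynomial.induction_on generalizing J' with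
  | C a =>
    rw [rename_C, dd_C, dd_C]
    by_cases hJ : J = 0
    · subst hJ
      by_cases hJ' : J' = 0
      · subst hJ'
        have h0 : Finsupp.sumElim (0 : σ →₀ ℕ) (0 : τ →₀ ℕ) = 0 := by
          ext k
          rcases k with k | k <;> simp
        rw [if_pos h0, if_pos rfl, if_pos rfl, rename_C]
      · have h0 : ¬ Finsupp.sumElim (0 : σ →₀ ℕ) J' = 0 := by
          intro h
          apply hJ'
          ext k
          have h1 := DFunLike.congr_fun h (Sum.inr k)
          simpa using h1
        rw [if_neg h0, if_pos rfl, if_neg hJ', map_zero]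
    · have h0 : ¬ Finsupp.sumElim J J' = 0 := by
        intro h
        apply hJ
        ext k
        have h1 := DFunLike.congr_fun h (Sum.inl k)
        simpa using h1
      rw [if_neg h0, if_neg hJ]
  | add p q hp hq =>
    rw [map_add, dd_add, dd_add, hp, hq, map_add]
    split_ifs
    · rfl
    · rw [add_zero]
  | mul_X p i hp =>
    have h1 : (Finsupp.sumElim J J') (Sum.inr i) = J' i := by simp
    have h2 : Finsupp.sumElim J J' - Finsupp.single (Sum.inr i) 1 =
        Finsupp.sumElim J (J' - Finsupp.single i 1) := by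
      ext k
      rcases k with k | k
      · simp [Finsupp.single_apply]
      · simp [Finsupp.single_apply]
    rw [map_mul, rename_X, dd_mul_X, dd_mul_X, hp, h1, h2, hp]
    by_cases hJ : J = 0
    · rw [if_pos hJ, if_pos hJ, if_pos hJ, map_add, map_mul, rename_X]
      split_ifs
      · rw [map_zero]
      · rfl
    · rw [if_neg hJ, if_neg hJ, if_neg hJ]
      simp

theorem dd_sum_mul (J : σ →₀ ℕ) (J' : τ →₀ ℕ) (f : MvPolynomial σ R) (g : MvPolynomial τ R) :
    dd (Finsupp.sumElim J J') (rename Sum.inl f * rename Sum.inr g : MvPolynomial (σ ⊕ τ) R) =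
      rename Sum.inl (dd J f) * rename Sum.inr (dd J' g) := by
  classical
  induction f using MvPolynomial.induction_on generalizing J with
  | C a =>
    rw [rename_C, dd_C_mul, dd_inr, dd_C]
    split_ifs
    · rw [rename_C]
    · rw [map_zero, mul_zero, zero_mul]
  | add p q hp hq => rw [map_add, add_mul, dd_add, hp, hq, dd_add, map_add, add_mul]
  | mul_X p i hp =>
    have h1 : (Finsupp.sumElim J J') (Sum.inl i) = J i := by simp
    have h2 : Finsupp.sumElim J J' - Finsupp.single (Sum.inl i) 1 =
        Finsupp.sumElim (J - Finsupp.single i 1) J' := by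
      ext k
      rcases k with k | k
      · simp [Finsupp.single_apply]
      · simp [Finsupp.single_apply]
    have e : (rename Sum.inl (p * X i) * rename Sum.inr g : MvPolynomial (σ ⊕ τ) R) =
        (rename Sum.inl p * rename Sum.inr g) * X (Sum.inl i) := by
      rw [map_mul, rename_X]
      ring
    rw [e, dd_mul_X, hp, h1, h2, hp, dd_mul_X, map_add, map_mul, rename_X]
    split_ifs
    · rw [map_zero]
      ring
    · ring

theorem degreeOf_dd_monomial (i : σ) (s : σ →₀ ℕ) (a : R) :
    ∀ J : σ →₀ ℕ, degreeOf i (dd J (monomial s a)) ≤ degreeOf i (monomial s a) := by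
  classical
  refine MvPolynomial.induction_on_monomial (motive := fun p => ∀ J : σ →₀ ℕ,
    degreeOf i (dd J p) ≤ degreeOf i p) ?_ ?_ s a
  · intro a J
    rw [dd_C]
    split_ifs
    · exact le_rfl
    · rw [degreeOf_zero]
      exact Nat.zero_le _
  · intro p n hp J
    by_cases hp0 : p = 0
    · subst hp0
      rw [zero_mul, dd_zero]
    rw [dd_mul_X]
    refine (degreeOf_add_le _ _ _).trans (max_le ?_ ?_)
    · by_cases hin : i = n
      · subst hin
        refine (degreeOf_mul_X_self _ _).trans ?_
        rw [(degreeOf_mul_X_eq_degreeOf_add_one_iff i p).2 hp0]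
        exact Nat.add_le_add_right (hp J) 1
      · rw [degreeOf_mul_X_of_ne _ hin, degreeOf_mul_X_of_ne _ hin]
        exact hp J
    · split_ifs
      · rw [degreeOf_zero]
        exact Nat.zero_le _
      · refine (hp _).trans ?_
        by_cases hin : i = n
        · subst hin
          rw [(degreeOf_mul_X_eq_degreeOf_add_one_iff i p).2 hp0]
          exact Nat.le_succ _
        · rw [degreeOf_mul_X_of_ne _ hin]

theorem degreeOf_dd_le (i : σ) (J : σ →₀ ℕ) (P : MvPolynomial σ R) :
    degreeOf i (dd J P) ≤ degreeOf i P := by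
  classical
  conv_lhs => rw [P.as_sum]
  rw [dd_sum]
  refine (degreeOf_sum_le i _ _).trans ?_
  refine Finset.sup_le (fun s hs => ?_)
  refine (degreeOf_dd_monomial i s _ J).trans ?_
  rw [degreeOf_monomial_eq s i (mem_support_iff.1 hs)]
  exact monomial_le_degreeOf i hs

/-- evaluation of a divided derivative = coefficient of `P(ξ + Y)` -/
theorem aeval_dd {K : Type} [CommRing K] [Algebra R K] (ξ : σ → K) (J : σ →₀ ℕ)
    (P : MvPolynomial σ R) :
    aeval ξ (dd J P) =
      coeff J (aeval (fun i => (C (ξ i) + X i : MvPolynomial σ K)) P : MvPolynomial σ K) := by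
  classical
  induction P using MvPolynomial.induction_on generalizing J with
  | C a =>
    rw [dd_C, aeval_C]
    have h : (algebraMap R (MvPolynomial σ K)) a = C (algebraMap R K a) := rfl
    rw [h, coeff_C]
    by_cases hJ : J = 0
    · rw [if_pos hJ, if_pos hJ.symm, aeval_C]
    · rw [if_neg hJ, if_neg (fun h => hJ h.symm), map_zero]
  | add p q hp hq => rw [dd_add, map_add, map_add, coeff_add, hp, hq]
  | mul_X p i hp =>
    rw [dd_mul_X, map_add, map_mul, aeval_X, map_mul, aeval_X, mul_add, coeff_add, coeff_mul_X',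
      mul_comm _ (C (ξ i)), coeff_C_mul, hp, mul_comm (ξ i)]
    congr 1
    by_cases hJ : J i = 0
    · rw [if_pos hJ, map_zero, if_neg (by simpa using hJ)]
    · rw [if_neg hJ, hp, if_pos (by simpa using hJ)]

end Pool.Agent.Lib.MP_d0e829_nt.SS
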