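import Pool.Agent.Lib.MP_d0e829_nt.SS.SpecR
import Pool.Agent.Lib.MP_d0e829_nt.SS.RDER

/-!
# Module RALG: from a point to hyperplanes, the algebra
-/

set_option autoImplicit false

open MvPolynomial

namespace Pool.Agent.Lib.MP_d0e829_nt.SS

namespace RALGM

section mono

variable {σ R : Type} [CommRing R] [Fintype σ]

theorem bin_eq_zero {α J : σ →₀ ℕ} (h : ¬ J ≤ α) : bin α J = 0 := by
  rw [Finsupp.le_def] at h
  push Not at h
  obtain ⟨i, hi⟩ := h
  exact Finset.prod_eq_zero (Finset.mem_univ i) (Nat.choose_eq_zero_of_lt hi)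

theorem dd_monomial (J α : σ →₀ ℕ) (c : R) :
    dd J (monomial α c) = monomial (α - J) ((bin α J : R) * c) := by
  classical
  ext γ
  rw [coeff_dd, coeff_monomial, coeff_monomial]
  by_cases hJ : J ≤ α
  · by_cases h : α = γ + J
    · subst h
      simp
    · have h2 : ¬ α - J = γ := by
        intro h3
        apply h
        rw [← h3, tsub_add_cancel_of_le hJ]
      rw [if_neg h, if_neg h2, mul_zero]
  · have h : ¬ α = γ + J := by
      intro h3
      exact hJ (h3 ▸ le_add_self)
    rw [if_neg h, mul_zero, bin_eq_zero hJ]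
    split_ifs <;> simp

end mono

variable {m N : ℕ} (i₀ i₁ : Fin m → Fin N)

/-- the exponents at `i₀` -/
noncomputable def xe (α : Fin m × Fin N →₀ ℕ) : Fin m →₀ ℕ :=
  Finsupp.equivFunOnFinite.symm fun h => α (h, i₀ h)

/-- the exponents off `i₀`, `i₁` -/
noncomputable def te (α : Fin m × Fin N →₀ ℕ) : Fin m × Fin N →₀ ℕ :=
  Finsupp.equivFunOnFinite.symm fun q => if q.2 = i₀ q.1 ∨ q.2 = i₁ q.1 then 0 else α q

/-- multi-order at `i₀` -/
noncomputable def je (I : Fin m →₀ ℕ) : Fin m × Fin N →₀ ℕ :=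
  Finsupp.equivFunOnFinite.symm fun q => if q.2 = i₀ q.1 then I q.1 else 0

theorem xe_apply (α : Fin m × Fin N →₀ ℕ) (h : Fin m) : xe i₀ α h = α (h, i₀ h) := rfl

theorem te_apply (α : Fin m × Fin N →₀ ℕ) (q : Fin m × Fin N) :
    te i₀ i₁ α q = if q.2 = i₀ q.1 ∨ q.2 = i₁ q.1 then 0 else α q := rfl

theorem je_apply (I : Fin m →₀ ℕ) (q : Fin m × Fin N) :
    je (N := N) i₀ I q = if q.2 = i₀ q.1 then I q.1 else 0 := rfl

variable {i₀ i₁}

theorem inj {d : Fin m → ℕ} {P : MvPolynomial (Fin m × Fin N) ℤ} (hBH : BH P d)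
    {α α' : Fin m × Fin N →₀ ℕ} (hα : α ∈ P.support) (hα' : α' ∈ P.support)
    (hx : xe i₀ α = xe i₀ α') (ht : te i₀ i₁ α = te i₀ i₁ α') : α = α' := by
  have hoff : ∀ h i, i ≠ i₁ h → α (h, i) = α' (h, i) := by
    intro h i hi
    by_cases h0 : i = i₀ h
    · subst h0
      exact DFunLike.congr_fun hx h
    · have := DFunLike.congr_fun ht (h, i)
      rw [te_apply, te_apply] at this
      simpa [h0, hi] using this
  ext ⟨h, i⟩
  by_cases hi : i = i₁ h
  · subst hi
    have h1 := hBH α hα h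
    have h2 := hBH α' hα' h
    rw [← Finset.add_sum_erase _ _ (Finset.mem_univ (i₁ h))] at h1 h2
    have h3 : ∑ x ∈ Finset.univ.erase (i₁ h), α (h, x) =
        ∑ x ∈ Finset.univ.erase (i₁ h), α' (h, x) :=
      Finset.sum_congr rfl fun x hx => hoff h x (Finset.ne_of_mem_erase hx)
    omega
  · exact hoff h i hi

theorem bin_je (α : Fin m × Fin N →₀ ℕ) (I : Fin m →₀ ℕ) :
    bin α (je i₀ I) = bin (xe i₀ α) I := by
  unfold bin
  rw [Fintype.prod_prod_type]
  refine Finset.prod_congr rfl fun h _ => ?_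
  rw [Finset.prod_eq_single (i₀ h)]
  · rw [je_apply, xe_apply]; simp
  · intro i _ hi
    rw [je_apply]
    simp [hi]
  · intro h'; exact absurd (Finset.mem_univ _) h'

variable {K : Type} [Field K]

/-- the linear form `ℓ_h` -/
noncomputable def ell (i₀ i₁ : Fin m → Fin N) (a : Fin m → Fin N → K) (h : Fin m) :
    MvPolynomial (Fin m × Fin N) K :=
  -∑ i, if i = i₀ h ∨ i = i₁ h then 0 else C (a h i / a h (i₀ h)) * X (h, i)

/-- the coordinate at `i₀` -/
noncomputable def yy (i₀ i₁ : Fin m → Fin N) (a : Fin m → Fin N → K) (h : Fin m) :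
    MvPolynomial (Fin m × Fin N) K :=
  C (-(a h (i₁ h) / a h (i₀ h))) + ell i₀ i₁ a h

/-- the generic point -/
noncomputable def pt (i₀ i₁ : Fin m → Fin N) (a : Fin m → Fin N → K) (q : Fin m × Fin N) :
    MvPolynomial (Fin m × Fin N) K :=
  if q.2 = i₀ q.1 then yy i₀ i₁ a q.1 else if q.2 = i₁ q.1 then 1 else X q

theorem constantCoeff_ell (a : Fin m → Fin N → K) (h : Fin m) :
    constantCoeff (ell i₀ i₁ a h) = 0 := by
  unfold ell
  rw [map_neg, map_sum, neg_eq_zero]
  refine Finset.sum_eq_zero fun i _ => ?_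
  split_ifs <;> simp

theorem constantCoeff_yy (a : Fin m → Fin N → K) (h : Fin m) :
    constantCoeff (yy i₀ i₁ a h) = -(a h (i₁ h) / a h (i₀ h)) := by
  unfold yy
  rw [map_add, constantCoeff_ell, add_zero, constantCoeff_C]

/-- The monomials at the generic point. -/
theorem prod_pt (a : Fin m → Fin N → K) (α : Fin m × Fin N →₀ ℕ) (I : Fin m →₀ ℕ) :
    ∏ q, pt i₀ i₁ a q ^ ((α - je i₀ I) q) =
      (∏ h, yy i₀ i₁ a h ^ ((xe i₀ α - I) h)) * monomial (te i₀ i₁ α) 1 := by
  have h1 : ∀ q, pt i₀ i₁ a q ^ ((α - je i₀ I) q) =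
      (if q.2 = i₀ q.1 then yy i₀ i₁ a q.1 ^ ((xe i₀ α - I) q.1) else 1) *
        X q ^ (te i₀ i₁ α q) := by
    rintro ⟨h, i⟩
    rw [te_apply, pt, Finsupp.tsub_apply, je_apply]
    by_cases h0 : i = i₀ h
    · subst h0
      simp [xe_apply]
    · by_cases h2 : i = i₁ h
      · have h3 : i₁ h ≠ i₀ h := fun h3 => h0 (h2.trans h3)
        simp [h2, h3]
      · simp [h0, h2]
  rw [Finset.prod_congr rfl fun q _ => h1 q, Finset.prod_mul_distrib]
  congr 1
  · rw [Fintype.prod_prod_type]
    refine Finset.prod_congr rfl fun h _ => ?_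
    rw [Finset.prod_eq_single (i₀ h)]
    · simp
    · intro i _ hi
      simp [hi]
    · intro h'; exact absurd (Finset.mem_univ _) h'
  · rw [monomial_eq, C_1, one_mul, Finsupp.prod_fintype]
    intro q; exact pow_zero _

end RALGM

open RALGM

theorem specRALG : SpecRALG := by
  classical
  intro K _ _ m N d P a i₀ i₁ hP hBH hne ha
  -- minimal `β`
  have hS : (P.support.image (te i₀ i₁)).Nonempty := by
    rw [Finset.image_nonempty]
    rwa [Finset.nonempty_iff_ne_empty, Ne, support_eq_empty]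
  obtain ⟨β, hβ, hmin⟩ := (P.support.image (te i₀ i₁)).exists_minimal hS
  obtain ⟨α₀, hα₀, hα₀β⟩ := Finset.mem_image.mp hβ
  have hmin' : ∀ α ∈ P.support, te i₀ i₁ α ≤ β → te i₀ i₁ α = β := by
    intro α hα hle
    exact le_antisymm hle (hmin (Finset.mem_image_of_mem _ hα) hle)
  set Fb := P.support.filter fun α => te i₀ i₁ α = β with hFb
  set p : MvPolynomial (Fin m) ℤ := ∑ α ∈ Fb, monomial (xe i₀ α) (coeff α P) with hp
  have hcoeff : ∀ α ∈ Fb, coeff (xe i₀ α) p = coeff α P := by
    intro α hα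
    rw [hp, coeff_sum, Finset.sum_eq_single α]
    · rw [coeff_monomial, if_pos rfl]
    · intro α' hα' hne'
      rw [coeff_monomial, if_neg]
      intro hx
      rw [hFb, Finset.mem_filter] at hα hα'
      exact hne' (inj hBH hα'.1 hα.1 hx (hα'.2.trans hα.2.symm))
    · intro h; exact absurd hα h
  have hcoeff0 : ∀ J, (∀ α ∈ Fb, xe i₀ α ≠ J) → coeff J p = 0 := by
    intro J hJ
    rw [hp, coeff_sum]
    refine Finset.sum_eq_zero fun α hα => ?_
    rw [coeff_monomial, if_neg (hJ α hα)]
  have hα₀F : α₀ ∈ Fb := by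
    rw [hFb, Finset.mem_filter]; exact ⟨hα₀, hα₀β⟩
  have hcases : ∀ J, coeff J p = 0 ∨ ∃ α ∈ Fb, xe i₀ α = J := by
    intro J
    by_cases h : ∃ α ∈ Fb, xe i₀ α = J
    · exact Or.inr h
    · push Not at h
      exact Or.inl (hcoeff0 J h)
  refine ⟨p, ?_, ?_, ?_, ?_⟩
  · intro h0
    have := hcoeff α₀ hα₀F
    rw [h0, coeff_zero] at this
    exact (mem_support_iff.mp hα₀) this.symm
  · intro h
    rw [degreeOf_le_iff]
    intro J hJ
    rcases hcases J with h0 | ⟨α, hα, rfl⟩
    · exact absurd h0 (mem_support_iff.mp hJ)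
    · rw [xe_apply]
      rw [hFb, Finset.mem_filter] at hα
      rw [← hBH α hα.1 h]
      exact Finset.single_le_sum (f := fun i => α (h, i)) (fun _ _ => Nat.zero_le _)
        (Finset.mem_univ (i₀ h))
  · intro J
    rcases hcases J with h0 | ⟨α, hα, rfl⟩
    · exact Or.inl h0
    · exact Or.inr ⟨α, hcoeff α hα⟩
  · intro I hI
    -- the polynomial F
    set F : MvPolynomial (Fin m × Fin N) K := aeval (pt i₀ i₁ a) (dd (je i₀ I) P) with hF
    have hFsum : F = ∑ α ∈ P.support,
        (C ((coeff α P : ℤ) : K) * C ((bin (xe i₀ α) I : ℕ) : K) *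
          ∏ h, yy i₀ i₁ a h ^ ((xe i₀ α - I) h)) * monomial (te i₀ i₁ α) 1 := by
      rw [hF]
      conv_lhs => rw [P.as_sum]
      rw [dd_sum, map_sum]
      refine Finset.sum_congr rfl fun α _ => ?_
      rw [dd_monomial, aeval_monomial, Finsupp.prod_fintype _ _ (fun _ => pow_zero _), prod_pt,
        bin_je, ← mul_assoc]
      congr 2
      simp [mul_comm]
    have hcF : coeff β F = ∑ α ∈ Fb, ((coeff α P : ℤ) : K) * ((bin (xe i₀ α) I : ℕ) : K) *
          ∏ h, (-(a h (i₁ h) / a h (i₀ h))) ^ ((xe i₀ α - I) h) := by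
      rw [hFsum, coeff_sum, hFb, Finset.sum_filter]
      refine Finset.sum_congr rfl fun α hα => ?_
      rw [coeff_mul_monomial', mul_one]
      by_cases h : te i₀ i₁ α = β
      · rw [if_pos h, if_pos h.le, h, tsub_self, ← constantCoeff_eq]
        simp only [map_mul, map_prod, map_pow, constantCoeff_yy, constantCoeff_C]
      · rw [if_neg h, if_neg]
        intro hle
        exact h (hmin' α hα hle)
    have hcI : aeval (fun h => -(a h (i₁ h) / a h (i₀ h))) (dd I p) = coeff β F := by
      rw [hcF, hp, dd_sum, map_sum]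
      refine Finset.sum_congr rfl fun α _ => ?_
      rw [dd_monomial, aeval_monomial, Finsupp.prod_fintype _ _ (fun _ => pow_zero _)]
      congr 1
      simp [mul_comm]
    have hF0 : F ≠ 0 := by
      intro h0
      apply hI
      rw [hcI, h0, coeff_zero]
    obtain ⟨s, hs⟩ : ∃ s : Fin m × Fin N → K, eval s F ≠ 0 := by
      by_contra hcon
      push Not at hcon
      exact hF0 (MvPolynomial.funext fun s => by rw [hcon s, map_zero])
    refine ⟨je i₀ I, fun q => eval s (pt i₀ i₁ a q), ?_, ?_, ?_⟩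
    · intro h
      rw [Finset.sum_eq_single (i₀ h)]
      · rw [je_apply]; simp
      · intro i _ hi
        rw [je_apply]; simp [hi]
      · intro h'; exact absurd (Finset.mem_univ _) h'
    · intro h
      have key : ∀ i, a h i * eval s (pt i₀ i₁ a (h, i)) =
          (if i = i₀ h then a h (i₀ h) * eval s (yy i₀ i₁ a h) else 0) +
          (if i = i₁ h then a h (i₁ h) else 0) +
          (if i = i₀ h ∨ i = i₁ h then 0 else a h i * s (h, i)) := by
        intro i
        rw [pt]
        by_cases h0 : i = i₀ h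
        · subst h0
          simp [hne h]
        · by_cases h1 : i = i₁ h
          · subst h1
            simp [h0]
          · simp [h0, h1]
      rw [Finset.sum_congr rfl fun i _ => key i, Finset.sum_add_distrib, Finset.sum_add_distrib,
        Finset.sum_ite_eq' , Finset.sum_ite_eq', if_pos (Finset.mem_univ _),
        if_pos (Finset.mem_univ _), yy, ell]
      simp only [map_add, map_neg, map_sum, eval_C]
      have h5 : ∀ i, eval s (if i = i₀ h ∨ i = i₁ h then (0 : MvPolynomial (Fin m × Fin N) K)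
          else C (a h i / a h (i₀ h)) * X (h, i)) =
          (if i = i₀ h ∨ i = i₁ h then 0 else a h i * s (h, i)) * (a h (i₀ h))⁻¹ := by
        intro i
        split_ifs
        · simp
        · simp only [map_mul, eval_C, eval_X]
          ring
      rw [Finset.sum_congr rfl fun i _ => h5 i, ← Finset.sum_mul]
      have := ha h
      field_simp
      ring
    · have h6 : (tay P fun q => eval s (pt i₀ i₁ a q)).coeff (je i₀ I) =
          aeval (fun q => eval s (pt i₀ i₁ a q)) (dd (je i₀ I) P) := (aeval_dd _ _ _).symm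
      rw [h6]
      have h7 : aeval (fun q => eval s (pt i₀ i₁ a q)) (dd (je i₀ I) P) = eval s F := by
        rw [hF]
        exact (MvPolynomial.comp_aeval_apply (R := ℤ) (pt i₀ i₁ a)
          ((aeval s : MvPolynomial (Fin m × Fin N) K →ₐ[K] K).restrictScalars ℤ)
          (dd (je i₀ I) P)).symm
      rw [h7]
      exact hs

end Pool.Agent.Lib.MP_d0e829_nt.SS
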