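import Pool.Agent.Lib.MP_d0e829_nt.SS.SpecR
import Pool.Agent.Lib.MP_d0e829_nt.SS.RDER

set_option autoImplicit false

open MvPolynomial

namespace Pool.Agent.Lib.MP_d0e829_nt.SS

namespace RANNM

variable {σ : Type} [Fintype σ]

omit [Fintype σ] in
theorem pderiv_eq [DecidableEq σ] (s : σ) (p : MvPolynomial σ ℚ) :
    pderiv s p = dd (Finsupp.single s 1) p := by
  have h := pderiv_dd s 0 p
  rw [dd_zero_idx, zero_add] at h
  rw [h]
  simp

theorem bin_pos (α J : σ →₀ ℕ) (h : ∀ i, J i ≤ α i) : bin α J ≠ 0 := by
  unfold bin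
  rw [Finset.prod_ne_zero_iff]
  intro i _
  exact (Nat.choose_pos (h i)).ne'

theorem sum_add_single [DecidableEq σ] (m : σ →₀ ℕ) (s : σ) :
    ∑ i, (m + Finsupp.single s 1 : σ →₀ ℕ) i = (∑ i, m i) + 1 := by
  simp [Finset.sum_add_distrib, Finsupp.single_apply]

theorem const_zero {k : ℕ} (f : Fin k → MvPolynomial σ ℚ) (r : ℕ) (hf : LinearIndependent ℚ f)
    (a : Fin k → MvPolynomial σ ℚ) (ha : a ∈ annR f r)
    (hc : ∀ j m, m ≠ 0 → coeff m (a j) = 0) : a = 0 := by
  classical
  have h1 : ∀ j, a j = C (coeff 0 (a j)) := by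
    intro j
    ext m
    rw [coeff_C]
    by_cases hm : m = 0
    · subst hm
      rw [if_pos rfl]
    · rw [if_neg (fun h => hm h.symm)]
      exact hc j m hm
  have h2 := ha 0 (by simp)
  simp only [dd_zero_idx] at h2
  have h3 : ∑ j, coeff 0 (a j) • f j = 0 := by
    rw [← h2]
    refine Finset.sum_congr rfl fun j _ => ?_
    rw [smul_eq_C_mul, ← h1 j]
  have h4 := Fintype.linearIndependent_iff.mp hf (fun j => coeff 0 (a j)) h3
  funext j
  rw [h1 j, h4 j, C_0]
  rfl

theorem stable {k : ℕ} (f : Fin k → MvPolynomial σ ℚ) (r : ℕ)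
    (h : annR f r ⊆ annR f (r + 1)) (a : Fin k → MvPolynomial σ ℚ) (ha : a ∈ annR f r) (s : σ) :
    (fun j => dd (Finsupp.single s 1) (a j)) ∈ annR f r := by
  classical
  intro μ hμ
  have h1 := ha μ hμ
  have h2 := h ha (μ + Finsupp.single s 1) (by
    rw [sum_add_single]
    omega)
  have h3 := congrArg (pderiv s) h1
  rw [map_sum, map_zero] at h3
  have h4 : ∀ j, pderiv s (a j * dd μ (f j)) =
      C (((μ s + 1 : ℕ) : ℚ)) * (a j * dd (μ + Finsupp.single s 1) (f j)) +
        dd (Finsupp.single s 1) (a j) * dd μ (f j) := by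
    intro j
    rw [Derivation.leibniz, pderiv_dd, pderiv_eq, smul_eq_C_mul]
    simp only [smul_eq_mul]
    ring
  rw [Finset.sum_congr rfl (fun j _ => h4 j), Finset.sum_add_distrib, ← Finset.mul_sum, h2,
    mul_zero, zero_add] at h3
  exact h3

end RANNM

theorem specRANN : SpecRANN := by
  classical
  intro σ _ k f r hf h
  have key : ∀ n : ℕ, ∀ a ∈ annR f r, (∀ j m, coeff m (a j) ≠ 0 → ∑ i, m i ≤ n) → a = 0 := by
    intro n
    induction n with
    | zero =>
      intro a ha hn
      refine RANNM.const_zero f r hf a ha ?_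
      intro j m hm
      by_contra h1
      have h2 := hn j m h1
      apply hm
      ext i
      have h3 : m i ≤ ∑ i, m i := Finset.single_le_sum (fun _ _ => Nat.zero_le _)
        (Finset.mem_univ i)
      show m i = 0
      omega
    | succ n ih =>
      intro a ha hn
      have h1 : ∀ s, (fun j => dd (Finsupp.single s 1) (a j)) = 0 := by
        intro s
        refine ih _ (RANNM.stable f r h a ha s) ?_
        intro j m hm
        have h2 : coeff m (dd (Finsupp.single s 1) (a j)) ≠ 0 := hm
        rw [coeff_dd] at h2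
        have h3 := hn j _ (right_ne_zero_of_mul h2)
        rw [RANNM.sum_add_single] at h3
        omega
      refine RANNM.const_zero f r hf a ha ?_
      intro j m hm
      by_contra hne
      obtain ⟨s, hs⟩ := Finsupp.ne_iff.mp hm
      have hs' : m s ≠ 0 := hs
      have h2 : dd (Finsupp.single s 1) (a j) = 0 := congrFun (h1 s) j
      have h3 : m - Finsupp.single s 1 + Finsupp.single s 1 = m := by
        ext i
        by_cases hi : s = i
        · subst hi
          simp
          omega
        · simp [hi]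
      have h4 := coeff_dd (Finsupp.single s 1) (m - Finsupp.single s 1) (a j)
      rw [h2, coeff_zero, h3] at h4
      have h5 : bin m (Finsupp.single s 1) ≠ 0 := by
        refine RANNM.bin_pos _ _ ?_
        intro i
        by_cases hi : s = i
        · subst hi
          simp
          omega
        · simp [hi]
      rcases mul_eq_zero.mp h4.symm with h6 | h6
      · exact h5 (by exact_mod_cast h6)
      · exact hne h6
  intro a ha
  refine key (∑ j, totalDegree (a j)) a ha ?_
  intro j m hm
  have h1 := le_totalDegree (mem_support_iff.mpr hm)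
  rw [Finsupp.sum_fintype _ _ (fun _ => rfl)] at h1
  refine h1.trans ?_
  exact Finset.single_le_sum (f := fun j => totalDegree (a j)) (fun _ _ => Nat.zero_le _)
    (Finset.mem_univ j)

end Pool.Agent.Lib.MP_d0e829_nt.SS
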