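import Pool.Agent.Lib.MP_d0e829_nt.SS.SpecR
import Pool.Agent.Lib.MP_d0e829_nt.SS.RDER

/-!
# Roth's lemma, module RBAS: one variable
-/

set_option autoImplicit false

open MvPolynomial

namespace Pool.Agent.Lib.MP_d0e829_nt.SS

namespace RBASM

variable {K : Type} [Field K]

theorem taylor_eq (ξ : K) (P : MvPolynomial Unit ℤ) :
    uniqueAlgEquiv K Unit
      (aeval (fun _ : Unit => (C ξ + X () : MvPolynomial Unit K)) P : MvPolynomial Unit K) =
    ((uniqueAlgEquiv ℤ Unit P).map (Int.castRingHom K)).comp (Polynomial.X + Polynomial.C ξ) := by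
  induction P using MvPolynomial.induction_on with
  | C a => simp
  | add p q hp hq =>
    rw [map_add, map_add, hp, hq, map_add, Polynomial.map_add, Polynomial.add_comp]
  | mul_X p i hp =>
    rw [map_mul, map_mul, hp, map_mul, Polynomial.map_mul, Polynomial.mul_comp]
    congr 1
    simp [uniqueAlgEquiv_apply, add_comm]

variable [NumberField K]

theorem log_max_support (ξ : K) :
    (Function.support fun w : Place K => Real.log (max 1 (absV w ξ))).Finite := by
  by_cases h : ξ = 0
  · subst h
    convert Set.finite_empty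
    rw [Function.support_eq_empty_iff]
    funext w
    simp
  · refine (support_log_absV_finite h).subset ?_
    intro w hw hcon
    apply hw
    have h1 : Real.log (absV w ξ) = 0 := hcon
    have h2 : absV w ξ = 1 := Real.eq_one_of_pos_of_log_eq_zero (absV_pos w h) h1
    simp [h2]

theorem log_four : Real.log 4 ≤ 2 := by
  have h1 : (4 : ℝ) = 2 ^ (2 : ℕ) := by norm_num
  have h2 : Real.log 2 ≤ 1 := by
    have := Real.log_le_sub_one_of_pos (show (0 : ℝ) < 2 by norm_num)
    linarith
  rw [h1, Real.log_pow]
  push_cast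
  linarith

end RBASM

theorem specRBAS (hRGAU : SpecRGAU) : SpecRBAS := by
  intro K _ _ d A ε ξ hd hA hε hlt P hP hdeg hco
  by_contra hcon
  push Not at hcon
  have hd0 : (0 : ℝ) < d := by exact_mod_cast hd
  set p : Polynomial ℤ := uniqueAlgEquiv ℤ Unit P with hp
  have hp0 : p ≠ 0 := by
    rw [hp]
    intro h
    apply hP
    have := (uniqueAlgEquiv ℤ Unit).injective (h.trans (map_zero _).symm)
    exact this
  have hpc : ∀ n, p.coeff n = coeff (Finsupp.single () n) P := by
    intro n
    rw [hp, coeff_uniqueAlgEquiv]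
  have hpd : p.natDegree ≤ d := by
    rw [Polynomial.natDegree_le_iff_coeff_eq_zero]
    intro N hN
    rw [hpc]
    by_contra h
    have h1 := monomial_le_degreeOf () (mem_support_iff.mpr h)
    have h2 : degreeOf () P ≤ d := hdeg ()
    rw [Finsupp.single_eq_same] at h1
    omega
  have hpco : ∀ i, |((p.coeff i : ℤ) : ℝ)| ≤ Real.exp A := by
    intro i
    rw [hpc]
    exact hco _
  set e : ℕ := ⌊ε * d⌋₊ + 1 with he
  have he1 : ε * d < e := by
    rw [he]
    push_cast
    exact Nat.lt_floor_add_one _
  set q0 : Polynomial K := (p.map (Int.castRingHom K)).comp (Polynomial.X + Polynomial.C ξ) with hq0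
  have hq0c : ∀ j < e, q0.coeff j = 0 := by
    intro j hj
    have h1 : (j : ℝ) ≤ ε * d := by
      have h2 : j ≤ ⌊ε * d⌋₊ := by omega
      exact (Nat.le_floor_iff (by positivity)).mp h2
    have h3 := hcon (Finsupp.single () j) (by
      unfold wtR
      simp only [Finset.univ_unique, PUnit.default_eq_unit, Finset.sum_singleton,
        Finsupp.single_eq_same]
      rw [div_le_iff₀ hd0]
      exact h1)
    rw [aeval_dd] at h3
    rw [hq0, hp, ← RBASM.taylor_eq, coeff_uniqueAlgEquiv]
    exact h3
  obtain ⟨r, hr⟩ := Polynomial.X_pow_dvd_iff.mpr hq0c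
  set q : Polynomial K := r.comp (Polynomial.X - Polynomial.C ξ) with hq
  have hpq : p.map (Int.castRingHom K) = (Polynomial.X - Polynomial.C ξ) ^ e * q := by
    have h1 : q0.comp (Polynomial.X - Polynomial.C ξ) = p.map (Int.castRingHom K) := by
      rw [hq0, Polynomial.comp_assoc]
      simp
    rw [← h1, hr, Polynomial.mul_comp, Polynomial.pow_comp, Polynomial.X_comp]
  have hq' : q ≠ 0 := by
    intro h
    rw [h, mul_zero] at hpq
    have h1 := (Polynomial.map_eq_zero_iff (f := Int.castRingHom K) Int.cast_injective).mp hpq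
    exact hp0 h1
  obtain ⟨i, hi⟩ : ∃ i, q.coeff i ≠ 0 := by
    by_contra h
    push Not at h
    exact hq' (Polynomial.ext (by simpa using h))
  have key := fun w : Place K => hRGAU K w d e A ξ p q hA hpd hpco hpq i
  have hlog : ∀ w : Place K, (e : ℝ) * Real.log (max 1 (absV w ξ)) + Real.log (absV w (q.coeff i)) ≤
      sw w * (A + d * Real.log 4) := by
    intro w
    have h1 : (0 : ℝ) < max 1 (absV w ξ) := lt_of_lt_of_le one_pos (le_max_left _ _)
    have h2 := absV_pos w hi
    have h3 := Real.log_le_log (mul_pos (pow_pos h1 e) h2) (key w)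
    rw [Real.log_mul (pow_pos h1 e).ne' h2.ne', Real.log_pow, Real.log_exp] at h3
    exact h3
  have hs1 : (Function.support fun w : Place K => (e : ℝ) * Real.log (max 1 (absV w ξ))).Finite := by
    refine (RBASM.log_max_support ξ).subset ?_
    intro w hw hw'
    apply hw
    have : Real.log (max 1 (absV w ξ)) = 0 := hw'
    show (e : ℝ) * Real.log (max 1 (absV w ξ)) = 0
    rw [this, mul_zero]
  have hs2 := support_log_absV_finite hi
  have hs3 : (Function.support fun w : Place K => sw w * (A + d * Real.log 4)).Finite := by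
    refine support_sw_finite.subset ?_
    intro w hw hw'
    apply hw
    have : sw w = 0 := hw'
    show sw w * (A + d * Real.log 4) = 0
    rw [this, zero_mul]
  have hsum := finsum_mono ((hs1.union hs2).subset (Function.support_add _ _)) hs3 hlog
  rw [finsum_add_distrib hs1 hs2, product_formula hi, add_zero, ← mul_finsum, ← finsum_mul,
    finsum_sw, one_mul] at hsum
  have hsum' : (e : ℝ) * ht1 ξ ≤ A + d * Real.log 4 := hsum
  have hl4 := RBASM.log_four
  have h2 : 0 ≤ 2 / ε * (A + d) := by positivity
  have h3 : 0 < ht1 ξ := by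
    by_contra h
    push Not at h
    have : (d : ℝ) * ht1 ξ ≤ 0 := mul_nonpos_of_nonneg_of_nonpos hd0.le h
    linarith
  have h4 : 2 * (A + d) < ε * d * ht1 ξ := by
    have h5 := mul_lt_mul_of_pos_left hlt hε
    have h6 : ε * (2 / ε * (A + d)) = 2 * (A + d) := by field_simp
    rw [h6] at h5
    linarith
  have h5 : ε * d * ht1 ξ ≤ e * ht1 ξ := mul_le_mul_of_nonneg_right he1.le h3.le
  have h6 : (d : ℝ) * Real.log 4 ≤ d * 2 := mul_le_mul_of_nonneg_left hl4 hd0.le
  linarith

end Pool.Agent.Lib.MP_d0e829_nt.SS
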