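import Pool.Agent.Lib.MP_d0e829_nt.SS.SpecB

/-!
# RCA: small heights
-/

set_option autoImplicit false

open NumberField

namespace Pool.Agent.Lib.MP_d0e829_nt.SS

open scoped Classical

namespace RCAM

variable {K : Type} [Field K] [NumberField K]

theorem det_dL {N : ℕ} {L : Place K → Matrix (Fin N) (Fin N) K} {v : Place K}
    (h : (L v).det ≠ 0) : (dL L v).det ≠ 0 := by
  unfold dL
  rw [Matrix.det_transpose, Matrix.det_nonsing_inv, Ring.inverse_eq_inv']
  exact inv_ne_zero h

/-- The pattern of the nonzero values. -/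
noncomputable def pat {N : ℕ} (S : Finset (Place K)) (P : S → Finset (Fin N)) (v : Place K) :
    Finset (Fin N) := if h : v ∈ S then P ⟨v, h⟩ else Finset.univ

/-- The maximum over the pattern. -/
noncomputable def mx {N : ℕ} (S : Finset (Place K)) (P : S → Finset (Fin N))
    (c : Place K → Fin N → ℝ) (v : Place K) : ℝ :=
  if h : (pat S P v).Nonempty then (pat S P v).sup' h (c v) else 0

theorem le_mx {N : ℕ} (S : Finset (Place K)) (P : S → Finset (Fin N))
    (c : Place K → Fin N → ℝ) (v : Place K) (j : Fin N) (hj : j ∈ pat S P v) :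
    c v j ≤ mx S P c v := by
  unfold mx
  rw [dif_pos ⟨j, hj⟩]
  exact Finset.le_sup' (c v) hj

theorem mx_mem {N : ℕ} (S : Finset (Place K)) (P : S → Finset (Fin N))
    (c : Place K → Fin N → ℝ) (v : Place K) (h : (pat S P v).Nonempty) :
    ∃ j ∈ pat S P v, mx S P c v = c v j := by
  unfold mx
  rw [dif_pos h]
  exact Finset.exists_mem_eq_sup' h (c v)

/-- lower bound for the twisted height -/
theorem htw_lower {N : ℕ} (S : Finset (Place K)) (M : Place K → Matrix (Fin N) (Fin N) K)
    (r : Place K → Fin N → ℝ) {a : Fin N → K} (ha : a ≠ 0) (g : Place K → ℝ)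
    (hg : ∀ v ∈ S, Real.log (nrm v a) + g v ≤ Real.log (tw (M v) (r v) v a)) :
    ht a + ∑ v ∈ S, g v ≤ htw S M r a := by
  have hs : (Function.support fun w : Place K => if w ∈ S then g w else 0) ⊆ (S : Set _) := by
    intro w hw
    by_contra h
    exact hw (if_neg h)
  have h1 : ∑ v ∈ S, g v = ∑ᶠ w : Place K, if w ∈ S then g w else 0 := by
    rw [finsum_eq_sum_of_support_subset _ hs]
    exact Finset.sum_congr rfl fun v hv => (if_pos hv).symm
  rw [ht, h1, ← finsum_add_distrib (support_log_nrm_finite ha) (S.finite_toSet.subset hs), htw]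
  refine finsum_mono ?_ (support_log_lcn_finite S M r ha) fun w => ?_
  · refine ((support_log_nrm_finite ha).union (S.finite_toSet.subset hs)).subset ?_
    exact Function.support_add _ _
  · by_cases h : w ∈ S
    · simp only [if_pos h, lcn]
      exact hg w h
    · simp only [if_neg h, lcn, add_zero]
      exact le_refl _

end RCAM

open RCAM in
/-- RCA: small heights. -/
theorem specRCA (hDUA : SpecDUA) (hLIO : SpecLIO) (hPAT : SpecPAT) : SpecRCA := by
  intro K _ _ N hN S hS L hL c hc δ hδ
  obtain ⟨CD, hCD, hdua⟩ := hDUA K N hN S L hL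
  choose CL hCL hlio using fun v : Place K => hLIO K N (dL L v)
  have hpat : ∀ P : S → Finset (Fin N), ∃ (t₀ : ℝ) (V : Submodule K (Fin N → K)),
      ∑ v ∈ S, mx S P c v < 0 → ∀ t : ℝ, t₀ ≤ t →
      ∀ x : Fin (N - 1) → Fin N → K, LinearIndependent K x →
        (∀ l, htw S L (fun v i => t * c v i) (x l) ≤ -(δ * t)) →
        ∀ a : Fin N → K, a ≠ 0 → (∀ l, ∑ i, a i * x l i = 0) →
          (∀ v ∈ S, ∀ j, j ∉ pat S P v → (dL L v).mulVec a j = 0) →
            Submodule.span K (Set.range x) = V := by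
    intro P
    by_cases hP : ∑ v ∈ S, mx S P c v < 0
    · obtain ⟨t₀, V, h⟩ := hPAT K N hN S L hL c δ hδ (pat S P) (mx S P c)
        (fun v _ j hj => le_mx S P c v j hj) hP
      exact ⟨t₀, V, fun _ => h⟩
    · exact ⟨0, ⊥, fun h => absurd h hP⟩
  choose T V hTV using hpat
  obtain ⟨T₀, hT₀⟩ := (Set.finite_range T).bddAbove
  set A : ℝ := CD + ∑ v ∈ S, CL v with hA
  have hA0 : 0 ≤ A := add_nonneg hCD (Finset.sum_nonneg fun v _ => hCL v)
  refine ⟨δ / (4 * (S.card + 1)), max T₀ (4 * A / δ), Set.range V, by positivity,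
    Set.finite_range V, ?_⟩
  intro t ht0 x hx hxt a ha hax
  have ht1 : T₀ ≤ t := (le_max_left _ _).trans ht0
  have ht2 : 4 * A / δ ≤ t := (le_max_right _ _).trans ht0
  have ht3 : 4 * A ≤ δ * t := by
    rw [div_le_iff₀ hδ] at ht2
    linarith
  have htp : 0 ≤ t := le_trans (div_nonneg (by linarith) hδ.le) ht2
  -- the pattern
  let P : S → Finset (Fin N) := fun v =>
    Finset.univ.filter fun j => (dL L v.1).mulVec a j ≠ 0
  have hPmem : ∀ v ∈ S, ∀ j, j ∈ pat S P v ↔ (dL L v).mulVec a j ≠ 0 := by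
    intro v hv j
    unfold pat
    rw [dif_pos hv]
    simp [P]
  by_cases hsum : ∑ v ∈ S, mx S P c v < 0
  · left
    refine ⟨P, (hTV P hsum t ((hT₀ (Set.mem_range_self P)).trans ht1) x hx hxt a ha hax ?_).symm⟩
    intro v hv j hj
    by_contra h
    exact hj ((hPmem v hv j).2 h)
  · right
    -- upper bound
    have hup := hdua (fun v i => t * c v i) (by
      have : ∑ v ∈ S, ∑ i, t * c v i = t * ∑ v ∈ S, ∑ i, c v i := by
        rw [Finset.mul_sum]
        exact Finset.sum_congr rfl fun v _ => (Finset.mul_sum _ _ _).symm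
      rw [this, hc, mul_zero]) x hx a ha hax
    have hup2 : ∑ l, htw S L (fun v i => t * c v i) (x l) ≤ -(δ * t) := by
      have h1 : ∑ l, htw S L (fun v i => t * c v i) (x l) ≤ ∑ _l : Fin (N - 1), -(δ * t) :=
        Finset.sum_le_sum fun l _ => hxt l
      rw [Finset.sum_const, Finset.card_univ, Fintype.card_fin, nsmul_eq_mul] at h1
      have h2 : (1 : ℝ) ≤ ((N - 1 : ℕ) : ℝ) := by
        have : 1 ≤ N - 1 := by omega
        exact_mod_cast this
      have h3 : 0 ≤ δ * t := mul_nonneg hδ.le htp
      nlinarith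
    -- lower bound
    have hlow := htw_lower S (dL L) (fun v i => -(t * c v i)) ha
      (fun v => t * mx S P c v - ht a - CL v) (by
        intro v hv
        have hne : (pat S P v).Nonempty := by
          have h1 : (dL L v).mulVec a ≠ 0 := by
            intro h0
            exact ha (Matrix.eq_zero_of_mulVec_eq_zero (det_dL (hL v hv)) h0)
          obtain ⟨j, hj⟩ := Function.ne_iff.mp h1
          exact ⟨j, (hPmem v hv j).2 hj⟩
        obtain ⟨j, hj, hmj⟩ := mx_mem S P c v hne
        have hj' := (hPmem v hv j).1 hj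
        have h2 := hlio v v a j hj'
        have h3 := le_tw (dL L v) (fun i => -(t * c v i)) v a j
        have h4 : 0 < absV v ((dL L v).mulVec a j) := absV_pos v hj'
        have h5 := Real.log_le_log (mul_pos h4 (Real.exp_pos _)) h3
        rw [Real.log_mul h4.ne' (Real.exp_pos _).ne', Real.log_exp, neg_neg, ← hmj] at h5
        linarith)
    have hsumg : ∑ v ∈ S, (t * mx S P c v - ht a - CL v) =
        t * ∑ v ∈ S, mx S P c v - S.card * ht a - ∑ v ∈ S, CL v := by
      rw [Finset.sum_sub_distrib, Finset.sum_sub_distrib, ← Finset.mul_sum, Finset.sum_const,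
        nsmul_eq_mul]
    rw [hsumg] at hlow
    have hht : 0 ≤ ht a := ht_nonneg ha
    have h6 : 0 ≤ t * ∑ v ∈ S, mx S P c v := mul_nonneg htp (not_lt.1 hsum)
    have h7 : δ * t ≤ A + S.card * ht a - ht a := by
      have h8 : htw S (dL L) (fun v i => -(t * c v i)) a ≤ CD + -(δ * t) := by
        linarith
      rw [hA]
      linarith
    have h9 : δ * t / 4 ≤ (S.card + 1) * ht a := by
      have h10 : 0 ≤ δ * t := mul_nonneg hδ.le htp
      linarith
    have h11 : (0 : ℝ) < S.card + 1 := by positivity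
    rw [div_mul_eq_mul_div, div_le_iff₀ (by positivity)]
    linarith

end Pool.Agent.Lib.MP_d0e829_nt.SS
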