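import Pool.Agent.Lib.MP_d0e829_nt.SS.SpecR

/-!
# Module RCLA: Roth's lemma, induction on the number of variables
-/

set_option autoImplicit false

open MvPolynomial

namespace Pool.Agent.Lib.MP_d0e829_nt.SS

noncomputable section

namespace RCLAM

/-- divided derivatives and bijections of the variables -/
theorem dd_ren {σ τ R : Type} [CommRing R] (e : σ ≃ τ) (J : σ →₀ ℕ) (P : MvPolynomial σ R) :
    dd (J.mapDomain e) (rename e P) = rename e (dd J P) := by
  have h1 : tayl (rename e P) = rename e (map (rename e : MvPolynomial σ R →ₐ[R] MvPolynomial τ R).toRingHom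
      (tayl P)) := by
    induction P using MvPolynomial.induction_on with
    | C a =>
      simp only [tayl, rename_C, aeval_C, algebraMap_eq, MvPolynomial.algebraMap_apply, map_C,
        AlgHom.toRingHom_eq_coe, RingHom.coe_coe]
    | add p q hp hq =>
      have e1 : ∀ a b : MvPolynomial σ R, tayl (a + b) = tayl a + tayl b := fun a b => by
        simp only [tayl, map_add]
      have e2 : ∀ a b : MvPolynomial τ R, tayl (a + b) = tayl a + tayl b := fun a b => by
        simp only [tayl, map_add]
      rw [map_add, e2, hp, hq, e1, map_add, map_add]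
    | mul_X p i hp =>
      have e1 : ∀ a b : MvPolynomial σ R, tayl (a * b) = tayl a * tayl b := fun a b => by
        simp only [tayl, map_mul]
      have e2 : ∀ a b : MvPolynomial τ R, tayl (a * b) = tayl a * tayl b := fun a b => by
        simp only [tayl, map_mul]
      rw [map_mul, e2, hp, e1, map_mul, map_mul]
      congr 1
      simp only [tayl, rename_X, aeval_X, map_add, map_C, map_X, rename_C,
        AlgHom.toRingHom_eq_coe, RingHom.coe_coe]
  show coeff (J.mapDomain e) (tayl (rename e P)) = rename e (coeff J (tayl P))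
  rw [h1, coeff_rename_mapDomain _ e.injective, coeff_map]
  rfl

theorem rothAt_equiv {K σ τ : Type} [Field K] [Fintype σ] [Fintype τ] (e : σ ≃ τ)
    (d : τ → ℕ) (A : ℝ) (ξ : τ → K) (ε : ℝ)
    (h : RothAt (fun i => d (e i)) A (fun i => ξ (e i)) ε) : RothAt d A ξ ε := by
  intro P hP hd hA
  have hPQ : rename e (rename e.symm P) = P := by
    rw [rename_rename, Equiv.self_comp_symm, rename_id, AlgHom.id_apply]
  obtain ⟨J, hJ, hne⟩ := h (rename e.symm P)
    (fun h0 => hP (by rw [← hPQ, h0, map_zero]))
    (fun i => by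
      have h1 := degreeOf_rename_of_injective (p := P) e.symm.injective (e i)
      rw [Equiv.symm_apply_apply] at h1
      rw [h1]
      exact hd (e i))
    (fun J => by
      have h1 : coeff J (rename e.symm P) = coeff (J.mapDomain e) P := by
        have h2 : J = (J.mapDomain e).mapDomain e.symm := by
          rw [← Finsupp.mapDomain_comp, Equiv.symm_comp_self, Finsupp.mapDomain_id]
        conv_lhs => rw [h2]
        rw [coeff_rename_mapDomain _ e.symm.injective]
      rw [h1]
      exact hA _)
  refine ⟨J.mapDomain e, ?_, ?_⟩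
  · refine le_trans (le_of_eq ?_) hJ
    unfold wtR
    rw [← Equiv.sum_comp e]
    refine Finset.sum_congr rfl fun i _ => ?_
    rw [Finsupp.mapDomain_apply e.injective]
  · rw [← hPQ, dd_ren, aeval_rename]
    exact hne

theorem rothAt_mono {K σ : Type} [Field K] [Fintype σ] {d : σ → ℕ} {A : ℝ} {ξ : σ → K}
    {ε ε' : ℝ} (h : RothAt d A ξ ε') (hε : ε' ≤ ε) : RothAt d A ξ ε := by
  intro P hP hd hA
  obtain ⟨J, hJ, hne⟩ := h P hP hd hA
  exact ⟨J, hJ.trans hε, hne⟩

/-- one more variable -/
def lastEqv (n : ℕ) : Fin (n + 1) ⊕ Unit ≃ Fin (n + 2) :=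
  (Equiv.sumCongr (Equiv.refl _) (Equiv.ofUnique Unit (Fin 1))).trans finSumFinEquiv

theorem lastEqv_inl (n : ℕ) (i : Fin (n + 1)) : lastEqv n (Sum.inl i) = i.castSucc := rfl

theorem lastEqv_inr (n : ℕ) (u : Unit) : lastEqv n (Sum.inr u) = Fin.last (n + 1) := rfl

end RCLAM

open RCLAM in
theorem specRCLA (hRBAS : SpecRBAS) (hRSTP : SpecRSTP) : SpecRCLA := by
  intro K _ _ n
  induction n with
  | zero =>
    intro ε hε
    refine ⟨1, 2 / ε + 1, one_pos, by positivity, ?_⟩
    intro d D A ξ hd _ hA hC
    refine rothAt_equiv (Equiv.ofUnique Unit (Fin 1)) d A ξ ε ?_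
    have h1 := hRBAS K (d 0) A ε (ξ 0) (hd 0).1 hA hε ?_
    · exact h1
    · have h2 := hC 0
      have h3 : (1 : ℝ) ≤ d 0 := by exact_mod_cast (hd 0).1
      have h4 : (d 0 : ℝ) ≤ D := by exact_mod_cast (hd 0).2
      have h5 : 0 < 2 / ε := by positivity
      have h6 : (2 / ε + 1) * (A + d 0) ≤ (2 / ε + 1) * (A + D) :=
        mul_le_mul_of_nonneg_left (by linarith) (by linarith)
      have h7 : (2 / ε + 1) * (A + d 0) = 2 / ε * (A + d 0) + (A + d 0) := by ring
      linarith
  | succ n ih =>
    intro ε₀ hε₀
    set ε : ℝ := min ε₀ 1 with hεdef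
    have hε : 0 < ε := lt_min hε₀ one_pos
    have hε1 : ε ≤ 1 := min_le_right _ _
    have hε' : 0 < ε ^ 2 / 64 := by positivity
    obtain ⟨s', C', hs', hC', hI⟩ := ih (ε ^ 2 / 64) hε'
    set q : ℝ := 2 / (ε ^ 2 / 64) with hq
    have hq0 : 0 < q := by positivity
    set B : ℝ := 2 * (n : ℝ) + 7 with hB
    have hB0 : 0 < B := by positivity
    refine ⟨min s' (ε / 4), B * (C' + q + 1), lt_min hs' (by positivity), by positivity, ?_⟩
    intro d D A ξ hd hr hA hC
    refine rothAt_mono ?_ (min_le_left ε₀ 1)
    rw [← hεdef]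
    refine rothAt_equiv (lastEqv n) d A ξ ε ?_
    -- basic facts
    have hd1 : ∀ h, (1 : ℝ) ≤ d h := fun h => by exact_mod_cast (hd h).1
    have hdD : ∀ h, (d h : ℝ) ≤ D := fun h => by exact_mod_cast (hd h).2
    have hD1 : (1 : ℝ) ≤ D := (hd1 0).trans (hdD 0)
    have hAD : 0 < A + D := by linarith
    have hs1 : min s' (ε / 4) ≤ 1 := (min_le_right _ _).trans (by linarith)
    have hs0 : 0 < min s' (ε / 4) := lt_min hs' (by positivity)
    have hdec1 : ∀ h h' : Fin (n + 2), (h : ℕ) + 1 = h' → (d h' : ℝ) ≤ d h := by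
      intro h h' hh
      refine (hr h h' hh).trans ?_
      have := hd1 h
      calc min s' (ε / 4) * (d h : ℝ) ≤ 1 * d h := mul_le_mul_of_nonneg_right hs1 (by linarith)
        _ = d h := one_mul _
    have hdec : ∀ (k : ℕ) (h h' : Fin (n + 2)), (h : ℕ) + k = h' → (d h' : ℝ) ≤ d h := by
      intro k
      induction k with
      | zero =>
        intro h h' hh
        have : h = h' := Fin.ext (by omega)
        rw [this]
      | succ k ihk =>
        intro h h' hh
        have hlt := h'.2
        have h1 := ihk h ⟨h + k, by omega⟩ rfl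
        exact (hdec1 ⟨h + k, by omega⟩ h' (by show (h : ℕ) + k + 1 = h'; omega)).trans h1
    have he : ∀ i : Fin (n + 1), (d (Fin.last (n + 1)) : ℝ) ≤ ε / 4 * d i.castSucc := by
      intro i
      have hi := i.2
      have h1 := hr (Fin.last n).castSucc (Fin.last (n + 1)) (by simp)
      have h2 := hdec (n - i) i.castSucc (Fin.last n).castSucc (by
        show (i : ℕ) + (n - i) = n
        omega)
      have h3 := hd1 i.castSucc
      have h4 := hd1 (Fin.last n).castSucc
      calc (d (Fin.last (n + 1)) : ℝ) ≤ min s' (ε / 4) * d (Fin.last n).castSucc := h1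
        _ ≤ ε / 4 * d (Fin.last n).castSucc :=
          mul_le_mul_of_nonneg_right (min_le_right _ _) (by linarith)
        _ ≤ ε / 4 * d i.castSucc := mul_le_mul_of_nonneg_left h2 (by positivity)
    -- the sum of the degrees
    have hsum : ∑ i : Fin (n + 1), (d i.castSucc : ℝ) ≤ (n + 1) * D := by
      have h1 : ∑ i : Fin (n + 1), (d i.castSucc : ℝ) ≤ ∑ _i : Fin (n + 1), (D : ℝ) :=
        Finset.sum_le_sum fun i _ => hdD _
      rw [Finset.sum_const, Finset.card_univ, Fintype.card_fin, nsmul_eq_mul] at h1
      push_cast at h1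
      exact h1
    have hsum0 : 0 ≤ ∑ i : Fin (n + 1), (d i.castSucc : ℝ) :=
      Finset.sum_nonneg fun i _ => Nat.cast_nonneg _
    have hbig : ∀ k : ℕ, 1 ≤ k → k ≤ d (Fin.last (n + 1)) + 1 →
        k * (A + k + 2 * (∑ i : Fin (n + 1), (d i.castSucc : ℝ) + d (Fin.last (n + 1)))) + k * D ≤
          B * (k * (A + D)) := by
      intro k hk1 hk2
      have k1 : (1 : ℝ) ≤ k := by exact_mod_cast hk1
      have k2 : (k : ℝ) ≤ d (Fin.last (n + 1)) + 1 := by exact_mod_cast hk2
      have h3 := hd1 (Fin.last (n + 1))
      have h4 := hdD (Fin.last (n + 1))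
      have h5 : (k : ℝ) ≤ 2 * D := by linarith
      have h6 : A + k + 2 * (∑ i : Fin (n + 1), (d i.castSucc : ℝ) + d (Fin.last (n + 1))) + D ≤
          B * (A + D) := by
        have h7 : A ≤ B * A := by
          have : (1 : ℝ) ≤ B := by
            rw [hB]
            have : (0 : ℝ) ≤ n := Nat.cast_nonneg n
            linarith
          nlinarith
        have h8 : B * D = 2 * D + 2 * ((n + 1) * D + D) + D := by rw [hB]; ring
        have h9 : B * (A + D) = B * A + B * D := by ring
        linarith
      calc k * (A + k + 2 * (∑ i : Fin (n + 1), (d i.castSucc : ℝ) + d (Fin.last (n + 1)))) + k * D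
          = k * (A + k + 2 * (∑ i : Fin (n + 1), (d i.castSucc : ℝ) + d (Fin.last (n + 1))) + D) := by
            ring
        _ ≤ k * (B * (A + D)) := mul_le_mul_of_nonneg_left h6 (by linarith)
        _ = B * (k * (A + D)) := by ring
    have hA' : ∀ k : ℕ, 0 ≤ k * (A + k +
        2 * (∑ i : Fin (n + 1), (d i.castSucc : ℝ) + d (Fin.last (n + 1)))) := by
      intro k
      positivity
    have hstep := hRSTP K (Fin (n + 1)) (fun i => d i.castSucc) (d (Fin.last (n + 1))) A ε
      (fun i => ξ i.castSucc) (ξ (Fin.last (n + 1))) (fun i => (hd _).1) (hd _).1 hA hε hε1 he ?_ ?_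
    · have e1 : (fun i => d (lastEqv n i)) =
          Sum.elim (fun i : Fin (n + 1) => d i.castSucc) (fun _ : Unit => d (Fin.last (n + 1))) := by
        funext i
        rcases i with i | i
        · rfl
        · rfl
      have e2 : (fun i => ξ (lastEqv n i)) =
          Sum.elim (fun i : Fin (n + 1) => ξ i.castSucc) (fun _ : Unit => ξ (Fin.last (n + 1))) := by
        funext i
        rcases i with i | i
        · rfl
        · rfl
      rw [e1, e2]
      exact hstep
    · intro k hk1 hk2
      have k1 : (1 : ℝ) ≤ k := by exact_mod_cast hk1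
      refine hI (fun i => k * d i.castSucc) (k * D) _ (fun i => ξ i.castSucc) ?_ ?_ (hA' k) ?_
      · intro h
        exact ⟨Nat.mul_pos hk1 (hd _).1, Nat.mul_le_mul_left k (hd _).2⟩
      · intro h h' hh
        have h1 := hr h.castSucc h'.castSucc (by show (h : ℕ) + 1 = h'; exact hh)
        have h2 := hd1 h.castSucc
        have h3 : min s' (ε / 4) * (d h.castSucc : ℝ) ≤ s' * d h.castSucc :=
          mul_le_mul_of_nonneg_right (min_le_left _ _) (by linarith)
        push_cast
        calc (k : ℝ) * d h'.castSucc ≤ k * (s' * d h.castSucc) :=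
              mul_le_mul_of_nonneg_left (h1.trans h3) (by linarith)
          _ = s' * (k * d h.castSucc) := by ring
      · intro h
        have h1 := hbig k hk1 hk2
        have h2 := hC h.castSucc
        push_cast
        calc C' * (k * (A + k + 2 * (∑ i : Fin (n + 1), (d i.castSucc : ℝ) +
                d (Fin.last (n + 1)))) + k * D)
            ≤ C' * (B * (k * (A + D))) := mul_le_mul_of_nonneg_left h1 hC'.le
          _ = k * (B * C' * (A + D)) := by ring
          _ ≤ k * (B * (C' + q + 1) * (A + D)) := by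
            apply mul_le_mul_of_nonneg_left _ (by linarith)
            apply mul_le_mul_of_nonneg_right _ hAD.le
            apply mul_le_mul_of_nonneg_left _ hB0.le
            linarith
          _ ≤ k * (d h.castSucc * ht1 (ξ h.castSucc)) :=
            mul_le_mul_of_nonneg_left h2 (by linarith)
          _ = k * d h.castSucc * ht1 (ξ h.castSucc) := by ring
    · intro k hk1 hk2
      have k1 : (1 : ℝ) ≤ k := by exact_mod_cast hk1
      refine hRBAS K (k * d (Fin.last (n + 1))) _ (ε ^ 2 / 64) (ξ (Fin.last (n + 1)))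
        (Nat.mul_pos hk1 (hd _).1) (hA' k) hε' ?_
      have h1 := hbig k hk1 hk2
      have h2 := hC (Fin.last (n + 1))
      have h3 := hdD (Fin.last (n + 1))
      have hkAD : 0 < k * (A + D) := by positivity
      rw [← hq]
      push_cast
      calc q * (k * (A + k + 2 * (∑ i : Fin (n + 1), (d i.castSucc : ℝ) +
                d (Fin.last (n + 1)))) + k * d (Fin.last (n + 1)))
          ≤ q * (B * (k * (A + D))) := by
            apply mul_le_mul_of_nonneg_left _ hq0.le
            refine le_trans ?_ h1
            have : (k : ℝ) * d (Fin.last (n + 1)) ≤ k * D :=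
              mul_le_mul_of_nonneg_left h3 (by linarith)
            linarith
        _ = B * q * (k * (A + D)) := by ring
        _ < B * (C' + q + 1) * (k * (A + D)) := by
            apply mul_lt_mul_of_pos_right _ hkAD
            apply mul_lt_mul_of_pos_left _ hB0
            linarith
        _ = k * (B * (C' + q + 1) * (A + D)) := by ring
        _ ≤ k * (d (Fin.last (n + 1)) * ht1 (ξ (Fin.last (n + 1)))) :=
            mul_le_mul_of_nonneg_left h2 (by linarith)
        _ = k * d (Fin.last (n + 1)) * ht1 (ξ (Fin.last (n + 1))) := by ring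

end

end Pool.Agent.Lib.MP_d0e829_nt.SS
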