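import Pool.Agent.Lib.MP_d0e829_nt.SS.SpecR

/-!
# RDEC: the shortest decomposition of a polynomial in two groups of variables
-/

set_option autoImplicit false

open MvPolynomial

namespace Pool.Agent.Lib.MP_d0e829_nt.SS

noncomputable section

namespace RDECM

variable {σ : Type}

/-- the exponents of the variables of the first group -/
def low (J : σ ⊕ Unit →₀ ℕ) : σ →₀ ℕ := J.comapDomain Sum.inl Sum.inl_injective.injOn

lemma split (J : σ ⊕ Unit →₀ ℕ) :
    J = (low J).mapDomain Sum.inl + (Finsupp.single () (J (Sum.inr ()))).mapDomain Sum.inr := by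
  ext (s | u)
  · rw [Finsupp.add_apply, Finsupp.mapDomain_apply Sum.inl_injective,
      Finsupp.mapDomain_of_notMem_range _ _ (by simp), add_zero]
    rfl
  · rw [Finsupp.add_apply, Finsupp.mapDomain_apply Sum.inr_injective,
      Finsupp.mapDomain_of_notMem_range _ _ (by simp), zero_add, Finsupp.single_eq_same]

lemma mono_split (J : σ ⊕ Unit →₀ ℕ) (c : ℚ) :
    monomial J c = rename Sum.inl (monomial (low J) c) *
      rename Sum.inr (monomial (Finsupp.single () (J (Sum.inr ()))) (1 : ℚ)) := by
  rw [rename_monomial, rename_monomial, monomial_mul, mul_one, ← split]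

/-- the coefficient of `y ^ b` -/
def part (P : MvPolynomial (σ ⊕ Unit) ℚ) (b : ℕ) : MvPolynomial σ ℚ :=
  ∑ J ∈ P.support.filter (fun J => J (Sum.inr ()) = b), monomial (low J) (coeff J P)

/-- the monomial `y ^ b` -/
def yp (b : ℕ) : MvPolynomial Unit ℚ := monomial (Finsupp.single () b) 1

lemma sum_part (P : MvPolynomial (σ ⊕ Unit) ℚ) (e : ℕ) (he : degreeOf (Sum.inr ()) P ≤ e) :
    P = ∑ b : Fin (e + 1), rename Sum.inl (part P b) * rename Sum.inr (yp b) := by
  have h1 : ∀ b : Fin (e + 1), rename Sum.inl (part P b) * rename Sum.inr (yp b) =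
      ∑ J ∈ P.support.filter (fun J => J (Sum.inr ()) = (b : ℕ)), monomial J (coeff J P) := by
    intro b
    unfold part yp
    rw [map_sum, Finset.sum_mul]
    refine Finset.sum_congr rfl fun J hJ => ?_
    rw [Finset.mem_filter] at hJ
    rw [mono_split J (coeff J P), hJ.2]
  rw [Finset.sum_congr rfl fun b _ => h1 b]
  have h2 : ∀ J ∈ P.support, J (Sum.inr ()) < e + 1 := by
    intro J hJ
    have h3 := (degreeOf_le_iff.1 he) J hJ
    omega
  rw [Fin.sum_univ_eq_sum_range
    (fun b : ℕ => ∑ J ∈ P.support.filter (fun J => J (Sum.inr ()) = b), monomial J (coeff J P)) (e + 1)]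
  rw [Finset.sum_fiberwise_of_maps_to (g := fun J : σ ⊕ Unit →₀ ℕ => J (Sum.inr ()))
    (fun J hJ => Finset.mem_range.2 (h2 J hJ))]
  exact as_sum P

lemma coeff_yp (a b : ℕ) : coeff (Finsupp.single () a) (yp b) = if b = a then 1 else 0 := by
  unfold yp
  rw [coeff_monomial]
  congr 1
  rw [eq_iff_iff]
  constructor
  · intro h
    have := congrArg (fun f => f ()) h
    simpa using this
  · rintro rfl
    rfl

end RDECM

open RDECM in
theorem specRDEC : SpecRDEC := by
  intro σ _ e P hP he
  have hsum := sum_part P e he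
  set p : Fin (e + 1) → MvPolynomial σ ℚ := fun b => part P b with hp
  set V : Submodule ℚ (MvPolynomial σ ℚ) := Submodule.span ℚ (Set.range p) with hV
  have hfin : FiniteDimensional ℚ V := FiniteDimensional.span_of_finite ℚ (Set.finite_range p)
  have hmem : ∀ b, p b ∈ V := fun b => Submodule.subset_span ⟨b, rfl⟩
  let B := Module.finBasis ℚ V
  have hk1 : 1 ≤ Module.finrank ℚ V := by
    by_contra hcon
    have h0 : Module.finrank ℚ V = 0 := by omega
    have h1 : V = ⊥ := Submodule.finrank_eq_zero.1 h0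
    apply hP
    rw [hsum]
    refine Finset.sum_eq_zero fun b _ => ?_
    have h2 := hmem b
    rw [h1, Submodule.mem_bot] at h2
    have h3 : part P (b : ℕ) = 0 := h2
    rw [h3, map_zero, zero_mul]
  have hk2 : Module.finrank ℚ V ≤ e + 1 := by
    have h1 := finrank_range_le_card (R := ℚ) p
    rw [Fintype.card_fin] at h1
    exact h1
  refine ⟨Module.finrank ℚ V, hk1, hk2, fun j => (B j : MvPolynomial σ ℚ),
    fun j => ∑ b : Fin (e + 1), (B.repr ⟨p b, hmem b⟩ j) • yp b, ?_, ?_, ?_⟩
  · exact B.linearIndependent.map' V.subtype (Submodule.ker_subtype V)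
  · rw [Fintype.linearIndependent_iff]
    intro l hl
    have h1 : ∀ b : Fin (e + 1), ∑ j, l j * B.repr ⟨p b, hmem b⟩ j = 0 := by
      intro b
      have h2 := congrArg (coeff (Finsupp.single () (b : ℕ))) hl
      rw [coeff_sum, coeff_zero] at h2
      rw [← h2]
      refine Finset.sum_congr rfl fun j _ => ?_
      rw [coeff_smul, coeff_sum, smul_eq_mul]
      congr 1
      rw [Finset.sum_eq_single b]
      · rw [coeff_smul, coeff_yp, if_pos rfl, smul_eq_mul, mul_one]
      · intro b' _ hb'
        rw [coeff_smul, coeff_yp, if_neg (fun h => hb' (Fin.ext h)), smul_zero]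
      · intro hb
        exact absurd (Finset.mem_univ b) hb
    let φ : V →ₗ[ℚ] ℚ := ∑ j, l j • B.coord j
    have hφ : ∀ v : V, φ v = ∑ j, l j * B.repr v j := by
      intro v
      simp [φ, LinearMap.sum_apply]
    have h2 : V ≤ Submodule.map V.subtype (LinearMap.ker φ) := by
      refine Submodule.span_le.2 ?_
      rintro _ ⟨b, rfl⟩
      refine ⟨⟨p b, hmem b⟩, ?_, rfl⟩
      rw [SetLike.mem_coe, LinearMap.mem_ker, hφ]
      exact h1 b
    intro j
    have h3 := h2 (B j).2
    obtain ⟨w, hw1, hw2⟩ := h3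
    have h4 : w = B j := Subtype.ext hw2
    rw [SetLike.mem_coe, LinearMap.mem_ker, h4, hφ] at hw1
    rw [Finset.sum_eq_single j] at hw1
    · rw [B.repr_self, Finsupp.single_eq_same, mul_one] at hw1
      exact hw1
    · intro j' _ hj'
      rw [B.repr_self, Finsupp.single_eq_of_ne hj', mul_zero]
    · intro hj
      exact absurd (Finset.mem_univ j) hj
  · have h1 : ∀ b : Fin (e + 1), part P (b : ℕ) =
        ∑ j, B.repr ⟨p b, hmem b⟩ j • (B j : MvPolynomial σ ℚ) := by
      intro b
      have h2 := congrArg (V.subtype) (B.sum_repr ⟨p b, hmem b⟩)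
      rw [map_sum] at h2
      simp only [map_smul, Submodule.subtype_apply] at h2
      exact h2.symm
    have h3 : ∀ b : Fin (e + 1), rename Sum.inl (part P (b : ℕ)) * rename Sum.inr (yp b) =
        ∑ j, rename Sum.inl (B j : MvPolynomial σ ℚ) *
          rename Sum.inr (B.repr ⟨p b, hmem b⟩ j • yp (b : ℕ)) := by
      intro b
      rw [h1 b, map_sum, Finset.sum_mul]
      refine Finset.sum_congr rfl fun j _ => ?_
      rw [map_smul, map_smul, smul_mul_assoc, mul_smul_comm]
    calc P = ∑ b : Fin (e + 1), rename Sum.inl (part P b) * rename Sum.inr (yp b) := hsum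
      _ = ∑ b : Fin (e + 1), ∑ j, rename Sum.inl (B j : MvPolynomial σ ℚ) *
          rename Sum.inr (B.repr ⟨p b, hmem b⟩ j • yp (b : ℕ)) := Finset.sum_congr rfl fun b _ => h3 b
      _ = ∑ j, ∑ b : Fin (e + 1), rename Sum.inl (B j : MvPolynomial σ ℚ) *
          rename Sum.inr (B.repr ⟨p b, hmem b⟩ j • yp (b : ℕ)) := Finset.sum_comm
      _ = _ := by
        refine Finset.sum_congr rfl fun j _ => ?_
        rw [map_sum, Finset.mul_sum]

end

end Pool.Agent.Lib.MP_d0e829_nt.SS
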