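import Pool.Agent.Lib.MP_d0e829_nt.SS.SpecA

/-!
# SS, module RED: reduced bases exist
-/

set_option autoImplicit false

open NumberField

namespace Pool.Agent.Lib.MP_d0e829_nt.SS

open scoped Classical

namespace REDM

variable {K : Type} [Field K] [NumberField K]

theorem fl_congr {N : ℕ} {x x' : Fin N → Fin N → K} {j : ℕ}
    (h : ∀ i : Fin N, (i : ℕ) < j → x i = x' i) : Fl x j = Fl x' j := by
  unfold Fl
  have h1 : x '' {i : Fin N | (i : ℕ) < j} = x' '' {i : Fin N | (i : ℕ) < j} :=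
    Set.image_congr fun i hi => h i hi
  rw [h1]

theorem fl_ne_top {N : ℕ} (x : Fin N → Fin N → K) {j : ℕ} (hj : j < N) : ∃ y, y ∉ Fl x j := by
  by_contra hcon
  push Not at hcon
  have htop : Fl x j = ⊤ := Submodule.eq_top_iff'.2 hcon
  have hr : x '' {i : Fin N | (i : ℕ) < j} = Set.range (fun k : Fin j => x ⟨k, k.2.trans hj⟩) := by
    ext y
    simp only [Set.mem_image, Set.mem_ofPred_eq, Set.mem_range]
    constructor
    · rintro ⟨i, hi, rfl⟩
      exact ⟨⟨i, hi⟩, rfl⟩
    · rintro ⟨k, rfl⟩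
      exact ⟨⟨k, k.2.trans hj⟩, k.2, rfl⟩
  have h1 : (Set.range (fun k : Fin j => x ⟨k, k.2.trans hj⟩)).finrank K ≤ Fintype.card (Fin j) :=
    finrank_range_le_card _
  have h2 : Module.finrank K (Fl x j) ≤ j := by
    unfold Fl
    rw [hr]
    simpa [Set.finrank] using h1
  rw [htop, finrank_top, Module.finrank_fin_fun] at h2
  omega

theorem step {N : ℕ} (f : (Fin N → K) → ℝ) (B : ℝ) (hB : ∀ y, y ≠ 0 → B ≤ f y) :
    ∀ j : ℕ, j ≤ N → ∃ x : Fin N → Fin N → K, LinearIndepOn K x {i : Fin N | (i : ℕ) < j} ∧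
      ∀ i : Fin N, (i : ℕ) < j → ∀ y : Fin N → K, y ∉ Fl x i → f (x i) ≤ f y + 1 := by
  intro j
  induction j with
  | zero =>
    intro _
    refine ⟨0, ?_, fun i hi => absurd hi (Nat.not_lt_zero _)⟩
    have : {i : Fin N | (i : ℕ) < 0} = ∅ := by
      ext i
      simp
    rw [this]
    exact linearIndepOn_empty K _
  | succ j ih =>
    intro hj
    obtain ⟨x, hx, hf⟩ := ih (by omega)
    have hjN : j < N := hj
    obtain ⟨y₀, hy₀⟩ := fl_ne_top x hjN
    have hne : ∀ y, y ∉ Fl x j → y ≠ 0 := by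
      rintro y hy rfl
      exact hy (Submodule.zero_mem _)
    have hbdd : BddBelow (f '' {y | y ∉ Fl x j}) := by
      refine ⟨B, ?_⟩
      rintro _ ⟨y, hy, rfl⟩
      exact hB y (hne y hy)
    have hnon : (f '' {y | y ∉ Fl x j}).Nonempty := ⟨_, y₀, hy₀, rfl⟩
    obtain ⟨_, ⟨y₁, hy₁, rfl⟩, hlt⟩ := Real.lt_sInf_add_pos hnon one_pos
    have hy₁' : ∀ y, y ∉ Fl x j → f y₁ ≤ f y + 1 := by
      intro y hy
      have := csInf_le hbdd ⟨y, hy, rfl⟩
      linarith
    set x' : Fin N → Fin N → K := Function.update x ⟨j, hjN⟩ y₁ with hx'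
    have hold : ∀ i : Fin N, (i : ℕ) < j → x i = x' i := by
      intro i hi
      rw [hx', Function.update_of_ne]
      rintro rfl
      exact lt_irrefl _ hi
    have hnew : x' ⟨j, hjN⟩ = y₁ := by
      rw [hx', Function.update_self]
    have hfl : ∀ k : ℕ, k ≤ j → Fl x k = Fl x' k := fun k hk =>
      fl_congr fun i hi => hold i (hi.trans_le hk)
    have hset : {i : Fin N | (i : ℕ) < j + 1} = insert ⟨j, hjN⟩ {i : Fin N | (i : ℕ) < j} := by
      ext i
      simp only [Set.mem_ofPred_eq, Set.mem_insert_iff, Fin.ext_iff]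
      omega
    refine ⟨x', ?_, ?_⟩
    · rw [hset, linearIndepOn_insert (by simp)]
      refine ⟨?_, ?_⟩
      · exact (linearIndepOn_congr (fun i hi => hold i hi)).1 hx
      · rw [hnew]
        have := hfl j le_rfl
        unfold Fl at this
        rw [← this]
        exact hy₁
    · intro i hi y hy
      rcases Nat.lt_succ_iff_lt_or_eq.1 hi with h | h
      · rw [← hold i h]
        rw [← hfl i h.le] at hy
        exact hf i h y hy
      · have hi' : i = ⟨j, hjN⟩ := Fin.ext h
        subst hi'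
        rw [hnew]
        rw [← hfl _ le_rfl] at hy
        exact hy₁' y hy

end REDM

open REDM in
theorem specRED : SpecRED := by
  intro K _ _ N f hB
  obtain ⟨B, hB⟩ := hB
  obtain ⟨x, hx, hf⟩ := step f B hB N le_rfl
  refine ⟨x, ?_, fun j y hy => hf j j.2 y hy⟩
  have : {i : Fin N | (i : ℕ) < N} = Set.univ := by
    ext i
    simp
  rw [this, linearIndepOn_univ_iff] at hx
  exact hx

end Pool.Agent.Lib.MP_d0e829_nt.SS
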