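import Pool.Agent.Lib.MP_d0e829_nt.SS.SpecR
import Pool.Agent.Lib.MP_d0e829_nt.SS.RDER

/-!
# SS, module RFAC: separation of variables over the integers
-/

set_option autoImplicit false

open MvPolynomial

namespace Pool.Agent.Lib.MP_d0e829_nt.SS

namespace RFACM

theorem coeff_zero_dd {τ R : Type} [CommRing R] [Fintype τ] (J : τ →₀ ℕ) (P : MvPolynomial τ R) :
    coeff 0 (dd J P) = coeff J P := by
  rw [coeff_dd, zero_add]
  have : bin J J = 1 := by
    unfold bin
    exact Finset.prod_eq_one fun i _ => Nat.choose_self _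
  rw [this]
  simp

theorem coeff_sum_mul {σ R : Type} [CommRing R] [Fintype σ] (α : σ →₀ ℕ) (b : Unit →₀ ℕ)
    (u : MvPolynomial σ R) (v : MvPolynomial Unit R) :
    coeff (Finsupp.sumElim α b) (rename Sum.inl u * rename Sum.inr v : MvPolynomial (σ ⊕ Unit) R) =
      coeff α u * coeff b v := by
  rw [← coeff_zero_dd, dd_sum_mul, ← constantCoeff_eq, map_mul, constantCoeff_rename,
    constantCoeff_rename, constantCoeff_eq, constantCoeff_eq, coeff_zero_dd, coeff_zero_dd]

theorem exists_sumElim {σ : Type} (m : σ ⊕ Unit →₀ ℕ) :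
    ∃ (α : σ →₀ ℕ) (b : Unit →₀ ℕ), m = Finsupp.sumElim α b := by
  refine ⟨(Finsupp.sumFinsuppEquivProdFinsupp m).1, (Finsupp.sumFinsuppEquivProdFinsupp m).2, ?_⟩
  have h := Finsupp.sumFinsuppEquivProdFinsupp.symm_apply_apply m
  rw [← h]
  simp [Finsupp.sumFinsuppEquivProdFinsupp]

end RFACM

open RFACM in
theorem specRFAC : SpecRFAC := by
  intro σ _ W u v hW hmap
  classical
  have hco : ∀ (α : σ →₀ ℕ) (b : Unit →₀ ℕ),
      ((coeff (Finsupp.sumElim α b) W : ℤ) : ℚ) = coeff α u * coeff b v := by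
    intro α b
    rw [← coeff_sum_mul, ← hmap, coeff_map]
    rfl
  obtain ⟨m, hm⟩ := ne_zero_iff.1 hW
  obtain ⟨α₀, b₀, rfl⟩ := exists_sumElim m
  set U : MvPolynomial σ ℤ := ∑ α ∈ u.support, monomial α (coeff (Finsupp.sumElim α b₀) W) with hU
  set V : MvPolynomial Unit ℤ := ∑ b ∈ v.support, monomial b (coeff (Finsupp.sumElim α₀ b) W) with hV
  have hUc : ∀ α, coeff α U = coeff (Finsupp.sumElim α b₀) W := by
    intro α
    rw [hU, coeff_sum]
    simp only [coeff_monomial]
    rw [Finset.sum_ite_eq' u.support α (fun α => coeff (Finsupp.sumElim α b₀) W)]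
    split_ifs with h
    · rfl
    · have h0 := hco α b₀
      rw [notMem_support_iff.1 h, zero_mul] at h0
      exact_mod_cast h0.symm
  have hVc : ∀ b, coeff b V = coeff (Finsupp.sumElim α₀ b) W := by
    intro b
    rw [hV, coeff_sum]
    simp only [coeff_monomial]
    rw [Finset.sum_ite_eq' v.support b (fun b => coeff (Finsupp.sumElim α₀ b) W)]
    split_ifs with h
    · rfl
    · have h0 := hco α₀ b
      rw [notMem_support_iff.1 h, mul_zero] at h0
      exact_mod_cast h0.symm
  refine ⟨U, V, coeff (Finsupp.sumElim α₀ b₀) W, hm, ?_, ?_, ?_, ?_, ?_, ?_, ?_⟩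
  · rw [ne_zero_iff]
    exact ⟨α₀, by rw [hUc]; exact hm⟩
  · rw [ne_zero_iff]
    exact ⟨b₀, by rw [hVc]; exact hm⟩
  · have hUm : map (Int.castRingHom ℚ) U = C (coeff b₀ v) * u := by
      ext α
      rw [coeff_map, hUc, coeff_C_mul, mul_comm, ← hco]
      rfl
    have hVm : map (Int.castRingHom ℚ) V = C (coeff α₀ u) * v := by
      ext b
      rw [coeff_map, hVc, coeff_C_mul, ← hco]
      rfl
    apply map_injective (Int.castRingHom ℚ) (RingHom.injective_int _)
    rw [map_mul, map_mul, map_rename, map_rename, hUm, hVm, map_mul, map_mul, rename_C, rename_C,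
      map_C, hmap]
    have hc : (Int.castRingHom ℚ) (coeff (Finsupp.sumElim α₀ b₀) W) = coeff α₀ u * coeff b₀ v := hco α₀ b₀
    rw [hc, C_mul]
    ring
  · intro J
    exact ⟨_, hUc J⟩
  · intro J
    exact ⟨_, hVc J⟩
  · intro i
    rw [degreeOf_le_iff]
    intro α hα
    rw [mem_support_iff, hUc] at hα
    exact monomial_le_degreeOf (Sum.inl i) (mem_support_iff.2 hα)
  · rw [degreeOf_le_iff]
    intro b hb
    rw [mem_support_iff, hVc] at hb
    exact monomial_le_degreeOf (Sum.inr ()) (mem_support_iff.2 hb)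

end Pool.Agent.Lib.MP_d0e829_nt.SS
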