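import Pool.Agent.Lib.MP_d0e829_nt.SS.SpecR

/-!
# Roth's lemma, module RGAU: a factor `(X - ξ)^e` at one place
-/

set_option autoImplicit false

open NumberField

namespace Pool.Agent.Lib.MP_d0e829_nt.SS

namespace RGAUM

theorem max_rpow {a ω : ℝ} (ha : 0 ≤ a) (hω : 0 ≤ ω) : max 1 (a ^ ω) = (max 1 a) ^ ω := by
  rcases le_total 1 a with h | h
  · rw [max_eq_right h, max_eq_right (Real.one_le_rpow h hω)]
  · rw [max_eq_left h, max_eq_left (Real.rpow_le_one ha h hω), Real.one_rpow]

/-- from raw absolute values to normalised ones -/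
theorem norm_of_raw {K : Type} [Field K] [NumberField K] (w : Place K) (e : ℕ) (ξ b : K) {T : ℝ}
    (h : max 1 (rawAbs w ξ) ^ e * rawAbs w b ≤ Real.exp T) :
    max 1 (absV w ξ) ^ e * absV w b ≤ Real.exp (weight w * T) := by
  have hw := (weight_pos w).le
  have hm : 0 ≤ max 1 (rawAbs w ξ) := zero_le_one.trans (le_max_left _ _)
  have h1 : max 1 (absV w ξ) ^ e * absV w b =
      (max 1 (rawAbs w ξ) ^ e * rawAbs w b) ^ weight w := by
    unfold absV
    rw [max_rpow (rawAbs_nonneg w ξ) hw, Real.rpow_pow_comm hm,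
      Real.mul_rpow (pow_nonneg hm e) (rawAbs_nonneg w b)]
  rw [h1, mul_comm (weight w), Real.exp_mul]
  exact Real.rpow_le_rpow (mul_nonneg (pow_nonneg hm e) (rawAbs_nonneg w b)) h hw

/-- Gauss' lemma -/
theorem gauss {K : Type} [Field K] {v : AbsoluteValue K ℝ} (hna : IsNonarchimedean v) (e : ℕ)
    (ξ : K) (p : Polynomial ℤ) (q : Polynomial K)
    (h : p.map (Int.castRingHom K) = (Polynomial.X - Polynomial.C ξ) ^ e * q) (i : ℕ) :
    max 1 (v ξ) ^ e * v (q.coeff i) ≤ 1 := by
  have hpow : ∀ (n : ℕ) (f : Polynomial K), (f ^ n).gaussNorm v 1 = f.gaussNorm v 1 ^ n := by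
    intro n f
    induction n with
    | zero =>
      have h1 : (1 : Polynomial K) = Polynomial.C 1 := by simp
      rw [pow_zero, pow_zero, h1, Polynomial.gaussNorm_C, map_one]
    | succ n ih => rw [pow_succ, Polynomial.gaussNorm_mul hna one_pos, ih, pow_succ]
  have h1 : (p.map (Int.castRingHom K)).gaussNorm v 1 ≤ 1 := by
    obtain ⟨j, hj⟩ := Polynomial.exists_eq_gaussNorm v 1 (p.map (Int.castRingHom K))
    rw [hj, one_pow, mul_one, Polynomial.coeff_map, eq_intCast]
    exact hna.apply_intCast_le_one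
  rw [h, Polynomial.gaussNorm_mul hna one_pos, hpow] at h1
  have h2 : max 1 (v ξ) ≤ (Polynomial.X - Polynomial.C ξ).gaussNorm v 1 := by
    refine max_le ?_ ?_
    · have h3 := Polynomial.le_gaussNorm v (Polynomial.X - Polynomial.C ξ) zero_le_one 1
      simpa using h3
    · have h3 := Polynomial.le_gaussNorm v (Polynomial.X - Polynomial.C ξ) zero_le_one 0
      simpa using h3
  have h3 : v (q.coeff i) ≤ q.gaussNorm v 1 := by
    have h4 := Polynomial.le_gaussNorm v q zero_le_one i
    simpa using h4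
  have h5 : 0 ≤ max 1 (v ξ) := zero_le_one.trans (le_max_left _ _)
  exact (mul_le_mul (pow_le_pow_left₀ h5 h2 e) h3 (v.nonneg _)
    (pow_nonneg (h5.trans h2) e)).trans h1

/-- Mahler measures -/
theorem mahler (d e : ℕ) {A : ℝ} (ξ : ℂ) (p : Polynomial ℤ) (q : Polynomial ℂ)
    (hd : p.natDegree ≤ d) (hA : ∀ i, |((p.coeff i : ℤ) : ℝ)| ≤ Real.exp A)
    (h : p.map (Int.castRingHom ℂ) = (Polynomial.X - Polynomial.C ξ) ^ e * q) (i : ℕ) :
    max 1 ‖ξ‖ ^ e * ‖q.coeff i‖ ≤ Real.exp (A + d * Real.log 4) := by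
  rcases eq_or_ne q 0 with rfl | hq
  · simp [(Real.exp_pos _).le]
  have hm : 0 ≤ max 1 ‖ξ‖ := zero_le_one.trans (le_max_left _ _)
  have hqd : q.natDegree ≤ d := by
    have h1 : (p.map (Int.castRingHom ℂ)).natDegree ≤ d := Polynomial.natDegree_map_le.trans hd
    rw [h, Polynomial.natDegree_mul (pow_ne_zero _ (Polynomial.X_sub_C_ne_zero ξ)) hq] at h1
    omega
  have hM : (p.map (Int.castRingHom ℂ)).mahlerMeasure = max 1 ‖ξ‖ ^ e * q.mahlerMeasure := by
    have hpow : ∀ n : ℕ, ((Polynomial.X - Polynomial.C ξ) ^ n).mahlerMeasure = max 1 ‖ξ‖ ^ n := by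
      intro n
      induction n with
      | zero => simp
      | succ n ih =>
        rw [pow_succ, Polynomial.mahlerMeasure_mul, ih, Polynomial.mahlerMeasure_X_sub_C, pow_succ]
    rw [h, Polynomial.mahlerMeasure_mul, hpow]
  have hM2 : (p.map (Int.castRingHom ℂ)).mahlerMeasure ≤ (d + 1) * Real.exp A := by
    refine (Polynomial.mahlerMeasure_le_sum_norm_coeff _).trans ?_
    rw [Polynomial.sum_def]
    have h1 : ∀ j ∈ (p.map (Int.castRingHom ℂ)).support,
        ‖(p.map (Int.castRingHom ℂ)).coeff j‖ ≤ Real.exp A := by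
      intro j _
      rw [Polynomial.coeff_map, eq_intCast, Complex.norm_intCast]
      exact hA j
    refine (Finset.sum_le_card_nsmul _ _ _ h1).trans ?_
    rw [nsmul_eq_mul]
    refine mul_le_mul_of_nonneg_right ?_ (Real.exp_pos _).le
    have h2 := Polynomial.card_supp_le_succ_natDegree (p.map (Int.castRingHom ℂ))
    have h3 : (p.map (Int.castRingHom ℂ)).natDegree ≤ d := Polynomial.natDegree_map_le.trans hd
    have h4 : (p.map (Int.castRingHom ℂ)).support.card ≤ d + 1 := by omega
    exact_mod_cast h4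
  have hq2 : ‖q.coeff i‖ ≤ 2 ^ d * q.mahlerMeasure := by
    refine (Polynomial.norm_coeff_le_choose_mul_mahlerMeasure i q).trans ?_
    refine mul_le_mul_of_nonneg_right ?_ q.mahlerMeasure_nonneg
    have h1 : q.natDegree.choose i ≤ 2 ^ d :=
      (Nat.choose_le_two_pow _ _).trans (Nat.pow_le_pow_right (by norm_num) hqd)
    exact_mod_cast h1
  have h4 : ((d : ℝ) + 1) ≤ 2 ^ d := by
    have := Nat.lt_two_pow_self (n := d)
    exact_mod_cast this
  calc max 1 ‖ξ‖ ^ e * ‖q.coeff i‖ ≤ max 1 ‖ξ‖ ^ e * (2 ^ d * q.mahlerMeasure) :=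
        mul_le_mul_of_nonneg_left hq2 (pow_nonneg hm e)
    _ = 2 ^ d * (p.map (Int.castRingHom ℂ)).mahlerMeasure := by
        rw [hM]
        ring
    _ ≤ 2 ^ d * ((d + 1) * Real.exp A) := mul_le_mul_of_nonneg_left hM2 (by positivity)
    _ ≤ 2 ^ d * (2 ^ d * Real.exp A) :=
        mul_le_mul_of_nonneg_left (mul_le_mul_of_nonneg_right h4 (Real.exp_pos _).le)
          (by positivity)
    _ = Real.exp (A + d * Real.log 4) := by
        rw [Real.exp_add, mul_comm (d : ℝ), Real.exp_mul, Real.exp_log (by norm_num),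
          Real.rpow_natCast, ← mul_assoc, ← mul_pow, mul_comm]
        norm_num

end RGAUM

open RGAUM in
theorem specRGAU : SpecRGAU := by
  intro K _ _ w d e A ξ p q _ hd hA h i
  cases w with
  | inl w =>
    refine norm_of_raw (.inl w) e ξ (q.coeff i) ?_
    have h1 : p.map (Int.castRingHom ℂ) =
        (Polynomial.X - Polynomial.C (w.embedding ξ)) ^ e * q.map w.embedding := by
      have h2 := congrArg (Polynomial.map w.embedding) h
      rw [Polynomial.map_map, Polynomial.map_mul, Polynomial.map_pow, Polynomial.map_sub,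
        Polynomial.map_X, Polynomial.map_C] at h2
      rw [← h2]
      congr 1
      exact Subsingleton.elim _ _
    have h2 := mahler d e (w.embedding ξ) p (q.map w.embedding) hd hA h1 i
    rw [Polynomial.coeff_map, InfinitePlace.norm_embedding_eq,
      InfinitePlace.norm_embedding_eq] at h2
    exact h2
  | inr w =>
    have h1 : max 1 (rawAbs (.inr w) ξ) ^ e * rawAbs (.inr w) (q.coeff i) ≤ Real.exp 0 := by
      rw [Real.exp_zero]
      exact gauss (v := w.1) (fun x y => FinitePlace.add_le w x y) e ξ p q h i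
    have h2 := norm_of_raw (.inr w) e ξ (q.coeff i) h1
    rw [mul_zero] at h2
    rw [sw, zero_mul]
    exact h2

end Pool.Agent.Lib.MP_d0e829_nt.SS
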