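import Pool.Agent.Lib.MP_d0e829_nt.SS.SpecR

/-!
# Module RHTS: a coordinate ratio of large height
-/

set_option autoImplicit false

namespace Pool.Agent.Lib.MP_d0e829_nt.SS

noncomputable section

namespace RHTSM

variable {K : Type} [Field K] [NumberField K]

theorem supp_ht1 (x : K) :
    (Function.support fun w : Place K => Real.log (max 1 (absV w x))).Finite := by
  by_cases hx : x = 0
  · have h : (Function.support fun w : Place K => Real.log (max 1 (absV w x))) = ∅ := by
      rw [Function.support_eq_empty_iff]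
      funext w
      show Real.log (max 1 (absV w x)) = 0
      rw [hx, absV_zero, max_eq_left zero_le_one, Real.log_one]
    rw [h]
    exact Set.finite_empty
  · refine (support_log_absV_finite hx).subset ?_
    intro w hw
    by_contra hcon
    apply hw
    rw [Function.notMem_support] at hcon
    have h1 : absV w x = 1 := Real.eq_one_of_pos_of_log_eq_zero (absV_pos w hx) hcon
    show Real.log (max 1 (absV w x)) = 0
    rw [h1, max_self, Real.log_one]

theorem ht1_zero : ht1 (0 : K) = 0 := by
  unfold ht1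
  rw [show (fun w : Place K => Real.log (max 1 (absV w (0 : K)))) = fun _ => 0 by
    funext w
    rw [absV_zero, max_eq_left zero_le_one, Real.log_one], finsum_zero]

theorem ht1_one : ht1 (1 : K) = 0 := by
  unfold ht1
  rw [show (fun w : Place K => Real.log (max 1 (absV w (1 : K)))) = fun _ => 0 by
    funext w
    rw [absV_one, max_self, Real.log_one], finsum_zero]

theorem ht1_neg (x : K) : ht1 (-x) = ht1 x := by
  unfold ht1
  simp only [absV_neg]

theorem ht_zero {N : ℕ} : ht (0 : Fin N → K) = 0 := by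
  unfold ht
  rw [show (fun w : Place K => Real.log (nrm w (0 : Fin N → K))) = fun _ => 0 by
    funext w
    have h : nrm w (0 : Fin N → K) = 0 :=
      le_antisymm (nrm_le w 0 le_rfl fun j => by rw [Pi.zero_apply, absV_zero]) (nrm_nonneg w 0)
    rw [h, Real.log_zero], finsum_zero]

theorem log_nrm_le {N : ℕ} (w : Place K) {b : Fin N → K} (hb : b ≠ 0) :
    Real.log (nrm w b) ≤ ∑ i, Real.log (max 1 (absV w (b i))) := by
  have h0 : ∀ i ∈ (Finset.univ : Finset (Fin N)), max 1 (absV w (b i)) ≠ 0 := fun i _ =>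
    (lt_of_lt_of_le one_pos (le_max_left _ _)).ne'
  rw [← Real.log_prod h0]
  refine Real.log_le_log (nrm_pos w hb) (nrm_le w b ?_ ?_)
  · exact Finset.prod_nonneg fun i _ => le_trans zero_le_one (le_max_left _ _)
  · intro j
    refine (le_max_right 1 _).trans ?_
    have h1 : ∏ i ∈ Finset.univ.erase j, (1 : ℝ) ≤
        ∏ i ∈ Finset.univ.erase j, max 1 (absV w (b i)) :=
      Finset.prod_le_prod (fun _ _ => zero_le_one) fun i _ => le_max_left _ _
    rw [Finset.prod_const_one] at h1
    rw [← Finset.mul_prod_erase Finset.univ _ (Finset.mem_univ j)]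
    exact le_mul_of_one_le_right (le_trans zero_le_one (le_max_left _ _)) h1

theorem ht_le_sum {N : ℕ} {b : Fin N → K} (hb : b ≠ 0) : ht b ≤ ∑ i, ht1 (b i) := by
  unfold ht ht1
  rw [← finsum_sum_comm _ _ fun i _ => supp_ht1 (b i)]
  refine finsum_mono (support_log_nrm_finite hb) ?_ fun w => log_nrm_le w hb
  refine (Set.finite_iUnion fun i : Fin N => supp_ht1 (b i)).subset ?_
  intro w hw
  by_contra hcon
  apply hw
  rw [Set.mem_iUnion, not_exists] at hcon
  refine Finset.sum_eq_zero fun i _ => ?_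
  have h := hcon i
  rw [Function.notMem_support] at h
  exact h

end RHTSM

open RHTSM in
/-- **RHTS** (a coordinate ratio of large height). -/
theorem specRHTS : SpecRHTS := by
  intro K _ _ N a h
  have ha : a ≠ 0 := by
    rintro rfl
    rw [ht_zero] at h
    exact lt_irrefl _ h
  obtain ⟨i₀, hi₀⟩ := Function.ne_iff.mp ha
  have hi₀' : a i₀ ≠ 0 := hi₀
  have hc : (a i₀)⁻¹ ≠ 0 := inv_ne_zero hi₀'
  have hb : (a i₀)⁻¹ • a ≠ 0 := smul_ne_zero hc ha
  have h1 : ht ((a i₀)⁻¹ • a) = ht a := ht_smul hc ha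
  have h2 := ht_le_sum hb
  rw [h1] at h2
  have hN : (Finset.univ : Finset (Fin N)).Nonempty := ⟨i₀, Finset.mem_univ _⟩
  obtain ⟨i₁, -, hi₁⟩ := Finset.exists_le_of_sum_le (s := (Finset.univ : Finset (Fin N)))
    (f := fun _ => ht a) (g := fun i => (N : ℝ) * ht1 (((a i₀)⁻¹ • a) i)) hN (by
      rw [Finset.sum_const, Finset.card_univ, Fintype.card_fin, nsmul_eq_mul, ← Finset.mul_sum]
      exact mul_le_mul_of_nonneg_left h2 (Nat.cast_nonneg _))
  have e1 : ((a i₀)⁻¹ • a) i₁ = a i₁ / a i₀ := by
    rw [Pi.smul_apply, smul_eq_mul, div_eq_mul_inv, mul_comm]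
  rw [e1] at hi₁
  refine ⟨i₀, i₁, ?_, hi₀', ?_, ?_⟩
  · rintro rfl
    rw [div_self hi₀', ht1_one, mul_zero] at hi₁
    linarith
  · intro h0
    rw [h0, zero_div, ht1_zero, mul_zero] at hi₁
    linarith
  · rw [ht1_neg]
    exact hi₁

end

end Pool.Agent.Lib.MP_d0e829_nt.SS
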