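import Pool.Agent.Lib.MP_d0e829_nt.SS.SpecR
import Pool.Agent.Lib.MP_d0e829_nt.SS.RDER

/-!
# SS, module RLOW: the index of a determinant from below
-/

set_option autoImplicit false

open MvPolynomial

namespace Pool.Agent.Lib.MP_d0e829_nt.SS

theorem specRLOW : SpecRLOW := by
  intro K _ τ _ d θ P ξ k L J hv hJ
  classical
  have hdet : wdet L P = ∑ σ : Equiv.Perm (Fin k),
      Equiv.Perm.sign σ • ∏ i, dd (L i (σ i)) P := by
    unfold wdet
    rw [← Matrix.det_transpose, Matrix.det_apply]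
    rfl
  rw [hdet, dd_sum, map_sum] at hJ
  obtain ⟨σ, -, hσ⟩ := Finset.exists_ne_zero_of_sum_ne_zero hJ
  have h1 : aeval ξ (dd J (∏ i, dd (L i (σ i)) P)) ≠ 0 := by
    intro h0
    apply hσ
    rcases Int.units_eq_one_or (Equiv.Perm.sign σ) with h | h
    · rw [h, one_smul]
      exact h0
    · rw [h]
      have e : ((-1 : ℤˣ) • ∏ i, dd (L i (σ i)) P) = - ∏ i, dd (L i (σ i)) P := by
        rw [Units.smul_def]
        simp
      rw [e, dd_neg, map_neg, h0, neg_zero]
  obtain ⟨J', hJ', hne⟩ := dd_prod_ne_zero J _ ξ h1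
  refine ⟨σ, J', hJ', fun i => ?_⟩
  by_contra hcon
  push Not at hcon
  apply hne i
  rw [dd_dd, map_smul, hv _ hcon, smul_zero]

end Pool.Agent.Lib.MP_d0e829_nt.SS
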