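import Pool.Agent.Lib.MP_d0e829_nt.SS.SpecR

/-!
# RRED: Roth's lemma for blocks of variables and hyperplanes
-/

set_option autoImplicit false

open MvPolynomial

namespace Pool.Agent.Lib.MP_d0e829_nt.SS

theorem specRRED (hRCLA : SpecRCLA) (hRHTS : SpecRHTS) (hRALG : SpecRALG) : SpecRRED := by
  intro K _ _ m N hm hN ε hε
  obtain ⟨n, rfl⟩ : ∃ n, m = n + 1 := ⟨m - 1, by omega⟩
  obtain ⟨σ, C', hσ, hC', hcla⟩ := hRCLA K n ε hε
  have hN0 : (0 : ℝ) < N := by exact_mod_cast (by omega : 0 < N)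
  refine ⟨σ, N * C', hσ, by positivity, ?_⟩
  intro d D A P a hd hrat hA hP hBH hcoef ha
  have hD : (0 : ℝ) < D := by
    have := hd 0
    exact_mod_cast (by omega : 0 < D)
  have hd0 : ∀ h, (0 : ℝ) < d h := fun h => by exact_mod_cast (hd h).1
  have hht : ∀ h, 0 < ht (a h) := by
    intro h
    have h1 := (ha h).2
    have h2 : 0 < N * C' * (A + D) := by positivity
    exact (pos_iff_pos_of_mul_pos (lt_of_lt_of_le h2 h1)).1 (hd0 h)
  choose i₀ i₁ hne h0 h1 hht2 using fun h => hRHTS K N (a h) (hht h)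
  have roth := hcla d D A (fun h => -(a h (i₁ h) / a h (i₀ h))) (fun h => ⟨(hd h).1, (hd h).2⟩)
    hrat hA (fun h => by
      have e1 := (ha h).2
      have e2 : (d h : ℝ) * ht (a h) ≤ d h * (N * ht1 (-(a h (i₁ h) / a h (i₀ h)))) :=
        mul_le_mul_of_nonneg_left (hht2 h) (hd0 h).le
      have e3 : N * (C' * (A + D)) ≤ N * (d h * ht1 (-(a h (i₁ h) / a h (i₀ h)))) := by
        calc N * (C' * (A + D)) = N * C' * (A + D) := by ring
          _ ≤ _ := e1.trans e2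
          _ = _ := by ring
      exact le_of_mul_le_mul_left e3 hN0)
  obtain ⟨p, hp0, hpdeg, hpc, hpI⟩ := hRALG K (n + 1) N d P a i₀ i₁ hP hBH hne h0
  obtain ⟨I, hI1, hI2⟩ := roth p hp0 hpdeg (fun J => by
    rcases hpc J with h | ⟨J', h⟩
    · rw [h]
      simp only [Int.cast_zero, abs_zero]
      exact (Real.exp_pos A).le
    · rw [h]
      exact hcoef J')
  obtain ⟨J, x, hJ1, hJ2, hJ3⟩ := hpI I hI2
  refine ⟨J, x, ?_, hJ2, hJ3⟩
  refine le_trans (le_of_eq ?_) hI1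
  unfold wtR
  refine Finset.sum_congr rfl fun h _ => ?_
  rw [← hJ1 h]
  push_cast
  rfl

end Pool.Agent.Lib.MP_d0e829_nt.SS
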