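import Pool.Agent.Lib.MP_d0e829_nt.SS.SpecR
import Pool.Agent.Lib.MP_d0e829_nt.SS.RDER

/-!
# RSIZ: size of determinants of divided derivatives
-/

set_option autoImplicit false

open MvPolynomial

namespace Pool.Agent.Lib.MP_d0e829_nt.SS

noncomputable section

namespace RSIZM

variable {τ : Type}

/-- the sum of the absolute values of the coefficients -/
def N1 (P : MvPolynomial τ ℤ) : ℝ := ∑ J ∈ P.support, |((coeff J P : ℤ) : ℝ)|

theorem N1_eq (P : MvPolynomial τ ℤ) (S : Finset (τ →₀ ℕ)) (h : P.support ⊆ S) :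
    N1 P = ∑ J ∈ S, |((coeff J P : ℤ) : ℝ)| := by
  unfold N1
  refine Finset.sum_subset h fun J _ hJ => ?_
  rw [notMem_support_iff.1 hJ]
  simp

theorem N1_nonneg (P : MvPolynomial τ ℤ) : 0 ≤ N1 P := Finset.sum_nonneg fun _ _ => abs_nonneg _

theorem coeff_le (P : MvPolynomial τ ℤ) (J : τ →₀ ℕ) : |((coeff J P : ℤ) : ℝ)| ≤ N1 P := by
  classical
  by_cases h : J ∈ P.support
  · exact Finset.single_le_sum (f := fun J => |((coeff J P : ℤ) : ℝ)|) (fun _ _ => abs_nonneg _) h
  · rw [notMem_support_iff.1 h]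
    simpa using N1_nonneg P

theorem N1_add (P Q : MvPolynomial τ ℤ) : N1 (P + Q) ≤ N1 P + N1 Q := by
  classical
  set S := (P + Q).support ∪ (P.support ∪ Q.support) with hS
  rw [N1_eq (P + Q) S Finset.subset_union_left,
    N1_eq P S (Finset.subset_union_left.trans Finset.subset_union_right),
    N1_eq Q S (Finset.subset_union_right.trans Finset.subset_union_right),
    ← Finset.sum_add_distrib]
  refine Finset.sum_le_sum fun J _ => ?_
  rw [coeff_add, Int.cast_add]
  exact abs_add_le _ _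

theorem N1_zero : N1 (0 : MvPolynomial τ ℤ) = 0 := by simp [N1]

theorem N1_neg (P : MvPolynomial τ ℤ) : N1 (-P) = N1 P := by
  unfold N1
  rw [support_neg]
  refine Finset.sum_congr rfl fun J _ => ?_
  rw [coeff_neg, Int.cast_neg, abs_neg]

theorem N1_sum {ι : Type} (s : Finset ι) (f : ι → MvPolynomial τ ℤ) :
    N1 (∑ i ∈ s, f i) ≤ ∑ i ∈ s, N1 (f i) := by
  classical
  induction s using Finset.induction_on with
  | empty => simp [N1_zero]
  | insert a s ha ih =>
    rw [Finset.sum_insert ha, Finset.sum_insert ha]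
    exact (N1_add _ _).trans (by linarith)

theorem N1_monomial (J : τ →₀ ℕ) (c : ℤ) : N1 (monomial J c) ≤ |(c : ℝ)| := by
  classical
  rw [N1_eq (monomial J c) {J} support_monomial_subset, Finset.sum_singleton, coeff_monomial,
    if_pos rfl]

theorem N1_mul (P Q : MvPolynomial τ ℤ) : N1 (P * Q) ≤ N1 P * N1 Q := by
  classical
  have h : P * Q = ∑ a ∈ P.support, ∑ b ∈ Q.support,
      monomial (a + b) (coeff a P * coeff b Q) := by
    rw [MvPolynomial.mul_def]
    rfl
  rw [h]
  refine (N1_sum _ _).trans ?_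
  unfold N1
  rw [Finset.sum_mul]
  refine Finset.sum_le_sum fun a _ => ?_
  refine (N1_sum _ _).trans ?_
  rw [Finset.mul_sum]
  refine Finset.sum_le_sum fun b _ => ?_
  refine (N1_monomial _ _).trans (le_of_eq ?_)
  rw [Int.cast_mul, abs_mul]

theorem N1_one : N1 (1 : MvPolynomial τ ℤ) ≤ 1 := by
  have := N1_monomial (0 : τ →₀ ℕ) 1
  simpa using this

theorem N1_prod {ι : Type} (s : Finset ι) (f : ι → MvPolynomial τ ℤ) (B : ℝ) (hB : 0 ≤ B)
    (h : ∀ i ∈ s, N1 (f i) ≤ B) : N1 (∏ i ∈ s, f i) ≤ B ^ s.card := by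
  classical
  induction s using Finset.induction_on with
  | empty => simpa using N1_one
  | insert a s ha ih =>
    rw [Finset.prod_insert ha, Finset.card_insert_of_notMem ha, pow_succ, mul_comm (B ^ _)]
    refine (N1_mul _ _).trans ?_
    exact mul_le_mul (h a (Finset.mem_insert_self a s))
      (ih fun i hi => h i (Finset.mem_insert_of_mem hi)) (N1_nonneg _) hB

theorem bin_le [Fintype τ] (d : τ → ℕ) (α J : τ →₀ ℕ) (h : ∀ i, α i ≤ d i) :
    bin α J ≤ 2 ^ (∑ i, d i) := by
  unfold bin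
  rw [← Finset.prod_pow_eq_pow_sum]
  refine Finset.prod_le_prod' fun i _ => ?_
  exact (Nat.choose_le_two_pow _ _).trans (Nat.pow_le_pow_right (by norm_num) (h i))

theorem N1_dd [Fintype τ] (d : τ → ℕ) (P : MvPolynomial τ ℤ) (hd : ∀ i, degreeOf i P ≤ d i)
    (J : τ →₀ ℕ) : N1 (dd J P) ≤ 2 ^ (∑ i, d i) * N1 P := by
  classical
  have h1 : N1 (dd J P) ≤ ∑ α ∈ (dd J P).support,
      2 ^ (∑ i, d i) * |((coeff (α + J) P : ℤ) : ℝ)| := by
    unfold N1
    refine Finset.sum_le_sum fun α hα => ?_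
    rw [mem_support_iff, coeff_dd] at hα
    have hne : coeff (α + J) P ≠ 0 := right_ne_zero_of_mul hα
    rw [coeff_dd, Int.cast_mul, abs_mul]
    refine mul_le_mul_of_nonneg_right ?_ (abs_nonneg _)
    have h2 : bin (α + J) J ≤ 2 ^ (∑ i, d i) := by
      refine bin_le d _ _ fun i => ?_
      exact (monomial_le_degreeOf i (mem_support_iff.2 hne)).trans (hd i)
    have h3 : |(((bin (α + J) J : ℤ)) : ℝ)| = (bin (α + J) J : ℝ) := by
      rw [Int.cast_natCast, abs_of_nonneg (Nat.cast_nonneg _)]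
    rw [h3]
    exact_mod_cast h2
  refine h1.trans ?_
  rw [← Finset.mul_sum]
  refine mul_le_mul_of_nonneg_left ?_ (by positivity)
  have h2 : ∑ α ∈ (dd J P).support, |((coeff (α + J) P : ℤ) : ℝ)| =
      ∑ β ∈ (dd J P).support.image (fun α => α + J), |((coeff β P : ℤ) : ℝ)| := by
    rw [Finset.sum_image]
    intro x _ y _ hxy
    exact add_right_cancel hxy
  rw [h2]
  unfold N1
  refine Finset.sum_le_sum_of_subset_of_nonneg ?_ fun _ _ _ => abs_nonneg _
  intro β hβ
  rw [Finset.mem_image] at hβ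
  obtain ⟨α, hα, rfl⟩ := hβ
  rw [mem_support_iff, coeff_dd] at hα
  exact mem_support_iff.2 (right_ne_zero_of_mul hα)

theorem card_support_le [Fintype τ] (d : τ → ℕ) (P : MvPolynomial τ ℤ)
    (hd : ∀ i, degreeOf i P ≤ d i) : P.support.card ≤ 2 ^ (∑ i, d i) := by
  classical
  have h1 : P.support.card ≤ (Fintype.piFinset fun i => Finset.range (d i + 1)).card := by
    refine Finset.card_le_card_of_injOn (fun s => (s : τ → ℕ)) ?_ ?_
    · intro s hs
      rw [Finset.mem_coe, Fintype.mem_piFinset]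
      intro i
      exact Finset.mem_range.2 (Nat.lt_succ_of_le ((monomial_le_degreeOf i hs).trans (hd i)))
    · intro s _ t _ hst
      exact DFunLike.coe_injective hst
  refine h1.trans ?_
  rw [Fintype.card_piFinset, ← Finset.prod_pow_eq_pow_sum]
  refine Finset.prod_le_prod' fun i _ => ?_
  rw [Finset.card_range]
  exact Nat.lt_two_pow_self

theorem N1_le [Fintype τ] (d : τ → ℕ) (A : ℝ) (P : MvPolynomial τ ℤ)
    (hd : ∀ i, degreeOf i P ≤ d i) (hc : ∀ J, |((coeff J P : ℤ) : ℝ)| ≤ Real.exp A) :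
    N1 P ≤ 2 ^ (∑ i, d i) * Real.exp A := by
  unfold N1
  refine (Finset.sum_le_sum fun J _ => hc J).trans ?_
  rw [Finset.sum_const, nsmul_eq_mul]
  refine mul_le_mul_of_nonneg_right ?_ (Real.exp_pos _).le
  exact_mod_cast card_support_le d P hd

/-- multiplication by a sign -/
theorem sign_smul_cases (ε : ℤˣ) (Q : MvPolynomial τ ℤ) : ε • Q = Q ∨ ε • Q = -Q := by
  rcases Int.units_eq_one_or ε with h | h
  · left; rw [h, one_smul]
  · right; rw [h, Units.neg_smul, one_smul]

end RSIZM

open RSIZM in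
theorem specRSIZ : SpecRSIZ := by
  intro τ _ d A P k L hA hd hc
  classical
  have hdet : wdet L P = ∑ π : Equiv.Perm (Fin k), Equiv.Perm.sign π •
      ∏ i, dd (L (π i) i) P := by
    unfold wdet
    rw [Matrix.det_apply]
    rfl
  constructor
  · intro i
    rw [hdet]
    refine (degreeOf_sum_le i _ _).trans (Finset.sup_le fun π _ => ?_)
    have h1 : degreeOf i (Equiv.Perm.sign π • ∏ l, dd (L (π l) l) P) =
        degreeOf i (∏ l, dd (L (π l) l) P) := by
      rcases sign_smul_cases (Equiv.Perm.sign π) (∏ l, dd (L (π l) l) P) with h | h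
      · rw [h]
      · rw [h, degreeOf_eq_sup, degreeOf_eq_sup, support_neg]
    rw [h1]
    refine (degreeOf_prod_le i _ _).trans ?_
    calc ∑ l, degreeOf i (dd (L (π l) l) P) ≤ ∑ l : Fin k, d i :=
          Finset.sum_le_sum fun l _ => (degreeOf_dd_le i _ P).trans (hd i)
      _ = k * d i := by simp
  · intro J
    refine (coeff_le _ J).trans ?_
    set D := ∑ i, d i with hD
    have h1 : ∀ J, N1 (dd J P) ≤ 4 ^ D * Real.exp A := by
      intro J
      refine (N1_dd d P hd J).trans ?_
      have h2 := N1_le d A P hd hc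
      calc (2 : ℝ) ^ D * N1 P ≤ 2 ^ D * (2 ^ D * Real.exp A) :=
            mul_le_mul_of_nonneg_left h2 (by positivity)
        _ = 4 ^ D * Real.exp A := by
            rw [← mul_assoc, ← mul_pow]; norm_num
    have h2 : N1 (wdet L P) ≤ (k.factorial : ℝ) * (4 ^ D * Real.exp A) ^ k := by
      rw [hdet]
      refine (N1_sum _ _).trans ?_
      have h3 : ∀ π ∈ (Finset.univ : Finset (Equiv.Perm (Fin k))),
          N1 (Equiv.Perm.sign π • ∏ i, dd (L (π i) i) P) ≤ (4 ^ D * Real.exp A) ^ k := by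
        intro π _
        have h4 : N1 (Equiv.Perm.sign π • ∏ l, dd (L (π l) l) P) =
            N1 (∏ l, dd (L (π l) l) P) := by
          rcases sign_smul_cases (Equiv.Perm.sign π) (∏ l, dd (L (π l) l) P) with h | h
          · rw [h]
          · rw [h, N1_neg]
        rw [h4]
        have h5 := N1_prod Finset.univ (fun l : Fin k => dd (L (π l) l) P) (4 ^ D * Real.exp A)
          (by positivity) (fun l _ => h1 _)
        simpa using h5
      refine (Finset.sum_le_sum h3).trans (le_of_eq ?_)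
      rw [Finset.sum_const, Finset.card_univ, Fintype.card_perm, Fintype.card_fin, nsmul_eq_mul]
    refine h2.trans ?_
    have h3 : (k.factorial : ℝ) ≤ Real.exp (k * k) := by
      have e1 : (k.factorial : ℝ) ≤ (k : ℝ) ^ k := by exact_mod_cast Nat.factorial_le_pow k
      have e2 : (k : ℝ) ≤ Real.exp k := by
        have := Real.add_one_le_exp (k : ℝ)
        linarith
      calc (k.factorial : ℝ) ≤ (k : ℝ) ^ k := e1
        _ ≤ Real.exp k ^ k := pow_le_pow_left₀ (Nat.cast_nonneg k) e2 k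
        _ = Real.exp (k * k) := by rw [← Real.exp_nat_mul]
    have h4 : (4 : ℝ) ^ D ≤ Real.exp (2 * D) := by
      have e1 : (4 : ℝ) ≤ Real.exp 2 := by
        have e2 := Real.add_one_le_exp (1 : ℝ)
        have e3 : Real.exp 2 = Real.exp 1 * Real.exp 1 := by rw [← Real.exp_add]; norm_num
        rw [e3]
        nlinarith
      calc (4 : ℝ) ^ D ≤ Real.exp 2 ^ D := pow_le_pow_left₀ (by norm_num) e1 D
        _ = Real.exp (2 * D) := by rw [← Real.exp_nat_mul]; ring_nf
    have hDr : ((D : ℕ) : ℝ) = ∑ i, (d i : ℝ) := by rw [hD]; push_cast; rfl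
    calc (k.factorial : ℝ) * (4 ^ D * Real.exp A) ^ k ≤
          Real.exp (k * k) * (Real.exp (2 * D) * Real.exp A) ^ k := by
          refine mul_le_mul h3 ?_ (by positivity) (Real.exp_pos _).le
          refine pow_le_pow_left₀ (by positivity) ?_ k
          exact mul_le_mul_of_nonneg_right h4 (Real.exp_pos _).le
      _ = Real.exp (k * (A + k + 2 * ∑ i, (d i : ℝ))) := by
          rw [← Real.exp_add, ← Real.exp_nat_mul, ← Real.exp_add, hDr]
          congr 1
          ring

end

end Pool.Agent.Lib.MP_d0e829_nt.SS
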