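import Pool.Agent.Lib.MP_d0e829_nt.SS.SpecR
import Pool.Agent.Lib.MP_d0e829_nt.SS.RDER

/-!
# RSTP: the induction step of Roth's lemma
-/

set_option autoImplicit false

open MvPolynomial

namespace Pool.Agent.Lib.MP_d0e829_nt.SS

noncomputable section

namespace RSTPM

variable {τ : Type} [Fintype τ]

theorem wt_add (d : τ → ℕ) (I J : τ →₀ ℕ) : wtR d (I + J) = wtR d I + wtR d J := by
  unfold wtR
  rw [← Finset.sum_add_distrib]
  refine Finset.sum_congr rfl fun i _ => ?_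
  rw [Finsupp.add_apply]
  push_cast
  ring

theorem wt_nonneg (d : τ → ℕ) (J : τ →₀ ℕ) : 0 ≤ wtR d J := by
  unfold wtR
  exact Finset.sum_nonneg fun i _ => by positivity

theorem wt_sum {k : ℕ} (d : τ → ℕ) (J : Fin k → (τ →₀ ℕ)) :
    wtR d (∑ i, J i) = ∑ i, wtR d (J i) := by
  unfold wtR
  rw [Finset.sum_comm]
  refine Finset.sum_congr rfl fun i _ => ?_
  rw [Finsupp.finsetSum_apply]
  push_cast
  rw [Finset.sum_div]

theorem wt_sumElim {σ : Type} [Fintype σ] (d : σ → ℕ) (e : ℕ) (I : σ →₀ ℕ) (J : Unit →₀ ℕ) :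
    wtR (Sum.elim d fun _ : Unit => e) (Finsupp.sumElim I J) = wtR d I + (J () : ℝ) / e := by
  unfold wtR
  rw [Fintype.sum_sum_type]
  simp

/-- weights for the degrees `k d` -/
theorem wt_mul {σ : Type} [Fintype σ] (d : σ → ℕ) (k : ℕ) (hk : 1 ≤ k) (J : σ →₀ ℕ) :
    wtR d J = k * wtR (fun i => k * d i) J := by
  have hk0 : (k : ℝ) ≠ 0 := by
    have : 0 < k := hk
    exact_mod_cast this.ne'
  unfold wtR
  rw [Finset.mul_sum]
  refine Finset.sum_congr rfl fun i _ => ?_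
  push_cast
  rw [← mul_div_assoc, mul_div_mul_left _ _ hk0]

/-- the numerical estimate -/
theorem num (k e : ℕ) (θ : ℝ) (hk : 1 ≤ k) (he : 1 ≤ e) (hke : k ≤ e + 1) (h0 : 0 < θ)
    (h1 : θ ≤ 1) : k * θ ^ 2 / 8 ≤ ∑ l : Fin k, max 0 (θ - (l : ℝ) / e) := by
  rw [Fin.sum_univ_eq_sum_range (fun l : ℕ => max 0 (θ - (l : ℝ) / e)) k]
  set m := min k (⌊(e : ℝ) * θ / 2⌋₊ + 1) with hm
  have he0 : (0 : ℝ) < e := by exact_mod_cast he
  have hsub : Finset.range m ⊆ Finset.range k := Finset.range_subset_range.2 (min_le_left _ _)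
  have h2 : ∑ l ∈ Finset.range m, max 0 (θ - (l : ℝ) / e) ≤
      ∑ l ∈ Finset.range k, max 0 (θ - (l : ℝ) / e) :=
    Finset.sum_le_sum_of_subset_of_nonneg hsub fun _ _ _ => le_max_left _ _
  refine le_trans ?_ h2
  have h3 : ∀ l ∈ Finset.range m, θ / 2 ≤ max 0 (θ - (l : ℝ) / e) := by
    intro l hl
    rw [Finset.mem_range, hm, lt_min_iff] at hl
    have h4 : l ≤ ⌊(e : ℝ) * θ / 2⌋₊ := by omega
    have h5 : (l : ℝ) ≤ (e : ℝ) * θ / 2 := (Nat.le_floor_iff (by positivity)).1 h4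
    have h6 : (l : ℝ) / e ≤ θ / 2 := by
      rw [div_le_iff₀ he0]
      linarith
    exact le_max_of_le_right (by linarith)
  have h4 : (m : ℝ) * (θ / 2) ≤ ∑ l ∈ Finset.range m, max 0 (θ - (l : ℝ) / e) := by
    have := Finset.sum_le_sum h3
    rw [Finset.sum_const, Finset.card_range, nsmul_eq_mul] at this
    exact this
  refine le_trans ?_ h4
  have hk0 : (0 : ℝ) < k := by exact_mod_cast hk
  have h5 : (k : ℝ) * θ / 4 ≤ m := by
    rcases min_choice k (⌊(e : ℝ) * θ / 2⌋₊ + 1) with h | h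
    · rw [hm, h]
      nlinarith
    · rw [hm, h]
      have h6 := Nat.lt_floor_add_one ((e : ℝ) * θ / 2)
      have h7 : (k : ℝ) ≤ 2 * e := by
        have : k ≤ 2 * e := by omega
        exact_mod_cast this
      push_cast
      nlinarith
  nlinarith

end RSTPM

open RSTPM in
theorem specRSTP (hRWDT : SpecRWDT) (hRSIZ : SpecRSIZ) (hRFAC : SpecRFAC) (hRLOW : SpecRLOW) :
    SpecRSTP := by
  intro K _ _ σ _ d e A ε ξ η hd he hA hε0 hε1 hed H1 H2 P hP hdeg hco
  by_contra hno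
  have hno' : ∀ J : (σ ⊕ Unit) →₀ ℕ, wtR (Sum.elim d fun _ : Unit => e) J ≤ ε →
      aeval (Sum.elim ξ fun _ : Unit => η) (dd J P) = 0 := by
    intro J hJ
    by_contra h
    exact hno ⟨J, hJ, h⟩
  obtain ⟨k, hk1, hke, μ, ν, hμ, hν, hW, u, v, hmap⟩ := hRWDT σ e P hP (hdeg (Sum.inr ()))
  obtain ⟨hWdeg, hWco⟩ := hRSIZ (σ ⊕ Unit) (Sum.elim d fun _ : Unit => e) A P k
    (fun i l => Finsupp.sumElim (μ i) (ν l)) hA hdeg hco
  set W := wdet (fun i l => Finsupp.sumElim (μ i) (ν l)) P with hWdef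
  obtain ⟨U, V, c, hc, hU, hV, hUV, hUco, hVco, hUdeg, hVdeg⟩ := hRFAC σ W u v hW hmap
  have hsum : ∑ i : σ ⊕ Unit, ((Sum.elim d (fun _ : Unit => e) i : ℕ) : ℝ) = ∑ i, (d i : ℝ) + e := by
    rw [Fintype.sum_sum_type]
    simp
  rw [hsum] at hWco
  obtain ⟨J₁, hJ₁, hJ₁'⟩ := H1 k hk1 hke U hU
    (fun i => (hUdeg i).trans (by simpa using hWdeg (Sum.inl i)))
    (fun J => by
      obtain ⟨J', hJ'⟩ := hUco J
      rw [hJ']
      exact hWco J')
  obtain ⟨J₂, hJ₂, hJ₂'⟩ := H2 k hk1 hke V hV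
    (fun i => hVdeg.trans (by simpa using hWdeg (Sum.inr ())))
    (fun J => by
      obtain ⟨J', hJ'⟩ := hVco J
      rw [hJ']
      exact hWco J')
  set J := Finsupp.sumElim J₁ J₂ with hJ
  have hne : aeval (Sum.elim ξ fun _ : Unit => η) (dd J W) ≠ 0 := by
    intro h0
    have e1 : dd J (rename Sum.inl U * rename Sum.inr V) =
        rename Sum.inl (dd J₁ U) * rename Sum.inr (dd J₂ V) := dd_sum_mul J₁ J₂ U V
    rw [hUV, dd_C_mul] at e1
    have e2 := congrArg (aeval (Sum.elim ξ fun _ : Unit => η)) e1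
    rw [map_mul, h0, mul_zero, map_mul, aeval_rename, aeval_rename, Sum.elim_comp_inl,
      Sum.elim_comp_inr] at e2
    rcases mul_eq_zero.1 e2.symm with h | h
    · exact hJ₁' h
    · exact hJ₂' h
  obtain ⟨π, J', hJ'sum, hJ'⟩ := hRLOW K (σ ⊕ Unit) (Sum.elim d fun _ : Unit => e) ε P
    (Sum.elim ξ fun _ : Unit => η) k (fun i l => Finsupp.sumElim (μ i) (ν l)) J hno' hne
  have hk0 : (0 : ℝ) < k := by exact_mod_cast hk1
  have he0 : (0 : ℝ) < e := by exact_mod_cast he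
  -- the weight of `J`
  have hwJ : wtR (Sum.elim d fun _ : Unit => e) J ≤ k * ε ^ 2 / 32 := by
    rw [hJ, wt_sumElim, wt_mul d k hk1 J₁]
    have e1 : (J₂ () : ℝ) / e = k * wtR (fun _ : Unit => k * e) J₂ := by
      have h1 := wt_mul (fun _ : Unit => e) k hk1 J₂
      rw [← h1]
      unfold wtR
      simp
    rw [e1]
    have e2 := mul_le_mul_of_nonneg_left hJ₁ hk0.le
    have e3 := mul_le_mul_of_nonneg_left hJ₂ hk0.le
    linarith
  -- the weights of the `J' i`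
  have hwi : ∀ i, 3 * ε / 4 - ((π i : ℕ) : ℝ) / e ≤ wtR (Sum.elim d fun _ : Unit => e) (J' i) := by
    intro i
    have h1 := hJ' i
    rw [wt_add, wt_sumElim] at h1
    have h2 : wtR d (μ i) ≤ ε / 4 := by
      have e1 : wtR d (μ i) ≤ ∑ s, (μ i s : ℝ) * (ε / (4 * e)) := by
        unfold wtR
        refine Finset.sum_le_sum fun s _ => ?_
        rw [div_eq_mul_inv]
        refine mul_le_mul_of_nonneg_left ?_ (Nat.cast_nonneg _)
        have hds : (0 : ℝ) < d s := by exact_mod_cast hd s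
        rw [inv_eq_one_div, div_le_div_iff₀ hds (by positivity)]
        have := hed s
        linarith
      rw [← Finset.sum_mul] at e1
      have e2 : ∑ s, (μ i s : ℝ) ≤ e := by
        have e3 : ∑ s, μ i s ≤ e := (hμ i).trans (by have := i.2; omega)
        exact_mod_cast e3
      have e3 : (∑ s, (μ i s : ℝ)) * (ε / (4 * e)) ≤ e * (ε / (4 * e)) :=
        mul_le_mul_of_nonneg_right e2 (by positivity)
      have e4 : (e : ℝ) * (ε / (4 * e)) = ε / 4 := by field_simp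
      linarith
    have h3 : (ν (π i) () : ℝ) / e ≤ ((π i : ℕ) : ℝ) / e := by
      have : (ν (π i) () : ℝ) ≤ ((π i : ℕ) : ℝ) := by exact_mod_cast hν (π i)
      exact div_le_div_of_nonneg_right this he0.le
    linarith
  have hsumJ : wtR (Sum.elim d fun _ : Unit => e) J = ∑ i, wtR (Sum.elim d fun _ : Unit => e) (J' i) := by
    rw [← hJ'sum, wt_sum]
  have hlow : ∑ l : Fin k, max 0 (3 * ε / 4 - ((l : ℕ) : ℝ) / e) ≤
      wtR (Sum.elim d fun _ : Unit => e) J := by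
    rw [hsumJ, ← Equiv.sum_comp π]
    refine Finset.sum_le_sum fun i _ => ?_
    exact max_le (wt_nonneg _ _) (hwi i)
  have hnum := num k e (3 * ε / 4) hk1 he hke (by positivity) (by linarith)
  have hpos : 0 < k * ε ^ 2 := by positivity
  nlinarith

end

end Pool.Agent.Lib.MP_d0e829_nt.SS
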