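import Pool.Agent.Lib.MP_d0e829_nt.SS.SpecR

/-!
# RWRO: generalised Wronskians
-/

set_option autoImplicit false

open MvPolynomial

namespace Pool.Agent.Lib.MP_d0e829_nt.SS

namespace RWROM

variable {σ : Type} {k : ℕ}

/-- the vector of the divided derivatives of order `μ`, over the field of fractions -/
noncomputable def vv (f : Fin k → MvPolynomial σ ℚ) (μ : σ →₀ ℕ) :
    Fin k → FractionRing (MvPolynomial σ ℚ) :=
  fun j => algebraMap (MvPolynomial σ ℚ) (FractionRing (MvPolynomial σ ℚ)) (dd μ (f j))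

/-- the span of the vectors of order `< r` -/
noncomputable def VV [Fintype σ] (f : Fin k → MvPolynomial σ ℚ) (r : ℕ) :
    Submodule (FractionRing (MvPolynomial σ ℚ)) (Fin k → FractionRing (MvPolynomial σ ℚ)) :=
  Submodule.span (FractionRing (MvPolynomial σ ℚ)) {v | ∃ μ : σ →₀ ℕ, ∑ s, μ s < r ∧ v = vv f μ}

lemma inj (σ : Type) : Function.Injective
    (algebraMap (MvPolynomial σ ℚ) (FractionRing (MvPolynomial σ ℚ))) :=
  IsFractionRing.injective _ _

lemma mem_VV [Fintype σ] (f : Fin k → MvPolynomial σ ℚ) {r : ℕ} {μ : σ →₀ ℕ}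
    (h : ∑ s, μ s < r) : vv f μ ∈ VV f r :=
  Submodule.subset_span ⟨μ, h, rfl⟩

lemma VV_mono [Fintype σ] (f : Fin k → MvPolynomial σ ℚ) (r : ℕ) : VV f r ≤ VV f (r + 1) := by
  refine Submodule.span_mono ?_
  rintro v ⟨μ, h, rfl⟩
  exact ⟨μ, by omega, rfl⟩

/-- the functional of a vector of polynomials -/
noncomputable def fun' (a : Fin k → MvPolynomial σ ℚ) :
    (Fin k → FractionRing (MvPolynomial σ ℚ)) →ₗ[FractionRing (MvPolynomial σ ℚ)]
      FractionRing (MvPolynomial σ ℚ) :=
  ∑ j, (algebraMap (MvPolynomial σ ℚ) (FractionRing (MvPolynomial σ ℚ)) (a j)) •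
    LinearMap.proj j

lemma fun'_vv (f a : Fin k → MvPolynomial σ ℚ) (μ : σ →₀ ℕ) :
    fun' a (vv f μ) = algebraMap (MvPolynomial σ ℚ) (FractionRing (MvPolynomial σ ℚ))
      (∑ j, a j * dd μ (f j)) := by
  simp only [fun', vv, LinearMap.sum_apply, LinearMap.smul_apply, LinearMap.proj_apply,
    smul_eq_mul, map_sum, map_mul]

/-- an element of `Ann_r` kills the span -/
lemma ann_le [Fintype σ] (f a : Fin k → MvPolynomial σ ℚ) (r : ℕ) (ha : a ∈ annR f r) :
    VV f (r + 1) ≤ LinearMap.ker (fun' a) := by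
  refine Submodule.span_le.2 ?_
  rintro v ⟨μ, h, rfl⟩
  rw [SetLike.mem_coe, LinearMap.mem_ker, fun'_vv, ha μ (by omega), map_zero]

lemma mem_ann [Fintype σ] (f a : Fin k → MvPolynomial σ ℚ) (r : ℕ)
    (h : VV f (r + 1) ≤ LinearMap.ker (fun' a)) : a ∈ annR f r := by
  intro μ hμ
  have h1 := h (mem_VV f (μ := μ) (r := r + 1) (by omega))
  rw [LinearMap.mem_ker, fun'_vv] at h1
  exact (map_eq_zero_iff _ (inj σ)).1 h1

/-- a proper subspace has a nonzero polynomial relation -/
lemma exists_rel (W : Submodule (FractionRing (MvPolynomial σ ℚ))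
    (Fin k → FractionRing (MvPolynomial σ ℚ))) (hW : W ≠ ⊤) :
    ∃ a : Fin k → MvPolynomial σ ℚ, a ≠ 0 ∧ W ≤ LinearMap.ker (fun' a) := by
  classical
  obtain ⟨φ, hφ, hle⟩ := Submodule.exists_le_ker_of_lt_top W (lt_top_iff_ne_top.2 hW)
  obtain ⟨b, hb⟩ := IsLocalization.exist_integer_multiples_of_finite
    (nonZeroDivisors (MvPolynomial σ ℚ))
    (fun j : Fin k => φ (fun i => if j = i then 1 else 0))
  choose a ha using hb
  have hb0 : algebraMap (MvPolynomial σ ℚ) (FractionRing (MvPolynomial σ ℚ)) (b : MvPolynomial σ ℚ)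
      ≠ 0 := by
    rw [Ne, map_eq_zero_iff _ (inj σ)]
    exact nonZeroDivisors.ne_zero b.2
  have key : ∀ v, fun' a v = algebraMap (MvPolynomial σ ℚ) (FractionRing (MvPolynomial σ ℚ))
      (b : MvPolynomial σ ℚ) * φ v := by
    intro v
    rw [LinearMap.pi_apply_eq_sum_univ φ v, Finset.mul_sum]
    simp only [fun', LinearMap.sum_apply, LinearMap.smul_apply, LinearMap.proj_apply, smul_eq_mul]
    refine Finset.sum_congr rfl fun j _ => ?_
    rw [ha j, Algebra.smul_def]
    ring
  refine ⟨a, ?_, ?_⟩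
  · rintro rfl
    apply hφ
    ext v
    have h1 := key (LinearMap.single (FractionRing (MvPolynomial σ ℚ))
      (fun _ => FractionRing (MvPolynomial σ ℚ)) v 1)
    have h2 : fun' (0 : Fin k → MvPolynomial σ ℚ) = 0 := by
      simp [fun']
    rw [h2, LinearMap.zero_apply] at h1
    have h3 := (mul_eq_zero.1 h1.symm).resolve_left hb0
    simpa using h3
  · intro v hv
    rw [LinearMap.mem_ker, key, LinearMap.mem_ker.1 (hle hv), mul_zero]

/-- a stable span is everything -/
lemma stable [Fintype σ] (hRANN : SpecRANN) (f : Fin k → MvPolynomial σ ℚ)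
    (hf : LinearIndependent ℚ f) (r : ℕ) (h : VV f (r + 2) ≤ VV f (r + 1)) :
    VV f (r + 1) = ⊤ := by
  by_contra hne
  obtain ⟨a, ha0, ha⟩ := exists_rel _ hne
  have h1 : annR f r ⊆ annR f (r + 1) := by
    intro b hb
    exact mem_ann f b (r + 1) (h.trans (ann_le f b r hb))
  exact ha0 (hRANN σ k f r hf h1 a (mem_ann f a r ha))

lemma lt_of_ne_top [Fintype σ] (hRANN : SpecRANN) (f : Fin k → MvPolynomial σ ℚ)
    (hf : LinearIndependent ℚ f) (r : ℕ) (h : VV f (r + 1) ≠ ⊤) : VV f (r + 1) < VV f (r + 2) :=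
  lt_of_le_not_ge (VV_mono f (r + 1)) fun h' => h (stable hRANN f hf r h')

lemma dd_zero_ind (p : MvPolynomial σ ℚ) : dd 0 p = p := by
  have h : ((constantCoeff : MvPolynomial σ (MvPolynomial σ ℚ) →+* MvPolynomial σ ℚ).comp
      (aeval (fun i => (C (X i) + X i : MvPolynomial σ (MvPolynomial σ ℚ))) :
        MvPolynomial σ ℚ →ₐ[ℚ] MvPolynomial σ (MvPolynomial σ ℚ)).toRingHom) =
      RingHom.id (MvPolynomial σ ℚ) := by
    refine MvPolynomial.ringHom_ext (fun r => ?_) (fun i => ?_)
    · simp [MvPolynomial.algebraMap_eq]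
    · simp
  have h2 := RingHom.congr_fun h p
  simpa [dd, tayl, constantCoeff_eq] using h2

lemma le_finrank [Fintype σ] (hRANN : SpecRANN) (f : Fin k → MvPolynomial σ ℚ)
    (hf : LinearIndependent ℚ f) : ∀ r : ℕ, r + 1 ≤ k →
      r + 1 ≤ Module.finrank (FractionRing (MvPolynomial σ ℚ)) (VV f (r + 1)) := by
  intro r
  induction r with
  | zero =>
    intro hk
    have hne : VV f 1 ≠ ⊥ := by
      intro h
      have h1 : vv f 0 ∈ VV f 1 := mem_VV f (by simp)
      rw [h, Submodule.mem_bot] at h1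
      have h2 := congrFun h1 ⟨0, by omega⟩
      simp only [vv, Pi.zero_apply] at h2
      rw [map_eq_zero_iff _ (inj σ), dd_zero_ind] at h2
      exact hf.ne_zero _ h2
    have h3 : Module.finrank (FractionRing (MvPolynomial σ ℚ)) (VV f 1) ≠ 0 := by
      rw [Ne, Submodule.finrank_eq_zero]
      exact hne
    exact Nat.one_le_iff_ne_zero.2 h3
  | succ r ih =>
    intro hk
    have h1 := ih (by omega)
    by_cases h : VV f (r + 1) = ⊤
    · have h2 : VV f (r + 1 + 1) = ⊤ := by
        rw [eq_top_iff, ← h]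
        exact VV_mono f (r + 1)
      rw [h2, finrank_top, Module.finrank_fin_fun]
      exact hk
    · have h2 := Submodule.finrank_lt_finrank_of_lt (lt_of_ne_top hRANN f hf r h)
      have h3 : VV f (r + 2) = VV f (r + 1 + 1) := rfl
      rw [h3] at h2
      omega

lemma choose_mu [Fintype σ] (hRANN : SpecRANN) (f : Fin k → MvPolynomial σ ℚ)
    (hf : LinearIndependent ℚ f) : ∀ m : ℕ, m ≤ k → ∃ μ : Fin m → (σ →₀ ℕ),
      (∀ i : Fin m, ∑ s, μ i s ≤ (i : ℕ)) ∧
      LinearIndependent (FractionRing (MvPolynomial σ ℚ)) (fun i => vv f (μ i)) := by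
  intro m
  induction m with
  | zero =>
    intro _
    exact ⟨fun i => i.elim0, fun i => i.elim0, linearIndependent_empty_type⟩
  | succ m ih =>
    intro hk
    obtain ⟨μ, h1, h2⟩ := ih (by omega)
    have h3 := le_finrank hRANN f hf m hk
    have h4 := finrank_span_eq_card h2
    rw [Fintype.card_fin] at h4
    have h5 : ¬ VV f (m + 1) ≤ Submodule.span (FractionRing (MvPolynomial σ ℚ))
        (Set.range fun i => vv f (μ i)) := by
      intro h
      have h6 := Submodule.finrank_mono h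
      omega
    have h6 : ∃ ν : σ →₀ ℕ, ∑ s, ν s < m + 1 ∧
        vv f ν ∉ Submodule.span (FractionRing (MvPolynomial σ ℚ))
          (Set.range fun i => vv f (μ i)) := by
      by_contra hcon
      push Not at hcon
      apply h5
      refine Submodule.span_le.2 ?_
      rintro v ⟨ν, hν, rfl⟩
      exact hcon ν hν
    obtain ⟨ν, hν, hnot⟩ := h6
    refine ⟨Fin.snoc μ ν, ?_, ?_⟩
    · intro i
      induction i using Fin.lastCases with
      | last => rw [Fin.snoc_last, Fin.val_last]; omega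
      | cast i => rw [Fin.snoc_castSucc, Fin.val_castSucc]; exact h1 i
    · have h7 : (fun i => vv f ((Fin.snoc μ ν : Fin (m + 1) → (σ →₀ ℕ)) i)) =
          (Fin.snoc (fun i => vv f (μ i)) (vv f ν) :
            Fin (m + 1) → (Fin k → FractionRing (MvPolynomial σ ℚ))) := by
        funext i
        induction i using Fin.lastCases with
        | last => rw [Fin.snoc_last, Fin.snoc_last]
        | cast i => rw [Fin.snoc_castSucc, Fin.snoc_castSucc]
      rw [h7]
      exact linearIndependent_finSnoc.2 ⟨h2, hnot⟩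

end RWROM

open RWROM in
theorem specRWRO (hRANN : SpecRANN) : SpecRWRO := by
  intro σ _ k f hf
  obtain ⟨μ, h1, h2⟩ := choose_mu hRANN f hf k le_rfl
  refine ⟨μ, h1, ?_⟩
  intro hdet
  set A : Matrix (Fin k) (Fin k) (MvPolynomial σ ℚ) :=
    Matrix.of fun i j : Fin k => dd (μ i) (f j) with hA
  have h3 : LinearIndependent (FractionRing (MvPolynomial σ ℚ))
      ((algebraMap (MvPolynomial σ ℚ) (FractionRing (MvPolynomial σ ℚ))).mapMatrix A).row := h2
  rw [Matrix.linearIndependent_rows_iff_isUnit, Matrix.isUnit_iff_isUnit_det] at h3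
  rw [← RingHom.map_det, hdet, map_zero] at h3
  exact not_isUnit_zero h3

end Pool.Agent.Lib.MP_d0e829_nt.SS
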