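import Pool.Agent.Lib.MP_d0e829_nt.SS.SpecB

/-!
# SIE. Siegel's lemma with integer unknowns and coefficients in a number field
-/

set_option autoImplicit false

open NumberField

namespace Pool.Agent.Lib.MP_d0e829_nt.SS

namespace SIEM

open scoped Classical

variable (K : Type) [Field K] [NumberField K]

/-- the coordinates in an integral basis are bounded by a multiple of the house -/
lemma exists_const : ∃ C : ℝ, ∀ (x : 𝓞 K) (i : Module.Free.ChooseBasisIndex ℤ (𝓞 K)),
    |(((RingOfIntegers.basis K).repr x i : ℤ) : ℝ)| ≤ C * house (algebraMap (𝓞 K) K x) := by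
  have h0 : ∃ C : ℝ, ∀ (x : 𝓞 K) (i : K →+* ℂ),
      ‖(((integralBasis K).reindex (equivReindex K).symm).repr x i : ℂ)‖ ≤
        C * house (algebraMap (𝓞 K) K x) :=
    ⟨_, NumberField.house.basis_repr_norm_le_const_mul_house K⟩
  obtain ⟨C, hC⟩ := h0
  refine ⟨C, fun x i => ?_⟩
  have h := hC x ((equivReindex K).symm i)
  rw [Module.Basis.repr_reindex_apply, Equiv.symm_symm, Equiv.apply_symm_apply,
    show ((x : 𝓞 K) : K) = algebraMap (𝓞 K) K x from rfl,
    integralBasis_repr_apply] at h
  have e : ‖(((algebraMap ℤ ℚ) ((RingOfIntegers.basis K).repr x i) : ℚ) : ℂ)‖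
      = |(((RingOfIntegers.basis K).repr x i : ℤ) : ℝ)| := by
    simp
  rw [e] at h
  exact h

lemma main (C : ℝ) (hC1 : 1 ≤ C)
    (hC : ∀ (x : 𝓞 K) (i : Module.Free.ChooseBasisIndex ℤ (𝓞 K)),
      |(((RingOfIntegers.basis K).repr x i : ℤ) : ℝ)| ≤ C * house (algebraMap (𝓞 K) K x))
    (α β : Type) [Fintype α] [Fintype β] (a : α → β → K) (A : ℝ) (hA : 1 ≤ A)
    (hβ : 0 < Fintype.card β)
    (hαβ : 2 * Module.finrank ℚ K * Fintype.card α ≤ Fintype.card β)
    (ha : ∀ k l, IsIntegral ℤ (a k l) ∧ house (a k l) ≤ A) :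
    ∃ ξ : β → ℤ, ξ ≠ 0 ∧ (∀ k, ∑ l, (ξ l : K) * a k l = 0) ∧
      ∀ l, |((ξ l : ℤ) : ℝ)| ≤ C * Fintype.card β * A := by
  have hβR : (1 : ℝ) ≤ Fintype.card β := by exact_mod_cast hβ
  have hCA : 1 ≤ C * A := by nlinarith
  rcases isEmpty_or_nonempty α with hα | hα
  · have : Nonempty β := Fintype.card_pos_iff.mp hβ
    refine ⟨fun _ => 1, ?_, fun k => (hα.false k).elim, fun l => ?_⟩
    · intro h
      have := congrFun h (Classical.arbitrary β)
      simp at this
    · simp only [Int.cast_one, abs_one]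
      nlinarith
  · -- the matrix of the coordinates
    let I := Module.Free.ChooseBasisIndex ℤ (𝓞 K)
    let b := RingOfIntegers.basis K
    let x : α → β → 𝓞 K := fun k l => ⟨a k l, (ha k l).1⟩
    let M : Matrix (α × I) β ℤ := fun p l => b.repr (x p.1 l) p.2
    have hI : Fintype.card I = Module.finrank ℚ K := by
      rw [← RingOfIntegers.rank K]
      exact (Module.finrank_eq_card_chooseBasisIndex ℤ (𝓞 K)).symm
    have hn : 0 < Module.finrank ℚ K := Module.finrank_pos
    have hαpos : 0 < Fintype.card α := Fintype.card_pos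
    have hcard : Fintype.card (α × I) = Fintype.card α * Module.finrank ℚ K := by
      rw [Fintype.card_prod, hI]
    have hm : 0 < Fintype.card (α × I) := by
      rw [hcard]; positivity
    have hlt2 : 2 * Fintype.card (α × I) ≤ Fintype.card β := by
      rw [hcard]; nlinarith
    have hlt : Fintype.card (α × I) < Fintype.card β := by omega
    obtain ⟨t, ht0, htM, htn⟩ := Int.Matrix.exists_ne_zero_int_vec_norm_le M hlt hm
    let _ := Matrix.seminormedAddCommGroup (m := α × I) (n := β) (α := ℤ)
    have hMn : ‖M‖ ≤ C * A := by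
      rw [Matrix.norm_le_iff (by linarith)]
      intro p l
      have h1 := hC (x p.1 l) p.2
      have h2 : house (algebraMap (𝓞 K) K (x p.1 l)) ≤ A := (ha p.1 l).2
      rw [Int.norm_eq_abs]
      exact h1.trans (mul_le_mul_of_nonneg_left h2 (by linarith))
    refine ⟨t, ht0, fun k => ?_, fun l => ?_⟩
    · -- the relation
      have hz : ∑ l, t l • x k l = 0 := by
        apply b.repr.injective
        ext i
        have h1 := congrFun htM (k, i)
        simp only [Matrix.mulVec, dotProduct, Pi.zero_apply] at h1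
        rw [map_sum, map_zero, Finsupp.finsetSum_apply, Finsupp.zero_apply, ← h1]
        refine Finset.sum_congr rfl fun l _ => ?_
        rw [map_zsmul, Finsupp.smul_apply, smul_eq_mul, mul_comm]
      have h2 := congrArg (algebraMap (𝓞 K) K) hz
      rw [map_sum, map_zero] at h2
      rw [← h2]
      refine Finset.sum_congr rfl fun l _ => ?_
      rw [map_zsmul, zsmul_eq_mul]
      rfl
    · have h1 : |((t l : ℤ) : ℝ)| ≤ ‖t‖ := by
        have := norm_le_pi_norm t l
        rwa [Int.norm_eq_abs] at this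
      have hbase : (1 : ℝ) ≤ Fintype.card β * max 1 ‖M‖ := by
        have : (1 : ℝ) ≤ max 1 ‖M‖ := le_max_left _ _
        nlinarith
      have hmR : (0 : ℝ) < Fintype.card (α × I) := by exact_mod_cast hm
      have hltR : 2 * (Fintype.card (α × I) : ℝ) ≤ Fintype.card β := by exact_mod_cast hlt2
      have hexp : (Fintype.card (α × I) : ℝ) / (Fintype.card β - Fintype.card (α × I)) ≤ 1 := by
        rw [div_le_one (by linarith)]
        linarith
      have h2 : ((Fintype.card β : ℝ) * max 1 ‖M‖) ^
          ((Fintype.card (α × I) : ℝ) / (Fintype.card β - Fintype.card (α × I)))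
          ≤ Fintype.card β * max 1 ‖M‖ := by
        calc _ ≤ ((Fintype.card β : ℝ) * max 1 ‖M‖) ^ (1 : ℝ) :=
              Real.rpow_le_rpow_of_exponent_le hbase hexp
          _ = _ := Real.rpow_one _
      have h3 : max 1 ‖M‖ ≤ C * A := max_le hCA hMn
      calc |((t l : ℤ) : ℝ)| ≤ ‖t‖ := h1
        _ ≤ _ := htn
        _ ≤ Fintype.card β * max 1 ‖M‖ := h2
        _ ≤ Fintype.card β * (C * A) := mul_le_mul_of_nonneg_left h3 (by linarith)
        _ = C * Fintype.card β * A := by ring

end SIEM

theorem specSIE : SpecSIE := by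
  intro K _ _
  obtain ⟨C, hC⟩ := SIEM.exists_const K
  refine ⟨max 1 C, le_max_left _ _, ?_⟩
  intro α β _ _ a A hA hβ hαβ ha
  refine SIEM.main K (max 1 C) (le_max_left _ _) (fun x i => ?_) α β a A hA hβ hαβ ha
  exact (hC x i).trans (mul_le_mul_of_nonneg_right (le_max_right _ _) (house_nonneg _))

end Pool.Agent.Lib.MP_d0e829_nt.SS
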