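import Pool.Agent.Lib.MP_d0e829_nt.SS.SpecA

/-!
# SUB: from the parametric Subspace theorem to Schmidt's Subspace theorem (author: helper47)
-/

set_option autoImplicit false

open NumberField

namespace Pool.Agent.Lib.MP_d0e829_nt.SS

open scoped Classical

namespace SUBM

variable {K : Type} [Field K] [NumberField K]

lemma finsum_ite_mem (S : Finset (Place K)) (f : Place K → ℝ) :
    (∑ᶠ w : Place K, if w ∈ S then f w else 0) = ∑ w ∈ S, f w := by
  rw [finsum_eq_sum_of_support_subset (s := S)]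
  · exact Finset.sum_congr rfl fun w hw => by rw [if_pos hw]
  · intro w hw
    by_contra h
    exact hw (if_neg h)

lemma form_le {N : ℕ} (w : Place K) (l y : Fin N → K) :
    absV w (∑ j, l j * y j) ≤ (N : ℝ) ^ sw w * (nrm w l * nrm w y) := by
  have := absV_sum_le w Finset.univ (fun j => l j * y j) (B := nrm w l * nrm w y)
    (mul_nonneg (nrm_nonneg w l) (nrm_nonneg w y)) (fun i _ => by
      rw [absV_mul]
      exact mul_le_mul (absV_le_nrm w l i) (absV_le_nrm w y i) (absV_nonneg w _) (nrm_nonneg w l))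
  rwa [Finset.card_univ, Fintype.card_fin] at this

lemma u_le {N : ℕ} (hN : 0 < N) (v : Place K) {l y : Fin N → K} (h : ∑ j, l j * y j ≠ 0) :
    Real.log (nrm v y) - Real.log (absV v (∑ j, l j * y j)) ≤
      ht y + (Real.log N + ht l - Real.log (nrm v l)) := by
  have hl : l ≠ 0 := by rintro rfl; simp at h
  have hy : y ≠ 0 := by rintro rfl; simp at h
  have hN1 : (1 : ℝ) ≤ N := by exact_mod_cast hN
  obtain ⟨a, ha⟩ : ∃ a : K, a = ∑ j, l j * y j := ⟨_, rfl⟩
  rw [← ha] at h ⊢
  obtain ⟨f, hf⟩ : ∃ f : Place K → ℝ, f = fun w => (Real.log (nrm w y) + Real.log (nrm w l)) +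
    (sw w * Real.log N - Real.log (absV w a)) := ⟨_, rfl⟩
  have hf0 : ∀ w, 0 ≤ f w := by
    intro w
    have h1 := form_le w l y
    rw [← ha] at h1
    have h2 : Real.log (absV w a) ≤ sw w * Real.log N +
        (Real.log (nrm w l) + Real.log (nrm w y)) := by
      have := Real.log_le_log (absV_pos w h) h1
      rwa [Real.log_mul (by positivity) (mul_pos (nrm_pos w hl) (nrm_pos w hy)).ne',
        Real.log_mul (nrm_pos w hl).ne' (nrm_pos w hy).ne', Real.log_rpow (by positivity)] at this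
    rw [hf]
    show 0 ≤ (Real.log (nrm w y) + Real.log (nrm w l)) +
      (sw w * Real.log N - Real.log (absV w a))
    linarith
  have s1 := support_log_nrm_finite hy
  have s2 := support_log_nrm_finite hl
  have s3 : (Function.support fun w : Place K => sw w * Real.log N).Finite := by
    refine support_sw_finite.subset ?_
    intro w hw hw0
    have hw0' : sw w = 0 := hw0
    exact hw (by show sw w * Real.log N = 0; rw [hw0', zero_mul])
  have s4 := support_log_absV_finite h
  have s12 : (Function.support fun w : Place K =>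
      Real.log (nrm w y) + Real.log (nrm w l)).Finite :=
    (s1.union s2).subset (Function.support_add _ _)
  have s34 : (Function.support fun w : Place K =>
      sw w * Real.log N - Real.log (absV w a)).Finite :=
    (s3.union s4).subset (Function.support_sub _ _)
  have hsum : ∑ᶠ w, f w = (ht y + ht l) + Real.log N := by
    rw [hf, finsum_add_distrib s12 s34, finsum_add_distrib s1 s2, finsum_sub_distrib s3 s4,
      product_formula h, ← finsum_mul _ _, finsum_sw, one_mul, sub_zero]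
    rfl
  have hle : f v ≤ ∑ᶠ w, f w := by
    refine single_le_finsum v ?_ hf0
    rw [hf]
    exact (s12.union s34).subset (Function.support_add _ _)
  rw [hsum, hf] at hle
  have hs := sw_nonneg v
  have hlog : 0 ≤ Real.log N := Real.log_nonneg hN1
  have := mul_nonneg hs hlog
  simp only at hle
  linarith

/-- the hyperplane of a form -/
noncomputable def hyp {N : ℕ} (A : Matrix (Fin N) (Fin N) K) (i : Fin N) :
    Submodule K (Fin N → K) :=
  LinearMap.ker ((LinearMap.proj i).comp A.mulVecLin)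

lemma mem_hyp {N : ℕ} (A : Matrix (Fin N) (Fin N) K) (i : Fin N) (y : Fin N → K) :
    y ∈ hyp A i ↔ A.mulVec y i = 0 := by
  unfold hyp
  rw [LinearMap.mem_ker]
  rfl

lemma hyp_ne_top {N : ℕ} {A : Matrix (Fin N) (Fin N) K} (hA : A.det ≠ 0) (i : Fin N) :
    hyp A i ≠ ⊤ := by
  intro h
  have h1 : A⁻¹.mulVec (Pi.single i 1) ∈ hyp A i := by rw [h]; trivial
  rw [mem_hyp, Matrix.mulVec_mulVec, Matrix.mul_nonsing_inv A (isUnit_iff_ne_zero.2 hA),
    Matrix.one_mulVec, Pi.single_eq_same] at h1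
  exact one_ne_zero h1

lemma exists_low {N : ℕ} (S : Finset (Place K)) (L : Place K → Matrix (Fin N) (Fin N) K) :
    ∃ C : ℝ, 0 ≤ C ∧ ∀ v ∈ S, ∀ i, ∀ y : Fin N → K, y ≠ 0 → (L v).mulVec y i ≠ 0 →
      -C ≤ Real.log (nrm v y) - Real.log (absV v ((L v).mulVec y i)) := by
  have hD0 : ∀ v : Place K, ∀ i : Fin N, 0 ≤ (N : ℝ) ^ sw v * nrm v (fun j => L v i j) :=
    fun v i => mul_nonneg (by positivity) (nrm_nonneg _ _)
  refine ⟨∑ v ∈ S, ∑ i, (N : ℝ) ^ sw v * nrm v (fun j => L v i j),
    Finset.sum_nonneg fun v _ => Finset.sum_nonneg fun i _ => hD0 v i, ?_⟩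
  intro v hv i y hy hne
  obtain ⟨C, hC⟩ : ∃ C : ℝ, C = ∑ v ∈ S, ∑ i, (N : ℝ) ^ sw v * nrm v (fun j => L v i j) :=
    ⟨_, rfl⟩
  rw [← hC]
  have h1 : (N : ℝ) ^ sw v * nrm v (fun j => L v i j) ≤ C := by
    rw [hC]
    have h2 : (N : ℝ) ^ sw v * nrm v (fun j => L v i j) ≤
        ∑ i, (N : ℝ) ^ sw v * nrm v (fun j => L v i j) :=
      Finset.single_le_sum (f := fun i => (N : ℝ) ^ sw v * nrm v (fun j => L v i j))
        (fun i _ => hD0 v i) (Finset.mem_univ i)
    have h3 := Finset.single_le_sum (f := fun v => ∑ i, (N : ℝ) ^ sw v * nrm v (fun j => L v i j))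
      (fun v _ => Finset.sum_nonneg fun i _ => hD0 v i) hv
    exact h2.trans h3
  have h2 : absV v ((L v).mulVec y i) ≤ Real.exp C * nrm v y := by
    have h3 := form_le v (fun j => L v i j) y
    have h4 : (L v).mulVec y i = ∑ j, L v i j * y j := rfl
    rw [h4]
    calc absV v (∑ j, L v i j * y j) ≤ (N : ℝ) ^ sw v * nrm v (fun j => L v i j) * nrm v y := by
          rw [mul_assoc]; exact h3
      _ ≤ Real.exp C * nrm v y := by
          refine mul_le_mul_of_nonneg_right ?_ (nrm_nonneg v y)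
          have := Real.add_one_le_exp C
          linarith
  have h5 := Real.log_le_log (absV_pos v hne) h2
  rw [Real.log_mul (Real.exp_pos _).ne' (nrm_pos v hy).ne', Real.log_exp] at h5
  linarith

lemma exists_upp {N : ℕ} (hN : 0 < N) (S : Finset (Place K))
    (L : Place K → Matrix (Fin N) (Fin N) K) :
    ∃ C : ℝ, 0 ≤ C ∧ ∀ v ∈ S, ∀ i, ∀ y : Fin N → K, (L v).mulVec y i ≠ 0 →
      Real.log (nrm v y) - Real.log (absV v ((L v).mulVec y i)) ≤ ht y + C := by
  refine ⟨∑ v ∈ S, ∑ i, |Real.log N + ht (fun j => L v i j) - Real.log (nrm v (fun j => L v i j))|,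
    Finset.sum_nonneg fun v _ => Finset.sum_nonneg fun i _ => abs_nonneg _, ?_⟩
  intro v hv i y hne
  have h1 := u_le hN v (l := fun j => L v i j) (y := y) hne
  have h2 : |Real.log N + ht (fun j => L v i j) - Real.log (nrm v (fun j => L v i j))| ≤
      ∑ i, |Real.log N + ht (fun j => L v i j) - Real.log (nrm v (fun j => L v i j))| :=
    Finset.single_le_sum
      (f := fun i => |Real.log N + ht (fun j => L v i j) - Real.log (nrm v (fun j => L v i j))|)
      (fun i _ => abs_nonneg _) (Finset.mem_univ i)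
  have h3 := Finset.single_le_sum
    (f := fun v => ∑ i, |Real.log N + ht (fun j => L v i j) - Real.log (nrm v (fun j => L v i j))|)
    (fun v _ => Finset.sum_nonneg fun i _ => abs_nonneg _) hv
  have h4 := le_abs_self (Real.log N + ht (fun j => L v i j) - Real.log (nrm v (fun j => L v i j)))
  have h5 : (L v).mulVec y i = ∑ j, L v i j * y j := rfl
  rw [h5]
  linarith

lemma main (hPST : SpecPST) {N : ℕ} (hN : 0 < N) (S : Finset (Place K)) (hS : Good S)
    (L : Place K → Matrix (Fin N) (Fin N) K) (hL : ∀ v ∈ S, (L v).det ≠ 0) {ε : ℝ} (hε : 0 < ε) :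
    ∃ (C : ℝ) (H : Set (Submodule K (Fin N → K))), H.Finite ∧ (∀ T ∈ H, T ≠ ⊤) ∧
    ∀ y : Fin N → K, y ≠ 0 → (∀ v ∈ S, ∀ i, (L v).mulVec y i ≠ 0) → (∀ T ∈ H, y ∉ T) →
      ∑ v ∈ S, ∑ i, (Real.log (nrm v y) - Real.log (absV v ((L v).mulVec y i))) ≤
        (N + ε) * ht y + C := by
  have hN0 : (0 : ℝ) < N := by exact_mod_cast hN
  obtain ⟨C₁, hC₁, hlow⟩ := exists_low S L
  obtain ⟨C₂, hC₂, hupp⟩ := exists_upp hN S L
  obtain ⟨η, hη, hη'⟩ : ∃ η : ℝ, 0 < η ∧ η * (S.card * N) ≤ ε / 2 := by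
    refine ⟨ε / (2 * (S.card * N + 1)), by positivity, ?_⟩
    rw [div_mul_eq_mul_div, div_le_div_iff₀ (by positivity) (by norm_num)]
    nlinarith
  obtain ⟨M, hM⟩ : ∃ M : ℕ, (N + ε) / η < M + 1 := ⟨⌊(N + ε) / η⌋₊, Nat.lt_floor_add_one _⟩
  obtain ⟨aa, haa⟩ : ∃ aa : (↥S → Fin N → Fin (M + 1)) → Place K → Fin N → ℝ,
    aa = fun m v i => if h : v ∈ S then η * ((m ⟨v, h⟩ i : ℕ) : ℝ) else 0 := ⟨_, rfl⟩
  obtain ⟨cc, hccd⟩ : ∃ cc : (↥S → Fin N → Fin (M + 1)) → Place K → Fin N → ℝ,
    cc = fun m v i => (∑ j, aa m v j) / N - aa m v i := ⟨_, rfl⟩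
  have hcc : ∀ m, ∑ v ∈ S, ∑ i, cc m v i = 0 := by
    intro m
    refine Finset.sum_eq_zero fun v _ => ?_
    rw [hccd]
    simp only
    rw [Finset.sum_sub_distrib, Finset.sum_const, Finset.card_univ, Fintype.card_fin,
      nsmul_eq_mul]
    field_simp
    ring
  have hP : ∀ m : (↥S → Fin N → Fin (M + 1)),
      ∃ (t₀ : ℝ) (H : Set (Submodule K (Fin N → K))), H.Finite ∧ (∀ T ∈ H, T ≠ ⊤) ∧
      ∀ t : ℝ, t₀ ≤ t → ∀ y : Fin N → K, y ≠ 0 →
        htw S L (fun v i => t * cc m v i) y ≤ -(ε / (4 * N) * t) → ∃ T ∈ H, y ∈ T :=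
    fun m => hPST K N hN S hS L hL (cc m) (hcc m) (ε / (4 * N)) (by positivity)
  choose t₀ H hHf hHt hH using hP
  obtain ⟨h₀, hh1, hh2, hh3⟩ : ∃ h₀ : ℝ, 1 ≤ h₀ ∧ 4 * N * (S.card * C₁) / ε ≤ h₀ ∧
      ∀ m, t₀ m ≤ h₀ := by
    refine ⟨1 + 4 * N * (S.card * C₁) / ε + ∑ m, |t₀ m|, ?_, ?_, ?_⟩
    · have : 0 ≤ ∑ m, |t₀ m| := Finset.sum_nonneg fun m _ => abs_nonneg _
      have : 0 ≤ 4 * N * (S.card * C₁) / ε := by positivity
      linarith
    · have : 0 ≤ ∑ m, |t₀ m| := Finset.sum_nonneg fun m _ => abs_nonneg _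
      linarith
    · intro m
      have h1 : 0 ≤ 4 * N * (S.card * C₁) / ε := by positivity
      have h2 : |t₀ m| ≤ ∑ m, |t₀ m| :=
        Finset.single_le_sum (f := fun m => |t₀ m|) (fun m _ => abs_nonneg _) (Finset.mem_univ m)
      have h3 := le_abs_self (t₀ m)
      linarith
  refine ⟨S.card * N * (h₀ + C₂), ⋃ m, H m, Set.finite_iUnion hHf, ?_, ?_⟩
  · intro T hT
    obtain ⟨m, hm⟩ := Set.mem_iUnion.1 hT
    exact hHt m T hm
  intro y hy hne hT
  have hht := ht_nonneg hy
  obtain ⟨h, hh⟩ : ∃ h : ℝ, h = ht y := ⟨_, rfl⟩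
  obtain ⟨u, hu⟩ : ∃ u : Place K → Fin N → ℝ,
    u = fun v i => Real.log (nrm v y) - Real.log (absV v ((L v).mulVec y i)) := ⟨_, rfl⟩
  have hgoal : ∑ v ∈ S, ∑ i, (Real.log (nrm v y) - Real.log (absV v ((L v).mulVec y i))) =
      ∑ v ∈ S, ∑ i, u v i := by rw [hu]
  rw [hgoal, ← hh]
  rw [← hh] at hht
  have hulow : ∀ v ∈ S, ∀ i, -C₁ ≤ u v i := by
    intro v hv i
    rw [hu]
    exact hlow v hv i y hy (hne v hv i)
  have huupp : ∀ v ∈ S, ∀ i, u v i ≤ h + C₂ := by
    intro v hv i
    rw [hu, hh]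
    exact hupp v hv i y (hne v hv i)
  by_cases hsm : h < h₀
  · have h1 : ∑ v ∈ S, ∑ i, u v i ≤ ∑ _v ∈ S, ∑ _i : Fin N, (h₀ + C₂) :=
      Finset.sum_le_sum fun v hv => Finset.sum_le_sum fun i _ => by
        have := huupp v hv i
        linarith
    rw [Finset.sum_const, Finset.sum_const, Finset.card_univ, Fintype.card_fin, nsmul_eq_mul,
      nsmul_eq_mul] at h1
    have h2 : 0 ≤ (N + ε) * h := by positivity
    calc ∑ v ∈ S, ∑ i, u v i ≤ S.card * (N * (h₀ + C₂)) := h1
      _ = S.card * N * (h₀ + C₂) := by ring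
      _ ≤ _ := by linarith
  · rw [not_lt] at hsm
    by_contra hcon
    rw [not_le] at hcon
    have hC0 : 0 ≤ S.card * N * (h₀ + C₂) := by positivity
    have hbig : (N + ε) * h ≤ ∑ v ∈ S, ∑ i, u v i := by linarith
    have hh0 : 0 < h := by linarith
    obtain ⟨a, had⟩ : ∃ a : Place K → Fin N → ℝ, a = fun v i => min (max (u v i / h) 0) (N + ε) :=
      ⟨_, rfl⟩
    have ha0 : ∀ v i, 0 ≤ a v i := by
      intro v i
      rw [had]
      exact le_min (le_max_right _ _) (by positivity)
    have haA : ∀ v i, a v i ≤ N + ε := by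
      intro v i
      rw [had]
      exact min_le_right _ _
    have hau : ∀ v ∈ S, ∀ i, a v i * h - C₁ ≤ u v i := by
      intro v hv i
      have h1 := hulow v hv i
      have h2 : a v i ≤ max (u v i / h) 0 := by rw [had]; exact min_le_left _ _
      rcases le_total (u v i / h) 0 with h3 | h3
      · rw [max_eq_right h3] at h2
        have h4 : a v i * h ≤ 0 := mul_nonpos_of_nonpos_of_nonneg h2 hh0.le
        linarith
      · rw [max_eq_left h3] at h2
        have h4 : a v i * h ≤ u v i := (le_div_iff₀ hh0).1 h2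
        linarith
    have hasum : (N : ℝ) + ε ≤ ∑ v ∈ S, ∑ i, a v i := by
      by_cases hex : ∃ v ∈ S, ∃ i, a v i = N + ε
      · obtain ⟨v, hv, i, hvi⟩ := hex
        rw [← hvi]
        have h1 : a v i ≤ ∑ i, a v i :=
          Finset.single_le_sum (f := fun i => a v i) (fun i _ => ha0 v i) (Finset.mem_univ i)
        have h2 := Finset.single_le_sum (f := fun v => ∑ i, a v i)
          (fun v _ => Finset.sum_nonneg fun i _ => ha0 v i) hv
        exact h1.trans h2
      · have h1 : ∀ v ∈ S, ∀ i, u v i / h ≤ a v i := by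
          intro v hv i
          have h2 : a v i ≠ N + ε := fun h2 => hex ⟨v, hv, i, h2⟩
          rw [had] at h2 ⊢
          simp only at h2 ⊢
          rcases le_total (max (u v i / h) 0) (N + ε) with h3 | h3
          · rw [min_eq_left h3]
            exact le_max_left _ _
          · exact absurd (min_eq_right h3) h2
        have h2 : (∑ v ∈ S, ∑ i, u v i) / h ≤ ∑ v ∈ S, ∑ i, a v i := by
          rw [Finset.sum_div]
          refine Finset.sum_le_sum fun v hv => ?_
          rw [Finset.sum_div]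
          exact Finset.sum_le_sum fun i _ => h1 v hv i
        refine le_trans ?_ h2
        rwa [le_div_iff₀ hh0]
    have hfl : ∀ v i, ⌊a v i / η⌋₊ < M + 1 := by
      intro v i
      rw [Nat.floor_lt (div_nonneg (ha0 v i) hη.le)]
      refine lt_of_le_of_lt (div_le_div_of_nonneg_right (haA v i) hη.le) ?_
      push_cast
      exact hM
    obtain ⟨m, hm⟩ : ∃ m : (↥S → Fin N → Fin (M + 1)),
      m = fun v i => ⟨⌊a v.1 i / η⌋₊, hfl v.1 i⟩ := ⟨_, rfl⟩
    have hb : ∀ v ∈ S, ∀ i, aa m v i = η * (⌊a v i / η⌋₊ : ℝ) := by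
      intro v hv i
      rw [haa, hm]
      simp only [hv, dif_pos]
    have hb1 : ∀ v ∈ S, ∀ i, aa m v i ≤ a v i := by
      intro v hv i
      rw [hb v hv i]
      have := Nat.floor_le (div_nonneg (ha0 v i) hη.le)
      calc η * (⌊a v i / η⌋₊ : ℝ) ≤ η * (a v i / η) := mul_le_mul_of_nonneg_left this hη.le
        _ = a v i := by field_simp
    have hb2 : ∀ v ∈ S, ∀ i, a v i - η ≤ aa m v i := by
      intro v hv i
      rw [hb v hv i]
      have := Nat.lt_floor_add_one (a v i / η)
      have h1 : a v i = η * (a v i / η) := by field_simp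
      nlinarith
    have hbsum : (N : ℝ) + ε / 2 ≤ ∑ v ∈ S, ∑ i, aa m v i := by
      have h1 : ∑ v ∈ S, ∑ i, (a v i - η) ≤ ∑ v ∈ S, ∑ i, aa m v i :=
        Finset.sum_le_sum fun v hv => Finset.sum_le_sum fun i _ => hb2 v hv i
      simp only [Finset.sum_sub_distrib, Finset.sum_const, Finset.card_univ, Fintype.card_fin,
        nsmul_eq_mul] at h1
      linarith
    -- the twisted height
    have hkey : htw S L (fun v i => h * cc m v i) y ≤
        h + ∑ v ∈ S, (C₁ - h * ((∑ j, aa m v j) / N)) := by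
      have s1 := support_log_nrm_finite hy
      have s2 : (Function.support fun w : Place K =>
          if w ∈ S then (C₁ - h * ((∑ j, aa m w j) / N)) else 0).Finite := by
        refine S.finite_toSet.subset ?_
        intro w hw
        by_contra hn
        exact hw (if_neg hn)
      have h1 : htw S L (fun v i => h * cc m v i) y ≤ ∑ᶠ w : Place K,
          (Real.log (nrm w y) + if w ∈ S then (C₁ - h * ((∑ j, aa m w j) / N)) else 0) := by
        unfold htw
        refine finsum_mono (support_log_lcn_finite S L _ hy)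
          ((s1.union s2).subset (Function.support_add _ _)) ?_
        intro w
        by_cases hw : w ∈ S
        · rw [if_pos hw]
          have h2 : lcn S L (fun v i => h * cc m v i) w y ≤
              nrm w y * Real.exp (C₁ - h * ((∑ j, aa m w j) / N)) := by
            unfold lcn
            rw [if_pos hw]
            refine tw_le _ _ _ _ (mul_nonneg (nrm_nonneg _ _) (Real.exp_pos _).le) ?_
            intro i
            have h3 : absV w ((L w).mulVec y i) ≤ nrm w y * Real.exp (-(u w i)) := by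
              have h4 : Real.log (absV w ((L w).mulVec y i)) = Real.log (nrm w y) - u w i := by
                rw [hu]; ring
              rw [← Real.exp_log (absV_pos w (hne w hw i)), h4, Real.exp_sub,
                Real.exp_log (nrm_pos w hy), Real.exp_neg, div_eq_mul_inv]
            calc absV w ((L w).mulVec y i) * Real.exp (-(h * cc m w i))
                ≤ nrm w y * Real.exp (-(u w i)) * Real.exp (-(h * cc m w i)) :=
                  mul_le_mul_of_nonneg_right h3 (Real.exp_pos _).le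
              _ = nrm w y * Real.exp (-(u w i) + -(h * cc m w i)) := by
                  rw [mul_assoc, Real.exp_add]
              _ ≤ _ := by
                  refine mul_le_mul_of_nonneg_left (Real.exp_le_exp.2 ?_) (nrm_nonneg _ _)
                  have h5 := hau w hw i
                  have h6 := hb1 w hw i
                  have h7 : cc m w i = (∑ j, aa m w j) / N - aa m w i := by rw [hccd]
                  rw [h7]
                  nlinarith
          have h8 := Real.log_le_log (lcn_pos hL _ w hy) h2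
          rwa [Real.log_mul (nrm_pos w hy).ne' (Real.exp_pos _).ne', Real.log_exp] at h8
        · rw [if_neg hw, add_zero]
          unfold lcn
          rw [if_neg hw]
      rw [finsum_add_distrib s1 s2, finsum_ite_mem] at h1
      have h9 : (∑ᶠ w : Place K, Real.log (nrm w y)) = h := hh.symm
      rw [h9] at h1
      exact h1
    have hlast : h + ∑ v ∈ S, (C₁ - h * ((∑ j, aa m v j) / N)) ≤ -(ε / (4 * N) * h) := by
      rw [Finset.sum_sub_distrib, Finset.sum_const, nsmul_eq_mul, ← Finset.mul_sum,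
        ← Finset.sum_div]
      have h1 : 1 + ε / (2 * N) ≤ (∑ v ∈ S, ∑ j, aa m v j) / N := by
        rw [le_div_iff₀ hN0]
        calc (1 + ε / (2 * N)) * N = N + ε / 2 := by field_simp
          _ ≤ _ := hbsum
      have h2 : h * (1 + ε / (2 * N)) ≤ h * ((∑ v ∈ S, ∑ j, aa m v j) / N) :=
        mul_le_mul_of_nonneg_left h1 hh0.le
      have h3 : S.card * C₁ ≤ ε / (4 * N) * h := by
        have h4 : 4 * N * (S.card * C₁) / ε ≤ h := hh2.trans hsm
        rw [div_le_iff₀ hε] at h4
        rw [div_mul_eq_mul_div, le_div_iff₀ (by positivity)]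
        linarith
      have h5 : h * (1 + ε / (2 * N)) = h + 2 * (ε / (4 * N) * h) := by
        field_simp
        ring
      linarith
    obtain ⟨T, hT1, hT2⟩ := hH m h ((hh3 m).trans hsm) y hy (hkey.trans hlast)
    exact hT T (Set.mem_iUnion.2 ⟨m, hT1⟩) hT2

end SUBM

open SUBM in
theorem specSUB (hPST : SpecPST) (hGOOD : SpecGOOD) : SpecSUB := by
  intro K _ _ N hN S L hL ε hε
  obtain ⟨S', hSS, hS'⟩ := hGOOD K S
  obtain ⟨L', hL'⟩ : ∃ L' : Place K → Matrix (Fin N) (Fin N) K,
    L' = fun v => if v ∈ S then L v else 1 := ⟨_, rfl⟩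
  have hLS : ∀ v ∈ S, L' v = L v := fun v hv => by rw [hL']; exact if_pos hv
  have hLn : ∀ v, v ∉ S → L' v = 1 := fun v hv => by rw [hL']; exact if_neg hv
  have hdet : ∀ v ∈ S', (L' v).det ≠ 0 := by
    intro v _
    by_cases hv : v ∈ S
    · rw [hLS v hv]; exact hL v hv
    · rw [hLn v hv, Matrix.det_one]; exact one_ne_zero
  obtain ⟨C, H, hHf, hHt, hH⟩ := main hPST hN S' hS' L' hdet hε
  refine ⟨C, H ∪ ⋃ v : ↥S', ⋃ i : Fin N, {hyp (L' v.1) i},
    hHf.union (Set.finite_iUnion fun v => Set.finite_iUnion fun i => Set.finite_singleton _), ?_, ?_⟩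
  · rintro T (hT | hT)
    · exact hHt T hT
    · obtain ⟨v, hv⟩ := Set.mem_iUnion.1 hT
      obtain ⟨i, hi⟩ := Set.mem_iUnion.1 hv
      rw [Set.mem_singleton_iff.1 hi]
      exact hyp_ne_top (hdet v.1 v.2) i
  · intro y hy hT
    have hne : ∀ v ∈ S', ∀ i, (L' v).mulVec y i ≠ 0 := by
      intro v hv i h0
      refine hT (hyp (L' v) i) (Or.inr (Set.mem_iUnion.2 ⟨⟨v, hv⟩, Set.mem_iUnion.2 ⟨i, rfl⟩⟩)) ?_
      rw [mem_hyp]
      exact h0
    have h1 := hH y hy hne (fun T hT' => hT T (Or.inl hT'))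
    have h2 : ∑ v ∈ S, ∑ i, (Real.log (nrm v y) - Real.log (absV v ((L v).mulVec y i))) =
        ∑ v ∈ S, ∑ i, (Real.log (nrm v y) - Real.log (absV v ((L' v).mulVec y i))) :=
      Finset.sum_congr rfl fun v hv => by rw [hLS v hv]
    rw [h2]
    refine le_trans ?_ h1
    refine Finset.sum_le_sum_of_subset_of_nonneg hSS ?_
    intro v hv hvS
    refine Finset.sum_nonneg fun i _ => ?_
    have h3 := hne v hv i
    rw [hLn v hvS, Matrix.one_mulVec] at h3 ⊢
    exact sub_nonneg.2 (Real.log_le_log (absV_pos v h3) (absV_le_nrm v y i))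

end Pool.Agent.Lib.MP_d0e829_nt.SS
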