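import Pool.Agent.Lib.MP_d0e829_nt.SS.SpecB

/-!
# Part B1, module TMC: coefficients of a shifted polynomial
-/

set_option autoImplicit false

namespace Pool.Agent.Lib.MP_d0e829_nt.SS

open scoped Classical

namespace TMCM

variable {A : Type} [CommRing A] {ι : Type} [Fintype ι]

lemma prod_X_pow (x : ι → ℕ) : (∏ p, (MvPolynomial.X p : MvPolynomial ι A) ^ x p) =
    MvPolynomial.monomial (Finsupp.equivFunOnFinite.symm x) 1 := by
  rw [MvPolynomial.monomial_eq, Finsupp.prod_fintype _ _ (fun i => by simp)]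
  simp

lemma coeff_prod (lam : ι → A) (s J : ι →₀ ℕ) :
    (∏ p, (MvPolynomial.C (lam p) + MvPolynomial.X p : MvPolynomial ι A) ^ s p).coeff J =
      ∏ p, (((s p).choose (J p) : ℕ) : A) * lam p ^ (s p - J p) := by
  have h1 : ∀ p, (MvPolynomial.C (lam p) + MvPolynomial.X p : MvPolynomial ι A) ^ s p =
      ∑ k ∈ Finset.range (s p + 1), MvPolynomial.C ((((s p).choose k : ℕ) : A) * lam p ^ (s p - k)) *
        (MvPolynomial.X p) ^ k := by
    intro p
    rw [add_comm, add_pow]
    refine Finset.sum_congr rfl fun k _ => ?_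
    rw [map_mul, map_pow, map_natCast]
    ring
  simp_rw [h1]
  rw [Finset.prod_univ_sum, MvPolynomial.coeff_sum]
  have h2 : ∀ x : ι → ℕ, (∏ p, (MvPolynomial.C ((((s p).choose (x p) : ℕ) : A) * lam p ^ (s p - x p)) *
      (MvPolynomial.X p : MvPolynomial ι A) ^ x p)).coeff J =
      if Finsupp.equivFunOnFinite.symm x = J then
        ∏ p, ((((s p).choose (x p) : ℕ) : A) * lam p ^ (s p - x p)) else 0 := by
    intro x
    rw [Finset.prod_mul_distrib, ← map_prod, prod_X_pow, MvPolynomial.coeff_C_mul,
      MvPolynomial.coeff_monomial]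
    split_ifs <;> simp
  simp_rw [h2]
  by_cases hJ : (fun p => J p) ∈ Fintype.piFinset fun p => Finset.range (s p + 1)
  · rw [Finset.sum_eq_single_of_mem _ hJ]
    · rw [if_pos]
      ext p
      simp
    · intro x _ hx
      rw [if_neg]
      intro h
      apply hx
      ext p
      rw [← h]
      simp
  · rw [Finset.sum_eq_zero]
    · simp only [Fintype.mem_piFinset, Finset.mem_range, not_forall] at hJ
      obtain ⟨p, hp⟩ := hJ
      symm
      refine Finset.prod_eq_zero (Finset.mem_univ p) ?_
      rw [Nat.choose_eq_zero_of_lt (by omega)]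
      simp
    · intro x hx
      rw [if_neg]
      intro h
      apply hJ
      rw [← h]
      simpa using hx

end TMCM

theorem specTMC : SpecTMC := by
  intro R A _ _ _ ι _ P lam J
  rw [MvPolynomial.aeval_def, MvPolynomial.eval₂_eq', MvPolynomial.coeff_sum]
  refine Finset.sum_congr rfl fun s _ => ?_
  rw [MvPolynomial.algebraMap_apply, MvPolynomial.coeff_C_mul, TMCM.coeff_prod]

end Pool.Agent.Lib.MP_d0e829_nt.SS
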