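import Pool.Agent.Lib.MP_d0e829_nt.SS.SpecB

set_option autoImplicit false

open NumberField

namespace Pool.Agent.Lib.MP_d0e829_nt.SS

open scoped Classical

namespace WNMM

variable {K : Type} [Field K] [NumberField K] {m N : ℕ}

lemma weight_inf_le_one (w : InfinitePlace K) : weight (Sum.inl w : Place K) ≤ 1 := by
  rw [← sum_weight_inf (K := K)]
  exact Finset.single_le_sum (f := fun w : InfinitePlace K => weight (Sum.inl w : Place K))
    (fun w _ => (weight_pos _).le) (Finset.mem_univ w)

lemma absV_add_le_add (v : Place K) (a b : K) : absV v (a + b) ≤ absV v a + absV v b := by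
  cases v with
  | inl w =>
    have h1 : rawAbs (Sum.inl w : Place K) (a + b) ≤ rawAbs (Sum.inl w : Place K) a +
        rawAbs (Sum.inl w : Place K) b := w.1.add_le _ _
    calc absV (Sum.inl w : Place K) (a + b)
        ≤ (rawAbs (Sum.inl w : Place K) a + rawAbs (Sum.inl w : Place K) b) ^
            weight (Sum.inl w : Place K) :=
          Real.rpow_le_rpow (rawAbs_nonneg _ _) h1 (weight_pos _).le
      _ ≤ _ := Real.rpow_add_le_add_rpow (rawAbs_nonneg _ _) (rawAbs_nonneg _ _)
          (weight_pos _).le (weight_inf_le_one w)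
  | inr w =>
    have h1 : rawAbs (Sum.inr w : Place K) (a + b) ≤
        max (rawAbs (Sum.inr w : Place K) a) (rawAbs (Sum.inr w : Place K) b) :=
      FinitePlace.add_le w _ _
    have h2 : absV (Sum.inr w : Place K) (a + b) ≤
        (max (rawAbs (Sum.inr w : Place K) a) (rawAbs (Sum.inr w : Place K) b)) ^
            weight (Sum.inr w : Place K) :=
      Real.rpow_le_rpow (rawAbs_nonneg _ _) h1 (weight_pos _).le
    refine h2.trans ?_
    rcases max_cases (rawAbs (Sum.inr w : Place K) a) (rawAbs (Sum.inr w : Place K) b) with h | h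
    · rw [h.1]
      exact le_add_of_nonneg_right (absV_nonneg _ _)
    · rw [h.1]
      exact le_add_of_nonneg_left (absV_nonneg _ _)

lemma bd_add (J J' : Fin m × Fin N →₀ ℕ) (h : Fin m) : bd (J + J') h = bd J h + bd J' h := by
  simp [bd, Finset.sum_add_distrib]

lemma wn_eq (v : Place K) (lam : Fin m → ℝ) (F : MvPolynomial (Fin m × Fin N) K)
    (T : Finset (Fin m × Fin N →₀ ℕ)) (hT : F.support ⊆ T) :
    wn v lam F = ∑ J ∈ T, absV v (F.coeff J) * ∏ h, lam h ^ bd J h := by
  unfold wn
  refine Finset.sum_subset hT ?_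
  intro J _ hJ
  rw [MvPolynomial.notMem_support_iff.mp hJ, absV_zero, zero_mul]

lemma prodlam_pos {lam : Fin m → ℝ} (hl : ∀ h, 0 < lam h) (J : Fin m × Fin N →₀ ℕ) :
    0 < ∏ h, lam h ^ bd J h := Finset.prod_pos fun h _ => pow_pos (hl h) _

lemma wn_nonneg (v : Place K) {lam : Fin m → ℝ} (hl : ∀ h, 0 < lam h)
    (F : MvPolynomial (Fin m × Fin N) K) : 0 ≤ wn v lam F :=
  Finset.sum_nonneg fun J _ => mul_nonneg (absV_nonneg _ _) (prodlam_pos hl J).le

lemma wn_add (v : Place K) {lam : Fin m → ℝ} (hl : ∀ h, 0 < lam h)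
    (F G : MvPolynomial (Fin m × Fin N) K) : wn v lam (F + G) ≤ wn v lam F + wn v lam G := by
  have h1 : (F + G).support ⊆ F.support ∪ G.support := MvPolynomial.support_add
  rw [wn_eq v lam (F + G) _ h1, wn_eq v lam F _ Finset.subset_union_left,
    wn_eq v lam G _ Finset.subset_union_right, ← Finset.sum_add_distrib]
  refine Finset.sum_le_sum fun J _ => ?_
  rw [MvPolynomial.coeff_add, ← add_mul]
  exact mul_le_mul_of_nonneg_right (absV_add_le_add _ _ _) (prodlam_pos hl J).le

lemma wn_zero (v : Place K) (lam : Fin m → ℝ) :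
    wn v lam (0 : MvPolynomial (Fin m × Fin N) K) = 0 := by
  simp [wn]

lemma wn_sum {ι : Type*} (v : Place K) {lam : Fin m → ℝ} (hl : ∀ h, 0 < lam h)
    (T : Finset ι) (f : ι → MvPolynomial (Fin m × Fin N) K) :
    wn v lam (∑ t ∈ T, f t) ≤ ∑ t ∈ T, wn v lam (f t) := by
  induction T using Finset.induction_on with
  | empty => simp [wn_zero]
  | insert a T ha ih =>
    rw [Finset.sum_insert ha, Finset.sum_insert ha]
    exact (wn_add v hl _ _).trans (add_le_add_right ih _)

lemma wn_monomial (v : Place K) (lam : Fin m → ℝ) (s : Fin m × Fin N →₀ ℕ) (a : K) :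
    wn v lam (MvPolynomial.monomial s a : MvPolynomial (Fin m × Fin N) K) =
      absV v a * ∏ h, lam h ^ bd s h := by
  rw [wn_eq v lam _ {s} MvPolynomial.support_monomial_subset, Finset.sum_singleton,
    MvPolynomial.coeff_monomial, if_pos rfl]

lemma wn_mul (v : Place K) {lam : Fin m → ℝ} (hl : ∀ h, 0 < lam h)
    (F G : MvPolynomial (Fin m × Fin N) K) : wn v lam (F * G) ≤ wn v lam F * wn v lam G := by
  have hF : F * G = ∑ s ∈ F.support, ∑ t ∈ G.support,
      MvPolynomial.monomial (s + t) (F.coeff s * G.coeff t) := by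
    conv_lhs => rw [MvPolynomial.as_sum F, MvPolynomial.as_sum G]
    rw [Finset.sum_mul_sum]
    simp only [MvPolynomial.monomial_mul]
  rw [hF]
  refine (wn_sum v hl _ _).trans ?_
  unfold wn
  rw [Finset.sum_mul_sum]
  refine Finset.sum_le_sum fun s _ => ?_
  refine (wn_sum v hl _ _).trans ?_
  refine Finset.sum_le_sum fun t _ => ?_
  rw [wn_monomial, absV_mul]
  simp only [bd_add, pow_add, Finset.prod_mul_distrib]
  apply le_of_eq
  ring

lemma wn_C (v : Place K) (lam : Fin m → ℝ) (a : K) :
    wn v lam (MvPolynomial.C a : MvPolynomial (Fin m × Fin N) K) = absV v a := by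
  rw [MvPolynomial.C_apply, wn_monomial]
  simp [bd]

lemma wn_X (v : Place K) (lam : Fin m → ℝ) (p : Fin m × Fin N) :
    wn v lam (MvPolynomial.X p : MvPolynomial (Fin m × Fin N) K) = lam p.1 := by
  have h0 : (MvPolynomial.X p : MvPolynomial (Fin m × Fin N) K) =
      MvPolynomial.monomial (Finsupp.single p 1) 1 := rfl
  rw [h0, wn_monomial, absV_one, one_mul]
  have hb : ∀ h : Fin m, bd (Finsupp.single p 1) h = if h = p.1 then 1 else 0 := by
    intro h
    unfold bd
    obtain ⟨a, b⟩ := p
    simp only [Finsupp.single_apply, Prod.mk.injEq]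
    by_cases hh : h = a
    · subst hh
      simp
    · simp [hh, Ne.symm hh]
  rw [Finset.prod_eq_single p.1]
  · simp [hb]
  · intro h _ hh
    simp [hb, hh]
  · intro h; exact absurd (Finset.mem_univ _) h

lemma wn_one (v : Place K) (lam : Fin m → ℝ) :
    wn v lam (1 : MvPolynomial (Fin m × Fin N) K) = 1 := by
  have := wn_C (N := N) v lam 1
  rwa [map_one, absV_one] at this

lemma wn_pow (v : Place K) {lam : Fin m → ℝ} (hl : ∀ h, 0 < lam h)
    (F : MvPolynomial (Fin m × Fin N) K) (k : ℕ) : wn v lam (F ^ k) ≤ wn v lam F ^ k := by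
  induction k with
  | zero => simp [wn_one]
  | succ k ih =>
    rw [pow_succ, pow_succ]
    exact (wn_mul v hl _ _).trans (mul_le_mul_of_nonneg_right ih (wn_nonneg v hl _))

lemma wn_prod {ι : Type*} (v : Place K) {lam : Fin m → ℝ} (hl : ∀ h, 0 < lam h)
    (T : Finset ι) (f : ι → MvPolynomial (Fin m × Fin N) K) :
    wn v lam (∏ t ∈ T, f t) ≤ ∏ t ∈ T, wn v lam (f t) := by
  induction T using Finset.induction_on with
  | empty => simp [wn_one]
  | insert a T ha ih =>
    rw [Finset.prod_insert ha, Finset.prod_insert ha]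
    exact (wn_mul v hl _ _).trans (mul_le_mul_of_nonneg_left ih (wn_nonneg v hl _))

lemma wn_aeval (v : Place K) {lam : Fin m → ℝ} (hl : ∀ h, 0 < lam h)
    (G : MvPolynomial (Fin m × Fin N) K)
    (φ : Fin m × Fin N → MvPolynomial (Fin m × Fin N) K) :
    wn v lam (MvPolynomial.aeval φ G) ≤
      ∑ s ∈ G.support, absV v (G.coeff s) * ∏ p, wn v lam (φ p) ^ s p := by
  rw [MvPolynomial.aeval_def, MvPolynomial.eval₂_eq']
  refine (wn_sum v hl _ _).trans ?_
  refine Finset.sum_le_sum fun s _ => ?_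
  refine (wn_mul v hl _ _).trans ?_
  rw [MvPolynomial.algebraMap_eq, wn_C]
  refine mul_le_mul_of_nonneg_left ?_ (absV_nonneg _ _)
  refine (wn_prod v hl _ _).trans ?_
  exact Finset.prod_le_prod (fun p _ => wn_nonneg v hl _) fun p _ => wn_pow v hl _ _

end WNMM

open WNMM in
theorem specWNM : SpecWNM := by
  intro K _ _ m N v lam hl
  refine ⟨fun a => wn_C v lam a, fun p => wn_X v lam p, fun F G => wn_add v hl F G,
    fun F G => wn_mul v hl F G, fun F J => ?_, fun G φ => wn_aeval v hl G φ⟩
  by_cases hJ : J ∈ F.support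
  · exact Finset.single_le_sum
      (f := fun J => absV v (F.coeff J) * ∏ h, lam h ^ bd J h)
      (fun J _ => mul_nonneg (absV_nonneg _ _) (prodlam_pos hl J).le) hJ
  · rw [MvPolynomial.notMem_support_iff.mp hJ, absV_zero, zero_mul]
    exact wn_nonneg v hl F

end Pool.Agent.Lib.MP_d0e829_nt.SS
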