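import Pool.Agent.Lib.MP_d0e829_nt.SS.SpecB

/-!
# SS, module ZBD: local bounds of integer combinations
-/

set_option autoImplicit false

open NumberField

namespace Pool.Agent.Lib.MP_d0e829_nt.SS

namespace ZBDM

variable {K : Type} [Field K] [NumberField K]

theorem sw_le_one (w : Place K) : sw w ≤ 1 := by
  cases w with
  | inl w =>
    rw [← sum_weight_inf (K := K)]
    exact Finset.single_le_sum (f := fun w : InfinitePlace K => weight (Sum.inl w : Place K))
      (fun w _ => (weight_pos (Sum.inl w : Place K)).le) (Finset.mem_univ w)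
  | inr w => exact zero_le_one

/-- a natural number at a place -/
theorem absV_nat_le (w : Place K) {s B : ℕ} (h : s ≤ B) : absV w (s : K) ≤ (B : ℝ) ^ sw w := by
  cases w with
  | inl w =>
    unfold absV
    refine Real.rpow_le_rpow (rawAbs_nonneg _ _) ?_ (weight_pos (Sum.inl w : Place K)).le
    have h1 : rawAbs (Sum.inl w : Place K) (s : K) = s := by
      show w (s : K) = s
      rw [← InfinitePlace.norm_embedding_eq, map_natCast, Complex.norm_natCast]
    rw [h1]
    exact_mod_cast h
  | inr w =>
    have h1 : rawAbs (Sum.inr w : Place K) (s : K) ≤ 1 := by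
      have hna : IsNonarchimedean w.1 := fun x y => FinitePlace.add_le w x y
      exact hna.apply_natCast_le_one
    have h2 : absV (Sum.inr w : Place K) (s : K) ≤ 1 :=
      Real.rpow_le_one (rawAbs_nonneg _ _) h1 (weight_pos (Sum.inr w : Place K)).le
    simpa [sw] using h2

end ZBDM

open ZBDM in
theorem specZBD : SpecZBD := by
  intro K _ _ N hN S hS L r E y hy B s hB hs
  have hNr : (1 : ℝ) ≤ N := by
    have : 1 ≤ N := by omega
    exact_mod_cast this
  have hBr : (1 : ℝ) ≤ B := by exact_mod_cast hB
  refine ⟨fun w hw i => ?_, fun v hv j => ?_⟩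
  · cases w with
    | inl w => exact absurd (hS.1 w) hw
    | inr w =>
      have h1 : ∀ l ∈ (Finset.univ : Finset (Fin (N - 1))),
          absV (Sum.inr w : Place K) ((s l : K) * y l i) ≤ 1 := by
        intro l _
        have h2 := hy l (Sum.inr w)
        simp only [lcn, if_neg hw, sw, zero_mul, neg_zero, Real.exp_zero] at h2
        have h3 := (absV_le_nrm (Sum.inr w : Place K) (y l) i).trans h2
        have h4 := absV_nat_le (K := K) (Sum.inr w : Place K) (hs l)
        simp only [sw, Real.rpow_zero] at h4
        rw [absV_mul]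
        exact mul_le_one₀ h4 (absV_nonneg _ _) h3
      have h2 := absV_sum_le (Sum.inr w : Place K) Finset.univ _ zero_le_one h1
      simpa [sw] using h2
  · have h1 : ∑ i, L v j i * ∑ l, (s l : K) * y l i =
        ∑ l, (s l : K) * (L v).mulVec (y l) j := by
      simp only [Matrix.mulVec, dotProduct, Finset.mul_sum]
      rw [Finset.sum_comm]
      refine Finset.sum_congr rfl fun l _ => Finset.sum_congr rfl fun i _ => ?_
      ring
    rw [h1]
    have h2 : ∀ l ∈ (Finset.univ : Finset (Fin (N - 1))),
        absV v ((s l : K) * (L v).mulVec (y l) j) ≤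
          (B : ℝ) ^ sw v * Real.exp (-(sw v * E) + r v j) := by
      intro l _
      have h3 := hy l v
      simp only [lcn, if_pos hv] at h3
      have h4 := absV_form_le (L v) (r v) v (y l) j
      have h5 : absV v ((L v).mulVec (y l) j) ≤ Real.exp (-(sw v * E) + r v j) := by
        rw [Real.exp_add]
        exact h4.trans (mul_le_mul_of_nonneg_right h3 (Real.exp_pos _).le)
      rw [absV_mul]
      exact mul_le_mul (absV_nat_le v (hs l)) h5 (absV_nonneg _ _)
        (Real.rpow_nonneg (by positivity) _)
    have h3 := absV_sum_le v Finset.univ _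
      (mul_nonneg (Real.rpow_nonneg (by positivity) _) (Real.exp_pos _).le) h2
    refine h3.trans ?_
    have h4 : ((Finset.univ : Finset (Fin (N - 1))).card : ℝ) ^ sw v ≤ N := by
      rw [Finset.card_univ, Fintype.card_fin]
      have h5 : ((N - 1 : ℕ) : ℝ) ≤ N := by
        have : N - 1 ≤ N := by omega
        exact_mod_cast this
      refine (Real.rpow_le_rpow (by positivity) h5 (sw_nonneg v)).trans ?_
      refine (Real.rpow_le_rpow_of_exponent_le hNr (sw_le_one v)).trans ?_
      rw [Real.rpow_one]
    have h5 : (B : ℝ) ^ sw v ≤ B := by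
      refine (Real.rpow_le_rpow_of_exponent_le hBr (sw_le_one v)).trans ?_
      rw [Real.rpow_one]
    have h6 : Real.exp (Real.log ((N : ℝ) * B) - sw v * E + r v j) =
        (N : ℝ) * (B * Real.exp (-(sw v * E) + r v j)) := by
      have h7 : Real.log ((N : ℝ) * B) - sw v * E + r v j =
          Real.log ((N : ℝ) * B) + (-(sw v * E) + r v j) := by ring
      rw [h7, Real.exp_add, Real.exp_log (by positivity), mul_assoc]
    rw [h6]
    refine mul_le_mul h4 (mul_le_mul_of_nonneg_right h5 (Real.exp_pos _).le)
      (mul_nonneg (Real.rpow_nonneg (by positivity) _) (Real.exp_pos _).le) (by positivity)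

end Pool.Agent.Lib.MP_d0e829_nt.SS
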