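import Pool.Agent.Lib.MP_d0e829_nt.SS.AUXX
import Pool.Agent.Lib.MP_d0e829_nt.SS.BAL
import Pool.Agent.Lib.MP_d0e829_nt.SS.BDJ
import Pool.Agent.Lib.MP_d0e829_nt.SS.CB
import Pool.Agent.Lib.MP_d0e829_nt.SS.CHE
import Pool.Agent.Lib.MP_d0e829_nt.SS.CMP
import Pool.Agent.Lib.MP_d0e829_nt.SS.COE
import Pool.Agent.Lib.MP_d0e829_nt.SS.DAV
import Pool.Agent.Lib.MP_d0e829_nt.SS.DEG
import Pool.Agent.Lib.MP_d0e829_nt.SS.DPR
import Pool.Agent.Lib.MP_d0e829_nt.SS.DUA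
import Pool.Agent.Lib.MP_d0e829_nt.SS.GAP
import Pool.Agent.Lib.MP_d0e829_nt.SS.GOOD
import Pool.Agent.Lib.MP_d0e829_nt.SS.GR1
import Pool.Agent.Lib.MP_d0e829_nt.SS.GRD
import Pool.Agent.Lib.MP_d0e829_nt.SS.KEY
import Pool.Agent.Lib.MP_d0e829_nt.SS.LB
import Pool.Agent.Lib.MP_d0e829_nt.SS.LIO
import Pool.Agent.Lib.MP_d0e829_nt.SS.LVN
import Pool.Agent.Lib.MP_d0e829_nt.SS.LVS
import Pool.Agent.Lib.MP_d0e829_nt.SS.M1
import Pool.Agent.Lib.MP_d0e829_nt.SS.M2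
import Pool.Agent.Lib.MP_d0e829_nt.SS.NCH
import Pool.Agent.Lib.MP_d0e829_nt.SS.NRM
import Pool.Agent.Lib.MP_d0e829_nt.SS.NSC
import Pool.Agent.Lib.MP_d0e829_nt.SS.PAT
import Pool.Agent.Lib.MP_d0e829_nt.SS.PEN
import Pool.Agent.Lib.MP_d0e829_nt.SS.PST
import Pool.Agent.Lib.MP_d0e829_nt.SS.RALG
import Pool.Agent.Lib.MP_d0e829_nt.SS.RANN
import Pool.Agent.Lib.MP_d0e829_nt.SS.RBAS
import Pool.Agent.Lib.MP_d0e829_nt.SS.RCA
import Pool.Agent.Lib.MP_d0e829_nt.SS.RCB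
import Pool.Agent.Lib.MP_d0e829_nt.SS.RCLA
import Pool.Agent.Lib.MP_d0e829_nt.SS.RDEC
import Pool.Agent.Lib.MP_d0e829_nt.SS.RED
import Pool.Agent.Lib.MP_d0e829_nt.SS.RFAC
import Pool.Agent.Lib.MP_d0e829_nt.SS.RGAU
import Pool.Agent.Lib.MP_d0e829_nt.SS.RHTS
import Pool.Agent.Lib.MP_d0e829_nt.SS.RLOW
import Pool.Agent.Lib.MP_d0e829_nt.SS.RRED
import Pool.Agent.Lib.MP_d0e829_nt.SS.RSIZ
import Pool.Agent.Lib.MP_d0e829_nt.SS.RSTP
import Pool.Agent.Lib.MP_d0e829_nt.SS.RWDT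
import Pool.Agent.Lib.MP_d0e829_nt.SS.RWRO
import Pool.Agent.Lib.MP_d0e829_nt.SS.SIE
import Pool.Agent.Lib.MP_d0e829_nt.SS.SUB
import Pool.Agent.Lib.MP_d0e829_nt.SS.TMC
import Pool.Agent.Lib.MP_d0e829_nt.SS.WNM
import Pool.Agent.Lib.MP_d0e829_nt.SS.ZBD

/-!
# Schmidt's Subspace theorem over number fields, without hypotheses
-/

set_option autoImplicit false

namespace Pool.Agent.Lib.MP_d0e829_nt.SS

/-- Roth's lemma over number fields (multihomogeneous form). -/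
theorem rl : SpecRL :=
  specRRED (specRCLA (specRBAS specRGAU)
    (specRSTP (specRWDT (specRWRO specRANN) specRDEC) specRSIZ specRFAC specRLOW)) specRHTS specRALG

/-- The hyperplane case. -/
theorem rc : SpecRC :=
  specRCB (specRCA specDUA specLIO (specPAT specDPR))
    (specNCH rl (specAUX specCHE specSIE specCOE) (specNSC specNRM)
      (specKEY (specLVS specWNM (specBDJ specTMC)) (specLVN specTMC) (specBDJ specTMC))
      (specGRD (specGR1 specTMC) specTMC) specBAL (specBDJ specTMC) specDEG specZBD)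

theorem m2 : SpecM2 := specM2 specM1 specDAV

theorem pst : SpecPST :=
  specPST (specGAP (specPEN rc specDAV specLB m2 specCMP specRED) specCB specLB m2 specCMP specRED)
    specLB specCMP specRED

/-- Schmidt's Subspace theorem over number fields. -/
theorem sub : SpecSUB := specSUB pst specGOOD

end Pool.Agent.Lib.MP_d0e829_nt.SS
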