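import Pool.Agent.Lib.MP_d0e829_nt.SS.SpecC1

/-!
# FIL: a basis adapted to the filtration by powers of a linear functional (helper94)
-/

set_option autoImplicit false

open NumberField MvPolynomial

namespace Pool.Agent.Lib.MP_d0e829_nt.SS

open scoped Classical

namespace FILM

lemma complete_abs {k : Type} [Field k] {V : Type} [AddCommGroup V] [Module k V]
    (W : Submodule k V) (hW : Module.Finite k W) {J : Type} (u : J → V)
    (hu : ∀ j, u j ∈ W) (hli : LinearIndependent k u) :
    ∃ (r : ℕ) (w : Fin r → V), (∀ i, w i ∈ W) ∧ LinearIndependent k (Sum.elim u w) ∧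
      Submodule.span k (Set.range (Sum.elim u w)) = W := by
  obtain ⟨C, hC⟩ := Submodule.exists_isCompl ((Submodule.span k (Set.range u)).comap W.subtype)
  obtain ⟨n, b⟩ : Σ n, Module.Basis (Fin n) k C := ⟨_, Module.finBasis k C⟩
  obtain ⟨w, hw⟩ : ∃ w : Fin n → V, ∀ i, w i = ((b i : W) : V) := ⟨_, fun _ => rfl⟩
  have hCle : Submodule.span k (Set.range w) = C.map W.subtype := by
    apply le_antisymm
    · rw [Submodule.span_le]
      rintro _ ⟨i, rfl⟩
      exact ⟨(b i : W), (b i).2, (hw i).symm⟩
    · rintro _ ⟨t, ht, rfl⟩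
      have h2 : (⟨t, ht⟩ : C) ∈ Submodule.span k (Set.range b) := by
        rw [b.span_eq]
        exact Submodule.mem_top
      have h3 := Submodule.mem_map_of_mem (f := W.subtype.comp C.subtype) h2
      rw [Submodule.map_span, ← Set.range_comp] at h3
      have h4 : (W.subtype.comp C.subtype) ∘ b = w := by
        funext i
        exact (hw i).symm
      rw [h4] at h3
      exact h3
  refine ⟨n, w, fun i => by rw [hw]; exact (b i : W).2, ?_, ?_⟩
  · have hli2 : LinearIndependent k w := by
      have h1 := b.linearIndependent.map' (W.subtype.comp C.subtype) (by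
        rw [LinearMap.ker_comp, Submodule.ker_subtype, Submodule.comap_bot, Submodule.ker_subtype])
      have h4 : (W.subtype.comp C.subtype) ∘ b = w := by
        funext i
        exact (hw i).symm
      rw [h4] at h1
      exact h1
    refine LinearIndependent.sum_type hli hli2 ?_
    rw [hCle, Submodule.disjoint_def]
    rintro x hx ⟨y, hy, rfl⟩
    have h5 := (Submodule.disjoint_def.mp hC.disjoint) y hx hy
    rw [h5]
    rfl
  · rw [Set.Sum.elim_range, Submodule.span_union, hCle]
    apply le_antisymm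
    · refine sup_le ?_ (Submodule.map_subtype_le _ _)
      rw [Submodule.span_le]
      rintro _ ⟨j, rfl⟩
      exact hu j
    · intro x hx
      have hsup : (⟨x, hx⟩ : W) ∈ (Submodule.span k (Set.range u)).comap W.subtype ⊔ C := by
        rw [hC.sup_eq_top]
        exact Submodule.mem_top
      obtain ⟨s, hs, t, ht, hst⟩ := Submodule.mem_sup.mp hsup
      have hx1 : x = (s : V) + (t : V) := by
        rw [← Submodule.coe_add, hst]
      rw [hx1]
      exact Submodule.add_mem_sup hs ⟨t, ht, rfl⟩


section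
variable {k : Type} [Field k] {Ω : Type} {M : ℕ} (f : Ω → Fin M → k) (A : Set Ω)

lemma evA_apply (P : MvPolynomial (Fin M) k) (ω : A) : evA f A P ω = eval (f ω) P := by
  have h : (Pi.evalAlgHom k (fun _ : A => k) ω).comp (evA f A) =
      (MvPolynomial.aeval (f ω) : MvPolynomial (Fin M) k →ₐ[k] k) := by
    apply MvPolynomial.algHom_ext
    intro i
    simp [evA]
  have h2 := AlgHom.congr_fun h P
  have h3 : (MvPolynomial.aeval (f ω) : MvPolynomial (Fin M) k →ₐ[k] k) P = eval (f ω) P :=
    Eq.symm (DFunLike.congr rfl rfl)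
  rw [← h3, ← h2]
  rfl

lemma lin_homog (c : Fin M → k) : (lin c).IsHomogeneous 1 := by
  refine MvPolynomial.IsHomogeneous.sum _ _ _ fun j _ => ?_
  have h := (MvPolynomial.isHomogeneous_C (Fin M) (c j)).mul (MvPolynomial.isHomogeneous_X k j)
  rwa [zero_add] at h

lemma eval_lin (c x : Fin M → k) : eval x (lin c) = c ⬝ᵥ x := by
  simp [lin, dotProduct]

lemma FS_finite (m : ℕ) : Module.Finite k (FS f A m) := by
  rw [Module.Finite.iff_fg]
  exact (MvPolynomial.homogeneousSubmodule_fg (Fin M) k m).map _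

lemma mem_FS {m : ℕ} {P : MvPolynomial (Fin M) k} (hP : P.IsHomogeneous m) :
    evA f A P ∈ FS f A m :=
  ⟨P, hP, rfl⟩

/-- completion to a basis -/
lemma complete {J : Type} [Fintype J] (m : ℕ) (u : J → MvPolynomial (Fin M) k)
    (hu : ∀ j, (u j).IsHomogeneous m) (hli : LinearIndependent k fun j => evA f A (u j)) :
    ∃ (r : ℕ) (w : Fin r → MvPolynomial (Fin M) k), (∀ i, (w i).IsHomogeneous m) ∧
      IsB f A m (Sum.elim u w) := by
  obtain ⟨r, v, hv, hv2, hv3⟩ := complete_abs (FS f A m) (FS_finite f A m)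
    (fun j => evA f A (u j)) (fun j => mem_FS f A (hu j)) hli
  have hex : ∀ i, ∃ w : MvPolynomial (Fin M) k, w.IsHomogeneous m ∧ evA f A w = v i := by
    intro i
    obtain ⟨w, hw1, hw2⟩ := hv i
    exact ⟨w, hw1, hw2⟩
  choose w hw1 hw2 using hex
  have e1 : (fun j => evA f A (Sum.elim u w j)) = Sum.elim (fun j => evA f A (u j)) v := by
    funext j
    rcases j with j | i
    · rfl
    · exact hw2 i
  refine ⟨r, w, hw1, ?_, ?_, ?_⟩
  · rintro (j | i)
    · exact hu j
    · exact hw1 i
  · rw [e1]
    exact hv2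
  · rw [e1]
    exact hv3

lemma IsB.finrank {J : Type} [Fintype J] {m : ℕ} {g : J → MvPolynomial (Fin M) k}
    (h : IsB f A m g) : Module.finrank k (FS f A m) = Fintype.card J := by
  rw [← h.2.2]
  exact finrank_span_eq_card h.2.1

lemma IsB.reindex {J J' : Type} {m : ℕ} {g : J → MvPolynomial (Fin M) k}
    (h : IsB f A m g) (E : J' ≃ J) : IsB f A m (fun j => g (E j)) := by
  refine ⟨fun j => h.1 _, h.2.1.comp E E.injective, ?_⟩
  rw [← h.2.2]
  congr 1
  exact E.surjective.range_comp (fun j => evA f A (g j))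

lemma main (hIRR : SpecIRR) (Sm : Set Ω → Prop) (hSm : SmSys Sm) (hA : Gen Sm f A) (c : Fin M → k)
    (hc : ∃ ω ∈ A, c ⬝ᵥ f ω ≠ 0) (m : ℕ) :
    ∃ (J : Type) (_ : Fintype J) (e : J → ℕ) (h : J → MvPolynomial (Fin M) k),
    IsB f A m (fun j => lin c ^ e j * h j) ∧
    (∀ j, e j ≤ m ∧ (h j).IsHomogeneous (m - e j)) ∧
    ∑ j, e j = ∑ i ∈ Finset.range m, Module.finrank k (FS f A i) := by
  induction m with
  | zero =>
    obtain ⟨r, w, hw, hB⟩ := complete f A 0 (fun j : Empty => (0 : MvPolynomial (Fin M) k))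
      (fun j => j.elim) linearIndependent_empty_type
    refine ⟨Empty ⊕ Fin r, inferInstance, fun _ => 0,
      Sum.elim (fun j : Empty => (0 : MvPolynomial (Fin M) k)) w, ?_, ?_, ?_⟩
    · have e1 : (fun j => lin c ^ 0 * Sum.elim (fun j : Empty => (0 : MvPolynomial (Fin M) k)) w j) =
          Sum.elim (fun j : Empty => (0 : MvPolynomial (Fin M) k)) w := by
        funext j
        rw [pow_zero, one_mul]
      rw [e1]
      exact hB
    · rintro (j | i)
      · exact j.elim
      · exact ⟨le_rfl, hw i⟩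
    · simp
  | succ m ih =>
    obtain ⟨J, hJ, e, h, hB, he, hsum⟩ := ih
    have hcne : evA f A (lin c) ≠ 0 := by
      obtain ⟨ω, hω, hne⟩ := hc
      intro h0
      have h1 := congrFun h0 ⟨ω, hω⟩
      rw [evA_apply, eval_lin] at h1
      exact hne h1
    have hhom : ∀ j, (lin c ^ (e j + 1) * h j).IsHomogeneous (m + 1) := by
      intro j
      have h1 := (lin_homog c).mul (hB.1 j)
      have h2 : lin c ^ (e j + 1) * h j = lin c * (lin c ^ e j * h j) := by ring
      rw [h2, add_comm m 1]
      exact h1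
    have hli : LinearIndependent k fun j => evA f A (lin c ^ (e j + 1) * h j) := by
      rw [Fintype.linearIndependent_iff]
      intro b hb
      have h1 : evA f A (lin c * ∑ j, C (b j) * (lin c ^ e j * h j)) = 0 := by
        rw [Finset.mul_sum, map_sum, ← hb]
        refine Finset.sum_congr rfl fun j _ => ?_
        have h2 : lin c * (C (b j) * (lin c ^ e j * h j)) = b j • (lin c ^ (e j + 1) * h j) := by
          rw [MvPolynomial.smul_eq_C_mul]
          ring
        rw [h2, map_smul]
      have hQ : (∑ j, C (b j) * (lin c ^ e j * h j) : MvPolynomial (Fin M) k).IsHomogeneous m := by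
        refine MvPolynomial.IsHomogeneous.sum _ _ _ fun j _ => ?_
        have h3 := (MvPolynomial.isHomogeneous_C (Fin M) (b j)).mul (hB.1 j)
        rwa [zero_add] at h3
      rcases hIRR k Ω M f Sm hSm A hA 1 m _ _ (lin_homog c) hQ h1 with h2 | h2
      · exact absurd h2 hcne
      · have h3 : ∑ j, b j • evA f A (lin c ^ e j * h j) = 0 := by
          rw [← h2, map_sum]
          refine Finset.sum_congr rfl fun j _ => ?_
          rw [← MvPolynomial.smul_eq_C_mul, map_smul]
        exact Fintype.linearIndependent_iff.mp hB.2.1 b h3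
    obtain ⟨r, w, hw, hB'⟩ := complete f A (m + 1) _ hhom hli
    refine ⟨J ⊕ Fin r, inferInstance, Sum.elim (fun j => e j + 1) (fun _ => 0), Sum.elim h w,
      ?_, ?_, ?_⟩
    · have e1 : (fun j => lin c ^ (Sum.elim (fun j => e j + 1) (fun _ => 0) j : ℕ) * Sum.elim h w j) =
          Sum.elim (fun j => lin c ^ (e j + 1) * h j) w := by
        funext j
        rcases j with j | i
        · rfl
        · show lin c ^ 0 * w i = w i
          rw [pow_zero, one_mul]
      rw [e1]
      exact hB'
    · rintro (j | i)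
      · refine ⟨Nat.succ_le_succ (he j).1, ?_⟩
        show (h j).IsHomogeneous (m + 1 - (e j + 1))
        rw [Nat.add_sub_add_right]
        exact (he j).2
      · exact ⟨Nat.zero_le _, hw i⟩
    · rw [Fintype.sum_sum_type, Finset.sum_range_succ, ← hsum, IsB.finrank f A hB]
      simp [Finset.sum_add_distrib]

end

end FILM

open FILM in
theorem specFIL (hIRR : SpecIRR) : SpecFIL := by
  intro k _ Ω M f Sm hSm A hA c hc m
  obtain ⟨J, hJ, e, h, hB, he, hsum⟩ := main f A hIRR Sm hSm hA c hc m
  obtain ⟨E⟩ : Nonempty (Fin (Fintype.card J) ≃ J) := ⟨(Fintype.equivFin J).symm⟩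
  refine ⟨Fintype.card J, fun j => e (E j), fun j => h (E j), ?_, fun j => he _, ?_⟩
  · exact IsB.reindex f A hB E
  · rw [← hsum]
    exact Equiv.sum_comp E e

end Pool.Agent.Lib.MP_d0e829_nt.SS
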