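import Pool.Agent.Lib.MP_d0e829_nt.SS.SpecC2

/-!
# Part C, section 3: the stages

`Stg`: the situation from which every stage derives a contradiction.  `A` is not small (`Gen`), all
sets on which `∑_{v ∈ S} T ≤ (6 + ε) ht f + C` are small (`bdd`), every point has a frame at every
`v ∈ S`, no functional `sqv c` vanishes on `A` (`sqn`), no two-dimensional space of functionals
`a₀ XX + a₁ XZ + a₂ ZZ` vanishes on `A` (`bin`), and the discriminant vanishes on `A` (`dl`).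
`UU f A` = functionals vanishing on `A`.  All docstrings are complete proofs.
-/

set_option autoImplicit false

open NumberField MvPolynomial

namespace Pool.Agent.Lib.MP_d0e829_nt.SS

open scoped Classical

/-- the functional `a₀ XX + a₁ XZ + a₂ ZZ` -/
def tri {k : Type} [Field k] (X Z a : Fin 3 → k) : Fin 6 → k :=
  a 0 • sqv X + a 1 • mix X Z + a 2 • sqv Z

/-- the situation of a stage -/
structure Stg {k : Type} [Field k] [NumberField k] (S : Finset (Place k)) {q : ℕ}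
    (ℓ : Fin q → Fin 3 → k) (BB : Finset (Matrix (Fin 3) (Fin 3) k)) (C ε : ℝ) {Ω : Type}
    (f : Ω → Fin 6 → k) (T : Ω → Place k → ℝ) (Sm : Set Ω → Prop) (A : Set Ω) : Prop where
  sys : SmSys Sm
  bdd : ∀ B : Set Ω, B ⊆ A → (∃ C' : ℝ, ∀ ω ∈ B, ∑ v ∈ S, T ω v ≤ (6 + ε) * ht (f ω) + C') → Sm B
  gen : Gen Sm f A
  ne : ∀ ω ∈ A, f ω ≠ 0
  det : ∀ B ∈ BB, B.det ≠ 0
  fr : ∀ ω ∈ A, ∀ v ∈ S, ∃ B ∈ BB, Fr v ℓ B (f ω) (T ω v) C
  sqn : ∀ c : Fin 3 → k, c ≠ 0 → sqv c ∉ UU f A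
  bin : ∀ X Z : Fin 3 → k, LinearIndependent k ![X, Z] → ∀ a b : Fin 3 → k,
    LinearIndependent k ![a, b] → ¬ (tri X Z a ∈ UU f A ∧ tri X Z b ∈ UU f A)
  dl : ∀ ω ∈ A, dlt (f ω) = 0

/-- the functionals in `U`, in the coordinates of the frame `B` -/
def UB {k : Type} [Field k] (U : Submodule k (Fin 6 → k)) (B : Matrix (Fin 3) (Fin 3) k) :
    Submodule k (Fin 6 → k) where
  carrier := {c | ∑ i, c i • S2 B i ∈ U}
  add_mem' := by
    intro a b ha hb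
    have h : ∑ i, (a + b) i • S2 B i = ∑ i, a i • S2 B i + ∑ i, b i • S2 B i := by
      rw [← Finset.sum_add_distrib]
      exact Finset.sum_congr rfl fun i _ => by rw [Pi.add_apply, add_smul]
    simp only [Set.mem_ofPred_eq] at ha hb ⊢
    rw [h]; exact U.add_mem ha hb
  zero_mem' := by
    simp only [Set.mem_ofPred_eq, Pi.zero_apply, zero_smul, Finset.sum_const_zero]
    exact U.zero_mem
  smul_mem' := by
    intro c a ha
    have h : ∑ i, (c • a) i • S2 B i = c • ∑ i, a i • S2 B i := by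
      rw [Finset.smul_sum]
      exact Finset.sum_congr rfl fun i _ => by rw [Pi.smul_apply, smul_eq_mul, mul_smul]
    simp only [Set.mem_ofPred_eq] at ha ⊢
    rw [h]; exact U.smul_mem c ha

/-- the conditions on the four coordinates `e` and the matrix `N` in `K2C` -/
def EN {k : Type} [Field k] (U : Submodule k (Fin 6 → k)) (e : Fin 4 → Fin 6)
    (N : Fin 6 → Fin 4 → k) : Prop :=
  Function.Injective e ∧ (∀ j, N (e j) = Pi.single j 1) ∧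
    ∀ i, Pi.single i (1 : k) - ∑ j, N i j • (Pi.single (e j) (1 : k) : Fin 6 → k) ∈ U

/-- FCH. Finitely many choices at each place of `S`.

PROOF. Only the values of `φ` on `S` matter in hypothesis and conclusion, so it is enough to treat the
finitely many `φ` which are a fixed constant outside `S` (if `Φ` is empty and `S` is not, there is nothing
to prove; if `S = ∅` the hypothesis for one `φ`, or `Φ` empty and no `φ`, is all).  Take the union of the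
finitely many small sets and the maximum of the constants. -/
def SpecFCH : Prop := ∀ (k : Type) [Field k] [NumberField k] (Ω Φ : Type) [Finite Φ]
  (S : Finset (Place k)) (Sm : Set Ω → Prop), SmSys Sm → ∀ (A : Set Ω) (h : Ω → ℝ) (c : ℝ)
  (F : Place k → Φ → Ω → ℝ) (ok : Place k → Φ → Prop),
  (∀ φ : Place k → Φ, (∀ v ∈ S, ok v (φ v)) → ∃ (B : Set Ω) (C : ℝ), Sm B ∧ ∀ ω ∈ A, ω ∉ B →
    ∑ v ∈ S, F v (φ v) ω ≤ c * h ω + C) →
  ∃ (B : Set Ω) (C : ℝ), Sm B ∧ ∀ ω ∈ A, ω ∉ B → ∀ φ : Place k → Φ, (∀ v ∈ S, ok v (φ v)) →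
    ∑ v ∈ S, F v (φ v) ω ≤ c * h ω + C

/-- UBP. The space `UB U B`.

PROOF. `c ↦ ∑ c_i S2 B i` is an automorphism of `k⁶` (`det (S2 B) ≠ 0` by ALG), so the dimensions agree;
`∑ (Pi.single i 1)_j S2 B j = S2 B i`. -/
def SpecUBP : Prop := ∀ (k : Type) [Field k] (U : Submodule k (Fin 6 → k))
  (B : Matrix (Fin 3) (Fin 3) k), (S2 B).det ≠ 0 →
  Module.finrank k (UB U B) = Module.finrank k U ∧
  (∀ i : Fin 6, Pi.single i (1 : k) ∈ UB U B ↔ S2 B i ∈ U) ∧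
  ∀ c : Fin 6 → k, c ∈ UB U B ↔ ∑ i, c i • S2 B i ∈ U

/-- NPR. The hypotheses of K2 for `UB (UU f A) B` (from UBP).

PROOF. `S2 B i = sqv (B i)` for `i < 3`, and the rows of `B` are not 0: `sqn`.  Suppose `c 1 = c 3 = c 5 = 0` for
all `c ∈ UB`: then `∑ c_i S2 B i = tri X Z (c 0, c 4, c 2)` with `X = B 0`, `Z = B 2` linearly independent; `UB`
has dimension 2, take a basis `c, c'`; `(c 0, c 4, c 2)` and `(c' 0, c' 4, c' 2)` are linearly independent: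
against `bin`.  In the same way for `{0, 4, 5}` (`X = B 1`, `Z = B 2`, `(c 1, c 3, c 2)`) and for `{2, 3, 4}`
(`X = B 0`, `Z = B 1`, `(c 0, c 5, c 1)`). -/
def SpecNPR : Prop := ∀ (k : Type) [Field k] (U : Submodule k (Fin 6 → k))
  (B : Matrix (Fin 3) (Fin 3) k), B.det ≠ 0 → (S2 B).det ≠ 0 → Module.finrank k U = 2 →
  (∀ c : Fin 3 → k, c ≠ 0 → sqv c ∉ U) →
  (∀ X Z : Fin 3 → k, LinearIndependent k ![X, Z] → ∀ a b : Fin 3 → k,
    LinearIndependent k ![a, b] → ¬ (tri X Z a ∈ U ∧ tri X Z b ∈ U)) →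
  (∀ i : Fin 6, (i : ℕ) < 3 → Pi.single i (1 : k) ∉ UB U B) ∧
  (∃ C ∈ UB U B, C 1 ≠ 0 ∨ C 3 ≠ 0 ∨ C 5 ≠ 0) ∧ (∃ C ∈ UB U B, C 0 ≠ 0 ∨ C 4 ≠ 0 ∨ C 5 ≠ 0) ∧
  ∃ C ∈ UB U B, C 2 ≠ 0 ∨ C 3 ≠ 0 ∨ C 4 ≠ 0

/-- POL. The four functionals of a frame and the cubic (from UBP).

PROOF. `U = UU f A`, `y j = S2 B (e j)`.  For `c ∈ UB U B` and `ω ∈ A`: `∑ c_i (S2 B i ⬝ᵥ f ω) = 0`; so by `EN`
`S2 B i ⬝ᵥ f ω = ∑_j N i j (y j ⬝ᵥ f ω)`.  The `S2 B i` are a basis of `k⁶`, so `y` spans (`Spn`).  `Spn` says that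
the four classes of `y j` generate `k⁶ / U`, of dimension 4, so they are linearly independent (`Ind`).
`eval (y ⬝ᵥ f ω) (Dl N) = dlt ((S2 B).mulVec (f ω)) = det(B)² dlt (f ω) = 0`.  Let `w` be orthogonal to `U` with
`dlt w ≠ 0`; in the same way `eval (y ⬝ᵥ w) (Dl N) = det(B)² dlt w ≠ 0`, so `Dl N ≠ 0`.  If `N'` also satisfies
`EN` with the same `e`, then `∑_j (N i j - N' i j) Pi.single (e j) 1 ∈ UB U B`, so
`∑_j (N i j - N' i j) y j ∈ U` and `N = N'` by `Ind`. -/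
def SpecPOL : Prop := ∀ (k : Type) [Field k] (Ω : Type) (f : Ω → Fin 6 → k) (A : Set Ω)
  (B : Matrix (Fin 3) (Fin 3) k) (e : Fin 4 → Fin 6) (N : Fin 6 → Fin 4 → k), (S2 B).det ≠ 0 →
  (∀ w : Fin 6 → k, dlt ((S2 B).mulVec w) = B.det ^ 2 * dlt w) → B.det ≠ 0 →
  Module.finrank k (UU f A) = 2 → EN (UB (UU f A) B) e N → (∀ ω ∈ A, dlt (f ω) = 0) →
  (∃ w : Fin 6 → k, (∀ c ∈ UU f A, c ⬝ᵥ w = 0) ∧ dlt w ≠ 0) →
  Spn f A (fun j => S2 B (e j)) ∧ Ind f A (fun j => S2 B (e j)) ∧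
  (∀ ω ∈ A, eval (fun j => S2 B (e j) ⬝ᵥ f ω) (Dl N) = 0) ∧ Dl N ≠ 0 ∧
  ∀ N' : Fin 6 → Fin 4 → k, EN (UB (UU f A) B) e N' → N' = N

/-- STA. Non-small sets: elementary consequences (no other module).

PROOF. (1) `c ∉ UU f A`: the form `lin c` does not vanish identically on `A`; `Gen`.  (2) If off a small set
`∑ T ≤ (6 + ε) ht f + C`, then `A` is the union of a subset of this small set and a small set (`bdd`).
(3) `Ge v c f w` and `c ⬝ᵥ f ≠ 0`: take logarithms. -/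
def SpecSTA : Prop := ∀ (k : Type) [Field k] [NumberField k] (S : Finset (Place k)) (q : ℕ)
  (ℓ : Fin q → Fin 3 → k) (BB : Finset (Matrix (Fin 3) (Fin 3) k)) (C ε : ℝ) (Ω : Type)
  (f : Ω → Fin 6 → k) (T : Ω → Place k → ℝ) (Sm : Set Ω → Prop) (A : Set Ω),
  Stg S ℓ BB C ε f T Sm A →
  (∀ c : Fin 6 → k, c ∉ UU f A → Sm {ω | ω ∈ A ∧ c ⬝ᵥ f ω = 0}) ∧
  (∀ (B : Set Ω) (C' : ℝ), Sm B →
    (∀ ω ∈ A, ω ∉ B → ∑ v ∈ S, T ω v ≤ (6 + ε) * ht (f ω) + C') → False) ∧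
  ∀ (v : Place k) (c g : Fin 6 → k) (w : ℝ), c ⬝ᵥ g ≠ 0 → Ge v c g w → w ≤ val v c g

/-- U0. No functional vanishes (from LNS, FCH, STA).

PROOF. For `B ∈ BB` the six rows of `S2 B` are a basis of the functionals (`Spn`, `Ind`, as `UU f A = ⊥`).  LNS
with `n = 6` for every choice `v ↦ B_v` in `BB`, and FCH (`Φ = BB`, `F v B ω = ∑_i val v (S2 B i) (f ω)`): off a
small set `∑_v ∑_i val v (S2 (B_v) i) (f ω) ≤ (6 + ε) ht + C'` for all choices; off a further small set no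
`S2 B i ⬝ᵥ f ω` is 0 (STA).  For such `ω` choose the frames `B_v` of `fr`: with the weights `W`,
`val ≥ W i - C` (STA) and `∑_i W i ≥ T ω v - C` (type A: `∑ WA = p + q + z + z' + ν + μ`; type B:
`∑ WB ≥ p + p' + q + q'`).  So `∑ T ≤ (6 + ε) ht + C''`: STA (2). -/
def SpecU0 : Prop := ∀ (k : Type) [Field k] [NumberField k] (S : Finset (Place k)) (q : ℕ)
  (ℓ : Fin q → Fin 3 → k) (BB : Finset (Matrix (Fin 3) (Fin 3) k)) (C ε : ℝ) (Ω : Type)
  (f : Ω → Fin 6 → k) (T : Ω → Place k → ℝ) (Sm : Set Ω → Prop) (A : Set Ω), 0 < ε →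
  (∀ B ∈ BB, (S2 B).det ≠ 0) →
  Stg S ℓ BB C ε f T Sm A → Module.finrank k (UU f A) = 0 → False

/-- UC. The curve case (from CRV, FCH, STA).

PROOF. The functionals `S2 B i = sqv (B i)`, `i < 3`, are not in `UU f A` (`sqn`, rows of `B` are not 0).  CRV
with `ε / 3` for every choice `v ↦ (B_v, i_v)`, FCH with `Φ = BB × Fin 3`: off a small set
`∑_v val v (S2 (B_v) (i_v)) (f ω) ≤ (2 + ε/3) ht + C'` for all choices.  For `ω` and its frames choose `i_v`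
with the largest weight among the three squares: `W i ≥ (T ω v - C)/3` (type A:
`p + q + (z + z') ≥ T - C`; type B: `(p+p') + (q+q') ≥ T - C`, `W 2 = 0`), so `T ω v ≤ 3 val + 4 C` (`C`
replaced by `|C|`).  Sum: `∑ T ≤ (6 + ε) ht + C''`: STA (2). -/
def SpecUC : Prop := ∀ (k : Type) [Field k] [NumberField k] (S : Finset (Place k)) (q : ℕ)
  (ℓ : Fin q → Fin 3 → k) (BB : Finset (Matrix (Fin 3) (Fin 3) k)) (C ε : ℝ) (Ω : Type)
  (f : Ω → Fin 6 → k) (T : Ω → Place k → ℝ) (Sm : Set Ω → Prop) (A : Set Ω), 0 < ε →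
  Stg S ℓ BB C ε f T Sm A →
  (∃ D : ℝ, ∀ m : ℕ, 0 < m → (Module.finrank k (FS f A m) : ℝ) ≤ D * m) → False

/-- U1. One functional vanishes (from LNS, FCH, STA, K1A, K1D, K1B, UNP, TRV).

PROOF. `UU f A = ⟨c₀⟩`.  For `B ∈ BB` let `c^B` be the coordinates of `c₀` in the basis `S2 B i`
(`c₀ = ∑ c^B_i S2 B i`).  By `sqn` `c^B` is not a multiple of `Pi.single i 1`, `i < 3`, and not 0.  If
`c^B_{i₀} ≠ 0`, the five functionals `S2 B (i₀.succAbove j)` satisfy `Spn` and `Ind`.  LNS with `n = 5` and FCH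
(`Φ = BB × Fin 6`, `ok v (B, i₀) := c^B_{i₀} ≠ 0`): off a small set
`∑_v ∑_j val v (S2 B (i₀.succAbove j)) ≤ (5 + ε) ht + C'` for all such choices; off a further small set the
`S2 B i ⬝ᵥ f ω` and the `sqv (ℓ r) ⬝ᵥ f ω` are not 0 (STA, `S2 B i ∉ UU f A`; if `S2 B i ∈ UU f A` it is omitted:
then `c^B` is a multiple of `Pi.single i 1`, so `i₀ = i`).  Call `c₀` special if `c₀ = a sqv (ℓ r) +
b sqv (ℓ s)`, `r ≠ s`, `a, b ≠ 0`, and fix such an `r` if it exists.  Let `ω` be outside, with frames `B_v`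
and weights (type A2: `WA`; type A1: `WA1`; type B: `WB`).  K1A, K1D, K1B give `i₀` with either
`T ω v - C ≤ ∑_{i ≠ i₀} W i`, or the support of `c^{B_v}` is `{i₁, i₂}`, squares of lines `ℓ_{r'}, ℓ_{s'}` (type
A2, B: all three rows of `B_v` are lines; type A1: `{0, 1}`), `r' ≠ s'`, so `c₀` is special, `r ∈ {r', s'}` by
UNP, and `T ω v - C ≤ ∑_{i ≠ i₀} W i + W i_r`, where `S2 (B_v) i_r = sqv (ℓ r)`.  As `W i - C ≤ val`:
`T ω v ≤ ∑_{i ≠ i₀} val + C''` or `≤ ∑_{i ≠ i₀} val + val v (sqv (ℓ r)) (f ω) + C''`.  Sum over `v`, with TRV for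
`sqv (ℓ r)` and the set `S'` of the places of the second kind:
`∑ T ≤ (5 + ε) ht + C' + ht + C'''`: STA (2). -/
def SpecU1 : Prop := ∀ (k : Type) [Field k] [NumberField k] (S : Finset (Place k)) (q : ℕ)
  (ℓ : Fin q → Fin 3 → k) (BB : Finset (Matrix (Fin 3) (Fin 3) k)) (C ε : ℝ) (Ω : Type)
  (f : Ω → Fin 6 → k) (T : Ω → Place k → ℝ) (Sm : Set Ω → Prop) (A : Set Ω), 0 < ε →
  (∀ i, ℓ i ≠ 0) →
  (∀ i j l, i ≠ j → i ≠ l → j ≠ l → LinearIndependent k ![ℓ i, ℓ j, ℓ l]) →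
  (∀ B ∈ BB, (S2 B).det ≠ 0) →
  Stg S ℓ BB C ε f T Sm A → Module.finrank k (UU f A) = 1 → False

/-- K2F. The local information for `dim U = 2`, uniformly (from K2A, K2B, EXA, NPR).

PROOF. For `B ∈ BB` NPR gives the hypotheses of K2A and K2B for `UB (UU f A) B`; let `F_B, F'_B` be their finite
sets, `κ₀` the maximum of the constants of EXA for `S`, `B ∈ BB`, `c ∈ F_B ∪ F'_B` (EXA needs
`∑ c_i (S2 B i ⬝ᵥ f ω) = 0`, true as `c ∈ UB (UU f A) B`).  For `ω ∈ A`, `v ∈ S` take the frame of `fr`: type A2 or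
A1: `W = WA`, `T₀ = p + q + z + z'`; type B: `W = WB`, `T₀ = p + p' + q + q'`; `ExC c W (κ₀ + 2 |C|)` by EXA.
K2A or K2B with `κ = κ₀ + 2 |C|` is the claim (`K2C` unfolded) with `10 κ`. -/
def SpecK2F : Prop := ∀ (k : Type) [Field k] [NumberField k] (S : Finset (Place k)) (q : ℕ)
  (ℓ : Fin q → Fin 3 → k) (BB : Finset (Matrix (Fin 3) (Fin 3) k)) (C ε : ℝ) (Ω : Type)
  (f : Ω → Fin 6 → k) (T : Ω → Place k → ℝ) (Sm : Set Ω → Prop) (A : Set Ω),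
  (∀ B ∈ BB, (S2 B).det ≠ 0) →
  Stg S ℓ BB C ε f T Sm A → Module.finrank k (UU f A) = 2 →
  ∃ κ : ℝ, 0 ≤ κ ∧ ∀ ω ∈ A, ∀ v ∈ S, ∃ B ∈ BB, ∃ (W : Fin 6 → ℝ) (T₀ : ℝ),
    (∀ i, 0 ≤ W i) ∧ (∀ i, Ge v (S2 B i) (f ω) (W i - C)) ∧ T ω v ≤ T₀ + C ∧
    K2C (UB (UU f A) B) W T₀ κ

/-- U2. Two functionals vanish (from K2F, POL, DIC, SMB, K2G, HYP, FCH, STA, UC).

PROOF. `w₀` with `dlt w₀ ≠ 0`, orthogonal to `UU f A`, is given.  For `B ∈ BB` and `e` such that some `N` with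
`EN (UB (UU f A) B) e N` exists, `N = N_{B,e}` is unique, and POL, DIC (`P = Dl N`, homogeneous of degree 3)
apply to `y_j = S2 B (e j)`.  If the first alternative of DIC holds for one `(B, e)`, UC gives `False`.
Otherwise there are `G_{B,e}` irreducible, homogeneous of degree `g`, where `7 + g = finrank (FS f A 2)`, so
`g ≥ 2` is the same for all.  For `μ` in the support of `G_{B,e}` with `Std G_{B,e} μ` consider the choice
`(B, e, μ)`: finitely many (`Φ` = a finite type of triples; `ok` = these conditions).  HYP with `ε / 2` and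
FCH: off a small set, for all choices,
`∑_v ∑_j (1 - μ_j / g) val v (S2 B (e j)) (f ω) ≤ (3 + ε/2) ht + C'`; off a further small set the
`S2 B (e j) ⬝ᵥ f ω` are not 0 (STA, `Ind`).  Let `ω` be outside.  For `v ∈ S` K2F gives `B, W, T₀` and `(e, N)`; SMB
for `G_{B,e}` and the weights `W ∘ e` gives `μ` of least weight with `Std`; K2G gives
`T₀ / 2 ≤ ∑_j W (e j) - wt (W ∘ e) μ / g + κ = ∑_j (1 - μ_j / g) W (e j) + κ`.  As `∑ μ_j = g`,
`0 ≤ 1 - μ_j / g ≤ 1`, and `W (e j) ≤ val + |C|` (STA).  So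
`T ω v ≤ T₀ + C ≤ 2 ∑_j (1 - μ_j / g) val + C''`, and `∑ T ≤ (6 + ε) ht + C'''`: STA (2). -/
def SpecU2 : Prop := ∀ (k : Type) [Field k] [NumberField k] (S : Finset (Place k)) (q : ℕ)
  (ℓ : Fin q → Fin 3 → k) (BB : Finset (Matrix (Fin 3) (Fin 3) k)) (C ε : ℝ) (Ω : Type)
  (f : Ω → Fin 6 → k) (T : Ω → Place k → ℝ) (Sm : Set Ω → Prop) (A : Set Ω), 0 < ε →
  (∀ B ∈ BB, (S2 B).det ≠ 0) →
  (∀ (B : Matrix (Fin 3) (Fin 3) k) (w : Fin 6 → k), dlt ((S2 B).mulVec w) = B.det ^ 2 * dlt w) →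
  (∃ w : Fin 6 → k, (∀ c ∈ UU f A, c ⬝ᵥ w = 0) ∧ dlt w ≠ 0) →
  (∀ N : Fin 6 → Fin 4 → k, (Dl N).IsHomogeneous 3) →
  Stg S ℓ BB C ε f T Sm A → Module.finrank k (UU f A) = 2 → False

/-- DIS. Three or more functionals vanish (from DM2, DM3).

PROOF. `U = UU f A`.  *`finrank U ≥ 4`*: two functionals `y` generate `k⁶ / U`: `Spn`; DM2, `m + 1 ≤ 2 m`.
*`finrank U = 3`*: take `y : Fin 3 → k⁶` whose classes are a basis of `k⁶ / U`; then
`Pi.single i 1 - ∑_j N i j y_j ∈ U` for a matrix `N`, `Spn`, and `Dl N` (three variables) vanishes at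
`(y_j ⬝ᵥ f ω)_j`, since `(f ω)_i = ∑_j N i j (y_j ⬝ᵥ f ω)` and `dlt (f ω) = 0`; for the `w` orthogonal to `U` with
`dlt w ≠ 0`, `w_i = ∑_j N i j (y_j ⬝ᵥ w)`, so `Dl N ≠ 0`; it is homogeneous of degree 3.  DM3. -/
def SpecDIS : Prop := ∀ (k : Type) [Field k] (Ω : Type) (f : Ω → Fin 6 → k) (A : Set Ω),
  3 ≤ Module.finrank k (UU f A) → (∀ ω ∈ A, dlt (f ω) = 0) →
  (Module.finrank k (UU f A) ≤ 4 → ∃ w : Fin 6 → k, (∀ c ∈ UU f A, c ⬝ᵥ w = 0) ∧ dlt w ≠ 0) →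
  ∃ D : ℝ, ∀ m : ℕ, 0 < m → (Module.finrank k (FS f A m) : ℝ) ≤ D * m

/-- ORT. A vector orthogonal to `UU f A` with nonzero discriminant (from DEL; in the form needed: `hDEL`).

PROOF. `W` = the vectors orthogonal to `U = UU f A`, of dimension `6 - finrank U ≥ 2`.  For `c ≠ 0` some `w ∈ W`
has `sqv c ⬝ᵥ w ≠ 0`, because otherwise `sqv c` would be in the double orthogonal `U`.  DEL. -/
def SpecORT : Prop := ∀ (k : Type) [Field k] (U : Submodule k (Fin 6 → k)),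
  (∀ W : Submodule k (Fin 6 → k), 2 ≤ Module.finrank k W →
    (∀ c : Fin 3 → k, c ≠ 0 → ∃ w ∈ W, sqv c ⬝ᵥ w ≠ 0) → ∃ w ∈ W, dlt w ≠ 0) →
  Module.finrank k U ≤ 4 → (∀ c : Fin 3 → k, c ≠ 0 → sqv c ∉ U) →
  ∃ w : Fin 6 → k, (∀ c ∈ U, c ⬝ᵥ w = 0) ∧ dlt w ≠ 0

/-- TRI. The trivial bound.

PROOF. As in `MP_d0e829_nt/Main.lean`: `placesAbove K S` is finite, `log (‖x‖ ‖ℓ‖ / |ℓ(x)|) =
mu (ℓ i) w x + log ‖ℓ i‖_w`, and `sum_mu_le` (with `exists_bound_err`) bounds the sum over the places above `S`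
by `height x + C` for every `i`; `∑_w log ‖ℓ i‖_w` is bounded by `log_normV_le_err` and
`exists_bound_err`. -/
def SpecTRI : Prop := ∀ (k : Type) [Field k] [NumberField k] (S : Finset (Place k)) (q : ℕ)
  (ℓ : Fin q → Fin 3 → k), (∀ i, ℓ i ≠ 0) → ∃ C : ℝ, ∀ (K : Type) [Field K] [NumberField K]
  [Algebra k K] (x : Fin 3 → K), x ≠ 0 → (∀ i, evalForm (ℓ i) x ≠ 0) →
  proximity S ℓ x ≤ q * height x + C

/-- The theorem: points of degree at most two over `k`. -/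
def SpecFIN : Prop := ∀ (k : Type) [Field k] [NumberField k] (S : Finset (Place k)) (q : ℕ)
  (ℓ : Fin q → Fin 3 → k), (∀ i, ℓ i ≠ 0) →
  (∀ i j l, i ≠ j → i ≠ l → j ≠ l → LinearIndependent k ![ℓ i, ℓ j, ℓ l]) →
  ∀ ε : ℝ, 0 < ε → ∃ (Z : Finset (Fin 3 → AlgebraicClosure k)) (C : ℝ), (∀ M ∈ Z, M ≠ 0) ∧
    ∀ (K : Type) [Field K] [NumberField K] [Algebra k K] (σ : K →ₐ[k] AlgebraicClosure k)
      (x : Fin 3 → K), Module.finrank k K ≤ 2 → x ≠ 0 → (∀ M ∈ Z, ∑ j, M j * σ (x j) ≠ 0) →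
      proximity S ℓ x ≤ (3 * 2 + ε) * height x + C

end Pool.Agent.Lib.MP_d0e829_nt.SS
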