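import Pool.Agent.Lib.MP_d0e829_nt.SS.SpecC1

/-!
# CRV: the curve case (helper94)
-/

set_option autoImplicit false

open NumberField MvPolynomial

namespace Pool.Agent.Lib.MP_d0e829_nt.SS

open scoped Classical

namespace CRVM

section
variable {k : Type} [Field k] {Ω : Type} {M : ℕ}

lemma eval_lin (c x : Fin M → k) : eval x (lin c) = c ⬝ᵥ x := by
  simp [lin, dotProduct]

/-- the constants -/
lemma finrank_zero (f : Ω → Fin M → k) {A : Set Ω} (hA : A.Nonempty) :
    Module.finrank k (FS f A 0) = 1 := by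
  have h1 : FS f A 0 = Submodule.span k {(1 : A → k)} := by
    apply le_antisymm
    · rintro _ ⟨P, hP, rfl⟩
      have hP' : P.IsHomogeneous 0 := hP
      have h2 : P = C (P.coeff 0) := by
        rw [← MvPolynomial.totalDegree_eq_zero_iff_eq_C]
        exact Nat.le_zero.mp hP'.totalDegree_le
      rw [Submodule.mem_span_singleton]
      refine ⟨P.coeff 0, ?_⟩
      show _ = evA f A P
      rw [h2, evA, MvPolynomial.aeval_C, MvPolynomial.coeff_C, if_pos rfl, Algebra.algebraMap_eq_smul_one]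
    · rw [Submodule.span_singleton_le_iff_mem]
      refine ⟨1, ?_, ?_⟩
      · exact MvPolynomial.isHomogeneous_one (Fin M) k
      · show evA f A 1 = 1
        rw [map_one]
  rw [h1]
  obtain ⟨ω, hω⟩ := hA
  refine finrank_span_singleton ?_
  intro h
  have := congrFun h ⟨ω, hω⟩
  exact one_ne_zero this

end

section
variable {k : Type} [Field k] [NumberField k]

lemma absV_one (v : Place k) : absV v (1 : k) = 1 := by
  have h1 := absV_mul v (1 : k) 1
  rw [mul_one] at h1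
  have h2 := absV_pos v (one_ne_zero (α := k))
  have h3 : absV v (1 : k) * 1 = absV v (1 : k) * absV v (1 : k) := by rw [mul_one]; exact h1
  exact (mul_left_cancel₀ h2.ne' h3).symm

lemma absV_pow (v : Place k) (a : k) (n : ℕ) : absV v (a ^ n) = absV v a ^ n := by
  induction n with
  | zero => rw [pow_zero, pow_zero, absV_one]
  | succ n ih => rw [pow_succ, pow_succ, absV_mul, ih]

/-- one summand -/
lemma term {M : ℕ} (v : Place k) (c f : Fin M → k) (hf : f ≠ 0) (h : MvPolynomial (Fin M) k)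
    (e m : ℕ) (he : e ≤ m) (κ : ℝ) (hne : eval f (lin c ^ e * h) ≠ 0) (hcf : c ⬝ᵥ f ≠ 0)
    (hκ : absV v (eval f h) ≤ Real.exp κ * nrm v f ^ (m - e)) :
    (e : ℝ) * val v c f - κ ≤
      m * Real.log (nrm v f) - Real.log (absV v (eval f (lin c ^ e * h))) := by
  have hh : eval f h ≠ 0 := by
    rw [map_mul] at hne
    exact right_ne_zero_of_mul hne
  have h1 : absV v (eval f (lin c ^ e * h)) = absV v (c ⬝ᵥ f) ^ e * absV v (eval f h) := by
    rw [map_mul, map_pow, eval_lin, absV_mul, absV_pow]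
  have hp1 := absV_pos v hcf
  have hp2 := absV_pos v hh
  have hn := nrm_pos v hf
  rw [h1, Real.log_mul (pow_pos hp1 e).ne' hp2.ne', Real.log_pow, val]
  have h2 : Real.log (absV v (eval f h)) ≤ κ + (m - e : ℝ) * Real.log (nrm v f) := by
    have h3 := Real.log_le_log hp2 hκ
    rw [Real.log_mul (Real.exp_pos κ).ne' (pow_pos hn _).ne', Real.log_exp, Real.log_pow,
      Nat.cast_sub he] at h3
    exact h3
  linarith

end

end CRVM

open CRVM in
theorem specCRV (hSUBI : SpecSUBI) (hFIL : SpecFIL) (hGRO : SpecGRO) (hTRV : SpecTRV) :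
    SpecCRV := by
  intro k _ _ Ω M f Sm hSm A hA hf hD S c hc ε hε
  obtain ⟨D, hD⟩ := hD
  have hAne : A.Nonempty := by
    rw [Set.nonempty_iff_ne_empty]
    intro h
    exact hA.1 (h ▸ hSm.1)
  obtain ⟨a, hadef⟩ : ∃ a : ℕ → ℝ, ∀ m, a m = (Module.finrank k (FS f A m) : ℝ) :=
    ⟨fun m => (Module.finrank k (FS f A m) : ℝ), fun _ => rfl⟩
  have ha0 : a 0 = 1 := by
    rw [hadef, finrank_zero f hAne, Nat.cast_one]
  have hb : (0 : ℝ) < 2 + ε / 2 := by linarith
  obtain ⟨m, hm, hms⟩ := hGRO a D ha0 (fun m => by rw [hadef]; exact Nat.cast_nonneg _)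
    (fun m hm => by rw [hadef]; exact hD m hm) (1 / 2 - 1 / (2 + ε / 2)) (by
      have : 1 / (2 + ε / 2) < 1 / 2 := by
        apply one_div_lt_one_div_of_lt <;> linarith
      linarith)
  obtain ⟨s, hs⟩ : ∃ s : ℝ, s = ∑ j ∈ Finset.range m, a j := ⟨_, rfl⟩
  rw [← hs] at hms
  have hs1 : 1 ≤ s := by
    rw [hs, ← ha0]
    exact Finset.single_le_sum (f := a) (fun j _ => by rw [hadef]; exact Nat.cast_nonneg _)
      (Finset.mem_range.mpr hm)
  have hma : m * a m ≤ (2 + ε / 2) * s := by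
    have h1 : 1 / (2 + ε / 2) * (m * a m) ≤ s := by
      have h2 : 1 / 2 - (1 / 2 - 1 / (2 + ε / 2)) = 1 / (2 + ε / 2) := by ring
      rwa [h2] at hms
    rw [one_div, inv_mul_le_iff₀ hb] at h1
    exact h1
  have hex : ∀ v : Place k, ∃ (n : ℕ) (e : Fin n → ℕ) (h : Fin n → MvPolynomial (Fin M) k),
      v ∈ S → (IsB f A m (fun j => lin (c v) ^ e j * h j) ∧
      (∀ j, e j ≤ m ∧ (h j).IsHomogeneous (m - e j)) ∧
      ∑ j, e j = ∑ i ∈ Finset.range m, Module.finrank k (FS f A i)) := by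
    intro v
    by_cases hv : v ∈ S
    · obtain ⟨n, e, h, hh⟩ := hFIL k Ω M f Sm hSm A hA (c v) (hc v hv) m
      exact ⟨n, e, h, fun _ => hh⟩
    · exact ⟨0, fun _ => 0, fun _ => 0, fun h => absurd h hv⟩
  choose n e h hh using hex
  have hsum : ∀ v ∈ S, (∑ j, (e v j : ℝ)) = s := by
    intro v hv
    have h1 := (hh v hv).2.2
    have h2 : ((∑ j, e v j : ℕ) : ℝ) = ((∑ i ∈ Finset.range m, Module.finrank k (FS f A i) : ℕ) : ℝ) :=
      by rw [h1]
    push_cast at h2
    rw [h2, hs]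
    exact Finset.sum_congr rfl fun i _ => (hadef i).symm
  have hκ : ∀ (v : Place k) (j : Fin (n v)), ∃ κ : ℝ, 0 ≤ κ ∧ (v ∈ S → ∀ ω : Ω,
      absV v (eval (f ω) (h v j)) ≤ Real.exp κ * nrm v (f ω) ^ (m - e v j)) := by
    intro v j
    by_cases hv : v ∈ S
    · obtain ⟨κ, h1, -, h2⟩ := (hTRV k M).2 (m - e v j) (h v j) ((hh v hv).2.1 j).2
      exact ⟨κ v, h1 v, fun _ ω => h2 (f ω) v⟩
    · exact ⟨0, le_rfl, fun h => absurd h hv⟩
  choose κ hκ0 hκ using hκ
  obtain ⟨B, C₁, hB, hBC⟩ := hSUBI k Ω M f Sm hSm A hA hf S m hm (fun v => Fin (n v))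
    (fun v j => lin (c v) ^ e v j * h v j) (fun v hv => (hh v hv).1) (ε / 2) (by linarith)
  obtain ⟨C₂, hC₂⟩ : ∃ C₂ : ℝ, C₂ = ∑ v ∈ S, ∑ j, κ v j := ⟨_, rfl⟩
  refine ⟨B, |C₁ + C₂|, hB, fun ω hω hωB => ?_⟩
  obtain ⟨hne, hle⟩ := hBC ω hω hωB
  have hcf : ∀ v ∈ S, c v ⬝ᵥ f ω ≠ 0 := by
    intro v hv hcon
    have h1 : ∃ j, e v j ≠ 0 := by
      by_contra hcon2
      push Not at hcon2
      have h2 := hsum v hv
      simp only [hcon2, Nat.cast_zero, Finset.sum_const_zero] at h2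
      linarith
    obtain ⟨j, hj⟩ := h1
    apply hne v hv j
    rw [map_mul, map_pow, eval_lin, hcon, zero_pow hj, zero_mul]
  refine ⟨hcf, ?_⟩
  have hht := ht_nonneg (hf ω hω)
  have hlow : s * ∑ v ∈ S, val v (c v) (f ω) - C₂ ≤
      ∑ v ∈ S, ∑ j, (m * Real.log (nrm v (f ω)) -
        Real.log (absV v (eval (f ω) (lin (c v) ^ e v j * h v j)))) := by
    rw [hC₂, Finset.mul_sum, ← Finset.sum_sub_distrib]
    refine Finset.sum_le_sum fun v hv => ?_
    rw [← hsum v hv, Finset.sum_mul, ← Finset.sum_sub_distrib]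
    refine Finset.sum_le_sum fun j _ => ?_
    exact term v (c v) (f ω) (hf ω hω) (h v j) (e v j) m ((hh v hv).2.1 j).1 (κ v j)
      (hne v hv j) (hcf v hv) (hκ v j hv ω)
  have hup : s * ∑ v ∈ S, val v (c v) (f ω) ≤
      ((2 + ε / 2) * s + ε / 2) * ht (f ω) + (C₁ + C₂) := by
    have h1 : ((Module.finrank k (FS f A m) : ℝ) * m + ε / 2) * ht (f ω) ≤
        ((2 + ε / 2) * s + ε / 2) * ht (f ω) := by
      apply mul_le_mul_of_nonneg_right _ hht
      rw [← hadef]
      linarith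
    linarith
  have habs := le_abs_self (C₁ + C₂)
  have habs0 := abs_nonneg (C₁ + C₂)
  have hfin : s * ∑ v ∈ S, val v (c v) (f ω) ≤ s * ((2 + ε) * ht (f ω) + |C₁ + C₂|) := by
    have h1 : ε / 2 * ht (f ω) ≤ s * (ε / 2 * ht (f ω)) := by
      have : 0 ≤ ε / 2 * ht (f ω) := by positivity
      nlinarith
    have h2 : |C₁ + C₂| ≤ s * |C₁ + C₂| := by nlinarith
    nlinarith
  exact le_of_mul_le_mul_left hfin (by linarith)

end Pool.Agent.Lib.MP_d0e829_nt.SS
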