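import Pool.Agent.Lib.MP_d0e829_nt.SS.SpecC3

/-!
# FCH: finitely many choices at each place of `S`
-/

set_option autoImplicit false

open NumberField

namespace Pool.Agent.Lib.MP_d0e829_nt.SS

open scoped Classical

namespace FCHM

lemma sm_iUnion {Ω ι : Type} [Finite ι] {Sm : Set Ω → Prop} (hSm : SmSys Sm) (B : ι → Set Ω)
    (hB : ∀ i, Sm (B i)) : Sm (⋃ i, B i) := by
  have := Fintype.ofFinite ι
  have key : ∀ s : Finset ι, Sm (⋃ i ∈ s, B i) := by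
    intro s
    induction s using Finset.induction_on with
    | empty => simpa using hSm.1
    | insert a s ha ih =>
      rw [Finset.set_biUnion_insert]
      exact hSm.2.2 _ _ (hB a) ih
  have h := key Finset.univ
  simpa using h

end FCHM

open FCHM in
theorem specFCH : SpecFCH := by
  intro k _ _ Ω Φ _ S Sm hSm A h c F ok hyp
  have step : ∀ ψ : S → Φ, ∃ (B : Set Ω) (C : ℝ), Sm B ∧ ∀ ω ∈ A, ω ∉ B → ∀ φ : Place k → Φ,
      (∀ v : S, φ v = ψ v) → (∀ v ∈ S, ok v (φ v)) → ∑ v ∈ S, F v (φ v) ω ≤ c * h ω + C := by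
    intro ψ
    by_cases hψ : ∃ φ : Place k → Φ, (∀ v : S, φ v = ψ v) ∧ ∀ v ∈ S, ok v (φ v)
    · obtain ⟨φ₀, h1, h2⟩ := hψ
      obtain ⟨B, C, hB, hBC⟩ := hyp φ₀ h2
      refine ⟨B, C, hB, fun ω hω hωB φ hφ _ => ?_⟩
      have h3 : ∑ v ∈ S, F v (φ v) ω = ∑ v ∈ S, F v (φ₀ v) ω := by
        refine Finset.sum_congr rfl fun v hv => ?_
        rw [hφ ⟨v, hv⟩, ← h1 ⟨v, hv⟩]
      rw [h3]
      exact hBC ω hω hωB
    · exact ⟨∅, 0, hSm.1, fun ω _ _ φ h1 h2 => absurd ⟨φ, h1, h2⟩ hψ⟩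
  choose B C hB hBC using step
  obtain ⟨M, hM⟩ := (Set.finite_range C).bddAbove
  refine ⟨⋃ ψ, B ψ, M, sm_iUnion hSm B hB, fun ω hω hωB φ hφ => ?_⟩
  have h1 : ω ∉ B (fun v : S => φ v) := fun h => hωB (Set.mem_iUnion.mpr ⟨_, h⟩)
  have h2 := hBC (fun v : S => φ v) ω hω h1 φ (fun _ => rfl) hφ
  have h3 : C (fun v : S => φ v) ≤ M := hM ⟨_, rfl⟩
  linarith

end Pool.Agent.Lib.MP_d0e829_nt.SS
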