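import Pool.Agent.Lib.MP_d0e829_nt.SS.SpecC1

/-!
MP_d0e829_nt, module GRO: a growth lemma.
-/

set_option autoImplicit false

namespace Pool.Agent.Lib.MP_d0e829_nt.SS

namespace GROM

lemma lower (a : ℕ → ℝ) (η : ℝ) (hη : 0 < η) (h0 : a 0 = 1)
    (hstep : ∀ n : ℕ, (∑ j ∈ Finset.range (n + 1), a j) * ((n : ℝ) + 3 + η) ≤
      ((n : ℝ) + 1) * ∑ j ∈ Finset.range (n + 2), a j) (n : ℕ) :
    (1 / 2 + η / 2 * ∑ j ∈ Finset.range n, 1 / ((j : ℝ) + 3)) * (((n : ℝ) + 1) * (n + 2)) ≤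
      ∑ j ∈ Finset.range (n + 1), a j := by
  induction n with
  | zero => simp [h0]
  | succ n ih =>
    have hU : 1 / 2 ≤ 1 / 2 + η / 2 * ∑ j ∈ Finset.range n, 1 / ((j : ℝ) + 3) := by
      have : 0 ≤ η / 2 * ∑ j ∈ Finset.range n, 1 / ((j : ℝ) + 3) := by positivity
      linarith
    rw [Finset.sum_range_succ (fun j : ℕ => 1 / ((j : ℝ) + 3))]
    set U := 1 / 2 + η / 2 * ∑ j ∈ Finset.range n, 1 / ((j : ℝ) + 3) with hUdef
    have hn : (0 : ℝ) ≤ (n : ℝ) := Nat.cast_nonneg n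
    have h1 := hstep n
    have h2 : U * (((n : ℝ) + 1) * (n + 2)) * ((n : ℝ) + 3 + η) ≤
        ((n : ℝ) + 1) * ∑ j ∈ Finset.range (n + 2), a j :=
      (mul_le_mul_of_nonneg_right ih (by positivity)).trans h1
    have h3 : U * ((n : ℝ) + 2) * ((n : ℝ) + 3 + η) ≤ ∑ j ∈ Finset.range (n + 2), a j := by
      have h4 : ((n : ℝ) + 1) * (U * ((n : ℝ) + 2) * ((n : ℝ) + 3 + η)) ≤
          ((n : ℝ) + 1) * ∑ j ∈ Finset.range (n + 2), a j := by
        calc _ = U * (((n : ℝ) + 1) * (n + 2)) * ((n : ℝ) + 3 + η) := by ring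
          _ ≤ _ := h2
      exact le_of_mul_le_mul_left h4 (by positivity)
    have e : 1 / 2 + η / 2 * (∑ j ∈ Finset.range n, 1 / ((j : ℝ) + 3) + 1 / ((n : ℝ) + 3)) =
        U + η / 2 * (1 / ((n : ℝ) + 3)) := by
      rw [hUdef]
      ring
    rw [e]
    push_cast
    refine le_trans ?_ h3
    have h5 : (U + η / 2 * (1 / ((n : ℝ) + 3))) * (((n : ℝ) + 1 + 1) * ((n : ℝ) + 1 + 2)) =
        U * ((n : ℝ) + 2) * ((n : ℝ) + 3) + η / 2 * ((n : ℝ) + 2) := by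
      field_simp
      ring
    rw [h5]
    have h6 : 0 ≤ (U - 1 / 2) * (η * ((n : ℝ) + 2)) := by
      have : 0 ≤ U - 1 / 2 := by linarith
      positivity
    nlinarith

lemma upper (a : ℕ → ℝ) (D : ℝ) (h0 : a 0 = 1) (hD : ∀ m, 0 < m → a m ≤ D * m) (n : ℕ) :
    ∑ j ∈ Finset.range (n + 1), a j ≤ 1 + |D| * ((n : ℝ) * (n + 1)) := by
  induction n with
  | zero => simp [h0]
  | succ n ih =>
    rw [Finset.sum_range_succ]
    have h1 := hD (n + 1) (Nat.succ_pos n)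
    have h2 : D * ((n + 1 : ℕ) : ℝ) ≤ |D| * ((n + 1 : ℕ) : ℝ) :=
      mul_le_mul_of_nonneg_right (le_abs_self D) (Nat.cast_nonneg _)
    push_cast at h1 h2 ⊢
    have h3 : 0 ≤ |D| * ((n : ℝ) + 1) := by positivity
    nlinarith

end GROM

theorem specGRO : SpecGRO := by
  intro a D h0 hnn hD ε hε
  by_contra hcon
  push Not at hcon
  have hs1 : ∀ m, 1 ≤ m → 1 ≤ ∑ j ∈ Finset.range m, a j := by
    intro m hm
    calc (1 : ℝ) = a 0 := h0.symm
      _ ≤ _ := Finset.single_le_sum (f := a) (fun i _ => hnn i) (Finset.mem_range.mpr (by omega))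
  have hθ : 0 < 1 / 2 - ε := by
    by_contra h
    push Not at h
    have h1 := hcon 1 one_pos
    have h2 := hs1 1 le_rfl
    have h3 : (1 / 2 - ε) * (((1 : ℕ) : ℝ) * a 1) ≤ 0 :=
      mul_nonpos_of_nonpos_of_nonneg h (mul_nonneg (by norm_num) (hnn 1))
    linarith
  set θ := 1 / 2 - ε with hθdef
  set η := 1 / θ - 2 with hηdef
  have hη : 0 < η := by
    have : 2 < 1 / θ := by
      rw [lt_div_iff₀ hθ]
      linarith
    linarith
  have hstep : ∀ n : ℕ, (∑ j ∈ Finset.range (n + 1), a j) * ((n : ℝ) + 3 + η) ≤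
      ((n : ℝ) + 1) * ∑ j ∈ Finset.range (n + 2), a j := by
    intro n
    have h1 := hcon (n + 1) (Nat.succ_pos n)
    have h2 : (∑ j ∈ Finset.range (n + 1), a j) * (1 / θ) ≤ ((n + 1 : ℕ) : ℝ) * a (n + 1) := by
      rw [mul_one_div, div_le_iff₀ hθ]
      linarith
    rw [Finset.sum_range_succ _ (n + 1)]
    have h3 : η + 2 = 1 / θ := by rw [hηdef]; ring
    push_cast at h2
    have h4 : (∑ j ∈ Finset.range (n + 1), a j) * ((n : ℝ) + 3 + η) =
        (∑ j ∈ Finset.range (n + 1), a j) * ((n : ℝ) + 1) +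
          (∑ j ∈ Finset.range (n + 1), a j) * (1 / θ) := by
      rw [← h3]
      ring
    rw [h4]
    linarith
  have hbd : ∀ n : ℕ, ∑ j ∈ Finset.range n, 1 / ((j : ℝ) + 1) ≤ 6 * (1 + |D|) / η := by
    intro n
    have h1 := (GROM.lower a η hη h0 hstep n).trans (GROM.upper a D h0 hD n)
    have hn : (0 : ℝ) ≤ (n : ℝ) := Nat.cast_nonneg n
    have hA : 0 ≤ |D| := abs_nonneg D
    have h2 : 1 + |D| * ((n : ℝ) * (n + 1)) ≤ (1 + |D|) * (((n : ℝ) + 1) * (n + 2)) := by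
      nlinarith [mul_nonneg hA hn, mul_nonneg hn hn]
    have h3 : 1 / 2 + η / 2 * ∑ j ∈ Finset.range n, 1 / ((j : ℝ) + 3) ≤ 1 + |D| :=
      le_of_mul_le_mul_right (h1.trans h2) (by positivity)
    have h4 : ∑ j ∈ Finset.range n, 1 / ((j : ℝ) + 1) ≤
        3 * ∑ j ∈ Finset.range n, 1 / ((j : ℝ) + 3) := by
      rw [Finset.mul_sum]
      refine Finset.sum_le_sum fun j _ => ?_
      have hj : (0 : ℝ) ≤ (j : ℝ) := Nat.cast_nonneg j
      rw [mul_one_div, div_le_div_iff₀ (by positivity) (by positivity)]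
      linarith
    rw [le_div_iff₀ hη]
    nlinarith [mul_le_mul_of_nonneg_right h4 hη.le]
  have ht := Real.tendsto_sum_range_one_div_nat_succ_atTop
  obtain ⟨n, hn⟩ := ((Filter.tendsto_atTop.mp ht) (6 * (1 + |D|) / η + 1)).exists
  have := hbd n
  linarith

end Pool.Agent.Lib.MP_d0e829_nt.SS
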