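import Pool.Agent.Lib.MP_d0e829_nt.SS.SpecC1

/-!
# IRR: the forms vanishing on `A` are a prime ideal
-/

set_option autoImplicit false

open NumberField MvPolynomial

namespace Pool.Agent.Lib.MP_d0e829_nt.SS

open scoped Classical

namespace IRRM

lemma evA_apply {k : Type} [Field k] {Ω ι : Type} [Fintype ι] (f : Ω → ι → k) (A : Set Ω)
    (P : MvPolynomial ι k) (ω : A) : evA f A P ω = eval (f ω) P := by
  have h : (Pi.evalAlgHom k (fun _ : A => k) ω).comp (evA f A) = aeval (f ω) := by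
    apply MvPolynomial.algHom_ext
    intro i
    simp [evA]
  have h2 := congrArg (fun φ : MvPolynomial ι k →ₐ[k] k => φ P) h
  simp only [AlgHom.comp_apply, Pi.evalAlgHom_apply] at h2
  rw [h2]
  exact DFunLike.congr_fun (MvPolynomial.coe_aeval_eq_eval (f ω)) P

end IRRM

open IRRM in
/-- IRR -/
theorem specIRR : SpecIRR := by
  intro k _ Ω M f Sm hSm A hA m n P Q hP hQ hPQ
  by_contra hcon
  push Not at hcon
  obtain ⟨hP0, hQ0⟩ := hcon
  have h1 : ∀ R : MvPolynomial (Fin M) k, evA f A R ≠ 0 → ∃ ω ∈ A, eval (f ω) R ≠ 0 := by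
    intro R hR
    obtain ⟨ω, hω⟩ := Function.ne_iff.mp hR
    rw [evA_apply] at hω
    exact ⟨ω, ω.2, hω⟩
  have s1 := hA.2 m P hP (h1 P hP0)
  have s2 := hA.2 n Q hQ (h1 Q hQ0)
  refine hA.1 (hSm.2.1 _ _ ?_ (hSm.2.2 _ _ s1 s2))
  intro ω hω
  have h2 : eval (f ω) (P * Q) = 0 := by
    have := congrFun hPQ ⟨ω, hω⟩
    rwa [evA_apply] at this
  rw [map_mul, mul_eq_zero] at h2
  rcases h2 with h2 | h2
  · exact Or.inl ⟨hω, h2⟩
  · exact Or.inr ⟨hω, h2⟩

end Pool.Agent.Lib.MP_d0e829_nt.SS
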