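import Pool.Agent.Lib.MP_d0e829_nt.SS.SpecC1

/-!
# SS, module MAX: existence of a set `A` with `Gen`
-/

set_option autoImplicit false

open MvPolynomial

namespace Pool.Agent.Lib.MP_d0e829_nt.SS

namespace MAXM

variable {k : Type} [Field k] {Ω : Type} {M : ℕ}

/-- the ideal of the polynomials vanishing on the lines spanned by the `f ω`, `ω ∈ A` -/
def JA (f : Ω → Fin M → k) (A : Set Ω) : Ideal (MvPolynomial (Fin M) k) where
  carrier := {P | ∀ ω ∈ A, ∀ c : k, eval (c • f ω) P = 0}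
  add_mem' := by
    intro P Q hP hQ ω hω c
    rw [map_add, hP ω hω c, hQ ω hω c, add_zero]
  zero_mem' := by intro ω _ c; exact map_zero _
  smul_mem' := by
    intro R P hP ω hω c
    rw [smul_eq_mul, map_mul, hP ω hω c, mul_zero]

lemma mem_JA {f : Ω → Fin M → k} {A : Set Ω} {P : MvPolynomial (Fin M) k} :
    P ∈ JA f A ↔ ∀ ω ∈ A, ∀ c : k, eval (c • f ω) P = 0 := Iff.rfl

lemma eval_smul_hom {m : ℕ} {P : MvPolynomial (Fin M) k} (hP : P.IsHomogeneous m) (c : k)
    (v : Fin M → k) : eval (c • v) P = c ^ m * eval v P := by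
  rw [eval_eq', eval_eq', Finset.mul_sum]
  refine Finset.sum_congr rfl fun d hd => ?_
  have h1 : ∑ i, d i = m := by
    have h2 := hP (mem_support_iff.1 hd)
    rw [Finsupp.weight_apply, Finsupp.sum_fintype _ _ (by simp)] at h2
    simpa using h2
  have h2 : ∏ i, (c • v) i ^ d i = c ^ m * ∏ i, v i ^ d i := by
    simp only [Pi.smul_apply, smul_eq_mul, mul_pow]
    rw [Finset.prod_mul_distrib, Finset.prod_pow_eq_pow_sum, h1]
  rw [h2]
  ring

end MAXM

open MAXM in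
theorem specMAX : SpecMAX := by
  intro k _ Ω M f Sm hSm
  have hN : IsNoetherian (MvPolynomial (Fin M) k) (MvPolynomial (Fin M) k) :=
    (inferInstance : IsNoetherianRing (MvPolynomial (Fin M) k))
  obtain ⟨J, ⟨A, hA, rfl⟩, hmax⟩ := set_has_maximal_iff_noetherian.2 hN
    {J : Ideal (MvPolynomial (Fin M) k) | ∃ A : Set Ω, ¬ Sm A ∧ J = JA f A} ⟨_, Set.univ, hSm, rfl⟩
  refine ⟨A, hA, ?_⟩
  rintro m P hP ⟨ω0, hω0, hne⟩
  by_contra hB
  refine hmax _ ⟨{ω | ω ∈ A ∧ eval (f ω) P = 0}, hB, rfl⟩ ?_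
  refine lt_of_le_of_ne (fun Q hQ => ?_) ?_
  · rw [mem_JA] at hQ ⊢
    exact fun ω hω c => hQ ω hω.1 c
  · intro heq
    have h1 : P ∈ JA f A := by
      rw [heq, mem_JA]
      intro ω hω c
      rw [eval_smul_hom hP, hω.2, mul_zero]
    have h2 := mem_JA.1 h1 ω0 hω0 1
    rw [one_smul] at h2
    exact hne h2

end Pool.Agent.Lib.MP_d0e829_nt.SS
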