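import Pool.Agent.Lib.MP_d0e829_nt.SS.SpecC1

/-!
# SUBI: the Subspace theorem in `FS f A m`
-/

set_option autoImplicit false

open NumberField MvPolynomial

namespace Pool.Agent.Lib.MP_d0e829_nt.SS

open scoped Classical

namespace SUBIM

lemma evA_apply {k : Type} [Field k] {Ω ι : Type} [Fintype ι] (f : Ω → ι → k) (A : Set Ω)
    (P : MvPolynomial ι k) (ω : A) : evA f A P ω = eval (f ω) P := by
  have h : (Pi.evalAlgHom k (fun _ : A => k) ω).comp (evA f A) = aeval (f ω) := by
    apply MvPolynomial.algHom_ext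
    intro i
    simp [evA]
  have h2 := congrArg (fun φ : MvPolynomial ι k →ₐ[k] k => φ P) h
  simp only [AlgHom.comp_apply, Pi.evalAlgHom_apply] at h2
  rw [h2]
  exact DFunLike.congr_fun (MvPolynomial.coe_aeval_eq_eval (f ω)) P

/-- finite unions of small sets are small -/
lemma small_iUnion {Ω : Type} {Sm : Set Ω → Prop} (hSm : SmSys Sm) {ι : Type*} (s : Finset ι)
    (F : ι → Set Ω) (h : ∀ i ∈ s, Sm (F i)) : Sm (⋃ i ∈ s, F i) := by
  induction s using Finset.induction_on with
  | empty => simpa using hSm.1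
  | insert a s ha ih =>
    rw [Finset.set_biUnion_insert]
    exact hSm.2.2 _ _ (h a (Finset.mem_insert_self a s))
      (ih fun i hi => h i (Finset.mem_insert_of_mem hi))

/-- a finite basis, indexed by `Fin (finrank)` -/
lemma reindex {k : Type} [Field k] {Ω : Type} {M : ℕ} (f : Ω → Fin M → k) (A : Set Ω) (m : ℕ)
    {J : Type} [Fintype J] (g : J → MvPolynomial (Fin M) k) (hg : IsB f A m g) :
    ∃ G : Fin (Module.finrank k (FS f A m)) → MvPolynomial (Fin M) k, IsB f A m G ∧
      (∀ F : MvPolynomial (Fin M) k → ℝ, ∑ j, F (g j) = ∑ i, F (G i)) ∧ ∀ j, ∃ i, G i = g j := by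
  obtain ⟨h1, h2, h3⟩ := hg
  have e0 : Module.finrank k (FS f A m) = Fintype.card J := by
    rw [← h3]
    exact finrank_span_eq_card h2
  let e : Fin (Module.finrank k (FS f A m)) ≃ J :=
    (finCongr e0).trans (Fintype.equivFin J).symm
  refine ⟨fun i => g (e i), ⟨fun i => h1 _, h2.comp e e.injective, ?_⟩, ?_, ?_⟩
  · refine Eq.trans ?_ h3
    exact congrArg (Submodule.span k) (e.surjective.range_comp (fun j => evA f A (g j)))
  · intro F
    exact (Equiv.sum_comp e (fun j => F (g j))).symm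
  · intro j
    exact ⟨e.symm j, by simp⟩

/-- the transition matrix to another basis -/
lemma transition {k : Type} [Field k] {Ω : Type} {M n : ℕ} (f : Ω → Fin M → k) (A : Set Ω) (m : ℕ)
    (b G : Fin n → MvPolynomial (Fin M) k) (hb : IsB f A m b) (hG : IsB f A m G) :
    ∃ L : Matrix (Fin n) (Fin n) k, L.det ≠ 0 ∧ ∀ ω ∈ A, ∀ i,
      eval (f ω) (G i) = L.mulVec (fun j => eval (f ω) (b j)) i := by
  have h1 : ∀ i, evA f A (G i) ∈ Submodule.span k (Set.range fun j => evA f A (b j)) := by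
    intro i
    rw [hb.2.2, ← hG.2.2]
    exact Submodule.subset_span ⟨i, rfl⟩
  have h2 : ∀ i, ∃ c : Fin n → k, ∑ j, c j • evA f A (b j) = evA f A (G i) := by
    intro i
    exact (Submodule.mem_span_range_iff_exists_fun k).mp (h1 i)
  choose L hL using h2
  refine ⟨Matrix.of L, ?_, ?_⟩
  · intro h0
    obtain ⟨v, hv, hv0⟩ := Matrix.exists_vecMul_eq_zero_iff.mpr h0
    apply hv
    have h3 : ∑ i, v i • evA f A (G i) = 0 := by
      have h4 : ∑ i, v i • evA f A (G i) =
          ∑ j, (Matrix.vecMul v (Matrix.of L) j) • evA f A (b j) := by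
        simp only [← hL, Finset.smul_sum, smul_smul]
        rw [Finset.sum_comm]
        refine Finset.sum_congr rfl fun j _ => ?_
        rw [← Finset.sum_smul]
        rfl
      rw [h4, hv0]
      simp
    exact funext (Fintype.linearIndependent_iff.mp hG.2.1 v h3)
  · intro ω hω i
    have h3 := congrFun (hL i) ⟨ω, hω⟩
    rw [evA_apply] at h3
    simp only [Finset.sum_apply, Pi.smul_apply, evA_apply, smul_eq_mul] at h3
    rw [← h3]
    rfl

end SUBIM

open SUBIM in
/-- SUBI -/
theorem specSUBI (hSUB : SpecSUB) (hTRV : SpecTRV) : SpecSUBI := by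
  intro k _ _ Ω M f Sm hSm A hA hf S m hm J _ g hg ε hε
  rcases S.eq_empty_or_nonempty with rfl | ⟨v₀, hv₀⟩
  · refine ⟨∅, 0, hSm.1, fun ω hω _ => ⟨by simp, ?_⟩⟩
    have h := ht_nonneg (hf ω hω)
    simp only [Finset.sum_empty, add_zero]
    positivity
  set n := Module.finrank k (FS f A m) with hn
  have hre : ∀ v, ∃ G : Fin n → MvPolynomial (Fin M) k, v ∈ S → IsB f A m G ∧
      (∀ F : MvPolynomial (Fin M) k → ℝ, ∑ j, F (g v j) = ∑ i, F (G i)) ∧
      ∀ j, ∃ i, G i = g v j := by
    intro v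
    by_cases hv : v ∈ S
    · obtain ⟨G, h⟩ := reindex f A m (g v) (hg v hv)
      exact ⟨G, fun _ => h⟩
    · exact ⟨0, fun h => absurd h hv⟩
  choose G hG using hre
  set b : Fin n → MvPolynomial (Fin M) k := G v₀ with hb
  have hbB : IsB f A m b := (hG v₀ hv₀).1
  set y : Ω → Fin n → k := fun ω i => eval (f ω) (b i) with hy
  have htr : ∀ v, ∃ L : Matrix (Fin n) (Fin n) k, v ∈ S → L.det ≠ 0 ∧ ∀ ω ∈ A, ∀ i,
      eval (f ω) (G v i) = L.mulVec (y ω) i := by
    intro v
    by_cases hv : v ∈ S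
    · obtain ⟨L, h⟩ := transition f A m b (G v) hbB (hG v hv).1
      exact ⟨L, fun _ => h⟩
    · exact ⟨0, fun h => absurd h hv⟩
  choose L hL using htr
  -- `y` does not vanish
  have hy0 : ∀ ω ∈ A, y ω ≠ 0 := by
    intro ω hω h0
    apply hf ω hω
    funext i
    have h1 : evA f A ((X i : MvPolynomial (Fin M) k) ^ m) ∈
        Submodule.span k (Set.range fun j => evA f A (b j)) := by
      rw [hbB.2.2]
      refine ⟨(X i) ^ m, ?_, rfl⟩
      have := (isHomogeneous_X k i).pow m
      rw [one_mul] at this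
      exact this
    obtain ⟨c, hc⟩ := (Submodule.mem_span_range_iff_exists_fun k).mp h1
    have h2 := congrFun hc ⟨ω, hω⟩
    rw [evA_apply] at h2
    simp only [Finset.sum_apply, Pi.smul_apply, evA_apply, smul_eq_mul, map_pow, eval_X] at h2
    have h3 : ∀ j, eval (f ω) (b j) = 0 := fun j => congrFun h0 j
    simp only [h3, mul_zero, Finset.sum_const_zero] at h2
    exact pow_eq_zero_iff hm.ne' |>.mp h2.symm
  have hAne : A.Nonempty := by
    by_contra hcon
    rw [Set.not_nonempty_iff_eq_empty] at hcon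
    apply hA.1
    rw [hcon]
    exact hSm.1
  have hn0 : 0 < n := by
    obtain ⟨ω, hω⟩ := hAne
    rcases Nat.eq_zero_or_pos n with h0 | h0
    · exfalso
      apply hy0 ω hω
      have : IsEmpty (Fin n) := by rw [h0]; infer_instance
      exact Subsingleton.elim _ _
    · exact h0
  have hmr : (0 : ℝ) < m := by exact_mod_cast hm
  obtain ⟨C₁, H, hHf, hHt, hH⟩ := hSUB k n hn0 S L (fun v hv => (hL v hv).1) (ε / m)
    (div_pos hε hmr)
  -- small sets
  have hsmT : ∀ T ∈ H, Sm {ω | ω ∈ A ∧ y ω ∈ T} := by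
    intro T hT
    obtain ⟨φ, hφ, hker⟩ := Submodule.exists_le_ker_of_lt_top T (lt_top_iff_ne_top.mpr (hHt T hT))
    set c : Fin n → k := fun j => φ (Pi.single j 1) with hc
    have hφc : ∀ z : Fin n → k, φ z = ∑ j, c j * z j := by
      intro z
      conv_lhs => rw [pi_eq_sum_univ' z]
      rw [map_sum]
      refine Finset.sum_congr rfl fun j _ => ?_
      rw [map_smul, smul_eq_mul, mul_comm]
    have hc0 : c ≠ 0 := by
      intro h0
      apply hφ
      apply LinearMap.ext
      intro z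
      rw [hφc, h0]
      simp
    set P : MvPolynomial (Fin M) k := ∑ j, C (c j) * b j with hP
    have hPh : P.IsHomogeneous m := by
      refine MvPolynomial.IsHomogeneous.sum _ _ _ fun j _ => ?_
      have := (isHomogeneous_C (Fin M) (c j)).mul (hbB.1 j)
      rwa [zero_add] at this
    have hPe : ∀ ω, eval (f ω) P = ∑ j, c j * y ω j := by
      intro ω
      rw [hP, map_sum]
      refine Finset.sum_congr rfl fun j _ => ?_
      rw [map_mul, eval_C]
    have hP0 : ∃ ω ∈ A, eval (f ω) P ≠ 0 := by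
      by_contra hcon
      push Not at hcon
      apply hc0
      have h3 : ∑ j, c j • evA f A (b j) = 0 := by
        funext ω
        have h4 := hcon ω ω.2
        rw [hPe] at h4
        simp only [Finset.sum_apply, Pi.smul_apply, evA_apply, smul_eq_mul, Pi.zero_apply]
        exact h4
      exact funext (Fintype.linearIndependent_iff.mp hbB.2.1 c h3)
    refine hSm.2.1 _ _ ?_ (hA.2 m P hPh hP0)
    rintro ω ⟨hω, hT'⟩
    refine ⟨hω, ?_⟩
    rw [hPe, ← hφc]
    exact hker hT'
  have hsmG : ∀ v ∈ S, ∀ i, Sm {ω | ω ∈ A ∧ eval (f ω) (G v i) = 0} := by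
    intro v hv i
    refine hA.2 m _ ((hG v hv).1.1 i) ?_
    have h1 := (hG v hv).1.2.1.ne_zero i
    obtain ⟨ω, hω⟩ := Function.ne_iff.mp h1
    refine ⟨ω, ω.2, ?_⟩
    rw [evA_apply] at hω
    exact hω
  set B : Set Ω := (⋃ T ∈ hHf.toFinset, {ω | ω ∈ A ∧ y ω ∈ T}) ∪
    (⋃ v ∈ S, ⋃ i ∈ (Finset.univ : Finset (Fin n)), {ω | ω ∈ A ∧ eval (f ω) (G v i) = 0}) with hB
  have hBsm : Sm B := by
    refine hSm.2.2 _ _ ?_ ?_
    · exact small_iUnion hSm _ _ fun T hT => hsmT T (hHf.mem_toFinset.mp hT)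
    · exact small_iUnion hSm _ _ fun v hv => small_iUnion hSm _ _ fun i _ => hsmG v hv i
  -- the constants `κ`
  have hκ : ∀ i, ∃ κ : Place k → ℝ, (∀ v, 0 ≤ κ v) ∧ (Function.support κ).Finite ∧
      ∀ (z : Fin M → k) (v : Place k), absV v (eval z (b i)) ≤ Real.exp (κ v) * nrm v z ^ m :=
    fun i => (hTRV k M).2 m (b i) (hbB.1 i)
  choose κ hκ0 hκf hκ using hκ
  set K : Place k → ℝ := fun v => ∑ i, κ i v with hK
  have hK0 : ∀ v, 0 ≤ K v := fun v => Finset.sum_nonneg fun i _ => hκ0 i v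
  have hKf : (Function.support K).Finite := by
    refine (Set.finite_iUnion fun i => hκf i).subset ?_
    intro v hv
    by_contra hcon
    apply hv
    simp only [Set.mem_iUnion, Function.mem_support, not_exists, not_not] at hcon
    simp only [hK]
    exact Finset.sum_eq_zero fun i _ => hcon i
  set K' : ℝ := ∑ᶠ v, K v with hK'
  have hK'0 : 0 ≤ K' := finsum_nonneg hK0
  refine ⟨B, ε / m * K' + C₁ + n * K', hBsm, ?_⟩
  intro ω hω hωB
  have hfω := hf ω hω
  have hyω := hy0 ω hω
  have hyT : ∀ T ∈ H, y ω ∉ T := by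
    intro T hT hyT
    apply hωB
    left
    simp only [Set.mem_iUnion, exists_prop]
    exact ⟨T, hHf.mem_toFinset.mpr hT, hω, hyT⟩
  have hGne : ∀ v ∈ S, ∀ i, eval (f ω) (G v i) ≠ 0 := by
    intro v hv i h0
    apply hωB
    right
    simp only [Set.mem_iUnion, exists_prop]
    exact ⟨v, hv, i, Finset.mem_univ i, hω, h0⟩
  refine ⟨?_, ?_⟩
  · intro v hv j
    obtain ⟨i, hi⟩ := (hG v hv).2.2 j
    rw [← hi]
    exact hGne v hv i
  have hsub := hH (y ω) hyω hyT
  -- local comparison
  have hloc : ∀ v, Real.log (nrm v (y ω)) ≤ K v + m * Real.log (nrm v (f ω)) := by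
    intro v
    have p1 := nrm_pos v hyω
    have p2 := nrm_pos v hfω
    have h1 : nrm v (y ω) ≤ Real.exp (K v) * nrm v (f ω) ^ m := by
      refine nrm_le v _ (by positivity) fun i => ?_
      refine (hκ i (f ω) v).trans (mul_le_mul_of_nonneg_right ?_ (by positivity))
      exact Real.exp_le_exp.mpr
        (Finset.single_le_sum (f := fun i => κ i v) (fun i _ => hκ0 i v) (Finset.mem_univ i))
    calc Real.log (nrm v (y ω)) ≤ Real.log (Real.exp (K v) * nrm v (f ω) ^ m) :=
          Real.log_le_log p1 h1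
      _ = K v + m * Real.log (nrm v (f ω)) := by
          rw [Real.log_mul (Real.exp_pos _).ne' (by positivity), Real.log_exp, Real.log_pow]
  have sy := support_log_nrm_finite (K := k) hyω
  have sf := support_log_nrm_finite (K := k) hfω
  have smf : (Function.support fun v => (m : ℝ) * Real.log (nrm v (f ω))).Finite :=
    sf.subset (by
      intro v hv h0
      apply hv
      simp only at h0 ⊢
      rw [h0, mul_zero])
  have sKmf : (Function.support fun v => K v + (m : ℝ) * Real.log (nrm v (f ω))).Finite :=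
    (hKf.union smf).subset (Function.support_add _ _)
  have hsum1 : ∑ᶠ v, (K v + (m : ℝ) * Real.log (nrm v (f ω))) = K' + m * ht (f ω) := by
    have e1 : ∑ᶠ v, (m : ℝ) * Real.log (nrm v (f ω)) = m * ht (f ω) := by
      unfold ht
      rw [mul_finsum]
    rw [finsum_add_distrib hKf smf, e1]
  have hht : ht (y ω) ≤ K' + m * ht (f ω) := by
    rw [← hsum1]
    exact finsum_mono sy sKmf hloc
  have hSle : ∑ v ∈ S, (m * Real.log (nrm v (f ω)) - Real.log (nrm v (y ω))) ≤
      m * ht (f ω) + K' - ht (y ω) := by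
    have h1 : ∀ v, 0 ≤ K v + (m : ℝ) * Real.log (nrm v (f ω)) - Real.log (nrm v (y ω)) :=
      fun v => sub_nonneg.mpr (hloc v)
    have sD : (Function.support fun v => K v + (m : ℝ) * Real.log (nrm v (f ω)) -
        Real.log (nrm v (y ω))).Finite :=
      (sKmf.union sy).subset (Function.support_sub _ _)
    have h2 : ∑ v ∈ S, (K v + (m : ℝ) * Real.log (nrm v (f ω)) - Real.log (nrm v (y ω))) ≤
        ∑ᶠ v, (K v + (m : ℝ) * Real.log (nrm v (f ω)) - Real.log (nrm v (y ω))) := by
      rw [finsum_eq_sum_of_support_subset _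
        (s := S ∪ sD.toFinset) (by intro v hv; simp at hv ⊢; exact Or.inr hv)]
      exact Finset.sum_le_sum_of_subset_of_nonneg Finset.subset_union_left
        (fun v _ _ => h1 v)
    rw [finsum_sub_distrib sKmf sy, hsum1] at h2
    have h3 : ∑ v ∈ S, (m * Real.log (nrm v (f ω)) - Real.log (nrm v (y ω))) ≤
        ∑ v ∈ S, (K v + (m : ℝ) * Real.log (nrm v (f ω)) - Real.log (nrm v (y ω))) :=
      Finset.sum_le_sum fun v _ => by linarith [hK0 v]
    have h4 : ht (y ω) = ∑ᶠ v, Real.log (nrm v (y ω)) := rfl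
    rw [h4]
    linarith
  -- conclusion
  have hmain : ∑ v ∈ S, ∑ j, (m * Real.log (nrm v (f ω)) -
      Real.log (absV v (eval (f ω) (g v j)))) =
      ∑ v ∈ S, ∑ i, (Real.log (nrm v (y ω)) - Real.log (absV v ((L v).mulVec (y ω) i))) +
      n * ∑ v ∈ S, (m * Real.log (nrm v (f ω)) - Real.log (nrm v (y ω))) := by
    rw [Finset.mul_sum, ← Finset.sum_add_distrib]
    refine Finset.sum_congr rfl fun v hv => ?_
    rw [(hG v hv).2.1 (fun P => m * Real.log (nrm v (f ω)) - Real.log (absV v (eval (f ω) P)))]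
    have e1 : (n : ℝ) * (m * Real.log (nrm v (f ω)) - Real.log (nrm v (y ω))) =
        ∑ _i : Fin n, (m * Real.log (nrm v (f ω)) - Real.log (nrm v (y ω))) := by
      rw [Finset.sum_const, Finset.card_univ, Fintype.card_fin, nsmul_eq_mul]
    rw [e1, ← Finset.sum_add_distrib]
    refine Finset.sum_congr rfl fun i _ => ?_
    rw [(hL v hv).2 ω hω i]
    ring
  rw [hmain]
  have hnr : (0 : ℝ) ≤ n := Nat.cast_nonneg n
  have h5 := mul_le_mul_of_nonneg_left hSle hnr
  have h6 : ε / m * ht (y ω) ≤ ε / m * (K' + m * ht (f ω)) :=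
    mul_le_mul_of_nonneg_left hht (div_pos hε hmr).le
  have h7 : ε / m * (K' + m * ht (f ω)) = ε / m * K' + ε * ht (f ω) := by
    field_simp
  rw [h7] at h6
  linarith

end Pool.Agent.Lib.MP_d0e829_nt.SS
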