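import Pool.Agent.Lib.MP_d0e829_nt.SS.SpecC3
import Pool.Agent.Lib.MP_d0e829_nt.Main

/-! MP_d0e829_nt, module TRI: the trivial bound for the proximity (helper61). -/

set_option autoImplicit false

open NumberField MvPolynomial

namespace Pool.Agent.Lib.MP_d0e829_nt.SS

open scoped Classical

/-- **TRI**. -/
theorem specTRI : SpecTRI := by
  intro k _ _ S q ℓ h0
  set A : Finset k := (Finset.univ : Finset (Fin q × Fin 3)).image (fun t => ℓ t.1 t.2) with hA
  have hAℓ : ∀ i j, ℓ i j ∈ A := by
    intro i j
    exact Finset.mem_image.mpr ⟨(i, j), Finset.mem_univ _, rfl⟩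
  obtain ⟨E, hE⟩ := exists_bound_err A
  refine ⟨q * (2 * E), ?_⟩
  intro K _ _ _ x hx hℓx
  have hEK : ∑ᶠ w : Place K, err A w ≤ E := hE K
  have hfin : (placesAbove K S).Finite := placesAbove_finite S
  set W := hfin.toFinset with hW
  have hsumE : ∑ w ∈ W, err A w ≤ E :=
    (sum_le_finsum (fun w => err_nonneg A w) (support_err_finite A) W).trans hEK
  have hprox : proximity S ℓ x = ∑ i, ∑ w ∈ W,
      (mu (ℓ i) w x + Real.log (normV w fun j => algebraMap k K (ℓ i j))) := by
    unfold proximity
    refine Finset.sum_congr rfl fun i _ => ?_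
    rw [finsum_mem_eq_finite_toFinset_sum _ hfin]
    refine Finset.sum_congr rfl fun w _ => ?_
    have hn0 : (fun j => algebraMap k K (ℓ i j)) ≠ 0 := by
      intro h
      apply h0 i
      funext j
      have := congrFun h j
      simpa using this
    have p1 := normV_pos w hx
    have p2 := normV_pos w hn0
    have p3 := absV_pos w (hℓx i)
    rw [Real.log_div (mul_pos p1 p2).ne' p3.ne', Real.log_mul p1.ne' p2.ne']
    unfold mu
    ring
  have hnorm : ∀ i (w : Place K), Real.log (normV w fun j => algebraMap k K (ℓ i j)) ≤ err A w := by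
    intro i w
    have := log_normV_le_err (fun j => hAℓ i j) w
    have h2 := log_kap_nonneg w
    linarith
  have hline : ∀ i, ∑ w ∈ W, (mu (ℓ i) w x + Real.log (normV w fun j => algebraMap k K (ℓ i j)))
      ≤ height x + 2 * E := by
    intro i
    rw [Finset.sum_add_distrib]
    have h1 : ∑ w ∈ W, mu (ℓ i) w x ≤ height x + E :=
      (sum_mu_le (fun j => hAℓ i j) (hℓx i) W).trans (by linarith)
    have h2 : ∑ w ∈ W, Real.log (normV w fun j => algebraMap k K (ℓ i j)) ≤ E :=
      (Finset.sum_le_sum fun w _ => hnorm i w).trans hsumE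
    linarith
  rw [hprox]
  calc ∑ i, ∑ w ∈ W, (mu (ℓ i) w x + Real.log (normV w fun j => algebraMap k K (ℓ i j)))
      ≤ ∑ _i : Fin q, (height x + 2 * E) := Finset.sum_le_sum fun i _ => hline i
    _ = q * (height x + 2 * E) := by
        rw [Finset.sum_const, Finset.card_univ, Fintype.card_fin, nsmul_eq_mul]
    _ = q * height x + q * (2 * E) := by ring

end Pool.Agent.Lib.MP_d0e829_nt.SS
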