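import Pool.Agent.Lib.MP_d0e829_nt.SS.SpecC1

/-!
# Module TRV: trivial bounds for the values of forms
-/

set_option autoImplicit false

open NumberField MvPolynomial

namespace Pool.Agent.Lib.MP_d0e829_nt.SS

open scoped Classical

namespace TRVM

variable {K : Type} [Field K] [NumberField K]

lemma absV_pow (w : Place K) (a : K) (n : ℕ) : absV w (a ^ n) = absV w a ^ n := by
  induction n with
  | zero => simp
  | succ n ih => rw [pow_succ, absV_mul, ih, pow_succ]

lemma absV_prod {ι : Type} (w : Place K) (s : Finset ι) (f : ι → K) :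
    absV w (∏ i ∈ s, f i) = ∏ i ∈ s, absV w (f i) := by
  induction s using Finset.induction_on with
  | empty => simp
  | insert a s ha ih => rw [Finset.prod_insert ha, Finset.prod_insert ha, absV_mul, ih]

lemma monomial_le {M m : ℕ} (w : Place K) (f : Fin M → K) (s : Fin M →₀ ℕ)
    (hs : ∑ i, s i = m) : absV w (∏ i, f i ^ s i) ≤ nrm w f ^ m := by
  rw [absV_prod, ← hs, ← Finset.prod_pow_eq_pow_sum]
  refine Finset.prod_le_prod (fun i _ => absV_nonneg _ _) fun i _ => ?_
  rw [absV_pow]
  exact pow_le_pow_left₀ (absV_nonneg _ _) (absV_le_nrm w f i) _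

theorem part2 {M : ℕ} (m : ℕ) (P : MvPolynomial (Fin M) K) (hP : P.IsHomogeneous m) :
    ∃ κ : Place K → ℝ, (∀ v, 0 ≤ κ v) ∧ (Function.support κ).Finite ∧
    ∀ (f : Fin M → K) (v : Place K), absV v (eval f P) ≤ Real.exp (κ v) * nrm v f ^ m := by
  refine ⟨fun v => sw v * Real.log (P.support.card : ℝ) +
    ∑ s ∈ P.support, |Real.log (absV v (P.coeff s))|, ?_, ?_, ?_⟩
  · intro v
    exact add_nonneg (mul_nonneg (sw_nonneg v) (Real.log_natCast_nonneg _))
      (Finset.sum_nonneg fun s _ => abs_nonneg _)
  · have h : (⋃ s ∈ (P.support : Set (Fin M →₀ ℕ)),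
        Function.support fun v : Place K => Real.log (absV v (P.coeff s))).Finite :=
      P.support.finite_toSet.biUnion fun s hs => support_log_absV_finite (mem_support_iff.mp hs)
    refine (support_sw_finite.union h).subset ?_
    intro v hv
    by_contra hcon
    rw [Set.mem_union, not_or] at hcon
    obtain ⟨h1, h2⟩ := hcon
    rw [Function.mem_support, not_not] at h1
    apply hv
    show sw v * Real.log (P.support.card : ℝ) +
      ∑ s ∈ P.support, |Real.log (absV v (P.coeff s))| = 0
    rw [h1, zero_mul, zero_add]
    refine Finset.sum_eq_zero fun s hs => ?_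
    rw [abs_eq_zero]
    by_contra h3
    apply h2
    exact Set.mem_biUnion hs h3
  · intro f v
    rw [eval_eq']
    rcases Finset.eq_empty_or_nonempty P.support with h0 | h0
    · rw [h0, Finset.sum_empty, absV_zero]
      exact mul_nonneg (Real.exp_pos _).le (pow_nonneg (nrm_nonneg _ _) _)
    · have hcard : (0 : ℝ) < (P.support.card : ℝ) := by
        exact_mod_cast Finset.card_pos.mpr h0
      have hB : 0 ≤ Real.exp (∑ s ∈ P.support, |Real.log (absV v (P.coeff s))|) * nrm v f ^ m :=
        mul_nonneg (Real.exp_pos _).le (pow_nonneg (nrm_nonneg _ _) _)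
      have h1 := absV_sum_le v P.support (fun d => coeff d P * ∏ i, f i ^ d i) hB ?_
      · refine h1.trans (le_of_eq ?_)
        rw [Real.exp_add, Real.rpow_def_of_pos hcard, mul_comm (Real.log _) (sw v), mul_assoc]
      · intro s hs
        rw [absV_mul]
        refine mul_le_mul ?_ ?_ (absV_nonneg _ _) (Real.exp_pos _).le
        · have hpos := absV_pos v (mem_support_iff.mp hs)
          calc absV v (coeff s P) = Real.exp (Real.log (absV v (coeff s P))) :=
                (Real.exp_log hpos).symm
            _ ≤ _ := by
                apply Real.exp_le_exp.mpr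
                exact (le_abs_self _).trans
                  (Finset.single_le_sum (f := fun s => |Real.log (absV v (coeff s P))|)
                    (fun _ _ => abs_nonneg _) hs)
        · apply monomial_le
          have h2 := hP (mem_support_iff.mp hs)
          rw [← h2, Finsupp.weight_apply, Finsupp.sum_fintype]
          · simp
          · intro i; simp

lemma lin_hom {M : ℕ} (c : Fin M → K) : (lin c).IsHomogeneous 1 := by
  unfold lin
  refine IsHomogeneous.sum _ _ _ fun j _ => ?_
  have := (isHomogeneous_C (Fin M) (c j)).mul (isHomogeneous_X K j)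
  rwa [zero_add] at this

lemma eval_lin {M : ℕ} (c f : Fin M → K) : eval f (lin c) = c ⬝ᵥ f := by
  unfold lin
  rw [map_sum]
  simp [dotProduct]

lemma sum_le_finsum {α : Type} {g : α → ℝ} (hg : (Function.support g).Finite) (h0 : ∀ a, 0 ≤ g a)
    (S : Finset α) : ∑ a ∈ S, g a ≤ ∑ᶠ a, g a := by
  rw [finsum_eq_sum_of_support_subset (s := S ∪ hg.toFinset) g]
  · exact Finset.sum_le_sum_of_subset_of_nonneg Finset.subset_union_left fun a _ _ => h0 a
  · intro a ha
    rw [Finset.coe_union]
    right
    simpa using ha

end TRVM

open TRVM in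
theorem specTRV : SpecTRV := by
  intro k _ _ M
  refine ⟨?_, fun m P hP => part2 m P hP⟩
  intro S c
  obtain ⟨κ, hκ0, hκf, hκ⟩ := part2 1 (lin c) (lin_hom c)
  refine ⟨∑ᶠ v, κ v, finsum_nonneg hκ0, ?_⟩
  intro f hf
  have hf0 : f ≠ 0 := by
    rintro rfl
    exact hf (dotProduct_zero _)
  have hval : ∀ v, 0 ≤ val v c f + κ v := by
    intro v
    have h1 := hκ f v
    rw [eval_lin, pow_one] at h1
    have h2 := Real.log_le_log (absV_pos v hf) h1
    rw [Real.log_mul (Real.exp_pos _).ne' (nrm_pos v hf0).ne', Real.log_exp] at h2
    unfold val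
    linarith
  have hvf : (Function.support fun v : Place k => val v c f).Finite := by
    refine ((support_log_nrm_finite hf0).union (support_log_absV_finite hf)).subset ?_
    intro v hv
    by_contra hcon
    rw [Set.mem_union, not_or, Function.mem_support, not_not, Function.mem_support, not_not] at hcon
    apply hv
    show val v c f = 0
    unfold val
    rw [hcon.1, hcon.2, sub_zero]
  have htot : ∑ᶠ v : Place k, val v c f = ht f := by
    unfold val
    rw [finsum_sub_distrib (support_log_nrm_finite hf0) (support_log_absV_finite hf),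
      product_formula hf, sub_zero]
    rfl
  refine ⟨?_, ?_⟩
  · intro v _
    have h1 : κ v ≤ ∑ᶠ v, κ v := by
      have := sum_le_finsum hκf hκ0 {v}
      rwa [Finset.sum_singleton] at this
    have := hval v
    linarith
  · intro S' _
    have hsf : (Function.support fun v : Place k => val v c f + κ v).Finite := by
      refine (hvf.union hκf).subset ?_
      intro v hv
      by_contra hcon
      rw [Set.mem_union, not_or, Function.mem_support, not_not, Function.mem_support,
        not_not] at hcon
      apply hv
      show val v c f + κ v = 0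
      rw [hcon.1, hcon.2, add_zero]
    have h1 := sum_le_finsum hsf hval S'
    rw [finsum_add_distrib hvf hκf, htot] at h1
    have h2 : ∑ v ∈ S', val v c f ≤ ∑ v ∈ S', (val v c f + κ v) :=
      Finset.sum_le_sum fun v _ => by linarith [hκ0 v]
    exact h2.trans h1

end Pool.Agent.Lib.MP_d0e829_nt.SS
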