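import Pool.Agent.Lib.MP_d0e829_nt.SS.CDefs

/-!
# Part E: places in an extension of degree at most two (`SpecEXTV`)

`v` is a place of `k`, `w` a place of `K`, `n = [K : k] ≤ 2`, `d` the local degree. Modules: EGAL, EINJ,
EFV, EFA, EFT, ELI, ELF, EXTV (the last one proves `SpecEXTV` of `CDefs`). Files `SS/XXX.lean`, import
only this file, namespace `Pool.Agent.Lib.MP_d0e829_nt.SS`, own lemmas in a namespace `XXXM`.
-/

set_option autoImplicit false

open NumberField

namespace Pool.Agent.Lib.MP_d0e829_nt.SS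

open scoped Classical Pointwise

/-- The statement on the local degree at the place `v` of `k`, for a Galois extension `K / k`. -/
def LocDeg (k : Type) [Field k] [NumberField k] (K : Type) [Field K] [NumberField K] [Algebra k K]
    (v : Place k) : Prop :=
  ∃ d : ℕ, 0 < d ∧ d * {w : Place K | LiesOver w v}.ncard = Module.finrank k K ∧
    (∀ w : Place K, LiesOver w v → ∀ a : k,
      absV w (algebraMap k K a) = absV v a ^ ((d : ℝ) / Module.finrank k K)) ∧
    (∀ w w' : Place K, LiesOver w v → LiesOver w' v →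
      ∃ σ : K ≃ₐ[k] K, ∀ z, absV w' z = absV w (σ z)) ∧
    ∀ w : Place K, LiesOver w v → ∀ σ : K ≃ₐ[k] K, ∃ w' : Place K, LiesOver w' v ∧
      ∀ z, absV w' z = absV w (σ z)

/-- EGAL (no deps).

PROOF. `n = finrank k K` is `1` or `2` (`Module.finrank_pos`; `FiniteDimensional k K` from
`FiniteDimensional ℚ K`, `Module.Finite.of_restrictScalars_finite`/`Module.Finite.right` and `IsScalarTower ℚ k K`).
Characteristic 0, so separable.
`n = 1`: `algebraMap k K` is surjective (`finrank_eq_one_iff`, or `Subalgebra.bot_eq_top_of_finrank_eq_one`), so it is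
Galois, `τ = AlgEquiv.refl`, every `σ` fixes every `z = algebraMap a`.
`n = 2`: `Algebra.IsQuadraticExtension k K` (`⟨h⟩`), instance `IsQuadraticExtension.isGalois`. `Nat.card (K ≃ₐ[k] K) = 2`
(`IsGalois.card_aut_eq_finrank`), so there is `τ ≠ 1` and every `σ` is `1` or `τ` (a group with two elements), `τ * τ = 1`. If
`τ z = z` then `z` is fixed by the whole group, so it is in the image of `k` (`IsGalois.mem_bot_iff_fixed`,
`Algebra.mem_bot`). -/
def SpecEGAL : Prop := ∀ (k : Type) [Field k] [NumberField k] (K : Type) [Field K] [NumberField K]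
  [Algebra k K], Module.finrank k K ≤ 2 →
  IsGalois k K ∧ ∃ τ : K ≃ₐ[k] K, (∀ z, τ (τ z) = z) ∧
    (∀ z, τ z = z → ∃ a : k, algebraMap k K a = z) ∧
    ∀ σ : K ≃ₐ[k] K, (∀ z, σ z = z) ∨ ∀ z, σ z = τ z

/-- EINJ (no deps). A place is determined by its normalised absolute value.

PROOF. `absV w 2 > 1` for an infinite `w` (`w 2 = 2`), `absV w 2 ≤ 1` for a finite one
(`FinitePlace.norm_le_one` or `FinitePlace.add_le`), so `w`, `w'` are of the same type. Both infinite: `2 ^ weight w = 2 ^ weight w'`, so
`weight w = weight w'`, so `w z = w' z` for all `z` (`Real.rpow` with positive exponent is injective on nonnegative numbers), so `w = w'`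
(`InfinitePlace.ext`). Both finite: the exponents are the same, so `w z = w' z` for all `z` (`DFunLike.ext`). -/
def SpecEINJ : Prop := ∀ (K : Type) [Field K] [NumberField K] (w w' : Place K),
  (∀ z, absV w z = absV w' z) → w = w'

/-- EFV (no deps). The restriction of a finite place to `k`.

PROOF. Let `P = w.maximalIdeal`, `p = v.maximalIdeal`, `P.asIdeal.LiesOver p.asIdeal` (from `h`, `Ideal.LiesOver` is
`⟨h.symm⟩`). `w x = ‖FinitePlace.embedding P x‖` (`FinitePlace.norm_embedding_eq`), `= adicAbv K P x`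
(`FinitePlace.norm_embedding`), which is `toNNReal (absNorm P ≠ 0) (P.valuation K x)` (`adicAbv_def`). By
`IsDedekindDomain.HeightOneSpectrum.valuation_liesOver K p P a` (Mathlib, `NumberTheory/RamificationInertia/Valuation.lean`):
`P.valuation K (algebraMap k K a) = p.valuation k a ^ e`, `e = p.asIdeal.ramificationIdx' P.asIdeal`
`= P.asIdeal.ramificationIdx (𝓞 k)` (`Ideal.ramificationIdx'_eq_ramificationIdx`), and `absNorm P = absNorm p ^ f`
(`Ideal.absNorm_pow_inertiaDeg`). `toNNReal` with base `N` maps `exp m` to `N ^ m`, so the value is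
`(N p ^ f) ^ (e m) = (N p ^ m) ^ (e f)`. -/
def SpecEFV : Prop := ∀ (k : Type) [Field k] [NumberField k] (K : Type) [Field K] [NumberField K]
  [Algebra k K] (v : FinitePlace k) (w : FinitePlace K),
  LiesOver (Sum.inr w : Place K) (Sum.inr v : Place k) → ∀ a : k,
    w (algebraMap k K a) = v a ^ (w.maximalIdeal.asIdeal.ramificationIdx (𝓞 k) *
      w.maximalIdeal.asIdeal.inertiaDeg (𝓞 k))

/-- EFA (no deps). The action of the automorphisms on the finite places.

PROOF. Let `P = w.maximalIdeal`, `Q = σ • P.asIdeal` (pointwise action of `K ≃ₐ[k] K` on the ideals of `𝓞 K`; or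
`Ideal.map`/`Ideal.comap` of the ring automorphism `RingOfIntegers.mapRingEquiv σ`), a nonzero prime, `w' = FinitePlace.mk Q`. For `x ∈ 𝓞 K`, `x ∈ P ^ m`
iff `σ x ∈ Q ^ m`, so `Q.intValuation (σ x) = P.intValuation x` (`intValuation_le_pow_iff_mem` for all `m`) and the same for
the valuations on `K` (every element of `K` is a quotient of elements of `𝓞 K`). `absNorm Q = absNorm P` (the residue rings are
isomorphic; `Ideal.absNorm_smul` / `Submodule.cardQuot` and `Ideal.quotientEquiv`). So `w' (σ z) = w z`. The last clause: `σ` fixes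
the image of `𝓞 k`, so `P` and `Q` have the same preimage in `𝓞 k`. -/
def SpecEFA : Prop := ∀ (k : Type) [Field k] [NumberField k] (K : Type) [Field K] [NumberField K]
  [Algebra k K] (w : FinitePlace K) (σ : K ≃ₐ[k] K), ∃ w' : FinitePlace K,
    w'.maximalIdeal.asIdeal = σ • w.maximalIdeal.asIdeal ∧ (∀ z, w' (σ z) = w z) ∧
    ∀ v : FinitePlace k, LiesOver (Sum.inr w : Place K) (Sum.inr v : Place k) →
      LiesOver (Sum.inr w' : Place K) (Sum.inr v : Place k)

/-- EFT (no deps). The number of finite places above `v`, and the indices `e f` of all of them, in a Galois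
extension.

PROOF. `G = K ≃ₐ[k] K` is a Galois group of `𝓞 K` over `𝓞 k` (instance `IsGaloisGroup G (𝓞 k) (𝓞 K)` in
`Mathlib/FieldTheory/Galois/IsGaloisGroup.lean`, from `IsGaloisGroup G k K` for a Galois extension). `p = v.maximalIdeal.asIdeal`.
`w ↦ w.maximalIdeal.asIdeal` is a bijection of `{w | LiesOver (inr w) (inr v)}` onto `p.primesOver (𝓞 K)` (a prime over `p ≠ ⊥` is not
`⊥`; `FinitePlace.mk`, `maximalIdeal_mk`, `mk_maximalIdeal`, `maximalIdeal_injective`). With
`d = ramificationIdxIn p (𝓞 K) * inertiaDegIn p (𝓞 K)`: `ncard * d = Nat.card G = finrank k K` by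
`Ideal.ncard_primesOver_mul_ramificationIdxIn_mul_inertiaDegIn` and `IsGalois.card_aut_eq_finrank`; `d > 0` since the product is
positive; `d = e f` for every `w` by `Ideal.ramificationIdxIn_eq_ramificationIdx`, `Ideal.inertiaDegIn_eq_inertiaDeg`. Transitivity:
`Ideal.exists_smul_eq_of_isGaloisGroup`. -/
def SpecEFT : Prop := ∀ (k : Type) [Field k] [NumberField k] (K : Type) [Field K] [NumberField K]
  [Algebra k K], IsGalois k K → ∀ v : FinitePlace k, ∃ d : ℕ, 0 < d ∧
    d * {w : FinitePlace K | LiesOver (Sum.inr w : Place K) (Sum.inr v : Place k)}.ncard =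
      Module.finrank k K ∧
    (∀ w : FinitePlace K, LiesOver (Sum.inr w : Place K) (Sum.inr v : Place k) →
      w.maximalIdeal.asIdeal.ramificationIdx (𝓞 k) * w.maximalIdeal.asIdeal.inertiaDeg (𝓞 k) = d) ∧
    ∀ w w' : FinitePlace K, LiesOver (Sum.inr w : Place K) (Sum.inr v : Place k) →
      LiesOver (Sum.inr w' : Place K) (Sum.inr v : Place k) →
      ∃ σ : K ≃ₐ[k] K, σ • w.maximalIdeal.asIdeal = w'.maximalIdeal.asIdeal

/-- ELI (no deps). Infinite places.

PROOF. Fix a place `w₀` of `K` above `v` (`InfinitePlace.comap_surjective`). The places above `v` are the orbit of `w₀` under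
`G = K ≃ₐ[k] K` (`InfinitePlace.mem_orbit_iff`; `(σ • w) z = w (σ.symm z)`, `InfinitePlace.smul_apply`; all places above `inl v` are
infinite by the definition of `LiesOver`). `d = Nat.card (stabilizer of w₀)`, orbit-stabilizer: `d * ncard = Nat.card G = finrank k K`.
`d = 1` if `w₀` is unramified and then `mult w₀ = mult v`; `d = 2` if `w₀` is ramified and then `w₀` is complex, `v` real, `mult w₀ = 2`,
`mult v = 1` (`InfinitePlace.card_stabilizer`, `IsUnramified.eq`, `isRamified_iff`). For `w = σ • w₀`: `mult w = mult w₀` (`isReal_smul_iff`), so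
`mult w = d * mult v`. `w (algebraMap a) = v a` (`comap_apply`), and with `[K : ℚ] = n [k : ℚ]` (`Module.finrank_mul_finrank ℚ k K`)
`weight w = mult w / [K : ℚ] = (d / n) weight v`, so `absV w (algebraMap a) = (v a) ^ (weight v * (d / n)) = absV v a ^ (d / n)`.
Transitivity: `w' = σ • w`, `mult w' = mult w`, so `absV w' z = absV w (σ.symm z)`. Action: `w' = σ.symm • w`. -/
def SpecELI : Prop := ∀ (k : Type) [Field k] [NumberField k] (K : Type) [Field K] [NumberField K]
  [Algebra k K], IsGalois k K → ∀ v : InfinitePlace k, LocDeg k K (Sum.inl v)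

/-- ELF (deps EFV, EFA, EFT). Finite places.

PROOF. `d` of EFT; the places above `inr v` are the `inr w` with `LiesOver (inr w) (inr v)` (no infinite ones), so the `ncard` is the same
(`Set.ncard_image_of_injective` with `Sum.inr`). EFV: `w (algebraMap a) = (v a) ^ d`; `weight w = 1 / [K : ℚ] = (1 / n) weight v`
(`Module.finrank_mul_finrank ℚ k K`), so `absV w (algebraMap a) = ((v a) ^ d) ^ (weight v / n) = absV v a ^ (d / n)`. Transitivity:
`σ • P = P'` by EFT for `w`, `w'`; EFA gives `w''` with ideal `σ • P = P'`, so `w'' = w'` (`maximalIdeal_injective`) and `w' (σ z) = w z`; use `σ.symm`: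
`absV w' z = absV w (σ.symm z)`. Action: EFA for `σ.symm`: `w' (σ.symm y) = w y`, put `y = σ z`. -/
def SpecELF : Prop := ∀ (k : Type) [Field k] [NumberField k] (K : Type) [Field K] [NumberField K]
  [Algebra k K], IsGalois k K → ∀ v : FinitePlace k, LocDeg k K (Sum.inr v)

/-! EXTV (deps EGAL, EINJ, ELI, ELF): `theorem specEXTV (hEGAL) (hEINJ) (hELI) (hELF) : SpecEXTV`.

PROOF. `τ` and `IsGalois` of EGAL. Let `v` be a place of `k`, `d` of LocDeg (ELI or ELF), `g` the number of places above `v`, `d g = n`,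
`n ∈ {1, 2}`.
CASE `d = n` (`g = 1`): exactly one place `w` above `v`; `av = absV w`. `ExtAbs`: `zero`, `pos`, `mul` from `Basic.lean`; `ext`: the exponent `d / n`
is `1`; `add`: if `absV w z ≤ B`, `absV w z' ≤ B` then `absV w (z + z') ≤ 2 ^ sw w * B` (`absV_sum_le`), and `sw w = sw v`: both are `0` for finite
places (`v` and `w` are of the same type by the definition of `LiesOver`); for infinite ones `absV v 2 = absV w 2` (`ext` for `a = 2`) is
`2 ^ weight v = 2 ^ weight w`. `av (τ z) = av z`: the action clause gives a place `w'` above `v` with `absV w' z = absV w (τ z)`, `w' = w`.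
CASE `n = 2`, `d = 1`, `g = 2`: the places above `v` are `w ≠ w'` (`Set.ncard_eq_two`). `absV w' z = absV w (σ z)` for some `σ`; `σ z = z` for
all `z` would give `w' = w` by EINJ, so `absV w' z = absV w (τ z)`. `av z = absV w z ^ 2`: `absV w z = av z ^ (1 / 2)` (`Real.sqrt`, `absV_nonneg`),
`absV w' z = absV w (τ z) = av (τ z) ^ (1 / 2)`. `ExtAbs`: `ext`: `absV w (algebraMap a) ^ 2 = (absV v a ^ (1 / 2)) ^ 2`; `add`: if
`absV w z ^ 2 ≤ B`, the same for `z'`, then `absV w z, absV w z' ≤ √B`, `absV w (z + z') ≤ 2 ^ sw w * √B`, its square is `≤ 2 ^ (2 sw w) * B`, and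
`2 sw w = sw v`: both `0` for finite places; for infinite ones `absV w 2 = absV v 2 ^ (1 / 2)` is `2 ^ weight w = 2 ^ (weight v / 2)`.
-/

end Pool.Agent.Lib.MP_d0e829_nt.SS
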