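import Pool.Agent.Lib.MP_d0e829_nt.SS.SpecE

/-!
# EFV: the restriction of a finite place to `k`
-/

set_option autoImplicit false

open NumberField

namespace Pool.Agent.Lib.MP_d0e829_nt.SS

open scoped Classical Pointwise NNReal WithZero

namespace EFVM

theorem toNN {N M : ℝ≥0} (hN : N ≠ 0) (hM : M ≠ 0) (f : ℕ) (hf : f ≠ 0) (h : N ^ f = M)
    (x : ℤᵐ⁰) : WithZeroMulInt.toNNReal hM x = WithZeroMulInt.toNNReal hN x ^ f := by
  subst h
  by_cases hx : x = 0
  · subst hx
    rw [map_zero, map_zero, zero_pow hf]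
  · rw [WithZeroMulInt.toNNReal_neg_apply hM hx, WithZeroMulInt.toNNReal_neg_apply hN hx,
      ← zpow_natCast, ← zpow_natCast, ← zpow_mul, ← zpow_mul, mul_comm]

end EFVM

open EFVM in
theorem specEFV : SpecEFV := by
  intro k _ _ K _ _ _ v w h a
  have h' : w.maximalIdeal.asIdeal.comap (algebraMap (𝓞 k) (𝓞 K)) = v.maximalIdeal.asIdeal := h
  have hlo : w.maximalIdeal.asIdeal.LiesOver v.maximalIdeal.asIdeal := ⟨h'.symm⟩
  have h1 := IsDedekindDomain.HeightOneSpectrum.valuation_liesOver K v.maximalIdeal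
    w.maximalIdeal a
  have h2 := Ideal.ramificationIdx'_eq_ramificationIdx (p := v.maximalIdeal.asIdeal)
    (q := w.maximalIdeal.asIdeal) v.maximalIdeal.ne_bot
  have h3 := Ideal.absNorm_pow_inertiaDeg (p := v.maximalIdeal.asIdeal)
    (q := w.maximalIdeal.asIdeal)
  have h4 : (w.maximalIdeal.asIdeal).inertiaDeg (𝓞 k) ≠ 0 :=
    (Ideal.inertiaDeg_pos w.maximalIdeal.asIdeal (𝓞 k)).ne'
  rw [h2] at h1
  rw [← w.norm_embedding_eq, ← v.norm_embedding_eq, FinitePlace.norm_embedding,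
    FinitePlace.norm_embedding, HeightOneSpectrum.adicAbv_def, HeightOneSpectrum.adicAbv_def,
    ← h1, map_pow]
  rw [toNN (HeightOneSpectrum.absNorm_ne_zero v.maximalIdeal)
    (HeightOneSpectrum.absNorm_ne_zero w.maximalIdeal) _ h4 (by exact_mod_cast h3)]
  push_cast
  rw [← pow_mul, mul_comm]

end Pool.Agent.Lib.MP_d0e829_nt.SS
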