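import Pool.Agent.Lib.MP_d0e829_nt.SS.SpecG

/-!
# MP_d0e829_nt: module ALG

Polynomial identities for symmetric squares of `3 x 3` matrices.
-/

set_option autoImplicit false

namespace Pool.Agent.Lib.MP_d0e829_nt.SS

namespace ALGM

variable {k : Type} [Field k]

theorem dot6 (a w : Fin 6 → k) : a ⬝ᵥ w =
    a 0 * w 0 + a 1 * w 1 + a 2 * w 2 + a 3 * w 3 + a 4 * w 4 + a 5 * w 5 := by
  rw [dotProduct, Fin.sum_univ_six]

theorem dot3 (a w : Fin 3 → k) : a ⬝ᵥ w = a 0 * w 0 + a 1 * w 1 + a 2 * w 2 := by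
  rw [dotProduct, Fin.sum_univ_three]

theorem sqv_dot (c : Fin 3 → k) (w : Fin 6 → k) : sqv c ⬝ᵥ w =
    c 0 ^ 2 * w 0 + c 1 ^ 2 * w 1 + c 2 ^ 2 * w 2 + c 1 * c 2 * w 3 + c 0 * c 2 * w 4 +
      c 0 * c 1 * w 5 := by
  rw [dot6]
  rfl

theorem mix_dot (c d : Fin 3 → k) (w : Fin 6 → k) : mix c d ⬝ᵥ w =
    2 * c 0 * d 0 * w 0 + 2 * c 1 * d 1 * w 1 + 2 * c 2 * d 2 * w 2 +
      (c 1 * d 2 + c 2 * d 1) * w 3 + (c 0 * d 2 + c 2 * d 0) * w 4 +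
      (c 0 * d 1 + c 1 * d 0) * w 5 := by
  rw [dot6]
  rfl

theorem mv (B : Matrix (Fin 3) (Fin 3) k) (w : Fin 6 → k) : (S2 B).mulVec w =
    ![sqv (B 0) ⬝ᵥ w, sqv (B 1) ⬝ᵥ w, sqv (B 2) ⬝ᵥ w, mix (B 1) (B 2) ⬝ᵥ w,
      mix (B 0) (B 2) ⬝ᵥ w, mix (B 0) (B 1) ⬝ᵥ w] := by
  funext i
  fin_cases i <;> rfl

theorem mv3 (B : Matrix (Fin 3) (Fin 3) k) (x : Fin 3 → k) (i : Fin 3) :
    B.mulVec x i = B i 0 * x 0 + B i 1 * x 1 + B i 2 * x 2 := by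
  rw [Matrix.mulVec, dot3]

theorem sqv_sq (c x y : Fin 3 → k) : sqv c ⬝ᵥ sq x y = (c ⬝ᵥ x) * (c ⬝ᵥ y) := by
  rw [sqv_dot, dot3, dot3]
  simp only [sq, Matrix.cons_val]
  ring

theorem mix_sq (c d x y : Fin 3 → k) :
    mix c d ⬝ᵥ sq x y = (c ⬝ᵥ x) * (d ⬝ᵥ y) + (d ⬝ᵥ x) * (c ⬝ᵥ y) := by
  rw [mix_dot, dot3, dot3, dot3, dot3]
  simp only [sq, Matrix.cons_val]
  ring

theorem dlt_mv (B : Matrix (Fin 3) (Fin 3) k) (w : Fin 6 → k) :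
    dlt ((S2 B).mulVec w) = B.det ^ 2 * dlt w := by
  rw [mv, Matrix.det_fin_three]
  simp only [dlt, Matrix.cons_val, sqv_dot, mix_dot]
  ring

theorem S2_mul (B B' : Matrix (Fin 3) (Fin 3) k) : S2 (B * B') = S2 B * S2 B' := by
  have hm : ∀ i j, (B * B') i j = B i 0 * B' 0 j + B i 1 * B' 1 j + B i 2 * B' 2 j := by
    intro i j
    rw [Matrix.mul_apply, Fin.sum_univ_three]
  have h6 : ∀ i j, (S2 B * S2 B') i j = S2 B i 0 * S2 B' 0 j + S2 B i 1 * S2 B' 1 j +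
      S2 B i 2 * S2 B' 2 j + S2 B i 3 * S2 B' 3 j + S2 B i 4 * S2 B' 4 j +
      S2 B i 5 * S2 B' 5 j := by
    intro i j
    rw [Matrix.mul_apply, Fin.sum_univ_six]
  ext i j
  rw [h6]
  fin_cases i <;> fin_cases j <;>
    simp only [S2, sqv, mix, Matrix.of_apply, Matrix.cons_val, hm, Fin.zero_eta, Fin.mk_one,
      Fin.reduceFinMk] <;> ring

theorem S2_one : S2 (1 : Matrix (Fin 3) (Fin 3) k) = 1 := by
  ext i j
  fin_cases i <;> fin_cases j <;>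
    simp [S2, sqv, mix]

end ALGM

open ALGM in
theorem specALG : SpecALG := by
  intro k _ B B' w x y c d
  refine ⟨dlt_mv B w, S2_mul B B', S2_one, ?_, ?_, ?_, sqv_sq c x y, mix_sq c d x y⟩
  · intro hB
    have h1 : S2 B * S2 B⁻¹ = 1 := by
      rw [← S2_mul, Matrix.mul_nonsing_inv B (isUnit_iff_ne_zero.mpr hB), S2_one]
    intro h0
    have h2 := congrArg Matrix.det h1
    rw [Matrix.det_mul, h0, zero_mul, Matrix.det_one] at h2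
    exact zero_ne_one h2
  · rw [mv]
    simp only [sqv_sq, mix_sq]
    rfl
  · simp only [dlt, sq, Matrix.cons_val]
    ring

end Pool.Agent.Lib.MP_d0e829_nt.SS
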