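import Pool.Agent.Lib.MP_d0e829_nt.SS.SpecB

/-!
# Module AUX of part B1: the auxiliary polynomial (from CHE, SIE, COE)

(The file is called `AUXX.lean` because `AUX` is a reserved file name.)
-/

set_option autoImplicit false

open NumberField

namespace Pool.Agent.Lib.MP_d0e829_nt.SS

open scoped Classical

namespace AUXM

/-- `sbs` of a sum of monomials, coefficient by coefficient -/
lemma coeff_sbs {K : Type} [Field K] {m N : ℕ} (M : Matrix (Fin N) (Fin N) K) {β : Type}
    (T : Finset β) (g : β → (Fin m × Fin N →₀ ℕ)) (ξ : β → ℤ) (s : Fin m × Fin N →₀ ℕ) :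
    (sbs M (∑ J ∈ T, MvPolynomial.monomial (g J) (ξ J))).coeff s =
      ∑ J ∈ T, (ξ J : K) * (sbs M (MvPolynomial.monomial (g J) (1 : ℤ))).coeff s := by
  unfold sbs
  rw [map_sum, MvPolynomial.coeff_sum]
  refine Finset.sum_congr rfl fun J _ => ?_
  have h1 : MvPolynomial.monomial (g J) (ξ J) =
      (ξ J) • (MvPolynomial.monomial (g J) (1 : ℤ)) := by
    rw [MvPolynomial.smul_monomial, smul_eq_mul, mul_one]
  rw [h1, map_smul, MvPolynomial.coeff_smul, zsmul_eq_mul]

/-- the weight of `s` for the weights `1` in the block `h`, `0` elsewhere -/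
lemma weight_eq {m N : ℕ} (h : Fin m) (s : Fin m × Fin N →₀ ℕ) :
    Finsupp.weight (fun p : Fin m × Fin N => if p.1 = h then 1 else 0) s = bd s h := by
  rw [Finsupp.weight_apply, Finsupp.sum_fintype _ _ (fun i => by simp)]
  unfold bd
  rw [Fintype.sum_prod_type]
  rw [Finset.sum_eq_single h]
  · simp
  · intro b _ hb
    simp [hb]
  · intro hh
    exact absurd (Finset.mem_univ h) hh

/-- the monomials of `sbs M X^J` have the block degrees of `J` -/
lemma bd_of_coeff {K : Type} [Field K] {m N : ℕ} (M : Matrix (Fin N) (Fin N) K)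
    (J s : Fin m × Fin N →₀ ℕ)
    (hs : (sbs M (MvPolynomial.monomial J (1 : ℤ))).coeff s ≠ 0) (h : Fin m) :
    bd s h = bd J h := by
  have key : MvPolynomial.IsWeightedHomogeneous
      (fun p : Fin m × Fin N => if p.1 = h then 1 else 0)
      (sbs M (MvPolynomial.monomial J (1 : ℤ))) (bd J h) := by
    unfold sbs
    rw [MvPolynomial.aeval_monomial, map_one, one_mul, Finsupp.prod_fintype _ _ (fun i => by simp)]
    have h2 : bd J h = ∑ p : Fin m × Fin N, J p • (if p.1 = h then 1 else 0) := by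
      rw [← weight_eq, Finsupp.weight_apply, Finsupp.sum_fintype _ _ (fun i => by simp)]
    rw [h2]
    refine MvPolynomial.IsWeightedHomogeneous.prod _ _ _ fun p _ => ?_
    refine MvPolynomial.IsWeightedHomogeneous.pow ?_ _
    refine MvPolynomial.IsWeightedHomogeneous.sum _ _ _ fun j _ => ?_
    have h3 := (MvPolynomial.isWeightedHomogeneous_X K
      (fun p : Fin m × Fin N => if p.1 = h then 1 else 0) (p.1, j))
    have h4 := (MvPolynomial.isWeightedHomogeneous_C
      (fun p : Fin m × Fin N => if p.1 = h then 1 else 0) (M p.2 j)).mul h3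
    simpa using h4
  rw [← weight_eq h s]
  exact key hs

/-- the exponents of a multidegree: total degree -/
lemma sum_of_mem {m N : ℕ} {d : Fin m → ℕ} {J : Fin m × Fin N →₀ ℕ} (hJ : J ∈ mons N d) :
    ∑ p, J p = ∑ h, d h := by
  rw [mem_mons] at hJ
  rw [Fintype.sum_prod_type]
  exact Finset.sum_congr rfl fun h _ => hJ h

lemma mons_nonempty {m N : ℕ} (hN : 0 < N) (d : Fin m → ℕ) : (mons N d).Nonempty := by
  refine ⟨Finsupp.equivFunOnFinite.symm fun p => if p.2 = ⟨0, hN⟩ then d p.1 else 0, ?_⟩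
  rw [mem_mons]
  intro h
  unfold bd
  simp

lemma card_mons_le {m N : ℕ} (d : Fin m → ℕ) :
    ((mons N d).card : ℝ) ≤ Real.exp (N * ∑ h, (d h : ℝ)) := by
  have h1 : (mons N d).card ≤ ∏ h, (d h + 1) ^ N := by
    unfold mons
    refine Finset.card_image_le.trans ?_
    rw [Fintype.card_piFinset]
    refine Finset.prod_le_prod' fun h _ => ?_
    have h2 : Finset.piAntidiag (Finset.univ : Finset (Fin N)) (d h) ⊆
        Fintype.piFinset fun _ : Fin N => Finset.range (d h + 1) := by
      intro f hf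
      rw [Finset.mem_piAntidiag] at hf
      rw [Fintype.mem_piFinset]
      intro i
      rw [Finset.mem_range, Nat.lt_succ_iff, ← hf.1]
      exact Finset.single_le_sum (f := f) (fun _ _ => Nat.zero_le _) (Finset.mem_univ i)
    refine (Finset.card_le_card h2).trans ?_
    rw [Fintype.card_piFinset]
    simp
  have h3 : ((mons N d).card : ℝ) ≤ ∏ h, ((d h : ℝ) + 1) ^ N := by
    calc ((mons N d).card : ℝ) ≤ ((∏ h, (d h + 1) ^ N : ℕ) : ℝ) := by exact_mod_cast h1
      _ = _ := by push_cast; rfl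
  refine h3.trans ?_
  rw [Finset.mul_sum, Real.exp_sum]
  refine Finset.prod_le_prod (fun h _ => by positivity) fun h _ => ?_
  rw [Real.exp_nat_mul]
  exact pow_le_pow_left₀ (by positivity) (Real.add_one_le_exp _) _

/-- coefficients of a polynomial given by its values on a finite set of exponents -/
lemma coeff_pol {σ : Type} (T : Finset (σ →₀ ℕ)) (ξ : T → ℤ) (s : σ →₀ ℕ) :
    (∑ J : T, MvPolynomial.monomial J.1 (ξ J)).coeff s =
      if h : s ∈ T then ξ ⟨s, h⟩ else 0 := by
  rw [MvPolynomial.coeff_sum]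
  simp only [MvPolynomial.coeff_monomial]
  split_ifs with h
  · rw [Finset.sum_eq_single ⟨s, h⟩]
    · simp
    · intro b _ hb
      rw [if_neg]
      intro hbs
      exact hb (Subtype.ext hbs)
    · intro hh
      exact absurd (Finset.mem_univ _) hh
  · refine Finset.sum_eq_zero fun b _ => ?_
    rw [if_neg]
    intro hbs
    exact h (hbs ▸ b.2)

end AUXM

open AUXM in
theorem specAUX (h1 : SpecCHE) (h2 : SpecSIE) (h3 : SpecCOE) : SpecAUX := by
  intro K _ _ N hN S L hL
  choose b Cc hb hCc hco using fun v : Place K => h3 K N (L v)⁻¹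
  obtain ⟨C₀, hC₀, hsie⟩ := h2 K
  have hC1 : 0 ≤ ∑ v ∈ S, Cc v := Finset.sum_nonneg fun v _ => hCc v
  have hlog : 0 ≤ Real.log C₀ := Real.log_nonneg hC₀
  refine ⟨Real.log C₀ + N + ∑ v ∈ S, Cc v, by positivity, fun η hη => ?_⟩
  obtain ⟨m, hm, hche⟩ := h1 N (by omega)
    (2 * (Module.finrank ℚ K : ℝ) * (S.card : ℝ)) η (by positivity) hη
  refine ⟨m, hm, fun d hd => ?_⟩
  have hche' := hche d hd
  set U := (mons N d).filter fun s => ∃ j : Fin N,
      η * m < |∑ h, (s (h, j) : ℝ) / d h - m / N| with hU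
  have hDpos : 1 ≤ ∑ h, (d h : ℝ) := by
    have h4 : (1 : ℝ) ≤ d ⟨0, hm⟩ := by exact_mod_cast hd ⟨0, hm⟩
    exact h4.trans (Finset.single_le_sum (f := fun h => (d h : ℝ))
      (fun _ _ => Nat.cast_nonneg _) (Finset.mem_univ _))
  have hD0 : 0 ≤ ∑ h, (d h : ℝ) := by linarith
  have hA : 1 ≤ Real.exp ((∑ v ∈ S, Cc v) * ∑ h, (d h : ℝ)) :=
    Real.one_le_exp (mul_nonneg hC1 hD0)
  have hcardβ : 0 < Fintype.card (mons N d) := by
    rw [Fintype.card_coe]
    exact Finset.card_pos.mpr (mons_nonempty (by omega) d)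
  have hcardα : 2 * Module.finrank ℚ K * Fintype.card (S × U) ≤ Fintype.card (mons N d) := by
    rw [Fintype.card_prod, Fintype.card_coe, Fintype.card_coe, Fintype.card_coe]
    have h5 : ((2 * Module.finrank ℚ K * (S.card * U.card) : ℕ) : ℝ) ≤
        ((mons N d).card : ℝ) := by
      push_cast
      calc (2 : ℝ) * (Module.finrank ℚ K : ℝ) * ((S.card : ℝ) * (U.card : ℝ)) =
          2 * (Module.finrank ℚ K : ℝ) * (S.card : ℝ) * (U.card : ℝ) := by ring
        _ ≤ _ := hche'
    exact_mod_cast h5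
  obtain ⟨ξ, hξ0, hξsum, hξbd⟩ := hsie (S × U) (mons N d)
    (fun k l => (b k.1.1 : K) ^ (∑ p, l.1 p) *
      (sbs (L k.1.1)⁻¹ (MvPolynomial.monomial l.1 (1 : ℤ))).coeff k.2.1)
    (Real.exp ((∑ v ∈ S, Cc v) * ∑ h, (d h : ℝ))) hA hcardβ hcardα (fun k l => by
      refine ⟨(hco k.1.1 m l.1 k.2.1).1, (hco k.1.1 m l.1 k.2.1).2.trans ?_⟩
      apply Real.exp_le_exp.mpr
      have h6 : ∑ p, (l.1 p : ℝ) = ∑ h, (d h : ℝ) := by
        exact_mod_cast sum_of_mem l.2
      rw [h6]
      refine mul_le_mul_of_nonneg_right ?_ hD0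
      exact Finset.single_le_sum (f := Cc) (fun v _ => hCc v) k.1.2)
  have hcoeff := coeff_pol (mons N d) ξ
  refine ⟨∑ J : mons N d, MvPolynomial.monomial J.1 (ξ J), ?_, ?_, ?_, ?_⟩
  · intro h0
    apply hξ0
    funext J
    have h7 := hcoeff J.1
    rw [h0, MvPolynomial.coeff_zero, dif_pos J.2] at h7
    exact h7.symm
  · intro J hJ h
    rw [MvPolynomial.mem_support_iff, hcoeff] at hJ
    by_cases hm' : J ∈ mons N d
    · exact mem_mons.mp hm' h
    · rw [dif_neg hm'] at hJ
      exact absurd rfl hJ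
  · intro J
    rw [hcoeff]
    split_ifs with hJ
    · refine (hξbd ⟨J, hJ⟩).trans ?_
      have h8 : C₀ ≤ Real.exp (Real.log C₀ * ∑ h, (d h : ℝ)) := by
        calc C₀ = Real.exp (Real.log C₀) := (Real.exp_log (by linarith)).symm
          _ ≤ _ := Real.exp_le_exp.mpr (by nlinarith)
      have h9 : (Fintype.card (mons N d) : ℝ) ≤ Real.exp (N * ∑ h, (d h : ℝ)) := by
        rw [Fintype.card_coe]
        exact card_mons_le d
      have h10 : Real.exp ((Real.log C₀ + N + ∑ v ∈ S, Cc v) * ∑ h, (d h : ℝ)) =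
          Real.exp (Real.log C₀ * ∑ h, (d h : ℝ)) * Real.exp (N * ∑ h, (d h : ℝ)) *
            Real.exp ((∑ v ∈ S, Cc v) * ∑ h, (d h : ℝ)) := by
        rw [← Real.exp_add, ← Real.exp_add]
        congr 1
        ring
      rw [h10]
      exact mul_le_mul_of_nonneg_right
        (mul_le_mul h8 h9 (Nat.cast_nonneg _) (Real.exp_pos _).le) (Real.exp_pos _).le
    · simp only [Int.cast_zero, abs_zero]
      exact (Real.exp_pos _).le
  · intro v hv s hs j
    by_contra hcon
    push Not at hcon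
    rw [MvPolynomial.mem_support_iff] at hs
    apply hs
    have h11 := coeff_sbs (L v)⁻¹ (Finset.univ : Finset (mons N d)) (fun J => J.1) ξ s
    have hsm : s ∈ mons N d := by
      have h12 : ∑ J : mons N d, (ξ J : K) *
          (sbs (L v)⁻¹ (MvPolynomial.monomial J.1 (1 : ℤ))).coeff s ≠ 0 := by
        rw [← h11]
        exact hs
      obtain ⟨J, _, hJ⟩ := Finset.exists_ne_zero_of_sum_ne_zero h12
      have h13 := right_ne_zero_of_mul hJ
      rw [mem_mons]
      intro h
      rw [bd_of_coeff _ _ _ h13 h]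
      exact mem_mons.mp J.2 h
    have hsU : s ∈ U := by
      rw [hU, Finset.mem_filter]
      exact ⟨hsm, j, hcon⟩
    have h14 := hξsum (⟨v, hv⟩, ⟨s, hsU⟩)
    have hb0 : (b v : K) ^ (∑ h, d h) ≠ 0 := pow_ne_zero _ (by
      have := (hb v).ne'
      exact_mod_cast this)
    have h15 : (b v : K) ^ (∑ h, d h) * ∑ J : mons N d, (ξ J : K) *
        (sbs (L v)⁻¹ (MvPolynomial.monomial J.1 (1 : ℤ))).coeff s = 0 := by
      rw [Finset.mul_sum, ← h14]
      refine Finset.sum_congr rfl fun J _ => ?_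
      simp only []
      rw [sum_of_mem J.2]
      ring
    have h16 := (mul_eq_zero.mp h15).resolve_left hb0
    exact h11.trans h16

end Pool.Agent.Lib.MP_d0e829_nt.SS
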