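import Pool.Agent.Lib.MP_d0e829_nt.SS.SpecA

/-!
# Part C (points of degree at most two over `k`): definitions

A point `P = [x]`, `x ∈ K³`, `[K : k] ≤ 2`, with conjugate `x'`, gives the vector
`f = sq x x' ∈ k⁶`.  Functionals on `k⁶` are vectors `c : Fin 6 → k`, with value `c ⬝ᵥ f`.
A frame is an invertible `3 × 3` matrix with rows `X, Y, Z`; its six functionals are the rows of
`S2 B`: `XX, YY, ZZ, YZ, XZ, XY`.
-/

set_option autoImplicit false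

open NumberField

namespace Pool.Agent.Lib.MP_d0e829_nt.SS

open scoped Classical

section algebra

/-- `x_i y_i` (`i = 0, 1, 2`), `x₁y₂+x₂y₁`, `x₀y₂+x₂y₀`, `x₀y₁+x₁y₀` -/
def sq {F : Type} [Field F] (x y : Fin 3 → F) : Fin 6 → F :=
  ![x 0 * y 0, x 1 * y 1, x 2 * y 2, x 1 * y 2 + x 2 * y 1, x 0 * y 2 + x 2 * y 0,
    x 0 * y 1 + x 1 * y 0]

/-- the functional `CC`: `sqv c ⬝ᵥ sq x y = c(x) c(y)` -/
def sqv {k : Type} [Field k] (c : Fin 3 → k) : Fin 6 → k :=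
  ![c 0 ^ 2, c 1 ^ 2, c 2 ^ 2, c 1 * c 2, c 0 * c 2, c 0 * c 1]

/-- the functional `CD`: `mix c d ⬝ᵥ sq x y = c(x) d(y) + d(x) c(y)` -/
def mix {k : Type} [Field k] (c d : Fin 3 → k) : Fin 6 → k :=
  ![2 * c 0 * d 0, 2 * c 1 * d 1, 2 * c 2 * d 2, c 1 * d 2 + c 2 * d 1, c 0 * d 2 + c 2 * d 0,
    c 0 * d 1 + c 1 * d 0]

/-- the six functionals of a frame, in the order `XX, YY, ZZ, YZ, XZ, XY` -/
def S2 {k : Type} [Field k] (B : Matrix (Fin 3) (Fin 3) k) : Matrix (Fin 6) (Fin 6) k :=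
  Matrix.of ![sqv (B 0), sqv (B 1), sqv (B 2), mix (B 1) (B 2), mix (B 0) (B 2), mix (B 0) (B 1)]

/-- four times the determinant of the symmetric matrix with coordinates `w` -/
def dlt {R : Type} [CommRing R] (w : Fin 6 → R) : R :=
  4 * w 0 * w 1 * w 2 + w 3 * w 4 * w 5 - w 0 * w 3 ^ 2 - w 1 * w 4 ^ 2 - w 2 * w 5 ^ 2

/-- the linear form with coefficients `c` -/
noncomputable def lin {k ι : Type} [Field k] [Fintype ι] (c : ι → k) : MvPolynomial ι k :=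
  ∑ j, MvPolynomial.C (c j) * MvPolynomial.X j

/-- `dlt` after the substitution `w_i = ∑_j N i j X_j` -/
noncomputable def Dl {k ι : Type} [Field k] [Fintype ι] (N : Fin 6 → ι → k) : MvPolynomial ι k :=
  dlt fun i => lin (N i)

end algebra

section functions

variable {k : Type} [Field k] {Ω ι : Type} [Fintype ι]

/-- evaluation of polynomials at the vectors `f ω`, `ω ∈ A` -/
noncomputable def evA (f : Ω → ι → k) (A : Set Ω) : MvPolynomial ι k →ₐ[k] (A → k) :=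
  MvPolynomial.aeval fun i (ω : A) => f ω i

/-- the functions on `A` given by forms of degree `m` -/
noncomputable def FS (f : Ω → ι → k) (A : Set Ω) (m : ℕ) : Submodule k (A → k) :=
  (MvPolynomial.homogeneousSubmodule ι k m).map (evA f A).toLinearMap

/-- the forms `g j` of degree `m` give a basis of `FS f A m` -/
def IsB {J : Type} (f : Ω → ι → k) (A : Set Ω) (m : ℕ) (g : J → MvPolynomial ι k) : Prop :=
  (∀ j, (g j).IsHomogeneous m) ∧ LinearIndependent k (fun j => evA f A (g j)) ∧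
    Submodule.span k (Set.range fun j => evA f A (g j)) = FS f A m

/-- small sets: closed under subsets and unions of two -/
def SmSys (Sm : Set Ω → Prop) : Prop :=
  Sm ∅ ∧ (∀ A B : Set Ω, A ⊆ B → Sm B → Sm A) ∧ ∀ A B : Set Ω, Sm A → Sm B → Sm (A ∪ B)

/-- `A` is not small, and every form which does not vanish identically on `A` vanishes only on a small
part of `A` -/
def Gen (Sm : Set Ω → Prop) (f : Ω → ι → k) (A : Set Ω) : Prop :=
  ¬ Sm A ∧ ∀ (m : ℕ) (P : MvPolynomial ι k), P.IsHomogeneous m →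
    (∃ ω ∈ A, MvPolynomial.eval (f ω) P ≠ 0) → Sm {ω | ω ∈ A ∧ MvPolynomial.eval (f ω) P = 0}

/-- the functionals vanishing on `A` -/
def UU (f : Ω → ι → k) (A : Set Ω) : Submodule k (ι → k) where
  carrier := {c | ∀ ω ∈ A, c ⬝ᵥ f ω = 0}
  add_mem' := by
    intro a b ha hb ω hω
    rw [add_dotProduct, ha ω hω, hb ω hω, add_zero]
  zero_mem' := by intro ω _; exact zero_dotProduct _
  smul_mem' := by
    intro c a ha ω hω
    rw [smul_dotProduct, ha ω hω, smul_zero]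

end functions

section valuations

variable {k : Type} [Field k] [NumberField k]

/-- `log ‖f‖_v - log |c(f)|_v` -/
noncomputable def val {ι : Type} [Fintype ι] (v : Place k) (c f : ι → k) : ℝ :=
  Real.log (nrm v f) - Real.log (absV v (c ⬝ᵥ f))

/-- `|c(f)|_v ≤ e^{-w} ‖f‖_v` -/
def Ge {ι : Type} [Fintype ι] (v : Place k) (c f : ι → k) (w : ℝ) : Prop :=
  absV v (c ⬝ᵥ f) ≤ Real.exp (-w) * nrm v f

/-- `e^{-w} ‖f‖_v ≤ |c(f)|_v` -/
def Le {ι : Type} [Fintype ι] (v : Place k) (c f : ι → k) (w : ℝ) : Prop :=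
  Real.exp (-w) * nrm v f ≤ absV v (c ⬝ᵥ f)

/-- weights of `XX, YY, ZZ, YZ, XZ, XY` in a frame of type A -/
noncomputable def WA (p q z z' : ℝ) : Fin 6 → ℝ :=
  ![p, q, z + z', min z' (z + q), min z (p + z'), 0]

/-- the weights with the data `α, β` in a frame of type A1 -/
noncomputable def WA1 (p q α β : ℝ) : Fin 6 → ℝ := ![p, q, α + β, β, α, 0]

/-- weights in a frame of type B -/
noncomputable def WB (p p' q q' : ℝ) : Fin 6 → ℝ :=
  ![p + p', q + q', 0, min q q', min p p', min (p + q') (q + p')]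

/-- data of a frame of type A at the place `v` for the vector `f` -/
def FrA (v : Place k) (B : Matrix (Fin 3) (Fin 3) k) (f : Fin 6 → k) (T C : ℝ) : Prop :=
  ∃ p q z z' : ℝ, 0 ≤ p ∧ 0 ≤ q ∧ 0 ≤ z ∧ 0 ≤ z' ∧ T ≤ p + q + z + z' + C ∧
    (∀ i, Ge v (S2 B i) f (WA p q z z' i - C)) ∧
    ∀ i : Fin 6, (i : ℕ) < 3 → Le v (S2 B i) f (WA p q z z' i + C)

/-- additional data of a frame of type A1 -/
def FrA1 (v : Place k) (B : Matrix (Fin 3) (Fin 3) k) (f : Fin 6 → k) (T C : ℝ) : Prop :=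
  ∃ p q α β : ℝ, 0 ≤ α ∧ α ≤ p ∧ 0 ≤ β ∧ β ≤ q ∧ T ≤ p + q + α + β + C ∧
    ∀ i, Ge v (S2 B i) f (WA1 p q α β i - C)

/-- data of a frame of type B -/
def FrB (v : Place k) (B : Matrix (Fin 3) (Fin 3) k) (f : Fin 6 → k) (T C : ℝ) : Prop :=
  ∃ p p' q q' : ℝ, 0 ≤ p ∧ 0 ≤ p' ∧ 0 ≤ q ∧ 0 ≤ q' ∧ T ≤ p + p' + q + q' + C ∧
    (∀ i, Ge v (S2 B i) f (WB p p' q q' i - C)) ∧
    ∀ i : Fin 6, (i : ℕ) < 3 → Le v (S2 B i) f (WB p p' q q' i + C)

/-- `B` is a frame for `f` at `v`, of type A2, A1 or B. -/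
def Fr (v : Place k) {q : ℕ} (ℓ : Fin q → Fin 3 → k) (B : Matrix (Fin 3) (Fin 3) k)
    (f : Fin 6 → k) (T C : ℝ) : Prop :=
  (∃ i j l : Fin q, i ≠ j ∧ i ≠ l ∧ j ≠ l ∧ B 0 = ℓ i ∧ B 1 = ℓ j ∧ B 2 = ℓ l ∧ FrA v B f T C) ∨
  (∃ i j : Fin q, i ≠ j ∧ B 0 = ℓ i ∧ B 1 = ℓ j ∧ FrA v B f T C ∧ FrA1 v B f T C) ∨
  (∃ i j l : Fin q, i ≠ j ∧ i ≠ l ∧ j ≠ l ∧ B 0 = ℓ i ∧ B 1 = ℓ j ∧ B 2 = ℓ l ∧ FrB v B f T C)

/-- `av` is an extension of `absV v` to `F` -/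
structure ExtAbs (v : Place k) (F : Type) [Field F] [Algebra k F] (av : F → ℝ) : Prop where
  zero : av 0 = 0
  pos : ∀ z, z ≠ 0 → 0 < av z
  mul : ∀ z w, av (z * w) = av z * av w
  add : ∀ z w B, av z ≤ B → av w ≤ B → av (z + w) ≤ (2 : ℝ) ^ sw v * B
  ext : ∀ a : k, av (algebraMap k F a) = absV v a

/-- `max_j |x_j|` -/
noncomputable def nav {F : Type} {ι : Type} (av : F → ℝ) (x : ι → F) : ℝ := ⨆ j, av (x j)

/-- `log ‖x‖ - log |c(x)|` for a form over `k` -/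
noncomputable def lam {F : Type} [Field F] [Algebra k F] (av : F → ℝ) (c : Fin 3 → k)
    (x : Fin 3 → F) : ℝ :=
  Real.log (nav av x) - Real.log (av (evalForm c x))

/-- The local data at `v` of a point and its conjugate. `M` is a finite set of forms not vanishing at
them. -/
def LocPair (v : Place k) (M : Finset (Fin 3 → k)) {q : ℕ} (ℓ : Fin q → Fin 3 → k) (f : Fin 6 → k)
    (T : ℝ) : Prop :=
  ∃ (F : Type) (_ : Field F) (_ : Algebra k F) (av : F → ℝ) (x x' : Fin 3 → F),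
    ExtAbs v F av ∧ x ≠ 0 ∧ x' ≠ 0 ∧ (∀ j, algebraMap k F (f j) = sq x x' j) ∧
    (∀ c ∈ M, evalForm c x ≠ 0 ∧ evalForm c x' ≠ 0) ∧
    (∀ i, evalForm (ℓ i) x ≠ 0 ∧ evalForm (ℓ i) x' ≠ 0) ∧
    T = ∑ i, (lam av (ℓ i) x + lam av (ℓ i) x')

/-- FRM (frames). Lines in general position. -/
def SpecFRM : Prop := ∀ (k : Type) [Field k] [NumberField k] (q : ℕ), 3 ≤ q →
  ∀ ℓ : Fin q → Fin 3 → k, (∀ i, ℓ i ≠ 0) →
  (∀ i j l, i ≠ j → i ≠ l → j ≠ l → LinearIndependent k ![ℓ i, ℓ j, ℓ l]) →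
  ∃ (M : Finset (Fin 3 → k)) (BB : Finset (Matrix (Fin 3) (Fin 3) k)),
    (∀ c ∈ M, c ≠ 0) ∧ (∀ B ∈ BB, B.det ≠ 0) ∧ ∀ v : Place k, ∃ C : ℝ, ∀ (f : Fin 6 → k) (T : ℝ),
      LocPair v M ℓ f T → ∃ B ∈ BB, Fr v ℓ B f T C

/-- EXTV. -/
def SpecEXTV : Prop := ∀ (k : Type) [Field k] [NumberField k] (K : Type) [Field K] [NumberField K]
  [Algebra k K], Module.finrank k K ≤ 2 →
  ∃ τ : K ≃ₐ[k] K, (∀ z, τ (τ z) = z) ∧ (∀ z, τ z = z → ∃ a : k, algebraMap k K a = z) ∧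
    ∀ v : Place k, ∃ av : K → ℝ, ExtAbs v K av ∧
      ((∃ w : Place K, (∀ w' : Place K, LiesOver w' v ↔ w' = w) ∧ (∀ z, absV w z = av z) ∧
          ∀ z, av (τ z) = av z) ∨
        (∃ w w' : Place K, w ≠ w' ∧ (∀ w'' : Place K, LiesOver w'' v ↔ w'' = w ∨ w'' = w') ∧
          (∀ z, absV w z = av z ^ (1 / 2 : ℝ)) ∧ ∀ z, absV w' z = av (τ z) ^ (1 / 2 : ℝ)))

end valuations

end Pool.Agent.Lib.MP_d0e829_nt.SS
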