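import Pool.Agent.Lib.MP_d0e829_nt.SS.SpecC1

set_option autoImplicit false

open NumberField MvPolynomial

namespace Pool.Agent.Lib.MP_d0e829_nt.SS

open scoped Classical

namespace CNTM

/-- exponents of degree `m` -/
noncomputable def T (m : ℕ) : Finset (Fin 4 →₀ ℕ) := Finset.univ.finsuppAntidiag m

lemma mem_T {m : ℕ} {s : Fin 4 →₀ ℕ} : s ∈ T m ↔ ∑ i, s i = m := by
  unfold T
  rw [Finset.mem_finsuppAntidiag]
  constructor
  · rintro ⟨h, _⟩; exact h
  · intro h; exact ⟨h, Finset.subset_univ _⟩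

lemma card_T (m : ℕ) : (T m).card = Nat.choose (m + 3) 3 := by
  unfold T
  rw [Finset.card_finsuppAntidiag_nat_eq_choose]
  simp only [Finset.card_univ, Fintype.card_fin]
  have h1 : 4 + m - 1 = m + 3 := by omega
  rw [h1]
  rw [← Nat.choose_symm_of_eq_add (by omega : m + 3 = 3 + m)]

lemma sum_T_eq (m : ℕ) (i j : Fin 4) : ∑ s ∈ T m, s i = ∑ s ∈ T m, s j := by
  refine Finset.sum_bij (fun s _ => Finsupp.equivMapDomain (Equiv.swap i j) s) ?_ ?_ ?_ ?_
  · intro s hs
    rw [mem_T] at hs ⊢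
    rw [← hs]
    simp only [Finsupp.equivMapDomain_apply]
    exact Equiv.sum_comp (Equiv.swap i j).symm (fun a => s a)
  · intro s _ t _ h
    have h2 := congrArg (Finsupp.equivMapDomain (Equiv.swap i j)) h
    rw [← Finsupp.equivMapDomain_trans, ← Finsupp.equivMapDomain_trans] at h2
    simpa using h2
  · intro s hs
    refine ⟨Finsupp.equivMapDomain (Equiv.swap i j) s, ?_, ?_⟩
    · rw [mem_T] at hs ⊢
      rw [← hs]
      simp only [Finsupp.equivMapDomain_apply]
      exact Equiv.sum_comp (Equiv.swap i j).symm (fun a => s a)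
    · rw [← Finsupp.equivMapDomain_trans]
      simp
  · intro s _
    simp [Finsupp.equivMapDomain_apply]

lemma sum_T (m : ℕ) (i : Fin 4) : 4 * ∑ s ∈ T m, s i = m * Nat.choose (m + 3) 3 := by
  have h1 : ∑ j : Fin 4, ∑ s ∈ T m, s j = m * Nat.choose (m + 3) 3 := by
    rw [Finset.sum_comm, Finset.sum_congr rfl (fun s hs => mem_T.mp hs), Finset.sum_const, card_T,
      smul_eq_mul, mul_comm]
  rw [Finset.sum_congr rfl (fun j _ => sum_T_eq m j i), Finset.sum_const, Finset.card_univ,
    Fintype.card_fin, smul_eq_mul] at h1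
  exact h1

lemma filter_eq (n g : ℕ) (μ : Fin 4 →₀ ℕ) (hμ : ∑ i, μ i = g) :
    (T (n + g)).filter (fun s => μ ≤ s) = (T n).image (fun h => μ + h) := by
  ext s
  simp only [Finset.mem_filter, Finset.mem_image, mem_T]
  constructor
  · rintro ⟨h1, h2⟩
    refine ⟨s - μ, ?_, add_tsub_cancel_of_le h2⟩
    have h3 : ∑ i, s i = ∑ i, μ i + ∑ i, (s - μ) i := by
      rw [← Finset.sum_add_distrib]
      refine Finset.sum_congr rfl fun i _ => ?_
      rw [Finsupp.tsub_apply]
      have := h2 i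
      omega
    omega
  · rintro ⟨h, h1, rfl⟩
    refine ⟨?_, le_self_add⟩
    simp only [Finsupp.add_apply, Finset.sum_add_distrib]
    omega

end CNTM

open CNTM in
theorem specCNT : SpecCNT := by
  intro n g μ hμ
  have hsplit : ∀ f : (Fin 4 →₀ ℕ) → ℕ, ∑ s ∈ (T (n + g)).filter (fun s => ¬ μ ≤ s), f s +
      ∑ h ∈ T n, f (μ + h) = ∑ s ∈ T (n + g), f s := by
    intro f
    have h1 := Finset.sum_filter_add_sum_filter_not (T (n + g)) (fun s => μ ≤ s) f
    rw [filter_eq n g μ hμ, Finset.sum_image (fun a _ b _ h => add_left_cancel h)] at h1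
    rw [← h1]
    exact add_comm _ _
  refine ⟨?_, fun i => ?_⟩
  · have h1 := hsplit (fun _ => 1)
    simp only [Finset.sum_const, smul_eq_mul, mul_one] at h1
    rw [card_T, card_T] at h1
    exact h1
  · have h1 := hsplit (fun s => s i)
    simp only [Finsupp.add_apply, Finset.sum_add_distrib, Finset.sum_const, smul_eq_mul] at h1
    have h2 := sum_T (n + g) i
    have h3 := sum_T n i
    rw [card_T] at h1
    show (4 * ∑ s ∈ (T (n + g)).filter (fun s => ¬ μ ≤ s), s i) +
      (n + 4 * μ i) * Nat.choose (n + 3) 3 = (n + g) * Nat.choose (n + g + 3) 3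
    rw [← h2, ← h1]
    linarith

end Pool.Agent.Lib.MP_d0e829_nt.SS
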