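import Pool.Agent.Lib.MP_d0e829_nt.SS.SpecC2

/-!
# COF: the coefficients of the discriminant cubic
-/

set_option autoImplicit false

open NumberField MvPolynomial

namespace Pool.Agent.Lib.MP_d0e829_nt.SS

open scoped Classical

namespace COFM

theorem comb12 : ∀ a b c i j : Fin 4, i ≠ j →
    (if ((∀ t : Fin 4, (if a = t then 1 else 0) + (if b = t then 1 else 0) +
        (if c = t then 1 else 0) = (if i = t then 1 else 0) + (if j = t then 2 else 0)) : Prop)
      then (1 : ℕ) else 0) =
    (if a = i ∧ b = j ∧ c = j then 1 else 0) + (if a = j ∧ b = i ∧ c = j then 1 else 0) +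
      (if a = j ∧ b = j ∧ c = i then 1 else 0) := by
  decide +kernel

theorem comb111 : ∀ a b c i j l : Fin 4, i ≠ j → i ≠ l → j ≠ l →
    (if ((∀ t : Fin 4, (if a = t then 1 else 0) + (if b = t then 1 else 0) +
        (if c = t then 1 else 0) = (if i = t then 1 else 0) + (if j = t then 1 else 0) +
        (if l = t then 1 else 0)) : Prop)
      then (1 : ℕ) else 0) =
    (if a = i ∧ b = j ∧ c = l then 1 else 0) + (if a = i ∧ b = l ∧ c = j then 1 else 0) +
      (if a = j ∧ b = i ∧ c = l then 1 else 0) + (if a = j ∧ b = l ∧ c = i then 1 else 0) +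
      (if a = l ∧ b = i ∧ c = j then 1 else 0) + (if a = l ∧ b = j ∧ c = i then 1 else 0) := by
  decide +kernel

variable {k : Type} [Field k]

theorem coeff_lin3 (α β γ : Fin 4 → k) (m : Fin 4 →₀ ℕ) :
    (lin α * lin β * lin γ).coeff m = ∑ a, ∑ b, ∑ c, (α a * β b * γ c) *
      (((if ((∀ t : Fin 4, (if a = t then 1 else 0) + (if b = t then 1 else 0) +
        (if c = t then 1 else 0) = m t) : Prop) then (1 : ℕ) else 0) : ℕ) : k) := by
  have h1 : lin α * lin β * lin γ = ∑ a, ∑ b, ∑ c, monomial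
      (Finsupp.single a 1 + Finsupp.single b 1 + Finsupp.single c 1) (α a * β b * γ c) := by
    unfold lin
    rw [Finset.sum_mul_sum, Finset.sum_mul]
    refine Finset.sum_congr rfl fun a _ => ?_
    rw [Finset.sum_mul]
    refine Finset.sum_congr rfl fun b _ => ?_
    rw [Finset.mul_sum]
    refine Finset.sum_congr rfl fun c _ => ?_
    rw [C_mul_X_eq_monomial, C_mul_X_eq_monomial, C_mul_X_eq_monomial, monomial_mul, monomial_mul]
  rw [h1]
  simp only [coeff_sum]
  refine Finset.sum_congr rfl fun a _ => Finset.sum_congr rfl fun b _ =>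
    Finset.sum_congr rfl fun c _ => ?_
  rw [coeff_monomial]
  have h2 : (Finsupp.single a 1 + Finsupp.single b 1 + Finsupp.single c 1 = m) ↔
      (∀ t : Fin 4, (if a = t then 1 else 0) + (if b = t then 1 else 0) +
        (if c = t then 1 else 0) = m t) := by
    rw [Finsupp.ext_iff]
    refine forall_congr' fun t => ?_
    simp [Finsupp.single_apply]
  by_cases h : (Finsupp.single a 1 + Finsupp.single b 1 + Finsupp.single c 1 = m)
  · rw [if_pos h, if_pos (h2.1 h)]
    simp
  · rw [if_neg h, if_neg (fun h' => h (h2.2 h'))]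
    simp

theorem ind3 (α β γ : Fin 4 → k) (x y z : Fin 4) :
    ∑ a, ∑ b, ∑ c, (α a * β b * γ c) * (((if a = x ∧ b = y ∧ c = z then 1 else 0 : ℕ)) : k) =
      α x * β y * γ z := by
  simp only [ite_and, Nat.cast_ite, Nat.cast_one, Nat.cast_zero, mul_ite, mul_one, mul_zero]
  simp

theorem coeff12 (α β γ : Fin 4 → k) (i j : Fin 4) (h : i ≠ j) :
    (lin α * lin β * lin γ).coeff (Finsupp.single i 1 + Finsupp.single j 2) = c12 α β γ i j := by
  rw [coeff_lin3]
  have h1 : ∀ a b c : Fin 4,
      ((if ((∀ t : Fin 4, (if a = t then 1 else 0) + (if b = t then 1 else 0) +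
        (if c = t then 1 else 0) = (Finsupp.single i 1 + Finsupp.single j 2 : Fin 4 →₀ ℕ) t) : Prop)
        then (1 : ℕ) else 0) : ℕ) =
      (if a = i ∧ b = j ∧ c = j then 1 else 0) + (if a = j ∧ b = i ∧ c = j then 1 else 0) +
      (if a = j ∧ b = j ∧ c = i then 1 else 0) := by
    intro a b c
    rw [← comb12 a b c i j h]
    congr 1
    simp only [Finsupp.add_apply, Finsupp.single_apply]
  simp only [h1, Nat.cast_add, mul_add, Finset.sum_add_distrib, ind3]
  rfl

theorem coeff111 (α β γ : Fin 4 → k) (i j l : Fin 4) (h : i ≠ j) (h' : i ≠ l) (h'' : j ≠ l) :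
    (lin α * lin β * lin γ).coeff
      (Finsupp.single i 1 + Finsupp.single j 1 + Finsupp.single l 1) = c111 α β γ i j l := by
  rw [coeff_lin3]
  have h1 : ∀ a b c : Fin 4,
      ((if ((∀ t : Fin 4, (if a = t then 1 else 0) + (if b = t then 1 else 0) +
        (if c = t then 1 else 0) =
        (Finsupp.single i 1 + Finsupp.single j 1 + Finsupp.single l 1 : Fin 4 →₀ ℕ) t) : Prop)
        then (1 : ℕ) else 0) : ℕ) =
      (if a = i ∧ b = j ∧ c = l then 1 else 0) + (if a = i ∧ b = l ∧ c = j then 1 else 0) +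
      (if a = j ∧ b = i ∧ c = l then 1 else 0) + (if a = j ∧ b = l ∧ c = i then 1 else 0) +
      (if a = l ∧ b = i ∧ c = j then 1 else 0) + (if a = l ∧ b = j ∧ c = i then 1 else 0) := by
    intro a b c
    rw [← comb111 a b c i j l h h' h'']
    congr 1
    simp only [Finsupp.add_apply, Finsupp.single_apply]
  simp only [h1, Nat.cast_add, mul_add, Finset.sum_add_distrib, ind3]
  rfl

theorem lin_hom (c : Fin 4 → k) : (lin c).IsHomogeneous 1 := by
  unfold lin
  exact IsHomogeneous.sum _ _ _ fun j _ => isHomogeneous_C_mul_X _ _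

theorem lin3_hom (α β γ : Fin 4 → k) : (lin α * lin β * lin γ).IsHomogeneous 3 :=
  ((lin_hom α).mul (lin_hom β)).mul (lin_hom γ)

theorem Dl_eq (N : Fin 6 → Fin 4 → k) : Dl N = C 4 * (lin (N 0) * lin (N 1) * lin (N 2)) +
    lin (N 3) * lin (N 4) * lin (N 5) - lin (N 0) * lin (N 3) * lin (N 3) -
    lin (N 1) * lin (N 4) * lin (N 4) - lin (N 2) * lin (N 5) * lin (N 5) := by
  have h : (C (4 : k) : MvPolynomial (Fin 4) k) = 4 := map_ofNat C 4
  rw [h]
  unfold Dl dlt
  ring

end COFM

open COFM in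
theorem specCOF : SpecCOF := by
  intro k _ N
  refine ⟨fun i j h => ?_, fun i j l h h' h'' => ?_, ?_⟩
  · rw [Dl_eq]
    simp only [coeff_add, coeff_sub, coeff_C_mul, coeff12 _ _ _ i j h]
  · rw [Dl_eq]
    simp only [coeff_add, coeff_sub, coeff_C_mul, coeff111 _ _ _ i j l h h' h'']
  · rw [Dl_eq]
    have h4 : (C 4 * (lin (N 0) * lin (N 1) * lin (N 2))).IsHomogeneous 3 := by
      have := (isHomogeneous_C (Fin 4) (4 : k)).mul (lin3_hom (N 0) (N 1) (N 2))
      simpa using this
    exact (((h4.add (lin3_hom _ _ _)).sub (lin3_hom _ _ _)).sub (lin3_hom _ _ _)).sub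
      (lin3_hom _ _ _)

end Pool.Agent.Lib.MP_d0e829_nt.SS
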