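import Pool.Agent.Lib.MP_d0e829_nt.SS.SpecG

/-!
# Part C, module DEL: `dlt` does not vanish on `W`
-/

set_option autoImplicit false

open NumberField

namespace Pool.Agent.Lib.MP_d0e829_nt.SS

open scoped Classical

namespace DELM

variable {k : Type} [Field k]

/-- the symmetric matrix -/
def MM (w : Fin 6 → k) : Matrix (Fin 3) (Fin 3) k :=
  !![2 * w 0, w 5, w 4; w 5, 2 * w 1, w 3; w 4, w 3, 2 * w 2]

lemma det_MM (w : Fin 6 → k) : (MM w).det = 2 * dlt w := by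
  unfold MM dlt
  rw [Matrix.det_fin_three]
  simp only [Matrix.of_apply, Matrix.cons_val', Matrix.cons_val]
  ring

lemma mix_dot (c d : Fin 3 → k) (w : Fin 6 → k) : mix c d ⬝ᵥ w = c ⬝ᵥ (MM w).mulVec d := by
  unfold mix MM Matrix.mulVec dotProduct
  rw [Fin.sum_univ_six, Fin.sum_univ_three]
  simp only [Fin.sum_univ_three, Matrix.of_apply, Matrix.cons_val', Matrix.cons_val]
  ring

lemma two_sqv_dot (c : Fin 3 → k) (w : Fin 6 → k) : 2 * (sqv c ⬝ᵥ w) = mix c c ⬝ᵥ w := by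
  unfold mix sqv dotProduct
  rw [Fin.sum_univ_six, Fin.sum_univ_six]
  simp only [Matrix.cons_val]
  ring

lemma mix_comm' (c d : Fin 3 → k) (w : Fin 6 → k) : mix c d ⬝ᵥ w = mix d c ⬝ᵥ w := by
  unfold mix dotProduct
  rw [Fin.sum_univ_six, Fin.sum_univ_six]
  simp only [Matrix.cons_val]
  ring

lemma mix_lin (x y z : k) (c d l e : Fin 3 → k) (w : Fin 6 → k) :
    mix (x • c + y • d + z • l) e ⬝ᵥ w =
      x * (mix c e ⬝ᵥ w) + y * (mix d e ⬝ᵥ w) + z * (mix l e ⬝ᵥ w) := by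
  unfold mix dotProduct
  rw [Fin.sum_univ_six, Fin.sum_univ_six, Fin.sum_univ_six, Fin.sum_univ_six]
  simp only [Matrix.cons_val, Pi.add_apply, Pi.smul_apply, smul_eq_mul]
  ring

end DELM

open DELM in
theorem specDEL (hALG : SpecALG) (hGRM : SpecGRM) : SpecDEL := by
  intro k _ _ W hW hW2
  by_contra hcon
  push Not at hcon
  obtain ⟨w₀, hw₀, c, d, hcd⟩ := hGRM k W hW
  have hdet : (MM w₀).det = 0 := by rw [det_MM, hcon w₀ hw₀, mul_zero]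
  obtain ⟨l, hl0, hl⟩ := Matrix.exists_mulVec_eq_zero_iff.2 hdet
  have hBl : ∀ e : Fin 3 → k, mix e l ⬝ᵥ w₀ = 0 := by
    intro e
    rw [mix_dot, hl, dotProduct_zero]
  have hBl' : ∀ e : Fin 3 → k, mix l e ⬝ᵥ w₀ = 0 := fun e => by rw [mix_comm', hBl]
  have h2 : (2 : k) ≠ 0 := two_ne_zero
  have hQl : sqv l ⬝ᵥ w₀ = 0 := by
    have h := two_sqv_dot l w₀
    rw [hBl] at h
    exact (mul_eq_zero.1 h).resolve_left h2
  set B : Matrix (Fin 3) (Fin 3) k := Matrix.of ![c, d, l] with hB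
  have hB0 : B 0 = c := rfl
  have hB1 : B 1 = d := rfl
  have hB2 : B 2 = l := rfl
  have hBdet : B.det ≠ 0 := by
    intro h0
    obtain ⟨v, hv0, hv⟩ := Matrix.exists_vecMul_eq_zero_iff.2 h0
    have hv' : v 0 • c + v 1 • d + v 2 • l = 0 := by
      rw [← hv]
      funext i
      simp only [Matrix.vecMul, dotProduct, Fin.sum_univ_three, Pi.add_apply, Pi.smul_apply, smul_eq_mul,
        hB0, hB1, hB2]
    have hz : ∀ e : Fin 3 → k, mix (0 : Fin 3 → k) e ⬝ᵥ w₀ = 0 := by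
      intro e
      have := mix_lin (0 : k) 0 0 c d l e w₀
      simpa using this
    have e1 := mix_lin (v 0) (v 1) (v 2) c d l c w₀
    have e2 := mix_lin (v 0) (v 1) (v 2) c d l d w₀
    rw [hv', hz, hBl' c, mul_zero, add_zero, ← two_sqv_dot c, mix_comm' d c] at e1
    rw [hv', hz, hBl' d, mul_zero, add_zero, ← two_sqv_dot d] at e2
    have hne : (mix c d ⬝ᵥ w₀) ^ 2 - 4 * (sqv c ⬝ᵥ w₀) * (sqv d ⬝ᵥ w₀) ≠ 0 := sub_ne_zero.2 hcd
    have hx : v 0 = 0 := by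
      have : v 0 * ((mix c d ⬝ᵥ w₀) ^ 2 - 4 * (sqv c ⬝ᵥ w₀) * (sqv d ⬝ᵥ w₀)) = 0 := by
        linear_combination (2 * (sqv d ⬝ᵥ w₀)) * e1 - (mix c d ⬝ᵥ w₀) * e2
      exact (mul_eq_zero.1 this).resolve_right hne
    have hy : v 1 = 0 := by
      have : v 1 * ((mix c d ⬝ᵥ w₀) ^ 2 - 4 * (sqv c ⬝ᵥ w₀) * (sqv d ⬝ᵥ w₀)) = 0 := by
        linear_combination (2 * (sqv c ⬝ᵥ w₀)) * e2 - (mix c d ⬝ᵥ w₀) * e1
      exact (mul_eq_zero.1 this).resolve_right hne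
    have hz2 : v 2 = 0 := by
      rw [hx, hy, zero_smul, zero_smul, zero_add, zero_add] at hv'
      exact (smul_eq_zero.1 hv').resolve_right hl0
    apply hv0
    funext i
    fin_cases i
    · exact hx
    · exact hy
    · exact hz2
  obtain ⟨w, hw, hwl⟩ := hW2 l hl0
  have hA : ∀ w' : Fin 6 → k, dlt ((S2 B).mulVec w') = B.det ^ 2 * dlt w' :=
    fun w' => (hALG k B 1 w' 0 0 0 0).1
  have hS : ∀ w' : Fin 6 → k, (S2 B).mulVec w' = ![sqv c ⬝ᵥ w', sqv d ⬝ᵥ w', sqv l ⬝ᵥ w',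
      mix d l ⬝ᵥ w', mix c l ⬝ᵥ w', mix c d ⬝ᵥ w'] := by
    intro w'
    funext i
    fin_cases i <;> rfl
  have e0 := hA w
  rw [hcon w hw, mul_zero] at e0
  have e1 := hA (w₀ + w)
  rw [hcon _ (W.add_mem hw₀ hw), mul_zero] at e1
  have e2 := hA (w₀ - w)
  rw [hcon _ (W.sub_mem hw₀ hw), mul_zero] at e2
  rw [Matrix.mulVec_add, hS w₀, hS w] at e1
  rw [Matrix.mulVec_sub, hS w₀, hS w] at e2
  rw [hS w] at e0
  rw [hQl, hBl, hBl] at e1 e2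
  unfold dlt at e0 e1 e2
  simp only [Pi.add_apply, Pi.sub_apply, Matrix.cons_val] at e0 e1 e2
  have hne : (mix c d ⬝ᵥ w₀) ^ 2 - 4 * (sqv c ⬝ᵥ w₀) * (sqv d ⬝ᵥ w₀) ≠ 0 := sub_ne_zero.2 hcd
  have : 2 * ((sqv l ⬝ᵥ w) * ((mix c d ⬝ᵥ w₀) ^ 2 - 4 * (sqv c ⬝ᵥ w₀) * (sqv d ⬝ᵥ w₀))) = 0 := by
    linear_combination e2 - e1 + 2 * e0
  rcases mul_eq_zero.1 this with h | h
  · exact h2 h
  · rcases mul_eq_zero.1 h with h | h
    · exact hwl h
    · exact hne h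

end Pool.Agent.Lib.MP_d0e829_nt.SS
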