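import Pool.Agent.Lib.MP_d0e829_nt.SS.SpecC1

/-!
# DIC: the dichotomy for four functionals
-/

set_option autoImplicit false
set_option linter.unusedSectionVars false

open NumberField MvPolynomial

namespace Pool.Agent.Lib.MP_d0e829_nt.SS

open scoped Classical

namespace DICM

theorem ev {k : Type} [Field k] {Ω ι : Type} [Fintype ι] (f : Ω → ι → k) (A : Set Ω)
    (P : MvPolynomial ι k) (ω : A) : evA f A P ω = eval (f ω) P := by
  unfold evA
  have h : ((Pi.evalAlgHom k (fun _ : A => k) ω).comp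
      (aeval (fun i (ω : A) => f ω i))) P = aeval (fun i => f ω i) P := by
    congr 1
    ext i
    simp
  simpa [MvPolynomial.aeval_eq_eval] using h

theorem evz {k : Type} [Field k] {Ω ι : Type} [Fintype ι] (f : Ω → ι → k) (A : Set Ω)
    (P : MvPolynomial ι k) : evA f A P = 0 ↔ ∀ ω ∈ A, eval (f ω) P = 0 := by
  constructor
  · intro h ω hω
    have := congrFun h ⟨ω, hω⟩
    rw [ev] at this
    exact this
  · intro h
    funext ω
    rw [ev]
    exact h ω.1 ω.2

theorem fin10 (k : Type) [Field k] : Module.finrank k (homogeneousSubmodule (Fin 4) k 2) = 10 := by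
  have hs : {d : Fin 4 →₀ ℕ | d.degree = 2} =
      ((Finset.univ.finsuppAntidiag 2 : Finset (Fin 4 →₀ ℕ)) : Set (Fin 4 →₀ ℕ)) := by
    ext d
    simp [Finset.mem_finsuppAntidiag, Finsupp.degree_eq_sum]
  rw [homogeneousSubmodule_eq_finsupp_supported, hs]
  rw [(AddMonoidAlgebra.supportedEquivFinsupp (R := k) (S := k)
    ((Finset.univ.finsuppAntidiag 2 : Finset (Fin 4 →₀ ℕ)) : Set (Fin 4 →₀ ℕ))).finrank_eq]
  rw [Module.finrank_finsupp_self]
  have h1 : Fintype.card ((Finset.univ.finsuppAntidiag 2 : Finset (Fin 4 →₀ ℕ)) :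
      Set (Fin 4 →₀ ℕ)) = (Finset.univ.finsuppAntidiag 2 : Finset (Fin 4 →₀ ℕ)).card := by
    rw [← Set.toFinset_card]
    congr 1
  rw [h1, Finset.card_finsuppAntidiag_nat_eq_choose]
  decide

/-- degrees of divisors -/
theorem divdeg {k : Type} [Field k] {M g n : ℕ} {G P : MvPolynomial (Fin M) k}
    (hG : G.IsHomogeneous g) (hP : P.IsHomogeneous n) (hP0 : P ≠ 0) (h : G ∣ P) : g ≤ n := by
  obtain ⟨H, rfl⟩ := h
  have hG0 : G ≠ 0 := left_ne_zero_of_mul hP0
  have hH0 : H ≠ 0 := right_ne_zero_of_mul hP0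
  have h1 := totalDegree_mul_of_isDomain hG0 hH0
  rw [hP.totalDegree hP0, hG.totalDegree hG0] at h1
  omega

/-- same degree: scalar multiple -/
theorem samedeg {k : Type} [Field k] {M g : ℕ} {G P : MvPolynomial (Fin M) k}
    (hG : G.IsHomogeneous g) (hP : P.IsHomogeneous g) (h : G ∣ P) : ∃ c : k, P = c • G := by
  by_cases hP0 : P = 0
  · exact ⟨0, by rw [hP0, zero_smul]⟩
  obtain ⟨H, rfl⟩ := h
  have hG0 : G ≠ 0 := left_ne_zero_of_mul hP0
  have hH0 : H ≠ 0 := right_ne_zero_of_mul hP0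
  have h1 := totalDegree_mul_of_isDomain hG0 hH0
  rw [hP.totalDegree hP0, hG.totalDegree hG0] at h1
  have h2 : H.totalDegree = 0 := by omega
  rw [totalDegree_eq_zero_iff_eq_C] at h2
  refine ⟨coeff 0 H, ?_⟩
  conv_lhs => rw [h2]
  rw [mul_comm, smul_eq_C_mul]

theorem linform {k : Type} [Field k] (G : MvPolynomial (Fin 4) k) (hG : G.IsHomogeneous 1) :
    ∃ b : Fin 4 → k, G = ∑ j, b j • X j := by
  have h : G ∈ homogeneousSubmodule (Fin 4) k 1 := hG
  rw [homogeneousSubmodule_one_eq_span_X] at h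
  rw [Submodule.mem_span_range_iff_exists_fun] at h
  obtain ⟨b, hb⟩ := h
  exact ⟨b, hb.symm⟩

theorem count {k : Type} [Field k] {V : Type} [AddCommGroup V] [Module k V]
    (φ : MvPolynomial (Fin 4) k →ₗ[k] V) (g : ℕ) (G : MvPolynomial (Fin 4) k)
    (hG : G.IsHomogeneous g) (hG0 : G ≠ 0) (hg : 2 ≤ g) (hg3 : g ≤ 3)
    (hk : ∀ Q : MvPolynomial (Fin 4) k, Q.IsHomogeneous 2 → (φ Q = 0 ↔ G ∣ Q)) :
    Module.finrank k ((homogeneousSubmodule (Fin 4) k 2).map φ) = 7 + g := by
  have : Module.Finite k (homogeneousSubmodule (Fin 4) k 2) :=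
    Module.Finite.iff_fg.mpr (homogeneousSubmodule_fg (Fin 4) k 2)
  have h1 := (φ.domRestrict (homogeneousSubmodule (Fin 4) k 2)).finrank_range_add_finrank_ker
  rw [LinearMap.range_domRestrict, fin10] at h1
  have hker : Module.finrank k
      (LinearMap.ker (φ.domRestrict (homogeneousSubmodule (Fin 4) k 2))) = 3 - g := by
    rcases (show g = 2 ∨ g = 3 by omega) with h | h
    · subst h
      have hh : LinearMap.ker (φ.domRestrict (homogeneousSubmodule (Fin 4) k 2)) =
          Submodule.span k {(⟨G, hG⟩ : homogeneousSubmodule (Fin 4) k 2)} := by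
        ext Q
        rw [LinearMap.mem_ker, Submodule.mem_span_singleton]
        rw [LinearMap.domRestrict_apply, hk Q.1 Q.2]
        constructor
        · intro hd
          obtain ⟨c, hc⟩ := samedeg hG Q.2 hd
          exact ⟨c, Subtype.ext hc.symm⟩
        · rintro ⟨c, rfl⟩
          show G ∣ c • G
          rw [smul_eq_C_mul]
          exact dvd_mul_left _ _
      rw [hh, finrank_span_singleton]
      intro h0
      exact hG0 (congrArg Subtype.val h0)
    · subst h
      have hh : LinearMap.ker (φ.domRestrict (homogeneousSubmodule (Fin 4) k 2)) = ⊥ := by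
        rw [LinearMap.ker_eq_bot']
        intro Q hQ
        rw [LinearMap.domRestrict_apply, hk Q.1 Q.2] at hQ
        by_contra h0
        have := divdeg hG Q.2 (fun h => h0 (Subtype.ext h)) hQ
        omega
      rw [hh, finrank_bot]
  omega

end DICM

open DICM in
theorem specDIC (hHFA : SpecHFA) (hTWO : SpecTWO) (hPAR : SpecPAR) : SpecDIC := by
  intro k _ Ω M f Sm hSm A hA y hSpn hInd P hP hP0 hPA
  obtain ⟨-, -, hp3, hp4⟩ := hPAR k Ω M 4 f A y
  have hgen := hp3 Sm hA
  have hFS := hp4 hSpn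
  obtain ⟨g, G, hG, hirr, hdvd, hGA⟩ := hHFA k Ω 4 (fun ω j => y j ⬝ᵥ f ω) Sm hSm A hgen 3 P hP hP0 hPA
  have hG0 : G ≠ 0 := hirr.ne_zero
  have hg3 : g ≤ 3 := divdeg hG hP hP0 hdvd
  have hg2 : 2 ≤ g := by
    by_contra hlt
    rcases (show g = 0 ∨ g = 1 by omega) with h | h
    · subst h
      have h2 : G.totalDegree = 0 := hG.totalDegree hG0
      rw [totalDegree_eq_zero_iff_eq_C] at h2
      apply hirr.not_isUnit
      rw [h2]
      refine IsUnit.map C (IsUnit.mk0 _ ?_)
      intro h0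
      rw [h0, C_0] at h2
      exact hG0 h2
    · subst h
      obtain ⟨b, hb⟩ := linform G hG
      have hb0 : b = 0 := by
        apply hInd b
        intro ω hω
        have := hGA ω hω
        rw [hb] at this
        simpa [smul_eq_C_mul] using this
      apply hG0
      rw [hb, hb0]
      simp
  by_cases hQ : ∃ (d : ℕ) (Q : MvPolynomial (Fin 4) k), Q.IsHomogeneous d ∧
      (∀ ω ∈ A, eval (fun j => y j ⬝ᵥ f ω) Q = 0) ∧ ¬ G ∣ Q
  · left
    obtain ⟨d, Q, hQd, hQA, hnd⟩ := hQ
    obtain ⟨D, hD⟩ := hTWO k g d G Q hG hQd hirr hnd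
    refine ⟨D, fun m hm => ?_⟩
    have h1 := hD m hm (A → k) (evA (fun ω j => y j ⬝ᵥ f ω) A).toLinearMap ?_
    · rw [← hFS m]
      exact h1
    · intro R
      constructor
      · rw [AlgHom.toLinearMap_apply, evz]
        intro ω hω
        rw [map_mul, hGA ω hω, zero_mul]
      · rw [AlgHom.toLinearMap_apply, evz]
        intro ω hω
        rw [map_mul, hQA ω hω, zero_mul]
  · right
    push Not at hQ
    have hiff : ∀ (m : ℕ) (Q : MvPolynomial (Fin 4) k), Q.IsHomogeneous m →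
        ((∀ ω ∈ A, eval (fun j => y j ⬝ᵥ f ω) Q = 0) ↔ G ∣ Q) := by
      intro m Q hm
      constructor
      · intro h
        exact hQ m Q hm h
      · rintro ⟨R, rfl⟩ ω hω
        rw [map_mul, hGA ω hω, zero_mul]
    refine ⟨g, G, hg2, hG, hirr, hdvd, ?_, hiff⟩
    rw [← hFS 2]
    apply count _ g G hG hG0 hg2 hg3
    intro Q hQ2
    rw [AlgHom.toLinearMap_apply, evz, hiff 2 Q hQ2]

end Pool.Agent.Lib.MP_d0e829_nt.SS
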