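import Pool.Agent.Lib.MP_d0e829_nt.SS.SpecC3

/-!
# DIS: three or more functionals vanish
-/

set_option autoImplicit false

open NumberField MvPolynomial

namespace Pool.Agent.Lib.MP_d0e829_nt.SS

open scoped Classical

namespace DISM

/-- generators of a quotient of small dimension -/
lemma gens {k : Type} [Field k] (U : Submodule k (Fin 6 → k)) (n : ℕ)
    (h : Module.finrank k ((Fin 6 → k) ⧸ U) ≤ n) :
    ∃ (y : Fin n → Fin 6 → k) (N : Fin 6 → Fin n → k),
      ∀ i, Pi.single i (1 : k) - ∑ j, N i j • y j ∈ U := by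
  set b := Module.finBasis k ((Fin 6 → k) ⧸ U) with hb
  obtain ⟨y, hy⟩ : ∃ y : Fin n → Fin 6 → k, ∀ i : Fin (Module.finrank k ((Fin 6 → k) ⧸ U)),
      U.mkQ (y (Fin.castLE h i)) = b i := by
    have hs : ∀ q : (Fin 6 → k) ⧸ U, ∃ v : Fin 6 → k, U.mkQ v = q := U.mkQ_surjective
    choose g hg using hs
    refine ⟨fun j => if hj : (j : ℕ) < Module.finrank k ((Fin 6 → k) ⧸ U) then
      g (b ⟨j, hj⟩) else 0, fun i => ?_⟩
    have hi : ((Fin.castLE h i : Fin n) : ℕ) < Module.finrank k ((Fin 6 → k) ⧸ U) := i.2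
    change U.mkQ (if hj : ((Fin.castLE h i : Fin n) : ℕ) < Module.finrank k ((Fin 6 → k) ⧸ U) then
      g (b ⟨(Fin.castLE h i : Fin n), hj⟩) else 0) = b i
    rw [dif_pos hi, hg]
    rfl
  have hspan : Submodule.span k (Set.range fun j => U.mkQ (y j)) = ⊤ := by
    rw [eq_top_iff, ← b.span_eq]
    apply Submodule.span_mono
    rintro _ ⟨i, rfl⟩
    exact ⟨Fin.castLE h i, hy i⟩
  have hc : ∀ i : Fin 6, ∃ c : Fin n → k, ∑ j, c j • U.mkQ (y j) = U.mkQ (Pi.single i (1 : k)) := by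
    intro i
    have h1 : U.mkQ (Pi.single i (1 : k)) ∈ Submodule.span k (Set.range fun j => U.mkQ (y j)) := by
      rw [hspan]; trivial
    exact (Submodule.mem_span_range_iff_exists_fun k).1 h1
  choose N hN using hc
  refine ⟨y, N, fun i => ?_⟩
  rw [← Submodule.ker_mkQ U, LinearMap.mem_ker, map_sub, map_sum]
  simp_rw [map_smul]
  rw [hN, sub_self]

lemma coord {k : Type} [Field k] {n : ℕ} {y : Fin n → Fin 6 → k} {N : Fin 6 → Fin n → k}
    {i : Fin 6} {w : Fin 6 → k}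
    (h : (Pi.single i (1 : k) - ∑ j, N i j • y j) ⬝ᵥ w = 0) :
    w i = ∑ j, N i j * (y j ⬝ᵥ w) := by
  rw [sub_dotProduct, single_dotProduct, one_mul, sub_eq_zero] at h
  rw [h, sum_dotProduct]
  apply Finset.sum_congr rfl
  intro j _
  rw [smul_dotProduct, smul_eq_mul]

lemma eval_lin {k : Type} [Field k] {n : ℕ} (c x : Fin n → k) :
    eval x (lin c) = ∑ j, c j * x j := by
  unfold lin
  rw [map_sum]
  simp

lemma eval_Dl {k : Type} [Field k] {n : ℕ} (N : Fin 6 → Fin n → k) (x : Fin n → k) :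
    eval x (Dl N) = dlt fun i => ∑ j, N i j * x j := by
  unfold Dl dlt
  simp only [map_sub, map_add, map_mul, map_pow, eval_lin, map_ofNat]

lemma hom_lin {k : Type} [Field k] {n : ℕ} (c : Fin n → k) : (lin c).IsHomogeneous 1 := by
  unfold lin
  apply IsHomogeneous.sum
  intro j _
  have h := (isHomogeneous_C (Fin n) (c j)).mul (isHomogeneous_X k j)
  rwa [zero_add] at h

lemma hom_Dl {k : Type} [Field k] {n : ℕ} (N : Fin 6 → Fin n → k) : (Dl N).IsHomogeneous 3 := by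
  have h := fun i => hom_lin (N i)
  have h4 : ((4 : MvPolynomial (Fin n) k)).IsHomogeneous 0 := by
    have := isHomogeneous_C (Fin n) (4 : k)
    rwa [map_ofNat] at this
  have e1 : (4 * lin (N 0) * lin (N 1) * lin (N 2)).IsHomogeneous 3 :=
    ((h4.mul (h 0)).mul (h 1)).mul (h 2)
  have e2 : (lin (N 3) * lin (N 4) * lin (N 5)).IsHomogeneous 3 := ((h 3).mul (h 4)).mul (h 5)
  have e3 : (lin (N 0) * lin (N 3) ^ 2).IsHomogeneous 3 := (h 0).mul ((h 3).pow 2)
  have e4 : (lin (N 1) * lin (N 4) ^ 2).IsHomogeneous 3 := (h 1).mul ((h 4).pow 2)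
  have e5 : (lin (N 2) * lin (N 5) ^ 2).IsHomogeneous 3 := (h 2).mul ((h 5).pow 2)
  unfold Dl dlt
  exact (((e1.add e2).sub e3).sub e4).sub e5

lemma spn {k : Type} [Field k] {Ω : Type} {f : Ω → Fin 6 → k} {A : Set Ω} {n : ℕ}
    {y : Fin n → Fin 6 → k} {N : Fin 6 → Fin n → k}
    (h : ∀ i, Pi.single i (1 : k) - ∑ j, N i j • y j ∈ UU f A) : Spn f A y := by
  intro c
  refine ⟨fun j => ∑ i, c i * N i j, fun ω hω => ?_⟩
  have h1 : ∀ i, f ω i = ∑ j, N i j * (y j ⬝ᵥ f ω) := fun i => coord ((h i) ω hω)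
  calc c ⬝ᵥ f ω = ∑ i, c i * f ω i := rfl
    _ = ∑ i, ∑ j, c i * N i j * (y j ⬝ᵥ f ω) := by
        apply Finset.sum_congr rfl
        intro i _
        rw [h1 i, Finset.mul_sum]
        apply Finset.sum_congr rfl
        intro j _
        ring
    _ = ∑ j, ∑ i, c i * N i j * (y j ⬝ᵥ f ω) := Finset.sum_comm
    _ = ∑ j, (∑ i, c i * N i j) * (y j ⬝ᵥ f ω) := by
        apply Finset.sum_congr rfl
        intro j _
        rw [Finset.sum_mul]

end DISM

open DISM in
theorem specDIS (hDM2 : SpecDM2) (hDM3 : SpecDM3) : SpecDIS := by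
  intro k _ Ω f A hU hf hw
  set U := UU f A with hUdef
  have hq : Module.finrank k ((Fin 6 → k) ⧸ U) + Module.finrank k U = 6 := by
    have h1 := Submodule.finrank_quotient_add_finrank U
    rwa [Module.finrank_fin_fun] at h1
  have hmem : ∀ c ∈ U, ∀ ω ∈ A, c ⬝ᵥ f ω = 0 := fun c hc => hc
  by_cases h4 : 4 ≤ Module.finrank k U
  · obtain ⟨y, N, hN⟩ := gens U 2 (by omega)
    refine ⟨2, fun m hm => ?_⟩
    have h1 := hDM2 k Ω 6 f A y (spn hN) m
    have h2 : Module.finrank k (FS f A m) ≤ 2 * m := by omega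
    exact_mod_cast h2
  · obtain ⟨y, N, hN⟩ := gens U 3 (by omega)
    obtain ⟨w, hw1, hw2⟩ := hw (by omega)
    refine ⟨3, fun m hm => ?_⟩
    have h1 := hDM3 k Ω 6 f A y (spn hN) (Dl N) (hom_Dl N) (by
      intro h0
      apply hw2
      have h2 := eval_Dl N (fun j => y j ⬝ᵥ w)
      rw [h0, map_zero] at h2
      have h3 : (fun i => ∑ j, N i j * (y j ⬝ᵥ w)) = w := by
        funext i
        exact (coord (hw1 _ (hN i))).symm
      rw [h3] at h2
      exact h2.symm) (by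
      intro ω hω
      rw [eval_Dl]
      have h3 : (fun i => ∑ j, N i j * (y j ⬝ᵥ f ω)) = f ω := by
        funext i
        exact (coord (hmem _ (hN i) ω hω)).symm
      rw [h3]
      exact hf ω hω) m hm
    exact_mod_cast h1

end Pool.Agent.Lib.MP_d0e829_nt.SS
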