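import Pool.Agent.Lib.MP_d0e829_nt.SS.SpecC1

/-!
# SS, module DM2: the dimension of the functions of degree `m` if two functionals span
-/

set_option autoImplicit false

open NumberField MvPolynomial

namespace Pool.Agent.Lib.MP_d0e829_nt.SS

namespace DM2M

theorem mono_eq {k : Type} [Field k] {s : Fin 2 →₀ ℕ} {m : ℕ} (hdeg : s 0 + s 1 = m) (c : k) :
    monomial s c = C c * (X 0 ^ (s 0) * X 1 ^ (m - s 0)) := by
  rw [monomial_eq, Finsupp.prod_fintype _ _ (fun i => pow_zero _), Fin.prod_univ_two,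
    show m - s 0 = s 1 by omega]

theorem deg_eq {k : Type} [Field k] {P : MvPolynomial (Fin 2) k} {m : ℕ}
    (hP : P.IsHomogeneous m) {s : Fin 2 →₀ ℕ} (hs : s ∈ P.support) : s 0 + s 1 = m := by
  have h1 : s.degree = m := by
    by_contra hne
    exact (mem_support_iff.1 hs) (hP.coeff_eq_zero hne)
  rw [Finsupp.degree_eq_sum, Fin.sum_univ_two] at h1
  exact h1

/-- the functions given by the monomials of degree `m` in two variables -/
noncomputable def bs {k : Type} [Field k] {Ω : Type} (A : Set Ω) (g : Ω → Fin 2 → k) (m : ℕ)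
    (i : Fin (m + 1)) : A → k :=
  evA g A ((X 0 : MvPolynomial (Fin 2) k) ^ (i : ℕ) * X 1 ^ (m - (i : ℕ)))

theorem ev_mono {k : Type} [Field k] {Ω : Type} (A : Set Ω) (g : Ω → Fin 2 → k) {m : ℕ}
    {s : Fin 2 →₀ ℕ} (hdeg : s 0 + s 1 = m) (c : k) :
    evA g A (monomial s c) = c • bs A g m ⟨s 0, by omega⟩ := by
  rw [mono_eq hdeg c, bs, map_mul, ← algebraMap_eq, AlgHom.commutes, Algebra.smul_def]

theorem mem_span {k : Type} [Field k] {Ω : Type} (A : Set Ω) (g : Ω → Fin 2 → k) {m : ℕ}
    {P : MvPolynomial (Fin 2) k} (hP : P.IsHomogeneous m) :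
    evA g A P ∈ Submodule.span k (Set.range (bs A g m)) := by
  have h1 : evA g A P = ∑ s ∈ P.support, evA g A (monomial s (coeff s P)) := by
    conv_lhs => rw [P.as_sum]
    rw [map_sum]
  rw [h1]
  refine Submodule.sum_mem _ fun s hs => ?_
  rw [ev_mono A g (deg_eq hP hs)]
  exact Submodule.smul_mem _ _ (Submodule.subset_span ⟨_, rfl⟩)

theorem finrank_le {k : Type} [Field k] {V : Type} [AddCommGroup V] [Module k V] {m : ℕ}
    (b : Fin m → V) (F : Submodule k V) (hsub : F ≤ Submodule.span k (Set.range b)) :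
    Module.finrank k F ≤ m := by
  have hfin : Module.Finite k (Submodule.span k (Set.range b)) :=
    FiniteDimensional.span_of_finite k (Set.finite_range b)
  refine (Submodule.finrank_mono hsub).trans ?_
  have h1 := finrank_range_le_card (R := k) b
  rwa [Fintype.card_fin] at h1

theorem fs_le {k : Type} [Field k] {Ω : Type} (A : Set Ω) (g : Ω → Fin 2 → k) (m : ℕ) :
    Module.finrank k (FS g A m) ≤ m + 1 := by
  refine finrank_le (bs A g m) _ ?_
  rintro x ⟨P, hP, rfl⟩
  exact mem_span A g hP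

end DM2M

open DM2M in
theorem specDM2 (hPAR : SpecPAR) : SpecDM2 := by
  intro k _ Ω M f A y hy m
  have h1 := (hPAR k Ω M 2 f A y).2.2.2 hy m
  rw [← h1]
  exact fs_le A _ m

end Pool.Agent.Lib.MP_d0e829_nt.SS
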