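import Pool.Agent.Lib.MP_d0e829_nt.SS.SpecC1

/-!
# Part C1, module DM3: three functionals span and satisfy a cubic relation
-/

set_option autoImplicit false

open MvPolynomial

namespace Pool.Agent.Lib.MP_d0e829_nt.SS

open scoped Classical

namespace DM3M

open Module

variable {k : Type} [Field k]

theorem finrank_hom (n : ℕ) :
    finrank k (homogeneousSubmodule (Fin 3) k n) = (n + 2).choose 2 := by
  have hset : {d : Fin 3 →₀ ℕ | d.degree = n} =
      ((Finset.univ.finsuppAntidiag n : Finset (Fin 3 →₀ ℕ)) : Set (Fin 3 →₀ ℕ)) := by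
    ext d
    simp only [Set.mem_ofPred_eq, Finset.mem_coe, Finset.mem_finsuppAntidiag, Finset.subset_univ,
      and_true]
    rw [Finsupp.degree_eq_sum]
  rw [homogeneousSubmodule_eq_finsupp_supported]
  have e := AddMonoidAlgebra.supportedEquivFinsupp (R := k) (S := k) {d : Fin 3 →₀ ℕ | d.degree = n}
  refine e.finrank_eq.trans ?_
  rw [hset]
  have h1 : finrank k (((Finset.univ.finsuppAntidiag n : Finset (Fin 3 →₀ ℕ)) :
      Set (Fin 3 →₀ ℕ)) →₀ k) = (Finset.univ.finsuppAntidiag n : Finset (Fin 3 →₀ ℕ)).card := by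
    rw [finrank_finsupp_self]
    exact Fintype.card_coe _
  rw [h1, Finset.card_finsuppAntidiag_nat_eq_choose, Finset.card_univ, Fintype.card_fin]
  have h2 : 3 + n - 1 = n + 2 := by omega
  rw [h2, ← Nat.choose_symm_add]

instance fin_hom (a : ℕ) : Module.Finite k (homogeneousSubmodule (Fin 3) k a) :=
  Module.Finite.iff_fg.2 (homogeneousSubmodule_fg (Fin 3) k a)

/-- rank-nullity for a restricted map -/
theorem rn {V W : Type} [AddCommGroup V] [Module k V] [AddCommGroup W] [Module k W]
    (f : V →ₗ[k] W) (K : Submodule k V) [Module.Finite k K] :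
    finrank k (Submodule.map f K) + finrank k (K ⊓ LinearMap.ker f : Submodule k V) =
      finrank k K := by
  have h := LinearMap.finrank_range_add_finrank_ker (f.domRestrict K)
  rw [LinearMap.range_domRestrict] at h
  have h2 : finrank k (LinearMap.ker (f.domRestrict K)) =
      finrank k (K ⊓ LinearMap.ker f : Submodule k V) := by
    have e : Submodule.map K.subtype (LinearMap.ker (f.domRestrict K)) = K ⊓ LinearMap.ker f := by
      ext z
      constructor
      · rintro ⟨y, hy, rfl⟩
        exact ⟨y.2, hy⟩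
      · rintro ⟨h1, h2⟩
        exact ⟨⟨z, h1⟩, h2, rfl⟩
    rw [← e]
    exact (LinearEquiv.finrank_eq (Submodule.equivMapOfInjective _ K.injective_subtype _))
  rw [← h2]
  exact h

lemma chs (n : ℕ) : (n + 3 + 2).choose 2 = 3 * (n + 3) + (n + 2).choose 2 := by
  have h1 : (n + 5).choose 2 = (n + 4) + (n + 4).choose 2 := by
    rw [show n + 5 = (n + 4) + 1 from rfl, Nat.choose_succ_succ' (n + 4) 1, Nat.choose_one_right]
  have h2 : (n + 4).choose 2 = (n + 3) + (n + 3).choose 2 := by
    rw [show n + 4 = (n + 3) + 1 from rfl, Nat.choose_succ_succ' (n + 3) 1, Nat.choose_one_right]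
  have h3 : (n + 3).choose 2 = (n + 2) + (n + 2).choose 2 := by
    rw [show n + 3 = (n + 2) + 1 from rfl, Nat.choose_succ_succ' (n + 2) 1, Nat.choose_one_right]
  have h0 : (n + 3 + 2).choose 2 = (n + 5).choose 2 := rfl
  rw [h0, h1, h2, h3]
  ring

end DM3M

open DM3M Module in
theorem specDM3 (hPAR : SpecPAR) : SpecDM3 := by
  intro k _ Ω M f A y hy P hP hP0 hPA m hm
  have hFS : FS (fun ω j => y j ⬝ᵥ f ω) A m = FS f A m := (hPAR k Ω M 3 f A y).2.2.2 hy m
  rw [← hFS]
  unfold FS
  set E := (evA (fun ω j => y j ⬝ᵥ f ω) A).toLinearMap with hE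
  have h1 := rn E (homogeneousSubmodule (Fin 3) k m)
  rw [finrank_hom] at h1
  rcases Nat.lt_or_ge m 3 with h3 | h3
  · have h4 : m = 1 ∨ m = 2 := by omega
    rcases h4 with rfl | rfl
    · have : (1 + 2).choose 2 = 3 := by decide
      omega
    · have : (2 + 2).choose 2 = 6 := by decide
      omega
  · obtain ⟨n, rfl⟩ : ∃ n, m = n + 3 := ⟨m - 3, by omega⟩
    rw [chs] at h1
    suffices h5 : (n + 2).choose 2 ≤
        finrank k (homogeneousSubmodule (Fin 3) k (n + 3) ⊓ LinearMap.ker E : Submodule k _) by
      omega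
    rw [← finrank_hom (k := k) n]
    haveI : Module.Finite k
        (homogeneousSubmodule (Fin 3) k (n + 3) ⊓ LinearMap.ker E : Submodule k _) :=
      Submodule.finiteDimensional_of_le inf_le_left
    have hmem : ∀ Q ∈ homogeneousSubmodule (Fin 3) k n,
        LinearMap.mulLeft k P Q ∈ (homogeneousSubmodule (Fin 3) k (n + 3) ⊓ LinearMap.ker E :
          Submodule k (MvPolynomial (Fin 3) k)) := by
      intro Q hQ
      rw [mem_homogeneousSubmodule] at hQ
      refine ⟨?_, ?_⟩
      · rw [LinearMap.mulLeft_apply]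
        have := hP.mul hQ
        rw [add_comm] at this
        exact this
      · show E (P * Q) = 0
        rw [hE, AlgHom.toLinearMap_apply, map_mul]
        have h6 : evA (fun ω j => y j ⬝ᵥ f ω) A P = 0 := by
          funext ω
          have h7 := hPA ω.1 ω.2
          unfold evA
          rw [Pi.zero_apply, ← h7]
          have h8 : ∀ R : MvPolynomial (Fin 3) k,
              (aeval (fun (i : Fin 3) (ω : A) => y i ⬝ᵥ f ω) R : A → k) ω =
                eval (fun j => y j ⬝ᵥ f ω) R := by
            intro R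
            have h9 := congrArg (fun g => g R) (MvPolynomial.comp_aeval
              (fun (i : Fin 3) (ω : A) => y i ⬝ᵥ f ω) (Pi.evalAlgHom k (fun _ : A => k) ω))
            simp only [AlgHom.comp_apply, Pi.evalAlgHom_apply] at h9
            rw [h9]
            rfl
          exact h8 P
        rw [h6, zero_mul]
    refine LinearMap.finrank_le_finrank_of_injective (f := (LinearMap.mulLeft k P).restrict hmem) ?_
    intro a b hab
    have h10 : P * (a : MvPolynomial (Fin 3) k) = P * b := congrArg Subtype.val hab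
    exact Subtype.ext (mul_left_cancel₀ hP0 h10)

end Pool.Agent.Lib.MP_d0e829_nt.SS
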