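import Pool.Agent.Lib.MP_d0e829_nt.SS.SpecB

/-!
# Module DUA: the form of the hyperplane spanned by `N - 1` vectors, in the dual system
-/

set_option autoImplicit false

open NumberField

namespace Pool.Agent.Lib.MP_d0e829_nt.SS

open scoped Classical

namespace DUAM

variable {K : Type} [Field K] [NumberField K]

lemma absV_prod {ι : Type} (s : Finset ι) (w : Place K) (f : ι → K) :
    absV w (∏ i ∈ s, f i) = ∏ i ∈ s, absV w (f i) := by
  induction s using Finset.induction_on with
  | empty => simp [absV_one]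
  | insert a s ha ih => rw [Finset.prod_insert ha, Finset.prod_insert ha, absV_mul, ih]

/-- the minors -/
def mi {M : ℕ} (x : Fin M → Fin (M + 1) → K) (j : Fin (M + 1)) : Matrix (Fin M) (Fin M) K :=
  Matrix.of fun l k => x l (j.succAbove k)

/-- the vector of the signed minors -/
noncomputable def at' {M : ℕ} (x : Fin M → Fin (M + 1) → K) (j : Fin (M + 1)) : K :=
  (-1) ^ (j : ℕ) * (mi x j).det

lemma det_cons {M : ℕ} (x : Fin M → Fin (M + 1) → K) (y : Fin (M + 1) → K) :
    (Matrix.of (Fin.cons y x : Fin (M + 1) → Fin (M + 1) → K)).det = ∑ j, at' x j * y j := by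
  rw [Matrix.det_succ_row_zero]
  refine Finset.sum_congr rfl fun j _ => ?_
  have h1 : (Matrix.of (Fin.cons y x : Fin (M + 1) → Fin (M + 1) → K)) 0 j = y j := rfl
  have h2 : (Matrix.of (Fin.cons y x : Fin (M + 1) → Fin (M + 1) → K)).submatrix Fin.succ
      j.succAbove = mi x j := rfl
  rw [h1, h2, at']
  ring

/-- bound of a minor -/
lemma absV_det_mi_le {M : ℕ} (w : Place K) (z : Fin M → Fin (M + 1) → K) (j : Fin (M + 1))
    (t : Fin M → ℝ) (ρ : Fin (M + 1) → ℝ) (ht : ∀ l, 0 ≤ t l)
    (h : ∀ l i, absV w (z l i) ≤ t l * Real.exp (ρ i)) :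
    absV w (mi z j).det ≤ (M.factorial : ℝ) ^ sw w *
      ((∏ l, t l) * Real.exp (∑ i, ρ i - ρ j)) := by
  rw [Matrix.det_apply]
  have hcard : (Finset.univ : Finset (Equiv.Perm (Fin M))).card = M.factorial := by
    rw [Finset.card_univ, Fintype.card_perm, Fintype.card_fin]
  rw [← hcard]
  refine absV_sum_le w _ _ (mul_nonneg (Finset.prod_nonneg fun l _ => ht l)
    (Real.exp_pos _).le) fun σ _ => ?_
  have h1 : absV w (Equiv.Perm.sign σ • ∏ i, mi z j (σ i) i) = absV w (∏ i, mi z j (σ i) i) := by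
    rcases Int.units_eq_one_or (Equiv.Perm.sign σ) with h | h
    · rw [h, one_smul]
    · rw [h, Units.neg_smul, one_smul, absV_neg]
  rw [h1, absV_prod]
  have h2 : ∑ i, ρ i - ρ j = ∑ k, ρ (j.succAbove k) := by
    rw [Fin.sum_univ_succAbove ρ j]
    ring
  rw [h2, Real.exp_sum, ← Equiv.prod_comp σ t, ← Finset.prod_mul_distrib]
  refine Finset.prod_le_prod (fun i _ => absV_nonneg w _) fun i _ => ?_
  exact h (σ i) (j.succAbove i)

lemma exists_scalar {M : ℕ} {x : Fin M → Fin (M + 1) → K} (hx : LinearIndependent K x)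
    {a : Fin (M + 1) → K} (ha : a ≠ 0) (h : ∀ l, ∑ i, a i * x l i = 0) :
    at' x ≠ 0 ∧ ∃ c : K, c ≠ 0 ∧ a = c • at' x := by
  obtain ⟨y, hy⟩ := exists_linearIndependent_cons_of_lt_finrank hx (by
    rw [Module.finrank_fin_fun]; exact Nat.lt_succ_self M)
  set A : Matrix (Fin (M + 1)) (Fin (M + 1)) K :=
    Matrix.of (Fin.cons y x : Fin (M + 1) → Fin (M + 1) → K) with hA
  have hu : IsUnit A := Matrix.linearIndependent_rows_iff_isUnit.1 hy
  have hdet : A.det ≠ 0 := ((Matrix.isUnit_iff_isUnit_det A).1 hu).ne_zero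
  have hdet' : ∑ j, at' x j * y j ≠ 0 := by
    rw [← det_cons]
    exact hdet
  have hat0 : at' x ≠ 0 := by
    intro h0
    apply hdet'
    rw [h0]
    simp
  refine ⟨hat0, ?_⟩
  -- `at' x` vanishes on the `x l`
  have hvan : ∀ l, ∑ j, at' x j * x l j = 0 := by
    intro l
    rw [← det_cons]
    refine Matrix.det_zero_of_row_eq (i := 0) (j := l.succ) (Fin.succ_ne_zero l).symm ?_
    rfl
  set c : K := (∑ j, a j * y j) / ∑ j, at' x j * y j with hc
  have hsub : a - c • at' x = 0 := by
    refine Matrix.eq_zero_of_mulVec_eq_zero hdet ?_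
    funext i
    refine Fin.cases ?_ (fun l => ?_) i
    · have h1 : A.mulVec (a - c • at' x) 0 = ∑ j, y j * (a j - c * at' x j) := rfl
      rw [h1]
      have h2 : ∑ j, y j * (a j - c * at' x j) =
          (∑ j, a j * y j) - c * ∑ j, at' x j * y j := by
        rw [Finset.mul_sum, ← Finset.sum_sub_distrib]
        exact Finset.sum_congr rfl fun j _ => by ring
      rw [h2, hc, div_mul_cancel₀ _ hdet', sub_self]
      rfl
    · have h1 : A.mulVec (a - c • at' x) l.succ = ∑ j, x l j * (a j - c * at' x j) := rfl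
      rw [h1]
      have h2 : ∑ j, x l j * (a j - c * at' x j) =
          (∑ j, a j * x l j) - c * ∑ j, at' x j * x l j := by
        rw [Finset.mul_sum, ← Finset.sum_sub_distrib]
        exact Finset.sum_congr rfl fun j _ => by ring
      rw [h2, h l, hvan l, mul_zero, sub_zero]
      rfl
  have hac : a = c • at' x := sub_eq_zero.1 hsub
  refine ⟨c, ?_, hac⟩
  intro hc0
  apply ha
  rw [hac, hc0, zero_smul]

/-- the dual system at a place of `S` -/
lemma dual_mulVec {M : ℕ} (L : Matrix (Fin (M + 1)) (Fin (M + 1)) K) (hL : L.det ≠ 0)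
    (x : Fin M → Fin (M + 1) → K) (j : Fin (M + 1)) :
    L.det * ((L⁻¹).transpose.mulVec (at' x) j) =
      (-1) ^ (j : ℕ) * (mi (fun l => L.mulVec (x l)) j).det := by
  have hLu : IsUnit L.det := isUnit_iff_ne_zero.2 hL
  have h1 : (L⁻¹).transpose.mulVec (at' x) j = ∑ i, at' x i * (L⁻¹) i j := by
    change ∑ i, (L⁻¹).transpose j i * at' x i = _
    exact Finset.sum_congr rfl fun i _ => mul_comm _ _
  rw [h1, ← det_cons, mul_comm, ← Matrix.det_transpose L, ← Matrix.det_mul]
  have h2 : (Matrix.of (Fin.cons (fun i => (L⁻¹) i j) x : Fin (M + 1) → Fin (M + 1) → K)) *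
      L.transpose = Matrix.of (Fin.cons (Pi.single j 1 : Fin (M + 1) → K)
        (fun l => L.mulVec (x l)) : Fin (M + 1) → Fin (M + 1) → K) := by
    ext i k
    refine Fin.cases ?_ (fun l => ?_) i
    · change ∑ s, (L⁻¹) s j * L k s = (Pi.single j 1 : Fin (M + 1) → K) k
      have h3 : ∑ s, (L⁻¹) s j * L k s = (L * L⁻¹) k j := by
        rw [Matrix.mul_apply]
        exact Finset.sum_congr rfl fun i _ => mul_comm _ _
      rw [h3, Matrix.mul_nonsing_inv _ hLu, Matrix.one_apply, Pi.single_apply]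
    · change ∑ s, x l s * L k s = ∑ s, L k s * x l s
      exact Finset.sum_congr rfl fun i _ => mul_comm _ _
  rw [h2, det_cons, Finset.sum_eq_single j]
  · rw [Pi.single_eq_same, mul_one, at']
  · intro b _ hb
    rw [Pi.single_eq_of_ne hb, mul_zero]
  · intro h
    exact absurd (Finset.mem_univ _) h

lemma absV_neg_one_pow (w : Place K) (k : ℕ) (b : K) : absV w ((-1) ^ k * b) = absV w b := by
  rcases neg_one_pow_eq_or K k with h | h
  · rw [h, one_mul]
  · rw [h, neg_one_mul, absV_neg]

lemma det_dL {N : ℕ} {L : Place K → Matrix (Fin N) (Fin N) K} {v : Place K}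
    (h : (L v).det ≠ 0) : (dL L v).det ≠ 0 := by
  unfold dL
  rw [Matrix.det_transpose]
  exact (Matrix.isUnit_nonsing_inv_det _ (isUnit_iff_ne_zero.2 h)).ne_zero

/-- the local bound -/
lemma local_bound {M : ℕ} (S : Finset (Place K))
    (L : Place K → Matrix (Fin (M + 1)) (Fin (M + 1)) K) (hL : ∀ v ∈ S, (L v).det ≠ 0)
    (r : Place K → Fin (M + 1) → ℝ) (x : Fin M → Fin (M + 1) → K) (v : Place K) :
    lcn S (dL L) (fun v i => -r v i) v (at' x) ≤
      (if v ∈ S then (absV v (L v).det)⁻¹ * Real.exp (∑ i, r v i) else 1) *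
        (M.factorial : ℝ) ^ sw v * ∏ l, lcn S L r v (x l) := by
  unfold lcn
  by_cases hv : v ∈ S
  · simp only [hv, if_true]
    have hd := absV_pos v (hL v hv)
    have hP : 0 ≤ ∏ l, tw (L v) (r v) v (x l) :=
      Finset.prod_nonneg fun l _ => tw_nonneg _ _ _ _
    refine tw_le _ _ _ _ (by positivity) fun j => ?_
    have h1 : absV v (L v).det * absV v ((dL L v).mulVec (at' x) j) ≤
        (M.factorial : ℝ) ^ sw v * ((∏ l, tw (L v) (r v) v (x l)) *
          Real.exp (∑ i, r v i - r v j)) := by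
      rw [← absV_mul]
      unfold dL
      rw [dual_mulVec (L v) (hL v hv) x j, absV_neg_one_pow]
      exact absV_det_mi_le v (fun l => (L v).mulVec (x l)) j (fun l => tw (L v) (r v) v (x l))
        (r v) (fun l => tw_nonneg _ _ _ _) fun l i => absV_form_le _ _ _ _ _
    rw [neg_neg]
    have h2 : absV v ((dL L v).mulVec (at' x) j) ≤ (absV v (L v).det)⁻¹ *
        ((M.factorial : ℝ) ^ sw v * ((∏ l, tw (L v) (r v) v (x l)) *
          Real.exp (∑ i, r v i - r v j))) := by
      rw [← div_eq_inv_mul, le_div_iff₀ hd, mul_comm]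
      exact h1
    calc absV v ((dL L v).mulVec (at' x) j) * Real.exp (r v j)
        ≤ (absV v (L v).det)⁻¹ * ((M.factorial : ℝ) ^ sw v * ((∏ l, tw (L v) (r v) v (x l)) *
          Real.exp (∑ i, r v i - r v j))) * Real.exp (r v j) :=
          mul_le_mul_of_nonneg_right h2 (Real.exp_pos _).le
      _ = (absV v (L v).det)⁻¹ * (M.factorial : ℝ) ^ sw v * (∏ l, tw (L v) (r v) v (x l)) *
          (Real.exp (∑ i, r v i - r v j) * Real.exp (r v j)) := by ring
      _ = _ := by
          rw [← Real.exp_add, sub_add_cancel]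
          ring
  · simp only [hv, if_false, one_mul]
    have hP : 0 ≤ ∏ l, nrm v (x l) := Finset.prod_nonneg fun l _ => nrm_nonneg _ _
    refine nrm_le _ _ (by positivity) fun j => ?_
    rw [at', absV_neg_one_pow]
    have h1 := absV_det_mi_le v x j (fun l => nrm v (x l)) (fun _ => 0)
      (fun l => nrm_nonneg _ _) (fun l i => by
        rw [Real.exp_zero, mul_one]
        exact absV_le_nrm v (x l) i)
    simpa using h1

theorem dual_bound {M : ℕ} (S : Finset (Place K))
    (L : Place K → Matrix (Fin (M + 1)) (Fin (M + 1)) K) (hL : ∀ v ∈ S, (L v).det ≠ 0) :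
    ∃ C : ℝ, 0 ≤ C ∧ ∀ r : Place K → Fin (M + 1) → ℝ, ∑ v ∈ S, ∑ i, r v i = 0 →
    ∀ x : Fin M → Fin (M + 1) → K, LinearIndependent K x →
    ∀ a : Fin (M + 1) → K, a ≠ 0 → (∀ l, ∑ i, a i * x l i = 0) →
      htw S (dL L) (fun v i => -r v i) a ≤ C + ∑ l, htw S L r (x l) := by
  have hf0 : (0 : ℝ) < (M.factorial : ℝ) := by exact_mod_cast M.factorial_pos
  have hlf : 0 ≤ Real.log (M.factorial : ℝ) :=
    Real.log_nonneg (by exact_mod_cast M.factorial_pos)
  refine ⟨∑ v ∈ S, |Real.log (absV v (L v).det)| + Real.log (M.factorial : ℝ),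
    add_nonneg (Finset.sum_nonneg fun _ _ => abs_nonneg _) hlf, fun r hr x hx a ha h => ?_⟩
  obtain ⟨hat0, c, hc, rfl⟩ := exists_scalar hx ha h
  rw [htw_smul (fun v hv => det_dL (hL v hv)) _ hc hat0]
  have hx0 : ∀ l, x l ≠ 0 := fun l => hx.ne_zero l
  set g1 : Place K → ℝ := fun v =>
    if v ∈ S then -Real.log (absV v (L v).det) + ∑ i, r v i else 0 with hg1
  set g2 : Place K → ℝ := fun v => sw v * Real.log (M.factorial : ℝ) with hg2
  set g3 : Place K → ℝ := fun v => ∑ l, Real.log (lcn S L r v (x l)) with hg3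
  have s1 : (Function.support g1).Finite := by
    refine S.finite_toSet.subset fun v hv => ?_
    by_contra hcon
    exact hv (if_neg hcon)
  have s2 : (Function.support g2).Finite := by
    refine support_sw_finite.subset fun v hv hv0 => hv ?_
    change sw v * _ = 0
    have hv1 : sw v = 0 := hv0
    rw [hv1, zero_mul]
  have s3 : (Function.support g3).Finite := by
    have hfin : (⋃ l : Fin M, Function.support fun v : Place K =>
        Real.log (lcn S L r v (x l))).Finite :=
      Set.finite_iUnion fun l => support_log_lcn_finite S L r (hx0 l)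
    refine hfin.subset fun v hv => ?_
    by_contra hcon
    apply hv
    simp only [Set.mem_iUnion, Function.mem_support, not_exists, not_not] at hcon
    exact Finset.sum_eq_zero fun l _ => hcon l
  have hle : ∀ v, Real.log (lcn S (dL L) (fun v i => -r v i) v (at' x)) ≤
      (g1 v + g2 v) + g3 v := by
    intro v
    have hpos := lcn_pos (S := S) (L := dL L) (fun v hv => det_dL (hL v hv))
      (fun v i => -r v i) v hat0
    have h1 := Real.log_le_log hpos (local_bound S L hL r x v)
    refine h1.trans ?_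
    have hPne : ∀ l ∈ (Finset.univ : Finset (Fin M)), lcn S L r v (x l) ≠ 0 := fun l _ =>
      (lcn_pos hL r v (hx0 l)).ne'
    have hfne : ((M.factorial : ℝ) ^ sw v) ≠ 0 := (Real.rpow_pos_of_pos hf0 _).ne'
    by_cases hv : v ∈ S
    · have hd := absV_pos v (hL v hv)
      simp only [hg1, hg2, hg3, hv, if_true]
      rw [Real.log_mul (mul_ne_zero (mul_ne_zero (inv_ne_zero hd.ne') (Real.exp_pos _).ne') hfne)
        (Finset.prod_ne_zero_iff.2 hPne), Real.log_prod hPne,
        Real.log_mul (mul_ne_zero (inv_ne_zero hd.ne') (Real.exp_pos _).ne') hfne,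
        Real.log_mul (inv_ne_zero hd.ne') (Real.exp_pos _).ne', Real.log_inv, Real.log_exp,
        Real.log_rpow hf0]
    · simp only [hg1, hg2, hg3, hv, if_false, one_mul, zero_add]
      rw [Real.log_mul hfne (Finset.prod_ne_zero_iff.2 hPne), Real.log_prod hPne,
        Real.log_rpow hf0]
  have hsum : htw S (dL L) (fun v i => -r v i) (at' x) ≤ ∑ᶠ v, ((g1 v + g2 v) + g3 v) := by
    refine finsum_mono (support_log_lcn_finite S (dL L) _ hat0) ?_ hle
    refine ((s1.union s2).union s3).subset fun v hv => ?_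
    by_contra hcon
    simp only [Set.mem_union, Function.mem_support, not_or, not_not] at hcon
    apply hv
    change (g1 v + g2 v) + g3 v = 0
    rw [hcon.1.1, hcon.1.2, hcon.2]
    simp
  refine hsum.trans ?_
  have s12 : (Function.support fun v => g1 v + g2 v).Finite :=
    (s1.union s2).subset (Function.support_add _ _)
  rw [finsum_add_distrib s12 s3, finsum_add_distrib s1 s2]
  have e1 : ∑ᶠ v, g1 v = ∑ v ∈ S, (-Real.log (absV v (L v).det) + ∑ i, r v i) := by
    rw [finsum_eq_sum_of_support_subset g1 (s := S) (fun v hv => by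
      by_contra hcon
      exact hv (if_neg hcon))]
    exact Finset.sum_congr rfl fun v hv => if_pos hv
  have e2 : ∑ᶠ v, g2 v = Real.log (M.factorial : ℝ) := by
    rw [hg2, ← finsum_mul, finsum_sw, one_mul]
  have e3 : ∑ᶠ v, g3 v = ∑ l, htw S L r (x l) := by
    rw [hg3, finsum_sum_comm]
    · rfl
    · intro l _
      exact support_log_lcn_finite S L r (hx0 l)
  rw [e1, e2, e3, Finset.sum_add_distrib, hr, add_zero]
  have e4 : ∑ v ∈ S, -Real.log (absV v (L v).det) ≤ ∑ v ∈ S, |Real.log (absV v (L v).det)| :=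
    Finset.sum_le_sum fun v _ => neg_le_abs _
  linarith

end DUAM

theorem specDUA : SpecDUA := by
  intro K _ _ N hN S L hL
  obtain ⟨M, rfl⟩ : ∃ M, N = M + 1 := ⟨N - 1, by omega⟩
  exact DUAM.dual_bound S L hL

end Pool.Agent.Lib.MP_d0e829_nt.SS
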