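import Pool.Agent.Lib.MP_d0e829_nt.Basic

/-!
# The Subspace theorem over number fields: definitions and first facts

All number fields are in `Type`.  `Place K`, `absV` (normalised absolute values, product formula
`product_formula`, `∑ log |a|_w = 0`) are those of `MP_d0e829_nt/{Defs,Basic}.lean`.
Vectors are functions `Fin N → K`; a matrix `A : Matrix (Fin N) (Fin N) K` is used as the family of
its rows, `(A *ᵥ x) i` is the value of the form number `i` at `x`.
-/

set_option autoImplicit false

open NumberField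

namespace Pool.Agent.Lib.MP_d0e829_nt.SS

open scoped Classical

variable {K : Type} [Field K] [NumberField K]

/-- The exponent in the triangle inequality: `weight w` for infinite places, `0` for finite ones.
The sum over all places is `1`. -/
noncomputable def sw : Place K → ℝ
  | .inl w => weight (Sum.inl w : Place K)
  | .inr _ => 0

/-- `max_j |x_j|_w` -/
noncomputable def nrm {ι : Type} [Fintype ι] (w : Place K) (x : ι → K) : ℝ := ⨆ j, absV w (x j)

/-- The absolute logarithmic height of a nonzero vector. -/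
noncomputable def ht {ι : Type} [Fintype ι] (x : ι → K) : ℝ :=
  ∑ᶠ w : Place K, Real.log (nrm w x)

/-- The twisted norm `max_i |L_i(x)|_w e^{-r_i}`. -/
noncomputable def tw {N : ℕ} (L : Matrix (Fin N) (Fin N) K) (r : Fin N → ℝ) (w : Place K)
    (x : Fin N → K) : ℝ :=
  ⨆ i, absV w (L.mulVec x i) * Real.exp (-(r i))

/-- The local norms of the system `(S, L, r)`: twisted for `w ∈ S`, the usual one otherwise. -/
noncomputable def lcn {N : ℕ} (S : Finset (Place K)) (L : Place K → Matrix (Fin N) (Fin N) K)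
    (r : Place K → Fin N → ℝ) (w : Place K) (x : Fin N → K) : ℝ :=
  if w ∈ S then tw (L w) (r w) w x else nrm w x

/-- The logarithm of the twisted height of the system `(S, L, r)`. -/
noncomputable def htw {N : ℕ} (S : Finset (Place K)) (L : Place K → Matrix (Fin N) (Fin N) K)
    (r : Place K → Fin N → ℝ) (x : Fin N → K) : ℝ :=
  ∑ᶠ w : Place K, Real.log (lcn S L r w x)

/-- `S` contains all infinite places, and its finite places are those above the primes dividing some
positive integer `b`. -/
def Good (S : Finset (Place K)) : Prop :=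
  (∀ w : InfinitePlace K, (Sum.inl w : Place K) ∈ S) ∧
    ∃ b : ℕ, 0 < b ∧ ∀ w : FinitePlace K,
      ((Sum.inr w : Place K) ∈ S ↔ absV (Sum.inr w : Place K) (b : K) < 1)

/-- the span of the first `j` vectors -/
def Fl {N : ℕ} (x : Fin N → Fin N → K) (j : ℕ) : Submodule K (Fin N → K) :=
  Submodule.span K (x '' {i | (i : ℕ) < j})

/-- `x` is a reduced basis for `f` (successive minima up to `1`). -/
def Red {N : ℕ} (f : (Fin N → K) → ℝ) (x : Fin N → Fin N → K) : Prop :=
  LinearIndependent K x ∧ ∀ j : Fin N, ∀ y : Fin N → K, y ∉ Fl x j → f (x j) ≤ f y + 1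

/-! ## Basic facts -/

lemma sw_nonneg (w : Place K) : 0 ≤ sw w := by
  cases w with
  | inl w => exact (weight_pos (Sum.inl w : Place K)).le
  | inr w => exact le_refl _

lemma sw_le_weight (w : Place K) : sw w ≤ weight w := by
  cases w with
  | inl w => exact le_refl _
  | inr w => exact (weight_pos (Sum.inr w : Place K)).le

lemma support_sw_finite : (Function.support fun w : Place K => sw w).Finite := by
  refine ((Set.toFinite (Set.univ : Set (InfinitePlace K))).image Sum.inl).subset ?_
  intro w hw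
  cases w with
  | inl w => exact ⟨w, trivial, rfl⟩
  | inr w => exact absurd rfl hw

lemma finsum_sw : ∑ᶠ w : Place K, sw w = 1 := by
  rw [finsum_sum_type _ support_sw_finite, finsum_eq_sum_of_fintype]
  simp only [sw, finsum_zero, add_zero]
  exact sum_weight_inf

/-- The triangle inequality for finite sums. -/
lemma absV_sum_le {ι : Type*} (w : Place K) (s : Finset ι) (f : ι → K) {B : ℝ} (hB : 0 ≤ B)
    (h : ∀ i ∈ s, absV w (f i) ≤ B) : absV w (∑ i ∈ s, f i) ≤ (s.card : ℝ) ^ sw w * B := by
  have hw := weight_pos w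
  set m := B ^ (weight w)⁻¹ with hm
  have hm0 : 0 ≤ m := Real.rpow_nonneg hB _
  have hmB : m ^ weight w = B := by
    rw [hm, ← Real.rpow_mul hB, inv_mul_cancel₀ hw.ne', Real.rpow_one]
  have key : ∀ i ∈ s, rawAbs w (f i) ≤ m := by
    intro i hi
    have h1 : rawAbs w (f i) = (absV w (f i)) ^ (weight w)⁻¹ := by
      rw [absV, ← Real.rpow_mul (rawAbs_nonneg w _), mul_inv_cancel₀ hw.ne', Real.rpow_one]
    rw [h1, hm]
    exact Real.rpow_le_rpow (absV_nonneg w _) (h i hi) (inv_nonneg.mpr hw.le)
  cases w with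
  | inl w =>
    have h3 : rawAbs (.inl w) (∑ i ∈ s, f i) ≤ s.card * m := by
      simp only [rawAbs] at key ⊢
      calc w (∑ i ∈ s, f i) ≤ ∑ i ∈ s, w (f i) := w.1.sum_le _ _
        _ ≤ ∑ _i ∈ s, m := Finset.sum_le_sum key
        _ = s.card * m := by simp
    calc absV (.inl w) (∑ i ∈ s, f i) ≤ (s.card * m) ^ weight (.inl w) :=
          Real.rpow_le_rpow (rawAbs_nonneg _ _) h3 hw.le
      _ = (s.card : ℝ) ^ sw (.inl w) * B := by
          rw [Real.mul_rpow (by positivity) hm0, hmB]; rfl
  | inr w =>
    have h3 : rawAbs (.inr w) (∑ i ∈ s, f i) ≤ m := by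
      simp only [rawAbs] at key ⊢
      induction s using Finset.induction_on with
      | empty => simpa using hm0
      | insert a s ha ih =>
        rw [Finset.sum_insert ha]
        refine (FinitePlace.add_le w _ _).trans (max_le (key a (Finset.mem_insert_self a s)) ?_)
        exact ih (fun i hi => h i (Finset.mem_insert_of_mem hi))
          (fun i hi => key i (Finset.mem_insert_of_mem hi))
    calc absV (.inr w) (∑ i ∈ s, f i) ≤ m ^ weight (.inr w) :=
          Real.rpow_le_rpow (rawAbs_nonneg _ _) h3 hw.le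
      _ = (s.card : ℝ) ^ sw (.inr w) * B := by
          rw [hmB]; simp [sw]

lemma absV_le_nrm {ι : Type} [Fintype ι] (w : Place K) (x : ι → K) (j : ι) :
    absV w (x j) ≤ nrm w x :=
  le_ciSup (f := fun j => absV w (x j)) (Set.finite_range _).bddAbove j

lemma nrm_nonneg {ι : Type} [Fintype ι] (w : Place K) (x : ι → K) : 0 ≤ nrm w x :=
  Real.iSup_nonneg fun _ => absV_nonneg w _

lemma nrm_le {ι : Type} [Fintype ι] (w : Place K) (x : ι → K) {B : ℝ} (hB : 0 ≤ B)
    (h : ∀ j, absV w (x j) ≤ B) : nrm w x ≤ B :=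
  Real.iSup_le h hB

lemma nrm_pos {ι : Type} [Fintype ι] (w : Place K) {x : ι → K} (hx : x ≠ 0) : 0 < nrm w x := by
  obtain ⟨j, hj⟩ := Function.ne_iff.mp hx
  exact lt_of_lt_of_le (absV_pos w hj) (absV_le_nrm w x j)

lemma le_tw {N : ℕ} (L : Matrix (Fin N) (Fin N) K) (r : Fin N → ℝ) (w : Place K)
    (x : Fin N → K) (i : Fin N) : absV w (L.mulVec x i) * Real.exp (-(r i)) ≤ tw L r w x :=
  le_ciSup (f := fun i => absV w (L.mulVec x i) * Real.exp (-(r i)))
    (Set.finite_range _).bddAbove i

lemma absV_form_le {N : ℕ} (L : Matrix (Fin N) (Fin N) K) (r : Fin N → ℝ) (w : Place K)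
    (x : Fin N → K) (i : Fin N) : absV w (L.mulVec x i) ≤ tw L r w x * Real.exp (r i) := by
  have h := le_tw L r w x i
  calc absV w (L.mulVec x i) = absV w (L.mulVec x i) * Real.exp (-(r i)) * Real.exp (r i) := by
        rw [mul_assoc, ← Real.exp_add]; simp
    _ ≤ _ := mul_le_mul_of_nonneg_right h (Real.exp_pos _).le

lemma tw_nonneg {N : ℕ} (L : Matrix (Fin N) (Fin N) K) (r : Fin N → ℝ) (w : Place K)
    (x : Fin N → K) : 0 ≤ tw L r w x :=
  Real.iSup_nonneg fun _ => mul_nonneg (absV_nonneg w _) (Real.exp_pos _).le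

lemma tw_le {N : ℕ} (L : Matrix (Fin N) (Fin N) K) (r : Fin N → ℝ) (w : Place K)
    (x : Fin N → K) {B : ℝ} (hB : 0 ≤ B)
    (h : ∀ i, absV w (L.mulVec x i) * Real.exp (-(r i)) ≤ B) : tw L r w x ≤ B :=
  Real.iSup_le h hB

lemma tw_pos {N : ℕ} {L : Matrix (Fin N) (Fin N) K} (hL : L.det ≠ 0) (r : Fin N → ℝ) (w : Place K)
    {x : Fin N → K} (hx : x ≠ 0) : 0 < tw L r w x := by
  have h : L.mulVec x ≠ 0 := by
    intro h0
    exact hx (Matrix.eq_zero_of_mulVec_eq_zero hL h0)
  obtain ⟨i, hi⟩ := Function.ne_iff.mp h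
  exact lt_of_lt_of_le (mul_pos (absV_pos w hi) (Real.exp_pos _)) (le_tw L r w x i)

lemma nrm_smul {ι : Type} [Fintype ι] (w : Place K) (c : K) (x : ι → K) :
    nrm w (c • x) = absV w c * nrm w x := by
  unfold nrm
  rw [Real.mul_iSup_of_nonneg (absV_nonneg w c)]
  simp only [Pi.smul_apply, smul_eq_mul, absV_mul]

lemma tw_smul {N : ℕ} (L : Matrix (Fin N) (Fin N) K) (r : Fin N → ℝ) (w : Place K)
    (c : K) (x : Fin N → K) : tw L r w (c • x) = absV w c * tw L r w x := by
  unfold tw
  rw [Real.mul_iSup_of_nonneg (absV_nonneg w c)]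
  simp only [Matrix.mulVec_smul, Pi.smul_apply, smul_eq_mul, absV_mul, mul_assoc]

lemma lcn_smul {N : ℕ} (S : Finset (Place K)) (L : Place K → Matrix (Fin N) (Fin N) K)
    (r : Place K → Fin N → ℝ) (w : Place K) (c : K) (x : Fin N → K) :
    lcn S L r w (c • x) = absV w c * lcn S L r w x := by
  unfold lcn
  split_ifs
  · exact tw_smul _ _ _ _ _
  · exact nrm_smul _ _ _

lemma lcn_pos {N : ℕ} {S : Finset (Place K)} {L : Place K → Matrix (Fin N) (Fin N) K}
    (hL : ∀ v ∈ S, (L v).det ≠ 0) (r : Place K → Fin N → ℝ) (w : Place K) {x : Fin N → K}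
    (hx : x ≠ 0) : 0 < lcn S L r w x := by
  unfold lcn
  split_ifs with h
  · exact tw_pos (hL w h) _ _ hx
  · exact nrm_pos w hx

lemma support_log_nrm_finite {ι : Type} [Fintype ι] {x : ι → K} (hx : x ≠ 0) :
    (Function.support fun w : Place K => Real.log (nrm w x)).Finite := by
  have hfin : (⋃ j : {j : ι // x j ≠ 0},
      Function.support fun w : Place K => Real.log (absV w (x j))).Finite :=
    Set.finite_iUnion fun j => support_log_absV_finite j.2
  refine hfin.subset ?_
  intro w hw
  by_contra hcon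
  apply hw
  simp only [Set.mem_iUnion, Function.mem_support, not_exists, not_not, Subtype.forall] at hcon
  have h1 : ∀ j, x j ≠ 0 → absV w (x j) = 1 := by
    intro j hj
    exact Real.eq_one_of_pos_of_log_eq_zero (absV_pos w hj) (hcon j hj)
  have h2 : nrm w x = 1 := by
    apply le_antisymm
    · refine nrm_le w x zero_le_one fun j => ?_
      by_cases hj : x j = 0
      · rw [hj, absV_zero]; exact zero_le_one
      · exact (h1 j hj).le
    · obtain ⟨j, hj⟩ := Function.ne_iff.mp hx
      rw [← h1 j hj]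
      exact absV_le_nrm w x j
  simp only [h2, Real.log_one]

lemma support_log_lcn_finite {N : ℕ} (S : Finset (Place K))
    (L : Place K → Matrix (Fin N) (Fin N) K) (r : Place K → Fin N → ℝ) {x : Fin N → K}
    (hx : x ≠ 0) : (Function.support fun w : Place K => Real.log (lcn S L r w x)).Finite := by
  refine (S.finite_toSet.union (support_log_nrm_finite hx)).subset ?_
  intro w hw
  by_cases h : w ∈ S
  · exact Or.inl h
  · right
    simpa [lcn, h] using hw

lemma finsum_mono {α : Type*} {f g : α → ℝ} (hf : (Function.support f).Finite)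
    (hg : (Function.support g).Finite) (h : ∀ a, f a ≤ g a) : ∑ᶠ a, f a ≤ ∑ᶠ a, g a := by
  have h1 : Function.support f ⊆ ((hf.union hg).toFinset : Set α) := by
    intro a ha; simp [Set.mem_union]; exact Or.inl ha
  have h2 : Function.support g ⊆ ((hf.union hg).toFinset : Set α) := by
    intro a ha; simp [Set.mem_union]; exact Or.inr ha
  rw [finsum_eq_sum_of_support_subset f h1, finsum_eq_sum_of_support_subset g h2]
  exact Finset.sum_le_sum fun a _ => h a

lemma ht_nonneg {ι : Type} [Fintype ι] {x : ι → K} (hx : x ≠ 0) : 0 ≤ ht x := by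
  obtain ⟨j, hj⟩ := Function.ne_iff.mp hx
  rw [← product_formula (K := K) (a := x j) hj]
  exact finsum_mono (support_log_absV_finite hj) (support_log_nrm_finite hx)
    fun w => Real.log_le_log (absV_pos w hj) (absV_le_nrm w x j)

lemma ht_smul {ι : Type} [Fintype ι] {c : K} (hc : c ≠ 0) {x : ι → K} (hx : x ≠ 0) :
    ht (c • x) = ht x := by
  unfold ht
  have h : ∀ w : Place K, Real.log (nrm w (c • x)) =
      Real.log (absV w c) + Real.log (nrm w x) := by
    intro w
    rw [nrm_smul, Real.log_mul (absV_pos w hc).ne' (nrm_pos w hx).ne']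
  rw [finsum_congr h, finsum_add_distrib (support_log_absV_finite hc) (support_log_nrm_finite hx),
    product_formula hc, zero_add]

lemma htw_smul {N : ℕ} {S : Finset (Place K)} {L : Place K → Matrix (Fin N) (Fin N) K}
    (hL : ∀ v ∈ S, (L v).det ≠ 0) (r : Place K → Fin N → ℝ) {c : K} (hc : c ≠ 0) {x : Fin N → K}
    (hx : x ≠ 0) : htw S L r (c • x) = htw S L r x := by
  unfold htw
  have h : ∀ w : Place K, Real.log (lcn S L r w (c • x)) =
      Real.log (absV w c) + Real.log (lcn S L r w x) := by
    intro w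
    rw [lcn_smul, Real.log_mul (absV_pos w hc).ne' (lcn_pos hL r w hx).ne']
  rw [finsum_congr h, finsum_add_distrib (support_log_absV_finite hc)
    (support_log_lcn_finite S L r hx), product_formula hc, zero_add]

end Pool.Agent.Lib.MP_d0e829_nt.SS
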