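import Pool.Agent.Lib.MP_d0e829_nt.SS.SpecA

/-!
# Part B (Roth machine): common definitions

Polynomials with integer coefficients in the variables `X_(h,i)`, `h : Fin m` (block), `i : Fin N`.
-/

set_option autoImplicit false

open NumberField

namespace Pool.Agent.Lib.MP_d0e829_nt.SS

/-- The Taylor expansion `P(x + Y)`.  Its coefficient at `Y^J` is the divided derivative of `P` of
order `J` at the point `x`. -/
noncomputable def tay {K : Type} [Field K] {ι : Type} (P : MvPolynomial ι ℤ) (x : ι → K) :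
    MvPolynomial ι K :=
  MvPolynomial.aeval (fun i => MvPolynomial.C (x i) + MvPolynomial.X i) P

/-- `P` is homogeneous of degree `d h` in the block `h`, for every `h`. -/
def BH {m N : ℕ} (P : MvPolynomial (Fin m × Fin N) ℤ) (d : Fin m → ℕ) : Prop :=
  ∀ J ∈ P.support, ∀ h, ∑ i, J (h, i) = d h

/-- ROTH'S LEMMA (Part B2, proved in `SS/SpecR.lean` and its modules). -/
def SpecRL : Prop := ∀ (K : Type) [Field K] [NumberField K] (m N : ℕ), 0 < m → 2 ≤ N →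
  ∀ ε : ℝ, 0 < ε → ∃ σ C : ℝ, 0 < σ ∧ 0 < C ∧
    ∀ (d : Fin m → ℕ) (D : ℕ) (A : ℝ) (P : MvPolynomial (Fin m × Fin N) ℤ)
      (a : Fin m → Fin N → K), (∀ h, 0 < d h ∧ d h ≤ D) →
      (∀ h h' : Fin m, (h : ℕ) + 1 = h' → (d h' : ℝ) ≤ σ * d h) → 0 ≤ A → P ≠ 0 → BH P d →
      (∀ J, |((P.coeff J : ℤ) : ℝ)| ≤ Real.exp A) → (∀ h, a h ≠ 0 ∧ C * (A + D) ≤ d h * ht (a h)) →
      ∃ (J : Fin m × Fin N →₀ ℕ) (x : Fin m × Fin N → K),
        ∑ h, (∑ i, (J (h, i) : ℝ)) / d h ≤ ε ∧ (∀ h, ∑ i, a h i * x (h, i) = 0) ∧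
        (tay P x).coeff J ≠ 0

end Pool.Agent.Lib.MP_d0e829_nt.SS
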