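import Pool.Agent.Lib.MP_d0e829_nt.SS.Defs

/-!
# Roth's lemma (part R of the Subspace theorem): definitions

`dd J P` is the divided partial derivative of multi-order `J` of the polynomial `P`: the coefficient
of `Y^J` in `P(X + Y)`. Its calculus is the file `RDER.lean`.
-/

set_option autoImplicit false

open MvPolynomial

namespace Pool.Agent.Lib.MP_d0e829_nt.SS

noncomputable section

/-- `P(X + Y)`, as a polynomial in `Y` with coefficients in `R[X]`. -/
def tayl {σ R : Type} [CommRing R] (P : MvPolynomial σ R) : MvPolynomial σ (MvPolynomial σ R) :=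
  aeval (fun i => (C (X i) + X i : MvPolynomial σ (MvPolynomial σ R))) P

/-- The divided derivative of multi-order `J`: the coefficient of `Y^J` in `P(X + Y)`. -/
def dd {σ R : Type} [CommRing R] (J : σ →₀ ℕ) (P : MvPolynomial σ R) : MvPolynomial σ R :=
  coeff J (tayl P)

/-- `∏_i (α_i choose J_i)`. -/
def bin {σ : Type} [Fintype σ] (α J : σ →₀ ℕ) : ℕ := ∏ i, (α i).choose (J i)

/-- The weighted order `∑_i J_i / d_i`. -/
def wtR {σ : Type} [Fintype σ] (d : σ → ℕ) (J : σ →₀ ℕ) : ℝ := ∑ i, (J i : ℝ) / d i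

/-- Roth's lemma at the point `ξ`, for the degrees `d`, the height bound `A` and the index `ε`: every
nonzero integral polynomial with `deg_i P ≤ d_i` and coefficients at most `e^A` has a divided
derivative of weighted order at most `ε` which does not vanish at `ξ`. -/
def RothAt {K : Type} [Field K] {σ : Type} [Fintype σ] (d : σ → ℕ) (A : ℝ) (ξ : σ → K) (ε : ℝ) :
    Prop :=
  ∀ P : MvPolynomial σ ℤ, P ≠ 0 → (∀ i, degreeOf i P ≤ d i) →
    (∀ J, |((coeff J P : ℤ) : ℝ)| ≤ Real.exp A) →
    ∃ J : σ →₀ ℕ, wtR d J ≤ ε ∧ aeval ξ (dd J P) ≠ 0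

/-- the height of an element: `∑_w log max(1, |x|_w)` -/
def ht1 {K : Type} [Field K] [NumberField K] (x : K) : ℝ :=
  ∑ᶠ w : Place K, Real.log (max 1 (absV w x))

end

end Pool.Agent.Lib.MP_d0e829_nt.SS
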