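import Pool.Agent.Lib.MP_d0e829_nt.SS.SpecE

/-!
# EFA: the action of the automorphisms on the finite places
-/

set_option autoImplicit false

open NumberField

namespace Pool.Agent.Lib.MP_d0e829_nt.SS

open scoped Classical Pointwise

namespace EFAM

open IsDedekindDomain HeightOneSpectrum

variable {k : Type} [Field k] [NumberField k] {K : Type} [Field K] [NumberField K] [Algebra k K]

/-- the prime `σ P` -/
noncomputable def act (σ : K ≃ₐ[k] K) (P : HeightOneSpectrum (𝓞 K)) : HeightOneSpectrum (𝓞 K) where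
  asIdeal := σ • P.asIdeal
  isPrime := by
    have := P.isPrime
    exact Ideal.IsPrime.smul σ
  ne_bot := by
    intro h
    apply P.ne_bot
    have h2 : σ⁻¹ • (σ • P.asIdeal) = ⊥ := by rw [h]; exact Ideal.smul_bot _
    rwa [inv_smul_smul] at h2

lemma int_val (σ : K ≃ₐ[k] K) (P : HeightOneSpectrum (𝓞 K)) (x : 𝓞 K) :
    (act σ P).intValuation (σ • x) = P.intValuation x := by
  by_cases hx : x = 0
  · rw [hx, smul_zero, Valuation.map_zero, Valuation.map_zero]
  have hx' : σ • x ≠ 0 := by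
    intro h
    apply hx
    have h2 : σ⁻¹ • (σ • x) = 0 := by rw [h, smul_zero]
    rwa [inv_smul_smul] at h2
  have key : ∀ n : ℕ, (act σ P).intValuation (σ • x) ≤ WithZero.exp (-(n : ℤ)) ↔
      P.intValuation x ≤ WithZero.exp (-(n : ℤ)) := by
    intro n
    rw [intValuation_le_pow_iff_mem, intValuation_le_pow_iff_mem]
    have h1 : (act σ P).asIdeal ^ n = σ • (P.asIdeal ^ n) := (smul_pow' σ P.asIdeal n).symm
    rw [h1, Ideal.smul_mem_pointwise_smul_iff]
  apply le_antisymm
  · have h1 := P.intValuation_if_neg hx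
    have h2 := (key _).mpr h1.le
    rw [h1]
    exact h2
  · have h1 := (act σ P).intValuation_if_neg hx'
    have h2 := (key _).mp h1.le
    rw [h1]
    exact h2

lemma val (σ : K ≃ₐ[k] K) (P : HeightOneSpectrum (𝓞 K)) (z : K) :
    (act σ P).valuation K (σ z) = P.valuation K z := by
  obtain ⟨r, s, hs, rfl⟩ := IsFractionRing.div_surjective (A := 𝓞 K) z
  have h1 : ∀ x : 𝓞 K, σ (algebraMap (𝓞 K) K x) = algebraMap (𝓞 K) K (σ • x) := fun _ => rfl
  rw [map_div₀, map_div₀, map_div₀, h1, h1, valuation_of_algebraMap, valuation_of_algebraMap,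
    valuation_of_algebraMap, valuation_of_algebraMap, int_val, int_val]

lemma absNorm_act (σ : K ≃ₐ[k] K) (P : HeightOneSpectrum (𝓞 K)) :
    Ideal.absNorm (act σ P).asIdeal = Ideal.absNorm P.asIdeal := by
  have e : (𝓞 K ⧸ P.asIdeal) ≃+* (𝓞 K ⧸ (act σ P).asIdeal) :=
    Ideal.quotientEquiv P.asIdeal (act σ P).asIdeal (MulSemiringAction.toRingEquiv _ (𝓞 K) σ) rfl
  rw [Ideal.absNorm_apply, Ideal.absNorm_apply, Submodule.cardQuot_apply, Submodule.cardQuot_apply]
  exact (Nat.card_congr e.toEquiv).symm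

end EFAM

open EFAM IsDedekindDomain in
/-- EFA -/
theorem specEFA : SpecEFA := by
  intro k _ _ K _ _ _ w σ
  have hid : (FinitePlace.mk (act σ w.maximalIdeal)).maximalIdeal = act σ w.maximalIdeal :=
    FinitePlace.maximalIdeal_mk _
  refine ⟨FinitePlace.mk (act σ w.maximalIdeal), ?_, ?_, ?_⟩
  · rw [hid]
    rfl
  · intro z
    have h1 : w z = ‖FinitePlace.embedding w.maximalIdeal z‖ := (FinitePlace.norm_embedding_eq w z).symm
    rw [h1, FinitePlace.mk_apply, FinitePlace.norm_embedding', FinitePlace.norm_embedding',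
      EFAM.val]
    have h2 : ∀ (e e' : NNReal) (h : e ≠ 0) (h' : e' ≠ 0) (x : WithZero (Multiplicative ℤ)), e = e' →
        WithZeroMulInt.toNNReal h x = WithZeroMulInt.toNNReal h' x := by
      intro e e' h h' x hee
      subst hee
      rfl
    rw [h2 _ _ _ _ _ (by rw [absNorm_act])]
  · intro v hv
    have hv' : w.maximalIdeal.asIdeal.comap (algebraMap (𝓞 k) (𝓞 K)) = v.maximalIdeal.asIdeal := hv
    change (FinitePlace.mk (act σ w.maximalIdeal)).maximalIdeal.asIdeal.comap
      (algebraMap (𝓞 k) (𝓞 K)) = v.maximalIdeal.asIdeal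
    rw [hid, ← hv']
    ext x
    rw [Ideal.mem_comap, Ideal.mem_comap]
    have h1 : algebraMap (𝓞 k) (𝓞 K) x = σ • (algebraMap (𝓞 k) (𝓞 K) x) := by
      apply NumberField.RingOfIntegers.ext
      exact (σ.commutes (algebraMap (𝓞 k) k x)).symm
    have h2 : (act σ w.maximalIdeal).asIdeal = σ • w.maximalIdeal.asIdeal := rfl
    rw [h2]
    conv_lhs => rw [h1]
    exact Ideal.smul_mem_pointwise_smul_iff

end Pool.Agent.Lib.MP_d0e829_nt.SS
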