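import Pool.Agent.Lib.MP_d0e829_nt.SS.SpecE

/-!
# EFT: the finite places above a finite place in a Galois extension
-/

set_option autoImplicit false

open NumberField

namespace Pool.Agent.Lib.MP_d0e829_nt.SS

open scoped Classical Pointwise

namespace EFTM

section
variable {k : Type} [Field k] [NumberField k] {K : Type} [Field K] [NumberField K] [Algebra k K]

lemma lies_iff (v : FinitePlace k) (w : FinitePlace K) :
    LiesOver (Sum.inr w : Place K) (Sum.inr v : Place k) ↔
      w.maximalIdeal.asIdeal ∈ Ideal.primesOver v.maximalIdeal.asIdeal (𝓞 K) := by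
  constructor
  · intro h
    exact ⟨w.maximalIdeal.isPrime, ⟨Eq.symm h⟩⟩
  · intro h
    exact h.2.over.symm

lemma ncard_eq (v : FinitePlace k) :
    {w : FinitePlace K | LiesOver (Sum.inr w : Place K) (Sum.inr v : Place k)}.ncard =
      (Ideal.primesOver v.maximalIdeal.asIdeal (𝓞 K)).ncard := by
  refine Set.ncard_congr (fun w _ => w.maximalIdeal.asIdeal) (fun w hw => (lies_iff v w).1 hw)
    ?_ ?_
  · intro w w' _ _ h
    exact FinitePlace.maximalIdeal_injective
      (IsDedekindDomain.HeightOneSpectrum.ext h)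
  · intro P hP
    have h1 := hP.1
    have h2 := hP.2
    have hne : P ≠ ⊥ := Ideal.ne_bot_of_liesOver_of_ne_bot v.maximalIdeal.ne_bot P
    refine ⟨FinitePlace.mk ⟨P, h1, hne⟩, ?_, ?_⟩
    · refine (lies_iff v _).2 ?_
      rw [FinitePlace.maximalIdeal_mk]
      exact hP
    · rw [FinitePlace.maximalIdeal_mk]

end

end EFTM

open EFTM in
theorem specEFT : SpecEFT := by
  intro k _ _ K _ _ _ hgal v
  have := hgal
  have hp : v.maximalIdeal.asIdeal.IsPrime := v.maximalIdeal.isPrime
  have : FiniteDimensional k K := Module.Finite.of_restrictScalars_finite ℚ k K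
  have : Module.Finite (𝓞 k) (𝓞 K) := inferInstance
  have : Finite (K ≃ₐ[k] K) := inferInstance
  have : IsGaloisGroup (K ≃ₐ[k] K) (𝓞 k) (𝓞 K) := inferInstance
  have hcard := Ideal.ncard_primesOver_mul_ramificationIdxIn_mul_inertiaDegIn
    v.maximalIdeal.asIdeal (𝓞 K) (K ≃ₐ[k] K)
  rw [IsGalois.card_aut_eq_finrank] at hcard
  refine ⟨Ideal.ramificationIdxIn v.maximalIdeal.asIdeal (𝓞 K) *
    Ideal.inertiaDegIn v.maximalIdeal.asIdeal (𝓞 K), ?_, ?_, ?_, ?_⟩
  rotate_left
  · rw [ncard_eq, mul_comm]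
    exact hcard
  · intro w hw
    have h := (lies_iff v w).1 hw
    have := h.1
    have := h.2
    rw [Ideal.ramificationIdxIn_eq_ramificationIdx v.maximalIdeal.asIdeal w.maximalIdeal.asIdeal
      (K ≃ₐ[k] K), Ideal.inertiaDegIn_eq_inertiaDeg v.maximalIdeal.asIdeal
      w.maximalIdeal.asIdeal (K ≃ₐ[k] K)]
  · intro w w' hw hw'
    have h := (lies_iff v w).1 hw
    have := h.1
    have := h.2
    have h' := (lies_iff v w').1 hw'
    have := h'.1
    have := h'.2
    exact Ideal.exists_smul_eq_of_isGaloisGroup v.maximalIdeal.asIdeal _ _ _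
  · rcases Nat.eq_zero_or_pos (Ideal.ramificationIdxIn v.maximalIdeal.asIdeal (𝓞 K) *
      Ideal.inertiaDegIn v.maximalIdeal.asIdeal (𝓞 K)) with h | h
    · rw [h, mul_zero] at hcard
      exact absurd hcard.symm (Module.finrank_pos (R := k) (M := K)).ne'
    · exact h

end Pool.Agent.Lib.MP_d0e829_nt.SS
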