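import Pool.Agent.Lib.MP_d0e829_nt.SS.SpecE

set_option autoImplicit false

open NumberField

namespace Pool.Agent.Lib.MP_d0e829_nt.SS

open scoped Classical Pointwise

theorem specEGAL : SpecEGAL := by
  intro k _ _ K _ _ _ hn
  have hfd : FiniteDimensional k K := Module.Finite.of_restrictScalars_finite ℚ k K
  have hpos : 0 < Module.finrank k K := Module.finrank_pos
  rcases (by omega : Module.finrank k K = 1 ∨ Module.finrank k K = 2) with h1 | h2
  · have hsurj : ∀ z : K, ∃ a : k, algebraMap k K a = z := by
      have htop : (⊥ : Subalgebra k K) = ⊤ := Subalgebra.bot_eq_top_of_finrank_eq_one h1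
      intro z
      have hz : z ∈ (⊥ : Subalgebra k K) := by rw [htop]; trivial
      exact Algebra.mem_bot.1 hz
    have hgal : IsGalois k K := by
      apply IsGalois.of_card_aut_eq_finrank
      rw [h1]
      have hs : Subsingleton (K ≃ₐ[k] K) := by
        refine ⟨fun σ τ => ?_⟩
        ext z
        obtain ⟨a, rfl⟩ := hsurj z
        rw [σ.commutes, τ.commutes]
      exact Nat.card_unique
    refine ⟨hgal, AlgEquiv.refl, fun z => rfl, fun z _ => hsurj z, fun σ => Or.inl fun z => ?_⟩
    obtain ⟨a, rfl⟩ := hsurj z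
    exact σ.commutes a
  · have hq : Algebra.IsQuadraticExtension k K := ⟨h2⟩
    have hgal : IsGalois k K := inferInstance
    have hcard : Nat.card (K ≃ₐ[k] K) = 2 := by
      rw [IsGalois.card_aut_eq_finrank, h2]
    rw [Nat.card_eq_two_iff' (1 : K ≃ₐ[k] K)] at hcard
    obtain ⟨τ, hτ, huniq⟩ := hcard
    have hall : ∀ σ : K ≃ₐ[k] K, σ = 1 ∨ σ = τ := by
      intro σ
      by_cases h : σ = 1
      · exact Or.inl h
      · exact Or.inr (huniq σ h)
    have hsq : τ * τ = 1 := by
      rcases hall (τ * τ) with h | h
      · exact h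
      · exact absurd (mul_eq_left.1 h) hτ
    refine ⟨hgal, τ, fun z => ?_, fun z hz => ?_, fun σ => ?_⟩
    · have := congrArg (fun f : K ≃ₐ[k] K => f z) hsq
      exact this
    · have hfix : ∀ σ : K ≃ₐ[k] K, σ z = z := by
        intro σ
        rcases hall σ with rfl | rfl
        · rfl
        · exact hz
      have := (IsGalois.mem_bot_iff_fixed z).2 hfix
      exact IntermediateField.mem_bot.1 this
    · rcases hall σ with rfl | rfl
      · exact Or.inl fun z => rfl
      · exact Or.inr fun z => rfl

end Pool.Agent.Lib.MP_d0e829_nt.SS
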