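import Pool.Agent.Lib.MP_d0e829_nt.SS.SpecE

/-!
# SS, module EINJ: a place is determined by its normalised absolute value
-/

set_option autoImplicit false

open NumberField

namespace Pool.Agent.Lib.MP_d0e829_nt.SS

open scoped Classical Pointwise

namespace EINJM

variable {K : Type} [Field K] [NumberField K]

lemma weight_pos (w : Place K) : 0 < weight w := by
  have h : 0 < Module.finrank ℚ K := Module.finrank_pos
  rcases w with w | w
  · show 0 < (w.mult : ℝ) / Module.finrank ℚ K
    have : 0 < w.mult := InfinitePlace.mult_pos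
    positivity
  · show (0 : ℝ) < 1 / Module.finrank ℚ K
    positivity

lemma raw_nonneg (w : Place K) (a : K) : 0 ≤ rawAbs w a := by
  rcases w with w | w
  · exact apply_nonneg w a
  · exact apply_nonneg w a

lemma raw_inl_two (w : InfinitePlace K) : rawAbs (.inl w) (2 : K) = 2 := by
  show w (2 : K) = 2
  rw [← InfinitePlace.norm_embedding_eq, map_ofNat]
  simp

lemma raw_inr_two (w : FinitePlace K) : rawAbs (.inr w) (2 : K) ≤ 1 := by
  show w (2 : K) ≤ 1
  have := FinitePlace.norm_le_one K w.maximalIdeal (2 : 𝓞 K)
  rwa [FinitePlace.norm_embedding_eq, map_ofNat] at this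

lemma inl_two (w : InfinitePlace K) : 1 < absV (.inl w) (2 : K) := by
  unfold absV
  rw [raw_inl_two]
  exact Real.one_lt_rpow (by norm_num) (weight_pos _)

lemma inr_two (w : FinitePlace K) : absV (.inr w) (2 : K) ≤ 1 := by
  unfold absV
  exact Real.rpow_le_one (raw_nonneg _ _) (raw_inr_two w) (weight_pos _).le

lemma raw_eq {w w' : Place K} (hw : weight w = weight w') (h : ∀ z, absV w z = absV w' z) (z : K) :
    rawAbs w z = rawAbs w' z := by
  have h1 := h z
  unfold absV at h1
  rw [hw] at h1
  exact (Real.rpow_left_inj (raw_nonneg _ _) (raw_nonneg _ _) (weight_pos w').ne').1 h1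

end EINJM

open EINJM in
theorem specEINJ : SpecEINJ := by
  intro K _ _ w w' h
  rcases w with w | w <;> rcases w' with w' | w'
  · have h2 := h 2
    unfold absV at h2
    rw [raw_inl_two, raw_inl_two, Real.rpow_right_inj (by norm_num) (by norm_num)] at h2
    congr 1
    refine DFunLike.ext _ _ fun z => ?_
    exact raw_eq h2 h z
  · exact absurd (h 2) (ne_of_gt (lt_of_le_of_lt (inr_two w') (inl_two w)))
  · exact absurd (h 2) (ne_of_lt (lt_of_le_of_lt (inr_two w) (inl_two w')))
  · have h2 : weight (Sum.inr w : Place K) = weight (Sum.inr w' : Place K) := rfl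
    congr 1
    refine DFunLike.ext _ _ fun z => ?_
    exact raw_eq h2 h z

end Pool.Agent.Lib.MP_d0e829_nt.SS
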