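import Pool.Agent.Lib.MP_d0e829_nt.SS.SpecE

set_option autoImplicit false

open NumberField

namespace Pool.Agent.Lib.MP_d0e829_nt.SS

open scoped Classical Pointwise

namespace ELFM

variable {k : Type} [Field k] [NumberField k] {K : Type} [Field K] [NumberField K] [Algebra k K]

theorem set_eq (v : FinitePlace k) :
    {w : Place K | LiesOver w (Sum.inr v : Place k)} =
      Sum.inr '' {w : FinitePlace K | LiesOver (Sum.inr w : Place K) (Sum.inr v : Place k)} := by
  ext w
  constructor
  · intro h
    rcases w with w | w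
    · exact False.elim h
    · exact ⟨w, h, rfl⟩
  · rintro ⟨w', h, rfl⟩
    exact h

theorem absV_inr (w : FinitePlace K) (a : K) :
    absV (Sum.inr w : Place K) a = (w a) ^ ((1 : ℝ) / Module.finrank ℚ K) := rfl

theorem abs_eq (v : FinitePlace k) (w : FinitePlace K) (d : ℕ) (a : k)
    (h : w (algebraMap k K a) = v a ^ d) :
    absV (Sum.inr w : Place K) (algebraMap k K a) =
      absV (Sum.inr v : Place k) a ^ ((d : ℝ) / Module.finrank k K) := by
  have h1 : Module.finrank ℚ k * Module.finrank k K = Module.finrank ℚ K :=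
    Module.finrank_mul_finrank ℚ k K
  have h2 : (Module.finrank ℚ K : ℝ) = Module.finrank ℚ k * Module.finrank k K := by
    rw [← h1]; push_cast; ring
  have h0 : 0 ≤ v a := apply_nonneg v a
  rw [absV_inr, absV_inr, h, ← Real.rpow_natCast, ← Real.rpow_mul h0, ← Real.rpow_mul h0, h2]
  congr 1
  rw [div_mul_div_comm, one_mul, mul_one_div]

end ELFM

open ELFM

theorem specELF (hEFV : SpecEFV) (hEFA : SpecEFA) (hEFT : SpecEFT) : SpecELF := by
  intro k _ _ K _ _ _ hGal v
  obtain ⟨d, hd, hcard, hef, htr⟩ := hEFT k K hGal v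
  refine ⟨d, hd, ?_, ?_, ?_, ?_⟩
  · rw [set_eq, Set.ncard_image_of_injective _ Sum.inr_injective]
    exact hcard
  · intro w hw a
    rcases w with w | w
    · exact False.elim hw
    · refine abs_eq v w d a ?_
      rw [hEFV k K v w hw a, hef w hw]
  · intro w w' hw hw'
    rcases w with w | w
    · exact False.elim hw
    rcases w' with w' | w'
    · exact False.elim hw'
    obtain ⟨σ, hσ⟩ := htr w w' hw hw'
    obtain ⟨w'', h1, h2, -⟩ := hEFA k K w σ
    have h3 : w'' = w' := by
      apply FinitePlace.maximalIdeal_injective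
      apply IsDedekindDomain.HeightOneSpectrum.ext
      rw [h1, hσ]
    subst h3
    refine ⟨σ.symm, fun z => ?_⟩
    rw [absV_inr, absV_inr, ← h2 (σ.symm z), AlgEquiv.apply_symm_apply]
  · intro w hw σ
    rcases w with w | w
    · exact False.elim hw
    obtain ⟨w', -, h2, h3⟩ := hEFA k K w σ.symm
    refine ⟨Sum.inr w', h3 v hw, fun z => ?_⟩
    rw [absV_inr, absV_inr, ← h2 (σ z), AlgEquiv.symm_apply_apply]

end Pool.Agent.Lib.MP_d0e829_nt.SS
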