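import Pool.Agent.Lib.MP_d0e829_nt.SS.SpecE

/-!
MP_d0e829_nt, part E, module ELI: infinite places in a Galois extension.
-/

set_option autoImplicit false

open NumberField

namespace Pool.Agent.Lib.MP_d0e829_nt.SS

open scoped Classical Pointwise

namespace ELIM

variable {k : Type} [Field k] [NumberField k] {K : Type} [Field K] [NumberField K] [Algebra k K]

lemma mult_smul (σ : K ≃ₐ[k] K) (w : InfinitePlace K) : (σ • w).mult = w.mult := by
  unfold InfinitePlace.mult
  by_cases h : w.IsReal
  · rw [if_pos h, if_pos (InfinitePlace.isReal_smul_iff.2 h)]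
  · rw [if_neg h, if_neg fun h2 => h (InfinitePlace.isReal_smul_iff.1 h2)]

lemma mult_eq [IsGalois k K] (w : InfinitePlace K) :
    w.mult = Nat.card (MulAction.stabilizer (K ≃ₐ[k] K) w) *
      (w.comap (algebraMap k K)).mult := by
  by_cases h : InfinitePlace.IsUnramified k w
  · rw [InfinitePlace.isUnramified_iff_card_stabilizer_eq_one.1 h, h.eq, one_mul]
  · rw [InfinitePlace.not_isUnramified_iff_card_stabilizer_eq_two.1 h]
    obtain ⟨h1, h2⟩ := InfinitePlace.not_isUnramified_iff.1 h
    unfold InfinitePlace.mult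
    rw [if_neg (InfinitePlace.not_isReal_iff_isComplex.2 h1), if_pos h2]

lemma weight_eq {w w' : InfinitePlace K} (h : w'.mult = w.mult) :
    weight (Sum.inl w' : Place K) = weight (Sum.inl w : Place K) := by
  show (w'.mult : ℝ) / _ = (w.mult : ℝ) / _
  rw [h]

lemma absV_smul (σ : K ≃ₐ[k] K) (w : InfinitePlace K) (z : K) :
    absV (Sum.inl (σ • w) : Place K) z = absV (Sum.inl w : Place K) (σ.symm z) := by
  unfold absV
  rw [weight_eq (mult_smul σ w)]
  rfl

lemma set_eq [IsGalois k K] (w₀ : InfinitePlace K) :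
    {w : Place K | LiesOver w (Sum.inl (w₀.comap (algebraMap k K)) : Place k)} =
      Sum.inl '' (MulAction.orbit (K ≃ₐ[k] K) w₀) := by
  ext w
  constructor
  · intro h
    cases w with
    | inl w =>
      have h2 : w.comap (algebraMap k K) = w₀.comap (algebraMap k K) := h
      exact ⟨w, InfinitePlace.mem_orbit_iff.2 h2.symm, rfl⟩
    | inr w => exact absurd h (by intro h; exact h)
  · rintro ⟨w, hw, rfl⟩
    exact (InfinitePlace.mem_orbit_iff.1 hw).symm

lemma finrank_mul : (Module.finrank ℚ K : ℝ) = Module.finrank ℚ k * Module.finrank k K := by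
  rw [← Nat.cast_mul, Module.finrank_mul_finrank ℚ k K]

end ELIM

theorem specELI : SpecELI := by
  intro k _ _ K _ _ _ hG v
  have hfin : Module.Finite k K := Module.Finite.of_restrictScalars_finite ℚ k K
  obtain ⟨w₀, hw₀⟩ := InfinitePlace.comap_surjective (k := k) (K := K) v
  have hw₁ : w₀.comap (algebraMap k K) = v := hw₀
  have hn : 0 < Module.finrank k K := Module.finrank_pos
  refine ⟨Nat.card (MulAction.stabilizer (K ≃ₐ[k] K) w₀), Nat.card_pos, ?_, ?_, ?_, ?_⟩
  · rw [← hw₁, ELIM.set_eq, Set.ncard_image_of_injective _ Sum.inl_injective,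
      ← MulAction.index_stabilizer, Subgroup.card_mul_index, IsGalois.card_aut_eq_finrank]
  · intro w hw a
    cases w with
    | inr w => exact absurd hw (by intro h; exact h)
    | inl w =>
      have h1 : w.comap (algebraMap k K) = v := hw
      obtain ⟨σ, hσ⟩ := InfinitePlace.exists_smul_eq_of_comap_eq (h1.trans hw₁.symm).symm
      have h2 : w.mult = Nat.card (MulAction.stabilizer (K ≃ₐ[k] K) w₀) * v.mult := by
        rw [← hσ, ELIM.mult_smul, ELIM.mult_eq (k := k) w₀, hw₁]
      have h3 : w (algebraMap k K a) = v a := by rw [← h1]; rfl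
      unfold absV
      rw [← Real.rpow_mul (rawAbs_nonneg _ _)]
      have h4 : rawAbs (Sum.inl w : Place K) (algebraMap k K a) =
          rawAbs (Sum.inl v : Place k) a := h3
      rw [h4]
      congr 1
      show (w.mult : ℝ) / Module.finrank ℚ K = (v.mult : ℝ) / Module.finrank ℚ k * _
      rw [h2, ELIM.finrank_mul (k := k) (K := K)]
      have h5 : (Module.finrank ℚ k : ℝ) ≠ 0 := (finrank_pos' (K := k)).ne'
      have h6 : (Module.finrank k K : ℝ) ≠ 0 := by exact_mod_cast hn.ne'
      push_cast
      field_simp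
  · intro w w' hw hw'
    cases w with
    | inr w => exact absurd hw (by intro h; exact h)
    | inl w =>
      cases w' with
      | inr w' => exact absurd hw' (by intro h; exact h)
      | inl w' =>
        have h1 : w.comap (algebraMap k K) = v := hw
        have h2 : w'.comap (algebraMap k K) = v := hw'
        obtain ⟨σ, hσ⟩ := InfinitePlace.exists_smul_eq_of_comap_eq (h1.trans h2.symm)
        refine ⟨σ.symm, fun z => ?_⟩
        rw [← hσ]
        exact ELIM.absV_smul σ w z
  · intro w hw σ
    cases w with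
    | inr w => exact absurd hw (by intro h; exact h)
    | inl w =>
      have h1 : w.comap (algebraMap k K) = v := hw
      refine ⟨Sum.inl ((σ.symm : K ≃ₐ[k] K) • w), ?_, fun z => ELIM.absV_smul σ.symm w z⟩
      show ((σ.symm : K ≃ₐ[k] K) • w).comap (algebraMap k K) = v
      rw [← h1]
      exact (InfinitePlace.mem_orbit_iff.1 (MulAction.mem_orbit w (σ.symm : K ≃ₐ[k] K))).symm

end Pool.Agent.Lib.MP_d0e829_nt.SS
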