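import Pool.Agent.Lib.MP_d0e829_nt.SS.SpecC2

/-!
MP_d0e829_nt, part C2, module ELM: the elimination of two coordinates.
-/

set_option autoImplicit false

open NumberField MvPolynomial

namespace Pool.Agent.Lib.MP_d0e829_nt.SS

open scoped Classical

namespace ELMM

variable {k : Type} [Field k]

lemma cover {a b : Fin 6} {e : Fin 4 → Fin 6} (hab : a ≠ b) (he : Function.Injective e)
    (h : ∀ j, e j ≠ a ∧ e j ≠ b) (l : Fin 6) : l = a ∨ l = b ∨ ∃ j, e j = l := by
  by_contra hcon
  push Not at hcon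
  obtain ⟨h1, h2, h3⟩ := hcon
  have h4 : ({a, b, l} : Finset (Fin 6)) ∪ Finset.univ.image e ⊆ Finset.univ := Finset.subset_univ _
  have h5 := Finset.card_le_card h4
  have h6 : Disjoint ({a, b, l} : Finset (Fin 6)) (Finset.univ.image e) := by
    rw [Finset.disjoint_left]
    intro x hx hx2
    rw [Finset.mem_image] at hx2
    obtain ⟨j, -, rfl⟩ := hx2
    simp only [Finset.mem_insert, Finset.mem_singleton] at hx
    rcases hx with hx | hx | hx
    · exact (h j).1 hx
    · exact (h j).2 hx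
    · exact h3 j hx
  rw [Finset.card_union_of_disjoint h6, Finset.card_image_of_injective _ he] at h5
  have h7 : ({a, b, l} : Finset (Fin 6)).card = 3 :=
    Finset.card_eq_three.2 ⟨a, b, l, hab, Ne.symm h1, Ne.symm h2, rfl⟩
  rw [h7] at h5
  simp at h5

lemma sum_ne (c : Fin 4 → k) (e : Fin 4 → Fin 6) (l : Fin 6) (h : ∀ j, e j ≠ l) :
    (∑ j, c j • (Pi.single (e j) (1 : k) : Fin 6 → k)) l = 0 := by
  rw [Finset.sum_apply]
  apply Finset.sum_eq_zero
  intro j _
  rw [Pi.smul_apply, Pi.single_eq_of_ne (h j).symm, smul_zero]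

lemma sum_eq (c : Fin 4 → k) (e : Fin 4 → Fin 6) (he : Function.Injective e) (j : Fin 4) :
    (∑ j, c j • (Pi.single (e j) (1 : k) : Fin 6 → k)) (e j) = c j := by
  rw [Finset.sum_apply, Finset.sum_eq_single j]
  · rw [Pi.smul_apply, Pi.single_eq_same, smul_eq_mul, mul_one]
  · intro i _ hi
    rw [Pi.smul_apply, Pi.single_eq_of_ne (fun h => hi (he h).symm), smul_zero]
  · intro h; exact absurd (Finset.mem_univ _) h

lemma decomp {a b : Fin 6} {e : Fin 4 → Fin 6} (hab : a ≠ b) (he : Function.Injective e)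
    (h : ∀ j, e j ≠ a ∧ e j ≠ b) (C : Fin 6 → k) (ha : C a = 1) (hb : C b = 0) :
    (Pi.single a (1 : k) : Fin 6 → k) -
      ∑ j, (-C (e j)) • (Pi.single (e j) (1 : k) : Fin 6 → k) = C := by
  funext l
  rw [Pi.sub_apply]
  rcases cover hab he h l with rfl | rfl | ⟨j, rfl⟩
  · rw [sum_ne _ _ _ (fun j => (h j).1), Pi.single_eq_same, ha, sub_zero]
  · rw [sum_ne _ _ _ (fun j => (h j).2), Pi.single_eq_of_ne hab.symm, hb, sub_zero]
  · rw [sum_eq (fun j => -C (e j)) e he j, Pi.single_eq_of_ne (h j).1]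
    ring

end ELMM

theorem specELM : SpecELM := by
  intro k _ U a b C D e hab hC hD hCa hCb hDa hDb he h
  have h1 : ∀ j, NE a b C D e (e j) = Pi.single j 1 := by
    intro j
    funext i
    unfold NE
    rw [if_neg (h j).1, if_neg (h j).2]
    by_cases hi : i = j
    · rw [hi, if_pos rfl, Pi.single_eq_same]
    · rw [if_neg (fun h => hi (he h).symm), Pi.single_eq_of_ne hi]
  refine ⟨h1, fun i => ?_⟩
  rcases ELMM.cover hab he h i with rfl | rfl | ⟨j, rfl⟩
  · have h2 : ∀ j, NE i b C D e i j = -C (e j) := fun j => by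
      unfold NE; rw [if_pos rfl]
    simp only [h2]
    rw [ELMM.decomp hab he h C hCa hCb]
    exact hC
  · have h2 : ∀ j, NE a i C D e i j = -D (e j) := fun j => by
      unfold NE; rw [if_neg hab.symm, if_pos rfl]
    simp only [h2]
    rw [ELMM.decomp hab.symm he (fun j => ⟨(h j).2, (h j).1⟩) D hDb hDa]
    exact hD
  · have h3 : ∑ l, NE a b C D e (e j) l • (Pi.single (e l) (1 : k) : Fin 6 → k) =
        Pi.single (e j) 1 := by
      rw [h1 j, Finset.sum_eq_single j]
      · rw [Pi.single_eq_same, one_smul]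
      · intro i _ hi
        rw [Pi.single_eq_of_ne hi, zero_smul]
      · intro h; exact absurd (Finset.mem_univ _) h
    rw [h3, sub_self]
    exact U.zero_mem

end Pool.Agent.Lib.MP_d0e829_nt.SS
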