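import Pool.Agent.Lib.MP_d0e829_nt.SS.SpecC2

/-!
# Part C: exactness of the squares (module EXA)
-/

set_option autoImplicit false

open NumberField MvPolynomial

namespace Pool.Agent.Lib.MP_d0e829_nt.SS

open scoped Classical

namespace EXAM

variable {k : Type} [Field k] [NumberField k]

/-- the sum of the absolute values of the coefficients -/
noncomputable def sabs (v : Place k) (C : Fin 6 → k) : ℝ := ∑ j, absV v (C j)

theorem absV_le_sabs (v : Place k) (C : Fin 6 → k) (j : Fin 6) : absV v (C j) ≤ sabs v C :=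
  Finset.single_le_sum (f := fun j => absV v (C j)) (fun _ _ => absV_nonneg v _)
    (Finset.mem_univ j)

theorem sabs_nonneg (v : Place k) (C : Fin 6 → k) : 0 ≤ sabs v C :=
  Finset.sum_nonneg fun _ _ => absV_nonneg v _

theorem exists_kappa (S : Finset (Place k)) (C : Fin 6 → k) :
    ∃ κ : ℝ, 0 ≤ κ ∧ ∀ v ∈ S, ∀ i, C i ≠ 0 →
      (5 : ℝ) ^ sw v * sabs v C < Real.exp κ * absV v (C i) := by
  have hn : ∀ (v : Place k) (i : Fin 6), 0 ≤ (5 : ℝ) ^ sw v * sabs v C / absV v (C i) :=
    fun v i => div_nonneg (mul_nonneg (Real.rpow_nonneg (by norm_num) _) (sabs_nonneg v C))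
      (absV_nonneg v _)
  refine ⟨∑ v ∈ S, ∑ i, (5 : ℝ) ^ sw v * sabs v C / absV v (C i),
    Finset.sum_nonneg fun v _ => Finset.sum_nonneg fun i _ => hn v i, ?_⟩
  intro v hv i hi
  have h1 : (5 : ℝ) ^ sw v * sabs v C / absV v (C i) ≤
      ∑ v ∈ S, ∑ i, (5 : ℝ) ^ sw v * sabs v C / absV v (C i) := by
    refine le_trans ?_ (Finset.single_le_sum
      (f := fun v => ∑ i, (5 : ℝ) ^ sw v * sabs v C / absV v (C i))
      (fun v _ => Finset.sum_nonneg fun i _ => hn v i) hv)
    exact Finset.single_le_sum (f := fun i => (5 : ℝ) ^ sw v * sabs v C / absV v (C i))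
      (fun i _ => hn v i) (Finset.mem_univ i)
  have h2 := Real.add_one_le_exp (∑ v ∈ S, ∑ i, (5 : ℝ) ^ sw v * sabs v C / absV v (C i))
  rw [← div_lt_iff₀ (absV_pos v hi)]
  linarith

end EXAM

theorem specEXA : SpecEXA := by
  intro k _ _ S B C h3 h4 h5
  obtain ⟨κ, hκ0, hκ⟩ := EXAM.exists_kappa S C
  refine ⟨κ, hκ0, ?_⟩
  intro v hv f W c hf hsum hGe hLe i hi
  by_contra hcon
  push Not at hcon
  have hi3 : (i : ℕ) < 3 := by
    by_contra h
    have : i = 3 ∨ i = 4 ∨ i = 5 := by
      have := i.2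
      rcases (by omega : (i : ℕ) = 3 ∨ (i : ℕ) = 4 ∨ (i : ℕ) = 5) with h | h | h
      · exact Or.inl (Fin.ext h)
      · exact Or.inr (Or.inl (Fin.ext h))
      · exact Or.inr (Or.inr (Fin.ext h))
    rcases this with h | h | h
    · exact hi (h ▸ h3)
    · exact hi (h ▸ h4)
    · exact hi (h ▸ h5)
  have hn : 0 < nrm v f := nrm_pos v hf
  set E := Real.exp (-(W i + κ + c)) with hE
  have hE0 : 0 < E := Real.exp_pos _
  have hM := EXAM.sabs_nonneg v C
  have hterm : ∀ j ∈ Finset.univ.erase i, absV v (C j * (S2 B j ⬝ᵥ f)) ≤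
      EXAM.sabs v C * (E * nrm v f) := by
    intro j hj
    by_cases hCj : C j = 0
    · rw [hCj, zero_mul]
      have : absV v (0 : k) = absV v (C 3) := by rw [h3]
      rw [this]
      have h0 : absV v (C 3) = 0 := by
        rw [h3, absV, rawAbs_zero, Real.zero_rpow (weight_pos v).ne']
      rw [h0]
      positivity
    · have hW := hcon j (Finset.ne_of_mem_erase hj) hCj
      have h1 := hGe j
      unfold Ge at h1
      rw [absV_mul]
      refine mul_le_mul (EXAM.absV_le_sabs v C j) (h1.trans ?_) (absV_nonneg v _) hM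
      refine mul_le_mul_of_nonneg_right (Real.exp_le_exp.mpr ?_) hn.le
      linarith
  have hB : 0 ≤ EXAM.sabs v C * (E * nrm v f) := by positivity
  have hs := absV_sum_le v (Finset.univ.erase i) (fun j => C j * (S2 B j ⬝ᵥ f)) hB hterm
  have hcard : ((Finset.univ.erase i).card : ℝ) = 5 := by
    rw [Finset.card_erase_of_mem (Finset.mem_univ i)]
    simp
  rw [hcard] at hs
  have heq : C i * (S2 B i ⬝ᵥ f) = -∑ j ∈ Finset.univ.erase i, C j * (S2 B j ⬝ᵥ f) := by
    rw [← Finset.add_sum_erase Finset.univ _ (Finset.mem_univ i)] at hsum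
    exact eq_neg_of_add_eq_zero_left hsum
  have hl : absV v (C i) * (Real.exp (-(W i + c)) * nrm v f) ≤ absV v (C i * (S2 B i ⬝ᵥ f)) := by
    rw [absV_mul]
    exact mul_le_mul_of_nonneg_left (hLe i hi3) (absV_nonneg v _)
  rw [heq, absV_neg] at hl
  have hfin := hl.trans hs
  have hEE : Real.exp (-(W i + c)) = Real.exp κ * E := by
    rw [hE, ← Real.exp_add]
    congr 1
    ring
  rw [hEE] at hfin
  have hk := hκ v hv i hi
  have hpos : 0 < E * nrm v f := mul_pos hE0 hn
  have := mul_lt_mul_of_pos_right hk hpos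
  nlinarith

end Pool.Agent.Lib.MP_d0e829_nt.SS
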