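import Pool.Agent.Lib.MP_d0e829_nt.SS.SpecE

/-!
# EXTV: the extension of the absolute value of `v` to a field of degree at most two
-/

set_option autoImplicit false

open NumberField

namespace Pool.Agent.Lib.MP_d0e829_nt.SS

open scoped Classical Pointwise

namespace EXTVM

lemma absV_add {K : Type} [Field K] [NumberField K] (w : Place K) (a b : K) {B : ℝ}
    (ha : absV w a ≤ B) (hb : absV w b ≤ B) : absV w (a + b) ≤ (2 : ℝ) ^ sw w * B := by
  have hB : 0 ≤ B := (absV_nonneg w a).trans ha
  have h := absV_sum_le w (Finset.univ : Finset (Fin 2)) ![a, b] hB (by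
    intro i _
    fin_cases i
    · exact ha
    · exact hb)
  simpa [Fin.sum_univ_two] using h

lemma absV_two {K : Type} [Field K] [NumberField K] (w : InfinitePlace K) :
    absV (Sum.inl w : Place K) 2 = (2 : ℝ) ^ weight (Sum.inl w : Place K) := by
  have h : w (2 : K) = 2 := by
    have h1 := InfinitePlace.norm_embedding_eq w (2 : K)
    rw [← h1, map_ofNat]
    norm_num
  simp only [absV, rawAbs, h]

lemma sw_eq {k : Type} [Field k] [NumberField k] {K : Type} [Field K] [NumberField K]
    [Algebra k K] {v : Place k} {w : Place K} (h : LiesOver w v) {e : ℝ}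
    (he : ∀ a : k, absV w (algebraMap k K a) = absV v a ^ e) : sw w = sw v * e := by
  rcases v with v | v
  · rcases w with w | w
    · have h2 := he 2
      rw [map_ofNat, absV_two, absV_two, ← Real.rpow_mul (by norm_num)] at h2
      have h3 := congrArg Real.log h2
      rw [Real.log_rpow (by norm_num), Real.log_rpow (by norm_num)] at h3
      exact mul_right_cancel₀ (Real.log_pos (by norm_num)).ne' h3
    · exact absurd h (by simp [LiesOver])
  · rcases w with w | w
    · exact absurd h (by simp [LiesOver])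
    · simp [sw]

end EXTVM

theorem specEXTV (hEGAL : SpecEGAL) (hEINJ : SpecEINJ) (hELI : SpecELI) (hELF : SpecELF) :
    SpecEXTV := by
  intro k _ _ K _ _ _ hn
  obtain ⟨hgal, τ, hττ, hfix, hσ⟩ := hEGAL k K hn
  refine ⟨τ, hττ, hfix, fun v => ?_⟩
  have hLD : LocDeg k K v := by
    rcases v with v | v
    · exact hELI k K hgal v
    · exact hELF k K hgal v
  obtain ⟨d, hd0, hcount, hext, htrans, hact⟩ := hLD
  have : FiniteDimensional k K := Module.Finite.of_restrictScalars_finite ℚ k K
  have hn0 : 0 < Module.finrank k K := Module.finrank_pos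
  have hnc0 : 0 < {w : Place K | LiesOver w v}.ncard := by
    rcases Nat.eq_zero_or_pos {w : Place K | LiesOver w v}.ncard with h0 | h0
    · rw [h0, mul_zero] at hcount
      omega
    · exact h0
  have hcases : ({w : Place K | LiesOver w v}.ncard = 1 ∧ d = Module.finrank k K) ∨
      ({w : Place K | LiesOver w v}.ncard = 2 ∧ d = 1 ∧ Module.finrank k K = 2) := by
    have hg2 : {w : Place K | LiesOver w v}.ncard ≤ 2 := by
      calc {w : Place K | LiesOver w v}.ncard = 1 * {w : Place K | LiesOver w v}.ncard := by ring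
        _ ≤ d * {w : Place K | LiesOver w v}.ncard := Nat.mul_le_mul_right _ hd0
        _ ≤ 2 := by rw [hcount]; exact hn
    generalize {w : Place K | LiesOver w v}.ncard = g at *
    interval_cases g
    · left; omega
    · right; omega
  rcases hcases with ⟨hg, hd⟩ | ⟨hg, hd, hn2⟩
  · -- one place above `v`
    obtain ⟨w, hw⟩ := Set.ncard_eq_one.1 hg
    have hiff : ∀ w' : Place K, LiesOver w' v ↔ w' = w := by
      intro w'
      have : w' ∈ {w : Place K | LiesOver w v} ↔ w' ∈ ({w} : Set (Place K)) := by rw [hw]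
      simpa using this
    have hwv : LiesOver w v := (hiff w).2 rfl
    have he1 : ((d : ℝ) / Module.finrank k K) = 1 := by
      rw [hd]
      exact div_self (by exact_mod_cast hn0.ne')
    have hext1 : ∀ a : k, absV w (algebraMap k K a) = absV v a ^ (1 : ℝ) := by
      intro a
      rw [hext w hwv a, he1]
    have hsw : sw w = sw v := by
      rw [EXTVM.sw_eq hwv hext1, mul_one]
    refine ⟨fun z => absV w z, ⟨absV_zero w, fun z hz => absV_pos w hz, absV_mul w, ?_, ?_⟩,
      Or.inl ⟨w, hiff, fun z => rfl, ?_⟩⟩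
    · intro z z' B hz hz'
      rw [← hsw]
      exact EXTVM.absV_add w z z' hz hz'
    · intro a
      show absV w (algebraMap k K a) = absV v a
      rw [hext1 a, Real.rpow_one]
    · intro z
      obtain ⟨w', hw', h⟩ := hact w hwv τ
      rw [(hiff w').1 hw'] at h
      exact (h z).symm
  · -- two places above `v`
    obtain ⟨w, w', hne, hw⟩ := Set.ncard_eq_two.1 hg
    have hiff : ∀ w'' : Place K, LiesOver w'' v ↔ w'' = w ∨ w'' = w' := by
      intro w''
      have : w'' ∈ {w : Place K | LiesOver w v} ↔ w'' ∈ ({w, w'} : Set (Place K)) := by rw [hw]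
      simpa using this
    have hwv : LiesOver w v := (hiff w).2 (Or.inl rfl)
    have hwv' : LiesOver w' v := (hiff w').2 (Or.inr rfl)
    have he1 : ((d : ℝ) / Module.finrank k K) = 1 / 2 := by
      rw [hd, hn2]
      norm_num
    have hext1 : ∀ a : k, absV w (algebraMap k K a) = absV v a ^ (1 / 2 : ℝ) := by
      intro a
      rw [hext w hwv a, he1]
    have hsw : sw w = sw v * (1 / 2) := EXTVM.sw_eq hwv hext1
    have hτw : ∀ z, absV w' z = absV w (τ z) := by
      obtain ⟨σ, hσz⟩ := htrans w w' hwv hwv'
      rcases hσ σ with h | h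
      · exfalso
        apply hne
        apply hEINJ K w w'
        intro z
        rw [hσz z, h z]
      · intro z
        rw [hσz z, h z]
    have hroot : ∀ z : K, absV w z = (absV w z ^ 2) ^ (1 / 2 : ℝ) := by
      intro z
      rw [← Real.sqrt_eq_rpow, Real.sqrt_sq (absV_nonneg w z)]
    refine ⟨fun z => absV w z ^ 2, ⟨?_, fun z hz => pow_pos (absV_pos w hz) 2, ?_, ?_, ?_⟩,
      Or.inr ⟨w, w', hne, hiff, hroot, ?_⟩⟩
    · show absV w 0 ^ 2 = 0
      rw [absV_zero]
      norm_num
    · intro z z'
      show absV w (z * z') ^ 2 = absV w z ^ 2 * absV w z' ^ 2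
      rw [absV_mul]
      ring
    · intro z z' B hz hz'
      have hz1 : absV w z ≤ Real.sqrt B := Real.le_sqrt_of_sq_le hz
      have hz1' : absV w z' ≤ Real.sqrt B := Real.le_sqrt_of_sq_le hz'
      have hB : 0 ≤ B := (sq_nonneg _).trans hz
      have h := EXTVM.absV_add w z z' hz1 hz1'
      have h2 : absV w (z + z') ^ 2 ≤ ((2 : ℝ) ^ sw w * Real.sqrt B) ^ 2 :=
        pow_le_pow_left₀ (absV_nonneg w _) h 2
      have h3 : ((2 : ℝ) ^ sw w * Real.sqrt B) ^ 2 = (2 : ℝ) ^ sw v * B := by
        rw [mul_pow, Real.sq_sqrt hB, ← Real.rpow_natCast ((2 : ℝ) ^ sw w) 2,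
          ← Real.rpow_mul (by norm_num), hsw]
        congr 2
        push_cast
        ring
      rw [h3] at h2
      exact h2
    · intro a
      show absV w (algebraMap k K a) ^ 2 = absV v a
      rw [hext1 a, ← Real.sqrt_eq_rpow, Real.sq_sqrt (absV_nonneg v a)]
    · intro z
      show absV w' z = (absV w (τ z) ^ 2) ^ (1 / 2 : ℝ)
      rw [hτw z]
      exact hroot (τ z)

end Pool.Agent.Lib.MP_d0e829_nt.SS
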