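import Pool.Agent.Lib.MP_d0e829_nt.SS.SpecF

set_option autoImplicit false

open NumberField

namespace Pool.Agent.Lib.MP_d0e829_nt.SS

open scoped Classical

theorem specFC1 (hFGL : SpecFGL) : SpecFC1 := by
  intro k _ _ v
  obtain ⟨C1, hC1, hF⟩ := hFGL k v
  refine ⟨C1, hC1, ?_⟩
  intro C0 hC0 F _ _ av x x' f hLD B T μ μ' hne hlo hμ hμ' hμZ hμZ' hT
  obtain ⟨hsq, hmix⟩ := hF F av x x' f hLD
  have a0 := (hlo 0).1
  have a0' := (hlo 0).2
  have a1 := (hlo 1).1
  have a1' := (hlo 1).2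
  have a2 := (hlo 2).1
  have a2' := (hlo 2).2
  have m1 := le_max_left (lam av (B 0) x) 0
  have m1' := le_max_right (lam av (B 0) x) 0
  have m2 := le_max_left (lam av (B 1) x') 0
  have m2' := le_max_right (lam av (B 1) x') 0
  have m3 := le_max_left μ 0
  have m3' := le_max_right μ 0
  have m4 := le_max_left μ' 0
  have m4' := le_max_right μ' 0
  have hp : max (lam av (B 0) x) 0 ≤ lam av (B 0) x + C0 := max_le (by linarith) (by linarith)
  have hq : max (lam av (B 1) x') 0 ≤ lam av (B 1) x' + C0 := max_le (by linarith) (by linarith)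
  have hap : max μ 0 ≤ max (lam av (B 0) x) 0 := max_le_max hμ le_rfl
  have hbq : max μ' 0 ≤ max (lam av (B 1) x') 0 := max_le_max hμ' le_rfl
  have haZ : max μ 0 ≤ lam av (B 2) x + C0 := max_le (by linarith) (by linarith)
  have hbZ : max μ' 0 ≤ lam av (B 2) x' + C0 := max_le (by linarith) (by linarith)
  refine ⟨max (lam av (B 0) x) 0, max (lam av (B 1) x') 0, max μ 0, max μ' 0, m3', hap, m4', hbq,
    by linarith, ?_⟩
  intro i
  fin_cases i
  · exact (hsq (B 0) (hne 0).1 (hne 0).2 _).1 (by simp [WA1]; linarith)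
  · exact (hsq (B 1) (hne 1).1 (hne 1).2 _).1 (by simp [WA1]; linarith)
  · exact (hsq (B 2) (hne 2).1 (hne 2).2 _).1 (by simp [WA1]; linarith)
  · exact hmix (B 1) (B 2) (hne 1).1 (hne 1).2 (hne 2).1 (hne 2).2 _
      (by simp [WA1]; linarith) (by simp [WA1]; linarith)
  · exact hmix (B 0) (B 2) (hne 0).1 (hne 0).2 (hne 2).1 (hne 2).2 _
      (by simp [WA1]; linarith) (by simp [WA1]; linarith)
  · exact hmix (B 0) (B 1) (hne 0).1 (hne 0).2 (hne 1).1 (hne 1).2 _
      (by simp [WA1]; linarith) (by simp [WA1]; linarith)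

end Pool.Agent.Lib.MP_d0e829_nt.SS
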