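import Pool.Agent.Lib.MP_d0e829_nt.SS.SpecF

set_option autoImplicit false

open NumberField

namespace Pool.Agent.Lib.MP_d0e829_nt.SS

open scoped Classical

theorem specFCA (hFGL : SpecFGL) : SpecFCA := by
  intro k _ _ v
  obtain ⟨C1, hC1, hF⟩ := hFGL k v
  refine ⟨C1, hC1, ?_⟩
  intro C0 hC0 F _ _ av x x' f hLD B T hne hlo hX' hY hT
  obtain ⟨hsq, hmix⟩ := hF F av x x' f hLD
  have a0 := (hlo 0).1
  have a0' := (hlo 0).2
  have a1 := (hlo 1).1
  have a1' := (hlo 1).2
  have a2 := (hlo 2).1
  have a2' := (hlo 2).2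
  have m1 := le_max_left (lam av (B 0) x) 0
  have m1' := le_max_right (lam av (B 0) x) 0
  have m2 := le_max_left (lam av (B 1) x') 0
  have m2' := le_max_right (lam av (B 1) x') 0
  have m3 := le_max_left (lam av (B 2) x) 0
  have m3' := le_max_right (lam av (B 2) x) 0
  have m4 := le_max_left (lam av (B 2) x') 0
  have m4' := le_max_right (lam av (B 2) x') 0
  have hp : max (lam av (B 0) x) 0 ≤ lam av (B 0) x + C0 := max_le (by linarith) (by linarith)
  have hq : max (lam av (B 1) x') 0 ≤ lam av (B 1) x' + C0 := max_le (by linarith) (by linarith)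
  have hz : max (lam av (B 2) x) 0 ≤ lam av (B 2) x + C0 := max_le (by linarith) (by linarith)
  have hz' : max (lam av (B 2) x') 0 ≤ lam av (B 2) x' + C0 := max_le (by linarith) (by linarith)
  generalize max (lam av (B 0) x) 0 = p at *
  generalize max (lam av (B 1) x') 0 = q at *
  generalize max (lam av (B 2) x) 0 = z at *
  generalize max (lam av (B 2) x') 0 = z' at *
  have n1 := min_le_left z' (z + q)
  have n1' := min_le_right z' (z + q)
  have n2 := min_le_left z (p + z')
  have n2' := min_le_right z (p + z')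
  refine ⟨p, q, z, z', m1', m2', m3', m4', by linarith, ?_, ?_⟩
  · intro i
    fin_cases i
    · refine (hsq (B 0) (hne 0).1 (hne 0).2 _).1 ?_
      show p - (2 * C0 + C1) + C1 ≤ _
      linarith
    · refine (hsq (B 1) (hne 1).1 (hne 1).2 _).1 ?_
      show q - (2 * C0 + C1) + C1 ≤ _
      linarith
    · refine (hsq (B 2) (hne 2).1 (hne 2).2 _).1 ?_
      show z + z' - (2 * C0 + C1) + C1 ≤ _
      linarith
    · refine hmix (B 1) (B 2) (hne 1).1 (hne 1).2 (hne 2).1 (hne 2).2 _ ?_ ?_
      · show min z' (z + q) - (2 * C0 + C1) + C1 ≤ _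
        linarith
      · show min z' (z + q) - (2 * C0 + C1) + C1 ≤ _
        linarith
    · refine hmix (B 0) (B 2) (hne 0).1 (hne 0).2 (hne 2).1 (hne 2).2 _ ?_ ?_
      · show min z (p + z') - (2 * C0 + C1) + C1 ≤ _
        linarith
      · show min z (p + z') - (2 * C0 + C1) + C1 ≤ _
        linarith
    · refine hmix (B 0) (B 1) (hne 0).1 (hne 0).2 (hne 1).1 (hne 1).2 _ ?_ ?_
      · show (0 : ℝ) - (2 * C0 + C1) + C1 ≤ _
        linarith
      · show (0 : ℝ) - (2 * C0 + C1) + C1 ≤ _
        linarith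
  · intro i hi
    fin_cases i
    · refine (hsq (B 0) (hne 0).1 (hne 0).2 _).2 ?_
      show _ ≤ p + (2 * C0 + C1)
      linarith
    · refine (hsq (B 1) (hne 1).1 (hne 1).2 _).2 ?_
      show _ ≤ q + (2 * C0 + C1)
      linarith
    · refine (hsq (B 2) (hne 2).1 (hne 2).2 _).2 ?_
      show _ ≤ z + z' + (2 * C0 + C1)
      linarith
    · exact absurd hi (by decide)
    · exact absurd hi (by decide)
    · exact absurd hi (by decide)

end Pool.Agent.Lib.MP_d0e829_nt.SS
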