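import Pool.Agent.Lib.MP_d0e829_nt.SS.SpecF

/-!
# Module FCB: frames of type B (helper82)
-/

set_option autoImplicit false

open NumberField

namespace Pool.Agent.Lib.MP_d0e829_nt.SS

open scoped Classical

namespace FCBM

theorem key (C0 t : ℝ) (h : -C0 ≤ t) (h0 : 0 ≤ C0) :
    t ≤ max t 0 ∧ 0 ≤ max t 0 ∧ max t 0 ≤ t + C0 :=
  ⟨le_max_left _ _, le_max_right _ _, max_le (by linarith) (by linarith)⟩

end FCBM

theorem specFCB (hFGL : SpecFGL) : SpecFCB := by
  intro k _ _ v
  obtain ⟨C1, hC1, hG⟩ := hFGL k v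
  refine ⟨C1, hC1, ?_⟩
  intro C0 hC0 F _ _ av x x' f hLD B T hne hlow hZ hZ' hT
  obtain ⟨hS, hM⟩ := hG F av x x' f hLD
  obtain ⟨hX, hX'⟩ := hne 0
  obtain ⟨hY, hY'⟩ := hne 1
  obtain ⟨hz, hz'⟩ := hne 2
  obtain ⟨lX, lX'⟩ := hlow 0
  obtain ⟨lY, lY'⟩ := hlow 1
  obtain ⟨lZ, lZ'⟩ := hlow 2
  obtain ⟨p1, p2, p3⟩ := FCBM.key C0 _ lX hC0
  obtain ⟨r1, r2, r3⟩ := FCBM.key C0 _ lX' hC0
  obtain ⟨q1, q2, q3⟩ := FCBM.key C0 _ lY hC0
  obtain ⟨s1, s2, s3⟩ := FCBM.key C0 _ lY' hC0
  have hSX := hS (B 0) hX hX'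
  have hSY := hS (B 1) hY hY'
  have hSZ := hS (B 2) hz hz'
  have hYZ := hM (B 1) (B 2) hY hY' hz hz'
  have hXZ := hM (B 0) (B 2) hX hX' hz hz'
  have hXY := hM (B 0) (B 1) hX hX' hY hY'
  refine ⟨max (lam av (B 0) x) 0, max (lam av (B 0) x') 0, max (lam av (B 1) x) 0,
    max (lam av (B 1) x') 0, p2, r2, q2, s2, by linarith, ?_, ?_⟩
  · generalize max (lam av (B 0) x) 0 = p at *
    generalize max (lam av (B 0) x') 0 = p' at *
    generalize max (lam av (B 1) x) 0 = q at *
    generalize max (lam av (B 1) x') 0 = q' at *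
    intro i
    fin_cases i
    · change Ge v (sqv (B 0)) f (p + p' - (2 * C0 + C1))
      exact (hSX _).1 (by linarith)
    · change Ge v (sqv (B 1)) f (q + q' - (2 * C0 + C1))
      exact (hSY _).1 (by linarith)
    · change Ge v (sqv (B 2)) f (0 - (2 * C0 + C1))
      exact (hSZ _).1 (by linarith)
    · change Ge v (mix (B 1) (B 2)) f (min q q' - (2 * C0 + C1))
      have h1 := min_le_left q q'
      have h2 := min_le_right q q'
      exact hYZ _ (by linarith) (by linarith)
    · change Ge v (mix (B 0) (B 2)) f (min p p' - (2 * C0 + C1))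
      have h1 := min_le_left p p'
      have h2 := min_le_right p p'
      exact hXZ _ (by linarith) (by linarith)
    · change Ge v (mix (B 0) (B 1)) f (min (p + q') (q + p') - (2 * C0 + C1))
      have h1 := min_le_left (p + q') (q + p')
      have h2 := min_le_right (p + q') (q + p')
      exact hXY _ (by linarith) (by linarith)
  · generalize max (lam av (B 0) x) 0 = p at *
    generalize max (lam av (B 0) x') 0 = p' at *
    generalize max (lam av (B 1) x) 0 = q at *
    generalize max (lam av (B 1) x') 0 = q' at *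
    intro i hi
    fin_cases i
    · change Le v (sqv (B 0)) f (p + p' + (2 * C0 + C1))
      exact (hSX _).2 (by linarith)
    · change Le v (sqv (B 1)) f (q + q' + (2 * C0 + C1))
      exact (hSY _).2 (by linarith)
    · change Le v (sqv (B 2)) f (0 + (2 * C0 + C1))
      exact (hSZ _).2 (by linarith)
    · exact absurd hi (by decide)
    · exact absurd hi (by decide)
    · exact absurd hi (by decide)

end Pool.Agent.Lib.MP_d0e829_nt.SS
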