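import Pool.Agent.Lib.MP_d0e829_nt.SS.SpecF

/-!
# Part C, frames, module FNM: the norm of the quadratic vector
-/

set_option autoImplicit false

open NumberField

namespace Pool.Agent.Lib.MP_d0e829_nt.SS

open scoped Classical

namespace FNMM

/-- the product of the values of a form at the two points -/
lemma form_mul {k : Type} [Field k] {F : Type} [Field F] [Algebra k F] {x x' : Fin 3 → F}
    {f : Fin 6 → k} (hf : ∀ j, algebraMap k F (f j) = sq x x' j) (c : Fin 3 → k) :
    algebraMap k F (sqv c ⬝ᵥ f) = evalForm c x * evalForm c x' := by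
  have h0 := hf 0
  have h1 := hf 1
  have h2 := hf 2
  have h3 := hf 3
  have h4 := hf 4
  have h5 := hf 5
  simp only [sq] at h0 h1 h2 h3 h4 h5
  simp only [Matrix.cons_val] at h0 h1 h2 h3 h4 h5
  unfold evalForm sqv dotProduct
  rw [Fin.sum_univ_six, Fin.sum_univ_three, Fin.sum_univ_three]
  simp only [map_add, map_mul, map_pow, Matrix.cons_val]
  rw [h0, h1, h2, h3, h4, h5]
  ring

/-- the nodes -/
def cc (k : Type) [Field k] (t : Fin 5) : Fin 3 → k := ![1, ((t : ℕ) : k), ((t : ℕ) : k) ^ 2]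

lemma det_ne {k : Type} [Field k] [CharZero k] {a b c : Fin 5} (hab : a ≠ b) (hac : a ≠ c) (hbc : b ≠ c) :
    (Matrix.of ![cc k a, cc k b, cc k c]).det ≠ 0 := by
  have h1 : (Matrix.of ![cc k a, cc k b, cc k c]).det =
      (((b : ℕ) : k) - ((a : ℕ) : k)) * (((c : ℕ) : k) - ((a : ℕ) : k)) * (((c : ℕ) : k) - ((b : ℕ) : k)) := by
    rw [Matrix.det_fin_three]
    simp only [cc, Matrix.of_apply, Matrix.cons_val]
    ring
  rw [h1]
  have hinj : ∀ {s t : Fin 5}, s ≠ t → ((t : ℕ) : k) - ((s : ℕ) : k) ≠ 0 := by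
    intro s t hst h
    apply hst
    rw [sub_eq_zero] at h
    have h2 : (t : ℕ) = s := by exact_mod_cast h
    exact (Fin.ext h2).symm
  exact mul_ne_zero (mul_ne_zero (hinj hab) (hinj hac)) (hinj hbc)

section

variable {k : Type} [Field k] [NumberField k] {v : Place k} {F : Type} [Field F] [Algebra k F] {av : F → ℝ}

lemma av_nonneg (h : ExtAbs v F av) (z : F) : 0 ≤ av z := by
  by_cases hz : z = 0
  · rw [hz, h.zero]
  · exact (h.pos z hz).le

lemma av_le_nav (x : Fin 3 → F) (j : Fin 3) : av (x j) ≤ nav av x :=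
  le_ciSup (f := fun j => av (x j)) (Set.finite_range _).bddAbove j

lemma nav_pos (h : ExtAbs v F av) {x : Fin 3 → F} (hx : x ≠ 0) : 0 < nav av x := by
  obtain ⟨j, hj⟩ := Function.ne_iff.mp hx
  exact (h.pos _ hj).trans_le (av_le_nav x j)

lemma one_le_two_sw (v : Place k) : 1 ≤ (2 : ℝ) ^ sw v := Real.one_le_rpow (by norm_num) (sw_nonneg v)

lemma sq_le (h : ExtAbs v F av) {x x' : Fin 3 → F} (hx : x ≠ 0) (hx' : x' ≠ 0) (j : Fin 6) :
    av (sq x x' j) ≤ (2 : ℝ) ^ sw v * (nav av x * nav av x') := by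
  have hp := nav_pos h hx
  have hp' := nav_pos h hx'
  have hm : ∀ i j, av (x i * x' j) ≤ nav av x * nav av x' := by
    intro i j
    rw [h.mul]
    exact mul_le_mul (av_le_nav x i) (av_le_nav x' j) (av_nonneg h _) hp.le
  have h1 : ∀ i, av (x i * x' i) ≤ (2 : ℝ) ^ sw v * (nav av x * nav av x') := by
    intro i
    refine (hm i i).trans ?_
    exact le_mul_of_one_le_left (by positivity) (one_le_two_sw v)
  have h2 : ∀ i j, av (x i * x' j + x j * x' i) ≤ (2 : ℝ) ^ sw v * (nav av x * nav av x') :=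
    fun i j => h.add _ _ _ (hm i j) (hm j i)
  fin_cases j
  · exact h1 0
  · exact h1 1
  · exact h1 2
  · exact h2 1 2
  · exact h2 0 2
  · exact h2 0 1

end

end FNMM

open FNMM in
theorem specFNM (hFLW : SpecFLW) : SpecFNM := by
  intro k _ _ v
  have h1 : ∀ a b c : Fin 5, a ≠ b ∧ a ≠ c ∧ b ≠ c → ∃ C : ℝ, 0 ≤ C ∧
      ∀ (F : Type) [Field F] [Algebra k F] (av : F → ℝ) (x : Fin 3 → F),
      ExtAbs v F av → x ≠ 0 → ∃ i, nav av x ≤ Real.exp C *
        av (evalForm ((Matrix.of ![cc k a, cc k b, cc k c]) i) x) :=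
    fun a b c h => hFLW k _ (det_ne h.1 h.2.1 h.2.2) v
  choose! Cf hCf0 hCf using h1
  set C1 : ℝ := ∑ a, ∑ b, ∑ c, |Cf a b c| with hC1
  have hC10 : 0 ≤ C1 := Finset.sum_nonneg fun a _ => Finset.sum_nonneg fun b _ =>
    Finset.sum_nonneg fun c _ => abs_nonneg _
  have hCle : ∀ a b c, Cf a b c ≤ C1 := by
    intro a b c
    refine (le_abs_self _).trans ?_
    have h2 : |Cf a b c| ≤ ∑ c, |Cf a b c| :=
      Finset.single_le_sum (f := fun c => |Cf a b c|) (fun c _ => abs_nonneg _) (Finset.mem_univ c)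
    have h3 : ∑ c, |Cf a b c| ≤ ∑ b, ∑ c, |Cf a b c| :=
      Finset.single_le_sum (f := fun b => ∑ c, |Cf a b c|)
        (fun b _ => Finset.sum_nonneg fun c _ => abs_nonneg _) (Finset.mem_univ b)
    have h4 : ∑ b, ∑ c, |Cf a b c| ≤ C1 :=
      Finset.single_le_sum (f := fun a => ∑ b, ∑ c, |Cf a b c|)
        (fun a _ => Finset.sum_nonneg fun b _ => Finset.sum_nonneg fun c _ => abs_nonneg _) (Finset.mem_univ a)
    exact h2.trans (h3.trans h4)
  set B : ℝ := 1 + ∑ t, nrm v (sqv (cc k t)) with hB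
  have hB1 : 1 ≤ B := by
    have : 0 ≤ ∑ t, nrm v (sqv (cc k t)) := Finset.sum_nonneg fun t _ => nrm_nonneg v _
    linarith
  have hBle : ∀ t, nrm v (sqv (cc k t)) ≤ B := by
    intro t
    have h2 : nrm v (sqv (cc k t)) ≤ ∑ t, nrm v (sqv (cc k t)) :=
      Finset.single_le_sum (f := fun t => nrm v (sqv (cc k t)))
        (fun t _ => nrm_nonneg v _) (Finset.mem_univ t)
    linarith
  set D : ℝ := Real.exp (2 * C1) * ((6 : ℝ) ^ sw v * B) with hD
  have h6 : 1 ≤ (6 : ℝ) ^ sw v := Real.one_le_rpow (by norm_num) (sw_nonneg v)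
  have hD1 : 1 ≤ D := by
    have h2 : 1 ≤ Real.exp (2 * C1) := Real.one_le_exp (by linarith)
    have h3 : 1 ≤ (6 : ℝ) ^ sw v * B := one_le_mul_of_one_le_of_one_le h6 hB1
    exact one_le_mul_of_one_le_of_one_le h2 h3
  refine ⟨Real.log D + sw v * Real.log 2, ?_, ?_⟩
  · have h2 := Real.log_nonneg hD1
    have h3 := mul_nonneg (sw_nonneg v) (Real.log_nonneg (show (1 : ℝ) ≤ 2 by norm_num))
    linarith
  intro F _ _ av x x' f hL
  obtain ⟨hE, hx, hx', hf⟩ := hL
  have hp := nav_pos hE hx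
  have hp' := nav_pos hE hx'
  -- a good node
  have hbad : ∀ z : Fin 3 → F, z ≠ 0 →
      (Finset.univ.filter fun t : Fin 5 => Real.exp C1 * av (evalForm (cc k t) z) < nav av z).card ≤ 2 := by
    intro z hz
    by_contra hc
    rw [not_le, Finset.two_lt_card] at hc
    obtain ⟨a, ha, b, hb, c, hc', hab, hac, hbc⟩ := hc
    simp only [Finset.mem_filter, Finset.mem_univ, true_and] at ha hb hc'
    obtain ⟨i, hi⟩ := hCf a b c ⟨hab, hac, hbc⟩ F av z hE hz
    have h3 : ∀ t : Fin 5, Real.exp C1 * av (evalForm (cc k t) z) < nav av z →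
        Real.exp (Cf a b c) * av (evalForm (cc k t) z) < nav av z := by
      intro t ht
      refine lt_of_le_of_lt ?_ ht
      exact mul_le_mul_of_nonneg_right (Real.exp_le_exp.2 (hCle a b c)) (av_nonneg hE _)
    have h4 : ∀ i : Fin 3, Real.exp (Cf a b c) *
        av (evalForm ((Matrix.of ![cc k a, cc k b, cc k c]) i) z) < nav av z := by
      intro i
      fin_cases i
      · exact h3 a ha
      · exact h3 b hb
      · exact h3 c hc'
    exact absurd hi (not_le.2 (h4 i))
  obtain ⟨t, ht⟩ : ∃ t : Fin 5, t ∉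
      (Finset.univ.filter fun t : Fin 5 => Real.exp C1 * av (evalForm (cc k t) x) < nav av x) ∪
      (Finset.univ.filter fun t : Fin 5 => Real.exp C1 * av (evalForm (cc k t) x') < nav av x') := by
    by_contra hc
    push Not at hc
    have h2 : (Finset.univ : Finset (Fin 5)).card ≤ 4 := by
      refine (Finset.card_le_card (fun t _ => hc t)).trans ((Finset.card_union_le _ _).trans ?_)
      have := hbad x hx
      have := hbad x' hx'
      omega
    rw [Finset.card_univ, Fintype.card_fin] at h2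
    omega
  simp only [Finset.mem_union, Finset.mem_filter, Finset.mem_univ, true_and, not_or, not_lt] at ht
  obtain ⟨ht1, ht2⟩ := ht
  have hval : absV v (sqv (cc k t) ⬝ᵥ f) = av (evalForm (cc k t) x) * av (evalForm (cc k t) x') := by
    rw [← hE.ext, form_mul hf, hE.mul]
  have hvle : absV v (sqv (cc k t) ⬝ᵥ f) ≤ (6 : ℝ) ^ sw v * (B * nrm v f) := by
    unfold dotProduct
    have h2 := absV_sum_le v Finset.univ (fun i => sqv (cc k t) i * f i)
      (B := B * nrm v f) (mul_nonneg (by linarith) (nrm_nonneg v f)) (fun i _ => by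
        rw [absV_mul]
        exact mul_le_mul ((absV_le_nrm v _ i).trans (hBle t)) (absV_le_nrm v f i) (absV_nonneg _ _) (by linarith))
    rw [Finset.card_univ, Fintype.card_fin] at h2
    exact_mod_cast h2
  have hmain : nav av x * nav av x' ≤ D * nrm v f := by
    calc nav av x * nav av x' ≤ (Real.exp C1 * av (evalForm (cc k t) x)) *
          (Real.exp C1 * av (evalForm (cc k t) x')) :=
          mul_le_mul ht1 ht2 hp'.le (mul_nonneg (Real.exp_pos _).le (av_nonneg hE _))
      _ = Real.exp (2 * C1) * absV v (sqv (cc k t) ⬝ᵥ f) := by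
          rw [hval, two_mul, Real.exp_add]; ring
      _ ≤ Real.exp (2 * C1) * ((6 : ℝ) ^ sw v * (B * nrm v f)) :=
          mul_le_mul_of_nonneg_left hvle (Real.exp_pos _).le
      _ = D * nrm v f := by rw [hD]; ring
  have hD0 : 0 < D := by linarith
  have hnpos : 0 < nrm v f := by
    by_contra hc
    have h2 : nrm v f = 0 := le_antisymm (not_lt.1 hc) (nrm_nonneg v f)
    rw [h2, mul_zero] at hmain
    exact absurd hmain (not_le.2 (mul_pos hp hp'))
  refine ⟨hnpos, ?_, ?_⟩
  · have h2 := Real.log_le_log (mul_pos hp hp') hmain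
    rw [Real.log_mul hp.ne' hp'.ne', Real.log_mul hD0.ne' hnpos.ne'] at h2
    have h3 := mul_nonneg (sw_nonneg v) (Real.log_nonneg (show (1 : ℝ) ≤ 2 by norm_num))
    linarith
  · have h2 : nrm v f ≤ (2 : ℝ) ^ sw v * (nav av x * nav av x') := by
      refine nrm_le v f (by positivity) fun j => ?_
      rw [← hE.ext, hf]
      exact sq_le hE hx hx' j
    have h3 := Real.log_le_log hnpos h2
    rw [Real.log_mul (by positivity) (by positivity), Real.log_mul hp.ne' hp'.ne',
      Real.log_rpow (by norm_num)] at h3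
    have h4 := Real.log_nonneg hD1
    linarith

end Pool.Agent.Lib.MP_d0e829_nt.SS
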