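import Pool.Agent.Lib.MP_d0e829_nt.SS.SpecF
import Pool.Agent.Lib.MP_d0e829_nt.SS.FNM

/-!
# Part C, frames, module FGL: the inequalities `Ge`, `Le` from the numbers `lam`
-/

set_option autoImplicit false

open NumberField

namespace Pool.Agent.Lib.MP_d0e829_nt.SS

open scoped Classical

namespace FGLM

/-- the mixed product of the values of two forms at the two points -/
lemma mix_mul {k : Type} [Field k] {F : Type} [Field F] [Algebra k F] {x x' : Fin 3 → F}
    {f : Fin 6 → k} (hf : ∀ j, algebraMap k F (f j) = sq x x' j) (c d : Fin 3 → k) :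
    algebraMap k F (mix c d ⬝ᵥ f) = evalForm c x * evalForm d x' + evalForm d x * evalForm c x' := by
  have h0 := hf 0
  have h1 := hf 1
  have h2 := hf 2
  have h3 := hf 3
  have h4 := hf 4
  have h5 := hf 5
  simp only [sq] at h0 h1 h2 h3 h4 h5
  simp only [Matrix.cons_val] at h0 h1 h2 h3 h4 h5
  unfold evalForm mix dotProduct
  rw [Fin.sum_univ_six, Fin.sum_univ_three, Fin.sum_univ_three, Fin.sum_univ_three,
    Fin.sum_univ_three]
  simp only [map_add, map_mul, map_ofNat, Matrix.cons_val]
  rw [h0, h1, h2, h3, h4, h5]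
  ring

lemma av_eq {k : Type} [Field k] {F : Type} [Field F] [Algebra k F] {av : F → ℝ} {c : Fin 3 → k}
    {x : Fin 3 → F} (h : 0 < av (evalForm c x)) :
    av (evalForm c x) = Real.exp (Real.log (nav av x) - lam av c x) := by
  unfold lam
  rw [sub_sub_cancel, Real.exp_log h]

end FGLM

open FNMM FGLM in
theorem specFGL (hFNM : SpecFNM) : SpecFGL := by
  intro k _ _ v
  obtain ⟨C, hC, hN⟩ := hFNM k v
  have hs := mul_nonneg (sw_nonneg v) (Real.log_nonneg (show (1 : ℝ) ≤ 2 by norm_num))
  refine ⟨C + sw v * Real.log 2, by linarith, ?_⟩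
  intro F _ _ av x x' f hL
  obtain ⟨hn, hlow, hupp⟩ := hN F av x x' f hL
  obtain ⟨hE, hx, hx', hf⟩ := hL
  have hexp : ∀ w : ℝ, Real.exp (-w) * nrm v f = Real.exp (Real.log (nrm v f) - w) := by
    intro w
    rw [sub_eq_add_neg, Real.exp_add, Real.exp_log hn, mul_comm]
  refine ⟨?_, ?_⟩
  · intro c hc hc' w
    have hval : absV v (sqv c ⬝ᵥ f) =
        Real.exp (Real.log (nav av x) - lam av c x + (Real.log (nav av x') - lam av c x')) := by
      rw [← hE.ext, form_mul hf, hE.mul, av_eq (hE.pos _ hc), av_eq (hE.pos _ hc'), Real.exp_add]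
    constructor
    · intro hw
      unfold Ge
      rw [hval, hexp]
      exact Real.exp_le_exp.2 (by linarith)
    · intro hw
      unfold Le
      rw [hval, hexp]
      exact Real.exp_le_exp.2 (by linarith)
  · intro c d hc hc' hd hd' w hw1 hw2
    unfold Ge
    rw [hexp, ← hE.ext, mix_mul hf]
    have h1 : av (evalForm c x * evalForm d x') ≤
        Real.exp (Real.log (nav av x) + Real.log (nav av x') - (w + (C + sw v * Real.log 2))) := by
      rw [hE.mul, av_eq (hE.pos _ hc), av_eq (hE.pos _ hd'), ← Real.exp_add]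
      exact Real.exp_le_exp.2 (by linarith)
    have h2 : av (evalForm d x * evalForm c x') ≤
        Real.exp (Real.log (nav av x) + Real.log (nav av x') - (w + (C + sw v * Real.log 2))) := by
      rw [hE.mul, av_eq (hE.pos _ hd), av_eq (hE.pos _ hc'), ← Real.exp_add]
      exact Real.exp_le_exp.2 (by linarith)
    refine (hE.add _ _ _ h1 h2).trans ?_
    rw [Real.rpow_def_of_pos (by norm_num : (0 : ℝ) < 2), ← Real.exp_add]
    exact Real.exp_le_exp.2 (by linarith)

end Pool.Agent.Lib.MP_d0e829_nt.SS
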