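import Pool.Agent.Lib.MP_d0e829_nt.SS.SpecC1

/-!
# Part C, geometry of pairs of conjugate points (helper71)

`kb = AlgebraicClosure k`.  A point of the system is a triple `ω = (x, f, T)`: `x ∈ kb³` the point,
`f ∈ k⁶` the vector `sq x x'`, `T v` the local number.  All modules are independent: file `SS/XXX.lean`,
`import Pool.Agent.Lib.MP_d0e829_nt.SS.SpecG`, namespace `Pool.Agent.Lib.MP_d0e829_nt.SS`,
`theorem specXXX (hYYY : SpecYYY) ... : SpecXXX`, own lemmas in a namespace `XXXM`.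

For `w ∈ k⁶` let `Q_w(c) = sqv c ⬝ᵥ w` and `B_w(c, d) = mix c d ⬝ᵥ w`; with the symmetric matrix
`M_w = [[2w₀, w₅, w₄], [w₅, 2w₁, w₃], [w₄, w₃, 2w₂]]` one has `2 Q_w(c) = cᵀ M_w c`,
`B_w(c, d) = cᵀ M_w d`, `det M_w = 2 dlt w`.
-/

set_option autoImplicit false

open NumberField

namespace Pool.Agent.Lib.MP_d0e829_nt.SS

open scoped Classical

/-- the points of the system: the point, its vector in `k⁶`, the local numbers -/
abbrev Pt (k : Type) [Field k] [NumberField k] : Type :=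
  (Fin 3 → AlgebraicClosure k) × (Fin 6 → k) × (Place k → ℝ)

/-- small sets: finitely many lines and the inequality -/
def Smll {k : Type} [Field k] [NumberField k] (S : Finset (Place k)) (ε : ℝ) (A : Set (Pt k)) :
    Prop :=
  ∃ (Z : Finset (Fin 3 → AlgebraicClosure k)) (C : ℝ), (∀ M ∈ Z, M ≠ 0) ∧ ∀ ω ∈ A,
    (∃ M ∈ Z, ∑ j, M j * ω.1 j = 0) ∨ ∑ v ∈ S, ω.2.2 v ≤ (6 + ε) * ht ω.2.1 + C

/-- the properties of a point which are used -/
def Vpt {k : Type} [Field k] [NumberField k] (S : Finset (Place k)) (M : Finset (Fin 3 → k)) {q : ℕ}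
    (ℓ : Fin q → Fin 3 → k) (ω : Pt k) : Prop :=
  ω.2.1 ≠ 0 ∧ ω.1 ≠ 0 ∧ dlt ω.2.1 = 0 ∧
  (∀ c : Fin 3 → k, sqv c ⬝ᵥ ω.2.1 = 0 → ∑ j, algebraMap k (AlgebraicClosure k) (c j) * ω.1 j = 0) ∧
  (∀ X Z : Fin 3 → k,
    algebraMap k (AlgebraicClosure k) (sqv Z ⬝ᵥ ω.2.1) *
        (∑ j, algebraMap k (AlgebraicClosure k) (X j) * ω.1 j) ^ 2 -
      algebraMap k (AlgebraicClosure k) (mix X Z ⬝ᵥ ω.2.1) *
        (∑ j, algebraMap k (AlgebraicClosure k) (X j) * ω.1 j) *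
        (∑ j, algebraMap k (AlgebraicClosure k) (Z j) * ω.1 j) +
      algebraMap k (AlgebraicClosure k) (sqv X ⬝ᵥ ω.2.1) *
        (∑ j, algebraMap k (AlgebraicClosure k) (Z j) * ω.1 j) ^ 2 = 0) ∧
  ∀ v ∈ S, LocPair v M ℓ ω.2.1 (ω.2.2 v)

/-- **ALG** (100 lines).  Identities.  Proof.  All are polynomial identities (`ring` after expanding
`Matrix.mulVec`, `dotProduct`, `Fin.sum_univ_succ`, `Matrix.det_fin_three`); `M_(S2 B w) = B M_w Bᵀ`.
`S2 (B * B') = S2 B * S2 B'` (entry by entry) and `S2 1 = 1`, so `S2 B * S2 B⁻¹ = 1` if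
`B.det ≠ 0`. -/
def SpecALG : Prop := ∀ (k : Type) [Field k] (B B' : Matrix (Fin 3) (Fin 3) k) (w : Fin 6 → k)
  (x y c d : Fin 3 → k),
  dlt ((S2 B).mulVec w) = B.det ^ 2 * dlt w ∧
  S2 (B * B') = S2 B * S2 B' ∧ S2 (1 : Matrix (Fin 3) (Fin 3) k) = 1 ∧
  (B.det ≠ 0 → (S2 B).det ≠ 0) ∧
  (S2 B).mulVec (sq x y) = sq (B.mulVec x) (B.mulVec y) ∧
  dlt (sq x y) = 0 ∧
  sqv c ⬝ᵥ sq x y = (c ⬝ᵥ x) * (c ⬝ᵥ y) ∧
  mix c d ⬝ᵥ sq x y = (c ⬝ᵥ x) * (d ⬝ᵥ y) + (d ⬝ᵥ x) * (c ⬝ᵥ y)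

/-- **GRM** (110 lines).  A space of dimension at least two of symmetric matrices contains one of rank
at least two.  Proof.  Suppose not: `B_w(c,d)² = 4 Q_w(c) Q_w(d)` for all `w ∈ W`, `c`, `d`.  Let
`w, w' ∈ W` be linearly independent.  Apply this to `w`, `w'` and `w + w'` and subtract:
`2 B_w(c,d) B_(w')(c,d) = 4 (Q_w(c) Q_(w')(d) + Q_(w')(c) Q_w(d))` for all `c, d`.  There is `c` with
`Q_w(c) ≠ 0` (`Q_w` is not identically 0, since `w` is recovered from `Q_w(e_i)`, `Q_w(e_i + e_j)`,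
and `w ≠ 0`).  If `B_w(c,d) = 0` then `Q_w(d) = 0` (`4 Q_w(c) Q_w(d) = 0`), so the second identity gives
`4 Q_w(c) Q_(w')(d) = 0`, `Q_(w')(d) = 0`, and then `B_(w')(c,d)² = 4 Q_(w')(c) Q_(w')(d) = 0`.  Every
`e ∈ k³` is `t c + d` with `t = B_w(c,e)/(2 Q_w(c))` and `B_w(c,d) = 0` (`B_w(c,c) = 2 Q_w(c)`).  So
`Q_w(e) = t² Q_w(c)` and `Q_(w')(e) = t² Q_(w')(c)` (`Q(t c + d) = t² Q(c) + t B(c,d) + Q(d)`), i.e.
`Q_(w')(e) = λ Q_w(e)`, `λ = Q_(w')(c)/Q_w(c)`, for all `e`, hence `w' = λ w`: a contradiction. -/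
def SpecGRM : Prop := ∀ (k : Type) [Field k] [CharZero k] (W : Submodule k (Fin 6 → k)),
  2 ≤ Module.finrank k W → ∃ w ∈ W, ∃ c d : Fin 3 → k,
    (mix c d ⬝ᵥ w) ^ 2 ≠ 4 * (sqv c ⬝ᵥ w) * (sqv d ⬝ᵥ w)

/-- **DEL** (130 lines; from ALG, GRM).  Proof.  Suppose `dlt w = 0` for all `w ∈ W`.  GRM: `w₀ ∈ W`,
`c`, `d` with `4 Q(c) Q(d) - B(c,d)² ≠ 0` (`Q = Q_(w₀)`).  `det M_(w₀) = 2 dlt w₀ = 0`, so there is
`l ≠ 0` with `M_(w₀) l = 0` (`Matrix.exists_mulVec_eq_zero_iff`), hence `B_(w₀)(e, l) = 0` for all `e`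
and `Q_(w₀)(l) = 0` (characteristic 0).  The rows `c, d, l` form a matrix `B` with `det ≠ 0`: a relation
`x c + y d + z l = 0`, paired by `B_(w₀)` with `c` and `d`, gives `2 Q(c) x + B(c,d) y = 0`,
`B(c,d) x + 2 Q(d) y = 0`, so `x = y = 0`, and `z = 0`.  Let `w ∈ W`, `w' = S2 B w₀ + s S2 B w`: by ALG
`dlt w' = det² dlt (w₀ + s w) = 0` for all `s`.  Here `S2 B w₀ = (a, b, 0, 0, 0, h)` with `4ab - h² ≠ 0` and
`S2 B w = (u₀, …, u₅)`, `u₂ = Q_w(l)`.  `dlt w' = s (4ab - h²) u₂ + s² (..) + s³ (..)`; `s = 1, -1, 2` give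
(characteristic 0) `(4ab - h²) u₂ = 0`.  So `sqv l ⬝ᵥ w = u₂ = 0` for all `w ∈ W`, against the
hypothesis. -/
def SpecDEL : Prop := ∀ (k : Type) [Field k] [CharZero k] (W : Submodule k (Fin 6 → k)),
  2 ≤ Module.finrank k W → (∀ c : Fin 3 → k, c ≠ 0 → ∃ w ∈ W, sqv c ⬝ᵥ w ≠ 0) →
  ∃ w ∈ W, dlt w ≠ 0

/-- **SML** (40 lines).  Proof.  Empty set: `Z = ∅`.  Subsets: the same `Z`, `C`.  Union: `Z ∪ Z'`,
`max C C'`. -/
def SpecSML : Prop := ∀ (k : Type) [Field k] [NumberField k] (S : Finset (Place k)) (ε : ℝ),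
  SmSys (Smll S ε)

/-- **PRI** (150 lines).  Proof.  Write `X(x) = ∑ algebraMap (X j) * ω.1 j`.  First part: otherwise
`c(x) = 0` for all `ω ∈ A`, and `A` is small (`Z = {algebraMap ∘ c}`).  Second part: suppose both
functionals vanish on `A`.  Let `e = a × b ≠ 0` (`cross`: `e₀ = a₁b₂ - a₂b₁` etc.; not zero as `a, b` are
independent).  For `ω ∈ A` the vector `g = (XX(f), XZ(f), ZZ(f))`, `XX = sqv X`, `XZ = mix X Z`,
`ZZ = sqv Z`, is orthogonal to `a` and `b`, so `g = t e` for some `t ∈ k` (`k³`, `a, b` independent).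
If `t = 0`, `XX(f) = 0`, so `X(x) = 0`.  If `t ≠ 0` the fifth property of `Vpt` divided by `t` reads
`e₂ X(x)² - e₁ X(x) Z(x) + e₀ Z(x)² = 0`.  If `e₂ = 0`: `Z(x) (e₀ Z(x) - e₁ X(x)) = 0`.  If `e₂ ≠ 0` let
`r₁, r₂ ∈ kb` be the roots of `e₂ T² - e₁ T + e₀` (`IsAlgClosed`): `e₂ (X(x) - r₁ Z(x)) (X(x) - r₂ Z(x)) = 0`.
All the forms `X`, `Z`, `e₀ Z - e₁ X`, `X - r₁ Z`, `X - r₂ Z` over `kb` are nonzero (`X`, `Z` independent
over `k`, hence over `kb`: some `2 × 2` minor is not 0).  So `A` is small. -/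
def SpecPRI : Prop := ∀ (k : Type) [Field k] [NumberField k] (S : Finset (Place k)) (ε : ℝ)
  (M : Finset (Fin 3 → k)) (q : ℕ) (ℓ : Fin q → Fin 3 → k) (A : Set (Pt k)),
  (∀ ω ∈ A, Vpt S M ℓ ω) → ¬ Smll S ε A →
  (∀ c : Fin 3 → k, c ≠ 0 → ∃ ω ∈ A, sqv c ⬝ᵥ ω.2.1 ≠ 0) ∧
  ∀ X Z : Fin 3 → k, LinearIndependent k ![X, Z] → ∀ a b : Fin 3 → k,
    LinearIndependent k ![a, b] → ∃ ω ∈ A,
      (a 0 • sqv X + a 1 • mix X Z + a 2 • sqv Z) ⬝ᵥ ω.2.1 ≠ 0 ∨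
      (b 0 • sqv X + b 1 • mix X Z + b 2 • sqv Z) ⬝ᵥ ω.2.1 ≠ 0

/-- **PLB** (150 lines).  Places above and below.  Proof.  (1) `w` infinite: `v = w.comap`.  `w` finite:
the contraction to `𝓞 k` of the maximal ideal of `w` is a nonzero prime ideal (`𝓞 K` is integral over
`𝓞 k`: `Ideal.IsIntegralClosure.comap_ne_bot` / `Ideal.comap_ne_bot_of_integral_mem`, as in `Count.lean`),
so it is the maximal ideal of a finite place of `k` (`FinitePlace.mk`), unique because a finite place is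
determined by its maximal ideal (`FinitePlace.mk_maximalIdeal`).  (2) `{w | LiesOver w v}` is finite
(`finite_above` in `Count.lean`).  Only the `v` below some `w` in the support of `g` contribute; the
support of `g` is the disjoint union of its parts above these `v` (`Finset.sum_fiberwise`,
`finsum_mem_eq_...`).  (3) `placesAbove_eq` and `finsum_mem_biUnion` (disjoint finite sets). -/
def SpecPLB : Prop := ∀ (k : Type) [Field k] [NumberField k] (K : Type) [Field K] [NumberField K]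
  [Algebra k K], (∀ w : Place K, ∃! v : Place k, LiesOver w v) ∧
  (∀ g : Place K → ℝ, (Function.support g).Finite →
    (Function.support fun v : Place k => ∑ᶠ w ∈ {w : Place K | LiesOver w v}, g w).Finite ∧
    ∑ᶠ v : Place k, ∑ᶠ w ∈ {w : Place K | LiesOver w v}, g w = ∑ᶠ w : Place K, g w) ∧
  ∀ (S : Finset (Place k)) (g : Place K → ℝ),
    ∑ᶠ w ∈ placesAbove K S, g w = ∑ v ∈ S, ∑ᶠ w ∈ {w : Place K | LiesOver w v}, g w

/-- the conclusion of `SpecEXTV` at one place -/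
def LocExt {k : Type} [Field k] [NumberField k] {K : Type} [Field K] [NumberField K] [Algebra k K]
    (v : Place k) (τ : K ≃ₐ[k] K) (av : K → ℝ) : Prop :=
  ExtAbs v K av ∧
    ((∃ w : Place K, (∀ w' : Place K, LiesOver w' v ↔ w' = w) ∧ (∀ z, absV w z = av z) ∧
        ∀ z, av (τ z) = av z) ∨
      (∃ w w' : Place K, w ≠ w' ∧ (∀ w'' : Place K, LiesOver w'' v ↔ w'' = w ∨ w'' = w') ∧
        (∀ z, absV w z = av z ^ (1 / 2 : ℝ)) ∧ ∀ z, absV w' z = av (τ z) ^ (1 / 2 : ℝ)))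

/-- **LVL** (150 lines).  The sums over the places above `v`.  Proof.  `normV w x = max_j absV w (x j)`,
`nav av x = max_j av (x j)` (`> 0` for `x ≠ 0`), `evalForm c (τ ∘ x) = τ (evalForm c x)`,
`normV w (algebraMap ∘ c) = max_j av (c j) = max_j absV v (c j) = nrm v c` in the first case and its
square root in the second (`ExtAbs.ext`; `t ↦ t^(1/2)` is increasing; `τ` fixes `k`).  First case: the set
is `{w}`; `log normV w x = log nav av x = log nav av (τ ∘ x)`, and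
`log (normV w x * normV w c / absV w (c(x))) = lam av c x + log nrm v c`, where
`lam av c (τ ∘ x) = lam av c x`.  Second case: the set is `{w, w'}` (`finsum_mem_pair`);
`log normV w x = (1/2) log nav av x`, `log normV w' x = (1/2) log nav av (τ ∘ x)`, and the two terms of the
second sum are `(1/2) (lam av c x + log nrm v c)` and `(1/2) (lam av c (τ ∘ x) + log nrm v c)`.  (`c ≠ 0`
since `c(x) ≠ 0`, so `nrm v c > 0`.) -/
def SpecLVL : Prop := ∀ (k : Type) [Field k] [NumberField k] (K : Type) [Field K] [NumberField K]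
  [Algebra k K] (v : Place k) (τ : K ≃ₐ[k] K) (av : K → ℝ), LocExt v τ av →
  (∀ x : Fin 3 → K, x ≠ 0 → ∑ᶠ w ∈ {w : Place K | LiesOver w v}, Real.log (normV w x) =
    (Real.log (nav av x) + Real.log (nav av fun j => τ (x j))) / 2) ∧
  ∀ (c : Fin 3 → k) (x : Fin 3 → K), evalForm c x ≠ 0 →
    ∑ᶠ w ∈ {w : Place K | LiesOver w v},
      Real.log (normV w x * normV w (fun j => algebraMap k K (c j)) / absV w (evalForm c x)) =
    (lam av c x + lam av c fun j => τ (x j)) / 2 + Real.log (nrm v c)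

/-- **GLU** (260 lines; from EXTV, PLB, LVL, ALG).  From a point of degree at most two to a point of the
system.  Proof.  `C = log 2 + |∑_i ∑_(v ∈ S) log nrm v (ℓ i)|`.  Let `K, σ, x` be given, `τ` from EXTV,
`x' = τ ∘ x`, and for every `v` choose `av_v` (EXTV: `LocExt v τ av_v`).  Every coordinate of
`sq x x' ∈ K⁶` is fixed by `τ` (`τ τ = 1`), so `sq x x' = algebraMap ∘ f`, `f ∈ k⁶`.
`ω = (σ ∘ x, f, T)`, `T v = ∑_i (lam av_v (ℓ i) x + lam av_v (ℓ i) x')`.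
* `f ≠ 0`: if `sq x x' = 0` and `x_i ≠ 0`, then `x'_i = 0` and `x_i x'_j = - x_j x'_i = 0` for `j ≠ i`, so
  `x' = 0`, `x = 0`.  `σ ∘ x ≠ 0` (`σ` injective).  `dlt f = 0`: ALG over `K`, `algebraMap` injective.
* `sqv c ⬝ᵥ f = 0`: mapped to `K` this is `c(x) c(x') = c(x) τ(c(x))` (ALG for `algebraMap ∘ c`), so
  `c(x) = 0`; apply `σ` (`σ` commutes with `algebraMap`).
* fifth property: in `K`, with `X = X(x)`, `X' = X(x')` etc.,
  `Z Z' X² - (X Z' + Z X') X Z + X X' Z² = 0`; apply `σ`.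
* `LocPair`: `F = K`, `av = av_v`; `c(x') = τ (c(x)) ≠ 0`.
* proximity: PLB (3) and LVL: `proximity = ∑_i ∑_(v ∈ S) ((lam av_v (ℓ i) x + lam av_v (ℓ i) x')/2 +
  log nrm v (ℓ i)) = (∑_(v ∈ S) T v)/2 + ∑_i ∑_(v ∈ S) log nrm v (ℓ i)`.
* height: for every place `v`, `nrm v f ≤ 2^(sw v) nav av_v x · nav av_v x'` (`absV v (f j) =
  av_v (sq x x' j)`, `ExtAbs.add`, `mul`), so `log nrm v f ≤ sw v log 2 + log nav av_v x + log nav av_v x'`,
  and summing over all `v` (`finsum_mono`, `finsum_sw`, PLB (2) for `g w = log normV w x`, whose support is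
  finite: `support_log_normV_finite`, and LVL): `ht f ≤ log 2 + 2 height x`. -/
def SpecGLU : Prop := ∀ (k : Type) [Field k] [NumberField k] (S : Finset (Place k)) (q : ℕ)
  (ℓ : Fin q → Fin 3 → k) (M : Finset (Fin 3 → k)), (∀ c ∈ M, c ≠ 0) →
  ∃ C : ℝ, ∀ (K : Type) [Field K] [NumberField K] [Algebra k K] (σ : K →ₐ[k] AlgebraicClosure k)
    (x : Fin 3 → K), Module.finrank k K ≤ 2 → x ≠ 0 → (∀ c ∈ M, evalForm c x ≠ 0) →
    (∀ i, evalForm (ℓ i) x ≠ 0) →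
    ∃ ω : Pt k, ω.1 = (fun j => σ (x j)) ∧ Vpt S M ℓ ω ∧
      proximity S ℓ x ≤ (∑ v ∈ S, ω.2.2 v) / 2 + C ∧ ht ω.2.1 ≤ 2 * height x + C

end Pool.Agent.Lib.MP_d0e829_nt.SS
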