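import Pool.Agent.Lib.MP_d0e829_nt.SS.SpecC3
import Pool.Agent.Lib.MP_d0e829_nt.SS.SpecG
import Pool.Agent.Lib.MP_d0e829_nt.Local

/-!
# Assembly of the theorem on points of degree at most two
-/

set_option autoImplicit false

open NumberField MvPolynomial

namespace Pool.Agent.Lib.MP_d0e829_nt.SS

open scoped Classical

namespace FINM

variable {k : Type} [Field k] [NumberField k]

lemma ge_mono {v : Place k} {c f : Fin 6 → k} {w w' : ℝ} (h : w' ≤ w) (hg : Ge v c f w) :
    Ge v c f w' := by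
  unfold Ge at hg ⊢
  refine hg.trans (mul_le_mul_of_nonneg_right (Real.exp_le_exp.mpr (by linarith)) (nrm_nonneg v f))

lemma le_mono {v : Place k} {c f : Fin 6 → k} {w w' : ℝ} (h : w ≤ w') (hg : Le v c f w) :
    Le v c f w' := by
  unfold Le at hg ⊢
  exact (mul_le_mul_of_nonneg_right (Real.exp_le_exp.mpr (by linarith)) (nrm_nonneg v f)).trans hg

lemma frA_mono {v : Place k} {B : Matrix (Fin 3) (Fin 3) k} {f : Fin 6 → k} {T C C' : ℝ}
    (h : C ≤ C') (hf : FrA v B f T C) : FrA v B f T C' := by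
  obtain ⟨p, q, z, z', hp, hq, hz, hz', hT, h1, h2⟩ := hf
  exact ⟨p, q, z, z', hp, hq, hz, hz', by linarith,
    fun i => ge_mono (by linarith) (h1 i), fun i hi => le_mono (by linarith) (h2 i hi)⟩

lemma frA1_mono {v : Place k} {B : Matrix (Fin 3) (Fin 3) k} {f : Fin 6 → k} {T C C' : ℝ}
    (h : C ≤ C') (hf : FrA1 v B f T C) : FrA1 v B f T C' := by
  obtain ⟨p, q, α, β, h1, h2, h3, h4, hT, h5⟩ := hf
  exact ⟨p, q, α, β, h1, h2, h3, h4, by linarith, fun i => ge_mono (by linarith) (h5 i)⟩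

lemma frB_mono {v : Place k} {B : Matrix (Fin 3) (Fin 3) k} {f : Fin 6 → k} {T C C' : ℝ}
    (h : C ≤ C') (hf : FrB v B f T C) : FrB v B f T C' := by
  obtain ⟨p, p', q, q', hp, hp', hq, hq', hT, h1, h2⟩ := hf
  exact ⟨p, p', q, q', hp, hp', hq, hq', by linarith,
    fun i => ge_mono (by linarith) (h1 i), fun i hi => le_mono (by linarith) (h2 i hi)⟩

lemma fr_mono {v : Place k} {q : ℕ} {ℓ : Fin q → Fin 3 → k} {B : Matrix (Fin 3) (Fin 3) k}
    {f : Fin 6 → k} {T C C' : ℝ} (h : C ≤ C') (hf : Fr v ℓ B f T C) : Fr v ℓ B f T C' := by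
  rcases hf with ⟨i, j, l, h1, h2, h3, h4, h5, h6, h7⟩ | ⟨i, j, h1, h2, h3, h4, h5⟩ |
    ⟨i, j, l, h1, h2, h3, h4, h5, h6, h7⟩
  · exact Or.inl ⟨i, j, l, h1, h2, h3, h4, h5, h6, frA_mono h h7⟩
  · exact Or.inr (Or.inl ⟨i, j, h1, h2, h3, frA_mono h h4, frA1_mono h h5⟩)
  · exact Or.inr (Or.inr ⟨i, j, l, h1, h2, h3, h4, h5, h6, frB_mono h h7⟩)

omit [NumberField k] in
/-- a form over `k` which does not vanish at `σ x` does not vanish at `x` -/
lemma eval_ne {K : Type} [Field K] [NumberField K] [Algebra k K]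
    (σ : K →ₐ[k] AlgebraicClosure k) (x : Fin 3 → K) (c : Fin 3 → k)
    (h : ∑ j, algebraMap k (AlgebraicClosure k) (c j) * σ (x j) ≠ 0) : evalForm c x ≠ 0 := by
  intro h0
  apply h
  have h1 : σ (evalForm c x) = ∑ j, algebraMap k (AlgebraicClosure k) (c j) * σ (x j) := by
    unfold evalForm
    rw [map_sum]
    refine Finset.sum_congr rfl fun j _ => ?_
    rw [map_mul, AlgHom.commutes]
  rw [← h1, h0, map_zero]

omit [NumberField k] in
lemma alg_ne {c : Fin 3 → k} (hc : c ≠ 0) :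
    (fun j => algebraMap k (AlgebraicClosure k) (c j)) ≠ 0 := by
  intro h
  apply hc
  funext j
  have := congrFun h j
  simpa using this

end FINM

open FINM in
theorem specFIN (hMAX : SpecMAX) (hSML : SpecSML) (hPRI : SpecPRI) (hFRM : SpecFRM)
    (hGLU : SpecGLU) (hU0 : SpecU0) (hUC : SpecUC) (hU1 : SpecU1) (hU2 : SpecU2)
    (hDIS : SpecDIS) (hORT : SpecORT) (hALG : SpecALG) (hDEL : SpecDEL) (hCOF : SpecCOF)
    (hTRI : SpecTRI) : SpecFIN := by
  intro k _ _ S q ℓ h0 hgen ε hε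
  by_cases hq : q < 3
  · obtain ⟨C, hC⟩ := hTRI k S q ℓ h0
    refine ⟨Finset.univ.image (fun i j => algebraMap k (AlgebraicClosure k) (ℓ i j)), C, ?_, ?_⟩
    · intro M hM
      obtain ⟨i, -, rfl⟩ := Finset.mem_image.mp hM
      exact alg_ne (h0 i)
    · intro K _ _ _ σ x _ hx hZ
      have h1 := hC K x hx (fun i => eval_ne σ x (ℓ i)
        (hZ _ (Finset.mem_image.mpr ⟨i, Finset.mem_univ _, rfl⟩)))
      have h2 := height_nonneg x hx
      have h3 : (q : ℝ) ≤ 3 * 2 + ε := by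
        have : (q : ℝ) < 3 := by exact_mod_cast hq
        linarith
      have h4 := mul_le_mul_of_nonneg_right h3 h2
      linarith
  · obtain ⟨M, BB, hM, hBB, hFR⟩ := hFRM k q (by omega) ℓ h0 hgen
    choose Cv hCv using hFR
    set C0 : ℝ := ∑ v ∈ S, |Cv v| with hC0
    have hC0v : ∀ v ∈ S, Cv v ≤ C0 := fun v hv =>
      (le_abs_self _).trans (Finset.single_le_sum (f := fun v => |Cv v|)
        (fun _ _ => abs_nonneg _) hv)
    have hmain : Smll S ε {ω : Pt k | Vpt S M ℓ ω} := by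
      by_contra hns
      set V : Set (Pt k) := {ω : Pt k | Vpt S M ℓ ω} with hV
      have hsys := hSML k S ε
      obtain ⟨hs0, hs1, hs2⟩ := hsys
      have hSmSys : SmSys (fun B : Set V => Smll S ε (Subtype.val '' B)) := by
        refine ⟨?_, ?_, ?_⟩
        · simpa using hs0
        · intro A B hAB hB
          exact hs1 _ _ (Set.image_mono hAB) hB
        · intro A B hA hB
          simp only [Set.image_union]
          exact hs2 _ _ hA hB
      have hun : ¬ (fun B : Set V => Smll S ε (Subtype.val '' B)) Set.univ := by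
        simp only [Set.image_univ, Subtype.range_coe_subtype]
        exact hns
      obtain ⟨A, hA⟩ := hMAX k V 6 (fun ω : V => ω.1.2.1)
        (fun B : Set V => Smll S ε (Subtype.val '' B)) hun
      have hpri := hPRI k S ε M q ℓ (Subtype.val '' A)
        (by rintro _ ⟨ω, _, rfl⟩; exact ω.2) hA.1
      have hstg : Stg S ℓ BB C0 ε (fun ω : V => ω.1.2.1) (fun ω v => ω.1.2.2 v)
          (fun B : Set V => Smll S ε (Subtype.val '' B)) A := by
        refine ⟨hSmSys, ?_, hA, ?_, hBB, ?_, ?_, ?_, ?_⟩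
        · rintro B _ ⟨C', hC'⟩
          refine ⟨∅, C', by simp, ?_⟩
          rintro _ ⟨ω, hω, rfl⟩
          exact Or.inr (hC' ω hω)
        · intro ω _
          exact ω.2.1
        · intro ω _ v hv
          obtain ⟨B, hB, hfr⟩ := hCv v ω.1.2.1 (ω.1.2.2 v) (ω.2.2.2.2.2.2 v hv)
          exact ⟨B, hB, fr_mono (hC0v v hv) hfr⟩
        · intro c hc hcU
          obtain ⟨_, ⟨ω, hω, rfl⟩, hne⟩ := hpri.1 c hc
          exact hne (hcU ω hω)
        · rintro X Z hXZ a b hab ⟨ha, hb⟩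
          obtain ⟨_, ⟨ω, hω, rfl⟩, hne⟩ := hpri.2 X Z hXZ a b hab
          rcases hne with hne | hne
          · exact hne (ha ω hω)
          · exact hne (hb ω hω)
        · intro ω _
          exact ω.2.2.2.1
      have hS2 : ∀ B ∈ BB, (S2 B).det ≠ 0 := fun B hB =>
        (hALG k B B 0 0 0 0 0).2.2.2.1 (hBB B hB)
      have hort := hORT k (UU (fun ω : V => ω.1.2.1) A)
        (fun W h1 h2 => hDEL k W h1 h2)
      rcases Nat.lt_or_ge (Module.finrank k (UU (fun ω : V => ω.1.2.1) A)) 3 with h3 | h3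
      · interval_cases hr : Module.finrank k (UU (fun ω : V => ω.1.2.1) A)
        · exact hU0 k S q ℓ BB C0 ε V _ _ _ A hε hS2 hstg hr
        · exact hU1 k S q ℓ BB C0 ε V _ _ _ A hε h0 hgen hS2 hstg hr
        · exact hU2 k S q ℓ BB C0 ε V _ _ _ A hε hS2 (fun B w => (hALG k B B w 0 0 0 0).1)
            (hort (by omega) hstg.sqn) (fun N => (hCOF k N).2.2) hstg hr
      · refine hUC k S q ℓ BB C0 ε V _ _ _ A hε hstg ?_
        exact hDIS k V _ A h3 hstg.dl (fun h4 => hort h4 hstg.sqn)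
    obtain ⟨Z, C1, hZ0, hZ1⟩ := hmain
    obtain ⟨C2, hC2⟩ := hGLU k S q ℓ M hM
    refine ⟨Z ∪ (M.image (fun c j => algebraMap k (AlgebraicClosure k) (c j)) ∪
      Finset.univ.image (fun i j => algebraMap k (AlgebraicClosure k) (ℓ i j))),
      ((6 + ε) * C2 + C1) / 2 + C2, ?_, ?_⟩
    · intro N hN
      simp only [Finset.mem_union, Finset.mem_image, Finset.mem_univ, true_and] at hN
      rcases hN with hN | ⟨c, hc, rfl⟩ | ⟨i, rfl⟩
      · exact hZ0 N hN
      · exact alg_ne (hM c hc)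
      · exact alg_ne (h0 i)
    · intro K _ _ _ σ x hK hx hZ
      obtain ⟨ω, hω1, hωV, hprox, hht⟩ := hC2 K σ x hK hx
        (fun c hc => eval_ne σ x c (hZ _ (Finset.mem_union_right _ (Finset.mem_union_left _
          (Finset.mem_image.mpr ⟨c, hc, rfl⟩)))))
        (fun i => eval_ne σ x (ℓ i) (hZ _ (Finset.mem_union_right _ (Finset.mem_union_right _
          (Finset.mem_image.mpr ⟨i, Finset.mem_univ _, rfl⟩)))))
      rcases hZ1 ω hωV with ⟨N, hN, hN0⟩ | hT
      · exfalso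
        refine hZ N (Finset.mem_union_left _ hN) ?_
        rw [hω1] at hN0
        exact hN0
      · have h5 : (6 + ε) * ht ω.2.1 ≤ (6 + ε) * (2 * height x + C2) :=
          mul_le_mul_of_nonneg_left hht (by linarith)
        nlinarith [h5, hT, hprox]

end Pool.Agent.Lib.MP_d0e829_nt.SS
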