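import Pool.Agent.Lib.MP_d0e829_nt.SS.SpecF

/-!
# FLW: three independent forms are not all small
-/

set_option autoImplicit false

open NumberField

namespace Pool.Agent.Lib.MP_d0e829_nt.SS

open scoped Classical

namespace FLWM

variable {k : Type} [Field k] [NumberField k]

lemma av_nonneg {v : Place k} {F : Type} [Field F] [Algebra k F] {av : F → ℝ}
    (h : ExtAbs v F av) (z : F) : 0 ≤ av z := by
  by_cases hz : z = 0
  · rw [hz, h.zero]
  · exact (h.pos z hz).le

lemma one_le_two_pow (v : Place k) : (1 : ℝ) ≤ (2 : ℝ) ^ sw v :=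
  Real.one_le_rpow one_le_two (sw_nonneg v)

/-- the sum of three terms -/
lemma add3 {v : Place k} {F : Type} [Field F] [Algebra k F] {av : F → ℝ}
    (h : ExtAbs v F av) (a b c : F) (B : ℝ) (ha : av a ≤ B) (hb : av b ≤ B) (hc : av c ≤ B) :
    av (a + b + c) ≤ (2 : ℝ) ^ sw v * ((2 : ℝ) ^ sw v * B) := by
  have hB : 0 ≤ B := (av_nonneg h a).trans ha
  have h1 := h.add a b B ha hb
  have h2 : av c ≤ (2 : ℝ) ^ sw v * B :=
    hc.trans (le_mul_of_one_le_left hB (one_le_two_pow v))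
  exact h.add _ _ _ h1 h2

end FLWM

open FLWM in
theorem specFLW : SpecFLW := by
  intro k _ _ B hB v
  set M : ℝ := 1 + ∑ j, ∑ i, absV v (B⁻¹ j i) with hM
  have hM0 : 0 ≤ ∑ j, ∑ i, absV v (B⁻¹ j i) :=
    Finset.sum_nonneg fun j _ => Finset.sum_nonneg fun i _ => absV_nonneg v _
  have hMij : ∀ j i, absV v (B⁻¹ j i) ≤ M := by
    intro j i
    have h1 : absV v (B⁻¹ j i) ≤ ∑ i', absV v (B⁻¹ j i') :=
      Finset.single_le_sum (f := fun i' => absV v (B⁻¹ j i'))
        (fun i' _ => absV_nonneg v _) (Finset.mem_univ i)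
    have h2 : ∑ i', absV v (B⁻¹ j i') ≤ ∑ j', ∑ i', absV v (B⁻¹ j' i') :=
      Finset.single_le_sum (f := fun j' => ∑ i', absV v (B⁻¹ j' i'))
        (fun j' _ => Finset.sum_nonneg fun i' _ => absV_nonneg v _) (Finset.mem_univ j)
    linarith
  have hM1 : 1 ≤ M := by linarith
  have hs1 := one_le_two_pow v
  set A : ℝ := (2 : ℝ) ^ sw v * ((2 : ℝ) ^ sw v * M) with hA
  have hA1 : 1 ≤ A := by
    have h1 : 1 ≤ (2 : ℝ) ^ sw v * M := by nlinarith
    nlinarith
  refine ⟨Real.log A, Real.log_nonneg hA1, ?_⟩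
  intro F _ _ av x hav _
  rw [Real.exp_log (by linarith)]
  obtain ⟨i₀, hi₀⟩ := Finite.exists_max (fun i => av (evalForm (B i) x))
  refine ⟨i₀, ?_⟩
  set μ : ℝ := av (evalForm (B i₀) x) with hμ
  have hμ0 : 0 ≤ μ := av_nonneg hav _
  -- the inverse matrix
  have hinv : ((B⁻¹).map (algebraMap k F)).mulVec ((B.map (algebraMap k F)).mulVec x) = x := by
    rw [Matrix.mulVec_mulVec, ← Matrix.map_mul, Matrix.nonsing_inv_mul B (Ne.isUnit hB),
      Matrix.map_one _ (map_zero _) (map_one _), Matrix.one_mulVec]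
  have hx : ∀ j, x j = ∑ i, algebraMap k F (B⁻¹ j i) * evalForm (B i) x := by
    intro j
    conv_lhs => rw [← hinv]
    rfl
  have hterm : ∀ j i, av (algebraMap k F (B⁻¹ j i) * evalForm (B i) x) ≤ M * μ := by
    intro j i
    rw [hav.mul, hav.ext]
    exact mul_le_mul (hMij j i) (hi₀ i) (av_nonneg hav _) (by linarith)
  unfold nav
  refine ciSup_le fun j => ?_
  rw [hx j, Fin.sum_univ_three]
  refine (add3 hav _ _ _ (M * μ) (hterm j 0) (hterm j 1) (hterm j 2)).trans (le_of_eq ?_)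
  rw [hA]
  ring

end Pool.Agent.Lib.MP_d0e829_nt.SS
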