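import Pool.Agent.Lib.MP_d0e829_nt.SS.SpecF

/-!
# Frames: the module FRM
-/

set_option autoImplicit false

open NumberField

namespace Pool.Agent.Lib.MP_d0e829_nt.SS

open scoped Classical

namespace FRMM

variable {k : Type} [Field k] [NumberField k]

lemma ge_mono {v : Place k} {c f : Fin 6 → k} {w w' : ℝ} (h : Ge v c f w) (hw : w' ≤ w) :
    Ge v c f w' := by
  unfold Ge at h ⊢
  exact h.trans (mul_le_mul_of_nonneg_right (Real.exp_le_exp.2 (by linarith)) (nrm_nonneg v f))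

lemma le_mono {v : Place k} {c f : Fin 6 → k} {w w' : ℝ} (h : Le v c f w) (hw : w ≤ w') :
    Le v c f w' := by
  unfold Le at h ⊢
  exact (mul_le_mul_of_nonneg_right (Real.exp_le_exp.2 (by linarith)) (nrm_nonneg v f)).trans h

lemma frA_mono {v : Place k} {B : Matrix (Fin 3) (Fin 3) k} {f : Fin 6 → k} {T C D : ℝ}
    (h : FrA v B f T C) (hCD : C ≤ D) : FrA v B f T D := by
  obtain ⟨p, q, z, z', h1, h2, h3, h4, h5, h6, h7⟩ := h
  exact ⟨p, q, z, z', h1, h2, h3, h4, by linarith, fun i => ge_mono (h6 i) (by linarith),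
    fun i hi => le_mono (h7 i hi) (by linarith)⟩

lemma frA1_mono {v : Place k} {B : Matrix (Fin 3) (Fin 3) k} {f : Fin 6 → k} {T C D : ℝ}
    (h : FrA1 v B f T C) (hCD : C ≤ D) : FrA1 v B f T D := by
  obtain ⟨p, q, α, β, h1, h2, h3, h4, h5, h6⟩ := h
  exact ⟨p, q, α, β, h1, h2, h3, h4, by linarith, fun i => ge_mono (h6 i) (by linarith)⟩

lemma frB_mono {v : Place k} {B : Matrix (Fin 3) (Fin 3) k} {f : Fin 6 → k} {T C D : ℝ}
    (h : FrB v B f T C) (hCD : C ≤ D) : FrB v B f T D := by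
  obtain ⟨p, p', q, q', h1, h2, h3, h4, h5, h6, h7⟩ := h
  exact ⟨p, p', q, q', h1, h2, h3, h4, by linarith, fun i => ge_mono (h6 i) (by linarith),
    fun i hi => le_mono (h7 i hi) (by linarith)⟩

lemma sum_two {q : ℕ} (f : Fin q → ℝ) {i j : Fin q} (hij : i ≠ j) {C : ℝ} (hC : 0 ≤ C)
    (h : ∀ l, l ≠ i → l ≠ j → f l ≤ C) : ∑ l, f l ≤ f i + f j + q * C := by
  have h1 : ∀ l ∈ (Finset.univ : Finset (Fin q)),
      f l ≤ C + (if l = i then f i else 0) + (if l = j then f j else 0) := by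
    intro l _
    by_cases hi : l = i
    · have hj : l ≠ j := by rw [hi]; exact hij
      rw [if_pos hi, if_neg hj, hi]
      linarith
    · by_cases hj : l = j
      · rw [if_neg hi, if_pos hj, hj]
        linarith
      · rw [if_neg hi, if_neg hj]
        linarith [h l hi hj]
  refine (Finset.sum_le_sum h1).trans (le_of_eq ?_)
  rw [Finset.sum_add_distrib, Finset.sum_add_distrib, Finset.sum_ite_eq', Finset.sum_ite_eq']
  simp
  ring

omit [NumberField k] in
lemma det_ne {B : Matrix (Fin 3) (Fin 3) k} (h : LinearIndependent k B) : B.det ≠ 0 := by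
  have h1 : LinearIndependent k B.row := h
  rw [Matrix.linearIndependent_rows_iff_isUnit, Matrix.isUnit_iff_isUnit_det] at h1
  exact h1.ne_zero

lemma exists_third {q : ℕ} (hq : 3 ≤ q) (i j : Fin q) : ∃ l : Fin q, l ≠ i ∧ l ≠ j := by
  by_contra hcon
  push Not at hcon
  have h1 : (Finset.univ : Finset (Fin q)) ⊆ {i, j} := by
    intro l _
    rw [Finset.mem_insert, Finset.mem_singleton]
    by_cases hl : l = i
    · exact Or.inl hl
    · exact Or.inr (hcon l hl)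
  have h2 := Finset.card_le_card h1
  have h3 : ({i, j} : Finset (Fin q)).card ≤ 2 := Finset.card_le_two
  rw [Finset.card_univ, Fintype.card_fin] at h2
  omega

/-- the condition on quadruples -/
def Ds {q : ℕ} (t : Fin q × Fin q × Fin q × Fin q) : Prop :=
  t.1 ≠ t.2.1 ∧ t.1 ≠ t.2.2.1 ∧ t.1 ≠ t.2.2.2 ∧ t.2.1 ≠ t.2.2.1 ∧ t.2.1 ≠ t.2.2.2 ∧
    t.2.2.1 ≠ t.2.2.2

end FRMM

open FRMM

theorem specFRM (hFUP : SpecFUP) (hFT2 : SpecFT2) (hFZF : SpecFZF) (hFZB : SpecFZB)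
    (hFCA : SpecFCA) (hFC1 : SpecFC1) (hFCB : SpecFCB) : SpecFRM := by
  intro k _ _ q hq ℓ _ hind
  have hch : ∀ t : Fin q × Fin q × Fin q × Fin q, ∃ (Z : Fin 3 → k) (a b a' b' : k), Ds t →
      Z ≠ 0 ∧ Z = a • ℓ t.1 + b • ℓ t.2.1 ∧ Z = a' • ℓ t.2.2.1 + b' • ℓ t.2.2.2 ∧
        LinearIndependent k ![ℓ t.1, ℓ t.2.2.1, Z] := by
    intro t
    by_cases ht : Ds t
    · obtain ⟨h1, h2, h3, h4, h5, h6⟩ := ht
      obtain ⟨Z, a, b, a', b', h⟩ := hFZF k q ℓ hind t.1 t.2.1 t.2.2.1 t.2.2.2 h1 h2 h3 h4 h5 h6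
      exact ⟨Z, a, b, a', b', fun _ => h⟩
    · exact ⟨0, 0, 0, 0, 0, fun h => absurd h ht⟩
  choose Z a b a' b' hZ using hch
  obtain ⟨B3, hB3⟩ : ∃ B3 : Fin q × Fin q × Fin q → Matrix (Fin 3) (Fin 3) k,
      B3 = fun t => Matrix.of ![ℓ t.1, ℓ t.2.1, ℓ t.2.2] := ⟨_, rfl⟩
  obtain ⟨B4, hB4⟩ : ∃ B4 : Fin q × Fin q × Fin q × Fin q → Matrix (Fin 3) (Fin 3) k,
      B4 = fun t => Matrix.of ![ℓ t.1, ℓ t.2.2.1, Z t] := ⟨_, rfl⟩
  refine ⟨(Finset.univ.filter Ds).image Z,
    (Finset.univ.filter (fun t : Fin q × Fin q × Fin q => t.1 ≠ t.2.1 ∧ t.1 ≠ t.2.2 ∧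
      t.2.1 ≠ t.2.2)).image B3 ∪ (Finset.univ.filter Ds).image B4, ?_, ?_, ?_⟩
  · intro c hc
    rw [Finset.mem_image] at hc
    obtain ⟨t, ht, rfl⟩ := hc
    exact (hZ t (Finset.mem_filter.1 ht).2).1
  · intro B hB
    rw [Finset.mem_union, Finset.mem_image, Finset.mem_image] at hB
    rcases hB with ⟨t, ht, rfl⟩ | ⟨t, ht, rfl⟩
    · obtain ⟨h1, h2, h3⟩ := (Finset.mem_filter.1 ht).2
      rw [hB3]
      exact det_ne (hind t.1 t.2.1 t.2.2 h1 h2 h3)
    · rw [hB4]
      exact det_ne (hZ t (Finset.mem_filter.1 ht).2).2.2.2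
  intro v
  obtain ⟨CT, hCT0, hCT⟩ := hFT2 k q hq ℓ hind v
  choose CU hCU0 hCU using fun t => hFUP k (Z t) v
  choose C1 hC10 hC1 using fun t : Fin q × Fin q × Fin q × Fin q =>
    hFZB k (ℓ t.1) (ℓ t.2.1) (a t) (b t) v
  choose C2 hC20 hC2 using fun t : Fin q × Fin q × Fin q × Fin q =>
    hFZB k (ℓ t.2.2.1) (ℓ t.2.2.2) (a' t) (b' t) v
  obtain ⟨C', hC'⟩ : ∃ C' : ℝ, C' = CT + ∑ t, (CU t + C1 t + C2 t) := ⟨_, rfl⟩
  have hterm : ∀ t, CU t + C1 t + C2 t ≤ ∑ t, (CU t + C1 t + C2 t) := fun t =>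
    Finset.single_le_sum (f := fun t => CU t + C1 t + C2 t)
      (fun s _ => add_nonneg (add_nonneg (hCU0 s) (hC10 s)) (hC20 s)) (Finset.mem_univ t)
  have hsum0 : 0 ≤ ∑ t, (CU t + C1 t + C2 t) :=
    Finset.sum_nonneg fun s _ => add_nonneg (add_nonneg (hCU0 s) (hC10 s)) (hC20 s)
  have hC'0 : 0 ≤ C' := by rw [hC']; linarith
  have hCTle : CT ≤ C' := by rw [hC']; linarith
  have hCUle : ∀ t, CU t ≤ C' := fun t => by
    rw [hC']; linarith [hterm t, hCU0 t, hC10 t, hC20 t]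
  have hC1le : ∀ t, C1 t ≤ C' := fun t => by
    rw [hC']; linarith [hterm t, hCU0 t, hC10 t, hC20 t]
  have hC2le : ∀ t, C2 t ≤ C' := fun t => by
    rw [hC']; linarith [hterm t, hCU0 t, hC10 t, hC20 t]
  obtain ⟨C0, hC0⟩ : ∃ C0 : ℝ, C0 = 2 * (q * C') + 2 * C' := ⟨_, rfl⟩
  have hqC : 0 ≤ (q : ℝ) * C' := by positivity
  have hC00 : 0 ≤ C0 := by rw [hC0]; positivity
  obtain ⟨CA, hCA0, hCA⟩ := hFCA k v
  obtain ⟨CE, hCE0, hCE⟩ := hFC1 k v
  obtain ⟨CB, hCB0, hCB⟩ := hFCB k v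
  refine ⟨2 * C0 + (CA + CE + CB), fun f T hLP => ?_⟩
  obtain ⟨F, _, _, av, x, x', hE, hx, hx', hf, hM, hℓx, hT⟩ := hLP
  have hLD : LD v F av x x' f := ⟨hE, hx, hx', hf⟩
  obtain ⟨hlow, i, j, hij, hji, hrest⟩ := hCT F av x hE hx fun l => (hℓx l).1
  obtain ⟨hlow', i', j', hij', hji', hrest'⟩ := hCT F av x' hE hx' fun l => (hℓx l).2
  have hTle : T ≤ lam av (ℓ i) x + lam av (ℓ j) x + lam av (ℓ i') x' + lam av (ℓ j') x' +
      2 * (q * C') := by
    rw [hT, Finset.sum_add_distrib]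
    have h1 := sum_two (fun l => lam av (ℓ l) x) hij hC'0 fun l h h' => (hrest l h h').trans hCTle
    have h2 := sum_two (fun l => lam av (ℓ l) x') hij' hC'0
      fun l h h' => (hrest' l h h').trans hCTle
    linarith
  have hCT0' : CT ≤ C0 := by rw [hC0]; linarith
  have hC'C0 : C' ≤ C0 := by rw [hC0]; linarith
  have hlow0 : ∀ l, -C0 ≤ lam av (ℓ l) x := fun l => by linarith [hlow l]
  have hlow0' : ∀ l, -C0 ≤ lam av (ℓ l) x' := fun l => by linarith [hlow' l]
  -- membership and data for the triples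
  have hmem3 : ∀ s t u : Fin q, s ≠ t → s ≠ u → t ≠ u → Matrix.of ![ℓ s, ℓ t, ℓ u] ∈
      (Finset.univ.filter (fun t : Fin q × Fin q × Fin q => t.1 ≠ t.2.1 ∧ t.1 ≠ t.2.2 ∧
      t.2.1 ≠ t.2.2)).image B3 ∪ (Finset.univ.filter Ds).image B4 := by
    intro s t u h1 h2 h3
    rw [Finset.mem_union, Finset.mem_image]
    refine Or.inl ⟨(s, t, u), ?_, ?_⟩
    · rw [Finset.mem_filter]
      exact ⟨Finset.mem_univ _, h1, h2, h3⟩
    · rw [hB3]
  have hdat3 : ∀ s t u : Fin q, (∀ m : Fin 3, evalForm (Matrix.of ![ℓ s, ℓ t, ℓ u] m) x ≠ 0 ∧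
      evalForm (Matrix.of ![ℓ s, ℓ t, ℓ u] m) x' ≠ 0) ∧
      ∀ m : Fin 3, -C0 ≤ lam av (Matrix.of ![ℓ s, ℓ t, ℓ u] m) x ∧
        -C0 ≤ lam av (Matrix.of ![ℓ s, ℓ t, ℓ u] m) x' := by
    intro s t u
    constructor
    · intro m
      fin_cases m
      · exact hℓx s
      · exact hℓx t
      · exact hℓx u
    · intro m
      fin_cases m
      · exact ⟨hlow0 s, hlow0' s⟩
      · exact ⟨hlow0 t, hlow0' t⟩
      · exact ⟨hlow0 u, hlow0' u⟩
  -- type B
  have caseB : ∀ s t : Fin q, s ≠ t → (∀ l, l ≠ s → l ≠ t → lam av (ℓ l) x ≤ CT) →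
      (∀ l, l ≠ s → l ≠ t → lam av (ℓ l) x' ≤ CT) →
      T ≤ lam av (ℓ s) x + lam av (ℓ s) x' + lam av (ℓ t) x + lam av (ℓ t) x' + C0 →
      ∃ B ∈ (Finset.univ.filter (fun t : Fin q × Fin q × Fin q => t.1 ≠ t.2.1 ∧ t.1 ≠ t.2.2 ∧
        t.2.1 ≠ t.2.2)).image B3 ∪ (Finset.univ.filter Ds).image B4,
        Fr v ℓ B f T (2 * C0 + (CA + CE + CB)) := by
    intro s t hst h1 h2 h3
    obtain ⟨l, hls, hlt⟩ := exists_third hq s t
    refine ⟨Matrix.of ![ℓ s, ℓ t, ℓ l], hmem3 s t l hst (Ne.symm hls) (Ne.symm hlt),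
      Or.inr (Or.inr ⟨s, t, l, hst, Ne.symm hls, Ne.symm hlt, rfl, rfl, rfl, ?_⟩)⟩
    refine frB_mono (hCB C0 hC00 F av x x' f hLD (Matrix.of ![ℓ s, ℓ t, ℓ l]) T
      (hdat3 s t l).1 (hdat3 s t l).2 ?_ ?_ h3) (by linarith)
    · exact (h1 l hls hlt).trans hCT0'
    · exact (h2 l hls hlt).trans hCT0'
  -- type A2
  have caseA2 : ∀ s t u : Fin q, s ≠ t → s ≠ u → t ≠ u → lam av (ℓ s) x' ≤ CT →
      lam av (ℓ t) x ≤ CT →
      T ≤ lam av (ℓ s) x + lam av (ℓ t) x' + lam av (ℓ u) x + lam av (ℓ u) x' + C0 →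
      ∃ B ∈ (Finset.univ.filter (fun t : Fin q × Fin q × Fin q => t.1 ≠ t.2.1 ∧ t.1 ≠ t.2.2 ∧
        t.2.1 ≠ t.2.2)).image B3 ∪ (Finset.univ.filter Ds).image B4,
        Fr v ℓ B f T (2 * C0 + (CA + CE + CB)) := by
    intro s t u hst hsu htu h1 h2 h3
    refine ⟨Matrix.of ![ℓ s, ℓ t, ℓ u], hmem3 s t u hst hsu htu,
      Or.inl ⟨s, t, u, hst, hsu, htu, rfl, rfl, rfl, ?_⟩⟩
    exact frA_mono (hCA C0 hC00 F av x x' f hLD (Matrix.of ![ℓ s, ℓ t, ℓ u]) T
      (hdat3 s t u).1 (hdat3 s t u).2 (h1.trans hCT0') (h2.trans hCT0') h3) (by linarith)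
  by_cases e1 : i = i'
  · by_cases e2 : j = j'
    · -- {i, j} = {i', j'}
      subst e1 e2
      exact caseB i j hij hrest hrest' (by rw [hC0]; linarith)
    · -- common index i
      subst e1
      refine caseA2 j j' i e2 (Ne.symm hij) (Ne.symm hij') ?_ ?_ (by rw [hC0]; linarith)
      · exact hrest' j (Ne.symm hij) e2
      · exact hrest j' (Ne.symm hij') (Ne.symm e2)
  · by_cases e2 : i = j'
    · by_cases e3 : j = i'
      · subst e2 e3
        exact caseB i j hij hrest (fun l h h' => hrest' l h' h) (by rw [hC0]; linarith)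
      · -- common index i = j'
        subst e2
        refine caseA2 j i' i e3 (Ne.symm hij) hij' ?_ ?_ (by rw [hC0]; linarith)
        · exact hrest' j e3 (Ne.symm hij)
        · exact hrest i' hij' (Ne.symm e3)
    · by_cases e3 : j = i'
      · -- common index j = i'
        subst e3
        refine caseA2 i j' j e2 hij (Ne.symm hij') ?_ ?_ (by rw [hC0]; linarith)
        · exact hrest' i hij e2
        · exact hrest j' (Ne.symm e2) (Ne.symm hij')
      · by_cases e4 : j = j'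
        · -- common index j = j'
          subst e4
          refine caseA2 i i' j e1 hij hij' ?_ ?_ (by rw [hC0]; linarith)
          · exact hrest' i e1 hij
          · exact hrest i' (Ne.symm e1) hij'
        · -- four distinct indices
          obtain ⟨t, ht⟩ : ∃ t : Fin q × Fin q × Fin q × Fin q, t = (i, j, i', j') := ⟨_, rfl⟩
          have hDs : Ds t := by
            rw [ht]
            exact ⟨hij, e1, e2, e3, e4, hij'⟩
          obtain ⟨hZ0, hZ1, hZ2, hZ3⟩ := hZ t hDs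
          have hMt := hM (Z t) (Finset.mem_image.2 ⟨t, Finset.mem_filter.2
            ⟨Finset.mem_univ _, hDs⟩, rfl⟩)
          have hB4t : B4 t = Matrix.of ![ℓ i, ℓ i', Z t] := by rw [hB4, ht]
          have hlZ : -C0 ≤ lam av (Z t) x := by
            have := (hCU t F av x hE hx).2 hMt.1
            linarith [hCUle t]
          have hlZ' : -C0 ≤ lam av (Z t) x' := by
            have := (hCU t F av x' hE hx').2 hMt.2
            linarith [hCUle t]
          have hz : lam av (ℓ j) x ≤ lam av (Z t) x + C' := by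
            have h1 := hC1 t F av x hE hx (hℓx t.1).1 (hℓx t.2.1).1 (by
              rw [← hZ1]; exact hMt.1)
            rw [← hZ1] at h1
            have h2 : min (lam av (ℓ t.1) x) (lam av (ℓ t.2.1) x) = lam av (ℓ j) x := by
              rw [ht]; exact min_eq_right hji
            rw [h2] at h1
            linarith [hC1le t]
          have hz' : lam av (ℓ j') x' ≤ lam av (Z t) x' + C' := by
            have h1 := hC2 t F av x' hE hx' (hℓx t.2.2.1).2 (hℓx t.2.2.2).2 (by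
              rw [← hZ2]; exact hMt.2)
            rw [← hZ2] at h1
            have h2 : min (lam av (ℓ t.2.2.1) x') (lam av (ℓ t.2.2.2) x') = lam av (ℓ j') x' := by
              rw [ht]; exact min_eq_right hji'
            rw [h2] at h1
            linarith [hC2le t]
          have hdat : (∀ m : Fin 3, evalForm (Matrix.of ![ℓ i, ℓ i', Z t] m) x ≠ 0 ∧
              evalForm (Matrix.of ![ℓ i, ℓ i', Z t] m) x' ≠ 0) := by
            intro m
            fin_cases m
            · exact hℓx i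
            · exact hℓx i'
            · exact hMt
          have hdat2 : ∀ m : Fin 3, -C0 ≤ lam av (Matrix.of ![ℓ i, ℓ i', Z t] m) x ∧
              -C0 ≤ lam av (Matrix.of ![ℓ i, ℓ i', Z t] m) x' := by
            intro m
            fin_cases m
            · exact ⟨hlow0 i, hlow0' i⟩
            · exact ⟨hlow0 i', hlow0' i'⟩
            · exact ⟨hlZ, hlZ'⟩
          refine ⟨B4 t, ?_, ?_⟩
          · rw [Finset.mem_union, Finset.mem_image, Finset.mem_image]
            exact Or.inr ⟨t, Finset.mem_filter.2 ⟨Finset.mem_univ _, hDs⟩, rfl⟩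
          · rw [hB4t]
            refine Or.inr (Or.inl ⟨i, i', e1, rfl, rfl, ?_, ?_⟩)
            · refine frA_mono (hCA C0 hC00 F av x x' f hLD (Matrix.of ![ℓ i, ℓ i', Z t]) T
                hdat hdat2 ((hrest' i e1 e2).trans hCT0') ((hrest i' (Ne.symm e1)
                  (Ne.symm e3)).trans hCT0') ?_) (by linarith)
              change T ≤ lam av (ℓ i) x + lam av (ℓ i') x' + lam av (Z t) x + lam av (Z t) x' + C0
              rw [hC0]
              linarith
            · refine frA1_mono (hCE C0 hC00 F av x x' f hLD (Matrix.of ![ℓ i, ℓ i', Z t]) T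
                (lam av (ℓ j) x) (lam av (ℓ j') x') hdat hdat2 hji hji' ?_ ?_ ?_) (by linarith)
              · change lam av (ℓ j) x - C0 ≤ lam av (Z t) x
                linarith
              · change lam av (ℓ j') x' - C0 ≤ lam av (Z t) x'
                linarith
              · change T ≤ lam av (ℓ i) x + lam av (ℓ i') x' + lam av (ℓ j) x +
                  lam av (ℓ j') x' + C0
                rw [hC0]
                linarith

end Pool.Agent.Lib.MP_d0e829_nt.SS
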