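import Pool.Agent.Lib.MP_d0e829_nt.SS.SpecF

/-!
# Frames, module FT2: the two lines nearest to a point
-/

set_option autoImplicit false

open NumberField

namespace Pool.Agent.Lib.MP_d0e829_nt.SS

open scoped Classical

namespace FT2M

theorem nav_pos {k : Type} [Field k] [NumberField k] {v : Place k} {F : Type} [Field F]
    [Algebra k F] {av : F → ℝ} (h : ExtAbs v F av) {x : Fin 3 → F} (hx : x ≠ 0) :
    0 < nav av x := by
  obtain ⟨j, hj⟩ := Function.ne_iff.1 hx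
  have h1 : 0 < av (x j) := h.pos _ hj
  exact lt_of_lt_of_le h1 (le_ciSup (f := fun j => av (x j)) (Set.finite_range _).bddAbove j)

theorem det_ne {k : Type} [Field k] {a b c : Fin 3 → k} (h : LinearIndependent k ![a, b, c]) :
    (Matrix.of ![a, b, c]).det ≠ 0 := by
  have h1 : LinearIndependent k (Matrix.of ![a, b, c]).row := h
  rw [Matrix.linearIndependent_rows_iff_isUnit, Matrix.isUnit_iff_isUnit_det] at h1
  exact h1.ne_zero

theorem lam_le {k : Type} [Field k] [NumberField k] {v : Place k} {F : Type} [Field F]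
    [Algebra k F] {av : F → ℝ} (h : ExtAbs v F av) {x : Fin 3 → F} (hx : x ≠ 0)
    {c : Fin 3 → k} (hc : evalForm c x ≠ 0) {C : ℝ}
    (hC : nav av x ≤ Real.exp C * av (evalForm c x)) : lam av c x ≤ C := by
  have h1 := Real.log_le_log (nav_pos h hx) hC
  rw [Real.log_mul (Real.exp_pos C).ne' (h.pos _ hc).ne', Real.log_exp] at h1
  unfold lam
  linarith

end FT2M

theorem specFT2 (hFUP : SpecFUP) (hFLW : SpecFLW) : SpecFT2 := by
  intro k _ _ q hq ℓ hℓ v
  choose CU hCU0 hCU using fun l : Fin q => hFUP k (ℓ l) v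
  have key : ∀ t : Fin q × Fin q × Fin q, ∃ C : ℝ, 0 ≤ C ∧
      (t.1 ≠ t.2.1 → t.1 ≠ t.2.2 → t.2.1 ≠ t.2.2 →
        ∀ (F : Type) [Field F] [Algebra k F] (av : F → ℝ) (x : Fin 3 → F),
        ExtAbs v F av → x ≠ 0 →
        ∃ r : Fin 3, nav av x ≤ Real.exp C * av (evalForm ((![ℓ t.1, ℓ t.2.1, ℓ t.2.2] :
          Fin 3 → Fin 3 → k) r) x)) := by
    intro t
    by_cases h : t.1 ≠ t.2.1 ∧ t.1 ≠ t.2.2 ∧ t.2.1 ≠ t.2.2
    · obtain ⟨C, hC0, hC⟩ := hFLW k (Matrix.of ![ℓ t.1, ℓ t.2.1, ℓ t.2.2])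
        (FT2M.det_ne (hℓ _ _ _ h.1 h.2.1 h.2.2)) v
      exact ⟨C, hC0, fun _ _ _ F _ _ av x hav hx => hC F av x hav hx⟩
    · refine ⟨0, le_rfl, fun h1 h2 h3 => absurd ⟨h1, h2, h3⟩ h⟩
  choose CT hCT0 hCT using key
  refine ⟨∑ l, CU l + ∑ t, CT t, add_nonneg (Finset.sum_nonneg fun l _ => hCU0 l)
    (Finset.sum_nonneg fun t _ => hCT0 t), ?_⟩
  intro F _ _ av x hav hx hne
  have hU : ∀ l, CU l ≤ ∑ l, CU l + ∑ t, CT t := fun l => by
    have h1 := Finset.single_le_sum (fun l _ => hCU0 l) (Finset.mem_univ l)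
    have h2 : 0 ≤ ∑ t, CT t := Finset.sum_nonneg fun t _ => hCT0 t
    linarith
  have hT : ∀ t, CT t ≤ ∑ l, CU l + ∑ t, CT t := fun t => by
    have h1 := Finset.single_le_sum (fun t _ => hCT0 t) (Finset.mem_univ t)
    have h2 : 0 ≤ ∑ l, CU l := Finset.sum_nonneg fun l _ => hCU0 l
    linarith
  refine ⟨fun l => ?_, ?_⟩
  · have h1 := (hCU l F av x hav hx).2 (hne l)
    have h2 := hU l
    linarith
  · haveI : Nonempty (Fin q) := ⟨⟨0, by omega⟩⟩
    obtain ⟨i, hi⟩ := Finite.exists_max fun l : Fin q => lam av (ℓ l) x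
    have hne' : ((Finset.univ : Finset (Fin q)).erase i).Nonempty := by
      rw [← Finset.card_pos, Finset.card_erase_of_mem (Finset.mem_univ i), Finset.card_univ,
        Fintype.card_fin]
      omega
    obtain ⟨j, hj, hjm⟩ := Finset.exists_max_image _ (fun l : Fin q => lam av (ℓ l) x) hne'
    have hji : j ≠ i := (Finset.mem_erase.1 hj).1
    refine ⟨i, j, hji.symm, hi j, fun l hli hlj => ?_⟩
    have hlj' : lam av (ℓ l) x ≤ lam av (ℓ j) x :=
      hjm l (Finset.mem_erase.2 ⟨hli, Finset.mem_univ l⟩)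
    have hli' : lam av (ℓ l) x ≤ lam av (ℓ i) x := hi l
    obtain ⟨r, hr⟩ := hCT (i, j, l) hji.symm hli.symm hlj.symm F av x hav hx
    have hb := hT (i, j, l)
    fin_cases r
    · have h1 := FT2M.lam_le hav hx (hne i) hr
      linarith
    · have h1 := FT2M.lam_le hav hx (hne j) hr
      linarith
    · have h1 := FT2M.lam_le hav hx (hne l) hr
      linarith

end Pool.Agent.Lib.MP_d0e829_nt.SS
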