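import Pool.Agent.Lib.MP_d0e829_nt.SS.SpecF

/-!
# FUP: upper bound for the values of a form
-/

set_option autoImplicit false

open NumberField

namespace Pool.Agent.Lib.MP_d0e829_nt.SS

open scoped Classical

namespace FUPM

variable {k : Type} [Field k] [NumberField k] {v : Place k} {F : Type} [Field F] [Algebra k F]
  {av : F → ℝ}

lemma av_nonneg (h : ExtAbs v F av) (z : F) : 0 ≤ av z := by
  by_cases hz : z = 0
  · rw [hz, h.zero]
  · exact (h.pos z hz).le

lemma le_nav (x : Fin 3 → F) (j : Fin 3) : av (x j) ≤ nav av x :=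
  le_ciSup (f := fun j => av (x j)) (Set.finite_range _).bddAbove j

lemma nav_pos (h : ExtAbs v F av) {x : Fin 3 → F} (hx : x ≠ 0) : 0 < nav av x := by
  obtain ⟨j, hj⟩ := Function.ne_iff.mp hx
  exact lt_of_lt_of_le (h.pos _ hj) (le_nav x j)

lemma bound (h : ExtAbs v F av) (c : Fin 3 → k) (x : Fin 3 → F) :
    av (evalForm c x) ≤ (2 : ℝ) ^ sw v * ((2 : ℝ) ^ sw v * (nrm v c * nav av x)) := by
  have h1 : ∀ j, av (algebraMap k F (c j) * x j) ≤ nrm v c * nav av x := by
    intro j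
    rw [h.mul, h.ext]
    exact mul_le_mul (absV_le_nrm v c j) (le_nav x j) (av_nonneg h _)
      (le_trans (absV_nonneg v _) (absV_le_nrm v c j))
  have h2 : 1 ≤ (2 : ℝ) ^ sw v := Real.one_le_rpow (by norm_num) (sw_nonneg v)
  have h0 : 0 ≤ nrm v c * nav av x := le_trans (av_nonneg h _) (h1 0)
  rw [evalForm, Fin.sum_univ_three]
  exact h.add _ _ _ (h.add _ _ _ (h1 0) (h1 1)) (le_trans (h1 2) (le_mul_of_one_le_left h0 h2))

end FUPM

open FUPM in
theorem specFUP : SpecFUP := by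
  intro k _ _ c v
  have h2 : 1 ≤ (2 : ℝ) ^ sw v := Real.one_le_rpow (by norm_num) (sw_nonneg v)
  have hn : 0 ≤ nrm v c := le_trans (absV_nonneg v _) (absV_le_nrm v c 0)
  set D : ℝ := (2 : ℝ) ^ sw v * ((2 : ℝ) ^ sw v * (1 + nrm v c)) with hD
  have hD1 : 1 ≤ D := by
    have : (1 : ℝ) ≤ (2 : ℝ) ^ sw v * (1 + nrm v c) := by nlinarith
    rw [hD]; nlinarith
  have hD0 : 0 < D := by linarith
  refine ⟨Real.log D, Real.log_nonneg hD1, ?_⟩
  intro F _ _ av x h hx
  have hp : 0 < nav av x := nav_pos h hx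
  have hb : av (evalForm c x) ≤ D * nav av x := by
    refine le_trans (bound h c x) ?_
    rw [hD, mul_assoc, mul_assoc]
    have : nrm v c * nav av x ≤ (1 + nrm v c) * nav av x := by nlinarith
    gcongr
  refine ⟨by rw [Real.exp_log hD0]; exact hb, fun hc => ?_⟩
  have h3 : Real.log (av (evalForm c x)) ≤ Real.log D + Real.log (nav av x) := by
    rw [← Real.log_mul hD0.ne' hp.ne']
    exact Real.log_le_log (h.pos _ hc) hb
  rw [lam]
  linarith

end Pool.Agent.Lib.MP_d0e829_nt.SS
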