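import Pool.Agent.Lib.MP_d0e829_nt.SS.SpecF

/-!
# Part C, frames: lower bound for `lam` of a combination (module FZB)
-/

set_option autoImplicit false

open NumberField

namespace Pool.Agent.Lib.MP_d0e829_nt.SS

open scoped Classical

namespace FZBM

theorem evalForm_comb {k F : Type} [Field k] [Field F] [Algebra k F] (c d : Fin 3 → k) (a b : k)
    (x : Fin 3 → F) : evalForm (a • c + b • d) x =
      algebraMap k F a * evalForm c x + algebraMap k F b * evalForm d x := by
  simp only [evalForm, Pi.add_apply, Pi.smul_apply, smul_eq_mul, map_add, map_mul,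
    Fin.sum_univ_three]
  ring

end FZBM

theorem specFZB : SpecFZB := by
  intro k _ _ c d a b v
  have hA : (1 : ℝ) ≤ 1 + absV v a + absV v b := by
    have := absV_nonneg v a
    have := absV_nonneg v b
    linarith
  have h2 : (1 : ℝ) ≤ (2 : ℝ) ^ sw v := Real.one_le_rpow (by norm_num) (sw_nonneg v)
  have h2A : (1 : ℝ) ≤ (2 : ℝ) ^ sw v * (1 + absV v a + absV v b) :=
    one_le_mul_of_one_le_of_one_le h2 hA
  refine ⟨Real.log ((2 : ℝ) ^ sw v * (1 + absV v a + absV v b)), Real.log_nonneg h2A, ?_⟩
  intro F _ _ av x hE hx hc hd hcd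
  have pc := hE.pos _ hc
  have pd := hE.pos _ hd
  have pcd := hE.pos _ hcd
  set m := max (av (evalForm c x)) (av (evalForm d x)) with hm
  have pm : 0 < m := lt_max_of_lt_left pc
  have e1 : av (algebraMap k F a * evalForm c x) ≤ (1 + absV v a + absV v b) * m := by
    rw [hE.mul, hE.ext]
    refine mul_le_mul ?_ (le_max_left _ _) pc.le (by linarith)
    linarith [absV_nonneg v a, absV_nonneg v b]
  have e2 : av (algebraMap k F b * evalForm d x) ≤ (1 + absV v a + absV v b) * m := by
    rw [hE.mul, hE.ext]
    refine mul_le_mul ?_ (le_max_right _ _) pd.le (by linarith)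
    linarith [absV_nonneg v a, absV_nonneg v b]
  have e3 := hE.add _ _ _ e1 e2
  rw [← FZBM.evalForm_comb, ← mul_assoc] at e3
  have e4 := Real.log_le_log pcd e3
  rw [Real.log_mul (by linarith) pm.ne'] at e4
  have e5 : Real.log m ≤ max (Real.log (av (evalForm c x))) (Real.log (av (evalForm d x))) := by
    rcases max_cases (av (evalForm c x)) (av (evalForm d x)) with ⟨h, -⟩ | ⟨h, -⟩
    · rw [hm, h]; exact le_max_left _ _
    · rw [hm, h]; exact le_max_right _ _
  unfold lam
  rcases le_total (Real.log (av (evalForm c x))) (Real.log (av (evalForm d x))) with h | h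
  · rw [max_eq_right h] at e5
    have := min_le_right (Real.log (nav av x) - Real.log (av (evalForm c x)))
      (Real.log (nav av x) - Real.log (av (evalForm d x)))
    linarith
  · rw [max_eq_left h] at e5
    have := min_le_left (Real.log (nav av x) - Real.log (av (evalForm c x)))
      (Real.log (nav av x) - Real.log (av (evalForm d x)))
    linarith

end Pool.Agent.Lib.MP_d0e829_nt.SS
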