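import Pool.Agent.Lib.MP_d0e829_nt.SS.SpecF

/-!
# FZF: the line through two intersection points
-/

set_option autoImplicit false

open NumberField

namespace Pool.Agent.Lib.MP_d0e829_nt.SS

open scoped Classical

namespace FZFM

variable {k : Type} [Field k]

/-- the determinant of three vectors -/
def dt (a b c : Fin 3 → k) : k :=
  a 0 * b 1 * c 2 - a 0 * b 2 * c 1 - a 1 * b 0 * c 2 + a 1 * b 2 * c 0 + a 2 * b 0 * c 1 - a 2 * b 1 * c 0

theorem li_iff (a b c : Fin 3 → k) : LinearIndependent k ![a, b, c] ↔ dt a b c ≠ 0 := by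
  have h1 : (Matrix.of ![a, b, c]).det = dt a b c := by
    rw [Matrix.det_fin_three]
    simp [dt]
  have h2 := Matrix.linearIndependent_rows_iff_isUnit (A := Matrix.of ![a, b, c])
  rw [Matrix.isUnit_iff_isUnit_det, h1, isUnit_iff_ne_zero] at h2
  exact h2

end FZFM

open FZFM

theorem specFZF : SpecFZF := by
  intro k _ q ℓ hℓ i j i' j' h1 h2 h3 h4 h5 h6
  have d1 := (li_iff _ _ _).1 (hℓ i i' j' h2 h3 h6)
  have d2 := (li_iff _ _ _).1 (hℓ i i' j h2 h1 h4.symm)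
  have hLI : LinearIndependent k ![ℓ i, ℓ i', dt (ℓ j) (ℓ i') (ℓ j') • ℓ i +
      (-dt (ℓ i) (ℓ i') (ℓ j')) • ℓ j] := by
    rw [li_iff]
    have h : dt (ℓ i) (ℓ i') (dt (ℓ j) (ℓ i') (ℓ j') • ℓ i + (-dt (ℓ i) (ℓ i') (ℓ j')) • ℓ j) =
        (-dt (ℓ i) (ℓ i') (ℓ j')) * dt (ℓ i) (ℓ i') (ℓ j) := by
      simp only [dt, Pi.add_apply, Pi.smul_apply, smul_eq_mul]
      ring
    rw [h]
    exact mul_ne_zero (neg_ne_zero.2 d1) d2
  refine ⟨dt (ℓ j) (ℓ i') (ℓ j') • ℓ i + (-dt (ℓ i) (ℓ i') (ℓ j')) • ℓ j, dt (ℓ j) (ℓ i') (ℓ j'),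
    -dt (ℓ i) (ℓ i') (ℓ j'), -dt (ℓ i) (ℓ j) (ℓ j'), dt (ℓ i) (ℓ j) (ℓ i'), ?_, rfl, ?_, hLI⟩
  · intro hZ
    rw [hZ] at hLI
    exact hLI.ne_zero 2 (by simp)
  · funext t
    fin_cases t
    · simp only [dt, Pi.add_apply, Pi.smul_apply, smul_eq_mul]
      simp
      ring
    · simp only [dt, Pi.add_apply, Pi.smul_apply, smul_eq_mul]
      simp
      ring
    · simp only [dt, Pi.add_apply, Pi.smul_apply, smul_eq_mul]
      simp
      ring

end Pool.Agent.Lib.MP_d0e829_nt.SS
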