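import Pool.Agent.Lib.MP_d0e829_nt.SS.SpecG

/-!
# Module GLU: from a point of degree at most two to a point of the system
-/

set_option autoImplicit false

open NumberField

namespace Pool.Agent.Lib.MP_d0e829_nt.SS

open scoped Classical

namespace GLUM

section alg

variable {k K : Type} [Field k] [Field K] [Algebra k K]

theorem sqv_eq {f : Fin 6 → k} {x x' : Fin 3 → K} (hf : ∀ j, algebraMap k K (f j) = sq x x' j)
    (c : Fin 3 → k) : algebraMap k K (sqv c ⬝ᵥ f) = evalForm c x * evalForm c x' := by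
  have h0 := hf 0
  have h1 := hf 1
  have h2 := hf 2
  have h3 := hf 3
  have h4 := hf 4
  have h5 := hf 5
  simp only [sq, Matrix.cons_val_zero, Matrix.cons_val_one, Matrix.cons_val] at h0 h1 h2 h3 h4 h5
  simp only [dotProduct, Fin.sum_univ_six, Fin.sum_univ_three, sqv, evalForm, map_add, map_mul,
    map_pow, Matrix.cons_val_zero, Matrix.cons_val_one, Matrix.cons_val, h0, h1, h2, h3, h4, h5]
  ring

theorem mix_eq {f : Fin 6 → k} {x x' : Fin 3 → K} (hf : ∀ j, algebraMap k K (f j) = sq x x' j)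
    (c d : Fin 3 → k) : algebraMap k K (mix c d ⬝ᵥ f) =
      evalForm c x * evalForm d x' + evalForm d x * evalForm c x' := by
  have h0 := hf 0
  have h1 := hf 1
  have h2 := hf 2
  have h3 := hf 3
  have h4 := hf 4
  have h5 := hf 5
  simp only [sq, Matrix.cons_val_zero, Matrix.cons_val_one, Matrix.cons_val] at h0 h1 h2 h3 h4 h5
  simp only [dotProduct, Fin.sum_univ_six, Fin.sum_univ_three, mix, evalForm, map_add, map_mul,
    map_ofNat, Matrix.cons_val_zero, Matrix.cons_val_one, Matrix.cons_val, h0, h1, h2, h3, h4, h5]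
  ring

theorem dlt_eq {f : Fin 6 → k} {x x' : Fin 3 → K} (hf : ∀ j, algebraMap k K (f j) = sq x x' j) :
    dlt f = 0 := by
  apply (algebraMap k K).injective
  rw [map_zero]
  have h0 := hf 0
  have h1 := hf 1
  have h2 := hf 2
  have h3 := hf 3
  have h4 := hf 4
  have h5 := hf 5
  simp only [sq, Matrix.cons_val_zero, Matrix.cons_val_one, Matrix.cons_val] at h0 h1 h2 h3 h4 h5
  simp only [dlt, map_add, map_sub, map_mul, map_pow, map_ofNat, h0, h1, h2, h3, h4, h5]
  ring

theorem eval_alg {L : Type} [Field L] [Algebra k L] (σ : K →ₐ[k] L) (c : Fin 3 → k)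
    (x : Fin 3 → K) : ∑ j, algebraMap k L (c j) * σ (x j) = σ (evalForm c x) := by
  unfold evalForm
  rw [map_sum]
  refine Finset.sum_congr rfl fun j _ => ?_
  rw [map_mul, AlgHom.commutes]

theorem eval_tau (τ : K ≃ₐ[k] K) (c : Fin 3 → k) (x : Fin 3 → K) :
    evalForm c (fun j => τ (x j)) = τ (evalForm c x) := by
  unfold evalForm
  rw [map_sum]
  refine Finset.sum_congr rfl fun j _ => ?_
  rw [map_mul, AlgEquiv.commutes]

theorem sq_fixed (τ : K ≃ₐ[k] K) (h2 : ∀ z, τ (τ z) = z) (x : Fin 3 → K) (j : Fin 6) :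
    τ (sq x (fun j => τ (x j)) j) = sq x (fun j => τ (x j)) j := by
  fin_cases j <;> simp [sq, h2] <;> ring

end alg

section val

variable {k : Type} [Field k] [NumberField k] {K : Type} [Field K] [Algebra k K]

theorem av_nonneg {v : Place k} {av : K → ℝ} (h : ExtAbs v K av) (z : K) : 0 ≤ av z := by
  by_cases hz : z = 0
  · rw [hz, h.zero]
  · exact (h.pos z hz).le

theorem le_nav {ι : Type} [Finite ι] (av : K → ℝ) (x : ι → K) (j : ι) : av (x j) ≤ nav av x :=
  le_ciSup (f := fun j => av (x j)) (Set.finite_range _).bddAbove j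

theorem nav_pos {v : Place k} {av : K → ℝ} (h : ExtAbs v K av) {ι : Type} [Finite ι]
    {x : ι → K} (hx : x ≠ 0) : 0 < nav av x := by
  obtain ⟨j, hj⟩ := Function.ne_iff.mp hx
  exact (h.pos _ hj).trans_le (le_nav av x j)

theorem nrm_le_nav {v : Place k} {av : K → ℝ} (h : ExtAbs v K av) {f : Fin 6 → k}
    {x x' : Fin 3 → K} (hx : x ≠ 0) (hx' : x' ≠ 0)
    (hf : ∀ j, algebraMap k K (f j) = sq x x' j) :
    nrm v f ≤ (2 : ℝ) ^ sw v * (nav av x * nav av x') := by
  have hp := nav_pos h hx
  have hp' := nav_pos h hx'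
  have hB : 0 ≤ nav av x * nav av x' := (mul_pos hp hp').le
  have h1 : (1 : ℝ) ≤ (2 : ℝ) ^ sw v := Real.one_le_rpow (by norm_num) (sw_nonneg v)
  have key : ∀ i j, av (x i * x' j) ≤ nav av x * nav av x' := by
    intro i j
    rw [h.mul]
    exact mul_le_mul (le_nav av x i) (le_nav av x' j) (av_nonneg h _) hp.le
  have hB' : nav av x * nav av x' ≤ (2 : ℝ) ^ sw v * (nav av x * nav av x') :=
    le_mul_of_one_le_left hB h1
  refine nrm_le v f (mul_nonneg (by positivity) hB) ?_
  intro j
  rw [← h.ext, hf]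
  have e0 : sq x x' 0 = x 0 * x' 0 := rfl
  have e1 : sq x x' 1 = x 1 * x' 1 := rfl
  have e2 : sq x x' 2 = x 2 * x' 2 := rfl
  have e3 : sq x x' 3 = x 1 * x' 2 + x 2 * x' 1 := rfl
  have e4 : sq x x' 4 = x 0 * x' 2 + x 2 * x' 0 := rfl
  have e5 : sq x x' 5 = x 0 * x' 1 + x 1 * x' 0 := rfl
  fin_cases j
  · exact (show av (sq x x' 0) ≤ _ from e0 ▸ (key 0 0).trans hB')
  · exact (show av (sq x x' 1) ≤ _ from e1 ▸ (key 1 1).trans hB')
  · exact (show av (sq x x' 2) ≤ _ from e2 ▸ (key 2 2).trans hB')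
  · exact (show av (sq x x' 3) ≤ _ from e3 ▸ h.add _ _ _ (key 1 2) (key 2 1))
  · exact (show av (sq x x' 4) ≤ _ from e4 ▸ h.add _ _ _ (key 0 2) (key 2 0))
  · exact (show av (sq x x' 5) ≤ _ from e5 ▸ h.add _ _ _ (key 0 1) (key 1 0))

end val

end GLUM

open GLUM in
theorem specGLU (hEXTV : SpecEXTV) (hPLB : SpecPLB) (hLVL : SpecLVL) (_hALG : SpecALG) :
    SpecGLU := by
  intro k _ _ S q ℓ M hM
  refine ⟨Real.log 2 + |∑ i, ∑ v ∈ S, Real.log (nrm v (ℓ i))|, ?_⟩
  intro K _ _ _ σ x hdeg hx hMx hℓx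
  obtain ⟨τ, hτ2, hτfix, hav⟩ := hEXTV k K hdeg
  choose av hEx hcase using hav
  have hLE : ∀ v, LocExt v τ (av v) := fun v => ⟨hEx v, hcase v⟩
  set x' : Fin 3 → K := fun j => τ (x j) with hx'def
  have hx' : x' ≠ 0 := by
    intro h
    apply hx
    funext j
    have : τ (x j) = 0 := congrFun h j
    exact (map_eq_zero_iff τ τ.injective).mp this
  choose f hf using fun j => hτfix (sq x x' j) (sq_fixed τ hτ2 x j)
  have hf0 : f ≠ 0 := by
    intro h
    apply hx
    have hz : ∀ j, sq x x' j = 0 := by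
      intro j
      rw [← hf j, h]
      exact map_zero _
    have hz' : ∀ z : K, z * τ z = 0 → z = 0 := by
      intro z hz
      rcases mul_eq_zero.mp hz with h | h
      · exact h
      · exact (map_eq_zero_iff τ τ.injective).mp h
    funext j
    fin_cases j
    · exact hz' _ (hz 0)
    · exact hz' _ (hz 1)
    · exact hz' _ (hz 2)
  have hlog2 : 0 ≤ Real.log 2 := Real.log_nonneg (by norm_num)
  refine ⟨(fun j => σ (x j), f, fun v => ∑ i, (lam (av v) (ℓ i) x + lam (av v) (ℓ i) x')),
    rfl, ⟨hf0, ?_, dlt_eq hf, ?_, ?_, ?_⟩, ?_, ?_⟩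
  · intro h
    apply hx
    funext j
    have : σ (x j) = 0 := congrFun h j
    exact (map_eq_zero_iff σ σ.injective).mp this
  · intro c hc
    show ∑ j, algebraMap k (AlgebraicClosure k) (c j) * σ (x j) = 0
    rw [eval_alg]
    have h1 : algebraMap k K (sqv c ⬝ᵥ f) = 0 := by
      rw [show sqv c ⬝ᵥ f = 0 from hc, map_zero]
    rw [sqv_eq hf, hx'def, eval_tau] at h1
    have h2 : evalForm c x = 0 := by
      rcases mul_eq_zero.mp h1 with h | h
      · exact h
      · exact (map_eq_zero_iff τ τ.injective).mp h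
    rw [h2, map_zero]
  · intro X Z
    show algebraMap k (AlgebraicClosure k) (sqv Z ⬝ᵥ f) *
        (∑ j, algebraMap k (AlgebraicClosure k) (X j) * σ (x j)) ^ 2 -
      algebraMap k (AlgebraicClosure k) (mix X Z ⬝ᵥ f) *
        (∑ j, algebraMap k (AlgebraicClosure k) (X j) * σ (x j)) *
        (∑ j, algebraMap k (AlgebraicClosure k) (Z j) * σ (x j)) +
      algebraMap k (AlgebraicClosure k) (sqv X ⬝ᵥ f) *
        (∑ j, algebraMap k (AlgebraicClosure k) (Z j) * σ (x j)) ^ 2 = 0
    rw [eval_alg, eval_alg, ← σ.commutes, ← σ.commutes, ← σ.commutes, sqv_eq hf, sqv_eq hf,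
      mix_eq hf, ← map_pow, ← map_pow, ← map_mul, ← map_mul, ← map_mul, ← map_mul, ← map_sub,
      ← map_add]
    rw [map_eq_zero_iff σ σ.injective]
    ring
  · intro v _
    refine ⟨K, inferInstance, inferInstance, av v, x, x', hEx v, hx, hx', hf, ?_, ?_, rfl⟩
    · intro c hc
      refine ⟨hMx c hc, ?_⟩
      rw [hx'def, eval_tau]
      exact (map_ne_zero_iff τ τ.injective).mpr (hMx c hc)
    · intro i
      refine ⟨hℓx i, ?_⟩
      rw [hx'def, eval_tau]
      exact (map_ne_zero_iff τ τ.injective).mpr (hℓx i)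
  · show proximity S ℓ x ≤
      (∑ v ∈ S, ∑ i, (lam (av v) (ℓ i) x + lam (av v) (ℓ i) x')) / 2 + _
    have h1 : proximity S ℓ x = ∑ i, ∑ v ∈ S, ((lam (av v) (ℓ i) x + lam (av v) (ℓ i) x') / 2 +
        Real.log (nrm v (ℓ i))) := by
      unfold proximity
      refine Finset.sum_congr rfl fun i _ => ?_
      rw [(hPLB k K).2.2 S]
      refine Finset.sum_congr rfl fun v _ => ?_
      exact (hLVL k K v τ (av v) (hLE v)).2 (ℓ i) x (hℓx i)
    have h2 : proximity S ℓ x =
        (∑ v ∈ S, ∑ i, (lam (av v) (ℓ i) x + lam (av v) (ℓ i) x')) / 2 +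
          ∑ i, ∑ v ∈ S, Real.log (nrm v (ℓ i)) := by
      rw [h1, Finset.sum_comm (s := S) (t := Finset.univ), Finset.sum_div, ← Finset.sum_add_distrib]
      refine Finset.sum_congr rfl fun i _ => ?_
      rw [Finset.sum_div, ← Finset.sum_add_distrib]
    rw [h2]
    have h3 := le_abs_self (∑ i, ∑ v ∈ S, Real.log (nrm v (ℓ i)))
    linarith
  · show ht f ≤ 2 * height x + _
    have hsup : (Function.support fun w : Place K => Real.log (normV w x)).Finite :=
      support_log_nrm_finite hx
    obtain ⟨hs1, hs2⟩ := (hPLB k K).2.1 (fun w => Real.log (normV w x)) hsup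
    have hin : ∀ v : Place k, ∑ᶠ w ∈ {w : Place K | LiesOver w v}, Real.log (normV w x) =
        (Real.log (nav (av v) x) + Real.log (nav (av v) x')) / 2 :=
      fun v => (hLVL k K v τ (av v) (hLE v)).1 x hx
    have hfun : (fun v : Place k => ∑ᶠ w ∈ {w : Place K | LiesOver w v}, Real.log (normV w x)) =
        fun v => (Real.log (nav (av v) x) + Real.log (nav (av v) x')) / 2 := funext hin
    have hht : height x =
        ∑ᶠ v : Place k, (Real.log (nav (av v) x) + Real.log (nav (av v) x')) / 2 := by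
      rw [← hfun]
      exact hs2.symm
    have hs1' : (Function.support fun v : Place k =>
        (Real.log (nav (av v) x) + Real.log (nav (av v) x')) / 2).Finite := by
      rw [← hfun]
      exact hs1
    have hsA : (Function.support fun v : Place k => sw v * Real.log 2).Finite := by
      refine support_sw_finite.subset ?_
      intro v hv h
      apply hv
      show sw v * Real.log 2 = 0
      rw [show sw v = 0 from h, zero_mul]
    have hsB : (Function.support fun v : Place k =>
        2 * ((Real.log (nav (av v) x) + Real.log (nav (av v) x')) / 2)).Finite := by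
      refine hs1'.subset ?_
      intro v hv h
      apply hv
      show 2 * ((Real.log (nav (av v) x) + Real.log (nav (av v) x')) / 2) = 0
      rw [show (Real.log (nav (av v) x) + Real.log (nav (av v) x')) / 2 = 0 from h, mul_zero]
    have hsum : ∑ᶠ v : Place k, (sw v * Real.log 2 +
        2 * ((Real.log (nav (av v) x) + Real.log (nav (av v) x')) / 2)) =
        Real.log 2 + 2 * height x := by
      rw [finsum_add_distrib hsA hsB, ← mul_finsum, ← finsum_mul, finsum_sw, one_mul, hht]
    have hsC : (Function.support fun v : Place k => (sw v * Real.log 2 +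
        2 * ((Real.log (nav (av v) x) + Real.log (nav (av v) x')) / 2))).Finite :=
      (hsA.union hsB).subset (Function.support_add _ _)
    have hmain : ht f ≤ Real.log 2 + 2 * height x := by
      rw [← hsum]
      refine finsum_mono (support_log_nrm_finite hf0) hsC ?_
      intro v
      have h1 := nrm_le_nav (hEx v) hx hx' hf
      have h2 := Real.log_le_log (nrm_pos v hf0) h1
      have hp := nav_pos (hEx v) hx
      have hp' := nav_pos (hEx v) hx'
      rw [Real.log_mul (by positivity) (mul_pos hp hp').ne', Real.log_mul hp.ne' hp'.ne',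
        Real.log_rpow (by norm_num)] at h2
      linarith
    have h3 := abs_nonneg (∑ i, ∑ v ∈ S, Real.log (nrm v (ℓ i)))
    linarith

end Pool.Agent.Lib.MP_d0e829_nt.SS
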