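import Pool.Agent.Lib.MP_d0e829_nt.SS.SpecG

/-!
# Module GRM: spaces of symmetric matrices
-/

set_option autoImplicit false

namespace Pool.Agent.Lib.MP_d0e829_nt.SS

namespace GRMM

variable {k : Type} [Field k]

theorem sqv_dot (c : Fin 3 → k) (w : Fin 6 → k) : sqv c ⬝ᵥ w =
    c 0 ^ 2 * w 0 + c 1 ^ 2 * w 1 + c 2 ^ 2 * w 2 + c 1 * c 2 * w 3 + c 0 * c 2 * w 4 +
      c 0 * c 1 * w 5 := by
  simp only [dotProduct, Fin.sum_univ_succ, sqv]
  simp [Fin.succ_ne_zero]
  ring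

/-- A vector on which all values of the quadratic form vanish is zero. -/
theorem eq_zero {w : Fin 6 → k} (h : ∀ c : Fin 3 → k, sqv c ⬝ᵥ w = 0) : w = 0 := by
  have h0 := h ![1, 0, 0]
  have h1 := h ![0, 1, 0]
  have h2 := h ![0, 0, 1]
  have h3 := h ![0, 1, 1]
  have h4 := h ![1, 0, 1]
  have h5 := h ![1, 1, 0]
  rw [sqv_dot] at h0 h1 h2 h3 h4 h5
  simp at h0 h1 h2 h3 h4 h5
  rw [h1, h2] at h3
  rw [h0, h2] at h4
  rw [h0, h1] at h5
  simp at h3 h4 h5
  funext i
  fin_cases i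
  · exact h0
  · exact h1
  · exact h2
  · exact h3
  · exact h4
  · exact h5

end GRMM

open GRMM in
theorem specGRM : SpecGRM := by
  intro k _ _ W hW
  by_contra hno
  push Not at hno
  have h4 : (4 : k) ≠ 0 := by
    have : ((4 : ℕ) : k) ≠ 0 := Nat.cast_ne_zero.mpr (by norm_num)
    exact_mod_cast this
  have key : ∀ w ∈ W, w ≠ 0 → ∀ w' ∈ W, ∃ t : k, w' = t • w := by
    intro w hw hw0 w' hw'
    obtain ⟨c, hc⟩ : ∃ c : Fin 3 → k, sqv c ⬝ᵥ w ≠ 0 := by
      by_contra h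
      push Not at h
      exact hw0 (eq_zero h)
    refine ⟨(sqv c ⬝ᵥ w') / (sqv c ⬝ᵥ w), ?_⟩
    obtain ⟨u, hu⟩ : ∃ u, u = w' - ((sqv c ⬝ᵥ w') / (sqv c ⬝ᵥ w)) • w := ⟨_, rfl⟩
    have huW : u ∈ W := by
      rw [hu]
      exact W.sub_mem hw' (W.smul_mem _ hw)
    have huc : sqv c ⬝ᵥ u = 0 := by
      rw [hu, dotProduct_sub, dotProduct_smul, smul_eq_mul, div_mul_cancel₀ _ hc, sub_self]
    have hB : ∀ d, mix c d ⬝ᵥ u = 0 := by
      intro d
      have h1 := hno u huW c d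
      rw [huc] at h1
      have h2 : (mix c d ⬝ᵥ u) ^ 2 = 0 := by
        rw [h1]
        ring
      exact pow_eq_zero_iff (two_ne_zero) |>.mp h2
    have hu0 : u = 0 := by
      apply eq_zero
      intro d
      have h1 := hno w hw c d
      have h2 := hno (w + u) (W.add_mem hw huW) c d
      rw [dotProduct_add, dotProduct_add, dotProduct_add, huc, hB d, add_zero, add_zero, h1] at h2
      have h3 : 4 * (sqv c ⬝ᵥ w) * (sqv d ⬝ᵥ u) = 0 := by linear_combination -h2
      rcases mul_eq_zero.mp h3 with h5 | h5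
      · rcases mul_eq_zero.mp h5 with h6 | h6
        · exact absurd h6 h4
        · exact absurd h6 hc
      · exact h5
    rw [hu0] at hu
    exact (sub_eq_zero.mp hu.symm)
  have hne : ∃ w ∈ W, w ≠ 0 := by
    by_contra h
    push Not at h
    have h1 : W = ⊥ := (Submodule.eq_bot_iff W).mpr h
    rw [h1, finrank_bot] at hW
    omega
  obtain ⟨w, hw, hw0⟩ := hne
  have hle : W ≤ Submodule.span k {w} := by
    intro w' hw'
    obtain ⟨t, ht⟩ := key w hw hw0 w' hw'
    rw [ht]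
    exact Submodule.smul_mem _ _ (Submodule.mem_span_singleton_self w)
  have h1 := Submodule.finrank_mono hle
  rw [finrank_span_singleton hw0] at h1
  omega

end Pool.Agent.Lib.MP_d0e829_nt.SS
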