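import Pool.Agent.Lib.MP_d0e829_nt.SS.SpecC1

/-!
# Module HFA: an irreducible homogeneous factor vanishing on `A`
-/

set_option autoImplicit false

open NumberField MvPolynomial

namespace Pool.Agent.Lib.MP_d0e829_nt.SS

open scoped Classical

namespace HFAM

section hom

variable {k : Type} [Field k] {σ : Type}

theorem eq_sum {q : MvPolynomial σ k} {M : ℕ} (hM : q.totalDegree < M) :
    q = ∑ d ∈ Finset.range M, homogeneousComponent d q := by
  conv_lhs => rw [← sum_homogeneousComponent q]
  refine Finset.sum_subset ?_ ?_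
  · intro d hd
    rw [Finset.mem_range] at hd ⊢
    omega
  · intro d _ hd
    rw [Finset.mem_range] at hd
    exact homogeneousComponent_eq_zero d q (by omega)

theorem hom_of_comp {q : MvPolynomial σ k} {e : ℕ}
    (h1 : ∀ n, n ≠ e → homogeneousComponent n q = 0) : q.IsHomogeneous e := by
  have h2 : q = homogeneousComponent e q := by
    conv_lhs => rw [eq_sum (q := q) (M := q.totalDegree + e + 1) (by omega)]
    rw [Finset.sum_eq_single e (fun n _ hn => h1 n hn)]
    intro h
    exact absurd (Finset.mem_range.2 (by omega)) h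
  rw [h2]
  exact homogeneousComponent_isHomogeneous e q

/-- `P ↦ ∑ X ^ d P_d` -/
noncomputable def Phi : MvPolynomial σ k →ₐ[k] Polynomial (MvPolynomial σ k) :=
  aeval fun j => Polynomial.X * Polynomial.C (X j)

theorem Phi_monomial (d : σ →₀ ℕ) (r : k) :
    Phi (monomial d r) = Polynomial.X ^ d.degree * Polynomial.C (monomial d r) := by
  unfold Phi
  rw [aeval_monomial]
  have h1 : (algebraMap k (Polynomial (MvPolynomial σ k))) r = Polynomial.C (C r) := rfl
  rw [h1, Finsupp.prod]
  simp_rw [mul_pow]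
  rw [Finset.prod_mul_distrib, Finset.prod_pow_eq_pow_sum, monomial_eq, Finsupp.prod,
    map_mul, map_prod]
  simp_rw [map_pow]
  have h2 : ∑ i ∈ d.support, d i = d.degree := rfl
  rw [h2]
  ring

theorem Phi_hom {n : ℕ} {P : MvPolynomial σ k} (h : P.IsHomogeneous n) :
    Phi P = Polynomial.X ^ n * Polynomial.C P := by
  conv_lhs => rw [P.as_sum]
  conv_rhs => rw [P.as_sum]
  rw [map_sum, map_sum, Finset.mul_sum]
  refine Finset.sum_congr rfl fun d hd => ?_
  rw [Phi_monomial]
  have h1 : d.degree = n := by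
    have := h (mem_support_iff.1 hd)
    rw [Finsupp.degree_eq_weight_one]
    exact this
  rw [h1]

theorem Phi_coeff (P : MvPolynomial σ k) (n : ℕ) : (Phi P).coeff n = homogeneousComponent n P := by
  have h1 : Phi P = ∑ d ∈ Finset.range (P.totalDegree + n + 1),
      Polynomial.X ^ d * Polynomial.C (homogeneousComponent d P) := by
    conv_lhs => rw [eq_sum (q := P) (M := P.totalDegree + n + 1) (by omega)]
    rw [map_sum]
    exact Finset.sum_congr rfl fun d _ => Phi_hom (homogeneousComponent_isHomogeneous d P)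
  rw [h1, Polynomial.finsetSum_coeff, Finset.sum_eq_single n]
  · rw [mul_comm, Polynomial.coeff_C_mul, Polynomial.coeff_X_pow, if_pos rfl, mul_one]
  · intro d _ hd
    rw [mul_comm, Polynomial.coeff_C_mul, Polynomial.coeff_X_pow, if_neg (Ne.symm hd), mul_zero]
  · intro h
    exact absurd (Finset.mem_range.2 (by omega)) h

/-- factors of homogeneous polynomials are homogeneous -/
theorem factor {m : ℕ} {P q : MvPolynomial σ k} (h : (P * q).IsHomogeneous m) (h0 : P * q ≠ 0) :
    ∃ d e, d + e = m ∧ P.IsHomogeneous d ∧ q.IsHomogeneous e := by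
  have hP0 : P ≠ 0 := left_ne_zero_of_mul h0
  have hq0 : q ≠ 0 := right_ne_zero_of_mul h0
  have hne : ∀ r : MvPolynomial σ k, r ≠ 0 → Phi r ≠ 0 := by
    intro r hr h1
    apply hr
    rw [eq_sum (q := r) (M := r.totalDegree + 1) (by omega)]
    refine Finset.sum_eq_zero fun d _ => ?_
    rw [← Phi_coeff, h1, Polynomial.coeff_zero]
  have h1 := Phi_hom h
  rw [map_mul] at h1
  have h2 : (Phi P * Phi q).natDegree = m := by
    rw [h1, mul_comm, Polynomial.natDegree_C_mul_X_pow m _ h0]
  have h3 : (Phi P * Phi q).natTrailingDegree = m := by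
    refine le_antisymm ?_ ?_
    · have := Polynomial.natTrailingDegree_le_natDegree (Phi P * Phi q)
      omega
    rw [h1]
    refine Polynomial.le_natTrailingDegree ?_ ?_
    · rw [← h1]
      exact mul_ne_zero (hne P hP0) (hne q hq0)
    · intro i hi
      rw [mul_comm, Polynomial.coeff_C_mul, Polynomial.coeff_X_pow, if_neg (by omega), mul_zero]
  rw [Polynomial.natDegree_mul (hne P hP0) (hne q hq0)] at h2
  rw [Polynomial.natTrailingDegree_mul (hne P hP0) (hne q hq0)] at h3
  have h4 := Polynomial.natTrailingDegree_le_natDegree (Phi P)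
  have h5 := Polynomial.natTrailingDegree_le_natDegree (Phi q)
  have hom : ∀ r : MvPolynomial σ k, (Phi r).natTrailingDegree = (Phi r).natDegree →
      r.IsHomogeneous (Phi r).natDegree := by
    intro r hr
    refine hom_of_comp fun n hn => ?_
    rw [← Phi_coeff]
    rcases lt_or_gt_of_ne hn with h6 | h6
    · exact Polynomial.coeff_eq_zero_of_lt_natTrailingDegree (hr ▸ h6)
    · exact Polynomial.coeff_eq_zero_of_natDegree_lt h6
  exact ⟨_, _, h2, hom P (by omega), hom q (by omega)⟩

end hom

variable {k : Type} [Field k] {Ω : Type} {M : ℕ}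

theorem evA_apply (f : Ω → Fin M → k) (A : Set Ω) (P : MvPolynomial (Fin M) k) (ω : A) :
    evA f A P ω = eval (f ω) P := by
  have h1 : (Pi.evalAlgHom k (fun _ : A => k) ω).comp (evA f A) = aeval (f ω) := by
    apply MvPolynomial.algHom_ext
    intro i
    simp [evA]
  have h2 := congrArg (fun g : MvPolynomial (Fin M) k →ₐ[k] k => g P) h1
  simp only [AlgHom.comp_apply] at h2
  rw [← MvPolynomial.coe_aeval_eq_eval]
  exact h2

theorem evA_eq_zero (f : Ω → Fin M → k) (A : Set Ω) (P : MvPolynomial (Fin M) k) :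
    evA f A P = 0 ↔ ∀ ω ∈ A, eval (f ω) P = 0 := by
  constructor
  · intro h ω hω
    have := congrFun h ⟨ω, hω⟩
    rw [evA_apply] at this
    exact this
  · intro h
    funext ω
    rw [evA_apply]
    exact h ω ω.2

theorem isUnit_of_deg0 {P : MvPolynomial (Fin M) k} (h : P.IsHomogeneous 0) (h0 : P ≠ 0) :
    IsUnit P := by
  have h1 : P = C (coeff 0 P) :=
    totalDegree_eq_zero_iff_eq_C.mp ((totalDegree_zero_iff_isHomogeneous _).mpr h)
  rw [h1]
  apply IsUnit.map
  rw [isUnit_iff_ne_zero]
  intro h2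
  rw [h2, map_zero] at h1
  exact h0 h1

end HFAM

open HFAM in
theorem specHFA (hIRR : SpecIRR) : SpecHFA := by
  intro k _ Ω M f Sm hSm A hA n
  have hne : A.Nonempty := by
    by_contra h
    rw [Set.not_nonempty_iff_eq_empty] at h
    apply hA.1
    rw [h]
    exact hSm.1
  obtain ⟨ω₀, hω₀⟩ := hne
  have hnu : ∀ P : MvPolynomial (Fin M) k, (∀ ω ∈ A, eval (f ω) P = 0) → ¬ IsUnit P := by
    intro P hP hu
    have h1 : IsUnit (eval (f ω₀) P) := hu.map (eval (f ω₀))
    rw [hP ω₀ hω₀] at h1
    exact not_isUnit_zero h1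
  induction n using Nat.strong_induction_on with
  | _ n ih =>
    intro P hP hP0 hv
    by_cases hirr : Irreducible P
    · exact ⟨n, P, hP, hirr, dvd_rfl, hv⟩
    · rw [irreducible_iff] at hirr
      push Not at hirr
      obtain ⟨a, b, hab, ha, hb⟩ := hirr (hnu P hv)
      have h0 : a * b ≠ 0 := hab ▸ hP0
      obtain ⟨d, e, hde, hda, heb⟩ := factor (hab ▸ hP) h0
      have ha0 : a ≠ 0 := left_ne_zero_of_mul h0
      have hb0 : b ≠ 0 := right_ne_zero_of_mul h0
      have hd : 0 < d := by
        rw [Nat.pos_iff_ne_zero]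
        rintro rfl
        exact ha (isUnit_of_deg0 hda ha0)
      have he : 0 < e := by
        rw [Nat.pos_iff_ne_zero]
        rintro rfl
        exact hb (isUnit_of_deg0 heb hb0)
      have hz : evA f A (a * b) = 0 := by
        rw [← hab]
        exact (evA_eq_zero f A P).mpr hv
      rcases hIRR k Ω M f Sm hSm A hA d e a b hda heb hz with h | h
      · obtain ⟨g, G, h1, h2, h3, h4⟩ := ih d (by omega) a hda ha0 ((evA_eq_zero f A a).mp h)
        exact ⟨g, G, h1, h2, h3.trans (hab ▸ dvd_mul_right a b), h4⟩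
      · obtain ⟨g, G, h1, h2, h3, h4⟩ := ih e (by omega) b heb hb0 ((evA_eq_zero f A b).mp h)
        exact ⟨g, G, h1, h2, h3.trans (hab ▸ dvd_mul_left b a), h4⟩

end Pool.Agent.Lib.MP_d0e829_nt.SS
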