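import Pool.Agent.Lib.MP_d0e829_nt.SS.SpecC1

/-!
# Part C1: module HYP, the hypersurface case
-/

set_option autoImplicit false

open NumberField MvPolynomial

namespace Pool.Agent.Lib.MP_d0e829_nt.SS

open scoped Classical

namespace HYPM

section ev

variable {k : Type} [Field k] {Ω ι : Type} [Fintype ι]

omit [Fintype ι] in
lemma evA_apply (f : Ω → ι → k) (A : Set Ω) (P : MvPolynomial ι k) (ω : A) :
    evA f A P ω = eval (f ω) P := by
  have h : (Pi.evalAlgHom k (fun _ : A => k) ω).comp (evA f A) = aeval (f ω) := by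
    unfold evA
    ext i
    simp
  have h2 := DFunLike.congr_fun h P
  rw [MvPolynomial.aeval_eq_eval] at h2
  exact h2

end ev

/-- exponents of degree `m` not divisible by `μ` -/
noncomputable def Ex (m : ℕ) (μ : Fin 4 →₀ ℕ) : Finset (Fin 4 →₀ ℕ) :=
  (Finset.univ.finsuppAntidiag m).filter (fun s : Fin 4 →₀ ℕ => ¬ μ ≤ s)

lemma mem_Ex {m : ℕ} {μ s : Fin 4 →₀ ℕ} : s ∈ Ex m μ ↔ ∑ i, s i = m ∧ ¬ μ ≤ s := by
  unfold Ex
  rw [Finset.mem_filter, Finset.mem_finsuppAntidiag]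
  simp

section basis

variable {k : Type} [Field k] {Ω : Type} {M : ℕ}

/-- the monomial `s` in the linear forms `y` -/
noncomputable def gm (y : Fin 4 → Fin M → k) (s : Fin 4 →₀ ℕ) : MvPolynomial (Fin M) k :=
  aeval (fun j => lin (y j)) (monomial s (1 : k))

lemma hom_of {m : ℕ} {s : Fin 4 →₀ ℕ} (hs : ∑ i, s i = m) (c : k) :
    (monomial s c : MvPolynomial (Fin 4) k).IsHomogeneous m := by
  apply isHomogeneous_monomial
  rw [Finsupp.degree_eq_sum]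
  exact hs

lemma sum_of {m : ℕ} {P : MvPolynomial (Fin 4) k} (hP : P.IsHomogeneous m) {s : Fin 4 →₀ ℕ}
    (hs : s ∈ P.support) : ∑ i, s i = m := by
  have h := hP (mem_support_iff.mp hs)
  rw [← Finsupp.degree_eq_sum, Finsupp.degree_eq_weight_one, ← Pi.one_def]
  exact h

lemma isB (hPAR : SpecPAR) (f : Ω → Fin M → k) (A : Set Ω)
    (y : Fin 4 → Fin M → k) (G : MvPolynomial (Fin 4) k) (μ : Fin 4 →₀ ℕ) (hS : Spn f A y)
    (hstd : Std G μ)
    (hG : ∀ (m : ℕ) (P : MvPolynomial (Fin 4) k), P.IsHomogeneous m →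
      ((∀ ω ∈ A, eval (fun j => y j ⬝ᵥ f ω) P = 0) ↔ G ∣ P)) (m : ℕ) :
    IsB f A m (fun s : {s // s ∈ Ex m μ} => gm y s.1) := by
  obtain ⟨h1, h2, -, h4⟩ := hPAR k Ω M 4 f A y
  have hgm : ∀ (s : Fin 4 →₀ ℕ) (ω : Ω) (c : k), eval (fun j => y j ⬝ᵥ f ω) (monomial s c) =
      c * eval (f ω) (gm y s) := by
    intro s ω c
    unfold gm
    rw [← h1, eval_monomial, eval_monomial, one_mul]
  refine ⟨?_, ?_, ?_⟩
  · intro s
    exact h2 m _ (hom_of (mem_Ex.mp s.2).1 1)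
  · rw [Fintype.linearIndependent_iff]
    intro b hb s
    have hc : ∀ t : Fin 4 →₀ ℕ, coeff t (∑ s : {s // s ∈ Ex m μ}, monomial s.1 (b s)) =
        ∑ s : {s // s ∈ Ex m μ}, if s.1 = t then b s else 0 := by
      intro t
      rw [coeff_sum]
      refine Finset.sum_congr rfl fun s _ => ?_
      rw [coeff_monomial]
    have hP : (∑ s : {s // s ∈ Ex m μ}, monomial s.1 (b s) :
        MvPolynomial (Fin 4) k).IsHomogeneous m :=
      IsHomogeneous.sum _ _ _ fun s _ => hom_of (mem_Ex.mp s.2).1 _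
    have hP0 : ∀ ω ∈ A, eval (fun j => y j ⬝ᵥ f ω)
        (∑ s : {s // s ∈ Ex m μ}, monomial s.1 (b s)) = 0 := by
      intro ω hω
      have h5 := congrFun hb ⟨ω, hω⟩
      rw [Finset.sum_apply] at h5
      rw [map_sum]
      refine Eq.trans (Finset.sum_congr rfl fun s _ => ?_) h5
      rw [hgm, Pi.smul_apply, evA_apply, smul_eq_mul]
    have h6 : (∑ s : {s // s ∈ Ex m μ}, monomial s.1 (b s) : MvPolynomial (Fin 4) k) = 0 := by
      refine hstd.1 _ ((hG m _ hP).mp hP0) fun t ht => ?_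
      rw [mem_support_iff, hc] at ht
      obtain ⟨s, _, hs⟩ := Finset.exists_ne_zero_of_sum_ne_zero ht
      have h7 : s.1 = t := by
        by_contra h8
        rw [if_neg h8] at hs
        exact hs rfl
      rw [← h7]
      exact (mem_Ex.mp s.2).2
    have h9 := hc s.1
    rw [h6, coeff_zero] at h9
    rw [h9]
    symm
    rw [Finset.sum_eq_single s]
    · rw [if_pos rfl]
    · intro t _ ht
      rw [if_neg (fun h => ht (Subtype.ext h))]
    · intro h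
      exact absurd (Finset.mem_univ s) h
  · apply le_antisymm
    · rw [Submodule.span_le]
      rintro _ ⟨s, rfl⟩
      refine Submodule.mem_map.mpr ⟨gm y s.1, ?_, rfl⟩
      rw [mem_homogeneousSubmodule]
      exact h2 m _ (hom_of (mem_Ex.mp s.2).1 1)
    · rw [← h4 hS m]
      intro z hz
      obtain ⟨P, hP, rfl⟩ := Submodule.mem_map.mp hz
      rw [mem_homogeneousSubmodule] at hP
      obtain ⟨Q, hQ, hQs, hd⟩ := hstd.2 m P hP
      have h5 : (evA (fun ω j => y j ⬝ᵥ f ω) A).toLinearMap P =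
          ∑ s ∈ Q.support, coeff s Q • evA f A (gm y s) := by
        ext ω
        have h6 := (hG m (P - Q) (hP.sub hQ)).mpr hd ω.1 ω.2
        rw [map_sub, sub_eq_zero] at h6
        rw [AlgHom.toLinearMap_apply, evA_apply, h6, Finset.sum_apply]
        conv_lhs => rw [← support_sum_monomial_coeff Q]
        rw [map_sum]
        refine Finset.sum_congr rfl fun s _ => ?_
        rw [hgm, Pi.smul_apply, evA_apply, smul_eq_mul]
      rw [h5]
      refine Submodule.sum_mem _ fun s hs => Submodule.smul_mem _ _ (Submodule.subset_span ?_)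
      exact ⟨⟨s, mem_Ex.mpr ⟨sum_of hQ hs, hQs s hs⟩⟩, rfl⟩

lemma gm_eval (hPAR : SpecPAR) (f : Ω → Fin M → k) (y : Fin 4 → Fin M → k) (s : Fin 4 →₀ ℕ) (ω : Ω) :
    eval (f ω) (gm y s) = ∏ i, (y i ⬝ᵥ f ω) ^ s i := by
  obtain ⟨h1, -, -, -⟩ := hPAR k Ω M 4 f ∅ y
  unfold gm
  rw [← h1, eval_monomial, one_mul, Finsupp.prod_fintype _ _ fun i => pow_zero _]

end basis

/-! ### numerics -/

lemma choose_real (n : ℕ) : (6 : ℝ) * (Nat.choose (n + 3) 3 : ℝ) = (n + 1) * (n + 2) * (n + 3) := by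
  have h := Nat.descFactorial_eq_factorial_mul_choose (n + 3) 3
  have h1 : (n + 3).descFactorial 3 = (n + 1) * (n + 2) * (n + 3) := by
    simp only [Nat.descFactorial]
    have e1 : n + 3 - 2 = n + 1 := by omega
    have e2 : n + 3 - 1 = n + 2 := by omega
    rw [e1, e2]
    simp only [Nat.sub_zero, mul_one]
    ring
  rw [h1] at h
  have h2 : (Nat.factorial 3) = 6 := rfl
  rw [h2] at h
  exact_mod_cast h.symm

lemma num {n g : ℕ} (hn : 1 ≤ n) (hg : 1 ≤ g) :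
    0 ≤ ((n : ℝ) + g) * (Nat.choose (n + g + 3) 3 : ℝ) - n * (Nat.choose (n + 3) 3 : ℝ)
        - 4 * g * (Nat.choose (n + 3) 3 : ℝ) ∧
    (n : ℝ) * (((n : ℝ) + g) * (Nat.choose (n + g + 3) 3 : ℝ) - n * (Nat.choose (n + 3) 3 : ℝ)
        - 4 * g * (Nat.choose (n + 3) 3 : ℝ)) ≤
      ((g : ℝ) ^ 4 + 10 * g ^ 3 + 35 * g ^ 2) * (Nat.choose (n + 3) 3 : ℝ) ∧
    (n : ℝ) ≤ (Nat.choose (n + 3) 3 : ℝ) := by
  have h1 := choose_real n
  have h2 := choose_real (n + g)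
  push_cast at h2
  set A := (Nat.choose (n + 3) 3 : ℝ) with hA
  set B := (Nat.choose (n + g + 3) 3 : ℝ) with hB
  have hn' : (1 : ℝ) ≤ n := by exact_mod_cast hn
  have hg' : (1 : ℝ) ≤ g := by exact_mod_cast hg
  set t : ℝ := (n : ℝ) with ht
  set u : ℝ := (g : ℝ) with hu
  have key : 6 * ((t + u) * B - t * A - 4 * u * A) =
      t ^ 2 * (6 * u ^ 2 - 6 * u) + t * (4 * u ^ 3 + 18 * u ^ 2 - 22 * u) +
        (u ^ 4 + 6 * u ^ 3 + 11 * u ^ 2 - 18 * u) := by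
    linear_combination (t + u) * h2 - t * h1 - 4 * u * h1
  have hu2 : u ≤ u ^ 2 := by nlinarith
  have hu3 : u ^ 2 ≤ u ^ 3 := by nlinarith [sq_nonneg u]
  have hu4 : u ^ 3 ≤ u ^ 4 := by
    have : 0 ≤ u ^ 3 * (u - 1) := by
      have h0 : 0 ≤ u ^ 3 := by positivity
      exact mul_nonneg h0 (by linarith)
    nlinarith
  have hc1 : 0 ≤ 6 * u ^ 2 - 6 * u := by linarith
  have hc2 : 0 ≤ 4 * u ^ 3 + 18 * u ^ 2 - 22 * u := by linarith
  have hc3 : 0 ≤ u ^ 4 + 6 * u ^ 3 + 11 * u ^ 2 - 18 * u := by linarith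
  have ht0 : 0 ≤ t := by linarith
  have ht2 : t ≤ t ^ 2 := by nlinarith
  have ht1 : 1 ≤ t ^ 2 := by nlinarith
  have hle : 6 * ((t + u) * B - t * A - 4 * u * A) ≤ t ^ 2 * (u ^ 4 + 10 * u ^ 3 + 35 * u ^ 2) := by
    rw [key]
    have e1 : t * (4 * u ^ 3 + 18 * u ^ 2 - 22 * u) ≤ t ^ 2 * (4 * u ^ 3 + 18 * u ^ 2 - 22 * u) :=
      mul_le_mul_of_nonneg_right ht2 hc2
    have e2 : (u ^ 4 + 6 * u ^ 3 + 11 * u ^ 2 - 18 * u) ≤
        t ^ 2 * (u ^ 4 + 6 * u ^ 3 + 11 * u ^ 2 - 18 * u) := le_mul_of_one_le_left hc3 ht1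
    have e3 : 0 ≤ t ^ 2 * (46 * u) := by positivity
    nlinarith [e1, e2, e3]
  refine ⟨?_, ?_, ?_⟩
  · have h0 : 0 ≤ 6 * ((t + u) * B - t * A - 4 * u * A) := by
      rw [key]
      positivity
    linarith
  · have e4 : t * (6 * ((t + u) * B - t * A - 4 * u * A)) ≤
        t * (t ^ 2 * (u ^ 4 + 10 * u ^ 3 + 35 * u ^ 2)) := mul_le_mul_of_nonneg_left hle ht0
    have e5 : t ^ 3 ≤ 6 * A := by
      rw [h1]
      nlinarith
    have e6 : t ^ 3 * (u ^ 4 + 10 * u ^ 3 + 35 * u ^ 2) ≤ 6 * A * (u ^ 4 + 10 * u ^ 3 + 35 * u ^ 2) :=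
      mul_le_mul_of_nonneg_right e5 (by positivity)
    nlinarith
  · nlinarith

/-! ### small sets -/

lemma sm_finset {Ω ι : Type} {Sm : Set Ω → Prop} (hSm : SmSys Sm) (B : ι → Set Ω) (T : Finset ι)
    (h : ∀ i ∈ T, Sm (B i)) : Sm {ω | ∃ i ∈ T, ω ∈ B i} := by
  induction T using Finset.induction_on with
  | empty =>
    refine hSm.2.1 _ ∅ ?_ hSm.1
    rintro ω ⟨i, hi, _⟩
    exact absurd hi (Finset.notMem_empty i)
  | insert a T _ ih =>
    refine hSm.2.1 _ (B a ∪ {ω | ∃ i ∈ T, ω ∈ B i}) ?_ (hSm.2.2 _ _ (h a (Finset.mem_insert_self a T))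
      (ih fun i hi => h i (Finset.mem_insert_of_mem hi)))
    rintro ω ⟨i, hi, hω⟩
    rw [Finset.mem_insert] at hi
    rcases hi with rfl | hi
    · exact Or.inl hω
    · exact Or.inr ⟨i, hi, hω⟩

section vals

variable {k : Type} [Field k] [NumberField k] {M : ℕ}

lemma log_prod (v : Place k) (z : Fin 4 → k) (s : Fin 4 →₀ ℕ) (hz : ∀ i, z i ≠ 0) :
    Real.log (absV v (∏ i, z i ^ s i)) = ∑ i, (s i : ℝ) * Real.log (absV v (z i)) := by
  let φ : k →* ℝ := { toFun := absV v, map_one' := absV_one v, map_mul' := absV_mul v }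
  have h : absV v (∏ i, z i ^ s i) = ∏ i, absV v (z i) ^ s i := by
    have h1 := map_prod φ (fun i => z i ^ s i) Finset.univ
    refine h1.trans (Finset.prod_congr rfl fun i _ => ?_)
    exact map_pow φ (z i) (s i)
  rw [h, Real.log_prod]
  · refine Finset.sum_congr rfl fun i _ => ?_
    rw [Real.log_pow]
  · intro i _
    exact pow_ne_zero _ (absV_pos v (hz i)).ne'

lemma val_sum (v : Place k) (y : Fin 4 → Fin M → k) (x : Fin M → k) (s : Fin 4 →₀ ℕ) {m : ℕ}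
    (hs : ∑ i, s i = m) (hz : ∀ i, y i ⬝ᵥ x ≠ 0) :
    m * Real.log (nrm v x) - Real.log (absV v (∏ i, (y i ⬝ᵥ x) ^ s i)) =
      ∑ i, (s i : ℝ) * val v (y i) x := by
  rw [log_prod v _ s hz, ← hs]
  push_cast
  rw [Finset.sum_mul, ← Finset.sum_sub_distrib]
  refine Finset.sum_congr rfl fun i _ => ?_
  unfold val
  ring

end vals

end HYPM

open HYPM in
/-- HYP -/
theorem specHYP (hSUBI : SpecSUBI) (hPAR : SpecPAR) (hCNT : SpecCNT) (hTRV : SpecTRV) : SpecHYP := by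
  intro k _ _ Ω M f Sm hSm A hA hf S g hg y G μ H ε hε
  -- lower bounds
  have hT : ∃ C₁ : ℝ, 0 ≤ C₁ ∧ ∀ v ∈ S, ∀ i, ∀ x : Fin M → k, y v i ⬝ᵥ x ≠ 0 →
      -C₁ ≤ val v (y v i) x := by
    choose C hC0 hC using fun c : Fin M → k => (hTRV k M).1 S c
    refine ⟨∑ v ∈ S, ∑ i, C (y v i), Finset.sum_nonneg fun v _ => Finset.sum_nonneg fun i _ => hC0 _,
      fun v hv i x hx => ?_⟩
    have h1 : C (y v i) ≤ ∑ v ∈ S, ∑ i, C (y v i) :=
      (Finset.single_le_sum (f := fun i => C (y v i)) (fun i _ => hC0 _) (Finset.mem_univ i)).trans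
        (Finset.single_le_sum (f := fun v => ∑ i, C (y v i))
          (fun v _ => Finset.sum_nonneg fun i _ => hC0 _) hv)
    have h2 := (hC (y v i) x hx).1 v hv
    linarith
  obtain ⟨C₁, hC₁, hlow⟩ := hT
  -- the functionals vanish only on small sets
  have hB0 : ∀ v ∈ S, ∀ i, Sm {ω | ω ∈ A ∧ y v i ⬝ᵥ f ω = 0} := by
    intro v hv i
    obtain ⟨-, hGh, hG0, -, -, hGv⟩ := H v hv
    obtain ⟨h1, h2, -, -⟩ := hPAR k Ω M 4 f A (y v)
    have hX : (X i : MvPolynomial (Fin 4) k).IsHomogeneous 1 := isHomogeneous_X _ _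
    have hev : ∀ ω, eval (f ω) (aeval (fun j => lin (y v j)) (X i : MvPolynomial (Fin 4) k)) =
        y v i ⬝ᵥ f ω := by
      intro ω
      rw [← h1, eval_X]
    have h3 := hA.2 1 _ (h2 1 _ hX)
    have h4 : ∃ ω ∈ A, eval (f ω) (aeval (fun j => lin (y v j)) (X i : MvPolynomial (Fin 4) k)) ≠ 0 := by
      by_contra hcon
      push Not at hcon
      have h5 : ∀ ω ∈ A, eval (fun j => y v j ⬝ᵥ f ω) (X i : MvPolynomial (Fin 4) k) = 0 := by
        intro ω hω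
        rw [h1]
        exact hcon ω hω
      obtain ⟨Q, hQ⟩ := (hGv 1 _ hX).mp h5
      have hXne : (X i : MvPolynomial (Fin 4) k) ≠ 0 := X_ne_zero i
      have hQ0 : Q ≠ 0 := by
        rintro rfl
        rw [mul_zero] at hQ
        exact hXne hQ
      have h6 := totalDegree_mul_of_isDomain hG0 hQ0
      rw [← hQ, totalDegree_X, hGh.totalDegree hG0] at h6
      omega
    refine hSm.2.1 _ _ ?_ (h3 h4)
    rintro ω ⟨hω, h0⟩
    refine ⟨hω, ?_⟩
    rw [hev]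
    exact h0
  rcases S.eq_empty_or_nonempty with hSe | ⟨v₀, hv₀⟩
  · refine ⟨∅, 0, hSm.1, fun ω hω _ => ⟨?_, ?_⟩⟩
    · intro v hv
      rw [hSe] at hv
      exact absurd hv (Finset.notMem_empty v)
    · rw [hSe, Finset.sum_empty, add_zero]
      exact mul_nonneg (by linarith) (ht_nonneg (hf ω hω))
  -- the choice of `n`
  have hg1 : 1 ≤ g := by omega
  set c₀ : ℝ := (g : ℝ) ^ 4 + 10 * g ^ 3 + 35 * g ^ 2 with hc₀
  obtain ⟨n₀, hn₀⟩ := exists_nat_ge ((c₀ + 1) / ε)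
  set n : ℕ := n₀ + 1 with hn
  have hn1 : 1 ≤ n := by omega
  have hnε : c₀ + 1 ≤ n * ε := by
    rw [div_le_iff₀ hε] at hn₀
    have : (n₀ : ℝ) * ε ≤ n * ε := mul_le_mul_of_nonneg_right (by rw [hn]; push_cast; linarith) hε.le
    linarith
  obtain ⟨hρ0, hρ1, hnA⟩ := num hn1 hg1
  set A2 : ℝ := (Nat.choose (n + 3) 3 : ℝ) with hA2
  set A1 : ℝ := (Nat.choose (n + g + 3) 3 : ℝ) with hA1
  set ρ : ℝ := ((n : ℝ) + g) * A1 - n * A2 - 4 * g * A2 with hρ
  have hnr : (1 : ℝ) ≤ n := by exact_mod_cast hn1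
  have hgr : (1 : ℝ) ≤ g := by exact_mod_cast hg1
  have hA2pos : 0 < A2 := by linarith
  have hρε : ρ + 1 ≤ ε * (g * A2) := by
    have e1 : (n : ℝ) * (ρ + 1) ≤ n * (ε * (g * A2)) := by
      have e2 : (n : ℝ) * (ρ + 1) ≤ (c₀ + 1) * A2 := by linarith
      have e3 : (c₀ + 1) * A2 ≤ n * ε * A2 := mul_le_mul_of_nonneg_right hnε hA2pos.le
      have e4 : n * ε * A2 ≤ n * ε * A2 * g := le_mul_of_one_le_right (by positivity) hgr
      calc (n : ℝ) * (ρ + 1) ≤ n * ε * A2 * g := e2.trans (e3.trans e4)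
        _ = n * (ε * (g * A2)) := by ring
    exact le_of_mul_le_mul_left e1 (by linarith)
  -- the monomial bases
  have hbas : ∀ v ∈ S, IsB f A (n + g) (fun s : {s // s ∈ Ex (n + g) (μ v)} => gm (y v) s.1) := by
    intro v hv
    obtain ⟨h1, -, -, -, h5, h6⟩ := H v hv
    exact isB hPAR f A (y v) (G v) (μ v) h1 h5 h6 (n + g)
  have hμ : ∀ v ∈ S, ∑ i, μ v i = g := by
    intro v hv
    obtain ⟨-, hGh, -, hm, -, -⟩ := H v hv
    exact sum_of hGh hm
  have hcard : (Module.finrank k (FS f A (n + g)) : ℝ) = A1 - A2 := by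
    have h1 := (hbas v₀ hv₀).2.1
    have h2 := (hbas v₀ hv₀).2.2
    rw [← h2, finrank_span_eq_card h1, Fintype.card_coe]
    have h3 := (hCNT n g (μ v₀) (hμ v₀ hv₀)).1
    have h4 : ((Ex (n + g) (μ v₀)).card : ℝ) + A2 = A1 := by
      rw [hA1, hA2]
      exact_mod_cast h3
    linarith
  obtain ⟨B, C, hB, hBC⟩ := hSUBI k Ω M f Sm hSm A hA hf S (n + g) (by omega)
    (fun v => {s // s ∈ Ex (n + g) (μ v)}) (fun v s => gm (y v) s.1) hbas 1 one_pos
  have hZ : Sm {ω | ∃ v ∈ S, ω ∈ {ω | ∃ i ∈ (Finset.univ : Finset (Fin 4)),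
      ω ∈ {ω | ω ∈ A ∧ y v i ⬝ᵥ f ω = 0}}} :=
    sm_finset hSm _ S fun v hv => sm_finset hSm _ _ fun i _ => hB0 v hv i
  refine ⟨B ∪ _, (C + ρ * (S.card * C₁)) / (g * A2), hSm.2.2 _ _ hB hZ, fun ω hω hωB => ?_⟩
  rw [Set.mem_union, not_or] at hωB
  have hne : ∀ v ∈ S, ∀ i, y v i ⬝ᵥ f ω ≠ 0 := by
    intro v hv i h0
    exact hωB.2 ⟨v, hv, i, Finset.mem_univ i, hω, h0⟩
  refine ⟨hne, ?_⟩
  have hmain := (hBC ω hω hωB.1).2
  have hinner : ∀ v ∈ S, ∑ s : {s // s ∈ Ex (n + g) (μ v)},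
      (((n + g : ℕ) : ℝ) * Real.log (nrm v (f ω)) - Real.log (absV v (eval (f ω) (gm (y v) s.1)))) =
      g * A2 * (∑ i, (1 - (μ v i : ℝ) / g) * val v (y v i) (f ω)) + ρ / 4 * ∑ i, val v (y v i) (f ω) := by
    intro v hv
    have h1 : ∀ s : {s // s ∈ Ex (n + g) (μ v)},
        (((n + g : ℕ) : ℝ) * Real.log (nrm v (f ω)) - Real.log (absV v (eval (f ω) (gm (y v) s.1)))) =
        ∑ i, (s.1 i : ℝ) * val v (y v i) (f ω) := by
      intro s
      rw [gm_eval hPAR f (y v) s.1 ω]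
      exact val_sum v (y v) (f ω) s.1 (mem_Ex.mp s.2).1 (hne v hv)
    rw [Finset.sum_congr rfl fun s _ => h1 s, Finset.sum_comm, Finset.mul_sum, Finset.mul_sum,
      ← Finset.sum_add_distrib]
    refine Finset.sum_congr rfl fun i _ => ?_
    rw [← Finset.sum_mul]
    have h2 : ∑ s : {s // s ∈ Ex (n + g) (μ v)}, (s.1 i : ℝ) = ∑ s ∈ Ex (n + g) (μ v), (s i : ℝ) :=
      Finset.sum_coe_sort (Ex (n + g) (μ v)) (fun s => (s i : ℝ))
    have h3 := (hCNT n g (μ v) (hμ v hv)).2 i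
    have h4 : 4 * (∑ s ∈ Ex (n + g) (μ v), (s i : ℝ)) + ((n : ℝ) + 4 * (μ v i : ℝ)) * A2 =
        ((n : ℝ) + g) * A1 := by
      rw [hA1, hA2]
      exact_mod_cast h3
    rw [h2]
    have h5 : ∑ s ∈ Ex (n + g) (μ v), (s i : ℝ) = g * A2 * (1 - (μ v i : ℝ) / g) + ρ / 4 := by
      have h6 : (g : ℝ) * A2 * (1 - (μ v i : ℝ) / g) = g * A2 - (μ v i : ℝ) * A2 := by
        field_simp
      rw [h6, hρ]
      linarith
    rw [h5]
    ring
  rw [Finset.sum_congr rfl hinner, Finset.sum_add_distrib, ← Finset.mul_sum, ← Finset.mul_sum,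
    hcard] at hmain
  have hlow2 : -(S.card * (4 * C₁)) ≤ ∑ v ∈ S, ∑ i, val v (y v i) (f ω) := by
    have h1 : ∑ v ∈ S, (-(4 * C₁)) ≤ ∑ v ∈ S, ∑ i, val v (y v i) (f ω) := by
      refine Finset.sum_le_sum fun v hv => ?_
      have h2 : ∑ _i : Fin 4, (-C₁) ≤ ∑ i, val v (y v i) (f ω) :=
        Finset.sum_le_sum fun i _ => hlow v hv i (f ω) (hne v hv i)
      rw [Finset.sum_const, Finset.card_univ, Fintype.card_fin, nsmul_eq_mul] at h2
      push_cast at h2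
      linarith
    rw [Finset.sum_const, nsmul_eq_mul] at h1
    linarith
  have hht : 0 ≤ ht (f ω) := ht_nonneg (hf ω hω)
  set T1 := ∑ v ∈ S, ∑ i, (1 - (μ v i : ℝ) / g) * val v (y v i) (f ω) with hT1
  set T2 := ∑ v ∈ S, ∑ i, val v (y v i) (f ω) with hT2
  have hgA : 0 < (g : ℝ) * A2 := by positivity
  have h7 : ρ / 4 * (-(S.card * (4 * C₁))) ≤ ρ / 4 * T2 := mul_le_mul_of_nonneg_left hlow2 (by linarith)
  have h8 : (ρ + 1) * ht (f ω) ≤ ε * (g * A2) * ht (f ω) := mul_le_mul_of_nonneg_right hρε hht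
  have h9 : g * A2 * T1 ≤ (3 + ε) * (g * A2) * ht (f ω) + (C + ρ * (S.card * C₁)) := by
    have h10 : (A1 - A2) * ((n + g : ℕ) : ℝ) = 3 * (g * A2) + ρ := by
      rw [hρ]
      push_cast
      ring
    rw [h10] at hmain
    nlinarith
  have h11 : T1 ≤ ((3 + ε) * (g * A2) * ht (f ω) + (C + ρ * (S.card * C₁))) / (g * A2) := by
    rw [le_div_iff₀ hgA]
    linarith
  refine h11.trans (le_of_eq ?_)
  field_simp

end Pool.Agent.Lib.MP_d0e829_nt.SS
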