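import Pool.Agent.Lib.MP_d0e829_nt.SS.SpecC2

/-! Module K1A: one-dimensional `U`, frames of type A. -/

set_option autoImplicit false

open NumberField MvPolynomial

namespace Pool.Agent.Lib.MP_d0e829_nt.SS

namespace K1AM

lemma sum_WA (p q z z' : ℝ) : ∑ i, WA p q z z' i =
    p + q + (z + z') + min z' (z + q) + min z (p + z') := by
  simp [WA, Fin.sum_univ_six]

lemma supp {k : Type} [Field k] {c : Fin 6 → k} {a b : Fin 6} (ha : c a ≠ 0) (hb : c b ≠ 0)
    (h : ∀ i, i ≠ a → i ≠ b → c i = 0) (i : Fin 6) : c i ≠ 0 ↔ i = a ∨ i = b := by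
  constructor
  · intro hi
    by_contra hn
    push Not at hn
    exact hi (h i hn.1 hn.2)
  · rintro (rfl | rfl)
    · exact ha
    · exact hb

end K1AM

open K1AM

theorem specK1A : SpecK1A := by
  intro k _ c hc p q z z' hp hq hz hz'
  rw [sum_WA]
  have w0 : WA p q z z' 0 = p := rfl
  have w1 : WA p q z z' 1 = q := rfl
  have w2 : WA p q z z' 2 = z + z' := rfl
  have w3 : WA p q z z' 3 = min z' (z + q) := rfl
  have w4 : WA p q z z' 4 = min z (p + z') := rfl
  have w5 : WA p q z z' 5 = 0 := rfl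
  have m1 : 0 ≤ min z' (z + q) := le_min hz' (by linarith)
  have m2 : 0 ≤ min z (p + z') := le_min hz (by linarith)
  by_cases h5 : c 5 = 0
  swap
  · exact ⟨5, h5, Or.inl (by rw [w5]; linarith)⟩
  by_cases h4 : c 4 = 0
  swap
  · exact ⟨4, h4, Or.inl (by rw [w4]; linarith)⟩
  by_cases h3 : c 3 = 0
  swap
  · exact ⟨3, h3, Or.inl (by rw [w3]; linarith)⟩
  by_cases h0 : c 0 = 0
  · -- support {1, 2}
    have h1 : c 1 ≠ 0 := by
      obtain ⟨j, hj, hcj⟩ := hc 2 (by decide)
      intro h1
      fin_cases j <;> simp_all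
    have h2 : c 2 ≠ 0 := by
      obtain ⟨j, hj, hcj⟩ := hc 1 (by decide)
      intro h2
      fin_cases j <;> simp_all
    have hs := supp h1 h2 (by
      intro i hi1 hi2
      fin_cases i <;> simp_all)
    by_cases hle : q ≤ z + z'
    · exact ⟨1, h1, Or.inr ⟨1, 2, by decide, by decide, by decide, hs,
        by rw [w1]; linarith, by rw [w1, w2]; linarith⟩⟩
    · exact ⟨2, h2, Or.inr ⟨1, 2, by decide, by decide, by decide, hs,
        by rw [w1, w2]; linarith, by rw [w2]; linarith⟩⟩
  by_cases h1 : c 1 = 0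
  · have h2 : c 2 ≠ 0 := by
      obtain ⟨j, hj, hcj⟩ := hc 0 (by decide)
      intro h2
      fin_cases j <;> simp_all
    have hs := supp h0 h2 (by
      intro i hi1 hi2
      fin_cases i <;> simp_all)
    by_cases hle : p ≤ z + z'
    · exact ⟨0, h0, Or.inr ⟨0, 2, by decide, by decide, by decide, hs,
        by rw [w0]; linarith, by rw [w0, w2]; linarith⟩⟩
    · exact ⟨2, h2, Or.inr ⟨0, 2, by decide, by decide, by decide, hs,
        by rw [w0, w2]; linarith, by rw [w2]; linarith⟩⟩
  by_cases h2 : c 2 = 0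
  · have hs := supp h0 h1 (by
      intro i hi1 hi2
      fin_cases i <;> simp_all)
    by_cases hle : p ≤ q
    · exact ⟨0, h0, Or.inr ⟨0, 1, by decide, by decide, by decide, hs,
        by rw [w0]; linarith, by rw [w0, w1]; linarith⟩⟩
    · exact ⟨1, h1, Or.inr ⟨0, 1, by decide, by decide, by decide, hs,
        by rw [w0, w1]; linarith, by rw [w1]; linarith⟩⟩
  · rcases min_choice z (p + z') with e | e
    · rcases min_choice z' (z + q) with e' | e'
      · exact ⟨2, h2, Or.inl (by rw [w2]; linarith)⟩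
      · exact ⟨1, h1, Or.inl (by rw [w1]; linarith)⟩
    · exact ⟨0, h0, Or.inl (by rw [w0]; linarith)⟩

end Pool.Agent.Lib.MP_d0e829_nt.SS
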