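import Pool.Agent.Lib.MP_d0e829_nt.SS.SpecC2

/-! Module K1B: one-dimensional `U`, frames of type B. -/

set_option autoImplicit false

open NumberField MvPolynomial

namespace Pool.Agent.Lib.MP_d0e829_nt.SS

namespace K1BM

lemma sum_WB (p p' q q' : ℝ) : ∑ i, WB p p' q q' i =
    (p + p') + (q + q') + 0 + min q q' + min p p' + min (p + q') (q + p') := by
  simp [WB, Fin.sum_univ_six]

lemma supp {k : Type} [Field k] {c : Fin 6 → k} {a b : Fin 6} (ha : c a ≠ 0) (hb : c b ≠ 0)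
    (h : ∀ i, i ≠ a → i ≠ b → c i = 0) (i : Fin 6) : c i ≠ 0 ↔ i = a ∨ i = b := by
  constructor
  · intro hi
    by_contra hn
    push Not at hn
    exact hi (h i hn.1 hn.2)
  · rintro (rfl | rfl)
    · exact ha
    · exact hb

end K1BM

open K1BM

theorem specK1B : SpecK1B := by
  intro k _ c hc p p' q q' hp hp' hq hq'
  rw [sum_WB]
  have w0 : WB p p' q q' 0 = p + p' := rfl
  have w1 : WB p p' q q' 1 = q + q' := rfl
  have w2 : WB p p' q q' 2 = 0 := rfl
  have w3 : WB p p' q q' 3 = min q q' := rfl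
  have w4 : WB p p' q q' 4 = min p p' := rfl
  have w5 : WB p p' q q' 5 = min (p + q') (q + p') := rfl
  have m1 : 0 ≤ min q q' := le_min hq hq'
  have m2 : 0 ≤ min p p' := le_min hp hp'
  have m3 : 0 ≤ min (p + q') (q + p') := le_min (by linarith) (by linarith)
  by_cases h2 : c 2 = 0
  swap
  · exact ⟨2, h2, Or.inl (by rw [w2]; linarith)⟩
  by_cases h5 : c 5 = 0
  swap
  · exact ⟨5, h5, Or.inl (by rw [w5]; linarith)⟩
  by_cases h4 : c 4 = 0
  swap
  · exact ⟨4, h4, Or.inl (by rw [w4]; linarith)⟩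
  by_cases h3 : c 3 = 0
  swap
  · exact ⟨3, h3, Or.inl (by rw [w3]; linarith)⟩
  have h1 : c 1 ≠ 0 := by
    obtain ⟨j, hj, hcj⟩ := hc 0 (by decide)
    intro h1
    fin_cases j <;> simp_all
  have h0 : c 0 ≠ 0 := by
    obtain ⟨j, hj, hcj⟩ := hc 1 (by decide)
    intro h0
    fin_cases j <;> simp_all
  have hs := supp h0 h1 (by
    intro i hi1 hi2
    fin_cases i <;> simp_all)
  by_cases hle : p + p' ≤ q + q'
  · exact ⟨0, h0, Or.inr ⟨hs, by rw [w0]; linarith, by rw [w0, w1]; linarith⟩⟩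
  · exact ⟨1, h1, Or.inr ⟨hs, by rw [w0, w1]; linarith, by rw [w1]; linarith⟩⟩

end Pool.Agent.Lib.MP_d0e829_nt.SS
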