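import Pool.Agent.Lib.MP_d0e829_nt.SS.SpecC2

/-!
# Module K1D
-/

set_option autoImplicit false

open NumberField MvPolynomial

namespace Pool.Agent.Lib.MP_d0e829_nt.SS

open scoped Classical

namespace K1DM

theorem sum_WA1 (p q α β : ℝ) : ∑ i, WA1 p q α β i = p + q + 2 * α + 2 * β := by
  simp only [WA1, Fin.sum_univ_six]
  simp
  ring

theorem W0 (p q α β : ℝ) : WA1 p q α β 0 = p := by simp [WA1]
theorem W1 (p q α β : ℝ) : WA1 p q α β 1 = q := by simp [WA1]
theorem W2 (p q α β : ℝ) : WA1 p q α β 2 = α + β := by simp [WA1]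
theorem W3 (p q α β : ℝ) : WA1 p q α β 3 = β := by simp [WA1]
theorem W4 (p q α β : ℝ) : WA1 p q α β 4 = α := by simp [WA1]
theorem W5 (p q α β : ℝ) : WA1 p q α β 5 = 0 := by simp [WA1]

end K1DM

open K1DM in
theorem specK1D : SpecK1D := by
  intro k _ c hc p q α β hα hαp hβ hβq
  rw [sum_WA1]
  by_cases h5 : c 5 = 0
  · by_cases h4 : c 4 = 0
    · by_cases h3 : c 3 = 0
      · by_cases h2 : c 2 = 0
        · have hall : ∀ j : Fin 6, c j ≠ 0 → j = 0 ∨ j = 1 := by
            intro j hj
            fin_cases j
            · exact Or.inl rfl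
            · exact Or.inr rfl
            · exact absurd h2 hj
            · exact absurd h3 hj
            · exact absurd h4 hj
            · exact absurd h5 hj
          have h1 : c 1 ≠ 0 := by
            obtain ⟨j, hj, hcj⟩ := hc 0 (by norm_num)
            rcases hall j hcj with h | h
            · exact absurd h hj
            · rw [← h]; exact hcj
          have h0 : c 0 ≠ 0 := by
            obtain ⟨j, hj, hcj⟩ := hc 1 (by norm_num)
            rcases hall j hcj with h | h
            · rw [← h]; exact hcj
            · exact absurd h hj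
          have hiff : ∀ i : Fin 6, c i ≠ 0 ↔ i = 0 ∨ i = 1 := by
            intro i
            refine ⟨hall i, ?_⟩
            rintro (h | h)
            · rw [h]; exact h0
            · rw [h]; exact h1
          rcases le_total p q with hpq | hpq
          · refine ⟨0, h0, Or.inr ⟨hiff, ?_, ?_⟩⟩
            · rw [W0]; linarith
            · rw [W0, W1]; linarith
          · refine ⟨1, h1, Or.inr ⟨hiff, ?_, ?_⟩⟩
            · rw [W0, W1]; linarith
            · rw [W1]; linarith
        · exact ⟨2, h2, Or.inl (by rw [W2]; linarith)⟩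
      · exact ⟨3, h3, Or.inl (by rw [W3]; linarith)⟩
    · exact ⟨4, h4, Or.inl (by rw [W4]; linarith)⟩
  · exact ⟨5, h5, Or.inl (by rw [W5]; linarith)⟩

end Pool.Agent.Lib.MP_d0e829_nt.SS
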