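import Pool.Agent.Lib.MP_d0e829_nt.SS.SpecC2

/-!
# K2A: frames of type A
-/

set_option autoImplicit false

open NumberField MvPolynomial

namespace Pool.Agent.Lib.MP_d0e829_nt.SS

open scoped Classical

namespace K2AM

variable {k : Type} [Field k]

/-- two independent elements span -/
def Two (U : Submodule k (Fin 6 → k)) : Prop :=
  ∀ C ∈ U, ∀ D ∈ U, (∀ a b : k, a • C + b • D = 0 → a = 0 ∧ b = 0) →
    ∀ E ∈ U, ∃ a b : k, E = a • C + b • D

theorem two_of_finrank {U : Submodule k (Fin 6 → k)} (hU : Module.finrank k U = 2) : Two U := by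
  intro C hC D hD hind E hE
  have hli : LinearIndependent k ![(⟨C, hC⟩ : U), ⟨D, hD⟩] := by
    rw [LinearIndependent.pair_iff]
    intro a b h
    exact hind a b (congrArg Subtype.val h)
  have hsp := hli.span_eq_top_of_card_eq_finrank' (by simp [hU])
  have h1 : (⟨E, hE⟩ : U) ∈ Submodule.span k (Set.range ![(⟨C, hC⟩ : U), ⟨D, hD⟩]) := by
    rw [hsp]
    trivial
  have h2 : Set.range ![(⟨C, hC⟩ : U), ⟨D, hD⟩] = {(⟨C, hC⟩ : U), ⟨D, hD⟩} := by
    simp [Matrix.range_cons, Matrix.range_empty, Set.pair_comm]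
  rw [h2, Submodule.mem_span_pair] at h1
  obtain ⟨a, b, h⟩ := h1
  exact ⟨a, b, (congrArg Subtype.val h).symm⟩

theorem basis2 {U : Submodule k (Fin 6 → k)} (hU : Module.finrank k U = 2) :
    ∃ B₀ ∈ U, ∃ B₁ ∈ U, ∀ a b : k, a • B₀ + b • B₁ = 0 → a = 0 ∧ b = 0 := by
  have b := Module.finBasisOfFinrankEq k U hU
  refine ⟨b 0, (b 0).2, b 1, (b 1).2, fun x y h => ?_⟩
  have hli := b.linearIndependent
  rw [Fintype.linearIndependent_iff] at hli
  have h1 := hli ![x, y] (by
    rw [Fin.sum_univ_two]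
    apply Subtype.ext
    simpa using h)
  exact ⟨by simpa using h1 0, by simpa using h1 1⟩

/-- two coordinates which separate `U` -/
theorem coords {U : Submodule k (Fin 6 → k)} (hU : Module.finrank k U = 2) (i j : Fin 6)
    (hinj : ∀ c ∈ U, c i = 0 → c j = 0 → c = 0) :
    ∃ C ∈ U, ∃ D ∈ U, C i = 1 ∧ C j = 0 ∧ D i = 0 ∧ D j = 1 := by
  obtain ⟨B₀, h0, B₁, h1, hind⟩ := basis2 hU
  have hdet : B₀ i * B₁ j - B₀ j * B₁ i ≠ 0 := by
    intro hdet
    have e1 : B₁ j • B₀ + (- B₀ j) • B₁ = 0 := by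
      refine hinj _ (U.add_mem (U.smul_mem _ h0) (U.smul_mem _ h1)) ?_ ?_
      · simp only [Pi.add_apply, Pi.smul_apply, smul_eq_mul]
        linear_combination hdet
      · simp only [Pi.add_apply, Pi.smul_apply, smul_eq_mul]
        ring
    have e2 : B₁ i • B₀ + (- B₀ i) • B₁ = 0 := by
      refine hinj _ (U.add_mem (U.smul_mem _ h0) (U.smul_mem _ h1)) ?_ ?_
      · simp only [Pi.add_apply, Pi.smul_apply, smul_eq_mul]
        ring
      · simp only [Pi.add_apply, Pi.smul_apply, smul_eq_mul]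
        linear_combination -hdet
    have f1 := hind _ _ e1
    have f2 := hind _ _ e2
    have e3 : B₀ = 0 := hinj _ h0 (neg_eq_zero.1 f2.2) (neg_eq_zero.1 f1.2)
    have f3 := hind 1 0 (by rw [e3]; simp)
    exact one_ne_zero f3.1
  obtain ⟨δ, hδ⟩ : ∃ δ, δ = B₀ i * B₁ j - B₀ j * B₁ i := ⟨_, rfl⟩
  rw [← hδ] at hdet
  refine ⟨δ⁻¹ • (B₁ j • B₀ + (- B₀ j) • B₁),
    U.smul_mem _ (U.add_mem (U.smul_mem _ h0) (U.smul_mem _ h1)),
    δ⁻¹ • ((- B₁ i) • B₀ + B₀ i • B₁),
    U.smul_mem _ (U.add_mem (U.smul_mem _ h0) (U.smul_mem _ h1)), ?_, ?_, ?_, ?_⟩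
  · simp only [Pi.add_apply, Pi.smul_apply, smul_eq_mul]
    field_simp
    rw [hδ]
    ring
  · simp only [Pi.add_apply, Pi.smul_apply, smul_eq_mul]
    ring
  · simp only [Pi.add_apply, Pi.smul_apply, smul_eq_mul]
    ring
  · simp only [Pi.add_apply, Pi.smul_apply, smul_eq_mul]
    field_simp
    rw [hδ]
    ring

/-- scaling and subtracting -/
theorem scale {U : Submodule k (Fin 6 → k)} {C D : Fin 6 → k} (hC : C ∈ U) (hD : D ∈ U)
    (C0 : C 0 ≠ 0) (C3 : C 3 = 0) (C4 : C 4 = 0) (C5 : C 5 = 0)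
    (hD' : D 3 ≠ 0 ∨ D 4 ≠ 0 ∨ D 5 ≠ 0) :
    ∃ C' ∈ U, ∃ D' ∈ U, C' 0 = 1 ∧ C' 3 = 0 ∧ C' 4 = 0 ∧ C' 5 = 0 ∧ D' 0 = 0 ∧
      (D' 3 ≠ 0 ∨ D' 4 ≠ 0 ∨ D' 5 ≠ 0) ∧ (C 1 = 0 → C' 1 = 0) := by
  refine ⟨(C 0)⁻¹ • C, U.smul_mem _ hC, D - D 0 • ((C 0)⁻¹ • C),
    U.sub_mem hD (U.smul_mem _ (U.smul_mem _ hC)), ?_, ?_, ?_, ?_, ?_, ?_, ?_⟩
  · simp only [Pi.smul_apply, smul_eq_mul]
    exact inv_mul_cancel₀ C0
  · simp only [Pi.smul_apply, smul_eq_mul, C3, mul_zero]
  · simp only [Pi.smul_apply, smul_eq_mul, C4, mul_zero]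
  · simp only [Pi.smul_apply, smul_eq_mul, C5, mul_zero]
  · simp only [Pi.sub_apply, Pi.smul_apply, smul_eq_mul]
    rw [inv_mul_cancel₀ C0]
    ring
  · simp only [Pi.sub_apply, Pi.smul_apply, smul_eq_mul, C3, C4, C5, mul_zero, sub_zero]
    exact hD'
  · intro h
    simp only [Pi.smul_apply, smul_eq_mul, h, mul_zero]

theorem L02 (hKA2 : SpecKA2) (hKA3 : SpecKA3) {U : Submodule k (Fin 6 → k)} (hT : Two U)
    (h1 : ∃ C ∈ U, C 1 ≠ 0 ∨ C 3 ≠ 0 ∨ C 5 ≠ 0) {C D : Fin 6 → k} (hC : C ∈ U) (hD : D ∈ U)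
    (C0 : C 0 ≠ 0) (C3 : C 3 = 0) (C4 : C 4 = 0) (C5 : C 5 = 0)
    (hD' : D 3 ≠ 0 ∨ D 4 ≠ 0 ∨ D 5 ≠ 0) {κ p q z z' : ℝ} (hκ : 0 ≤ κ) (hp : 0 ≤ p) (hq : 0 ≤ q)
    (hz : 0 ≤ z) (hz' : 0 ≤ z') (hpt : |p - (z + z')| ≤ κ)
    (hC1 : C 1 = 0 ∨ z + z' ≤ q + κ) : K2C U (WA p q z z') (p + q + z + z') (10 * κ) := by
  obtain ⟨C', hC', D', hD'', a0, a3, a4, a5, b0, hDD, hC1'⟩ := scale hC hD C0 C3 C4 C5 hD'
  rcases hC1 with hC1 | hC1
  · have a1 := hC1' hC1
    refine hKA2 k U C' D' κ p q z z' hκ hp hq hz hz' hC' hD'' a0 a1 a3 a4 a5 b0 hDD ?_ hpt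
    by_contra hcon
    push Not at hcon
    obtain ⟨c1, c3, c5⟩ := hcon
    obtain ⟨E, hE, hE'⟩ := h1
    have hind : ∀ a b : k, a • C' + b • D' = 0 → a = 0 ∧ b = 0 := by
      intro a b h
      have g0 := congrFun h 0
      simp only [Pi.add_apply, Pi.smul_apply, smul_eq_mul, Pi.zero_apply, a0, b0, mul_one,
        mul_zero, add_zero] at g0
      refine ⟨g0, ?_⟩
      have g4 := congrFun h 4
      simp only [Pi.add_apply, Pi.smul_apply, smul_eq_mul, Pi.zero_apply, a4,
        mul_zero, zero_add] at g4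
      rcases hDD with h | h | h
      · exact absurd c3 h
      · exact (mul_eq_zero.1 g4).resolve_right h
      · exact absurd c5 h
    obtain ⟨a, b, hab⟩ := hT C' hC' D' hD'' hind E hE
    have g1 : E 1 = 0 := by
      rw [hab]
      simp only [Pi.add_apply, Pi.smul_apply, smul_eq_mul, a1, c1, mul_zero, add_zero]
    have g3 : E 3 = 0 := by
      rw [hab]
      simp only [Pi.add_apply, Pi.smul_apply, smul_eq_mul, a3, c3, mul_zero, add_zero]
    have g5 : E 5 = 0 := by
      rw [hab]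
      simp only [Pi.add_apply, Pi.smul_apply, smul_eq_mul, a5, c5, mul_zero, add_zero]
    rcases hE' with h | h | h
    · exact h g1
    · exact h g3
    · exact h g5
  · exact hKA3 k U C' D' κ p q z z' hκ hp hq hz hz' hC' hD'' a0 a3 a4 a5 b0 hDD hpt hC1

theorem sw_sw (c : Fin 6 → k) : (fun i => (fun i => c (sw6 i)) (sw6 i)) = c := by
  funext i
  fin_cases i <;> rfl

theorem L12 (hKA2 : SpecKA2) (hKA3 : SpecKA3) (hKSW : SpecKSW) {U : Submodule k (Fin 6 → k)}
    (hT : Two U)
    (h2 : ∃ C ∈ U, C 0 ≠ 0 ∨ C 4 ≠ 0 ∨ C 5 ≠ 0) {C D : Fin 6 → k} (hC : C ∈ U) (hD : D ∈ U)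
    (C1 : C 1 ≠ 0) (C3 : C 3 = 0) (C4 : C 4 = 0) (C5 : C 5 = 0)
    (hD' : D 3 ≠ 0 ∨ D 4 ≠ 0 ∨ D 5 ≠ 0) {κ p q z z' : ℝ} (hκ : 0 ≤ κ) (hp : 0 ≤ p) (hq : 0 ≤ q)
    (hz : 0 ≤ z) (hz' : 0 ≤ z') (hqt : |q - (z + z')| ≤ κ)
    (hC0 : C 0 = 0 ∨ z + z' ≤ p + κ) : K2C U (WA p q z z') (p + q + z + z') (10 * κ) := by
  let U' : Submodule k (Fin 6 → k) := U.comap (LinearMap.funLeft k k sw6)
  have hmem : ∀ c : Fin 6 → k, c ∈ U' ↔ (fun i => c (sw6 i)) ∈ U := fun c => Iff.rfl
  have hmem' : ∀ c ∈ U, (fun i => c (sw6 i)) ∈ U' := by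
    intro c hc
    rw [hmem, sw_sw]
    exact hc
  refine hKSW k U U' (WA p q z z') (WA q p z' z) (p + q + z + z') (10 * κ) hmem ?_ ?_
  · intro i
    fin_cases i
    · rfl
    · rfl
    · show z' + z = z + z'
      ring
    · show min z (z' + p) = min z (p + z')
      rw [add_comm z' p]
    · show min z' (q + z) = min z' (z + q)
      rw [add_comm q z]
    · rfl
  · have hsum : p + q + z + z' = q + p + z' + z := by ring
    rw [hsum]
    have hT' : Two U' := by
      intro C hC D hD hind E hE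
      obtain ⟨a, b, h⟩ := hT _ ((hmem C).1 hC) _ ((hmem D).1 hD) (by
        intro a b h
        refine hind a b ?_
        funext i
        have h3 := congrFun h (sw6 i)
        simp only [Pi.add_apply, Pi.smul_apply, Pi.zero_apply] at h3 ⊢
        have h4 := congrFun (sw_sw C) i
        have h5 := congrFun (sw_sw D) i
        simp only at h4 h5
        rw [h4, h5] at h3
        exact h3) _ ((hmem E).1 hE)
      refine ⟨a, b, ?_⟩
      funext i
      have h3 := congrFun h (sw6 i)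
      simp only [Pi.add_apply, Pi.smul_apply] at h3 ⊢
      have h4 := congrFun (sw_sw C) i
      have h5 := congrFun (sw_sw D) i
      have h6 := congrFun (sw_sw E) i
      simp only at h4 h5 h6
      rw [h4, h5, h6] at h3
      exact h3
    refine L02 hKA2 hKA3 hT' ?_ (hmem' C hC) (hmem' D hD) (show C 1 ≠ 0 from C1)
      (show C 4 = 0 from C4) (show C 3 = 0 from C3) (show C 5 = 0 from C5) ?_ hκ hq hp hz' hz ?_ ?_
    · obtain ⟨E, hE, hE'⟩ := h2
      exact ⟨_, hmem' E hE, hE'⟩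
    · show D 4 ≠ 0 ∨ D 3 ≠ 0 ∨ D 5 ≠ 0
      rcases hD' with h | h | h
      · exact Or.inr (Or.inl h)
      · exact Or.inl h
      · exact Or.inr (Or.inr h)
    · rw [add_comm z' z]
      exact hqt
    · show C 0 = 0 ∨ z' + z ≤ p + κ
      rw [add_comm z' z]
      exact hC0

end K2AM

open K2AM in
theorem specK2A (hKA0 : SpecKA0) (hKA1 : SpecKA1) (hKA2 : SpecKA2) (hKA3 : SpecKA3)
    (hKA4 : SpecKA4) (hKA5 : SpecKA5) (hKSW : SpecKSW) : SpecK2A := by
  intro k _ U hU hsing h1 h2
  have hT := two_of_finrank hU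
  have hj : ∀ (C : Fin 6 → k) (j : Fin 6), C 3 = 0 → C 4 = 0 → C 5 = 0 → C j ≠ 0 →
      j = 0 ∨ j = 1 ∨ j = 2 := by
    intro C j h3 h4 h5 h
    fin_cases j
    · exact Or.inl rfl
    · exact Or.inr (Or.inl rfl)
    · exact Or.inr (Or.inr rfl)
    · exact absurd h3 h
    · exact absurd h4 h
    · exact absurd h5 h
  by_cases hD0 : ∃ C ∈ U, C 3 = 0 ∧ C 4 = 0 ∧ C 5 = 0 ∧ C ≠ 0
  · by_cases hD1 : ∃ D ∈ U, D 3 ≠ 0 ∨ D 4 ≠ 0 ∨ D 5 ≠ 0
    · -- dimension one
      obtain ⟨C, hC, C3, C4, C5, hne⟩ := hD0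
      obtain ⟨D, hD, hD'⟩ := hD1
      refine ⟨{C}, ?_, ?_⟩
      · intro c hc
        rw [Finset.mem_singleton] at hc
        subst hc
        exact ⟨hC, C3, C4, C5⟩
      · intro κ p q z z' hκ hp hq hz hz' hex
        have hE := hex C (Finset.mem_singleton_self _)
        have w0 : WA p q z z' 0 = p := rfl
        have w1 : WA p q z z' 1 = q := rfl
        have w2 : WA p q z z' 2 = z + z' := rfl
        have e0 : C 0 ≠ 0 → (C 1 ≠ 0 ∧ q ≤ p + κ) ∨ (C 2 ≠ 0 ∧ z + z' ≤ p + κ) := by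
          intro h
          obtain ⟨j, hj1, hj2, hj3⟩ := hE 0 h
          rcases hj C j C3 C4 C5 hj2 with rfl | rfl | rfl
          · exact absurd rfl hj1
          · exact Or.inl ⟨hj2, by rw [w0, w1] at hj3; exact hj3⟩
          · exact Or.inr ⟨hj2, by rw [w0, w2] at hj3; exact hj3⟩
        have e1 : C 1 ≠ 0 → (C 0 ≠ 0 ∧ p ≤ q + κ) ∨ (C 2 ≠ 0 ∧ z + z' ≤ q + κ) := by
          intro h
          obtain ⟨j, hj1, hj2, hj3⟩ := hE 1 h
          rcases hj C j C3 C4 C5 hj2 with rfl | rfl | rfl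
          · exact Or.inl ⟨hj2, by rw [w0, w1] at hj3; exact hj3⟩
          · exact absurd rfl hj1
          · exact Or.inr ⟨hj2, by rw [w1, w2] at hj3; exact hj3⟩
        have e2 : C 2 ≠ 0 → (C 0 ≠ 0 ∧ p ≤ z + z' + κ) ∨ (C 1 ≠ 0 ∧ q ≤ z + z' + κ) := by
          intro h
          obtain ⟨j, hj1, hj2, hj3⟩ := hE 2 h
          rcases hj C j C3 C4 C5 hj2 with rfl | rfl | rfl
          · exact Or.inl ⟨hj2, by rw [w0, w2] at hj3; exact hj3⟩
          · exact Or.inr ⟨hj2, by rw [w1, w2] at hj3; exact hj3⟩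
          · exact absurd rfl hj1
        have hsome : C 0 ≠ 0 ∨ C 1 ≠ 0 ∨ C 2 ≠ 0 := by
          by_contra hcon
          push Not at hcon
          apply hne
          funext i
          fin_cases i
          · exact hcon.1
          · exact hcon.2.1
          · exact hcon.2.2
          · exact C3
          · exact C4
          · exact C5
        -- the pair of nearly equal weights
        have key : (C 0 ≠ 0 ∧ |p - q| ≤ κ) ∨
            (C 0 ≠ 0 ∧ |p - (z + z')| ≤ κ ∧ (C 1 = 0 ∨ z + z' ≤ q + κ)) ∨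
            (C 1 ≠ 0 ∧ |q - (z + z')| ≤ κ ∧ (C 0 = 0 ∨ z + z' ≤ p + κ)) := by
          by_cases c0 : C 0 = 0
          · by_cases c1 : C 1 = 0
            · rcases hsome with h | h | h
              · exact absurd c0 h
              · exact absurd c1 h
              · rcases e2 h with h' | h'
                · exact absurd c0 h'.1
                · exact absurd c1 h'.1
            · rcases e1 c1 with h | h
              · exact absurd c0 h.1
              · rcases e2 h.1 with h' | h'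
                · exact absurd c0 h'.1
                · exact Or.inr (Or.inr ⟨c1, abs_le.2 ⟨by linarith [h.2], by linarith [h'.2]⟩,
                    Or.inl c0⟩)
          · by_cases c1 : C 1 = 0
            · rcases e0 c0 with h | h
              · exact absurd c1 h.1
              · rcases e2 h.1 with h' | h'
                · exact Or.inr (Or.inl ⟨c0, abs_le.2 ⟨by linarith [h.2], by linarith [h'.2]⟩,
                    Or.inl c1⟩)
                · exact absurd c1 h'.1
            · by_cases c2 : C 2 = 0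
              · rcases e0 c0 with h | h
                · rcases e1 c1 with h' | h'
                  · exact Or.inl ⟨c0, abs_le.2 ⟨by linarith [h.2], by linarith [h'.2]⟩⟩
                  · exact absurd c2 h'.1
                · exact absurd c2 h.1
              · rcases le_total p q with hpq | hpq
                · rcases le_total p (z + z') with hpt | hpt
                  · rcases e0 c0 with h | h
                    · exact Or.inl ⟨c0, abs_le.2 ⟨by linarith [h.2], by linarith⟩⟩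
                    · exact Or.inr (Or.inl ⟨c0, abs_le.2 ⟨by linarith [h.2], by linarith⟩,
                        Or.inr (by linarith [h.2])⟩)
                  · rcases e2 c2 with h | h
                    · exact Or.inr (Or.inl ⟨c0, abs_le.2 ⟨by linarith, by linarith [h.2]⟩,
                        Or.inr (by linarith)⟩)
                    · exact Or.inr (Or.inr ⟨c1, abs_le.2 ⟨by linarith, by linarith [h.2]⟩,
                        Or.inr (by linarith)⟩)
                · rcases le_total q (z + z') with hqt | hqt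
                  · rcases e1 c1 with h | h
                    · exact Or.inl ⟨c0, abs_le.2 ⟨by linarith, by linarith [h.2]⟩⟩
                    · exact Or.inr (Or.inr ⟨c1, abs_le.2 ⟨by linarith [h.2], by linarith⟩,
                        Or.inr (by linarith [h.2])⟩)
                  · rcases e2 c2 with h | h
                    · exact Or.inr (Or.inl ⟨c0, abs_le.2 ⟨by linarith, by linarith [h.2]⟩,
                        Or.inr (by linarith)⟩)
                    · exact Or.inr (Or.inr ⟨c1, abs_le.2 ⟨by linarith, by linarith [h.2]⟩,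
                        Or.inr (by linarith)⟩)
        rcases key with ⟨c0, h⟩ | ⟨c0, h, h'⟩ | ⟨c1, h, h'⟩
        · obtain ⟨C', hC', D', hD'', a0, a3, a4, a5, b0, hDD, -⟩ := scale hC hD c0 C3 C4 C5 hD'
          exact hKA1 k U C' D' κ p q z z' hκ hp hq hz hz' hC' hD'' a0 a3 a4 a5 b0 hDD h
        · exact L02 hKA2 hKA3 hT h1 hC hD c0 C3 C4 C5 hD' hκ hp hq hz hz' h h'
        · exact L12 hKA2 hKA3 hKSW hT h2 hC hD c1 C3 C4 C5 hD' hκ hp hq hz hz' h h'
    · -- dimension two
      push Not at hD1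
      obtain ⟨C, hC, D, hD, a0, a1, b0, b1⟩ := coords hU 0 1 (by
        intro c hc h0 h1
        obtain ⟨h3, h4, h5⟩ := hD1 c hc
        by_contra hne
        have hc2 : c 2 ≠ 0 := by
          intro h2
          apply hne
          funext i
          fin_cases i
          · exact h0
          · exact h1
          · exact h2
          · exact h3
          · exact h4
          · exact h5
        apply hsing 2 (by decide)
        have h6 : (Pi.single 2 (1 : k) : Fin 6 → k) = (c 2)⁻¹ • c := by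
          funext i
          fin_cases i
          · simp [h0]
          · simp [h1]
          · simp [inv_mul_cancel₀ hc2]
          · simp [h3]
          · simp [h4]
          · simp [h5]
        rw [h6]
        exact U.smul_mem _ hc)
      obtain ⟨C3, C4, C5⟩ := hD1 C hC
      obtain ⟨D3, D4, D5⟩ := hD1 D hD
      refine ⟨{C, D}, ?_, ?_⟩
      · intro c hc
        rw [Finset.mem_insert, Finset.mem_singleton] at hc
        rcases hc with rfl | rfl
        · exact ⟨hC, C3, C4, C5⟩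
        · exact ⟨hD, D3, D4, D5⟩
      · intro κ p q z z' hκ hp hq hz hz' hex
        have w0 : WA p q z z' 0 = p := rfl
        have w1 : WA p q z z' 1 = q := rfl
        have w2 : WA p q z z' 2 = z + z' := rfl
        have hEC := hex C (by simp)
        have hED := hex D (by simp)
        have hpt : |p - (z + z')| ≤ κ := by
          obtain ⟨j, hj1, hj2, hj3⟩ := hEC 0 (by rw [a0]; exact one_ne_zero)
          rcases hj C j C3 C4 C5 hj2 with rfl | rfl | rfl
          · exact absurd rfl hj1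
          · exact absurd a1 hj2
          · obtain ⟨i, hi1, hi2, hi3⟩ := hEC 2 hj2
            rcases hj C i C3 C4 C5 hi2 with rfl | rfl | rfl
            · rw [w0, w2] at hi3 hj3
              exact abs_le.2 ⟨by linarith, by linarith⟩
            · exact absurd a1 hi2
            · exact absurd rfl hi1
        have hqt : |q - (z + z')| ≤ κ := by
          obtain ⟨j, hj1, hj2, hj3⟩ := hED 1 (by rw [b1]; exact one_ne_zero)
          rcases hj D j D3 D4 D5 hj2 with rfl | rfl | rfl
          · exact absurd b0 hj2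
          · exact absurd rfl hj1
          · obtain ⟨i, hi1, hi2, hi3⟩ := hED 2 hj2
            rcases hj D i D3 D4 D5 hi2 with rfl | rfl | rfl
            · exact absurd b0 hi2
            · rw [w1, w2] at hi3 hj3
              exact abs_le.2 ⟨by linarith, by linarith⟩
            · exact absurd rfl hi1
        exact hKA0 k U C D κ p q z z' hκ hp hq hz hz' hC hD a0 a1 C3 C4 C5 b0 b1 D3 D4 D5 hpt hqt
  · -- dimension zero
    push Not at hD0
    refine ⟨∅, by simp, ?_⟩
    intro κ p q z z' hκ hp hq hz hz' _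
    by_cases h5 : ∃ C ∈ U, C 5 ≠ 0
    · obtain ⟨C, hC, C5⟩ := h5
      obtain ⟨B₀, g0, B₁, g1, hind⟩ := basis2 hU
      have hD : ∃ D ∈ U, D 5 = 0 ∧ D ≠ 0 := by
        by_cases hb : B₀ 5 = 0
        · refine ⟨B₀, g0, hb, fun h => ?_⟩
          have := hind 1 0 (by rw [h]; simp)
          exact one_ne_zero this.1
        · refine ⟨B₁ 5 • B₀ + (- B₀ 5) • B₁, U.add_mem (U.smul_mem _ g0) (U.smul_mem _ g1), ?_,
            fun h => ?_⟩
          · simp only [Pi.add_apply, Pi.smul_apply, smul_eq_mul]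
            ring
          · exact hb (neg_eq_zero.1 (hind _ _ h).2)
      obtain ⟨D, hD, D5, hDne⟩ := hD
      refine hKA4 k U ((C 5)⁻¹ • C) D κ p q z z' hκ hp hq hz hz' (U.smul_mem _ hC) hD ?_ D5 ?_
      · simp only [Pi.smul_apply, smul_eq_mul]
        exact inv_mul_cancel₀ C5
      · by_contra hcon
        push Not at hcon
        exact hDne (hD0 D hD hcon.1 hcon.2 D5)
    · push Not at h5
      obtain ⟨C, hC, D, hD, a3, a4, b3, b4⟩ := coords hU 3 4 (by
        intro c hc h3 h4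
        exact hD0 c hc h3 h4 (h5 c hc))
      exact hKA5 k U C D κ p q z z' hκ hp hq hz hz' hC hD a3 a4 (h5 C hC) b3 b4 (h5 D hD)

end Pool.Agent.Lib.MP_d0e829_nt.SS
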