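import Pool.Agent.Lib.MP_d0e829_nt.SS.SpecC2

/-!
# Module K2B: two-dimensional spaces of functionals, frames of type B
-/

set_option autoImplicit false

namespace Pool.Agent.Lib.MP_d0e829_nt.SS

namespace K2BM

variable {k : Type} [Field k]

/-- a two-dimensional space has a nonzero element with vanishing `i`-th coordinate -/
theorem exists_zero (U : Submodule k (Fin 6 → k)) (hU : Module.finrank k U = 2) (i : Fin 6) :
    ∃ C ∈ U, C ≠ 0 ∧ C i = 0 := by
  let φ : U →ₗ[k] k := (LinearMap.proj i).comp U.subtype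
  have h1 := LinearMap.finrank_range_add_finrank_ker φ
  have h2 : Module.finrank k (LinearMap.range φ) ≤ 1 := by
    have := Submodule.finrank_le (LinearMap.range φ)
    rwa [Module.finrank_self] at this
  have h3 : 0 < Module.finrank k (LinearMap.ker φ) := by omega
  have h4 : LinearMap.ker φ ≠ ⊥ := by
    intro h
    rw [h, finrank_bot] at h3
    omega
  obtain ⟨x, hx, hx0⟩ := (Submodule.ne_bot_iff _).1 h4
  refine ⟨x, x.2, fun h => hx0 (Subtype.ext h), ?_⟩
  exact LinearMap.mem_ker.1 hx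

/-- a nonzero element of `U` supported in the first two coordinates has both of them nonzero -/
theorem two (U : Submodule k (Fin 6 → k))
    (h3 : ∀ i : Fin 6, (i : ℕ) < 3 → Pi.single i (1 : k) ∉ U) (C : Fin 6 → k) (hC : C ∈ U)
    (hne : C ≠ 0) (c2 : C 2 = 0) (c3 : C 3 = 0) (c4 : C 4 = 0) (c5 : C 5 = 0) :
    C 0 ≠ 0 ∧ C 1 ≠ 0 := by
  constructor
  · intro c0
    have c1 : C 1 ≠ 0 := by
      intro c1
      apply hne
      funext i
      fin_cases i
      · exact c0
      · exact c1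
      · exact c2
      · exact c3
      · exact c4
      · exact c5
    apply h3 1 (by decide)
    have : Pi.single (1 : Fin 6) (1 : k) = (C 1)⁻¹ • C := by
      funext i
      fin_cases i
      · simp [c0]
      · simp [c1]
      · simp [c2]
      · simp [c3]
      · simp [c4]
      · simp [c5]
    rw [this]
    exact U.smul_mem _ hC
  · intro c1
    have c0 : C 0 ≠ 0 := by
      intro c0
      apply hne
      funext i
      fin_cases i
      · exact c0
      · exact c1
      · exact c2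
      · exact c3
      · exact c4
      · exact c5
    apply h3 0 (by decide)
    have : Pi.single (0 : Fin 6) (1 : k) = (C 0)⁻¹ • C := by
      funext i
      fin_cases i
      · simp [c0]
      · simp [c1]
      · simp [c2]
      · simp [c3]
      · simp [c4]
      · simp [c5]
    rw [this]
    exact U.smul_mem _ hC

/-- the minimum of the weights on such an element -/
theorem exc (C : Fin 6 → k) (κ p p' q q' : ℝ) (c0 : C 0 ≠ 0) (c1 : C 1 ≠ 0) (c2 : C 2 = 0)
    (c3 : C 3 = 0) (c4 : C 4 = 0) (c5 : C 5 = 0) (h : ExC C (WB p p' q q') κ) :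
    |p + p' - (q + q')| ≤ κ := by
  have key : ∀ j : Fin 6, C j ≠ 0 → j = 0 ∨ j = 1 := by
    intro j hj
    fin_cases j
    · exact Or.inl rfl
    · exact Or.inr rfl
    · exact absurd c2 hj
    · exact absurd c3 hj
    · exact absurd c4 hj
    · exact absurd c5 hj
  obtain ⟨j, hj1, hj2, hj3⟩ := h 0 c0
  obtain ⟨l, hl1, hl2, hl3⟩ := h 1 c1
  have ej : j = 1 := (key j hj2).resolve_left hj1
  have el : l = 0 := (key l hl2).resolve_right hl1
  subst ej
  subst el
  have w0 : WB p p' q q' 0 = p + p' := rfl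
  have w1 : WB p p' q q' 1 = q + q' := rfl
  rw [w0, w1] at hj3 hl3
  rw [abs_le]
  constructor <;> linarith

end K2BM

open K2BM

theorem specK2B (hKB1 : SpecKB1) (hKB2 : SpecKB2) (hKB3 : SpecKB3) (hKB4 : SpecKB4)
    (hKB5 : SpecKB5) : SpecK2B := by
  classical
  intro k _ _ U hU h3 hlast
  by_cases hD : ∃ D ∈ U, D 2 ≠ 0
  · obtain ⟨D₀, hD₀, hd⟩ := hD
    -- scale
    obtain ⟨D, hDU, hD2⟩ : ∃ D ∈ U, D 2 = 1 :=
      ⟨(D₀ 2)⁻¹ • D₀, U.smul_mem _ hD₀, by simp [hd]⟩
    obtain ⟨C, hCU, hC0, hC2⟩ := exists_zero U hU 2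
    by_cases hc : C 3 ≠ 0 ∨ C 4 ≠ 0 ∨ C 5 ≠ 0
    · refine ⟨∅, fun C hC => absurd hC (Finset.notMem_empty C), ?_⟩
      intro κ p p' q q' h0 hp hp' hq hq' _
      exact hKB2 k U C D κ p p' q q' h0 hp hp' hq hq' hCU hDU hC2 hD2 hc
    · push Not at hc
      obtain ⟨c3, c4, c5⟩ := hc
      obtain ⟨c0, c1⟩ := two U h3 C hCU hC0 hC2 c3 c4 c5
      refine ⟨{C}, fun C' hC' => ?_, ?_⟩
      · rw [Finset.mem_singleton] at hC'
        subst hC'
        exact ⟨hCU, c3, c4, c5⟩
      · intro κ p p' q q' h0 hp hp' hq hq' hex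
        have habs := exc C κ p p' q q' c0 c1 hC2 c3 c4 c5 (hex C (Finset.mem_singleton_self C))
        have hC'U : (C 0)⁻¹ • C ∈ U := U.smul_mem _ hCU
        refine hKB1 k U ((C 0)⁻¹ • C) (D - D 0 • ((C 0)⁻¹ • C)) κ p p' q q' h0 hp hp' hq hq'
          hC'U (U.sub_mem hDU (U.smul_mem _ hC'U)) ?_ ?_ ?_ ?_ habs
        · simp [c0]
        · simp [hC2]
        · simp [c0]
        · simp [hC2, hD2]
  · push Not at hD
    obtain ⟨E, hEU, hE⟩ := hlast
    have hE2 : E 2 = 0 := hD E hEU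
    have hE34 : E 3 ≠ 0 ∨ E 4 ≠ 0 := hE.resolve_left (fun h => h hE2)
    by_cases hA : ∃ C ∈ U, C ≠ 0 ∧ C 3 = 0 ∧ C 4 = 0 ∧ C 5 = 0
    · obtain ⟨C, hCU, hC0, c3, c4, c5⟩ := hA
      have hC2 := hD C hCU
      obtain ⟨c0, c1⟩ := two U h3 C hCU hC0 hC2 c3 c4 c5
      refine ⟨{C}, fun C' hC' => ?_, ?_⟩
      · rw [Finset.mem_singleton] at hC'
        subst hC'
        exact ⟨hCU, c3, c4, c5⟩
      · intro κ p p' q q' h0 hp hp' hq hq' hex
        have habs := exc C κ p p' q q' c0 c1 hC2 c3 c4 c5 (hex C (Finset.mem_singleton_self C))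
        have hC'U : (C 0)⁻¹ • C ∈ U := U.smul_mem _ hCU
        refine hKB3 k U ((C 0)⁻¹ • C) (E - E 0 • ((C 0)⁻¹ • C)) κ p p' q q' h0 hp hp' hq hq'
          hC'U (U.sub_mem hEU (U.smul_mem _ hC'U)) ?_ ?_ ?_ ?_ ?_ ?_ ?_ ?_ habs
        · simp [c0]
        · simp [hC2]
        · simp [c3]
        · simp [c4]
        · simp [c5]
        · simp [c0]
        · simp [hC2, hE2]
        · simpa [c3, c4] using hE34
    · push Not at hA
      by_cases hB : ∃ C ∈ U, C ≠ 0 ∧ C 3 = 0 ∧ C 4 = 0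
      · obtain ⟨C, hCU, hC0, c3, c4⟩ := hB
        have hC2 := hD C hCU
        have c5 : C 5 ≠ 0 := hA C hCU hC0 c3 c4
        refine ⟨∅, fun C hC => absurd hC (Finset.notMem_empty C), ?_⟩
        intro κ p p' q q' h0 hp hp' hq hq' _
        refine hKB4 k U ((C 5)⁻¹ • C) E κ p p' q q' h0 hp hp' hq hq' (U.smul_mem _ hCU) hEU
          ?_ ?_ ?_ ?_ hE2 hE34
        · simp [hC2]
        · simp [c3]
        · simp [c4]
        · simp [c5]
      · push Not at hB
        obtain ⟨C, hCU, hC0, c4⟩ := exists_zero U hU 4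
        obtain ⟨D, hDU, hD0, d3⟩ := exists_zero U hU 3
        have c3 : C 3 ≠ 0 := fun h => hB C hCU hC0 h c4
        have d4 : D 4 ≠ 0 := hB D hDU hD0 d3
        refine ⟨∅, fun C hC => absurd hC (Finset.notMem_empty C), ?_⟩
        intro κ p p' q q' h0 hp hp' hq hq' _
        refine hKB5 k U ((C 3)⁻¹ • C) ((D 4)⁻¹ • D) κ p p' q q' h0 hp hp' hq hq'
          (U.smul_mem _ hCU) (U.smul_mem _ hDU) ?_ ?_ ?_ ?_ ?_ ?_
        · simp [hD C hCU]
        · simp [c3]
        · simp [c4]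
        · simp [hD D hDU]
        · simp [d3]
        · simp [d4]

end Pool.Agent.Lib.MP_d0e829_nt.SS
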