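import Pool.Agent.Lib.MP_d0e829_nt.SS.UBP

/-!
# K2F: the local information for `dim U = 2`, uniformly
-/

set_option autoImplicit false

open NumberField MvPolynomial

namespace Pool.Agent.Lib.MP_d0e829_nt.SS

open scoped Classical

namespace K2FM

lemma ExC_mono {k : Type} [Field k] {c : Fin 6 → k} {W : Fin 6 → ℝ} {κ κ' : ℝ}
    (h : ExC c W κ) (hle : κ ≤ κ') : ExC c W κ' := by
  intro i hi
  obtain ⟨j, h1, h2, h3⟩ := h i hi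
  exact ⟨j, h1, h2, by linarith⟩

lemma WA_nonneg {p q z z' : ℝ} (hp : 0 ≤ p) (hq : 0 ≤ q) (hz : 0 ≤ z) (hz' : 0 ≤ z') (i : Fin 6) :
    0 ≤ WA p q z z' i := by
  fin_cases i
  · exact hp
  · exact hq
  · exact add_nonneg hz hz'
  · exact le_min hz' (add_nonneg hz hq)
  · exact le_min hz (add_nonneg hp hz')
  · exact le_refl 0

lemma WB_nonneg {p p' q q' : ℝ} (hp : 0 ≤ p) (hp' : 0 ≤ p') (hq : 0 ≤ q) (hq' : 0 ≤ q')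
    (i : Fin 6) : 0 ≤ WB p p' q q' i := by
  fin_cases i
  · exact add_nonneg hp hp'
  · exact add_nonneg hq hq'
  · exact le_refl 0
  · exact le_min hq hq'
  · exact le_min hp hp'
  · exact le_min (add_nonneg hp hq') (add_nonneg hq hp')

/-- a uniform constant of `EXA` for finitely many functionals -/
lemma exa_fin (hEXA : SpecEXA) {k : Type} [Field k] [NumberField k] (S : Finset (Place k))
    (B : Matrix (Fin 3) (Fin 3) k) (F : Finset (Fin 6 → k))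
    (hF : ∀ c ∈ F, c 3 = 0 ∧ c 4 = 0 ∧ c 5 = 0) :
    ∃ κ : ℝ, 0 ≤ κ ∧ ∀ c ∈ F, ∀ v ∈ S, ∀ (f : Fin 6 → k) (W : Fin 6 → ℝ) (a : ℝ), f ≠ 0 →
      ∑ i, c i * (S2 B i ⬝ᵥ f) = 0 → (∀ i, Ge v (S2 B i) f (W i - a)) →
      (∀ i : Fin 6, (i : ℕ) < 3 → Le v (S2 B i) f (W i + a)) → ExC c W (κ + 2 * a) := by
  have h1 : ∀ c : F, ∃ κ : ℝ, 0 ≤ κ ∧ ∀ v ∈ S, ∀ (f : Fin 6 → k) (W : Fin 6 → ℝ) (a : ℝ), f ≠ 0 →
      ∑ i, (c : Fin 6 → k) i * (S2 B i ⬝ᵥ f) = 0 → (∀ i, Ge v (S2 B i) f (W i - a)) →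
      (∀ i : Fin 6, (i : ℕ) < 3 → Le v (S2 B i) f (W i + a)) →
      ExC (c : Fin 6 → k) W (κ + 2 * a) := fun c =>
    hEXA k S B c (hF c c.2).1 (hF c c.2).2.1 (hF c c.2).2.2
  choose κ hκ0 hκ using h1
  refine ⟨∑ c, κ c, Finset.sum_nonneg fun c _ => hκ0 c, ?_⟩
  intro c hc v hv f W a hf h0 hge hle
  refine ExC_mono (hκ ⟨c, hc⟩ v hv f W a hf h0 hge hle) ?_
  have h2 : κ ⟨c, hc⟩ ≤ ∑ c, κ c :=
    Finset.single_le_sum (f := κ) (fun c _ => hκ0 c) (Finset.mem_univ _)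
  linarith

/-- the claim for one frame -/
lemma one (hK2A : SpecK2A) (hK2B : SpecK2B) (hEXA : SpecEXA) (hNPR : SpecNPR)
    (k : Type) [Field k] [NumberField k] (S : Finset (Place k)) (q : ℕ)
    (ℓ : Fin q → Fin 3 → k) (BB : Finset (Matrix (Fin 3) (Fin 3) k)) (C ε : ℝ) (Ω : Type)
    (f : Ω → Fin 6 → k) (T : Ω → Place k → ℝ) (Sm : Set Ω → Prop) (A : Set Ω)
    (hS2 : ∀ B ∈ BB, (S2 B).det ≠ 0) (hSt : Stg S ℓ BB C ε f T Sm A)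
    (hfin : Module.finrank k (UU f A) = 2) (B : Matrix (Fin 3) (Fin 3) k) (hB : B ∈ BB) :
    ∃ κ₀ : ℝ, 0 ≤ κ₀ ∧ ∀ κ : ℝ, κ₀ ≤ κ → ∀ ω ∈ A, ∀ v ∈ S,
      (FrA v B (f ω) (T ω v) C ∨ FrB v B (f ω) (T ω v) C) → ∃ (W : Fin 6 → ℝ) (T₀ : ℝ),
        (∀ i, 0 ≤ W i) ∧ (∀ i, Ge v (S2 B i) (f ω) (W i - C)) ∧ T ω v ≤ T₀ + C ∧
        K2C (UB (UU f A) B) W T₀ (10 * κ) := by
  obtain ⟨hn0, hnA1, hnA2, hnB⟩ :=
    hNPR k (UU f A) B (hSt.det B hB) (hS2 B hB) hfin hSt.sqn hSt.bin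
  obtain ⟨hr, -, hmem⟩ := specUBP k (UU f A) B (hS2 B hB)
  rw [hfin] at hr
  obtain ⟨F, hF, hFA⟩ := hK2A k (UB (UU f A) B) hr hn0 hnA1 hnA2
  obtain ⟨F', hF', hFB⟩ := hK2B k (UB (UU f A) B) hr hn0 hnB
  obtain ⟨κ₁, hκ₁, hκ₁'⟩ := exa_fin hEXA S B F (fun c hc => (hF c hc).2)
  obtain ⟨κ₂, hκ₂, hκ₂'⟩ := exa_fin hEXA S B F' (fun c hc => (hF' c hc).2)
  have hC : 0 ≤ |C| := abs_nonneg C
  have hC' : C ≤ |C| := le_abs_self C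
  have hzero : ∀ c ∈ UB (UU f A) B, ∀ ω ∈ A, ∑ i, c i * (S2 B i ⬝ᵥ f ω) = 0 := by
    intro c hc ω hω
    have h1 := (hmem c).1 hc ω hω
    rw [sum_dotProduct] at h1
    rw [← h1]
    exact Finset.sum_congr rfl fun i _ => by rw [smul_dotProduct, smul_eq_mul]
  refine ⟨κ₁ + κ₂ + 2 * |C|, by linarith, ?_⟩
  intro κ hκ ω hω v hv hfr
  have hκ0 : 0 ≤ κ := by linarith
  rcases hfr with hfr | hfr
  · obtain ⟨p, r, z, z', hp, hr', hz, hz', hT, hge, hle⟩ := hfr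
    refine ⟨WA p r z z', p + r + z + z', WA_nonneg hp hr' hz hz', hge, hT,
      hFA κ p r z z' hκ0 hp hr' hz hz' ?_⟩
    intro c hc
    refine ExC_mono (hκ₁' c hc v hv (f ω) _ C (hSt.ne ω hω) (hzero c (hF c hc).1 ω hω) hge hle) ?_
    linarith
  · obtain ⟨p, p', r, r', hp, hp', hr', hr'', hT, hge, hle⟩ := hfr
    refine ⟨WB p p' r r', p + p' + r + r', WB_nonneg hp hp' hr' hr'', hge, hT,
      hFB κ p p' r r' hκ0 hp hp' hr' hr'' ?_⟩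
    intro c hc
    refine ExC_mono
      (hκ₂' c hc v hv (f ω) _ C (hSt.ne ω hω) (hzero c (hF' c hc).1 ω hω) hge hle) ?_
    linarith

end K2FM

open K2FM in
theorem specK2F (hK2A : SpecK2A) (hK2B : SpecK2B) (hEXA : SpecEXA) (hNPR : SpecNPR) :
    SpecK2F := by
  intro k _ _ S q ℓ BB C ε Ω f T Sm A hS2 hSt hfin
  have h1 : ∀ B : BB, ∃ κ₀ : ℝ, 0 ≤ κ₀ ∧ ∀ κ : ℝ, κ₀ ≤ κ → ∀ ω ∈ A, ∀ v ∈ S,
      (FrA v B (f ω) (T ω v) C ∨ FrB v B (f ω) (T ω v) C) → ∃ (W : Fin 6 → ℝ) (T₀ : ℝ),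
        (∀ i, 0 ≤ W i) ∧ (∀ i, Ge v (S2 (B : Matrix (Fin 3) (Fin 3) k) i) (f ω) (W i - C)) ∧
        T ω v ≤ T₀ + C ∧ K2C (UB (UU f A) B) W T₀ (10 * κ) := fun B =>
    one hK2A hK2B hEXA hNPR k S q ℓ BB C ε Ω f T Sm A hS2 hSt hfin B B.2
  choose κ hκ0 hκ using h1
  refine ⟨10 * ∑ B, κ B, by
    have := Finset.sum_nonneg (s := Finset.univ) (f := κ) fun B _ => hκ0 B
    linarith, ?_⟩
  intro ω hω v hv
  obtain ⟨B, hB, hfr⟩ := hSt.fr ω hω v hv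
  have hle : κ ⟨B, hB⟩ ≤ ∑ B, κ B :=
    Finset.single_le_sum (f := κ) (fun B _ => hκ0 B) (Finset.mem_univ _)
  have hfr' : FrA v B (f ω) (T ω v) C ∨ FrB v B (f ω) (T ω v) C := by
    rcases hfr with ⟨i, j, l, -, -, -, -, -, -, h⟩ | ⟨i, j, -, -, -, h, -⟩ |
      ⟨i, j, l, -, -, -, -, -, -, h⟩
    · exact Or.inl h
    · exact Or.inl h
    · exact Or.inr h
  obtain ⟨W, T₀, h⟩ := hκ ⟨B, hB⟩ _ hle ω hω v hv hfr'
  exact ⟨B, hB, W, T₀, h⟩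

end Pool.Agent.Lib.MP_d0e829_nt.SS
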