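import Pool.Agent.Lib.MP_d0e829_nt.SS.SpecC2

set_option autoImplicit false

open NumberField MvPolynomial

namespace Pool.Agent.Lib.MP_d0e829_nt.SS

open scoped Classical

namespace K2GM

theorem X_dvd_of {k : Type} [Field k] (G : MvPolynomial (Fin 4) k) (j : Fin 4)
    (h : ∀ s ∈ G.support, s j ≠ 0) : X j ∣ G := by
  rw [X_dvd_iff_modMonomial_eq_zero]
  ext s
  rw [coeff_zero]
  by_cases hs : Finsupp.single j 1 ≤ s
  · exact coeff_modMonomial_of_le _ hs
  · rw [coeff_modMonomial_of_not_le _ hs]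
    by_contra hne
    have h1 := h s (mem_support_iff.2 hne)
    apply hs
    rw [Finsupp.single_le_iff]
    omega

theorem exists_mono {k : Type} [Field k] {g : ℕ} {G : MvPolynomial (Fin 4) k} (hg : 2 ≤ g)
    (hh : G.IsHomogeneous g) (hi : Irreducible G) (j : Fin 4) : ∃ s ∈ G.support, s j = 0 := by
  by_contra hcon
  push Not at hcon
  obtain ⟨H, hH⟩ := X_dvd_of G j hcon
  have hX : ¬ IsUnit (X j : MvPolynomial (Fin 4) k) := by
    intro hu
    have h1 : IsUnit (MvPolynomial.eval (fun _ : Fin 4 => (0 : k)) (X j)) := hu.map _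
    rw [eval_X] at h1
    exact not_isUnit_zero h1
  rcases hi.isUnit_or_isUnit hH with h1 | h1
  · exact hX h1
  · have h2 : G.totalDegree = g := hh.totalDegree hi.ne_zero
    have h3 : H.totalDegree = 0 := by
      obtain ⟨K, hK⟩ := h1.exists_right_inv
      have hH0 : H ≠ 0 := h1.ne_zero
      have hK0 : K ≠ 0 := by
        rintro rfl
        rw [mul_zero] at hK
        exact zero_ne_one hK
      have h4 := MvPolynomial.totalDegree_mul_of_isDomain hH0 hK0
      rw [hK, totalDegree_one] at h4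
      omega
    have h4 := MvPolynomial.totalDegree_mul (X j : MvPolynomial (Fin 4) k) H
    rw [← hH, h2, h3, totalDegree_X] at h4
    omega

theorem wt_nonneg {W : Fin 4 → ℝ} (hW : ∀ j, 0 ≤ W j) (s : Fin 4 →₀ ℕ) : 0 ≤ wt W s := by
  unfold wt
  exact Finset.sum_nonneg fun j _ => mul_nonneg (Nat.cast_nonneg _) (hW j)

theorem wt_add (W : Fin 4 → ℝ) (s t : Fin 4 →₀ ℕ) : wt W (s + t) = wt W s + wt W t := by
  unfold wt
  rw [← Finset.sum_add_distrib]
  refine Finset.sum_congr rfl fun j _ => ?_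
  rw [Finsupp.add_apply]
  push_cast
  ring

end K2GM

open K2GM

theorem specK2G : SpecK2G := by
  intro k _ g G P μ W T κ hg hh hi hd hW hκ hμ hor
  have hg2 : (2 : ℝ) ≤ g := by exact_mod_cast hg
  have hg0 : (0 : ℝ) < g := by linarith
  have hμ0 := wt_nonneg hW μ
  rcases hor with ⟨s, hs, hsw⟩ | ⟨j₀, hj₀⟩
  · obtain ⟨H, rfl⟩ := hd
    have h1 := MvPolynomial.support_mul G H (mem_support_iff.2 hs)
    obtain ⟨s₁, hs₁, s₂, hs₂, rfl⟩ := Finset.mem_add.1 h1
    have h2 := hμ s₁ hs₁
    have h3 : wt W (s₁ + s₂) ≤ 2 * (∑ j, W j - T / 2) + κ := hsw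
    rw [wt_add] at h3
    have h4 := wt_nonneg hW s₂
    have h5 : wt W μ / g ≤ wt W μ / 2 := div_le_div_of_nonneg_left hμ0 (by norm_num) hg2
    linarith
  · obtain ⟨s, hs, hs0⟩ := exists_mono hg hh hi j₀
    have h1 := hμ s hs
    have hsum : ∑ j, s j = g := by
      have h2 := hh (mem_support_iff.1 hs)
      rw [← h2, Finsupp.weight_apply, Finsupp.sum_fintype _ _ (fun i => by simp)]
      simp
    have h2 : wt W s ≤ g * (∑ j, W j - T / 2 + κ) := by
      have h3 : wt W s ≤ ∑ j, (s j : ℝ) * (∑ j, W j - T / 2 + κ) := by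
        unfold wt
        refine Finset.sum_le_sum fun j _ => ?_
        by_cases hj : j = j₀
        · rw [hj, hs0]
          simp
        · exact mul_le_mul_of_nonneg_left (hj₀ j hj) (Nat.cast_nonneg _)
      rw [← Finset.sum_mul] at h3
      have h4 : (∑ j, (s j : ℝ)) = g := by exact_mod_cast hsum
      rwa [h4] at h3
    have h3 : wt W μ / g ≤ ∑ j, W j - T / 2 + κ := by
      rw [div_le_iff₀ hg0]
      linarith
    linarith

end Pool.Agent.Lib.MP_d0e829_nt.SS
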