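import Pool.Agent.Lib.MP_d0e829_nt.SS.SpecC2

/-!
# KA0: combinatorics of frames of type A, two special conics
-/

set_option autoImplicit false

open NumberField MvPolynomial

namespace Pool.Agent.Lib.MP_d0e829_nt.SS

open scoped Classical

namespace KA0M

/-- the four remaining coordinates -/
def e : Fin 4 → Fin 6 := ![2, 3, 4, 5]

lemma e0 : e 0 = 2 := rfl
lemma e1 : e 1 = 3 := rfl
lemma e2 : e 2 = 4 := rfl
lemma e3 : e 3 = 5 := rfl

lemma e_inj : Function.Injective e := by decide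

lemma e_ne : ∀ j, e j ≠ 0 ∧ e j ≠ 1 := by decide

end KA0M

open KA0M in
theorem specKA0 (hCOF : SpecCOF) (hELM : SpecELM) : SpecKA0 := by
  intro k _ U C D κ p q z z' hκ hp hq hz hz' hC hD C0 C1 C3 C4 C5 D0 D1 D3 D4 D5 hpt hqt
  obtain ⟨h1, h2⟩ := hELM k U 0 1 C D e (by decide) hC hD C0 C1 D0 D1 e_inj e_ne
  refine ⟨e, NE 0 1 C D e, e_inj, h1, h2, Or.inl ?_⟩
  refine ⟨Finsupp.single 1 1 + Finsupp.single 2 1 + Finsupp.single 3 1, ?_, ?_⟩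
  · rw [(hCOF k (NE 0 1 C D e)).2.1 1 2 3 (by decide) (by decide) (by decide)]
    have n0 : ∀ j, NE 0 1 C D e 0 j = - C (e j) := fun j => by simp [NE]
    have n1 : ∀ j, NE 0 1 C D e 1 j = - D (e j) := fun j => by simp [NE]
    have n2 : NE 0 1 C D e 2 1 = 0 ∧ NE 0 1 C D e 2 2 = 0 ∧ NE 0 1 C D e 2 3 = 0 := by
      refine ⟨?_, ?_, ?_⟩ <;> simp [NE, e]
    have n3 : NE 0 1 C D e 3 1 = 1 ∧ NE 0 1 C D e 3 2 = 0 ∧ NE 0 1 C D e 3 3 = 0 := by
      refine ⟨?_, ?_, ?_⟩ <;> simp [NE, e]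
    have n4 : NE 0 1 C D e 4 1 = 0 ∧ NE 0 1 C D e 4 2 = 1 ∧ NE 0 1 C D e 4 3 = 0 := by
      refine ⟨?_, ?_, ?_⟩ <;> simp [NE, e]
    have n5 : NE 0 1 C D e 5 1 = 0 ∧ NE 0 1 C D e 5 2 = 0 ∧ NE 0 1 C D e 5 3 = 1 := by
      refine ⟨?_, ?_, ?_⟩ <;> simp [NE, e]
    simp only [c111, n0, n1, n2.1, n2.2.1, n2.2.2, n3.1, n3.2.1, n3.2.2, n4.1, n4.2.1, n4.2.2,
      n5.1, n5.2.1, n5.2.2, e1, e2, e3, C3, C4, C5, D3, D4, D5]
    norm_num
  · have s0 : (Finsupp.single (1 : Fin 4) 1 + Finsupp.single 2 1 + Finsupp.single 3 1 : Fin 4 →₀ ℕ) 0 = 0 := by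
      simp
    have s1 : (Finsupp.single (1 : Fin 4) 1 + Finsupp.single 2 1 + Finsupp.single 3 1 : Fin 4 →₀ ℕ) 1 = 1 := by
      simp
    have s2 : (Finsupp.single (1 : Fin 4) 1 + Finsupp.single 2 1 + Finsupp.single 3 1 : Fin 4 →₀ ℕ) 2 = 1 := by
      simp
    have s3 : (Finsupp.single (1 : Fin 4) 1 + Finsupp.single 2 1 + Finsupp.single 3 1 : Fin 4 →₀ ℕ) 3 = 1 := by
      simp
    rw [Fin.sum_univ_four, Fin.sum_univ_four, s0, s1, s2, s3, e0, e1, e2, e3]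
    have w2 : WA p q z z' 2 = z + z' := rfl
    have w3 : WA p q z z' 3 = min z' (z + q) := rfl
    have w4 : WA p q z z' 4 = min z (p + z') := rfl
    have w5 : WA p q z z' 5 = 0 := rfl
    rw [w2, w3, w4, w5]
    rw [abs_le] at hpt hqt
    have m3 : z' - κ ≤ min z' (z + q) := le_min (by linarith) (by linarith)
    have m4 : z - κ ≤ min z (p + z') := le_min (by linarith) (by linarith)
    push_cast
    linarith

end Pool.Agent.Lib.MP_d0e829_nt.SS
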