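import Pool.Agent.Lib.MP_d0e829_nt.SS.SpecC2

/-!
# KA1: the case `C = (1, c₁, c₂, 0, 0, 0)`, `|p - q| ≤ κ`
-/

set_option autoImplicit false

open NumberField MvPolynomial

namespace Pool.Agent.Lib.MP_d0e829_nt.SS

open scoped Classical

namespace KA1M

lemma coef (hCOF : SpecCOF) {k : Type} [Field k] (N : Fin 6 → Fin 4 → k) (h0 : N 0 3 = 0)
    (h1 : N 1 3 = 0) (h2 : N 2 3 = 0) (h3 : N 3 3 = 0) (h4 : N 4 3 = 0) (h5 : N 5 3 = 1)
    (h51 : N 5 1 = 0) (h21 : N 2 1 = 1) :
    (Dl N).coeff (Finsupp.single (1 : Fin 4) 1 + Finsupp.single (3 : Fin 4) 2) ≠ 0 := by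
  rw [(hCOF k N).1 1 3 (by decide)]
  simp only [c12, h0, h1, h2, h3, h4, h5, h51, h21]
  ring_nf
  exact neg_ne_zero.2 one_ne_zero

lemma wsum (W : Fin 4 → ℝ) :
    ∑ j, (((Finsupp.single (1 : Fin 4) 1 + Finsupp.single (3 : Fin 4) 2 : Fin 4 →₀ ℕ) j : ℕ) : ℝ) *
      W j = W 1 + 2 * W 3 := by
  rw [Fin.sum_univ_four]
  simp [Finsupp.single_apply]

end KA1M

open KA1M in
theorem specKA1 (hCOF : SpecCOF) (hELM : SpecELM) : SpecKA1 := by
  intro k _ U C D κ p q z z' hκ hp hq hz hz' hC hD hC0 hC3 hC4 hC5 hD0 hD345 hpq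
  have hpq' := abs_le.1 hpq
  have hμ0 : 0 ≤ min z (p + z') := le_min hz (by linarith)
  have hν0 : 0 ≤ min z' (z + q) := le_min hz' (by linarith)
  by_cases hD5 : D 5 = 0
  · by_cases hD3 : D 3 = 0
    · have hD4 : D 4 ≠ 0 := by
        rcases hD345 with h | h | h
        · exact absurd hD3 h
        · exact h
        · exact absurd hD5 h
      obtain ⟨e1, e2⟩ := hELM k U 0 4 C ((D 4)⁻¹ • D) ![1, 2, 3, 5] (by decide) hC
        (U.smul_mem _ hD) hC0 hC4 (by simp [hD0]) (by simp [hD4]) (by decide) (by decide)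
      refine ⟨![1, 2, 3, 5], _, by decide, e1, e2, Or.inl
        ⟨Finsupp.single (1 : Fin 4) 1 + Finsupp.single (3 : Fin 4) 2, ?_, ?_⟩⟩
      · apply coef hCOF <;> simp [NE, hC5, hD5]
      · rw [wsum (fun j => WA p q z z' (![1, 2, 3, 5] j)), Fin.sum_univ_four]
        simp [WA]
        linarith
    · obtain ⟨e1, e2⟩ := hELM k U 0 3 C ((D 3)⁻¹ • D) ![1, 2, 4, 5] (by decide) hC
        (U.smul_mem _ hD) hC0 hC3 (by simp [hD0]) (by simp [hD3]) (by decide) (by decide)
      refine ⟨![1, 2, 4, 5], _, by decide, e1, e2, Or.inl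
        ⟨Finsupp.single (1 : Fin 4) 1 + Finsupp.single (3 : Fin 4) 2, ?_, ?_⟩⟩
      · apply coef hCOF <;> simp [NE, hC5, hD5]
      · rw [wsum (fun j => WA p q z z' (![1, 2, 4, 5] j)), Fin.sum_univ_four]
        simp [WA]
        linarith
  · obtain ⟨e1, e2⟩ := hELM k U 0 5 C ((D 5)⁻¹ • D) ![1, 2, 3, 4] (by decide) hC
      (U.smul_mem _ hD) hC0 hC5 (by simp [hD0]) (by simp [hD5]) (by decide) (by decide)
    refine ⟨![1, 2, 3, 4], _, by decide, e1, e2, Or.inr ?_⟩
    have hsum : ∑ j, WA p q z z' (![1, 2, 3, 4] j) =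
        q + (z + z') + min z' (z + q) + min z (p + z') := by
      rw [Fin.sum_univ_four]
      simp [WA]
    rw [hsum]
    have w0 : WA p q z z' (![1, 2, 3, 4] 0) = q := by simp [WA]
    have w1 : WA p q z z' (![1, 2, 3, 4] 1) = z + z' := by simp [WA]
    have w2 : WA p q z z' (![1, 2, 3, 4] 2) = min z' (z + q) := by simp [WA]
    have w3 : WA p q z z' (![1, 2, 3, 4] 3) = min z (p + z') := by simp [WA]
    have key : q ≤ q + (z + z') + min z' (z + q) + min z (p + z') - (p + q + z + z') / 2 + 10 * κ ∨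
        z + z' ≤ q + (z + z') + min z' (z + q) + min z (p + z') - (p + q + z + z') / 2 +
          10 * κ := by
      rcases min_choice z' (z + q) with h | h
      · rcases min_choice z (p + z') with h' | h'
        · right
          rw [h, h']
          linarith
        · left
          rw [h']
          linarith
      · left
        rw [h]
        linarith
    rcases key with h | h
    · refine ⟨1, fun j hj => ?_⟩
      fin_cases j
      · exact w0.le.trans h
      · exact absurd rfl hj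
      · refine w2.le.trans ?_
        linarith
      · refine w3.le.trans ?_
        linarith
    · refine ⟨0, fun j hj => ?_⟩
      fin_cases j
      · exact absurd rfl hj
      · exact w1.le.trans h
      · refine w2.le.trans ?_
        linarith
      · refine w3.le.trans ?_
        linarith

end Pool.Agent.Lib.MP_d0e829_nt.SS
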