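import Pool.Agent.Lib.MP_d0e829_nt.SS.SpecC2

/-!
# MP_d0e829_nt, module KA2
-/

set_option autoImplicit false

open NumberField MvPolynomial

namespace Pool.Agent.Lib.MP_d0e829_nt.SS

open scoped Classical

theorem specKA2 (hCOF : SpecCOF) (hELM : SpecELM) : SpecKA2 := by
  intro k _ U C D κ p q z z' hκ hp hq hz hz' hC hD C0 C1 C3 C4 C5 D0 h345 h135 hpt
  have hpt' := abs_le.1 hpt
  have hν : 0 ≤ min z' (z + q) := le_min hz' (by linarith)
  have hμ : 0 ≤ min z (p + z') := le_min hz (by linarith)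
  by_cases h5 : D 5 = 0
  · by_cases h4 : D 4 = 0
    · have h3 : D 3 ≠ 0 := by
        rcases h345 with h | h | h
        · exact h
        · exact absurd h4 h
        · exact absurd h5 h
      let D' : Fin 6 → k := (D 3)⁻¹ • D
      have hD' : D' ∈ U := U.smul_mem _ hD
      have d0 : D' 0 = 0 := by simp [D', D0]
      have d3 : D' 3 = 1 := by simp [D', h3]
      have d4 : D' 4 = 0 := by simp [D', h4]
      have d5 : D' 5 = 0 := by simp [D', h5]
      obtain ⟨e1, e2⟩ := hELM k U 0 3 C D' ![1, 2, 4, 5] (by decide) hC hD' C0 C3 d0 d3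
        (by decide) (by decide)
      refine ⟨![1, 2, 4, 5], NE 0 3 C D' ![1, 2, 4, 5], by decide, e1, e2, Or.inl
        ⟨Finsupp.single 0 1 + Finsupp.single 2 2, ?_, ?_⟩⟩
      · rw [(hCOF k _).1 0 2 (by decide)]
        simp [NE, c12, C1, C4, d4]
      · simp [Fin.sum_univ_four, Finsupp.single_apply, WA]
        linarith
    · let D' : Fin 6 → k := (D 4)⁻¹ • D
      have hD' : D' ∈ U := U.smul_mem _ hD
      have d0 : D' 0 = 0 := by simp [D', D0]
      have d4 : D' 4 = 1 := by simp [D', h4]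
      have d5 : D' 5 = 0 := by simp [D', h5]
      obtain ⟨e1, e2⟩ := hELM k U 0 4 C D' ![1, 2, 3, 5] (by decide) hC hD' C0 C4 d0 d4
        (by decide) (by decide)
      by_cases h3 : D 3 = 0
      · have h1 : D 1 ≠ 0 := by
          rcases h135 with h | h | h
          · exact h
          · exact absurd h3 h
          · exact absurd h5 h
        have d1 : D' 1 ≠ 0 := by simp [D', h4, h1]
        refine ⟨![1, 2, 3, 5], NE 0 4 C D' ![1, 2, 3, 5], by decide, e1, e2, Or.inl
          ⟨Finsupp.single 0 1 + Finsupp.single 2 1 + Finsupp.single 3 1, ?_, ?_⟩⟩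
        · rw [(hCOF k _).2.1 0 2 3 (by decide) (by decide) (by decide)]
          simp [NE, c111, C1, C3, C5, d1, d5]
        · simp [Fin.sum_univ_four, Finsupp.single_apply, WA]
          linarith
      · have d3 : D' 3 ≠ 0 := by simp [D', h4, h3]
        refine ⟨![1, 2, 3, 5], NE 0 4 C D' ![1, 2, 3, 5], by decide, e1, e2, Or.inl
          ⟨Finsupp.single 3 1 + Finsupp.single 2 2, ?_, ?_⟩⟩
        · rw [(hCOF k _).1 3 2 (by decide)]
          simp [NE, c12, C3, C5, d3, d5]
        · simp [Fin.sum_univ_four, Finsupp.single_apply, WA]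
          linarith
  · let D' : Fin 6 → k := (D 5)⁻¹ • D
    have hD' : D' ∈ U := U.smul_mem _ hD
    have d0 : D' 0 = 0 := by simp [D', D0]
    have d5 : D' 5 = 1 := by simp [D', h5]
    obtain ⟨e1, e2⟩ := hELM k U 0 5 C D' ![1, 2, 3, 4] (by decide) hC hD' C0 C5 d0 d5
      (by decide) (by decide)
    refine ⟨![1, 2, 3, 4], NE 0 5 C D' ![1, 2, 3, 4], by decide, e1, e2, Or.inl
      ⟨Finsupp.single 0 1 + Finsupp.single 3 2, ?_, ?_⟩⟩
    · rw [(hCOF k _).1 0 3 (by decide)]
      simp [NE, c12, C1, C4]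
    · simp [Fin.sum_univ_four, Finsupp.single_apply, WA]
      linarith

end Pool.Agent.Lib.MP_d0e829_nt.SS
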