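import Pool.Agent.Lib.MP_d0e829_nt.SS.SpecC2

/-!
# Module KA3: frames of type A, the case `C = (1,c₁,c₂,0,0,0)`, `p` and `t` equal up to `κ`, `t ≤ q + κ`
-/

set_option autoImplicit false

open NumberField MvPolynomial

namespace Pool.Agent.Lib.MP_d0e829_nt.SS

open scoped Classical

namespace KA3M

/-- Case (i): `D 5 = 1`, eliminate `0, 5`. -/
theorem case5 (hCOF : SpecCOF) (hELM : SpecELM) (k : Type) [Field k] (U : Submodule k (Fin 6 → k))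
    (C D : Fin 6 → k) (κ p q z z' : ℝ) (hκ : 0 ≤ κ) (hp : 0 ≤ p) (hq : 0 ≤ q) (hz : 0 ≤ z)
    (hz' : 0 ≤ z') (hC : C ∈ U) (hD : D ∈ U) (hC0 : C 0 = 1) (hC3 : C 3 = 0) (hC4 : C 4 = 0)
    (hC5 : C 5 = 0) (hD0 : D 0 = 0) (hD5 : D 5 = 1) (hpt : |p - (z + z')| ≤ κ) :
    K2C U (WA p q z z') (p + q + z + z') (10 * κ) := by
  have hinj : Function.Injective (![1, 2, 3, 4] : Fin 4 → Fin 6) := by decide
  have hne : ∀ j : Fin 4, (![1, 2, 3, 4] : Fin 4 → Fin 6) j ≠ 0 ∧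
      (![1, 2, 3, 4] : Fin 4 → Fin 6) j ≠ 5 := by decide
  obtain ⟨h1, h2⟩ := hELM k U 0 5 C D ![1, 2, 3, 4] (by decide) hC hD hC0 hC5 hD0 hD5 hinj hne
  refine ⟨![1, 2, 3, 4], NE 0 5 C D ![1, 2, 3, 4], hinj, h1, h2,
    Or.inl ⟨Finsupp.single 0 1 + Finsupp.single 3 2, ?_, ?_⟩⟩
  · rw [(hCOF k (NE 0 5 C D ![1, 2, 3, 4])).1 0 3 (by decide)]
    simp [c12, NE, hC3, hC4]
  · have h3 := abs_le.mp hpt
    have h4 : 0 ≤ min z' (z + q) := le_min hz' (by linarith)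
    simp only [Fin.sum_univ_four, Finsupp.add_apply, Finsupp.single_apply]
    simp [WA]
    linarith [h3.1, h3.2]

/-- Case (ii): `D 5 = 0`, `D 3 = 1`, eliminate `0, 3`. -/
theorem case3 (hCOF : SpecCOF) (hELM : SpecELM) (k : Type) [Field k] (U : Submodule k (Fin 6 → k))
    (C D : Fin 6 → k) (κ p q z z' : ℝ) (hκ : 0 ≤ κ) (hp : 0 ≤ p) (hq : 0 ≤ q) (hz : 0 ≤ z)
    (hz' : 0 ≤ z') (hC : C ∈ U) (hD : D ∈ U) (hC0 : C 0 = 1) (hC3 : C 3 = 0) (hC4 : C 4 = 0)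
    (hC5 : C 5 = 0) (hD0 : D 0 = 0) (hD5 : D 5 = 0) (hD3 : D 3 = 1) (hpt : |p - (z + z')| ≤ κ)
    (htq : z + z' ≤ q + κ) : K2C U (WA p q z z') (p + q + z + z') (10 * κ) := by
  have hinj : Function.Injective (![1, 2, 4, 5] : Fin 4 → Fin 6) := by decide
  have hne : ∀ j : Fin 4, (![1, 2, 4, 5] : Fin 4 → Fin 6) j ≠ 0 ∧
      (![1, 2, 4, 5] : Fin 4 → Fin 6) j ≠ 3 := by decide
  obtain ⟨h1, h2⟩ := hELM k U 0 3 C D ![1, 2, 4, 5] (by decide) hC hD hC0 hC3 hD0 hD3 hinj hne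
  refine ⟨![1, 2, 4, 5], NE 0 3 C D ![1, 2, 4, 5], hinj, h1, h2,
    Or.inl ⟨Finsupp.single 1 1 + Finsupp.single 3 2, ?_, ?_⟩⟩
  · rw [(hCOF k (NE 0 3 C D ![1, 2, 4, 5])).1 1 3 (by decide)]
    simp [c12, NE, hC4, hC5, hD5]
  · have h3 := abs_le.mp hpt
    have h4 : 0 ≤ min z (p + z') := le_min hz (by linarith)
    simp only [Fin.sum_univ_four, Finsupp.add_apply, Finsupp.single_apply]
    simp [WA]
    linarith [h3.1, h3.2]

/-- Case (iii): `D 5 = 0`, `D 4 = 1`, eliminate `0, 4`. -/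
theorem case4 (hCOF : SpecCOF) (hELM : SpecELM) (k : Type) [Field k] (U : Submodule k (Fin 6 → k))
    (C D : Fin 6 → k) (κ p q z z' : ℝ) (hκ : 0 ≤ κ) (hp : 0 ≤ p) (hq : 0 ≤ q) (hz : 0 ≤ z)
    (hz' : 0 ≤ z') (hC : C ∈ U) (hD : D ∈ U) (hC0 : C 0 = 1) (hC3 : C 3 = 0) (hC4 : C 4 = 0)
    (hC5 : C 5 = 0) (hD0 : D 0 = 0) (hD5 : D 5 = 0) (hD4 : D 4 = 1) (hpt : |p - (z + z')| ≤ κ)
    (htq : z + z' ≤ q + κ) : K2C U (WA p q z z') (p + q + z + z') (10 * κ) := by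
  have hinj : Function.Injective (![1, 2, 3, 5] : Fin 4 → Fin 6) := by decide
  have hne : ∀ j : Fin 4, (![1, 2, 3, 5] : Fin 4 → Fin 6) j ≠ 0 ∧
      (![1, 2, 3, 5] : Fin 4 → Fin 6) j ≠ 4 := by decide
  obtain ⟨h1, h2⟩ := hELM k U 0 4 C D ![1, 2, 3, 5] (by decide) hC hD hC0 hC4 hD0 hD4 hinj hne
  refine ⟨![1, 2, 3, 5], NE 0 4 C D ![1, 2, 3, 5], hinj, h1, h2,
    Or.inl ⟨Finsupp.single 1 1 + Finsupp.single 3 2, ?_, ?_⟩⟩
  · rw [(hCOF k (NE 0 4 C D ![1, 2, 3, 5])).1 1 3 (by decide)]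
    simp [c12, NE, hC3, hC5, hD5]
  · have h3 := abs_le.mp hpt
    have h4 : 0 ≤ min z' (z + q) := le_min hz' (by linarith)
    simp only [Fin.sum_univ_four, Finsupp.add_apply, Finsupp.single_apply]
    simp [WA]
    linarith [h3.1, h3.2]

end KA3M

theorem specKA3 (hCOF : SpecCOF) (hELM : SpecELM) : SpecKA3 := by
  intro k _ U C D κ p q z z' hκ hp hq hz hz' hC hD hC0 hC3 hC4 hC5 hD0 hD hpt htq
  by_cases h5 : D 5 = 0
  · by_cases h3 : D 3 = 0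
    · have h4 : D 4 ≠ 0 := by
        rcases hD with h | h | h
        · exact absurd h3 h
        · exact h
        · exact absurd h5 h
      exact KA3M.case4 hCOF hELM k U C ((D 4)⁻¹ • D) κ p q z z' hκ hp hq hz hz' hC
        (U.smul_mem _ (by assumption)) hC0 hC3 hC4 hC5 (by simp [hD0]) (by simp [h5])
        (by simp [h4]) hpt htq
    · exact KA3M.case3 hCOF hELM k U C ((D 3)⁻¹ • D) κ p q z z' hκ hp hq hz hz' hC
        (U.smul_mem _ (by assumption)) hC0 hC3 hC4 hC5 (by simp [hD0]) (by simp [h5])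
        (by simp [h3]) hpt htq
  · exact KA3M.case5 hCOF hELM k U C ((D 5)⁻¹ • D) κ p q z z' hκ hp hq hz hz' hC
        (U.smul_mem _ (by assumption)) hC0 hC3 hC4 hC5 (by simp [hD0]) (by simp [h5]) hpt

end Pool.Agent.Lib.MP_d0e829_nt.SS
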