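import Pool.Agent.Lib.MP_d0e829_nt.SS.SpecC2

/-!
# Module KA4: frames of type A, `C 5 = 1`, `D 5 = 0`
-/

set_option autoImplicit false

open NumberField MvPolynomial

namespace Pool.Agent.Lib.MP_d0e829_nt.SS

namespace KA4M

/-- the elimination of the coordinates `5, b` with a second alternative -/
theorem main (hELM : SpecELM) (k : Type) [Field k] (U : Submodule k (Fin 6 → k)) (C D : Fin 6 → k)
    (κ p q z z' m : ℝ) (hκ : 0 ≤ κ) (hp : 0 ≤ p) (hq : 0 ≤ q) (hz : 0 ≤ z) (hz' : 0 ≤ z')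
    (hm : 0 ≤ m) (b : Fin 6) (e : Fin 4 → Fin 6) (h5b : (5 : Fin 6) ≠ b)
    (hinj : Function.Injective e) (hne : ∀ j, e j ≠ 5 ∧ e j ≠ b)
    (hC : C ∈ U) (hD : D ∈ U) (hC5 : C 5 = 1) (hD5 : D 5 = 0) (hDb : D b ≠ 0)
    (h0 : WA p q z z' (e 0) = p) (h1 : WA p q z z' (e 1) = q) (h2 : WA p q z z' (e 2) = z + z')
    (h3 : WA p q z z' (e 3) = m) :
    K2C U (WA p q z z') (p + q + z + z') (10 * κ) := by
  set d : Fin 6 → k := (D b)⁻¹ • D with hd
  set c : Fin 6 → k := C - (C b) • d with hc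
  have hdU : d ∈ U := U.smul_mem _ hD
  have hcU : c ∈ U := U.sub_mem hC (U.smul_mem _ hdU)
  have hdb : d b = 1 := by
    simp only [hd, Pi.smul_apply, smul_eq_mul]
    exact inv_mul_cancel₀ hDb
  have hd5 : d 5 = 0 := by simp only [hd, Pi.smul_apply, smul_eq_mul, hD5, mul_zero]
  have hc5 : c 5 = 1 := by
    simp only [hc, Pi.sub_apply, Pi.smul_apply, smul_eq_mul, hd5, mul_zero, sub_zero, hC5]
  have hcb : c b = 0 := by
    simp only [hc, Pi.sub_apply, Pi.smul_apply, smul_eq_mul, hdb, mul_one, sub_self]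
  obtain ⟨hN, hN'⟩ := hELM k U 5 b c d e h5b hcU hdU hc5 hcb hd5 hdb hinj hne
  refine ⟨e, NE 5 b c d e, hinj, hN, hN', Or.inr ?_⟩
  have hsum : ∑ j, WA p q z z' (e j) = p + q + (z + z') + m := by
    rw [Fin.sum_univ_four, h0, h1, h2, h3]
  rw [hsum]
  by_cases hpq : q ≤ p
  · by_cases hpt : z + z' ≤ p
    · refine ⟨0, fun j hj => ?_⟩
      fin_cases j
      · exact absurd rfl hj
      · show WA p q z z' (e 1) ≤ _
        rw [h1]; linarith
      · show WA p q z z' (e 2) ≤ _
        rw [h2]; linarith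
      · show WA p q z z' (e 3) ≤ _
        rw [h3]; linarith
    · push Not at hpt
      refine ⟨2, fun j hj => ?_⟩
      fin_cases j
      · show WA p q z z' (e 0) ≤ _
        rw [h0]; linarith
      · show WA p q z z' (e 1) ≤ _
        rw [h1]; linarith
      · exact absurd rfl hj
      · show WA p q z z' (e 3) ≤ _
        rw [h3]; linarith
  · push Not at hpq
    by_cases hqt : z + z' ≤ q
    · refine ⟨1, fun j hj => ?_⟩
      fin_cases j
      · show WA p q z z' (e 0) ≤ _
        rw [h0]; linarith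
      · exact absurd rfl hj
      · show WA p q z z' (e 2) ≤ _
        rw [h2]; linarith
      · show WA p q z z' (e 3) ≤ _
        rw [h3]; linarith
    · push Not at hqt
      refine ⟨2, fun j hj => ?_⟩
      fin_cases j
      · show WA p q z z' (e 0) ≤ _
        rw [h0]; linarith
      · show WA p q z z' (e 1) ≤ _
        rw [h1]; linarith
      · exact absurd rfl hj
      · show WA p q z z' (e 3) ≤ _
        rw [h3]; linarith

end KA4M

theorem specKA4 (hELM : SpecELM) : SpecKA4 := by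
  intro k _ U C D κ p q z z' hκ hp hq hz hz' hC hD hC5 hD5 h34
  rcases h34 with h3 | h4
  · exact KA4M.main hELM k U C D κ p q z z' (min z (p + z')) hκ hp hq hz hz'
      (le_min hz (add_nonneg hp hz')) 3 ![0, 1, 2, 4] (by decide) (by decide) (by decide)
      hC hD hC5 hD5 h3 rfl rfl rfl rfl
  · exact KA4M.main hELM k U C D κ p q z z' (min z' (z + q)) hκ hp hq hz hz'
      (le_min hz' (add_nonneg hz hq)) 4 ![0, 1, 2, 3] (by decide) (by decide) (by decide)
      hC hD hC5 hD5 h4 rfl rfl rfl rfl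

end Pool.Agent.Lib.MP_d0e829_nt.SS
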