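import Pool.Agent.Lib.MP_d0e829_nt.SS.SpecC2

/-!
# KA5: the frames of type A, the case of two mixed coordinates
-/

set_option autoImplicit false

open NumberField MvPolynomial

namespace Pool.Agent.Lib.MP_d0e829_nt.SS

open scoped Classical

namespace KA5M

/-- the four remaining coordinates -/
def ee : Fin 4 → Fin 6 := ![0, 1, 2, 5]

lemma ee_inj : Function.Injective ee := by decide

lemma ee_ne : ∀ j, ee j ≠ 3 ∧ ee j ≠ 4 := by decide

end KA5M

open KA5M in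
theorem specKA5 (hCOF : SpecCOF) (hELM : SpecELM) : SpecKA5 := by
  intro k _ U C D κ p q z z' hκ hp hq hz hz' hC hD hC3 hC4 hC5 hD3 hD4 hD5
  obtain ⟨h1, h2⟩ := hELM k U 3 4 C D ee (by decide) hC hD hC3 hC4 hD3 hD4 ee_inj ee_ne
  refine ⟨ee, NE 3 4 C D ee, ee_inj, h1, h2, Or.inl ⟨Finsupp.single 2 1 + Finsupp.single 3 2, ?_, ?_⟩⟩
  · rw [(hCOF k (NE 3 4 C D ee)).1 2 3 (by decide)]
    have e0 : ee 0 = 0 := rfl
    have e1 : ee 1 = 1 := rfl
    have e2 : ee 2 = 2 := rfl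
    have e3 : ee 3 = 5 := rfl
    have n02 : NE 3 4 C D ee 0 2 = 0 := by simp [NE, e2]
    have n03 : NE 3 4 C D ee 0 3 = 0 := by simp [NE, e3]
    have n12 : NE 3 4 C D ee 1 2 = 0 := by simp [NE, e2]
    have n13 : NE 3 4 C D ee 1 3 = 0 := by simp [NE, e3]
    have n22 : NE 3 4 C D ee 2 2 = 1 := by simp [NE, e2]
    have n23 : NE 3 4 C D ee 2 3 = 0 := by simp [NE, e3]
    have n33 : NE 3 4 C D ee 3 3 = 0 := by simp [NE, e3, hC5]
    have n43 : NE 3 4 C D ee 4 3 = 0 := by simp [NE, e3, hD5]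
    have n53 : NE 3 4 C D ee 5 3 = 1 := by simp [NE, e3]
    have n52 : NE 3 4 C D ee 5 2 = 0 := by simp [NE, e2]
    simp only [c12, n02, n03, n12, n13, n22, n23, n33, n43, n53, n52]
    ring_nf
    exact neg_ne_zero.2 one_ne_zero
  · have e0 : ee 0 = 0 := rfl
    have e1 : ee 1 = 1 := rfl
    have e2 : ee 2 = 2 := rfl
    have e3 : ee 3 = 5 := rfl
    rw [Fin.sum_univ_four, Fin.sum_univ_four]
    rw [e0, e1, e2, e3]
    simp [WA]
    nlinarith
end Pool.Agent.Lib.MP_d0e829_nt.SS
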