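import Pool.Agent.Lib.MP_d0e829_nt.SS.SpecC2

/-!
MP_d0e829_nt, module KB1: type B, elimination of the coordinates `0` and `2`.
-/

set_option autoImplicit false

namespace Pool.Agent.Lib.MP_d0e829_nt.SS

open scoped Classical

namespace KB1M

lemma inj : Function.Injective (![1, 3, 4, 5] : Fin 4 → Fin 6) := by decide

lemma ne02 : ∀ j : Fin 4, (![1, 3, 4, 5] : Fin 4 → Fin 6) j ≠ 0 ∧
    (![1, 3, 4, 5] : Fin 4 → Fin 6) j ≠ 2 := by decide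

end KB1M

theorem specKB1 (hELM : SpecELM) : SpecKB1 := by
  intro k _ U C D κ p p' q q' hκ hp hp' hq hq' hC hD hC0 hC2 hD0 hD2 hPQ
  obtain ⟨h1, h2⟩ := hELM k U 0 2 C D ![1, 3, 4, 5] (by decide) hC hD hC0 hC2 hD0 hD2 KB1M.inj
    KB1M.ne02
  refine ⟨![1, 3, 4, 5], NE 0 2 C D ![1, 3, 4, 5], KB1M.inj, h1, h2, Or.inr ⟨0, ?_⟩⟩
  have hPQ' := abs_le.mp hPQ
  intro j hj
  rw [Fin.sum_univ_four]
  have e0 : (![1, 3, 4, 5] : Fin 4 → Fin 6) 0 = 1 := rfl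
  have e1 : (![1, 3, 4, 5] : Fin 4 → Fin 6) 1 = 3 := rfl
  have e2 : (![1, 3, 4, 5] : Fin 4 → Fin 6) 2 = 4 := rfl
  have e3 : (![1, 3, 4, 5] : Fin 4 → Fin 6) 3 = 5 := rfl
  rw [e0, e1, e2, e3]
  have hW1 : WB p p' q q' 1 = q + q' := by simp [WB]
  have hW3 : 0 ≤ WB p p' q q' 3 := by
    show 0 ≤ min q q'
    exact le_min hq hq'
  have hW4 : 0 ≤ WB p p' q q' 4 := by
    show 0 ≤ min p p'
    exact le_min hp hp'
  have hW5 : 0 ≤ WB p p' q q' 5 := by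
    show 0 ≤ min (p + q') (q + p')
    exact le_min (add_nonneg hp hq') (add_nonneg hq hp')
  rw [hW1]
  fin_cases j
  · exact absurd rfl hj
  · show WB p p' q q' 3 ≤ _
    linarith [hPQ'.1, hPQ'.2]
  · show WB p p' q q' 4 ≤ _
    linarith [hPQ'.1, hPQ'.2]
  · show WB p p' q q' 5 ≤ _
    linarith [hPQ'.1, hPQ'.2]

end Pool.Agent.Lib.MP_d0e829_nt.SS
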