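import Pool.Agent.Lib.MP_d0e829_nt.SS.SpecC2

/-!
# KB2: a frame of type B, elimination of the coordinate 2 and one of 3, 4, 5
-/

set_option autoImplicit false

open NumberField MvPolynomial

namespace Pool.Agent.Lib.MP_d0e829_nt.SS

namespace KB2M

lemma wb0 (p p' q q' : ℝ) : WB p p' q q' 0 = p + p' := rfl
lemma wb1 (p p' q q' : ℝ) : WB p p' q q' 1 = q + q' := rfl
lemma wb3 (p p' q q' : ℝ) : WB p p' q q' 3 = min q q' := rfl
lemma wb4 (p p' q q' : ℝ) : WB p p' q q' 4 = min p p' := rfl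
lemma wb5 (p p' q q' : ℝ) : WB p p' q q' 5 = min (p + q') (q + p') := rfl

lemma alt (p p' q q' κ : ℝ) (hκ : 0 ≤ κ) (hp : 0 ≤ p) (hp' : 0 ≤ p') (hq : 0 ≤ q)
    (hq' : 0 ≤ q') (x y : Fin 6) (hx : 0 ≤ WB p p' q q' x) (hy : 0 ≤ WB p p' q q' y) :
    ∃ j₀ : Fin 4, ∀ j, j ≠ j₀ → WB p p' q q' ((![0, 1, x, y] : Fin 4 → Fin 6) j) ≤
      ∑ j, WB p p' q q' ((![0, 1, x, y] : Fin 4 → Fin 6) j) - (p + p' + q + q') / 2 + 10 * κ := by
  have h0 : WB p p' q q' ((![0, 1, x, y] : Fin 4 → Fin 6) 0) = p + p' := rfl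
  have h1 : WB p p' q q' ((![0, 1, x, y] : Fin 4 → Fin 6) 1) = q + q' := rfl
  have h2 : WB p p' q q' ((![0, 1, x, y] : Fin 4 → Fin 6) 2) = WB p p' q q' x := rfl
  have h3 : WB p p' q q' ((![0, 1, x, y] : Fin 4 → Fin 6) 3) = WB p p' q q' y := rfl
  rw [Fin.sum_univ_four, h0, h1, h2, h3]
  rcases le_total (p + p') (q + q') with h | h
  · refine ⟨1, fun j hj => ?_⟩
    have hc : j = 0 ∨ j = 2 ∨ j = 3 := by revert j; decide
    rcases hc with rfl | rfl | rfl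
    · rw [h0]; linarith
    · rw [h2]; linarith
    · rw [h3]; linarith
  · refine ⟨0, fun j hj => ?_⟩
    have hc : j = 1 ∨ j = 2 ∨ j = 3 := by revert j; decide
    rcases hc with rfl | rfl | rfl
    · rw [h1]; linarith
    · rw [h2]; linarith
    · rw [h3]; linarith

lemma core (hELM : SpecELM) {k : Type} [Field k] (U : Submodule k (Fin 6 → k)) (C D : Fin 6 → k)
    (κ p p' q q' : ℝ) (hκ : 0 ≤ κ) (hp : 0 ≤ p) (hp' : 0 ≤ p') (hq : 0 ≤ q) (hq' : 0 ≤ q')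
    (hC : C ∈ U) (hD : D ∈ U) (hC2 : C 2 = 0) (hD2 : D 2 = 1) (j x y : Fin 6) (hj : j ≠ 2)
    (hCj : C j ≠ 0) (hx : 0 ≤ WB p p' q q' x) (hy : 0 ≤ WB p p' q q' y)
    (hinj : Function.Injective (![0, 1, x, y] : Fin 4 → Fin 6))
    (hne : ∀ i, (![0, 1, x, y] : Fin 4 → Fin 6) i ≠ j ∧ (![0, 1, x, y] : Fin 4 → Fin 6) i ≠ 2) :
    K2C U (WB p p' q q') (p + p' + q + q') (10 * κ) := by
  set C' : Fin 6 → k := (C j)⁻¹ • C with hC'
  set D' : Fin 6 → k := D - D j • C' with hD'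
  have hC'U : C' ∈ U := U.smul_mem _ hC
  have hD'U : D' ∈ U := U.sub_mem hD (U.smul_mem _ hC'U)
  have e1 : C' j = 1 := by
    rw [hC', Pi.smul_apply, smul_eq_mul]
    exact inv_mul_cancel₀ hCj
  have e2 : C' 2 = 0 := by
    rw [hC', Pi.smul_apply, hC2, smul_zero]
  have e3 : D' j = 0 := by
    rw [hD', Pi.sub_apply, Pi.smul_apply, e1, smul_eq_mul, mul_one, sub_self]
  have e4 : D' 2 = 1 := by
    rw [hD', Pi.sub_apply, Pi.smul_apply, e2, smul_zero, sub_zero, hD2]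
  obtain ⟨h1, h2⟩ := hELM k U j 2 C' D' (![0, 1, x, y]) hj hC'U hD'U e1 e2 e3 e4 hinj hne
  exact ⟨![0, 1, x, y], NE j 2 C' D' ![0, 1, x, y], hinj, h1, h2,
    Or.inr (alt p p' q q' κ hκ hp hp' hq hq' x y hx hy)⟩

end KB2M

open KB2M in
theorem specKB2 (hELM : SpecELM) : SpecKB2 := by
  intro k _ U C D κ p p' q q' hκ hp hp' hq hq' hC hD hC2 hD2 hor
  have w3 : 0 ≤ WB p p' q q' 3 := by rw [wb3]; exact le_min hq hq'
  have w4 : 0 ≤ WB p p' q q' 4 := by rw [wb4]; exact le_min hp hp'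
  have w5 : 0 ≤ WB p p' q q' 5 := by rw [wb5]; exact le_min (by linarith) (by linarith)
  rcases hor with h | h | h
  · exact core hELM U C D κ p p' q q' hκ hp hp' hq hq' hC hD hC2 hD2 3 4 5 (by decide) h w4 w5
      (by decide) (by decide)
  · exact core hELM U C D κ p p' q q' hκ hp hp' hq hq' hC hD hC2 hD2 4 3 5 (by decide) h w3 w5
      (by decide) (by decide)
  · exact core hELM U C D κ p p' q q' hκ hp hp' hq hq' hC hD hC2 hD2 5 3 4 (by decide) h w3 w4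
      (by decide) (by decide)

end Pool.Agent.Lib.MP_d0e829_nt.SS
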