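import Pool.Agent.Lib.MP_d0e829_nt.SS.SpecC2

/-!
# Module KB3: frames of type B, third case (helper82)
-/

set_option autoImplicit false

open NumberField MvPolynomial

namespace Pool.Agent.Lib.MP_d0e829_nt.SS

open scoped Classical

namespace KB3M

theorem caseA (hCOF : SpecCOF) (hELM : SpecELM) (k : Type) [Field k]
    (U : Submodule k (Fin 6 → k)) (C D : Fin 6 → k) (κ p p' q q' : ℝ) (hκ : 0 ≤ κ) (hp : 0 ≤ p)
    (hp' : 0 ≤ p') (hC : C ∈ U) (hD : D ∈ U) (hC0 : C 0 = 1) (hC2 : C 2 = 0) (hC3 : C 3 = 0)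
    (hC4 : C 4 = 0) (hC5 : C 5 = 0) (hD0 : D 0 = 0) (hD2 : D 2 = 0) (hD3 : D 3 = 1)
    (hPQ : |p + p' - (q + q')| ≤ κ) :
    K2C U (WB p p' q q') (p + p' + q + q') (10 * κ) := by
  obtain ⟨h1, h2⟩ := hELM k U 0 3 C D ![1, 2, 4, 5] (by decide) hC hD hC0 hC3 hD0 hD3
    (by decide) (by decide)
  refine ⟨![1, 2, 4, 5], NE 0 3 C D ![1, 2, 4, 5], by decide, h1, h2,
    Or.inl ⟨Finsupp.single 1 1 + Finsupp.single 3 2, ?_, ?_⟩⟩
  · rw [(hCOF k _).1 1 3 (by decide)]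
    have h01 : NE 0 3 C D ![1, 2, 4, 5] 0 1 = 0 := by simp [NE, hC2]
    have h03 : NE 0 3 C D ![1, 2, 4, 5] 0 3 = 0 := by simp [NE, hC5]
    have h31 : NE 0 3 C D ![1, 2, 4, 5] 3 1 = 0 := by simp [NE, hD2]
    have h11 : NE 0 3 C D ![1, 2, 4, 5] 1 1 = 0 := by simp [NE]
    have h13 : NE 0 3 C D ![1, 2, 4, 5] 1 3 = 0 := by simp [NE]
    have h21 : NE 0 3 C D ![1, 2, 4, 5] 2 1 = 1 := by simp [NE]
    have h23 : NE 0 3 C D ![1, 2, 4, 5] 2 3 = 0 := by simp [NE]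
    have h41 : NE 0 3 C D ![1, 2, 4, 5] 4 1 = 0 := by simp [NE]
    have h43 : NE 0 3 C D ![1, 2, 4, 5] 4 3 = 0 := by simp [NE]
    have h51 : NE 0 3 C D ![1, 2, 4, 5] 5 1 = 0 := by simp [NE]
    have h53 : NE 0 3 C D ![1, 2, 4, 5] 5 3 = 1 := by simp [NE]
    simp only [c12, h01, h03, h31, h11, h13, h21, h23, h41, h43, h51, h53]
    simp
  · have hm := le_min hp hp'
    have h3 := (abs_le.1 hPQ).1
    have h4 := (abs_le.1 hPQ).2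
    simp [Fin.sum_univ_four, WB]
    linarith

theorem caseB (hCOF : SpecCOF) (hELM : SpecELM) (k : Type) [Field k]
    (U : Submodule k (Fin 6 → k)) (C D : Fin 6 → k) (κ p p' q q' : ℝ) (hκ : 0 ≤ κ) (hq : 0 ≤ q)
    (hq' : 0 ≤ q') (hC : C ∈ U) (hD : D ∈ U) (hC0 : C 0 = 1) (hC2 : C 2 = 0) (hC3 : C 3 = 0)
    (hC4 : C 4 = 0) (hC5 : C 5 = 0) (hD0 : D 0 = 0) (hD2 : D 2 = 0) (hD4 : D 4 = 1)
    (hPQ : |p + p' - (q + q')| ≤ κ) :
    K2C U (WB p p' q q') (p + p' + q + q') (10 * κ) := by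
  obtain ⟨h1, h2⟩ := hELM k U 0 4 C D ![1, 2, 3, 5] (by decide) hC hD hC0 hC4 hD0 hD4
    (by decide) (by decide)
  refine ⟨![1, 2, 3, 5], NE 0 4 C D ![1, 2, 3, 5], by decide, h1, h2,
    Or.inl ⟨Finsupp.single 1 1 + Finsupp.single 3 2, ?_, ?_⟩⟩
  · rw [(hCOF k _).1 1 3 (by decide)]
    have h01 : NE 0 4 C D ![1, 2, 3, 5] 0 1 = 0 := by simp [NE, hC2]
    have h03 : NE 0 4 C D ![1, 2, 3, 5] 0 3 = 0 := by simp [NE, hC5]
    have h31 : NE 0 4 C D ![1, 2, 3, 5] 3 1 = 0 := by simp [NE]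
    have h33 : NE 0 4 C D ![1, 2, 3, 5] 3 3 = 0 := by simp [NE]
    have h11 : NE 0 4 C D ![1, 2, 3, 5] 1 1 = 0 := by simp [NE]
    have h13 : NE 0 4 C D ![1, 2, 3, 5] 1 3 = 0 := by simp [NE]
    have h21 : NE 0 4 C D ![1, 2, 3, 5] 2 1 = 1 := by simp [NE]
    have h23 : NE 0 4 C D ![1, 2, 3, 5] 2 3 = 0 := by simp [NE]
    have h51 : NE 0 4 C D ![1, 2, 3, 5] 5 1 = 0 := by simp [NE]
    have h53 : NE 0 4 C D ![1, 2, 3, 5] 5 3 = 1 := by simp [NE]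
    simp only [c12, h01, h03, h31, h33, h11, h13, h21, h23, h51, h53]
    simp
  · have hm := le_min hq hq'
    have h3 := (abs_le.1 hPQ).1
    have h4 := (abs_le.1 hPQ).2
    simp [Fin.sum_univ_four, WB]
    linarith

end KB3M

theorem specKB3 (hCOF : SpecCOF) (hELM : SpecELM) : SpecKB3 := by
  intro k _ U C D κ p p' q q' hκ hp hp' hq hq' hC hD hC0 hC2 hC3 hC4 hC5 hD0 hD2 hD34 hPQ
  rcases hD34 with h | h
  · exact KB3M.caseA hCOF hELM k U C ((D 3)⁻¹ • D) κ p p' q q' hκ hp hp' hC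
      (U.smul_mem _ hD) hC0 hC2 hC3 hC4 hC5 (by simp [hD0]) (by simp [hD2]) (by simp [h]) hPQ
  · exact KB3M.caseB hCOF hELM k U C ((D 4)⁻¹ • D) κ p p' q q' hκ hq hq' hC
      (U.smul_mem _ hD) hC0 hC2 hC3 hC4 hC5 (by simp [hD0]) (by simp [hD2]) (by simp [h]) hPQ

end Pool.Agent.Lib.MP_d0e829_nt.SS
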