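import Pool.Agent.Lib.MP_d0e829_nt.SS.SpecC2

/-!
# Part C2: module KB4
-/

set_option autoImplicit false

open NumberField MvPolynomial

namespace Pool.Agent.Lib.MP_d0e829_nt.SS

open scoped Classical

namespace KB4M

lemma core (hCOF : SpecCOF) {k : Type} [Field k] [CharZero k] (N : Fin 6 → Fin 4 → k)
    (h0 : N 0 = Pi.single 0 1) (h1 : N 1 = Pi.single 1 1) (h2 : N 2 = Pi.single 2 1)
    (h3 : N 3 2 = 0) (h4 : N 4 2 = 0) (h5 : N 5 2 = 0) (P Q : ℝ) :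
    ∃ s : Fin 4 →₀ ℕ, (Dl N).coeff s ≠ 0 ∧ ∀ w : Fin 4 → ℝ, w 0 = P → w 1 = Q → w 2 = 0 →
      ∑ j, (s j : ℝ) * w j ≤ P + Q := by
  obtain ⟨hA, hB, -⟩ := hCOF k N
  have n00 : N 0 0 = 1 := by rw [h0]; simp
  have n01 : N 0 1 = 0 := by rw [h0]; simp
  have n02 : N 0 2 = 0 := by rw [h0]; simp
  have n10 : N 1 0 = 0 := by rw [h1]; simp
  have n11 : N 1 1 = 1 := by rw [h1]; simp
  have n12 : N 1 2 = 0 := by rw [h1]; simp
  have n20 : N 2 0 = 0 := by rw [h2]; simp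
  have n21 : N 2 1 = 0 := by rw [h2]; simp
  have n22 : N 2 2 = 1 := by rw [h2]; simp
  have c20 : (Dl N).coeff (Finsupp.single 2 1 + Finsupp.single 0 2) = -(N 5 0) ^ 2 := by
    rw [hA 2 0 (by decide)]
    unfold c12
    rw [n00, n02, n10, n12, n20, n22, h3, h4, h5]
    ring
  have c21 : (Dl N).coeff (Finsupp.single 2 1 + Finsupp.single 1 2) = -(N 5 1) ^ 2 := by
    rw [hA 2 1 (by decide)]
    unfold c12
    rw [n01, n02, n11, n12, n21, n22, h3, h4, h5]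
    ring
  have c012 : (Dl N).coeff (Finsupp.single 0 1 + Finsupp.single 1 1 + Finsupp.single 2 1) =
      4 - 2 * N 5 0 * N 5 1 := by
    rw [hB 0 1 2 (by decide) (by decide) (by decide)]
    unfold c111
    rw [n00, n01, n02, n10, n11, n12, n20, n21, n22, h3, h4, h5]
    ring
  by_cases ha : N 5 0 = 0
  · refine ⟨_, by rw [c012, ha]; norm_num, fun w w0 w1 w2 => ?_⟩
    rw [Fin.sum_univ_four, w0, w1, w2]
    simp [Finsupp.single_apply]
  · by_cases hb : N 5 1 = 0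
    · refine ⟨_, by rw [c012, hb]; norm_num, fun w w0 w1 w2 => ?_⟩
      rw [Fin.sum_univ_four, w0, w1, w2]
      simp [Finsupp.single_apply]
    · rcases le_total P Q with h | h
      · refine ⟨_, by rw [c20]; exact neg_ne_zero.mpr (pow_ne_zero _ ha), fun w w0 w1 w2 => ?_⟩
        rw [Fin.sum_univ_four, w0, w1, w2]
        simp [Finsupp.single_apply]
        linarith
      · refine ⟨_, by rw [c21]; exact neg_ne_zero.mpr (pow_ne_zero _ hb), fun w w0 w1 w2 => ?_⟩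
        rw [Fin.sum_univ_four, w0, w1, w2]
        simp [Finsupp.single_apply]
        linarith

end KB4M

open KB4M in
/-- KB4 -/
theorem specKB4 (hCOF : SpecCOF) (hELM : SpecELM) : SpecKB4 := by
  intro k _ _ U C D κ p p' q q' hκ hp hp' hq hq' hC hD hC2 hC3 hC4 hC5 hD2 hD34
  have hm : 0 ≤ min p p' := le_min hp hp'
  have hm' : 0 ≤ min q q' := le_min hq hq'
  set D' : Fin 6 → k := D - D 5 • C with hD'
  have hD'U : D' ∈ U := U.sub_mem hD (U.smul_mem _ hC)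
  have d2 : D' 2 = 0 := by simp [hD', hD2, hC2]
  have d3 : D' 3 = D 3 := by simp [hD', hC3]
  have d4 : D' 4 = D 4 := by simp [hD', hC4]
  have d5 : D' 5 = 0 := by simp [hD', hC5]
  by_cases h3 : D 3 = 0
  · have h4 : D 4 ≠ 0 := by
      rcases hD34 with h | h
      · exact absurd h3 h
      · exact h
    set E : Fin 6 → k := (D 4)⁻¹ • D' with hE
    have hEU : E ∈ U := U.smul_mem _ hD'U
    have e2 : E 2 = 0 := by simp [hE, d2]
    have e4 : E 4 = 1 := by simp [hE, d4, h4]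
    have e5 : E 5 = 0 := by simp [hE, d5]
    obtain ⟨g1, g2⟩ := hELM k U 5 4 C E ![0, 1, 2, 3] (by decide) hC hEU hC5 hC4 e5 e4
      (by decide) (by decide)
    have n0 : NE 5 4 C E ![0, 1, 2, 3] 0 = Pi.single 0 1 := g1 0
    have n1 : NE 5 4 C E ![0, 1, 2, 3] 1 = Pi.single 1 1 := g1 1
    have n2 : NE 5 4 C E ![0, 1, 2, 3] 2 = Pi.single 2 1 := g1 2
    have n3 : NE 5 4 C E ![0, 1, 2, 3] 3 = Pi.single 3 1 := g1 3
    have n32 : NE 5 4 C E ![0, 1, 2, 3] 3 2 = 0 := by rw [n3]; simp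
    have n42 : NE 5 4 C E ![0, 1, 2, 3] 4 2 = 0 := by
      have : NE 5 4 C E ![0, 1, 2, 3] 4 2 = - E 2 := rfl
      rw [this, e2, neg_zero]
    have n52 : NE 5 4 C E ![0, 1, 2, 3] 5 2 = 0 := by
      have : NE 5 4 C E ![0, 1, 2, 3] 5 2 = - C 2 := rfl
      rw [this, hC2, neg_zero]
    obtain ⟨s, hs1, hs2⟩ := core hCOF _ n0 n1 n2 n32 n42 n52 (p + p') (q + q')
    refine ⟨![0, 1, 2, 3], _, by decide, g1, g2, Or.inl ⟨s, hs1, ?_⟩⟩
    refine (hs2 (fun j => WB p p' q q' (![0, 1, 2, 3] j)) rfl rfl rfl).trans ?_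
    have hsum : ∑ j : Fin 4, WB p p' q q' (![0, 1, 2, 3] j) = p + p' + (q + q') + min q q' := by
      rw [Fin.sum_univ_four]
      simp [WB]
    rw [hsum]
    linarith
  · set E : Fin 6 → k := (D 3)⁻¹ • D' with hE
    have hEU : E ∈ U := U.smul_mem _ hD'U
    have e2 : E 2 = 0 := by simp [hE, d2]
    have e3 : E 3 = 1 := by simp [hE, d3, h3]
    have e5 : E 5 = 0 := by simp [hE, d5]
    obtain ⟨g1, g2⟩ := hELM k U 5 3 C E ![0, 1, 2, 4] (by decide) hC hEU hC5 hC3 e5 e3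
      (by decide) (by decide)
    have n0 : NE 5 3 C E ![0, 1, 2, 4] 0 = Pi.single 0 1 := g1 0
    have n1 : NE 5 3 C E ![0, 1, 2, 4] 1 = Pi.single 1 1 := g1 1
    have n2 : NE 5 3 C E ![0, 1, 2, 4] 2 = Pi.single 2 1 := g1 2
    have n4 : NE 5 3 C E ![0, 1, 2, 4] 4 = Pi.single 3 1 := g1 3
    have n42 : NE 5 3 C E ![0, 1, 2, 4] 4 2 = 0 := by rw [n4]; simp
    have n32 : NE 5 3 C E ![0, 1, 2, 4] 3 2 = 0 := by
      have : NE 5 3 C E ![0, 1, 2, 4] 3 2 = - E 2 := rfl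
      rw [this, e2, neg_zero]
    have n52 : NE 5 3 C E ![0, 1, 2, 4] 5 2 = 0 := by
      have : NE 5 3 C E ![0, 1, 2, 4] 5 2 = - C 2 := rfl
      rw [this, hC2, neg_zero]
    obtain ⟨s, hs1, hs2⟩ := core hCOF _ n0 n1 n2 n32 n42 n52 (p + p') (q + q')
    refine ⟨![0, 1, 2, 4], _, by decide, g1, g2, Or.inl ⟨s, hs1, ?_⟩⟩
    refine (hs2 (fun j => WB p p' q q' (![0, 1, 2, 4] j)) rfl rfl rfl).trans ?_
    have hsum : ∑ j : Fin 4, WB p p' q q' (![0, 1, 2, 4] j) = p + p' + (q + q') + min p p' := by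
      rw [Fin.sum_univ_four]
      simp [WB]
    rw [hsum]
    linarith

end Pool.Agent.Lib.MP_d0e829_nt.SS
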