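import Pool.Agent.Lib.MP_d0e829_nt.SS.SpecC2

/-!
# Module KB5 (from COF, ELM)
-/

set_option autoImplicit false

open NumberField MvPolynomial

namespace Pool.Agent.Lib.MP_d0e829_nt.SS

open scoped Classical

theorem specKB5 (hCOF : SpecCOF) (hELM : SpecELM) : SpecKB5 := by
  intro k _ U C D κ p p' q q' hκ hp hp' hq hq' hC hD hC2 hC3 hC4 hD2 hD3 hD4
  have he : Function.Injective (![0, 1, 2, 5] : Fin 4 → Fin 6) := by decide
  obtain ⟨h1, h2⟩ := hELM k U 3 4 C D ![0, 1, 2, 5] (by decide) hC hD hC3 hC4 hD3 hD4 he (by decide)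
  refine ⟨![0, 1, 2, 5], NE 3 4 C D ![0, 1, 2, 5], he, h1, h2, Or.inl
    ⟨Finsupp.single 2 1 + Finsupp.single 3 2, ?_, ?_⟩⟩
  · rw [(hCOF k _).1 2 3 (by decide)]
    have e0 : ∀ j, NE 3 4 C D ![0, 1, 2, 5] 0 j = if j = 0 then 1 else 0 := by
      intro j
      fin_cases j <;> simp [NE]
    have e1 : ∀ j, NE 3 4 C D ![0, 1, 2, 5] 1 j = if j = 1 then 1 else 0 := by
      intro j
      fin_cases j <;> simp [NE]
    have e2 : ∀ j, NE 3 4 C D ![0, 1, 2, 5] 2 j = if j = 2 then 1 else 0 := by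
      intro j
      fin_cases j <;> simp [NE]
    have e5 : ∀ j, NE 3 4 C D ![0, 1, 2, 5] 5 j = if j = 3 then 1 else 0 := by
      intro j
      fin_cases j <;> simp [NE]
    have e3 : NE 3 4 C D ![0, 1, 2, 5] 3 2 = 0 := by simp [NE, hC2]
    have e4 : NE 3 4 C D ![0, 1, 2, 5] 4 2 = 0 := by simp [NE, hD2]
    simp [c12, e0, e1, e2, e5, e3, e4]
  · simp only [Fin.sum_univ_four]
    have hm : 0 ≤ min (p + q') (q + p') := le_min (by positivity) (by positivity)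
    have a0 : WB p p' q q' (![0, 1, 2, 5] 0) = p + p' := by simp [WB]
    have a1 : WB p p' q q' (![0, 1, 2, 5] 1) = q + q' := by simp [WB]
    have a2 : WB p p' q q' (![0, 1, 2, 5] 2) = 0 := by simp [WB]
    have a3 : WB p p' q q' (![0, 1, 2, 5] 3) = min (p + q') (q + p') := by simp [WB]
    have b0 : (Finsupp.single 2 1 + Finsupp.single 3 2 : Fin 4 →₀ ℕ) 0 = 0 := by simp
    have b1 : (Finsupp.single 2 1 + Finsupp.single 3 2 : Fin 4 →₀ ℕ) 1 = 0 := by simp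
    have b2 : (Finsupp.single 2 1 + Finsupp.single 3 2 : Fin 4 →₀ ℕ) 2 = 1 := by simp
    have b3 : (Finsupp.single 2 1 + Finsupp.single 3 2 : Fin 4 →₀ ℕ) 3 = 2 := by simp
    rw [a0, a1, a2, a3, b0, b1, b2, b3]
    push_cast
    linarith

end Pool.Agent.Lib.MP_d0e829_nt.SS
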