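import Pool.Agent.Lib.MP_d0e829_nt.SS.SpecC2

/-! # Subspace hive: module KSW (exchange of `X` and `Y`) -/

set_option autoImplicit false

open NumberField MvPolynomial

namespace Pool.Agent.Lib.MP_d0e829_nt.SS

namespace KSWM

theorem sw_sw (i : Fin 6) : sw6 (sw6 i) = i := by
  fin_cases i <;> rfl

theorem sw_inj : Function.Injective sw6 := fun i j h => by
  rw [← sw_sw i, ← sw_sw j, h]

theorem dlt_sw {R : Type} [CommRing R] (w : Fin 6 → R) : dlt (fun i => w (sw6 i)) = dlt w := by
  have h0 : sw6 0 = 1 := rfl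
  have h1 : sw6 1 = 0 := rfl
  have h2 : sw6 2 = 2 := rfl
  have h3 : sw6 3 = 4 := rfl
  have h4 : sw6 4 = 3 := rfl
  have h5 : sw6 5 = 5 := rfl
  unfold dlt
  simp only [h0, h1, h2, h3, h4, h5]
  ring

theorem Dl_sw {k : Type} [Field k] (N : Fin 6 → Fin 4 → k) :
    Dl (fun i => N (sw6 i)) = Dl N := by
  unfold Dl
  exact dlt_sw (fun i => lin (N i))

end KSWM

open KSWM in
theorem specKSW : SpecKSW := by
  classical
  intro k _ U U' W W' T κ hU hW hK
  obtain ⟨e, N, he, hN, hE, hD⟩ := hK
  refine ⟨fun j => sw6 (e j), fun i => N (sw6 i), fun i j h => he (sw_inj h), fun j => ?_,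
    fun i => ?_, ?_⟩
  · show N (sw6 (sw6 (e j))) = _
    rw [sw_sw, hN]
  · have h1 := (hU _).1 (hE (sw6 i))
    have h2 : (fun l => ((Pi.single (sw6 i) (1 : k) : Fin 6 → k) -
        ∑ j, N (sw6 i) j • (Pi.single (e j) (1 : k) : Fin 6 → k)) (sw6 l)) =
        (Pi.single i (1 : k) : Fin 6 → k) -
          ∑ j, N (sw6 i) j • (Pi.single (sw6 (e j)) (1 : k) : Fin 6 → k) := by
      funext l
      simp only [Pi.sub_apply, Finset.sum_apply, Pi.smul_apply, smul_eq_mul]
      have h3 : (Pi.single (sw6 i) (1 : k) : Fin 6 → k) (sw6 l) =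
          (Pi.single i (1 : k) : Fin 6 → k) l := by
        by_cases h : l = i
        · subst h
          simp
        · rw [Pi.single_eq_of_ne h, Pi.single_eq_of_ne (fun hc => h (sw_inj hc))]
      have h4 : ∀ j, (Pi.single (e j) (1 : k) : Fin 6 → k) (sw6 l) =
          (Pi.single (sw6 (e j)) (1 : k) : Fin 6 → k) l := by
        intro j
        by_cases h : l = sw6 (e j)
        · subst h
          rw [sw_sw]
          simp
        · rw [Pi.single_eq_of_ne h, Pi.single_eq_of_ne]
          intro hc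
          apply h
          rw [← hc, sw_sw]
      rw [h3]
      congr 1
      exact Finset.sum_congr rfl fun j _ => by rw [h4 j]
    rw [← h2]
    exact h1
  · have hw : ∀ j, W' (e j) = W (sw6 (e j)) := fun j => hW (e j)
    rw [Dl_sw]
    simp only [← hw]
    exact hD

end Pool.Agent.Lib.MP_d0e829_nt.SS
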