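import Pool.Agent.Lib.MP_d0e829_nt.SS.SpecC1

/-!
# LNS: the case of linear functionals
-/

set_option autoImplicit false

open NumberField MvPolynomial

namespace Pool.Agent.Lib.MP_d0e829_nt.SS

open scoped Classical

namespace LNSM

lemma evA_apply {k : Type} [Field k] {Ω ι : Type} [Fintype ι] (f : Ω → ι → k) (A : Set Ω)
    (P : MvPolynomial ι k) (ω : A) : evA f A P ω = eval (f ω) P := by
  have h : (Pi.evalAlgHom k (fun _ : A => k) ω).comp (evA f A) = aeval (f ω) := by
    apply MvPolynomial.algHom_ext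
    intro i
    simp [evA]
  have h2 := congrArg (fun φ : MvPolynomial ι k →ₐ[k] k => φ P) h
  simp only [AlgHom.comp_apply, Pi.evalAlgHom_apply] at h2
  rw [h2]
  exact DFunLike.congr_fun (MvPolynomial.coe_aeval_eq_eval (f ω)) P

lemma eval_lin {k ι : Type} [Field k] [Fintype ι] (c z : ι → k) :
    eval z (lin c) = c ⬝ᵥ z := by
  unfold lin dotProduct
  rw [map_sum]
  exact Finset.sum_congr rfl fun j _ => by rw [map_mul, eval_C, eval_X]

lemma lin_homogeneous {k ι : Type} [Field k] [Fintype ι] (c : ι → k) :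
    (lin c).IsHomogeneous 1 := by
  unfold lin
  refine MvPolynomial.IsHomogeneous.sum _ _ _ fun j _ => ?_
  have := (isHomogeneous_C ι (c j)).mul (isHomogeneous_X k j)
  rwa [zero_add] at this

lemma exists_lin {k : Type} [Field k] {M : ℕ} (P : MvPolynomial (Fin M) k)
    (hP : P.IsHomogeneous 1) : ∃ c : Fin M → k, P = lin c := by
  have h1 : P ∈ Submodule.span k (Set.range (X : Fin M → MvPolynomial (Fin M) k)) := by
    rw [← homogeneousSubmodule_one_eq_span_X]
    exact hP
  obtain ⟨c, hc⟩ := (Submodule.mem_span_range_iff_exists_fun k).mp h1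
  refine ⟨c, ?_⟩
  rw [← hc]
  unfold lin
  exact Finset.sum_congr rfl fun j _ => by rw [smul_eq_C_mul]

end LNSM

open LNSM in
/-- LNS -/
theorem specLNS (hSUBI : SpecSUBI) : SpecLNS := by
  intro k _ _ Ω M n f Sm hSm A hA hf S y hy ε hε
  rcases S.eq_empty_or_nonempty with rfl | ⟨v₀, hv₀⟩
  · refine ⟨∅, 0, hSm.1, fun ω hω _ => ⟨by simp, ?_⟩⟩
    have h := ht_nonneg (hf ω hω)
    simp only [Finset.sum_empty, add_zero]
    positivity
  have hB : ∀ v ∈ S, IsB f A 1 (fun j => lin (y v j)) := by
    intro v hv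
    obtain ⟨hS, hI⟩ := hy v hv
    refine ⟨fun j => lin_homogeneous _, ?_, ?_⟩
    · rw [Fintype.linearIndependent_iff]
      intro b hb
      have h1 : b = 0 := by
        apply hI
        intro ω hω
        have h2 := congrFun hb ⟨ω, hω⟩
        simp only [Finset.sum_apply, Pi.smul_apply, evA_apply, smul_eq_mul, eval_lin,
          Pi.zero_apply] at h2
        exact h2
      intro i
      rw [h1]
      rfl
    · apply le_antisymm
      · rw [Submodule.span_le]
        rintro _ ⟨j, rfl⟩
        exact ⟨lin (y v j), lin_homogeneous _, rfl⟩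
      · rintro _ ⟨P, hP, rfl⟩
        obtain ⟨c, rfl⟩ := exists_lin P hP
        obtain ⟨b, hb⟩ := hS c
        rw [Submodule.mem_span_range_iff_exists_fun]
        refine ⟨b, ?_⟩
        funext ω
        simp only [Finset.sum_apply, Pi.smul_apply, evA_apply, smul_eq_mul, eval_lin,
          AlgHom.toLinearMap_apply]
        exact (hb ω ω.2).symm
  have hn : Module.finrank k (FS f A 1) = n := by
    have h := hB v₀ hv₀
    rw [← h.2.2, finrank_span_eq_card h.2.1, Fintype.card_fin]
  obtain ⟨B, C, hBs, hC⟩ := hSUBI k Ω M f Sm hSm A hA hf S 1 one_pos (fun _ => Fin n)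
    (fun v j => lin (y v j)) hB ε hε
  refine ⟨B, C, hBs, fun ω hω hωB => ?_⟩
  obtain ⟨h1, h2⟩ := hC ω hω hωB
  refine ⟨fun v hv j => ?_, ?_⟩
  · have := h1 v hv j
    rwa [eval_lin] at this
  · rw [hn] at h2
    simp only [eval_lin, Nat.cast_one, one_mul, mul_one] at h2
    exact h2

end Pool.Agent.Lib.MP_d0e829_nt.SS
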