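import Pool.Agent.Lib.MP_d0e829_nt.SS.SpecG

/-!
# MP_d0e829_nt, part C: module LVL (the sums over the places above `v`)
-/

set_option autoImplicit false
set_option linter.unusedSectionVars false

open NumberField

namespace Pool.Agent.Lib.MP_d0e829_nt.SS

namespace LVLM

theorem iSup_eq_max (f : Fin 3 → ℝ) : ∃ j₀, (∀ j, f j ≤ f j₀) ∧ ⨆ j, f j = f j₀ := by
  obtain ⟨j₀, h⟩ := Finite.exists_max f
  refine ⟨j₀, h, le_antisymm (ciSup_le h) (le_ciSup (Set.finite_range f).bddAbove j₀)⟩

theorem iSup_rpow (f : Fin 3 → ℝ) (h0 : ∀ j, 0 ≤ f j) :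
    ⨆ j, f j ^ (1 / 2 : ℝ) = (⨆ j, f j) ^ (1 / 2 : ℝ) := by
  obtain ⟨j₀, h1, h2⟩ := iSup_eq_max f
  rw [h2]
  apply le_antisymm
  · exact ciSup_le fun j => Real.rpow_le_rpow (h0 j) (h1 j) (by norm_num)
  · exact le_ciSup (f := fun j => f j ^ (1 / 2 : ℝ)) (Set.finite_range _).bddAbove j₀

theorem iSup_pos (f : Fin 3 → ℝ) (j : Fin 3) (h : 0 < f j) : 0 < ⨆ j, f j :=
  h.trans_le (le_ciSup (Set.finite_range f).bddAbove j)

variable {k : Type} [Field k] [NumberField k] {K : Type} [Field K] [NumberField K] [Algebra k K]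
  {v : Place k} {av : K → ℝ}

theorem av_nonneg (h : ExtAbs v K av) (z : K) : 0 ≤ av z := by
  rcases eq_or_ne z 0 with rfl | hz
  · rw [h.zero]
  · exact (h.pos z hz).le

theorem nav_pos (h : ExtAbs v K av) {x : Fin 3 → K} (hx : x ≠ 0) : 0 < nav av x := by
  obtain ⟨j, hj⟩ := Function.ne_iff.1 hx
  exact iSup_pos (fun j => av (x j)) j (h.pos _ hj)

theorem nrm_eq (h : ExtAbs v K av) (c : Fin 3 → k) :
    nrm v c = ⨆ j, av (algebraMap k K (c j)) := by
  unfold nrm
  simp only [h.ext]

theorem nrmPos (h : ExtAbs v K av) {c : Fin 3 → k} (hc : c ≠ 0) : 0 < nrm v c := by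
  rw [nrm_eq h]
  obtain ⟨j, hj⟩ := Function.ne_iff.1 hc
  refine iSup_pos (fun j => av (algebraMap k K (c j))) j (h.pos _ ?_)
  rw [Ne, FaithfulSMul.algebraMap_eq_zero_iff]
  exact hj

theorem evalForm_comp (τ : K ≃ₐ[k] K) (c : Fin 3 → k) (x : Fin 3 → K) :
    evalForm c (fun j => τ (x j)) = τ (evalForm c x) := by
  unfold evalForm
  rw [map_sum]
  refine Finset.sum_congr rfl fun j _ => ?_
  rw [map_mul, τ.commutes]

theorem ne_zero_of_eval {c : Fin 3 → k} {x : Fin 3 → K} (h : evalForm c x ≠ 0) : x ≠ 0 ∧ c ≠ 0 := by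
  constructor
  · rintro rfl
    exact h (by simp [evalForm])
  · rintro rfl
    exact h (by simp [evalForm])

theorem comp_ne_zero (τ : K ≃ₐ[k] K) {x : Fin 3 → K} (h : x ≠ 0) : (fun j => τ (x j)) ≠ 0 := by
  intro h0
  apply h
  funext j
  have := congrFun h0 j
  simpa using this

end LVLM

open LVLM in
theorem specLVL : SpecLVL := by
  intro k _ _ K _ _ _ v τ av hloc
  obtain ⟨hE, hcase⟩ := hloc
  rcases hcase with ⟨w, hw, hav, hτ⟩ | ⟨w, w', hne, hw, hav, hav'⟩
  · -- one place
    have hset : {w' : Place K | LiesOver w' v} = {w} := by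
      ext w'
      exact hw w'
    have hn : ∀ x : Fin 3 → K, normV w x = nav av x := by
      intro x
      unfold normV nav
      simp only [hav]
    have hnτ : ∀ x : Fin 3 → K, nav av (fun j => τ (x j)) = nav av x := by
      intro x
      unfold nav
      simp only [hτ]
    have hnc : ∀ c : Fin 3 → k, normV w (fun j => algebraMap k K (c j)) = nrm v c := by
      intro c
      rw [hn, nrm_eq hE]
      rfl
    refine ⟨fun x hx => ?_, fun c x hcx => ?_⟩
    · rw [hset, finsum_mem_singleton, hn, hnτ]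
      ring
    · obtain ⟨hx, hc⟩ := ne_zero_of_eval hcx
      have p1 := nav_pos hE hx
      have p2 := nrmPos hE hc
      have p3 := hE.pos _ hcx
      rw [hset, finsum_mem_singleton, hn, hnc, hav]
      unfold lam
      rw [hnτ, evalForm_comp, hτ, Real.log_div (mul_pos p1 p2).ne' p3.ne', Real.log_mul p1.ne' p2.ne']
      ring
  · -- two places
    have hset : {w' : Place K | LiesOver w' v} = {w, w'} := by
      ext w''
      rw [Set.mem_insert_iff, Set.mem_singleton_iff]
      exact hw w''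
    have hn : ∀ x : Fin 3 → K, normV w x = nav av x ^ (1 / 2 : ℝ) := by
      intro x
      unfold normV nav
      simp only [hav]
      exact iSup_rpow (fun j => av (x j)) fun j => av_nonneg hE _
    have hn' : ∀ x : Fin 3 → K, normV w' x = nav av (fun j => τ (x j)) ^ (1 / 2 : ℝ) := by
      intro x
      unfold normV nav
      simp only [hav']
      exact iSup_rpow (fun j => av (τ (x j))) fun j => av_nonneg hE _
    have hnc : ∀ c : Fin 3 → k, normV w (fun j => algebraMap k K (c j)) = nrm v c ^ (1 / 2 : ℝ) := by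
      intro c
      rw [hn, nrm_eq hE]
      rfl
    have hnc' : ∀ c : Fin 3 → k, normV w' (fun j => algebraMap k K (c j)) = nrm v c ^ (1 / 2 : ℝ) := by
      intro c
      rw [hn', nrm_eq hE]
      simp only [τ.commutes]
      rfl
    have hne' : w ≠ w' := hne
    refine ⟨fun x hx => ?_, fun c x hcx => ?_⟩
    · have p1 := nav_pos hE hx
      have p2 := nav_pos hE (comp_ne_zero τ hx)
      rw [hset, finsum_mem_pair hne', hn, hn', Real.log_rpow p1, Real.log_rpow p2]
      ring
    · obtain ⟨hx, hc⟩ := ne_zero_of_eval hcx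
      have p1 := nav_pos hE hx
      have p1' := nav_pos hE (comp_ne_zero τ hx)
      have p2 := nrmPos hE hc
      have p3 := hE.pos _ hcx
      have hcx' : τ (evalForm c x) ≠ 0 := by
        intro h0
        exact hcx (by simpa using h0)
      have p3' := hE.pos _ hcx'
      have q1 := Real.rpow_pos_of_pos p1 (1 / 2 : ℝ)
      have q1' := Real.rpow_pos_of_pos p1' (1 / 2 : ℝ)
      have q2 := Real.rpow_pos_of_pos p2 (1 / 2 : ℝ)
      have q3 := Real.rpow_pos_of_pos p3 (1 / 2 : ℝ)
      have q3' := Real.rpow_pos_of_pos p3' (1 / 2 : ℝ)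
      rw [hset, finsum_mem_pair hne', hn, hn', hnc, hnc', hav, hav',
        Real.log_div (mul_pos q1 q2).ne' q3.ne', Real.log_mul q1.ne' q2.ne',
        Real.log_div (mul_pos q1' q2).ne' q3'.ne', Real.log_mul q1'.ne' q2.ne',
        Real.log_rpow p1, Real.log_rpow p1', Real.log_rpow p2, Real.log_rpow p3, Real.log_rpow p3']
      unfold lam
      rw [evalForm_comp]
      ring

end Pool.Agent.Lib.MP_d0e829_nt.SS
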