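import Pool.Agent.Lib.MP_d0e829_nt.SS.SpecA

/-!
# The Subspace theorem, module M2: Minkowski's second theorem from M1 and DAV
-/

set_option autoImplicit false

open NumberField

namespace Pool.Agent.Lib.MP_d0e829_nt.SS

open scoped Classical

namespace M2M

variable {K : Type} [Field K] [NumberField K] {N : ℕ}

/-- the running maximum -/
noncomputable def rm (a : Fin N → ℝ) (j : Fin N) : ℝ :=
  (Finset.Iic j).sup' ⟨j, Finset.mem_Iic.2 le_rfl⟩ a

theorem le_rm (a : Fin N → ℝ) {l j : Fin N} (h : l ≤ j) : a l ≤ rm a j :=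
  Finset.le_sup' a (Finset.mem_Iic.2 h)

theorem rm_le (a : Fin N → ℝ) {j : Fin N} {B : ℝ} (h : ∀ l ≤ j, a l ≤ B) : rm a j ≤ B :=
  Finset.sup'_le _ _ fun l hl => h l (Finset.mem_Iic.1 hl)

theorem rm_mono (a : Fin N → ℝ) {l j : Fin N} (h : l ≤ j) : rm a l ≤ rm a j :=
  rm_le a fun _ hi => le_rm a (hi.trans h)

theorem fl_zero (x : Fin N → Fin N → K) : Fl x 0 = ⊥ := by
  unfold Fl
  simp

theorem fl_top (x : Fin N → Fin N → K) (hx : LinearIndependent K x) : Fl x N = ⊤ := by
  unfold Fl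
  have h1 : {i : Fin N | (i : ℕ) < N} = Set.univ := by
    ext i
    simp
  rw [h1, Set.image_univ]
  refine hx.span_eq_top_of_card_eq_finrank' ?_
  simp

theorem not_mem_fl (x : Fin N → Fin N → K) (hx : LinearIndependent K x) {l j : Fin N}
    (h : l ≤ j) : x j ∉ Fl x l := by
  unfold Fl
  refine hx.notMem_span_image ?_
  intro h2
  have h3 : (j : ℕ) < l := h2
  have h4 : (l : ℕ) ≤ j := h
  omega

end M2M

open M2M in
theorem specM2 (hM1 : SpecM1) (hDAV : SpecDAV) : SpecM2 := by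
  intro K _ _ N hN S hS L hL
  obtain ⟨C₁, hC₁⟩ := hM1 K N hN S hS L hL
  obtain ⟨v₁⟩ : Nonempty (InfinitePlace K) := inferInstance
  obtain ⟨v₀, hv₀⟩ : ∃ v₀ : Place K, v₀ = Sum.inl v₁ := ⟨_, rfl⟩
  have hv₀S : v₀ ∈ S := by
    rw [hv₀]
    exact hS.1 v₁
  have hNr : (0 : ℝ) < N := by exact_mod_cast hN
  obtain ⟨D, hD⟩ : ∃ D : ℝ, D = (N : ℝ) * sw v₀ * Real.log N := ⟨_, rfl⟩
  refine ⟨max 0 (N * (C₁ + D + 2)), le_max_left _ _, fun r hr x hx => ?_⟩
  refine le_trans ?_ (le_max_right _ _)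
  obtain ⟨hli, hred⟩ := hx
  set lam : Fin N → ℝ := fun j => htw S L r (x j) with hlam
  set Lam : ℝ := ∑ j, rm lam j with hLam
  set s : Fin N → ℝ := fun j => rm lam j - Lam / N with hs
  have hs0 : ∑ j, s j = 0 := by
    rw [hs]
    simp only [Finset.sum_sub_distrib, Finset.sum_const, Finset.card_univ, Fintype.card_fin,
      nsmul_eq_mul]
    rw [← hLam]
    field_simp
    ring
  have hrm1 : ∀ j, rm lam j ≤ lam j + 1 := fun j =>
    rm_le lam fun l hl => hred l (x j) (not_mem_fl x hli hl)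
  obtain ⟨π, hπ⟩ := hDAV K N (L v₀) v₀ (r v₀) x hli
  set r' : Place K → Fin N → ℝ := fun v i =>
    if v = v₀ then r v₀ i + s (π.symm i) else r v i with hr'
  have hr'v : r' v₀ = fun i => r v₀ i + s (π.symm i) := by
    funext i
    simp [hr']
  have hr'w : ∀ w, w ≠ v₀ → r' w = r w := by
    intro w hw
    funext i
    simp [hr', hw]
  have hsum : 0 ≤ ∑ v ∈ S, ∑ i, r' v i := by
    have h1 : ∑ v ∈ S, ∑ i, r' v i = ∑ v ∈ S, ∑ i, r v i + ∑ i, s (π.symm i) := by
      rw [← Finset.add_sum_erase S _ hv₀S, ← Finset.add_sum_erase S (fun v => ∑ i, r v i) hv₀S,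
        hr'v, Finset.sum_add_distrib]
      have h2 : ∑ v ∈ S.erase v₀, ∑ i, r' v i = ∑ v ∈ S.erase v₀, ∑ i, r v i := by
        refine Finset.sum_congr rfl fun v hv => ?_
        rw [hr'w v (Finset.ne_of_mem_erase hv)]
      rw [h2]
      ring
    rw [h1, hr, Equiv.sum_comp π.symm s, hs0]
    simp
  obtain ⟨y, hy, hyC⟩ := hC₁ r' hsum
  -- the least `m` with `y ∈ Fl x m`
  have hex : ∃ m, y ∈ Fl x m := ⟨N, by rw [fl_top x hli]; trivial⟩
  have hm := Nat.find_spec hex
  have hmN : Nat.find hex ≤ N := Nat.find_min' hex (by rw [fl_top x hli]; trivial)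
  have hm0 : Nat.find hex ≠ 0 := by
    intro h0
    rw [h0, fl_zero, Submodule.mem_bot] at hm
    exact hy hm
  obtain ⟨j, hj⟩ := Nat.exists_eq_succ_of_ne_zero hm0
  rw [hj] at hm hmN
  have hyj : y ∉ Fl x j := Nat.find_min hex (by omega)
  obtain ⟨jj, hjj⟩ : ∃ jj : Fin N, (jj : ℕ) = j := ⟨⟨j, by omega⟩, rfl⟩
  have hlow : lam jj ≤ htw S L r y + 1 := by
    refine hred jj y ?_
    rw [hjj]
    exact hyj
  -- comparison at `v₀`
  have hLv := hL v₀ hv₀S
  have htw' : 0 < tw (L v₀) (r' v₀) v₀ y := tw_pos hLv _ _ hy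
  have hcmp : tw (L v₀) (r v₀) v₀ y ≤
      (N : ℝ) ^ ((N : ℝ) * sw v₀) * (tw (L v₀) (r' v₀) v₀ y * Real.exp (s jj)) := by
    refine hπ (j + 1) y hm _ (mul_nonneg htw'.le (Real.exp_pos _).le) fun i hi => ?_
    have h1 := le_tw (L v₀) (r' v₀) v₀ y (π i)
    have h2 : r' v₀ (π i) = r v₀ (π i) + s i := by
      rw [hr'v]
      simp
    rw [h2] at h1
    have h3 : Real.exp (-(r v₀ (π i))) = Real.exp (-(r v₀ (π i) + s i)) * Real.exp (s i) := by
      rw [← Real.exp_add]
      congr 1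
      ring
    rw [h3, ← mul_assoc]
    have h4 : Real.exp (s i) ≤ Real.exp (s jj) := by
      refine Real.exp_le_exp.2 ?_
      rw [hs]
      have h5 : i ≤ jj := by
        rw [Fin.le_def, hjj]
        omega
      have h6 := rm_mono lam h5
      show rm lam i - Lam / N ≤ rm lam jj - Lam / N
      linarith
    exact mul_le_mul h1 h4 (Real.exp_pos _).le htw'.le
  have hlog : Real.log (tw (L v₀) (r v₀) v₀ y) ≤
      D + Real.log (tw (L v₀) (r' v₀) v₀ y) + s jj := by
    have h1 := Real.log_le_log (tw_pos hLv (r v₀) v₀ hy) hcmp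
    have h2 : (0 : ℝ) < (N : ℝ) ^ ((N : ℝ) * sw v₀) := Real.rpow_pos_of_pos hNr _
    rw [Real.log_mul h2.ne' (mul_pos htw' (Real.exp_pos _)).ne',
      Real.log_mul htw'.ne' (Real.exp_pos _).ne', Real.log_exp, Real.log_rpow hNr] at h1
    rw [hD]
    linarith
  have hH : htw S L r y ≤ htw S L r' y + (D + s jj) := by
    have hf1 := support_log_lcn_finite S L r hy
    have hf2 := support_log_lcn_finite S L r' hy
    have hf3 : (Function.support fun w : Place K => if w = v₀ then D + s jj else 0).Finite := by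
      refine (Set.finite_singleton v₀).subset ?_
      intro w hw
      by_contra hne
      apply hw
      have : w ≠ v₀ := hne
      simp [this]
    have hf4 : ∑ᶠ w : Place K, (if w = v₀ then D + s jj else 0) = D + s jj := by
      rw [finsum_eq_single (fun w : Place K => if w = v₀ then D + s jj else 0) v₀ (fun w hw => by
        simp [hw])]
      simp
    unfold htw
    rw [← hf4, ← finsum_add_distrib hf2 hf3]
    refine finsum_mono hf1 ((hf2.union hf3).subset ?_) fun w => ?_
    · exact Function.support_add _ _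
    · by_cases hw : w = v₀
      · subst hw
        simp only [lcn, hv₀S, if_true]
        linarith
      · have h1 : lcn S L r w y = lcn S L r' w y := by
          unfold lcn
          rw [hr'w w hw]
        simp [hw, h1]
  -- conclusion
  have hsj : s jj = rm lam jj - Lam / N := rfl
  have h1 := hrm1 jj
  have h2 : Lam / N ≤ C₁ + D + 2 := by linarith
  have h3 : Lam ≤ N * (C₁ + D + 2) := by
    rw [div_le_iff₀ hNr] at h2
    linarith
  refine le_trans ?_ h3
  exact Finset.sum_le_sum fun j _ => le_rm lam le_rfl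

end Pool.Agent.Lib.MP_d0e829_nt.SS
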