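import Pool.Agent.Lib.MP_d0e829_nt.SS.SpecC3

/-!
# NPR: the hypotheses of K2 for `UB U B`
-/

set_option autoImplicit false

open NumberField MvPolynomial

namespace Pool.Agent.Lib.MP_d0e829_nt.SS

open scoped Classical

namespace NPRM

variable {k : Type} [Field k]

theorem aux (V : Submodule k (Fin 6 → k)) (hV : Module.finrank k V = 2)
    (i1 i2 i3 j1 j2 j3 : Fin 6)
    (hall : ∀ i : Fin 6, i = i1 ∨ i = i2 ∨ i = i3 ∨ i = j1 ∨ i = j2 ∨ i = j3)
    (h : ∀ C ∈ V, C j1 = 0 ∧ C j2 = 0 ∧ C j3 = 0) :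
    ∃ C ∈ V, ∃ C' ∈ V,
      LinearIndependent k ![![C i1, C i2, C i3], ![C' i1, C' i2, C' i3]] := by
  let b := Module.finBasisOfFinrankEq k V hV
  have hb : LinearIndependent k fun i => ((b i : V) : Fin 6 → k) :=
    b.linearIndependent.map' V.subtype V.ker_subtype
  refine ⟨b 0, (b 0).2, b 1, (b 1).2, ?_⟩
  rw [LinearIndependent.pair_iff]
  intro s t hst
  have h0 := h _ (b 0).2
  have h1 := h _ (b 1).2
  have hz : s • ((b 0 : V) : Fin 6 → k) + t • ((b 1 : V) : Fin 6 → k) = 0 := by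
    funext i
    have e0 := congrFun hst 0
    have e1 := congrFun hst 1
    have e2 := congrFun hst 2
    simp only [Pi.add_apply, Pi.smul_apply, smul_eq_mul, Pi.zero_apply, Matrix.cons_val_zero,
      Matrix.cons_val_one, Matrix.cons_val] at e0 e1 e2
    simp only [Pi.add_apply, Pi.smul_apply, smul_eq_mul, Pi.zero_apply]
    rcases hall i with rfl | rfl | rfl | rfl | rfl | rfl
    · exact e0
    · exact e1
    · exact e2
    · rw [h0.1, h1.1]; ring
    · rw [h0.2.1, h1.2.1]; ring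
    · rw [h0.2.2, h1.2.2]; ring
  have hp : LinearIndependent k ![((b 0 : V) : Fin 6 → k), ((b 1 : V) : Fin 6 → k)] := by
    have he : (fun i => ((b i : V) : Fin 6 → k)) =
        ![((b 0 : V) : Fin 6 → k), ((b 1 : V) : Fin 6 → k)] := by
      funext i
      fin_cases i <;> rfl
    rw [← he]; exact hb
  exact LinearIndependent.pair_iff.1 hp s t hz

theorem rows (B : Matrix (Fin 3) (Fin 3) k) (hB : B.det ≠ 0) (i j : Fin 3) (h : i ≠ j) :
    LinearIndependent k ![B i, B j] := by
  have h1 : LinearIndependent k (fun i => B i) := Matrix.linearIndependent_rows_of_det_ne_zero hB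
  have h2 : Function.Injective ![i, j] := by
    intro a b hab
    fin_cases a <;> fin_cases b <;> simp_all
  have h3 := h1.comp _ h2
  have h4 : ((fun i => B i) ∘ ![i, j]) = ![B i, B j] := by
    funext a
    fin_cases a <;> rfl
  rw [h4] at h3
  exact h3

theorem sum6 (C : Fin 6 → k) (B : Matrix (Fin 3) (Fin 3) k) :
    ∑ i, C i • S2 B i = C 0 • sqv (B 0) + C 1 • sqv (B 1) + C 2 • sqv (B 2) +
      C 3 • mix (B 1) (B 2) + C 4 • mix (B 0) (B 2) + C 5 • mix (B 0) (B 1) := by
  rw [Fin.sum_univ_six]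
  rfl

end NPRM

open NPRM in
theorem specNPR (hUBP : SpecUBP) : SpecNPR := by
  intro k _ U B hB hS hU hsq hbin
  obtain ⟨h1, h2, h3⟩ := hUBP k U B hS
  rw [hU] at h1
  refine ⟨?_, ?_, ?_, ?_⟩
  · intro i hi
    rw [h2]
    have hrow : ∀ j : Fin 3, B j ≠ 0 := by
      intro j hj
      exact hB (Matrix.det_eq_zero_of_row_eq_zero j fun t => congrFun hj t)
    have hc : i = 0 ∨ i = 1 ∨ i = 2 := by
      revert i
      decide
    rcases hc with rfl | rfl | rfl
    · exact hsq _ (hrow 0)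
    · exact hsq _ (hrow 1)
    · exact hsq _ (hrow 2)
  · by_contra hcon
    have hz : ∀ C ∈ UB U B, C 1 = 0 ∧ C 3 = 0 ∧ C 5 = 0 := by
      intro C hC
      refine ⟨?_, ?_, ?_⟩
      · by_contra h; exact hcon ⟨C, hC, Or.inl h⟩
      · by_contra h; exact hcon ⟨C, hC, Or.inr (Or.inl h)⟩
      · by_contra h; exact hcon ⟨C, hC, Or.inr (Or.inr h)⟩
    obtain ⟨C, hC, C', hC', hli⟩ := aux (UB U B) h1 0 4 2 1 3 5 (by decide) hz
    refine hbin (B 0) (B 2) (rows B hB 0 2 (by decide)) _ _ hli ⟨?_, ?_⟩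
    · have := (h3 C).1 hC
      rw [sum6, (hz C hC).1, (hz C hC).2.1, (hz C hC).2.2] at this
      convert this using 1
      simp only [tri, Matrix.cons_val_zero, Matrix.cons_val_one, Matrix.cons_val, zero_smul]
      abel
    · have := (h3 C').1 hC'
      rw [sum6, (hz C' hC').1, (hz C' hC').2.1, (hz C' hC').2.2] at this
      convert this using 1
      simp only [tri, Matrix.cons_val_zero, Matrix.cons_val_one, Matrix.cons_val, zero_smul]
      abel
  · by_contra hcon
    have hz : ∀ C ∈ UB U B, C 0 = 0 ∧ C 4 = 0 ∧ C 5 = 0 := by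
      intro C hC
      refine ⟨?_, ?_, ?_⟩
      · by_contra h; exact hcon ⟨C, hC, Or.inl h⟩
      · by_contra h; exact hcon ⟨C, hC, Or.inr (Or.inl h)⟩
      · by_contra h; exact hcon ⟨C, hC, Or.inr (Or.inr h)⟩
    obtain ⟨C, hC, C', hC', hli⟩ := aux (UB U B) h1 1 3 2 0 4 5 (by decide) hz
    refine hbin (B 1) (B 2) (rows B hB 1 2 (by decide)) _ _ hli ⟨?_, ?_⟩
    · have := (h3 C).1 hC
      rw [sum6, (hz C hC).1, (hz C hC).2.1, (hz C hC).2.2] at this
      convert this using 1
      simp only [tri, Matrix.cons_val_zero, Matrix.cons_val_one, Matrix.cons_val, zero_smul]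
      abel
    · have := (h3 C').1 hC'
      rw [sum6, (hz C' hC').1, (hz C' hC').2.1, (hz C' hC').2.2] at this
      convert this using 1
      simp only [tri, Matrix.cons_val_zero, Matrix.cons_val_one, Matrix.cons_val, zero_smul]
      abel
  · by_contra hcon
    have hz : ∀ C ∈ UB U B, C 2 = 0 ∧ C 3 = 0 ∧ C 4 = 0 := by
      intro C hC
      refine ⟨?_, ?_, ?_⟩
      · by_contra h; exact hcon ⟨C, hC, Or.inl h⟩
      · by_contra h; exact hcon ⟨C, hC, Or.inr (Or.inl h)⟩
      · by_contra h; exact hcon ⟨C, hC, Or.inr (Or.inr h)⟩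
    obtain ⟨C, hC, C', hC', hli⟩ := aux (UB U B) h1 0 5 1 2 3 4 (by decide) hz
    refine hbin (B 0) (B 1) (rows B hB 0 1 (by decide)) _ _ hli ⟨?_, ?_⟩
    · have := (h3 C).1 hC
      rw [sum6, (hz C hC).1, (hz C hC).2.1, (hz C hC).2.2] at this
      convert this using 1
      simp only [tri, Matrix.cons_val_zero, Matrix.cons_val_one, Matrix.cons_val, zero_smul]
      abel
    · have := (h3 C').1 hC'
      rw [sum6, (hz C' hC').1, (hz C' hC').2.1, (hz C' hC').2.2] at this
      convert this using 1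
      simp only [tri, Matrix.cons_val_zero, Matrix.cons_val_one, Matrix.cons_val, zero_smul]
      abel

end Pool.Agent.Lib.MP_d0e829_nt.SS
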