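import Pool.Agent.Lib.MP_d0e829_nt.SS.SpecC1

/-!
# PAR: change of coordinates
-/

set_option autoImplicit false

open NumberField MvPolynomial

namespace Pool.Agent.Lib.MP_d0e829_nt.SS

open scoped Classical

namespace PARM

variable {k : Type} [Field k]

theorem eval_lin {M : ℕ} (c g : Fin M → k) : eval g (lin c) = c ⬝ᵥ g := by
  simp [lin, dotProduct]

theorem eval_aeval {M r : ℕ} (g : Fin M → k) (y : Fin r → Fin M → k)
    (P : MvPolynomial (Fin r) k) :
    eval (fun j => y j ⬝ᵥ g) P
      = eval g (aeval (fun j => lin (y j)) P : MvPolynomial (Fin M) k) := by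
  induction P using MvPolynomial.induction_on with
  | C a => simp
  | add p q hp hq => simp only [map_add, hp, hq]
  | mul_X p j hp => simp only [map_mul, hp, eval_X, aeval_X, eval_lin]

theorem lin_hom {M : ℕ} (c : Fin M → k) : (lin c).IsHomogeneous 1 := by
  unfold lin
  apply MvPolynomial.IsHomogeneous.sum
  intro j _
  have h := (isHomogeneous_C (Fin M) (c j)).mul (isHomogeneous_X k j)
  simpa using h

theorem aeval_hom {M r : ℕ} (y : Fin r → Fin M → k) (m : ℕ) (P : MvPolynomial (Fin r) k)
    (hP : P.IsHomogeneous m) :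
    (aeval (fun j => lin (y j)) P : MvPolynomial (Fin M) k).IsHomogeneous m := by
  have h := hP.aeval (fun j => lin (y j)) (n := 1) (fun j => lin_hom (y j))
  simpa using h

theorem evA_apply {Ω : Type} {M : ℕ} (f : Ω → Fin M → k) (A : Set Ω)
    (P : MvPolynomial (Fin M) k) (ω : A) : evA f A P ω = eval (f ω) P := by
  induction P using MvPolynomial.induction_on with
  | C a => simp [evA]
  | add p q hp hq => simp only [map_add, Pi.add_apply, hp, hq]
  | mul_X p j hp =>
    rw [map_mul, Pi.mul_apply, hp, map_mul, eval_X]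
    simp [evA]

end PARM

open PARM

theorem specPAR : SpecPAR := by
  intro k _ Ω M r f A y
  refine ⟨fun ω P => eval_aeval (f ω) y P, aeval_hom y, ?_, ?_⟩
  · intro Sm hG
    refine ⟨hG.1, ?_⟩
    intro m P hP hex
    have h := hG.2 m _ (aeval_hom y m P hP) (by
      obtain ⟨ω, hω, h0⟩ := hex
      exact ⟨ω, hω, by rwa [← eval_aeval]⟩)
    simpa only [← eval_aeval] using h
  · intro hS m
    apply le_antisymm
    · rintro _ ⟨P, hP, rfl⟩
      refine ⟨aeval (fun j => lin (y j)) P, aeval_hom y m P hP, ?_⟩
      funext ω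
      change evA f A _ ω = evA (fun ω j => y j ⬝ᵥ f ω) A P ω
      rw [evA_apply, evA_apply, ← eval_aeval]
    · rintro _ ⟨P, hP, rfl⟩
      choose b hb using fun i : Fin M => hS (Pi.single i 1)
      refine ⟨aeval (fun i => lin (b i)) P, aeval_hom b m P hP, ?_⟩
      funext ω
      change evA (fun ω j => y j ⬝ᵥ f ω) A _ ω = evA f A P ω
      rw [evA_apply, evA_apply, ← eval_aeval]
      congr 1
      congr 1
      funext i
      have h := hb i ω.1 ω.2
      rw [single_dotProduct, one_mul] at h
      rw [h]
      rfl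

end Pool.Agent.Lib.MP_d0e829_nt.SS
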