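import Pool.Agent.Lib.MP_d0e829_nt.SS.SpecG
import Pool.Agent.Lib.MP_d0e829_nt.Count

set_option autoImplicit false

open NumberField

namespace Pool.Agent.Lib.MP_d0e829_nt.SS

open scoped Classical

namespace PLBM

section

variable {k : Type} [Field k] [NumberField k] {K : Type} [Field K] [NumberField K] [Algebra k K]

lemma existsUnique_below (w : Place K) : ∃! v : Place k, LiesOver w v := by
  cases w with
  | inl w =>
    refine ⟨Sum.inl (w.comap (algebraMap k K)), rfl, ?_⟩
    intro v hv
    cases v with
    | inl v =>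
      have h : w.comap (algebraMap k K) = v := hv
      rw [h]
    | inr v => exact hv.elim
  | inr w =>
    have hnz : NoZeroSMulDivisors (𝓞 k) (𝓞 K) := by
      refine ⟨fun {c x} h => ?_⟩
      rw [Algebra.smul_def, mul_eq_zero] at h
      exact h.imp_left fun h => (FaithfulSMul.algebraMap_eq_zero_iff (𝓞 k) (𝓞 K)).mp h
    have hprime : (w.maximalIdeal.asIdeal.comap (algebraMap (𝓞 k) (𝓞 K))).IsPrime := by
      have := w.maximalIdeal.isPrime
      exact Ideal.comap_isPrime _ _
    have hbot : w.maximalIdeal.asIdeal.comap (algebraMap (𝓞 k) (𝓞 K)) ≠ ⊥ := by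
      obtain ⟨x, hx, hx0⟩ := Submodule.exists_mem_ne_zero_of_ne_bot w.maximalIdeal.ne_bot
      exact Ideal.comap_ne_bot_of_integral_mem hx0 hx (Algebra.IsIntegral.isIntegral x)
    refine ⟨Sum.inr (FinitePlace.mk ⟨_, hprime, hbot⟩), ?_, ?_⟩
    · change w.maximalIdeal.asIdeal.comap (algebraMap (𝓞 k) (𝓞 K)) = _
      rw [FinitePlace.maximalIdeal_mk]
    · intro v hv
      cases v with
      | inl v => exact hv.elim
      | inr v =>
        have h : w.maximalIdeal.asIdeal.comap (algebraMap (𝓞 k) (𝓞 K)) =
          v.maximalIdeal.asIdeal := hv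
        congr 1
        apply FinitePlace.maximalIdeal_injective
        simp only [FinitePlace.maximalIdeal_mk]
        exact IsDedekindDomain.HeightOneSpectrum.ext h.symm

lemma sum_fibres {α β : Type*} (B : α → β) (g : α → ℝ) (hg : (Function.support g).Finite) :
    (Function.support fun v : β => ∑ᶠ w ∈ {w : α | B w = v}, g w).Finite ∧
    ∑ᶠ v : β, ∑ᶠ w ∈ {w : α | B w = v}, g w = ∑ᶠ w : α, g w := by
  set s := hg.toFinset with hs
  have hmem : ∀ w, w ∈ s ↔ g w ≠ 0 := fun w => by rw [hs, Set.Finite.mem_toFinset]; rfl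
  have h1 : ∀ v : β, ∑ᶠ w ∈ {w : α | B w = v}, g w = ∑ w ∈ s.filter (fun w => B w = v), g w := by
    intro v
    apply finsum_mem_eq_sum_of_inter_support_eq
    ext w
    simp only [Set.mem_inter_iff, Set.mem_setOf_eq, Function.mem_support, Finset.coe_filter, hmem]
    tauto
  have h2 : (Function.support fun v : β => ∑ᶠ w ∈ {w : α | B w = v}, g w) ⊆
      (s.image B : Finset β) := by
    intro v hv
    rw [Function.mem_support, h1] at hv
    obtain ⟨w, hw, -⟩ := Finset.exists_ne_zero_of_sum_ne_zero hv
    rw [Finset.mem_filter] at hw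
    rw [Finset.mem_coe, Finset.mem_image]
    exact ⟨w, hw.1, hw.2⟩
  refine ⟨(Finset.finite_toSet _).subset h2, ?_⟩
  rw [finsum_eq_sum_of_support_subset _ h2]
  rw [finsum_eq_sum_of_support_subset g (s := s) (fun w hw => by
    rw [Finset.mem_coe, hmem]; exact hw)]
  rw [Finset.sum_congr rfl (fun v _ => h1 v)]
  exact Finset.sum_fiberwise_of_maps_to (fun w hw => Finset.mem_image_of_mem B hw) g

end

end PLBM

open PLBM in
theorem specPLB : SpecPLB := by
  intro k _ _ K _ _ _
  have hex : ∀ w : Place K, ∃! v : Place k, LiesOver w v := existsUnique_below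
  refine ⟨hex, ?_, ?_⟩
  · intro g hg
    choose B hB hB' using hex
    have hset : ∀ v : Place k, {w : Place K | LiesOver w v} = {w : Place K | B w = v} := by
      intro v
      ext w
      simp only [Set.mem_setOf_eq]
      constructor
      · intro h
        exact (hB' w v h).symm
      · rintro rfl
        exact hB w
    simp only [hset]
    exact sum_fibres B g hg
  · intro S g
    rw [placesAbove_eq]
    have h := finsum_mem_biUnion (f := g) (I := (S : Set (Place k)))
      (t := fun v : Place k => {w : Place K | LiesOver w v}) ?_ S.finite_toSet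
      (fun v _ => (finite_above v).1)
    · rw [finsum_mem_coe_finset] at h
      exact h
    · intro v _ v' _ hne
      rw [Function.onFun, Set.disjoint_left]
      intro w hw hw'
      exact hne ((hex w).unique hw hw')

end Pool.Agent.Lib.MP_d0e829_nt.SS
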