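import Pool.Agent.Lib.MP_d0e829_nt.SS.SpecC3

set_option autoImplicit false

open NumberField MvPolynomial

namespace Pool.Agent.Lib.MP_d0e829_nt.SS

open scoped Classical

namespace POLM

theorem eval_lin {k ι : Type} [Field k] [Fintype ι] (c f : ι → k) : eval f (lin c) = c ⬝ᵥ f := by
  unfold lin
  rw [map_sum]
  refine Finset.sum_congr rfl fun j _ => ?_
  rw [eval_mul, eval_C, eval_X]

theorem map_dlt {R R' : Type} [CommRing R] [CommRing R'] (φ : R →+* R') (w : Fin 6 → R) :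
    φ (dlt w) = dlt fun i => φ (w i) := by
  have h4 : φ 4 = 4 := map_ofNat φ 4
  simp [dlt, h4]

theorem eval_Dl {k ι : Type} [Field k] [Fintype ι] (N : Fin 6 → ι → k) (g : ι → k) :
    eval g (Dl N) = dlt fun i => N i ⬝ᵥ g := by
  unfold Dl
  have h := map_dlt (eval g) (fun i => lin (N i))
  rw [h]
  congr 1
  funext i
  exact eval_lin _ _

theorem sum_smul_eq {k : Type} [Field k] (Q : Matrix (Fin 6) (Fin 6) k) (e : Fin 4 → Fin 6)
    (c : Fin 6 → k) (b : Fin 4 → k) :
    ∑ l, (c - ∑ j, b j • (Pi.single (e j) (1 : k) : Fin 6 → k)) l • Q l =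
      ∑ l, c l • Q l - ∑ j, b j • Q (e j) := by
  have h1 : ∀ l, (c - ∑ j, b j • (Pi.single (e j) (1 : k) : Fin 6 → k)) l • Q l =
      c l • Q l - ∑ j, (b j * (Pi.single (e j) (1 : k) : Fin 6 → k) l) • Q l := by
    intro l
    rw [Pi.sub_apply, Finset.sum_apply, sub_smul, Finset.sum_smul]
    rfl
  rw [Finset.sum_congr rfl fun l _ => h1 l, Finset.sum_sub_distrib, Finset.sum_comm]
  congr 1
  refine Finset.sum_congr rfl fun j _ => ?_
  rw [Finset.sum_eq_single (e j)]
  · rw [Pi.single_eq_same, mul_one]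
  · intro l _ hl
    rw [Pi.single_eq_of_ne hl, mul_zero, zero_smul]
  · intro h
    exact absurd (Finset.mem_univ _) h

theorem sum_single {k : Type} [Field k] (Q : Matrix (Fin 6) (Fin 6) k) (i : Fin 6) :
    ∑ l, (Pi.single i (1 : k) : Fin 6 → k) l • Q l = Q i := by
  rw [Finset.sum_eq_single i]
  · rw [Pi.single_eq_same, one_smul]
  · intro l _ hl
    rw [Pi.single_eq_of_ne hl, zero_smul]
  · intro h
    exact absurd (Finset.mem_univ _) h

theorem key {k : Type} [Field k] (U : Submodule k (Fin 6 → k)) (B : Matrix (Fin 3) (Fin 3) k)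
    (e : Fin 4 → Fin 6) (N : Fin 6 → Fin 4 → k) (hEN : EN (UB U B) e N) (i : Fin 6) :
    S2 B i - ∑ j, N i j • S2 B (e j) ∈ U := by
  have h1 : ∑ l, ((Pi.single i (1 : k) : Fin 6 → k) -
      ∑ j, N i j • (Pi.single (e j) (1 : k) : Fin 6 → k)) l • S2 B l ∈ U := hEN.2.2 i
  rwa [sum_smul_eq, sum_single] at h1

theorem dot_eq {k : Type} [Field k] (U : Submodule k (Fin 6 → k)) (B : Matrix (Fin 3) (Fin 3) k)
    (e : Fin 4 → Fin 6) (N : Fin 6 → Fin 4 → k) (hEN : EN (UB U B) e N) (w : Fin 6 → k)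
    (hw : ∀ c ∈ U, c ⬝ᵥ w = 0) (i : Fin 6) :
    S2 B i ⬝ᵥ w = ∑ j, N i j * (S2 B (e j) ⬝ᵥ w) := by
  have h1 := hw _ (key U B e N hEN i)
  rw [sub_dotProduct, sum_dotProduct, sub_eq_zero] at h1
  rw [h1]
  refine Finset.sum_congr rfl fun j _ => ?_
  rw [smul_dotProduct, smul_eq_mul]

end POLM

open POLM

theorem specPOL (_hUBP : SpecUBP) : SpecPOL := by
  intro k _ Ω f A B e N hdet hdl hB hfr hEN hdf hw
  have hUf : ∀ ω ∈ A, ∀ c ∈ UU f A, c ⬝ᵥ f ω = 0 := fun ω hω c hc => hc ω hω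
  -- spanning
  have hspan : ∀ c : Fin 6 → k, ∃ b : Fin 4 → k, c - ∑ j, b j • S2 B (e j) ∈ UU f A := by
    intro c
    have hunit : IsUnit (S2 B).det := isUnit_iff_ne_zero.2 hdet
    have hc : ∑ i, (Matrix.vecMul c (S2 B)⁻¹) i • S2 B i = c := by
      have h1 : Matrix.vecMul (Matrix.vecMul c (S2 B)⁻¹) (S2 B) = c := by
        rw [Matrix.vecMul_vecMul, Matrix.nonsing_inv_mul _ hunit, Matrix.vecMul_one]
      exact (Matrix.vecMul_eq_sum _ _).symm.trans h1
    refine ⟨fun j => ∑ i, (Matrix.vecMul c (S2 B)⁻¹) i * N i j, ?_⟩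
    have h2 : c - ∑ j, (∑ i, (Matrix.vecMul c (S2 B)⁻¹) i * N i j) • S2 B (e j) =
        ∑ i, (Matrix.vecMul c (S2 B)⁻¹) i • (S2 B i - ∑ j, N i j • S2 B (e j)) := by
      conv_lhs => rw [← hc]
      simp only [smul_sub, Finset.sum_sub_distrib, Finset.smul_sum, smul_smul, Finset.sum_smul]
      rw [hc]
      congr 1
      rw [Finset.sum_comm]
    rw [h2]
    exact Submodule.sum_mem _ fun i _ => Submodule.smul_mem _ _ (key _ B e N hEN i)
  -- the map to the quotient
  have hind : ∀ b : Fin 4 → k, ∑ j, b j • S2 B (e j) ∈ UU f A → b = 0 := by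
    intro b hb
    let L : (Fin 4 → k) →ₗ[k] (Fin 6 → k) ⧸ UU f A :=
      (UU f A).mkQ ∘ₗ Fintype.linearCombination k (fun j => S2 B (e j))
    have hsurj : Function.Surjective L := by
      intro z
      obtain ⟨c, rfl⟩ := Submodule.Quotient.mk_surjective _ z
      obtain ⟨b, hb⟩ := hspan c
      refine ⟨b, ?_⟩
      show Submodule.Quotient.mk (Fintype.linearCombination k (fun j => S2 B (e j)) b) =
        Submodule.Quotient.mk c
      rw [Fintype.linearCombination_apply, eq_comm, Submodule.Quotient.eq]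
      exact hb
    have hfin : Module.finrank k (Fin 4 → k) = Module.finrank k ((Fin 6 → k) ⧸ UU f A) := by
      have h1 := Submodule.finrank_quotient_add_finrank (UU f A)
      rw [Module.finrank_fin_fun, hfr] at h1
      rw [Module.finrank_fin_fun]
      omega
    have hinj := (LinearMap.injective_iff_surjective_of_finrank_eq_finrank hfin).2 hsurj
    apply hinj
    rw [map_zero]
    show Submodule.Quotient.mk (Fintype.linearCombination k (fun j => S2 B (e j)) b) = 0
    rw [Fintype.linearCombination_apply, Submodule.Quotient.mk_eq_zero]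
    exact hb
  have heval : ∀ w : Fin 6 → k, (∀ c ∈ UU f A, c ⬝ᵥ w = 0) →
      eval (fun j => S2 B (e j) ⬝ᵥ w) (Dl N) = B.det ^ 2 * dlt w := by
    intro w hw
    rw [eval_Dl, ← hdl w]
    congr 1
    funext i
    show N i ⬝ᵥ (fun j => S2 B (e j) ⬝ᵥ w) = S2 B i ⬝ᵥ w
    rw [dot_eq _ B e N hEN w hw i]
    rfl
  refine ⟨?_, ?_, ?_, ?_, ?_⟩
  · intro c
    obtain ⟨b, hb⟩ := hspan c
    refine ⟨b, fun ω hω => ?_⟩
    have h1 := hb ω hω
    rw [sub_dotProduct, sum_dotProduct, sub_eq_zero] at h1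
    rw [h1]
    refine Finset.sum_congr rfl fun j _ => ?_
    rw [smul_dotProduct, smul_eq_mul]
  · intro b hb
    apply hind
    intro ω hω
    rw [sum_dotProduct, ← hb ω hω]
    refine Finset.sum_congr rfl fun j _ => ?_
    rw [smul_dotProduct, smul_eq_mul]
  · intro ω hω
    rw [heval (f ω) (hUf ω hω), hdf ω hω, mul_zero]
  · obtain ⟨w, hw1, hw2⟩ := hw
    intro h0
    have h1 := heval w hw1
    rw [h0, map_zero] at h1
    exact mul_ne_zero (pow_ne_zero 2 hB) hw2 h1.symm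
  · intro N' hEN'
    funext i
    have h1 := key _ B e N hEN i
    have h2 := key _ B e N' hEN' i
    have h3 := (UU f A).sub_mem h1 h2
    have h4 : S2 B i - ∑ j, N i j • S2 B (e j) - (S2 B i - ∑ j, N' i j • S2 B (e j)) =
        ∑ j, (N' i - N i) j • S2 B (e j) := by
      simp only [Pi.sub_apply, sub_smul, Finset.sum_sub_distrib]
      abel
    rw [h4] at h3
    exact sub_eq_zero.1 (hind _ h3)

end Pool.Agent.Lib.MP_d0e829_nt.SS
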