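import Pool.Agent.Lib.MP_d0e829_nt.SS.SpecG

/-!
# PRI: sets which are not small
-/

set_option autoImplicit false

open NumberField

namespace Pool.Agent.Lib.MP_d0e829_nt.SS

open scoped Classical

namespace PRIM

variable {k : Type} [Field k]

lemma minor {X Z : Fin 3 → k} (h : LinearIndependent k ![X, Z]) :
    ∃ i j, X i * Z j - X j * Z i ≠ 0 := by
  rw [LinearIndependent.pair_iff] at h
  by_contra hcon
  push Not at hcon
  have hX : X ≠ 0 := by
    rintro rfl
    have := (h 1 0 (by simp)).1
    exact one_ne_zero this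
  obtain ⟨i, hi⟩ := Function.ne_iff.1 hX
  have h1 := (h (Z i) (-X i) (by
    ext j
    have := hcon i j
    simp only [Pi.add_apply, Pi.smul_apply, smul_eq_mul, Pi.zero_apply]
    linear_combination (-1 : k) * this)).2
  exact hi (by simpa using h1)

lemma indep {K : Type} [Field K] [Algebra k K] {X Z : Fin 3 → k}
    (h : LinearIndependent k ![X, Z]) {α β : K}
    (h0 : ∀ j, α * algebraMap k K (X j) + β * algebraMap k K (Z j) = 0) : α = 0 ∧ β = 0 := by
  obtain ⟨i, j, hij⟩ := minor h
  have hne : algebraMap k K (X i * Z j - X j * Z i) ≠ 0 :=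
    (map_ne_zero_iff _ (algebraMap k K).injective).2 hij
  have hi := h0 i
  have hj := h0 j
  constructor
  · apply (mul_eq_zero.1 (?_ : α * algebraMap k K (X i * Z j - X j * Z i) = 0)).resolve_right hne
    rw [map_sub, map_mul, map_mul]
    linear_combination (algebraMap k K (Z j)) * hi - (algebraMap k K (Z i)) * hj
  · apply (mul_eq_zero.1 (?_ : β * algebraMap k K (X i * Z j - X j * Z i) = 0)).resolve_right hne
    rw [map_sub, map_mul, map_mul]
    linear_combination (algebraMap k K (X i)) * hj - (algebraMap k K (X j)) * hi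

lemma cross_ne {a b : Fin 3 → k} (h : LinearIndependent k ![a, b]) :
    a 1 * b 2 - a 2 * b 1 ≠ 0 ∨ a 2 * b 0 - a 0 * b 2 ≠ 0 ∨ a 0 * b 1 - a 1 * b 0 ≠ 0 := by
  obtain ⟨i, j, hij⟩ := minor h
  by_contra hcon
  push Not at hcon
  obtain ⟨h0, h1, h2⟩ := hcon
  apply hij
  fin_cases i <;> fin_cases j <;> simp only [Fin.zero_eta, Fin.mk_one, Fin.reduceFinMk]
  · ring
  · linear_combination h2
  · linear_combination -h1
  · linear_combination -h2
  · ring
  · linear_combination h0
  · linear_combination h1
  · linear_combination -h0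
  · ring

/-- the finite set of forms -/
lemma forms {K : Type} [Field K] [Algebra k K] [IsAlgClosed K] [CharZero K] {X Z : Fin 3 → k}
    (h : LinearIndependent k ![X, Z]) (e0 e1 e2 : K) (he : e0 ≠ 0 ∨ e1 ≠ 0 ∨ e2 ≠ 0) :
    ∃ F : Finset (Fin 3 → K), (∀ M ∈ F, M ≠ 0) ∧ (fun j => algebraMap k K (X j)) ∈ F ∧
      ∀ x : Fin 3 → K, e2 * (∑ j, algebraMap k K (X j) * x j) ^ 2 -
        e1 * (∑ j, algebraMap k K (X j) * x j) * (∑ j, algebraMap k K (Z j) * x j) +
        e0 * (∑ j, algebraMap k K (Z j) * x j) ^ 2 = 0 → ∃ M ∈ F, ∑ j, M j * x j = 0 := by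
  have key : ∀ α β : K, (α ≠ 0 ∨ β ≠ 0) →
      (fun j => α * algebraMap k K (X j) + β * algebraMap k K (Z j)) ≠ (0 : Fin 3 → K) := by
    intro α β hαβ h0
    have := indep (K := K) h (fun j => congrFun h0 j)
    rcases hαβ with h1 | h1
    · exact h1 this.1
    · exact h1 this.2
  have hX : (fun j => algebraMap k K (X j)) ≠ (0 : Fin 3 → K) := by
    have := key 1 0 (Or.inl one_ne_zero)
    simpa using this
  have hsum : ∀ (α β : K) (x : Fin 3 → K),
      ∑ j, (α * algebraMap k K (X j) + β * algebraMap k K (Z j)) * x j =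
        α * (∑ j, algebraMap k K (X j) * x j) + β * (∑ j, algebraMap k K (Z j) * x j) := by
    intro α β x
    rw [Finset.mul_sum, Finset.mul_sum, ← Finset.sum_add_distrib]
    refine Finset.sum_congr rfl fun j _ => ?_
    ring
  by_cases h2 : e2 = 0
  · have he' : -e1 ≠ 0 ∨ e0 ≠ 0 := by
      rcases he with h3 | h3 | h3
      · exact Or.inr h3
      · exact Or.inl (neg_ne_zero.2 h3)
      · exact absurd h2 h3
    refine ⟨{(fun j => algebraMap k K (X j)),
      (fun j => 0 * algebraMap k K (X j) + 1 * algebraMap k K (Z j)),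
      (fun j => -e1 * algebraMap k K (X j) + e0 * algebraMap k K (Z j))}, ?_, by simp, ?_⟩
    · intro M hM
      simp only [Finset.mem_insert, Finset.mem_singleton] at hM
      rcases hM with rfl | rfl | rfl
      · exact hX
      · exact key 0 1 (Or.inr one_ne_zero)
      · exact key _ _ he'
    · intro x hx
      rw [h2] at hx
      have h3 : (∑ j, algebraMap k K (Z j) * x j) *
          (-e1 * (∑ j, algebraMap k K (X j) * x j) + e0 * (∑ j, algebraMap k K (Z j) * x j)) =
          0 := by
        linear_combination hx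
      rcases mul_eq_zero.1 h3 with h4 | h4
      · refine ⟨_, by simp only [Finset.mem_insert, true_or, or_true]; exact Or.inr (Or.inl rfl), ?_⟩
        rw [hsum, zero_mul, one_mul, zero_add]
        exact h4
      · refine ⟨(fun j => -e1 * algebraMap k K (X j) + e0 * algebraMap k K (Z j)), by simp, ?_⟩
        rw [hsum]
        exact h4
  · obtain ⟨s, hs⟩ := IsAlgClosed.exists_pow_nat_eq (e1 ^ 2 - 4 * e0 * e2) (n := 2) (by norm_num)
    have h22 : (2 : K) ≠ 0 := two_ne_zero
    set r1 : K := (e1 + s) / (2 * e2) with hr1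
    set r2 : K := (e1 - s) / (2 * e2) with hr2
    refine ⟨{(fun j => algebraMap k K (X j)),
      (fun j => 1 * algebraMap k K (X j) + (-r1) * algebraMap k K (Z j)),
      (fun j => 1 * algebraMap k K (X j) + (-r2) * algebraMap k K (Z j))}, ?_, by simp, ?_⟩
    · intro M hM
      simp only [Finset.mem_insert, Finset.mem_singleton] at hM
      rcases hM with rfl | rfl | rfl
      · exact hX
      · exact key 1 _ (Or.inl one_ne_zero)
      · exact key 1 _ (Or.inl one_ne_zero)
    · intro x hx
      have hsumr : e2 * (r1 + r2) = e1 := by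
        rw [hr1, hr2]
        field_simp
        ring
      have hprod : e2 * (r1 * r2) = e0 := by
        rw [hr1, hr2]
        field_simp
        linear_combination -hs
      have h3 : e2 * ((1 * (∑ j, algebraMap k K (X j) * x j) +
            (-r1) * (∑ j, algebraMap k K (Z j) * x j)) *
          (1 * (∑ j, algebraMap k K (X j) * x j) +
            (-r2) * (∑ j, algebraMap k K (Z j) * x j))) = 0 := by
        linear_combination hx - (∑ j, algebraMap k K (X j) * x j) *
          (∑ j, algebraMap k K (Z j) * x j) * hsumr +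
          (∑ j, algebraMap k K (Z j) * x j) ^ 2 * hprod
      rcases mul_eq_zero.1 ((mul_eq_zero.1 h3).resolve_left h2) with h4 | h4
      · refine ⟨(fun j => 1 * algebraMap k K (X j) + (-r1) * algebraMap k K (Z j)), by simp, ?_⟩
        rw [hsum]
        exact h4
      · refine ⟨(fun j => 1 * algebraMap k K (X j) + (-r2) * algebraMap k K (Z j)), by simp, ?_⟩
        rw [hsum]
        exact h4

end PRIM

open PRIM in
theorem specPRI : SpecPRI := by
  intro k _ _ S ε M q ℓ A hA hsm
  constructor
  · intro c hc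
    by_contra hcon
    push Not at hcon
    apply hsm
    refine ⟨{fun j => algebraMap k (AlgebraicClosure k) (c j)}, 0, ?_, ?_⟩
    · intro M' hM'
      rw [Finset.mem_singleton] at hM'
      subst hM'
      obtain ⟨i, hi⟩ := Function.ne_iff.1 hc
      intro h0
      apply hi
      have := congrFun h0 i
      exact (map_eq_zero_iff _ (algebraMap k (AlgebraicClosure k)).injective).1 this
    · intro ω hω
      exact Or.inl ⟨_, Finset.mem_singleton_self _, (hA ω hω).2.2.2.1 c (hcon ω hω)⟩
  · intro X Z hXZ a b hab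
    by_contra hcon
    push Not at hcon
    apply hsm
    have hinj := (algebraMap k (AlgebraicClosure k)).injective
    have he : algebraMap k (AlgebraicClosure k) (a 1 * b 2 - a 2 * b 1) ≠ 0 ∨
        algebraMap k (AlgebraicClosure k) (a 2 * b 0 - a 0 * b 2) ≠ 0 ∨
        algebraMap k (AlgebraicClosure k) (a 0 * b 1 - a 1 * b 0) ≠ 0 := by
      rcases cross_ne hab with h | h | h
      · exact Or.inl ((map_ne_zero_iff _ hinj).2 h)
      · exact Or.inr (Or.inl ((map_ne_zero_iff _ hinj).2 h))
      · exact Or.inr (Or.inr ((map_ne_zero_iff _ hinj).2 h))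
    have hch : CharZero (AlgebraicClosure k) := charZero_of_injective_algebraMap hinj
    obtain ⟨F, hF0, hFX, hF⟩ := forms (K := AlgebraicClosure k) hXZ _ _ _ he
    refine ⟨F, 0, hF0, fun ω hω => Or.inl ?_⟩
    obtain ⟨-, -, -, h4, h5, -⟩ := hA ω hω
    obtain ⟨ha, hb⟩ := hcon ω hω
    have h5' := h5 X Z
    set g0 := sqv X ⬝ᵥ ω.2.1 with hg0
    set g1 := mix X Z ⬝ᵥ ω.2.1 with hg1
    set g2 := sqv Z ⬝ᵥ ω.2.1 with hg2
    have ha' : a 0 * g0 + a 1 * g1 + a 2 * g2 = 0 := by
      rw [add_dotProduct, add_dotProduct, smul_dotProduct, smul_dotProduct, smul_dotProduct] at ha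
      exact ha
    have hb' : b 0 * g0 + b 1 * g1 + b 2 * g2 = 0 := by
      rw [add_dotProduct, add_dotProduct, smul_dotProduct, smul_dotProduct, smul_dotProduct] at hb
      exact hb
    by_cases hz : g0 = 0
    · exact ⟨_, hFX, h4 X hz⟩
    · apply hF ω.1
      have hz' : algebraMap k (AlgebraicClosure k) g0 ≠ 0 := (map_ne_zero_iff _ hinj).2 hz
      -- `e_i g_0 = e_0 g_i`
      have r1 : (a 2 * b 0 - a 0 * b 2) * g0 = (a 1 * b 2 - a 2 * b 1) * g1 := by
        linear_combination a 2 * hb' - b 2 * ha'
      have r2 : (a 0 * b 1 - a 1 * b 0) * g0 = (a 1 * b 2 - a 2 * b 1) * g2 := by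
        linear_combination b 1 * ha' - a 1 * hb'
      have r1' := congrArg (algebraMap k (AlgebraicClosure k)) r1
      have r2' := congrArg (algebraMap k (AlgebraicClosure k)) r2
      rw [map_mul (algebraMap k (AlgebraicClosure k)) _ g0,
        map_mul (algebraMap k (AlgebraicClosure k)) _ g1] at r1'
      rw [map_mul (algebraMap k (AlgebraicClosure k)) _ g0,
        map_mul (algebraMap k (AlgebraicClosure k)) _ g2] at r2'
      apply (mul_eq_zero.1 (?_ : algebraMap k (AlgebraicClosure k) g0 * _ = 0)).resolve_left hz'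
      generalize algebraMap k (AlgebraicClosure k) (a 1 * b 2 - a 2 * b 1) = E0 at *
      generalize algebraMap k (AlgebraicClosure k) (a 2 * b 0 - a 0 * b 2) = E1 at *
      generalize algebraMap k (AlgebraicClosure k) (a 0 * b 1 - a 1 * b 0) = E2 at *
      linear_combination E0 * h5' +
        (∑ j, algebraMap k (AlgebraicClosure k) (X j) * ω.1 j) ^ 2 * r2' -
        (∑ j, algebraMap k (AlgebraicClosure k) (X j) * ω.1 j) *
          (∑ j, algebraMap k (AlgebraicClosure k) (Z j) * ω.1 j) * r1'

end Pool.Agent.Lib.MP_d0e829_nt.SS
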