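import Pool.Agent.Lib.MP_d0e829_nt.SS.SpecC1

/-!
# Module SMB: the monomial of least weight, standard monomials
-/

set_option autoImplicit false

open MvPolynomial

namespace Pool.Agent.Lib.MP_d0e829_nt.SS

namespace SMBM

variable {k : Type} [Field k] {r : ℕ}

theorem wt_add (W : Fin r → ℝ) (s t : Fin r →₀ ℕ) : wt W (s + t) = wt W s + wt W t := by
  unfold wt
  rw [← Finset.sum_add_distrib]
  refine Finset.sum_congr rfl fun j _ => ?_
  simp only [Finsupp.coe_add, Pi.add_apply, Nat.cast_add]
  ring

/-- The total order: by weight, then lexicographically. -/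
noncomputable def key (W : Fin r → ℝ) (s : Fin r →₀ ℕ) : ℝ ×ₗ (Lex (Fin r →₀ ℕ)) :=
  toLex (wt W s, toLex s)

theorem key_add (W : Fin r → ℝ) (s t : Fin r →₀ ℕ) : key W (s + t) = key W s + key W t := by
  unfold key
  rw [wt_add]
  rfl

theorem key_inj (W : Fin r → ℝ) {s t : Fin r →₀ ℕ} (h : key W s = key W t) : s = t := by
  unfold key at h
  have h1 := congrArg (fun z => (ofLex z).2) h
  simpa using h1

theorem key_wt (W : Fin r → ℝ) {s t : Fin r →₀ ℕ} (h : key W s ≤ key W t) : wt W s ≤ wt W t := by
  unfold key at h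
  rw [Prod.Lex.toLex_le_toLex] at h
  rcases h with h | h
  · exact h.le
  · exact h.1.le

theorem exists_min (W : Fin r → ℝ) (A : Finset (Fin r →₀ ℕ)) (hA : A.Nonempty) :
    ∃ μ ∈ A, ∀ s ∈ A, key W μ ≤ key W s := A.exists_min_image (key W) hA

/-- the least exponent of a product -/
theorem coeff_least (W : Fin r → ℝ) (G H : MvPolynomial (Fin r) k) (μ h : Fin r →₀ ℕ)
    (hμ : ∀ s ∈ G.support, key W μ ≤ key W s) (hh : ∀ s ∈ H.support, key W h ≤ key W s) :
    coeff (μ + h) (G * H) = coeff μ G * coeff h H := by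
  classical
  rw [coeff_mul]
  refine Finset.sum_eq_single (μ, h) ?_ ?_
  · rintro ⟨a, b⟩ hab hne
    rw [Finset.HasAntidiagonal.mem_antidiagonal] at hab
    simp only at hab
    by_contra hc
    have ha : coeff a G ≠ 0 := fun h0 => hc (by simp [h0])
    have hb : coeff b H ≠ 0 := fun h0 => hc (by simp [h0])
    have h1 := hμ a (mem_support_iff.mpr ha)
    have h2 := hh b (mem_support_iff.mpr hb)
    have h3 : key W a + key W b = key W μ + key W h := by
      rw [← key_add, ← key_add, hab]
    have h4 : key W a = key W μ := by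
      rcases lt_or_eq_of_le h1 with h5 | h5
      · exact absurd h3 (add_lt_add_of_lt_of_le h5 h2).ne'
      · exact h5.symm
    have h6 : a = μ := key_inj W h4
    subst h6
    have h7 : b = h := add_left_cancel hab
    exact hne (by rw [h7])
  · intro hn
    exact absurd (by simp [Finset.HasAntidiagonal.mem_antidiagonal]) hn

theorem std_one (W : Fin r → ℝ) (G : MvPolynomial (Fin r) k) (μ : Fin r →₀ ℕ)
    (hμ : μ ∈ G.support) (hmin : ∀ s ∈ G.support, key W μ ≤ key W s)
    (P : MvPolynomial (Fin r) k) (hP : G ∣ P) (hs : ∀ s ∈ P.support, ¬ μ ≤ s) : P = 0 := by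
  obtain ⟨H, rfl⟩ := hP
  by_contra hne
  have hH : H ≠ 0 := fun h0 => hne (by rw [h0, mul_zero])
  obtain ⟨h, hh, hhm⟩ := exists_min W H.support (MvPolynomial.support_nonempty.mpr hH)
  have h1 := coeff_least W G H μ h hmin hhm
  have h2 : coeff (μ + h) (G * H) ≠ 0 := by
    rw [h1]
    exact mul_ne_zero (mem_support_iff.mp hμ) (mem_support_iff.mp hh)
  exact hs (μ + h) (mem_support_iff.mpr h2) le_self_add

/-- the exponents of degree `m` -/
noncomputable def D (r m : ℕ) : Finset (Fin r →₀ ℕ) := Finset.finsuppAntidiag Finset.univ m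

theorem mem_D {P : MvPolynomial (Fin r) k} {m : ℕ} (hP : P.IsHomogeneous m) {s : Fin r →₀ ℕ}
    (hs : s ∈ P.support) : s ∈ D r m := by
  have h1 := hP (mem_support_iff.mp hs)
  rw [D, Finset.mem_finsuppAntidiag]
  refine ⟨?_, Finset.subset_univ _⟩
  rw [← h1]
  simp [Finsupp.weight_apply, Finsupp.sum_fintype]

open Classical in
/-- exponents divisible by `μ` -/
noncomputable def bad (P : MvPolynomial (Fin r) k) (μ : Fin r →₀ ℕ) : Finset (Fin r →₀ ℕ) :=
  P.support.filter fun s => μ ≤ s

open Classical in
noncomputable def T (W : Fin r → ℝ) (m : ℕ) (P : MvPolynomial (Fin r) k) (μ : Fin r →₀ ℕ) :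
    Finset (Fin r →₀ ℕ) :=
  (D r m).filter fun s => ∃ b ∈ bad P μ, key W b ≤ key W s

theorem std_two (W : Fin r → ℝ) (g : ℕ) (G : MvPolynomial (Fin r) k) (hG : G.IsHomogeneous g)
    (μ : Fin r →₀ ℕ) (hμ : μ ∈ G.support) (hmin : ∀ s ∈ G.support, key W μ ≤ key W s) (m : ℕ) :
    ∀ (n : ℕ) (P : MvPolynomial (Fin r) k), P.IsHomogeneous m → (T W m P μ).card = n →
      ∃ Q : MvPolynomial (Fin r) k, Q.IsHomogeneous m ∧ (∀ s ∈ Q.support, ¬ μ ≤ s) ∧ G ∣ P - Q := by
  classical
  intro n
  induction n using Nat.strong_induction_on with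
  | _ n ih =>
    intro P hP hn
    by_cases hb : bad P μ = ∅
    · refine ⟨P, hP, fun s hs hle => ?_, by simp⟩
      have : s ∈ bad P μ := Finset.mem_filter.mpr ⟨hs, hle⟩
      rw [hb] at this
      exact absurd this (Finset.notMem_empty s)
    · obtain ⟨t, ht, htm⟩ := exists_min W (bad P μ) (Finset.nonempty_iff_ne_empty.mpr hb)
      have ht1 : t ∈ P.support := (Finset.mem_filter.mp ht).1
      have ht2 : μ ≤ t := (Finset.mem_filter.mp ht).2
      obtain ⟨h, rfl⟩ := exists_add_of_le ht2
      have hc0 : coeff μ G ≠ 0 := mem_support_iff.mp hμ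
      set c : k := coeff (μ + h) P / coeff μ G with hc
      set R : MvPolynomial (Fin r) k := G * monomial h c with hR
      have hcoefR : ∀ s, coeff s R ≠ 0 → ∃ s' ∈ G.support, s = s' + h := by
        intro s hs
        rw [hR, coeff_mul_monomial'] at hs
        by_cases hle : h ≤ s
        · rw [if_pos hle] at hs
          refine ⟨s - h, mem_support_iff.mpr (left_ne_zero_of_mul hs), ?_⟩
          rw [tsub_add_cancel_of_le hle]
        · rw [if_neg hle] at hs
          exact absurd rfl hs
      have hRt : coeff (μ + h) R = coeff (μ + h) P := by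
        rw [hR, coeff_mul_monomial, hc]
        field_simp
      have hdeg : Finsupp.weight (1 : Fin r → ℕ) μ + Finsupp.weight (1 : Fin r → ℕ) h = m := by
        have := hP (mem_support_iff.mp ht1)
        rwa [map_add] at this
      have hRhom : R.IsHomogeneous m := by
        intro s hs
        obtain ⟨s', hs', rfl⟩ := hcoefR s hs
        rw [map_add]
        have e1 := hG (mem_support_iff.mp hs')
        have e2 := hG (mem_support_iff.mp hμ)
        rw [e1, ← e2]
        exact hdeg
      have hP' : (P - R).IsHomogeneous m := hP.sub hRhom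
      -- bad exponents of `P - R` are larger than `μ + h`
      have hbad : ∀ b ∈ bad (P - R) μ, key W (μ + h) < key W b := by
        intro b hb1
        have hb2 := (Finset.mem_filter.mp hb1).1
        have hb3 := (Finset.mem_filter.mp hb1).2
        rw [mem_support_iff, coeff_sub] at hb2
        have hne : b ≠ μ + h := by
          intro he
          apply hb2
          rw [he, hRt, sub_self]
        have hge : key W (μ + h) ≤ key W b := by
          by_cases hbP : coeff b P = 0
          · have hbR : coeff b R ≠ 0 := by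
              intro h0
              exact hb2 (by rw [hbP, h0, sub_zero])
            obtain ⟨s', hs', rfl⟩ := hcoefR b hbR
            rw [key_add, key_add]
            exact add_le_add_left (hmin s' hs') _
          · exact htm b (Finset.mem_filter.mpr ⟨mem_support_iff.mpr hbP, hb3⟩)
        exact lt_of_le_of_ne hge fun he => hne (key_inj W he).symm
      have hlt : (T W m (P - R) μ).card < n := by
        rw [← hn]
        apply Finset.card_lt_card
        rw [Finset.ssubset_iff_of_subset]
        · refine ⟨μ + h, Finset.mem_filter.mpr ⟨mem_D hP ht1, μ + h, ht, le_rfl⟩, ?_⟩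
          intro hmem
          obtain ⟨_, b, hb1, hb2⟩ := Finset.mem_filter.mp hmem
          exact absurd (hbad b hb1) (not_lt.mpr hb2)
        · intro s hs
          obtain ⟨hs1, b, hb1, hb2⟩ := Finset.mem_filter.mp hs
          exact Finset.mem_filter.mpr ⟨hs1, μ + h, ht, (hbad b hb1).le.trans hb2⟩
      obtain ⟨Q, hQ1, hQ2, hQ3⟩ := ih _ hlt (P - R) hP' rfl
      refine ⟨Q, hQ1, hQ2, ?_⟩
      have : P - Q = (P - R - Q) + G * monomial h c := by rw [← hR]; ring
      rw [this]
      exact dvd_add hQ3 (dvd_mul_right _ _)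

end SMBM

theorem specSMB : SpecSMB := by
  intro k _ r g G hG hG0 W
  obtain ⟨μ, hμ, hmin⟩ := SMBM.exists_min W G.support (MvPolynomial.support_nonempty.mpr hG0)
  refine ⟨μ, hμ, fun s hs => SMBM.key_wt W (hmin s hs), ?_, ?_⟩
  · exact fun P hP hs => SMBM.std_one W G μ hμ hmin P hP hs
  · exact fun m P hP => SMBM.std_two W g G hG μ hμ hmin m _ P hP rfl

end Pool.Agent.Lib.MP_d0e829_nt.SS
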