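import Pool.Agent.Lib.MP_d0e829_nt.SS.SpecG

/-!
# SML: the small sets form a system of small sets
-/

set_option autoImplicit false

open NumberField

namespace Pool.Agent.Lib.MP_d0e829_nt.SS

open scoped Classical

/-- SML. -/
theorem specSML : SpecSML := by
  intro k _ _ S ε
  refine ⟨?_, ?_, ?_⟩
  · refine ⟨∅, 0, fun M hM => absurd hM (Finset.notMem_empty M), fun ω hω => ?_⟩
    exact absurd hω (Set.notMem_empty ω)
  · rintro A B hAB ⟨Z, C, hZ, h⟩
    exact ⟨Z, C, hZ, fun ω hω => h ω (hAB hω)⟩
  · rintro A B ⟨Z, C, hZ, h⟩ ⟨Z', C', hZ', h'⟩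
    refine ⟨Z ∪ Z', max C C', ?_, ?_⟩
    · intro M hM
      rcases Finset.mem_union.1 hM with hM | hM
      · exact hZ M hM
      · exact hZ' M hM
    · rintro ω (hω | hω)
      · rcases h ω hω with ⟨M, hM, h0⟩ | h0
        · exact Or.inl ⟨M, Finset.mem_union_left _ hM, h0⟩
        · right
          have := le_max_left C C'
          linarith
      · rcases h' ω hω with ⟨M, hM, h0⟩ | h0
        · exact Or.inl ⟨M, Finset.mem_union_right _ hM, h0⟩
        · right
          have := le_max_right C C'
          linarith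

end Pool.Agent.Lib.MP_d0e829_nt.SS
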