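import Pool.Agent.Lib.MP_d0e829_nt.SS.SpecC3

set_option autoImplicit false

open NumberField MvPolynomial

namespace Pool.Agent.Lib.MP_d0e829_nt.SS

open scoped Classical

namespace STAM

theorem lin_hom {k : Type} [Field k] {M : ℕ} (c : Fin M → k) : (lin c).IsHomogeneous 1 := by
  unfold lin
  exact MvPolynomial.IsHomogeneous.sum _ _ _ fun j _ => isHomogeneous_C_mul_X (c j) j

theorem eval_lin {k : Type} [Field k] {M : ℕ} (c f : Fin M → k) : eval f (lin c) = c ⬝ᵥ f := by
  unfold lin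
  rw [map_sum]
  refine Finset.sum_congr rfl fun j _ => ?_
  rw [eval_mul, eval_C, eval_X]

end STAM

open STAM

theorem specSTA : SpecSTA := by
  intro k _ _ S q ℓ BB C ε Ω f T Sm A hS
  refine ⟨?_, ?_, ?_⟩
  · intro c hc
    have h1 : ∃ ω ∈ A, eval (f ω) (lin c) ≠ 0 := by
      by_contra hcon
      push Not at hcon
      apply hc
      intro ω hω
      have h2 := hcon ω hω
      rwa [eval_lin] at h2
    have h2 := hS.gen.2 1 (lin c) (lin_hom c) h1
    have h3 : {ω | ω ∈ A ∧ c ⬝ᵥ f ω = 0} = {ω | ω ∈ A ∧ eval (f ω) (lin c) = 0} := by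
      ext ω
      simp only [Set.mem_setOf_eq, eval_lin]
    rw [h3]
    exact h2
  · intro B C' hB hle
    have h1 : Sm (A \ B) := by
      refine hS.bdd (A \ B) Set.diff_subset ⟨C', ?_⟩
      intro ω hω
      exact hle ω hω.1 hω.2
    refine hS.gen.1 (hS.sys.2.1 A ((A \ B) ∪ B) ?_ (hS.sys.2.2 _ _ h1 hB))
    intro ω hω
    by_cases h : ω ∈ B
    · exact Or.inr h
    · exact Or.inl ⟨hω, h⟩
  · intro v c g w hne hge
    have h0 : 0 < absV v (c ⬝ᵥ g) := absV_pos v hne
    have h1 : absV v (c ⬝ᵥ g) ≤ Real.exp (-w) * nrm v g := hge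
    have h2 : 0 < nrm v g := by
      by_contra hcon
      have h3 : Real.exp (-w) * nrm v g ≤ 0 :=
        mul_nonpos_of_nonneg_of_nonpos (Real.exp_pos _).le (not_lt.1 hcon)
      linarith
    have h3 := Real.log_le_log h0 h1
    rw [Real.log_mul (Real.exp_pos _).ne' h2.ne', Real.log_exp] at h3
    unfold val
    linarith

end Pool.Agent.Lib.MP_d0e829_nt.SS
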