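import Pool.Agent.Lib.MP_d0e829_nt.SS.SpecC3

/-!
# Part C3: module U1, the stage with one functional
-/

set_option autoImplicit false

open NumberField MvPolynomial

namespace Pool.Agent.Lib.MP_d0e829_nt.SS

open scoped Classical

namespace U1M

section coords

variable {k : Type} [Field k]

/-- coordinates in the basis `S2 B` -/
noncomputable def crd (B : Matrix (Fin 3) (Fin 3) k) (d : Fin 6 → k) : Fin 6 → k :=
  Matrix.vecMul d (S2 B)⁻¹

lemma crd_spec {B : Matrix (Fin 3) (Fin 3) k} (hB : (S2 B).det ≠ 0) (d : Fin 6 → k) :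
    ∑ i, crd B d i • S2 B i = d := by
  rw [← Matrix.vecMul_eq_sum]
  unfold crd
  rw [Matrix.vecMul_vecMul, Matrix.nonsing_inv_mul _ (isUnit_iff_ne_zero.mpr hB), Matrix.vecMul_one]

lemma crd_dot {B : Matrix (Fin 3) (Fin 3) k} (hB : (S2 B).det ≠ 0) (d x : Fin 6 → k) :
    d ⬝ᵥ x = ∑ i, crd B d i * (S2 B i ⬝ᵥ x) := by
  conv_lhs => rw [← crd_spec hB d]
  rw [sum_dotProduct]
  exact Finset.sum_congr rfl fun i _ => by rw [smul_dotProduct, smul_eq_mul]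

lemma eq_zero_of {B : Matrix (Fin 3) (Fin 3) k} (hB : (S2 B).det ≠ 0) {e : Fin 6 → k}
    (h : ∑ i, e i • S2 B i = 0) : e = 0 := by
  rw [← Matrix.vecMul_eq_sum] at h
  exact Matrix.eq_zero_of_vecMul_eq_zero hB h

lemma spn {Ω : Type} {f : Ω → Fin 6 → k} {A : Set Ω} {c₀ : Fin 6 → k} (hc₀ : c₀ ∈ UU f A)
    {B : Matrix (Fin 3) (Fin 3) k} (hB : (S2 B).det ≠ 0) {i₀ : Fin 6} (hi : crd B c₀ i₀ ≠ 0) :
    Spn f A (fun j : Fin 5 => S2 B (i₀.succAbove j)) := by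
  intro c
  refine ⟨fun j => crd B c (i₀.succAbove j) -
    (crd B c i₀ / crd B c₀ i₀) * crd B c₀ (i₀.succAbove j), fun ω hω => ?_⟩
  have h0 : c₀ ⬝ᵥ f ω = 0 := hc₀ ω hω
  have h1 := crd_dot hB c (f ω)
  have h2 := crd_dot hB c₀ (f ω)
  rw [h0] at h2
  have h3 : c ⬝ᵥ f ω = ∑ i, (crd B c i - (crd B c i₀ / crd B c₀ i₀) * crd B c₀ i) *
      (S2 B i ⬝ᵥ f ω) := by
    have h4 : ∑ i, (crd B c i - (crd B c i₀ / crd B c₀ i₀) * crd B c₀ i) * (S2 B i ⬝ᵥ f ω) =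
        ∑ i, crd B c i * (S2 B i ⬝ᵥ f ω) -
          (crd B c i₀ / crd B c₀ i₀) * ∑ i, crd B c₀ i * (S2 B i ⬝ᵥ f ω) := by
      rw [Finset.mul_sum, ← Finset.sum_sub_distrib]
      exact Finset.sum_congr rfl fun i _ => by ring
    rw [h4, ← h2, ← h1, mul_zero, sub_zero]
  rw [h3, Fin.sum_univ_succAbove _ i₀]
  have h5 : crd B c i₀ - (crd B c i₀ / crd B c₀ i₀) * crd B c₀ i₀ = 0 := by
    rw [div_mul_cancel₀ _ hi, sub_self]
  rw [h5, zero_mul, zero_add]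

lemma ind {Ω : Type} {f : Ω → Fin 6 → k} {A : Set Ω} {c₀ : Fin 6 → k}
    (hU : ∀ c ∈ UU f A, ∃ t : k, c = t • c₀)
    {B : Matrix (Fin 3) (Fin 3) k} (hB : (S2 B).det ≠ 0) {i₀ : Fin 6} (hi : crd B c₀ i₀ ≠ 0) :
    Ind f A (fun j : Fin 5 => S2 B (i₀.succAbove j)) := by
  intro b hb
  have hd : (∑ j, b j • S2 B (i₀.succAbove j)) ∈ UU f A := by
    intro ω hω
    rw [sum_dotProduct, ← hb ω hω]
    exact Finset.sum_congr rfl fun i _ => by rw [smul_dotProduct, smul_eq_mul]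
  obtain ⟨t, ht⟩ := hU _ hd
  set e : Fin 6 → k := Fin.insertNth (α := fun _ : Fin 6 => k) i₀ 0 b with he
  have e0 : e i₀ = 0 := by rw [he, Fin.insertNth_apply_same]
  have ej : ∀ j, e (i₀.succAbove j) = b j := fun j => by rw [he, Fin.insertNth_apply_succAbove]
  have h1 : ∑ i, (fun i => e i - t * crd B c₀ i) i • S2 B i = 0 := by
    have h2 : ∑ i, e i • S2 B i = t • c₀ := by
      rw [Fin.sum_univ_succAbove _ i₀, e0, zero_smul, zero_add, ← ht]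
      exact Finset.sum_congr rfl fun j _ => by rw [ej]
    have h3 : ∑ i, (fun i => e i - t * crd B c₀ i) i • S2 B i =
        ∑ i, e i • S2 B i - t • ∑ i, crd B c₀ i • S2 B i := by
      rw [Finset.smul_sum, ← Finset.sum_sub_distrib]
      exact Finset.sum_congr rfl fun i _ => by rw [sub_smul, mul_smul]
    rw [h3, h2, crd_spec hB, sub_self]
  have h4 := eq_zero_of hB h1
  have h5 := congrFun h4 i₀
  simp only [e0, Pi.zero_apply, zero_sub, neg_eq_zero, mul_eq_zero] at h5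
  have ht0 : t = 0 := by
    rcases h5 with h5 | h5
    · exact h5
    · exact absurd h5 hi
  funext j
  have h6 := congrFun h4 (i₀.succAbove j)
  simp only [ej, ht0, zero_mul, sub_zero, Pi.zero_apply] at h6
  rw [h6, Pi.zero_apply]

lemma S2_sq (B : Matrix (Fin 3) (Fin 3) k) (i : Fin 6) (hi : (i : ℕ) < 3) :
    S2 B i = sqv (B ⟨i, hi⟩) := by
  fin_cases i
  · rfl
  · rfl
  · rfl
  · exact absurd hi (by decide)
  · exact absurd hi (by decide)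
  · exact absurd hi (by decide)

lemma pair_eq {B : Matrix (Fin 3) (Fin 3) k} (hB : (S2 B).det ≠ 0) {c₀ : Fin 6 → k} {i₁ i₂ : Fin 6}
    (hne : i₁ ≠ i₂) (h : ∀ i, crd B c₀ i ≠ 0 ↔ i = i₁ ∨ i = i₂) :
    c₀ = crd B c₀ i₁ • S2 B i₁ + crd B c₀ i₂ • S2 B i₂ := by
  conv_lhs => rw [← crd_spec hB c₀]
  apply Finset.sum_eq_add i₁ i₂ hne
  · intro c _ hc
    have h1 : crd B c₀ c = 0 := by
      by_contra h2
      rcases (h c).mp h2 with h3 | h3
      · exact hc.1 h3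
      · exact hc.2 h3
    rw [h1, zero_smul]
  · intro h1
    exact absurd (Finset.mem_univ _) h1
  · intro h1
    exact absurd (Finset.mem_univ _) h1

end coords

section loc

variable {k : Type} [Field k] [NumberField k]

lemma loc (hst : ∀ (v : Place k) (c g : Fin 6 → k) (w : ℝ), c ⬝ᵥ g ≠ 0 → Ge v c g w → w ≤ val v c g)
    {v : Place k} {B : Matrix (Fin 3) (Fin 3) k} {x : Fin 6 → k} {W : Fin 6 → ℝ} {T₀ T C : ℝ}
    (hGe : ∀ i, Ge v (S2 B i) x (W i - C)) (hT : T ≤ T₀ + C) {i₀ : Fin 6}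
    (hne : ∀ j : Fin 5, S2 B (i₀.succAbove j) ⬝ᵥ x ≠ 0) {d : Fin 6 → k} (hd : d ⬝ᵥ x ≠ 0)
    (h : T₀ ≤ ∑ i, W i - W i₀ ∨ ∃ i₁, S2 B i₁ = d ∧ T₀ ≤ ∑ i, W i - W i₀ + W i₁) :
    T ≤ ∑ j : Fin 5, val v (S2 B (i₀.succAbove j)) x + 7 * |C| ∨
      T ≤ ∑ j : Fin 5, val v (S2 B (i₀.succAbove j)) x + val v d x + 7 * |C| := by
  have hs : ∑ i, W i - W i₀ = ∑ j : Fin 5, W (i₀.succAbove j) := by
    rw [Fin.sum_univ_succAbove _ i₀]
    ring
  have hj : ∑ j : Fin 5, W (i₀.succAbove j) ≤ ∑ j : Fin 5, val v (S2 B (i₀.succAbove j)) x + 5 * C := by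
    have h1 : ∑ j : Fin 5, W (i₀.succAbove j) ≤ ∑ j : Fin 5, (val v (S2 B (i₀.succAbove j)) x + C) := by
      refine Finset.sum_le_sum fun j _ => ?_
      have h2 := hst v _ x _ (hne j) (hGe _)
      linarith
    rw [Finset.sum_add_distrib, Finset.sum_const, Finset.card_univ, Fintype.card_fin,
      nsmul_eq_mul] at h1
    push_cast at h1
    exact h1
  have hC := le_abs_self C
  have hC' := abs_nonneg C
  rcases h with h | ⟨i₁, hi₁, h⟩
  · left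
    linarith
  · right
    have h2 := hst v (S2 B i₁) x _ (by rw [hi₁]; exact hd) (hGe i₁)
    rw [hi₁] at h2
    linarith

lemma sm_finset {Ω ι : Type} {Sm : Set Ω → Prop} (hSm : SmSys Sm) (B : ι → Set Ω) (T : Finset ι)
    (h : ∀ i ∈ T, Sm (B i)) : Sm {ω | ∃ i ∈ T, ω ∈ B i} := by
  induction T using Finset.induction_on with
  | empty =>
    refine hSm.2.1 _ ∅ ?_ hSm.1
    rintro ω ⟨i, hi, _⟩
    exact absurd hi (Finset.notMem_empty i)
  | insert a T _ ih =>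
    refine hSm.2.1 _ (B a ∪ {ω | ∃ i ∈ T, ω ∈ B i}) ?_ (hSm.2.2 _ _ (h a (Finset.mem_insert_self a T))
      (ih fun i hi => h i (Finset.mem_insert_of_mem hi)))
    rintro ω ⟨i, hi, hω⟩
    rw [Finset.mem_insert] at hi
    rcases hi with rfl | hi
    · exact Or.inl hω
    · exact Or.inr ⟨i, hi, hω⟩

end loc

end U1M

open U1M in
/-- U1 -/
theorem specU1 (hLNS : SpecLNS) (hFCH : SpecFCH) (hSTA : SpecSTA) (hK1A : SpecK1A) (hK1D : SpecK1D)
    (hK1B : SpecK1B) (hUNP : SpecUNP) (hTRV : SpecTRV) : SpecU1 := by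
  intro k _ _ S q ℓ BB C ε Ω f T Sm A hε hℓ0 hgp hdet hS hfin
  obtain ⟨hst1, hst2, hst3⟩ := hSTA k S q ℓ BB C ε Ω f T Sm A hS
  obtain ⟨c', hc'ne, hc'⟩ := finrank_eq_one_iff'.mp hfin
  obtain ⟨c₀, hcU⟩ := c'
  have hcne : c₀ ≠ 0 := fun h => hc'ne (Subtype.ext h)
  have hU : ∀ c ∈ UU f A, ∃ t : k, c = t • c₀ := by
    intro c hc
    obtain ⟨t, ht⟩ := hc' ⟨c, hc⟩
    exact ⟨t, (congrArg Subtype.val ht).symm⟩
  -- coordinates of `c₀`
  have hcond : ∀ B ∈ BB, ∀ i : Fin 6, (i : ℕ) < 3 → ∃ j, j ≠ i ∧ crd B c₀ j ≠ 0 := by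
    intro B hB i hi
    by_contra hcon
    push Not at hcon
    have h1 : crd B c₀ i • S2 B i = c₀ := by
      conv_rhs => rw [← crd_spec (hdet B hB) c₀]
      symm
      apply Finset.sum_eq_single i
      · intro j _ hj
        rw [hcon j hj, zero_smul]
      · intro h
        exact absurd (Finset.mem_univ _) h
    have h2 : crd B c₀ i ≠ 0 := by
      intro h
      rw [h, zero_smul] at h1
      exact hcne h1.symm
    have h3 : S2 B i ∈ UU f A := by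
      have h4 : S2 B i = (crd B c₀ i)⁻¹ • c₀ := by
        have h6 : (crd B c₀ i)⁻¹ • (crd B c₀ i • S2 B i) = S2 B i := inv_smul_smul₀ h2 _
        exact h6.symm.trans (congrArg (fun w => (crd B c₀ i)⁻¹ • w) h1)
      rw [h4]
      exact (UU f A).smul_mem _ hcU
    rw [S2_sq B i hi] at h3
    refine hS.sqn (B ⟨i, hi⟩) ?_ h3
    intro h5
    exact hS.det B hB (Matrix.det_eq_zero_of_row_eq_zero ⟨i, hi⟩ fun j => congrFun h5 j)
  -- the line `d`
  have hD : ∃ d : Fin 6 → k, d ∉ UU f A ∧ ∀ (r' s' : Fin q) (a' b' : k), r' ≠ s' → a' ≠ 0 → b' ≠ 0 →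
      c₀ = a' • sqv (ℓ r') + b' • sqv (ℓ s') → sqv (ℓ r') = d ∨ sqv (ℓ s') = d := by
    by_cases hsp : ∃ (r s : Fin q) (a b : k), r ≠ s ∧ a ≠ 0 ∧ b ≠ 0 ∧
        c₀ = a • sqv (ℓ r) + b • sqv (ℓ s)
    · obtain ⟨r, s, a, b, hrs, ha, hb, he⟩ := hsp
      refine ⟨sqv (ℓ r), hS.sqn _ (hℓ0 r), fun r' s' a' b' hrs' ha' hb' he' => ?_⟩
      rcases hUNP k q ℓ hgp r s r' s' a b a' b' hrs hrs' ha hb ha' hb' (he.symm.trans he') with h | h
      · exact Or.inl (by rw [h])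
      · exact Or.inr (by rw [h])
    · refine ⟨sqv (Pi.single 0 1), hS.sqn _ ?_, fun r' s' a' b' hrs' ha' hb' he' => ?_⟩
      · intro h
        have h1 := congrFun h 0
        simp at h1
      · exact absurd ⟨r', s', a', b', hrs', ha', hb', he'⟩ hsp
  obtain ⟨d, hdU, hd⟩ := hD
  obtain ⟨CT, hCT0, hCT⟩ := (hTRV k 6).1 S d
  -- the uniform inequality
  obtain ⟨B₁, C₁, hB₁, hF⟩ := hFCH k Ω ({B // B ∈ BB} × Fin 6) S Sm hS.sys A (fun ω => ht (f ω)) (5 + ε)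
    (fun v φ ω => ∑ j : Fin 5, val v (S2 φ.1.1 (φ.2.succAbove j)) (f ω))
    (fun _ φ => crd φ.1.1 c₀ φ.2 ≠ 0) (by
      intro φ hφ
      obtain ⟨B, C', hB, h⟩ := hLNS k Ω 6 5 f Sm hS.sys A hS.gen hS.ne S
        (fun v j => S2 (φ v).1.1 ((φ v).2.succAbove j))
        (fun v hv => ⟨spn hcU (hdet _ (φ v).1.2) (hφ v hv), ind hU (hdet _ (φ v).1.2) (hφ v hv)⟩) ε hε
      refine ⟨B, C', hB, fun ω hω hωB => ?_⟩
      have h1 := (h ω hω hωB).2
      push_cast at h1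
      exact h1)
  -- the small set
  have hB₂ : Sm {ω | ∃ B ∈ BB, ω ∈ {ω | ∃ i ∈ (Finset.univ : Finset (Fin 6)).filter
      (fun i => S2 B i ∉ UU f A), ω ∈ {ω | ω ∈ A ∧ S2 B i ⬝ᵥ f ω = 0}}} :=
    sm_finset hS.sys _ BB fun B _ => sm_finset hS.sys _ _ fun i hi =>
      hst1 _ (Finset.mem_filter.mp hi).2
  refine hst2 (B₁ ∪ (_ ∪ {ω | ω ∈ A ∧ d ⬝ᵥ f ω = 0})) (|C₁| + CT + S.card * (7 * |C|))
    (hS.sys.2.2 _ _ hB₁ (hS.sys.2.2 _ _ hB₂ (hst1 d hdU))) fun ω hω hωB => ?_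
  rw [Set.mem_union, Set.mem_union, not_or, not_or] at hωB
  obtain ⟨hω1, hω2, hω3⟩ := hωB
  have hdω : d ⬝ᵥ f ω ≠ 0 := fun h => hω3 ⟨hω, h⟩
  have hnz : ∀ B ∈ BB, ∀ i₀ : Fin 6, crd B c₀ i₀ ≠ 0 → ∀ j : Fin 5,
      S2 B (i₀.succAbove j) ⬝ᵥ f ω ≠ 0 := by
    intro B hB i₀ hi₀ j h0
    refine hω2 ⟨B, hB, i₀.succAbove j, Finset.mem_filter.mpr ⟨Finset.mem_univ _, fun hmem => ?_⟩, hω, h0⟩
    have h1 := ind hU (hdet B hB) hi₀ (Pi.single j 1) (fun ω' hω' => by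
      rw [Finset.sum_eq_single j]
      · rw [hmem ω' hω', mul_zero]
      · intro b _ hb
        rw [Pi.single_eq_of_ne hb, zero_mul]
      · intro h
        exact absurd (Finset.mem_univ _) h)
    have h2 := congrFun h1 j
    rw [Pi.single_eq_same] at h2
    exact one_ne_zero h2
  have hht : 0 ≤ ht (f ω) := ht_nonneg (hS.ne ω hω)
  -- local information
  have hloc : ∀ v ∈ S, ∃ φ : {B // B ∈ BB} × Fin 6, crd φ.1.1 c₀ φ.2 ≠ 0 ∧
      (T ω v ≤ ∑ j : Fin 5, val v (S2 φ.1.1 (φ.2.succAbove j)) (f ω) + 7 * |C| ∨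
        T ω v ≤ ∑ j : Fin 5, val v (S2 φ.1.1 (φ.2.succAbove j)) (f ω) + val v d (f ω) + 7 * |C|) := by
    intro v hv
    obtain ⟨B, hB, hfr⟩ := hS.fr ω hω v hv
    rcases hfr with ⟨i, j, l, hij, hil, hjl, b0, b1, b2, p, q', z, z', hp, hq', hz, hz', hT, hGe, -⟩ |
      ⟨i, j, hij, b0, b1, -, p, q', α, β, hα, hαp, hβ, hβq, hT, hGe⟩ |
      ⟨i, j, l, hij, hil, hjl, b0, b1, b2, p, p', q', q'', hp, hp', hq', hq'', hT, hGe, -⟩
    · obtain ⟨i₀, hi₀, h⟩ := hK1A k (crd B c₀) (hcond B hB) p q' z z' hp hq' hz hz'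
      refine ⟨(⟨B, hB⟩, i₀), hi₀, loc hst3 hGe hT (hnz B hB i₀ hi₀) hdω ?_⟩
      rcases h with h | ⟨i₁, i₂, hi₁, hi₂, hne, hsupp, h1, h2⟩
      · exact Or.inl h
      · right
        have hrow : ∀ m : Fin 3, B m = ℓ (![i, j, l] m) := by
          intro m
          fin_cases m
          · exact b0
          · exact b1
          · exact b2
        have hinj : Function.Injective (![i, j, l] : Fin 3 → Fin q) := by
          intro m m' hmm
          fin_cases m <;> fin_cases m' <;> simp_all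
        have hpe := pair_eq (hdet B hB) hne hsupp
        rw [S2_sq B i₁ hi₁, S2_sq B i₂ hi₂, hrow, hrow] at hpe
        have hlne : (![i, j, l] ⟨i₁, hi₁⟩ : Fin q) ≠ ![i, j, l] ⟨i₂, hi₂⟩ := by
          intro h3
          exact hne (Fin.ext (Fin.mk.inj_iff.mp (hinj h3)))
        rcases hd _ _ _ _ hlne ((hsupp i₁).mpr (Or.inl rfl)) ((hsupp i₂).mpr (Or.inr rfl)) hpe with h3 | h3
        · exact ⟨i₁, by rw [S2_sq B i₁ hi₁, hrow]; exact h3, h1⟩
        · exact ⟨i₂, by rw [S2_sq B i₂ hi₂, hrow]; exact h3, h2⟩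
    · obtain ⟨i₀, hi₀, h⟩ := hK1D k (crd B c₀) (hcond B hB) p q' α β hα hαp hβ hβq
      refine ⟨(⟨B, hB⟩, i₀), hi₀, loc hst3 hGe hT (hnz B hB i₀ hi₀) hdω ?_⟩
      rcases h with h | ⟨hsupp, h1, h2⟩
      · exact Or.inl h
      · right
        have hpe := pair_eq (hdet B hB) (by decide : (0 : Fin 6) ≠ 1) hsupp
        have s0 : S2 B 0 = sqv (ℓ i) := by rw [← b0]; rfl
        have s1 : S2 B 1 = sqv (ℓ j) := by rw [← b1]; rfl
        rw [s0, s1] at hpe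
        rcases hd _ _ _ _ hij ((hsupp 0).mpr (Or.inl rfl)) ((hsupp 1).mpr (Or.inr rfl)) hpe with h3 | h3
        · exact ⟨0, s0.trans h3, h1⟩
        · exact ⟨1, s1.trans h3, h2⟩
    · obtain ⟨i₀, hi₀, h⟩ := hK1B k (crd B c₀) (hcond B hB) p p' q' q'' hp hp' hq' hq''
      refine ⟨(⟨B, hB⟩, i₀), hi₀, loc hst3 hGe hT (hnz B hB i₀ hi₀) hdω ?_⟩
      rcases h with h | ⟨hsupp, h1, h2⟩
      · exact Or.inl h
      · right
        have hpe := pair_eq (hdet B hB) (by decide : (0 : Fin 6) ≠ 1) hsupp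
        have s0 : S2 B 0 = sqv (ℓ i) := by rw [← b0]; rfl
        have s1 : S2 B 1 = sqv (ℓ j) := by rw [← b1]; rfl
        rw [s0, s1] at hpe
        rcases hd _ _ _ _ hij ((hsupp 0).mpr (Or.inl rfl)) ((hsupp 1).mpr (Or.inr rfl)) hpe with h3 | h3
        · exact ⟨0, s0.trans h3, h1⟩
        · exact ⟨1, s1.trans h3, h2⟩
  rcases S.eq_empty_or_nonempty with hSe | ⟨v₀, hv₀⟩
  · rw [hSe, Finset.sum_empty, Finset.card_empty, Nat.cast_zero, zero_mul, add_zero]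
    have h1 := abs_nonneg C₁
    have h2 : 0 ≤ (6 + ε) * ht (f ω) := mul_nonneg (by linarith) hht
    linarith
  · have : Nonempty ({B // B ∈ BB} × Fin 6) := ⟨(hloc v₀ hv₀).choose⟩
    choose! φ hφ1 hφ2 using hloc
    have h1 := hF ω hω hω1 φ hφ1
    have h2 := (hCT (f ω) hdω).2 (S.filter (fun v => ¬ T ω v ≤
      ∑ j : Fin 5, val v (S2 (φ v).1.1 ((φ v).2.succAbove j)) (f ω) + 7 * |C|)) (Finset.filter_subset _ _)
    rw [Finset.sum_filter] at h2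
    have h3 : ∑ v ∈ S, T ω v ≤ ∑ v ∈ S, (∑ j : Fin 5, val v (S2 (φ v).1.1 ((φ v).2.succAbove j)) (f ω) +
        (if ¬ T ω v ≤ ∑ j : Fin 5, val v (S2 (φ v).1.1 ((φ v).2.succAbove j)) (f ω) + 7 * |C|
          then val v d (f ω) else 0) + 7 * |C|) := by
      refine Finset.sum_le_sum fun v hv => ?_
      by_cases h4 : T ω v ≤ ∑ j : Fin 5, val v (S2 (φ v).1.1 ((φ v).2.succAbove j)) (f ω) + 7 * |C|
      · rw [if_neg (not_not.mpr h4)]
        linarith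
      · rw [if_pos h4]
        rcases hφ2 v hv with h5 | h5
        · exact absurd h5 h4
        · exact h5
    rw [Finset.sum_add_distrib, Finset.sum_add_distrib, Finset.sum_const, nsmul_eq_mul] at h3
    have h6 := le_abs_self C₁
    linarith

end Pool.Agent.Lib.MP_d0e829_nt.SS
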