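import Pool.Agent.Lib.MP_d0e829_nt.SS.SpecC3

/-!
# Module U2: the stage where two functionals vanish (helper82)
-/

set_option autoImplicit false

open NumberField MvPolynomial

namespace Pool.Agent.Lib.MP_d0e829_nt.SS

open scoped Classical

namespace U2M

/-- finite unions of small sets -/
theorem sm_iUnion {Ω α : Type} {Sm : Set Ω → Prop} (h : SmSys Sm) (I : Finset α)
    (X : α → Set Ω) (hX : ∀ i ∈ I, Sm (X i)) : Sm {ω | ∃ i ∈ I, ω ∈ X i} := by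
  induction I using Finset.induction_on with
  | empty =>
    have e : {ω : Ω | ∃ i ∈ (∅ : Finset α), ω ∈ X i} = ∅ := by
      ext ω; simp
    rw [e]; exact h.1
  | insert a s ha ih =>
    have h1 : Sm (X a) := hX a (Finset.mem_insert_self a s)
    have h2 : Sm {ω | ∃ i ∈ s, ω ∈ X i} := ih fun i hi => hX i (Finset.mem_insert_of_mem hi)
    refine h.2.1 _ _ ?_ (h.2.2 _ _ h1 h2)
    rintro ω ⟨i, hi, hω⟩
    rcases Finset.mem_insert.1 hi with rfl | hi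
    · exact Or.inl hω
    · exact Or.inr ⟨i, hi, hω⟩

/-- the properties of the factor `G` -/
def GP {k : Type} [Field k] {Ω : Type} (f : Ω → Fin 6 → k) (A : Set Ω) (g : ℕ)
    (y : Fin 4 → Fin 6 → k) (μ : Fin 4 →₀ ℕ) (G : MvPolynomial (Fin 4) k) : Prop :=
  Spn f A y ∧ G.IsHomogeneous g ∧ G ≠ 0 ∧ μ ∈ G.support ∧ Std G μ ∧
    ∀ (m : ℕ) (P : MvPolynomial (Fin 4) k), P.IsHomogeneous m →
      ((∀ ω ∈ A, eval (fun j => y j ⬝ᵥ f ω) P = 0) ↔ G ∣ P)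

theorem sum_eq {k : Type} [Field k] {g : ℕ} {G : MvPolynomial (Fin 4) k} (h : G.IsHomogeneous g)
    {μ : Fin 4 →₀ ℕ} (hμ : μ ∈ G.support) : ∑ j, μ j = g := by
  have h1 : μ.degree = g := by
    rw [Finsupp.degree_eq_weight_one]
    exact h (mem_support_iff.1 hμ)
  rw [Finsupp.degree_eq_sum] at h1
  exact h1

/-- the local inequality -/
theorem loc {g : ℕ} (hg : 2 ≤ g) (μ : Fin 4 →₀ ℕ) (hμ : ∑ j, μ j = g) (w vl : Fin 4 → ℝ)
    (C κ T T₀ : ℝ) (hw : ∀ j, w j - C ≤ vl j) (hT : T ≤ T₀ + C)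
    (hT₀ : T₀ / 2 ≤ ∑ j, w j - wt w μ / g + κ) :
    T ≤ 2 * ∑ j, (1 - (μ j : ℝ) / g) * vl j + (9 * |C| + 2 * κ) := by
  have hg0 : (0 : ℝ) < g := by
    have : 0 < g := by omega
    exact_mod_cast this
  have hC := le_abs_self C
  have hC0 := abs_nonneg C
  have e1 : ∑ j, w j - wt w μ / g = ∑ j, (1 - (μ j : ℝ) / g) * w j := by
    unfold wt
    rw [Finset.sum_div, ← Finset.sum_sub_distrib]
    refine Finset.sum_congr rfl fun j _ => ?_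
    ring
  have h2 : ∀ j, (1 - (μ j : ℝ) / g) * w j ≤ (1 - (μ j : ℝ) / g) * vl j + |C| := by
    intro j
    have h3 : μ j ≤ g := by
      rw [← hμ]
      exact Finset.single_le_sum (f := fun i => μ i) (fun _ _ => Nat.zero_le _) (Finset.mem_univ j)
    have h4 : (μ j : ℝ) / g ≤ 1 := by
      rw [div_le_one hg0]
      exact_mod_cast h3
    have h5 : 0 ≤ (μ j : ℝ) / g := by positivity
    have h6 : w j ≤ vl j + |C| := by have := hw j; linarith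
    have h7 : (1 - (μ j : ℝ) / g) * w j ≤ (1 - (μ j : ℝ) / g) * (vl j + |C|) :=
      mul_le_mul_of_nonneg_left h6 (by linarith)
    have h8 : (1 - (μ j : ℝ) / g) * |C| ≤ 1 * |C| :=
      mul_le_mul_of_nonneg_right (by linarith) hC0
    linarith
  have h3 : ∑ j, (1 - (μ j : ℝ) / g) * w j ≤ ∑ j, ((1 - (μ j : ℝ) / g) * vl j + |C|) :=
    Finset.sum_le_sum fun j _ => h2 j
  rw [Finset.sum_add_distrib, Finset.sum_const, Finset.card_univ, Fintype.card_fin,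
    nsmul_eq_mul] at h3
  push_cast at h3
  rw [e1] at hT₀
  linarith

theorem not_mem {k : Type} [Field k] {Ω : Type} (f : Ω → Fin 6 → k) (A : Set Ω)
    (y : Fin 4 → Fin 6 → k) (h : Ind f A y) (j : Fin 4) : y j ∉ UU f A := by
  intro hy
  have h1 := h (Pi.single j 1) (by
    intro ω hω
    rw [Finset.sum_eq_single j]
    · rw [hy ω hω, mul_zero]
    · intro i _ hi
      rw [Pi.single_eq_of_ne hi, zero_mul]
    · intro h; exact absurd (Finset.mem_univ j) h)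
  have h2 := congrFun h1 j
  rw [Pi.single_eq_same] at h2
  exact one_ne_zero h2

end U2M

open U2M in
theorem specU2 (hK2F : SpecK2F) (hPOL : SpecPOL) (hDIC : SpecDIC) (hSMB : SpecSMB)
    (hK2G : SpecK2G) (hHYP : SpecHYP) (hFCH : SpecFCH) (hSTA : SpecSTA) (hUC : SpecUC) :
    SpecU2 := by
  intro k _ _ S q ℓ BB C ε Ω f T Sm A hε hS2 hdlt hw hDl hStg hfr
  obtain ⟨st1, st2, st3⟩ := hSTA k S q ℓ BB C ε Ω f T Sm A hStg
  have hnc := hUC k S q ℓ BB C ε Ω f T Sm A hε hStg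
  obtain ⟨κ, hκ, hloc⟩ := hK2F k S q ℓ BB C ε Ω f T Sm A hS2 hStg hfr
  have sys := hStg.sys
  -- the degree
  obtain ⟨g, hgdef⟩ : ∃ g : ℕ, g = max (Module.finrank k (FS f A 2) - 7) 2 := ⟨_, rfl⟩
  have hg2 : 2 ≤ g := by rw [hgdef]; exact le_max_right _ _
  have hG : ∀ B ∈ BB, ∀ (e : Fin 4 → Fin 6) (N : Fin 6 → Fin 4 → k), EN (UB (UU f A) B) e N →
      Spn f A (fun j => S2 B (e j)) ∧ Ind f A (fun j => S2 B (e j)) ∧
      ∃ G : MvPolynomial (Fin 4) k, G.IsHomogeneous g ∧ Irreducible G ∧ G ∣ Dl N ∧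
        ∀ (m : ℕ) (Q : MvPolynomial (Fin 4) k), Q.IsHomogeneous m →
          ((∀ ω ∈ A, eval (fun j => S2 B (e j) ⬝ᵥ f ω) Q = 0) ↔ G ∣ Q) := by
    intro B hB e N hEN
    obtain ⟨p1, p2, p3, p4, p5⟩ := hPOL k Ω f A B e N (hS2 B hB) (hdlt B) (hStg.det B hB) hfr hEN
      hStg.dl hw
    refine ⟨p1, p2, ?_⟩
    rcases hDIC k Ω 6 f Sm sys A hStg.gen (fun j => S2 B (e j)) p1 p2 (Dl N) (hDl N) p4 p3 with
      h | ⟨g', G, hg', hGh, hGi, hGd, hGf, hGa⟩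
    · exact absurd h hnc
    · have e1 : g = g' := by
        rw [hgdef, hGf]
        have e2 : 7 + g' - 7 = g' := by omega
        rw [e2]
        exact max_eq_left hg'
      subst e1
      exact ⟨G, hGh, hGi, hGd, hGa⟩
  -- the finite choices
  let Φ : Type := {B // B ∈ BB} × (Fin 4 → Fin 6) ×
    {μ : Fin 4 →₀ ℕ // μ ∈ (Finset.univ : Finset (Fin 4)).finsuppAntidiag g}
  let ok : Place k → Φ → Prop := fun _ φ =>
    ∃ G : MvPolynomial (Fin 4) k, GP f A g (fun j => S2 φ.1.1 (φ.2.1 j)) φ.2.2.1 G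
  let F : Place k → Φ → Ω → ℝ := fun v φ ω =>
    ∑ j, (1 - ((φ.2.2.1 : Fin 4 →₀ ℕ) j : ℝ) / g) * val v (S2 φ.1.1 (φ.2.1 j)) (f ω)
  obtain ⟨B₁, C₁, hB₁, hF⟩ := hFCH k Ω Φ S Sm sys A (fun ω => ht (f ω)) (3 + ε / 2) F ok (by
    intro φ hok
    have hok' : ∀ v ∈ S, ∃ G : MvPolynomial (Fin 4) k,
      GP f A g (fun j => S2 (φ v).1.1 ((φ v).2.1 j)) (φ v).2.2.1 G := hok
    choose! G hGG using hok'
    obtain ⟨B, C', hB, h⟩ := hHYP k Ω 6 f Sm sys A hStg.gen hStg.ne S g hg2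
      (fun v j => S2 (φ v).1.1 ((φ v).2.1 j)) G (fun v => (φ v).2.2.1)
      (fun v hv => hGG v hv) (ε / 2) (by positivity)
    exact ⟨B, C', hB, fun ω hω hωB => (h ω hω hωB).2⟩)
  -- the zeros of the functionals
  have hB₂ := sm_iUnion sys (BB ×ˢ (Finset.univ : Finset (Fin 6)))
    (fun t => {ω | ω ∈ A ∧ S2 t.1 t.2 ∉ UU f A ∧ S2 t.1 t.2 ⬝ᵥ f ω = 0}) (by
      intro t _
      by_cases h : S2 t.1 t.2 ∈ UU f A
      · refine sys.2.1 _ _ ?_ sys.1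
        rintro ω ⟨_, h2, _⟩
        exact absurd h h2
      · refine sys.2.1 _ _ ?_ (st1 _ h)
        rintro ω ⟨h1, _, h3⟩
        exact ⟨h1, h3⟩)
  obtain ⟨B₂, hB₂def⟩ : ∃ B₂ : Set Ω, B₂ = {ω | ∃ t ∈ BB ×ˢ (Finset.univ : Finset (Fin 6)),
    ω ∈ (fun t : Matrix (Fin 3) (Fin 3) k × Fin 6 =>
      {ω | ω ∈ A ∧ S2 t.1 t.2 ∉ UU f A ∧ S2 t.1 t.2 ⬝ᵥ f ω = 0}) t} := ⟨_, rfl⟩
  rw [← hB₂def] at hB₂
  refine st2 (B₁ ∪ B₂) (2 * |C₁| + S.card * (9 * |C| + 2 * κ)) (sys.2.2 _ _ hB₁ hB₂) ?_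
  intro ω hω hωB
  have hω1 : ω ∉ B₁ := fun h => hωB (Or.inl h)
  have hω2 : ω ∉ B₂ := fun h => hωB (Or.inr h)
  have hht : 0 ≤ ht (f ω) := ht_nonneg (hStg.ne ω hω)
  -- the claim at every place
  have claim : ∀ v ∈ S, ∃ φ : Φ, ok v φ ∧ T ω v ≤ 2 * F v φ ω + (9 * |C| + 2 * κ) := by
    intro v hv
    obtain ⟨B, hB, W, T₀, hW0, hGe, hT, e, N, he1, he2, he3, halt⟩ := hloc ω hω v hv
    obtain ⟨q1, q2, G, hGh, hGi, hGd, hGa⟩ := hG B hB e N ⟨he1, he2, he3⟩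
    obtain ⟨μ, hμ, hmin, hstd⟩ := hSMB k 4 g G hGh hGi.ne_zero (fun j => W (e j))
    have h1 := hK2G k g G (Dl N) μ (fun j => W (e j)) T₀ κ hg2 hGh hGi hGd
      (fun j => hW0 (e j)) hκ hmin halt
    have hsum := sum_eq hGh hμ
    refine ⟨⟨⟨B, hB⟩, e, ⟨μ, by
      rw [Finset.mem_finsuppAntidiag]
      exact ⟨hsum, Finset.subset_univ _⟩⟩⟩,
      ⟨G, q1, hGh, hGi.ne_zero, hμ, hstd, hGa⟩, ?_⟩
    refine loc hg2 μ hsum (fun j => W (e j)) (fun j => val v (S2 B (e j)) (f ω)) C κ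
      (T ω v) T₀ ?_ hT h1
    intro j
    have hnz : S2 B (e j) ⬝ᵥ f ω ≠ 0 := by
      intro h0
      apply hω2
      rw [hB₂def]
      exact ⟨(B, e j), Finset.mem_product.2 ⟨hB, Finset.mem_univ _⟩, hω,
        not_mem f A (fun j => S2 B (e j)) q2 j, h0⟩
    exact st3 v (S2 B (e j)) (f ω) _ hnz (hGe (e j))
  rcases S.eq_empty_or_nonempty with hS | ⟨v₀, hv₀⟩
  · subst hS
    simp only [Finset.sum_empty, Finset.card_empty, Nat.cast_zero, zero_mul, add_zero]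
    positivity
  · obtain ⟨φ₀, _⟩ := claim v₀ hv₀
    have : Nonempty Φ := ⟨φ₀⟩
    choose! φ hφ using claim
    have h1 := hF ω hω hω1 φ (fun v hv => (hφ v hv).1)
    have h2 : ∑ v ∈ S, T ω v ≤ ∑ v ∈ S, (2 * F v (φ v) ω + (9 * |C| + 2 * κ)) :=
      Finset.sum_le_sum fun v hv => (hφ v hv).2
    rw [Finset.sum_add_distrib, ← Finset.mul_sum, Finset.sum_const, nsmul_eq_mul] at h2
    have h3 := le_abs_self C₁
    linarith

end Pool.Agent.Lib.MP_d0e829_nt.SS
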