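import Pool.Agent.Lib.MP_d0e829_nt.SS.SpecC3

/-!
# UBP: the space `UB U B`
-/

set_option autoImplicit false

open NumberField MvPolynomial

namespace Pool.Agent.Lib.MP_d0e829_nt.SS

open scoped Classical

namespace UBPM

/-- the linear automorphism of `k⁶` given by the rows of an invertible matrix -/
noncomputable def ph {k : Type} [Field k] (M : Matrix (Fin 6) (Fin 6) k) (h : M.det ≠ 0) :
    (Fin 6 → k) ≃ₗ[k] (Fin 6 → k) :=
  LinearEquiv.ofInjectiveEndo M.vecMulLinear (by
    intro a b hab
    have hab' : Matrix.vecMul a M = Matrix.vecMul b M := hab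
    exact Matrix.vecMul_injective_of_isUnit ((Matrix.isUnit_iff_isUnit_det M).2 h.isUnit) hab')

lemma ph_apply {k : Type} [Field k] (M : Matrix (Fin 6) (Fin 6) k) (h : M.det ≠ 0)
    (c : Fin 6 → k) : ph M h c = ∑ i, c i • M i := by
  show Matrix.vecMul c M = _
  rw [Matrix.vecMul_eq_sum]

end UBPM

open UBPM in
theorem specUBP : SpecUBP := by
  intro k _ U B hB
  have hmem : ∀ c : Fin 6 → k, c ∈ UB U B ↔ ∑ i, c i • S2 B i ∈ U := fun c => Iff.rfl
  refine ⟨?_, fun i => ?_, hmem⟩
  · have h1 : UB U B = U.comap (ph (S2 B) hB).toLinearMap := by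
      ext c
      rw [hmem, Submodule.mem_comap]
      show _ ↔ ph (S2 B) hB c ∈ U
      rw [ph_apply]
    have h2 : U.comap (ph (S2 B) hB).toLinearMap = U.map (ph (S2 B) hB).symm.toLinearMap := by
      ext c
      simp only [Submodule.mem_comap, Submodule.mem_map, LinearEquiv.coe_coe]
      constructor
      · intro h
        exact ⟨_, h, LinearEquiv.symm_apply_apply _ _⟩
      · rintro ⟨y, hy, rfl⟩
        rwa [LinearEquiv.apply_symm_apply]
    rw [h1, h2]
    exact LinearEquiv.finrank_map_eq _ _
  · rw [hmem]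
    have h1 : ∑ j, (Pi.single i (1 : k) : Fin 6 → k) j • S2 B j = S2 B i := by
      rw [Finset.sum_eq_single i]
      · rw [Pi.single_eq_same, one_smul]
      · intro j _ hj
        rw [Pi.single_eq_of_ne hj, zero_smul]
      · intro h
        exact absurd (Finset.mem_univ i) h
    rw [h1]

end Pool.Agent.Lib.MP_d0e829_nt.SS
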