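import Pool.Agent.Lib.MP_d0e829_nt.SS.SpecC3

/-!
# Module UC: the curve case
-/

set_option autoImplicit false

open NumberField MvPolynomial

namespace Pool.Agent.Lib.MP_d0e829_nt.SS

open scoped Classical

namespace UCM

lemma ne_of_Le {k : Type} [Field k] [NumberField k] {v : Place k} {c f : Fin 6 → k} {w : ℝ}
    (hf : f ≠ 0) (h : Le v c f w) : c ⬝ᵥ f ≠ 0 := by
  intro h0
  unfold Le at h
  rw [h0, absV_zero] at h
  have := mul_pos (Real.exp_pos (-w)) (nrm_pos v hf)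
  linarith

lemma frame {k : Type} [Field k] [NumberField k] {v : Place k} {q : ℕ} {ℓ : Fin q → Fin 3 → k}
    {B : Matrix (Fin 3) (Fin 3) k} {g : Fin 6 → k} {T C : ℝ} (hg : g ≠ 0)
    (hval : ∀ (c : Fin 6 → k) (w : ℝ), c ⬝ᵥ g ≠ 0 → Ge v c g w → w ≤ val v c g)
    (h : Fr v ℓ B g T C) : ∃ i : Fin 3, T ≤ 3 * val v (sqv (B i)) g + 4 * C := by
  have key : ∀ W : Fin 6 → ℝ, (∀ i, Ge v (S2 B i) g (W i - C)) →
      (∀ i : Fin 6, (i : ℕ) < 3 → Le v (S2 B i) g (W i + C)) → T ≤ W 0 + W 1 + W 2 + C →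
      ∃ i : Fin 3, T ≤ 3 * val v (sqv (B i)) g + 4 * C := by
    intro W h1 h2 h3
    have hv : ∀ i : Fin 6, (i : ℕ) < 3 → W i - C ≤ val v (S2 B i) g := fun i hi =>
      hval _ _ (ne_of_Le hg (h2 i hi)) (h1 i)
    have h0 : W 0 - C ≤ val v (sqv (B 0)) g := hv 0 (by decide)
    have h1' : W 1 - C ≤ val v (sqv (B 1)) g := hv 1 (by decide)
    have h2' : W 2 - C ≤ val v (sqv (B 2)) g := hv 2 (by decide)
    by_contra hcon
    push Not at hcon
    have a0 := hcon 0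
    have a1 := hcon 1
    have a2 := hcon 2
    linarith
  rcases h with ⟨_, _, _, _, _, _, _, _, _, hA⟩ | ⟨_, _, _, _, _, hA, _⟩ |
    ⟨_, _, _, _, _, _, _, _, _, hB⟩
  · obtain ⟨p, q', z, z', hp, hq, hz, hz', hT, hge, hle⟩ := hA
    refine key _ hge hle ?_
    show T ≤ p + q' + (z + z') + C
    linarith
  · obtain ⟨p, q', z, z', hp, hq, hz, hz', hT, hge, hle⟩ := hA
    refine key _ hge hle ?_
    show T ≤ p + q' + (z + z') + C
    linarith
  · obtain ⟨p, p', q', q'', hp, hp', hq, hq', hT, hge, hle⟩ := hB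
    refine key _ hge hle ?_
    show T ≤ (p + p') + (q' + q'') + 0 + C
    linarith

end UCM

theorem specUC (hCRV : SpecCRV) (hFCH : SpecFCH) (hSTA : SpecSTA) : SpecUC := by
  intro k _ _ S q ℓ BB C ε Ω f T Sm A hε h hD
  obtain ⟨-, hST2, hST3⟩ := hSTA k S q ℓ BB C ε Ω f T Sm A h
  have hrow : ∀ B ∈ BB, ∀ i : Fin 3, sqv (B i) ∉ UU f A := by
    intro B hB i
    refine h.sqn _ ?_
    intro h0
    exact h.det B hB (Matrix.det_eq_zero_of_row_eq_zero i fun j => by rw [h0]; rfl)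
  obtain ⟨B1, C1, hB1, hC1⟩ := hFCH k Ω (↥BB × Fin 3) S Sm h.sys A (fun ω => ht (f ω))
    (2 + ε / 3) (fun v φ ω => val v (sqv (φ.1.1 φ.2)) (f ω)) (fun _ _ => True) (by
      intro φ _
      obtain ⟨B', C', hB', hC'⟩ := hCRV k Ω 6 f Sm h.sys A h.gen h.ne hD S
        (fun v => sqv ((φ v).1.1 (φ v).2)) (by
          intro v _
          by_contra hcon
          push Not at hcon
          exact hrow _ (φ v).1.2 (φ v).2 hcon) (ε / 3) (by positivity)
      exact ⟨B', C', hB', fun ω hω hωB => (hC' ω hω hωB).2⟩)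
  rcases S.eq_empty_or_nonempty with hS | ⟨v0, hv0⟩
  · refine hST2 ∅ 0 h.sys.1 ?_
    intro ω hω _
    have hht := ht_nonneg (h.ne ω hω)
    rw [hS, Finset.sum_empty, add_zero]
    positivity
  · refine hST2 B1 (3 * C1 + 4 * C * S.card) hB1 ?_
    intro ω hω hωB
    have hfr : ∀ v ∈ S, ∃ φ : ↥BB × Fin 3,
        T ω v ≤ 3 * val v (sqv (φ.1.1 φ.2)) (f ω) + 4 * C := by
      intro v hv
      obtain ⟨B, hB, hF⟩ := h.fr ω hω v hv
      obtain ⟨i, hi⟩ := UCM.frame (h.ne ω hω) (fun c w => hST3 v c (f ω) w) hF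
      exact ⟨(⟨B, hB⟩, i), hi⟩
    obtain ⟨φ0, -⟩ := hfr v0 hv0
    have hall : ∀ v : Place k, ∃ φ : ↥BB × Fin 3, v ∈ S →
        T ω v ≤ 3 * val v (sqv (φ.1.1 φ.2)) (f ω) + 4 * C := by
      intro v
      by_cases hv : v ∈ S
      · obtain ⟨φ, hφ⟩ := hfr v hv
        exact ⟨φ, fun _ => hφ⟩
      · exact ⟨φ0, fun h' => absurd h' hv⟩
    choose φ hφ using hall
    have h1 := hC1 ω hω hωB φ (fun _ _ => trivial)
    have h2 : ∑ v ∈ S, T ω v ≤
        ∑ v ∈ S, (3 * val v (sqv ((φ v).1.1 (φ v).2)) (f ω) + 4 * C) :=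
      Finset.sum_le_sum fun v hv => hφ v hv
    rw [Finset.sum_add_distrib, ← Finset.mul_sum, Finset.sum_const, nsmul_eq_mul] at h2
    nlinarith

end Pool.Agent.Lib.MP_d0e829_nt.SS
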