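import Pool.Agent.Lib.MP_d0e829_nt.SS.SpecC2

/-!
Part C, module UNP: uniqueness of the pair of lines.
-/

set_option autoImplicit false

namespace Pool.Agent.Lib.MP_d0e829_nt.SS

namespace UNPM

lemma sqv_sq {k : Type} [Field k] (c x y : Fin 3 → k) :
    sqv c ⬝ᵥ sq x y = (c ⬝ᵥ x) * (c ⬝ᵥ y) := by
  simp only [dotProduct, Fin.sum_univ_succ, sqv, sq]
  simp
  ring

/-- a vector with prescribed values `1, 0, 0` -/
lemma exists_x {k : Type} [Field k] {u v w : Fin 3 → k} (h : LinearIndependent k ![u, v, w]) :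
    ∃ x : Fin 3 → k, u ⬝ᵥ x = 1 ∧ v ⬝ᵥ x = 0 ∧ w ⬝ᵥ x = 0 := by
  have hM : IsUnit (Matrix.of ![u, v, w]) := by
    apply Matrix.linearIndependent_rows_iff_isUnit.1
    exact h
  have hdet := (Matrix.isUnit_iff_isUnit_det _).1 hM
  set M : Matrix (Fin 3) (Fin 3) k := Matrix.of ![u, v, w] with hMdef
  have h1 : M.mulVec (M⁻¹.mulVec (Pi.single 0 1)) = Pi.single 0 1 := by
    rw [Matrix.mulVec_mulVec, Matrix.mul_nonsing_inv M hdet, Matrix.one_mulVec]
  refine ⟨M⁻¹.mulVec (Pi.single 0 1), ?_, ?_, ?_⟩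
  · have := congrFun h1 0
    simpa [hMdef, Matrix.mulVec] using this
  · have := congrFun h1 1
    simpa [hMdef, Matrix.mulVec] using this
  · have := congrFun h1 2
    simpa [hMdef, Matrix.mulVec] using this

end UNPM

open UNPM in
theorem specUNP : SpecUNP := by
  intro k _ q ℓ hg r s r' s' a b a' b' hrs hrs' ha hb ha' hb' h
  by_contra hc
  push Not at hc
  obtain ⟨h1, h2⟩ := hc
  obtain ⟨x, x1, x2, x3⟩ := exists_x (hg r r' s' h1 h2 hrs')
  -- a third index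
  obtain ⟨t, ht1, ht2⟩ : ∃ t, r ≠ t ∧ s ≠ t := by
    by_cases hs : s = r'
    · exact ⟨s', h2, by rw [hs]; exact hrs'⟩
    · exact ⟨r', h1, hs⟩
  obtain ⟨y, y1, y2, y3⟩ := exists_x (hg r s t hrs ht1 ht2)
  have h3 := congrArg (fun v => v ⬝ᵥ sq x y) h
  simp only [add_dotProduct, smul_dotProduct, sqv_sq, smul_eq_mul, x1, x2, x3, y1, y2] at h3
  apply ha
  simpa using h3

end Pool.Agent.Lib.MP_d0e829_nt.SS
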