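import Pool.Agent.Lib.MP_d0e829_nt.SS.MainSUB
import Pool.Agent.Lib.MP_d0e829_nt.SS.MAX
import Pool.Agent.Lib.MP_d0e829_nt.SS.SML
import Pool.Agent.Lib.MP_d0e829_nt.SS.PRI
import Pool.Agent.Lib.MP_d0e829_nt.SS.FUP
import Pool.Agent.Lib.MP_d0e829_nt.SS.FLW
import Pool.Agent.Lib.MP_d0e829_nt.SS.FT2
import Pool.Agent.Lib.MP_d0e829_nt.SS.FZF
import Pool.Agent.Lib.MP_d0e829_nt.SS.FZB
import Pool.Agent.Lib.MP_d0e829_nt.SS.FNM
import Pool.Agent.Lib.MP_d0e829_nt.SS.FGL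
import Pool.Agent.Lib.MP_d0e829_nt.SS.FCA
import Pool.Agent.Lib.MP_d0e829_nt.SS.FC1
import Pool.Agent.Lib.MP_d0e829_nt.SS.FCB
import Pool.Agent.Lib.MP_d0e829_nt.SS.FRM
import Pool.Agent.Lib.MP_d0e829_nt.SS.EGAL
import Pool.Agent.Lib.MP_d0e829_nt.SS.EINJ
import Pool.Agent.Lib.MP_d0e829_nt.SS.ELI
import Pool.Agent.Lib.MP_d0e829_nt.SS.EFV
import Pool.Agent.Lib.MP_d0e829_nt.SS.EFA
import Pool.Agent.Lib.MP_d0e829_nt.SS.EFT
import Pool.Agent.Lib.MP_d0e829_nt.SS.ELF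
import Pool.Agent.Lib.MP_d0e829_nt.SS.EXTV
import Pool.Agent.Lib.MP_d0e829_nt.SS.PLB
import Pool.Agent.Lib.MP_d0e829_nt.SS.LVL
import Pool.Agent.Lib.MP_d0e829_nt.SS.ALG
import Pool.Agent.Lib.MP_d0e829_nt.SS.GLU
import Pool.Agent.Lib.MP_d0e829_nt.SS.TRV
import Pool.Agent.Lib.MP_d0e829_nt.SS.SUBI
import Pool.Agent.Lib.MP_d0e829_nt.SS.LNS
import Pool.Agent.Lib.MP_d0e829_nt.SS.FCH
import Pool.Agent.Lib.MP_d0e829_nt.SS.STA
import Pool.Agent.Lib.MP_d0e829_nt.SS.U0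
import Pool.Agent.Lib.MP_d0e829_nt.SS.IRR
import Pool.Agent.Lib.MP_d0e829_nt.SS.FIL
import Pool.Agent.Lib.MP_d0e829_nt.SS.GRO
import Pool.Agent.Lib.MP_d0e829_nt.SS.CRV
import Pool.Agent.Lib.MP_d0e829_nt.SS.UC
import Pool.Agent.Lib.MP_d0e829_nt.SS.K1A
import Pool.Agent.Lib.MP_d0e829_nt.SS.K1D
import Pool.Agent.Lib.MP_d0e829_nt.SS.K1B
import Pool.Agent.Lib.MP_d0e829_nt.SS.UNP
import Pool.Agent.Lib.MP_d0e829_nt.SS.U1
import Pool.Agent.Lib.MP_d0e829_nt.SS.COF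
import Pool.Agent.Lib.MP_d0e829_nt.SS.ELM
import Pool.Agent.Lib.MP_d0e829_nt.SS.KA0
import Pool.Agent.Lib.MP_d0e829_nt.SS.KA1
import Pool.Agent.Lib.MP_d0e829_nt.SS.KA2
import Pool.Agent.Lib.MP_d0e829_nt.SS.KA3
import Pool.Agent.Lib.MP_d0e829_nt.SS.KA4
import Pool.Agent.Lib.MP_d0e829_nt.SS.KA5
import Pool.Agent.Lib.MP_d0e829_nt.SS.KSW
import Pool.Agent.Lib.MP_d0e829_nt.SS.K2A
import Pool.Agent.Lib.MP_d0e829_nt.SS.KB1
import Pool.Agent.Lib.MP_d0e829_nt.SS.KB2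
import Pool.Agent.Lib.MP_d0e829_nt.SS.KB3
import Pool.Agent.Lib.MP_d0e829_nt.SS.KB4
import Pool.Agent.Lib.MP_d0e829_nt.SS.KB5
import Pool.Agent.Lib.MP_d0e829_nt.SS.K2B
import Pool.Agent.Lib.MP_d0e829_nt.SS.EXA
import Pool.Agent.Lib.MP_d0e829_nt.SS.UBP
import Pool.Agent.Lib.MP_d0e829_nt.SS.NPR
import Pool.Agent.Lib.MP_d0e829_nt.SS.K2F
import Pool.Agent.Lib.MP_d0e829_nt.SS.POL
import Pool.Agent.Lib.MP_d0e829_nt.SS.HFA
import Pool.Agent.Lib.MP_d0e829_nt.SS.TWO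
import Pool.Agent.Lib.MP_d0e829_nt.SS.PAR
import Pool.Agent.Lib.MP_d0e829_nt.SS.DIC
import Pool.Agent.Lib.MP_d0e829_nt.SS.SMB
import Pool.Agent.Lib.MP_d0e829_nt.SS.K2G
import Pool.Agent.Lib.MP_d0e829_nt.SS.CNT
import Pool.Agent.Lib.MP_d0e829_nt.SS.HYP
import Pool.Agent.Lib.MP_d0e829_nt.SS.U2
import Pool.Agent.Lib.MP_d0e829_nt.SS.DM2
import Pool.Agent.Lib.MP_d0e829_nt.SS.DM3
import Pool.Agent.Lib.MP_d0e829_nt.SS.DIS
import Pool.Agent.Lib.MP_d0e829_nt.SS.ORT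
import Pool.Agent.Lib.MP_d0e829_nt.SS.GRM
import Pool.Agent.Lib.MP_d0e829_nt.SS.DEL
import Pool.Agent.Lib.MP_d0e829_nt.SS.TRI
import Pool.Agent.Lib.MP_d0e829_nt.SS.FIN

/-!
# The theorem on points of degree at most two, without hypotheses
-/

set_option autoImplicit false

namespace Pool.Agent.Lib.MP_d0e829_nt.SS

/-- Schmidt-Wirsing inequality with constant `6 + ε` for points of degree at most two. -/
theorem quadratic : SpecFIN := by
  have hSUB : SpecSUB := sub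
  have hMAX : SpecMAX := specMAX
  have hSML : SpecSML := specSML
  have hPRI : SpecPRI := specPRI
  have hFUP : SpecFUP := specFUP
  have hFLW : SpecFLW := specFLW
  have hFT2 : SpecFT2 := specFT2 hFUP hFLW
  have hFZF : SpecFZF := specFZF
  have hFZB : SpecFZB := specFZB
  have hFNM : SpecFNM := specFNM hFLW
  have hFGL : SpecFGL := specFGL hFNM
  have hFCA : SpecFCA := specFCA hFGL
  have hFC1 : SpecFC1 := specFC1 hFGL
  have hFCB : SpecFCB := specFCB hFGL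
  have hFRM : SpecFRM := specFRM hFUP hFT2 hFZF hFZB hFCA hFC1 hFCB
  have hEGAL : SpecEGAL := specEGAL
  have hEINJ : SpecEINJ := specEINJ
  have hELI : SpecELI := specELI
  have hEFV : SpecEFV := specEFV
  have hEFA : SpecEFA := specEFA
  have hEFT : SpecEFT := specEFT
  have hELF : SpecELF := specELF hEFV hEFA hEFT
  have hEXTV : SpecEXTV := specEXTV hEGAL hEINJ hELI hELF
  have hPLB : SpecPLB := specPLB
  have hLVL : SpecLVL := specLVL
  have hALG : SpecALG := specALG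
  have hGLU : SpecGLU := specGLU hEXTV hPLB hLVL hALG
  have hTRV : SpecTRV := specTRV
  have hSUBI : SpecSUBI := specSUBI hSUB hTRV
  have hLNS : SpecLNS := specLNS hSUBI
  have hFCH : SpecFCH := specFCH
  have hSTA : SpecSTA := specSTA
  have hU0 : SpecU0 := specU0 hLNS hFCH hSTA
  have hIRR : SpecIRR := specIRR
  have hFIL : SpecFIL := specFIL hIRR
  have hGRO : SpecGRO := specGRO
  have hCRV : SpecCRV := specCRV hSUBI hFIL hGRO hTRV
  have hUC : SpecUC := specUC hCRV hFCH hSTA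
  have hK1A : SpecK1A := specK1A
  have hK1D : SpecK1D := specK1D
  have hK1B : SpecK1B := specK1B
  have hUNP : SpecUNP := specUNP
  have hU1 : SpecU1 := specU1 hLNS hFCH hSTA hK1A hK1D hK1B hUNP hTRV
  have hCOF : SpecCOF := specCOF
  have hELM : SpecELM := specELM
  have hKA0 : SpecKA0 := specKA0 hCOF hELM
  have hKA1 : SpecKA1 := specKA1 hCOF hELM
  have hKA2 : SpecKA2 := specKA2 hCOF hELM
  have hKA3 : SpecKA3 := specKA3 hCOF hELM
  have hKA4 : SpecKA4 := specKA4 hELM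
  have hKA5 : SpecKA5 := specKA5 hCOF hELM
  have hKSW : SpecKSW := specKSW
  have hK2A : SpecK2A := specK2A hKA0 hKA1 hKA2 hKA3 hKA4 hKA5 hKSW
  have hKB1 : SpecKB1 := specKB1 hELM
  have hKB2 : SpecKB2 := specKB2 hELM
  have hKB3 : SpecKB3 := specKB3 hCOF hELM
  have hKB4 : SpecKB4 := specKB4 hCOF hELM
  have hKB5 : SpecKB5 := specKB5 hCOF hELM
  have hK2B : SpecK2B := specK2B hKB1 hKB2 hKB3 hKB4 hKB5
  have hEXA : SpecEXA := specEXA
  have hUBP : SpecUBP := specUBP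
  have hNPR : SpecNPR := specNPR hUBP
  have hK2F : SpecK2F := specK2F hK2A hK2B hEXA hNPR
  have hPOL : SpecPOL := specPOL hUBP
  have hHFA : SpecHFA := specHFA hIRR
  have hTWO : SpecTWO := specTWO
  have hPAR : SpecPAR := specPAR
  have hDIC : SpecDIC := specDIC hHFA hTWO hPAR
  have hSMB : SpecSMB := specSMB
  have hK2G : SpecK2G := specK2G
  have hCNT : SpecCNT := specCNT
  have hHYP : SpecHYP := specHYP hSUBI hPAR hCNT hTRV
  have hU2 : SpecU2 := specU2 hK2F hPOL hDIC hSMB hK2G hHYP hFCH hSTA hUC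
  have hDM2 : SpecDM2 := specDM2 hPAR
  have hDM3 : SpecDM3 := specDM3 hPAR
  have hDIS : SpecDIS := specDIS hDM2 hDM3
  have hORT : SpecORT := specORT
  have hGRM : SpecGRM := specGRM
  have hDEL : SpecDEL := specDEL hALG hGRM
  have hTRI : SpecTRI := specTRI
  exact specFIN hMAX hSML hPRI hFRM hGLU hU0 hUC hU1 hU2 hDIS hORT hALG hDEL hCOF hTRI

end Pool.Agent.Lib.MP_d0e829_nt.SS
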