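import Pool.Agent.Lib.MP_d0e829_nt.SS.SpecC3

/-!
# SS, module ORT: a vector orthogonal to `U` with nonzero discriminant
-/

set_option autoImplicit false

namespace Pool.Agent.Lib.MP_d0e829_nt.SS

namespace ORTM

/-- the scalar product as a bilinear form -/
def dp (k : Type) [Field k] : LinearMap.BilinForm k (Fin 6 → k) := dotProductBilin k k

theorem dp_apply {k : Type} [Field k] (x y : Fin 6 → k) : dp k x y = x ⬝ᵥ y := rfl

theorem dp_refl (k : Type) [Field k] : (dp k).IsRefl := by
  intro x y h
  rw [dp_apply] at h ⊢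
  rw [dotProduct_comm, h]

theorem dp_nondeg (k : Type) [Field k] : (dp k).Nondegenerate := by
  constructor
  · intro x hx
    funext i
    have h1 := hx (Pi.single i 1)
    rw [dp_apply, dotProduct_single_one] at h1
    exact h1
  · intro x hx
    funext i
    have h1 := hx (Pi.single i 1)
    rw [dp_apply, single_one_dotProduct] at h1
    exact h1

end ORTM

open ORTM in
theorem specORT : SpecORT := by
  intro k _ U hDEL hU hsq
  have h1 : 2 ≤ Module.finrank k ((dp k).orthogonal U) := by
    rw [LinearMap.BilinForm.finrank_orthogonal (dp_nondeg k), Module.finrank_fin_fun]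
    omega
  have h2 : ∀ c : Fin 3 → k, c ≠ 0 → ∃ w ∈ (dp k).orthogonal U, sqv c ⬝ᵥ w ≠ 0 := by
    intro c hc
    by_contra hcon
    push Not at hcon
    apply hsq c hc
    rw [← LinearMap.BilinForm.orthogonal_orthogonal (dp_nondeg k) (dp_refl k) U,
      LinearMap.BilinForm.mem_orthogonal_iff]
    intro w hw
    rw [dp_apply, dotProduct_comm]
    exact hcon w hw
  obtain ⟨w, hw, hd⟩ := hDEL ((dp k).orthogonal U) h1 h2
  exact ⟨w, fun c hc => hw c hc, hd⟩

end Pool.Agent.Lib.MP_d0e829_nt.SS
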