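import Pool.Agent.Lib.MP_d0e829_nt.SS.SpecB

/-!
# RCB: the hyperplane case from RCA and NCH
-/

set_option autoImplicit false

open NumberField

namespace Pool.Agent.Lib.MP_d0e829_nt.SS

open scoped Classical

namespace RCBM

/-- `N - 1` vectors are killed by a nonzero form -/
lemma exists_form {K : Type} [Field K] {N : ℕ} (hN : 2 ≤ N) (x : Fin (N - 1) → Fin N → K) :
    ∃ a : Fin N → K, a ≠ 0 ∧ ∀ l, ∑ i, a i * x l i = 0 := by
  have h : LinearMap.ker (Matrix.of x).mulVecLin ≠ ⊥ := by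
    apply LinearMap.ker_ne_bot_of_finrank_lt
    simp only [Module.finrank_fintype_fun_eq_card, Fintype.card_fin]
    omega
  obtain ⟨a, ha, ha0⟩ := Submodule.exists_mem_ne_zero_of_ne_bot h
  refine ⟨a, ha0, fun l => ?_⟩
  rw [LinearMap.mem_ker, Matrix.mulVecLin_apply] at ha
  have h2 := congrFun ha l
  simp only [Matrix.mulVec, dotProduct, Matrix.of_apply, Pi.zero_apply] at h2
  rw [← h2]
  exact Finset.sum_congr rfl fun i _ => mul_comm _ _

end RCBM

open RCBM in
/-- RCB -/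
theorem specRCB (hRCA : SpecRCA) (hNCH : SpecNCH) : SpecRCB := by
  intro K _ _ N hN S hS L hL c hc δ hδ
  obtain ⟨c₁, t₀, H, hc₁, hH, hA⟩ := hRCA K N hN S hS L hL c hc δ hδ
  obtain ⟨m, t₁, Ω, hm, ht₁, hΩ, hB⟩ := hNCH K N hN S hS L hL c hc δ c₁ hδ hc₁
  set Ex : ℝ → Prop := fun t => t₀ ≤ t ∧ ∃ x : Fin (N - 1) → Fin N → K,
    LinearIndependent K x ∧ (∀ l, htw S L (fun v i => t * c v i) (x l) ≤ -(δ * t)) ∧
      Submodule.span K (Set.range x) ∉ H with hEx
  by_cases hb : ∃ t₂ : ℝ, ∀ t, Ex t → t < t₂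
  · obtain ⟨t₂, ht₂⟩ := hb
    refine ⟨max t₀ t₂, H, hH, ?_⟩
    intro t ht x hx hxt
    by_contra hcon
    exact absurd (ht₂ t ⟨(le_max_left _ _).trans ht, x, hx, hxt, hcon⟩)
      (not_lt.mpr ((le_max_right _ _).trans ht))
  · exfalso
    push Not at hb
    choose g hg1 hg2 using hb
    set τ' : ℕ → ℝ := fun n => Nat.rec (g t₁) (fun _ y => g (Ω * y)) n with hτ'
    have hτ0 : τ' 0 = g t₁ := rfl
    have hτs : ∀ n, τ' (n + 1) = g (Ω * τ' n) := fun n => rfl
    have hExτ : ∀ n, Ex (τ' n) := by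
      intro n
      cases n with
      | zero => exact hg1 _
      | succ n => exact hg1 _
    have hlow : ∀ n, t₁ ≤ τ' n := by
      intro n
      induction n with
      | zero => exact hg2 _
      | succ n ih =>
        have h1 : Ω * τ' n ≤ τ' (n + 1) := hg2 _
        have h2 : τ' n ≤ Ω * τ' n := le_mul_of_one_le_left (ht₁.le.trans ih) hΩ
        linarith
    have hstep : ∀ n, Ω * τ' n ≤ τ' (n + 1) := fun n => hg2 _
    have hx : ∀ n, ∃ x : Fin (N - 1) → Fin N → K,
      LinearIndependent K x ∧ (∀ l, htw S L (fun v i => τ' n * c v i) (x l) ≤ -(δ * τ' n)) ∧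
        Submodule.span K (Set.range x) ∉ H := fun n => (hExτ n).2
    choose x hx1 hx2 hx3 using hx
    choose a ha1 ha2 using fun n => exists_form hN (x n)
    refine hB (fun h => τ' h) (fun h => x h) (fun h => a h) (fun h => hlow h) ?_
      (fun h => hx1 h) (fun h => hx2 h) ?_ (fun h => ha2 h)
    · intro h h' e
      rw [← e]
      exact hstep h
    · intro h
      refine ⟨ha1 h, ?_⟩
      rcases hA (τ' h) (hExτ h).1 (x h) (hx1 h) (hx2 h) (a h) (ha1 h) (ha2 h) with h1 | h1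
      · exact absurd h1 (hx3 h)
      · exact h1

end Pool.Agent.Lib.MP_d0e829_nt.SS
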