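import Pool.Agent.Lib.MP_d0e829_nt.SS.SpecR
import Pool.Agent.Lib.MP_d0e829_nt.SS.RDER

/-!
# Module RWDT: the Wronskian of a polynomial in two groups of variables
-/

set_option autoImplicit false

open MvPolynomial

namespace Pool.Agent.Lib.MP_d0e829_nt.SS.RWDTM

theorem key {σ : Type} {k : ℕ} (P : MvPolynomial (σ ⊕ Unit) ℤ)
    (f : Fin k → MvPolynomial σ ℚ) (g : Fin k → MvPolynomial Unit ℚ)
    (hP : map (Int.castRingHom ℚ) P = ∑ j, rename Sum.inl (f j) * rename Sum.inr (g j))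
    (μ : Fin k → (σ →₀ ℕ)) (ν : Fin k → (Unit →₀ ℕ)) :
    map (Int.castRingHom ℚ) (wdet (fun i l => Finsupp.sumElim (μ i) (ν l)) P) =
      rename Sum.inl (Matrix.of fun i j : Fin k => dd (μ i) (f j)).det *
        rename Sum.inr (Matrix.of fun i j : Fin k => dd (ν i) (g j)).det := by
  set A : Matrix (Fin k) (Fin k) (MvPolynomial (σ ⊕ Unit) ℚ) :=
    Matrix.of fun i j => rename Sum.inl (dd (μ i) (f j)) with hA
  set B : Matrix (Fin k) (Fin k) (MvPolynomial (σ ⊕ Unit) ℚ) :=
    Matrix.of fun i j => rename Sum.inr (dd (ν i) (g j)) with hB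
  have h1 : (Matrix.of fun i l : Fin k => map (Int.castRingHom ℚ)
      (dd (Finsupp.sumElim (μ i) (ν l)) P)) = A * B.transpose := by
    ext1 i l
    rw [Matrix.mul_apply, Matrix.of_apply, ← dd_map, hP, dd_sum]
    refine Finset.sum_congr rfl fun j _ => ?_
    rw [dd_sum_mul]
    rfl
  have h2 : map (Int.castRingHom ℚ) (wdet (fun i l => Finsupp.sumElim (μ i) (ν l)) P) =
      (Matrix.of fun i l : Fin k => map (Int.castRingHom ℚ)
      (dd (Finsupp.sumElim (μ i) (ν l)) P)).det := by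
    unfold wdet
    rw [RingHom.map_det]
    rfl
  have h3 : rename Sum.inl (Matrix.of fun i j : Fin k => dd (μ i) (f j)).det = A.det := by
    rw [AlgHom.map_det]
    rfl
  have h4 : rename Sum.inr (Matrix.of fun i j : Fin k => dd (ν i) (g j)).det = B.det := by
    rw [AlgHom.map_det]
    rfl
  rw [h2, h1, Matrix.det_mul, Matrix.det_transpose, h3, h4]

end Pool.Agent.Lib.MP_d0e829_nt.SS.RWDTM

namespace Pool.Agent.Lib.MP_d0e829_nt.SS

theorem specRWDT (hRWRO : SpecRWRO) (hRDEC : SpecRDEC) : SpecRWDT := by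
  intro σ _ e P hP hdeg
  have hinj : Function.Injective (Int.castRingHom ℚ) := Int.cast_injective
  have hPQ : map (Int.castRingHom ℚ) P ≠ 0 := by
    intro h
    exact hP (map_injective _ hinj (by rw [h, map_zero]))
  have hdQ : degreeOf (Sum.inr ()) (map (Int.castRingHom ℚ) P) ≤ e := by
    refine le_trans ?_ hdeg
    rw [degreeOf_le_iff]
    intro m hm
    have h1 : m ∈ P.support := support_map_subset _ _ hm
    exact degreeOf_le_iff.mp (le_refl _) m h1
  obtain ⟨k, hk1, hk2, f, g, hf, hg, hfg⟩ := hRDEC σ e _ hPQ hdQ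
  obtain ⟨μ, hμ, hdμ⟩ := hRWRO σ k f hf
  obtain ⟨ν, hν, hdν⟩ := hRWRO Unit k g hg
  have hkey := RWDTM.key P f g hfg μ ν
  refine ⟨k, hk1, hk2, μ, ν, hμ, fun l => by simpa using hν l, ?_, _, _, hkey⟩
  intro h0
  rw [h0, map_zero] at hkey
  rcases mul_eq_zero.mp hkey.symm with h | h
  · exact hdμ (rename_injective _ Sum.inl_injective (by rw [h, map_zero]))
  · exact hdν (rename_injective _ Sum.inr_injective (by rw [h, map_zero]))

end Pool.Agent.Lib.MP_d0e829_nt.SS
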