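import Pool.Agent.Lib.MP_d0e829_nt.SS.Defs

/-!
# Part A: geometry of numbers; from the hyperplane case RC to Schmidt's Subspace theorem

Notation in the docstrings: `|a|_v = absV v a`, `H_r(x) = htw S L r x` (additive: a sum of logarithms),
`lcn v x` the local norm, so `H_r(x) = ∑_v log lcn v x`; `n = [K : ℚ]`; `T_j = Fl x j` (span of the
first `j` vectors, the indices of `x` start with 0).  Logarithms everywhere.  In a module the constants
`C` depend on `K, N, S, L` (and `c, δ` where these are fixed before), never on `r`, `t` or `x`.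
The facts of `SS/Defs.lean` (`absV_sum_le`, `nrm_*`, `tw_*`, `lcn_*`, `support_log_*`, `finsum_mono`,
`ht_*`, `htw_smul`, `finsum_sw`) and of `MP_d0e829_nt/Basic.lean` (`product_formula`) are proved.
-/

set_option autoImplicit false

open NumberField

namespace Pool.Agent.Lib.MP_d0e829_nt.SS

open scoped Classical

/-- GOOD. Every finite set of places is contained in a good one.

PROOF. `b` = the product of the numbers `absNorm` of the maximal ideals of the finite places in `S₀`;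
`S` = all infinite places and the finite places with `|b|_w < 1`, that is with `log |b|_w ≠ 0` (finitely
many, `support_log_absV_finite`; `|b|_w ≤ 1` as `b` is an integer).  For a finite `w ∈ S₀`, `b` lies in
its maximal ideal, so `|b|_w < 1`. -/
def SpecGOOD : Prop := ∀ (K : Type) [Field K] [NumberField K] (S₀ : Finset (Place K)),
  ∃ S : Finset (Place K), S₀ ⊆ S ∧ Good S

/-- NRM. Minkowski's theorem for one variable.

PROOF. For a finite place `w` let `q_w` be the norm of its prime ideal `𝔭_w` and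
`e_w = ⌈- n ρ_w / log q_w⌉`.  `|a|_w = q_w ^ (- ord_w a / n)`.  For `w ∉ S`, `ρ_w = log |a|_w` for some `a`,
so `e_w = ord_w a = - n ρ_w / log q_w` exactly.  Let `I = ∏ 𝔭_w ^ e_w` (a fractional ideal, almost all
`e_w = 0`).  Its norm is `∏ q_w ^ e_w ≤ exp (- n ∑_{w finite} ρ_w) ∏_{w ∈ S finite} q_w`.  Mathlib
(`NumberField.mixedEmbedding.exists_ne_zero_mem_ideal_lt`, `convexBodyLT_volume`, `minkowskiBound`)
gives `a ≠ 0` in `I` with `w(a) < f w` for the infinite `w`, where `f w = exp ((ρ_w + C sw w) / weight w)`,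
as soon as `∏ (f w) ^ mult = exp (n ∑_{inf} ρ_w + n C)` is larger than a constant times the norm of
`I`, which holds for large `C` since `∑ ρ ≥ 0`.  At the finite places `ord_w a ≥ e_w` gives
`|a|_w ≤ exp ρ_w`, at the infinite ones `|a|_w = w(a) ^ weight w ≤ exp (ρ_w + C sw w)`. -/
def SpecNRM : Prop := ∀ (K : Type) [Field K] [NumberField K] (S : Finset (Place K)), Good S →
  ∃ C : ℝ, 0 ≤ C ∧ ∀ ρ : Place K → ℝ,
    (∀ w, w ∉ S → ∃ a : K, a ≠ 0 ∧ ρ w = Real.log (absV w a)) →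
    (Function.support ρ).Finite → 0 ≤ ∑ᶠ w, ρ w →
    ∃ a : K, a ≠ 0 ∧ ∀ w, absV w a ≤ Real.exp (ρ w + C * sw w)

/-- M1. The first minimum is bounded, uniformly in the weights `r`.

PROOF (pigeonhole). Let `ω_1, …, ω_n` be an integral basis, `b` as in `Good`, `S_f` the finite places of
`S`, `a₀ > 0` an integer with `a₀ L_v` integral for all `v ∈ S`.
*Shift.* If `S_f = ∅` do nothing.  Otherwise `b ≥ 2`.  Replace `r_{v,i}` by `r_{v,i} + k log |b|_v` and `x` by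
`b^k x`: for `v ∈ S` the local norm does not change, for `v ∉ S` it does not change as `|b|_v = 1`, and
`∑_{v ∈ S} log |b|_v = 0`.  For large `k` all `r_{v,i}`, `v ∈ S_f`, are `≤ 0`.
*Boxes.* For infinite `v` put `R_{v,i} = exp (r_{v,i} / weight v)`, so that
`∏ R_{v,i}^{mult v} = exp (n ∑_{inf} r)`.  Let `E ≥ 1` be a large constant, `X = E max R_{v,i}`; as `∑ r ≥ 0`
and `r ≤ 0` on `S_f`, `max R ≥ 1`.  Consider the `x ∈ 𝓞^N` with `x_j = ∑_i y_{ji} ω_i`,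
`y_{ji} ∈ {0, …, Y-1}`, `Y = ⌈X⌉`: at least `X^{nN}` vectors, with `v(L_{v,i}(x)) ≤ B₁ X` for the infinite
`v`.  Cells: for real `v` the interval `[m E R, (m+1) E R)` containing `L_{v,i}(x)`, for complex `v` the
square of side `E R / 2` (real and imaginary parts): at most `(B₂ X / (E R_{v,i}))^{mult v}` of them
(since `E R ≤ X`).  For `v ∈ S_f`: the class of `a₀ L_{v,i}(x)` in `𝓞 / 𝔭_v^{e}`,
`e = ord_v(a₀) + ⌈- n r_{v,i} / log q_v⌉ ≥ 0`: at most `B₃ exp (- n r_{v,i})` classes.  In all at most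
`B₄ X^{nN} E^{-nN} exp (- n ∑_{v ∈ S} r) ≤ B₄ E^{-nN} X^{nN} < X^{nN}` cells if `E` is large.  The
difference `x ≠ 0` of two vectors in the same cell has `v(L_{v,i}(x)) ≤ E R_{v,i}` at the infinite `v`,
`|L_{v,i}(x)|_v ≤ exp r_{v,i}` at `v ∈ S_f`, and `nrm v x ≤ 1` for `v ∉ S`.  So `H_r(x) ≤ log E`. -/
def SpecM1 : Prop := ∀ (K : Type) [Field K] [NumberField K] (N : ℕ), 0 < N →
  ∀ S : Finset (Place K), Good S → ∀ L : Place K → Matrix (Fin N) (Fin N) K,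
  (∀ v ∈ S, (L v).det ≠ 0) → ∃ C : ℝ, ∀ r : Place K → Fin N → ℝ,
    0 ≤ ∑ v ∈ S, ∑ i, r v i → ∃ x : Fin N → K, x ≠ 0 ∧ htw S L r x ≤ C

/-- CMP. Comparison with the height.

PROOF. `|L_{v,i}(x)|_v ≤ N^{sw v} nrm v (row) nrm v x` and, with the inverse matrix,
`nrm v x ≤ N^{sw v} (max entry of L_v⁻¹) max_i |L_{v,i}(x)|_v`; `e^{-R} ≤ e^{-r} ≤ e^{R}`.  So
`|log tw - log nrm| ≤ C_v + R` for `v ∈ S`. -/
def SpecCMP : Prop := ∀ (K : Type) [Field K] [NumberField K] (N : ℕ) (S : Finset (Place K))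
  (L : Place K → Matrix (Fin N) (Fin N) K), (∀ v ∈ S, (L v).det ≠ 0) →
  ∃ C : ℝ, 0 ≤ C ∧ ∀ (r : Place K → Fin N → ℝ) (R : ℝ), 0 ≤ R →
    (∀ v ∈ S, ∀ i, |r v i| ≤ R) → ∀ x : Fin N → K, x ≠ 0 →
      |htw S L r x - ht x| ≤ C + S.card * R

/-- DAV. Davenport's lemma at one place: an ordering `π` of the forms such that on `T_j` all (twisted)
forms are controlled by the forms `π(0), …, π(j-1)`.

PROOF. Define index sets `J_N ⊃ J_{N-1} ⊃ …`, `card J_j = j`, from above, `J_N` = everything.  The `j`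
forms `L_i`, `i ∈ J_j`, restricted to `T_{j-1}` (dimension `j - 1`) satisfy a nontrivial relation
`∑_{i ∈ J_j} b_i L_i = 0` on `T_{j-1}`, `b_i ∈ K`.  Let `l ∈ J_j` be such that `|b_l|_v exp (r_l)` is maximal
(so `b_l ≠ 0`), `J_{j-1} = J_j \ {l}`, `π(j-1) = l`.  For `y ∈ T_{j-1}`:
`L_l(y) = - ∑_{i ∈ J_{j-1}} (b_i / b_l) L_i(y)`, so by `absV_sum_le`
`|L_l(y)|_v e^{-r_l} ≤ N^{sw v} max_i (|b_i|_v e^{r_i} / (|b_l|_v e^{r_l})) |L_i(y)|_v e^{-r_i} ≤
N^{sw v} max_{i ∈ J_{j-1}} |L_i(y)|_v e^{-r_i}`.  So on `T_{j-1}` the maximum over `J_j` is at most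
`N^{sw v}` times the maximum over `J_{j-1}`.  For `y ∈ T_j` (contained in `T_{j+1}, …`) iterate from `N`
down to `j`.  (For `j ≥ N` the statement is trivial as then all forms occur.) -/
def SpecDAV : Prop := ∀ (K : Type) [Field K] [NumberField K] (N : ℕ)
  (L : Matrix (Fin N) (Fin N) K) (v : Place K) (r : Fin N → ℝ) (x : Fin N → Fin N → K),
  LinearIndependent K x → ∃ π : Equiv.Perm (Fin N), ∀ (j : ℕ) (y : Fin N → K), y ∈ Fl x j →
    ∀ B : ℝ, 0 ≤ B →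
      (∀ i : Fin N, (i : ℕ) < j → absV v (L.mulVec y (π i)) * Real.exp (-(r (π i))) ≤ B) →
      tw L r v y ≤ (N : ℝ) ^ ((N : ℝ) * sw v) * B

/-- LB. The trivial lower bound for the product of the minima.

PROOF. `X` = the matrix with columns `x_j`, `det X ≠ 0`.  For `v ∈ S`:
`|det L_v|_v |det X|_v = |det (L_{v,i}(x_j))|_v ≤ (N!)^{sw v} ∏_j tw_v(x_j) exp (∑_i r_{v,i})`
(expansion over the permutations, `absV_form_le`, `absV_sum_le`); for `v ∉ S`:
`|det X|_v ≤ (N!)^{sw v} ∏_j nrm v x_j`.  Take logarithms, sum over `v`, product formula. -/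
def SpecLB : Prop := ∀ (K : Type) [Field K] [NumberField K] (N : ℕ) (S : Finset (Place K))
  (L : Place K → Matrix (Fin N) (Fin N) K), (∀ v ∈ S, (L v).det ≠ 0) →
  ∃ C : ℝ, 0 ≤ C ∧ ∀ (r : Place K → Fin N → ℝ) (x : Fin N → Fin N → K), LinearIndependent K x →
    -C - ∑ v ∈ S, ∑ i, r v i ≤ ∑ j, htw S L r (x j)

/-- RED. Reduced bases exist for functions that are bounded below on the nonzero vectors.

PROOF. Choose `x_0, x_1, …` one after the other: if `x_0, …, x_{j-1}` are linearly independent, `j < N`,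
the set of the `y ∉ T_j` is not empty and `f` is bounded below on it; let `x_j ∉ T_j` be such that
`f x_j ≤ (inf of f outside T_j) + 1`. -/
def SpecRED : Prop := ∀ (K : Type) [Field K] [NumberField K] (N : ℕ) (f : (Fin N → K) → ℝ),
  (∃ B : ℝ, ∀ y, y ≠ 0 → B ≤ f y) → ∃ x : Fin N → Fin N → K, Red f x

/-- M2. Minkowski's second theorem (from M1, DAV).

PROOF. Let `λ_j = H_r(x_j)`.  As `x_{j+1} ∉ T_j`: `λ_j ≤ λ_l + 1` for `j ≤ l`.  Let
`λ'_j = max_{l ≤ j} λ_l` (nondecreasing, `λ_j ≤ λ'_j ≤ λ_j + 1`), `Λ = ∑ λ'_j`, `s_j = λ'_j - Λ / N`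
(nondecreasing, sum 0).  Let `v₀` be an infinite place, `π` from DAV for `L_{v₀}, r_{v₀}, x`; let `r'` be `r`,
except `r'_{v₀, π(j)} = r_{v₀, π(j)} + s_j`.  `∑ r' = 0`.  Let `y ≠ 0` and `j` minimal with `y ∈ T_{j+1}`, so
`y ∉ T_j` and `H_r(y) ≥ λ_j - 1`.  By DAV (`B` = the maximum over `i ≤ j`), and since `s_i ≤ s_j` for
`i ≤ j`: `tw_{r'}(y) ≥ max_{i ≤ j} |L_{π(i)}(y)| e^{-r - s_i} ≥ e^{-s_j} N^{-N sw} tw_r(y)` at `v₀`.  So
`H_{r'}(y) ≥ H_r(y) - s_j - N log N ≥ λ'_j - 2 - s_j - N log N = Λ / N - 2 - N log N`.  M1 gives `y ≠ 0`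
with `H_{r'}(y) ≤ C`.  So `Λ ≤ N (C + 2 + N log N)`. -/
def SpecM2 : Prop := ∀ (K : Type) [Field K] [NumberField K] (N : ℕ), 0 < N →
  ∀ S : Finset (Place K), Good S → ∀ L : Place K → Matrix (Fin N) (Fin N) K,
  (∀ v ∈ S, (L v).det ≠ 0) → ∃ C : ℝ, 0 ≤ C ∧ ∀ r : Place K → Fin N → ℝ,
    ∑ v ∈ S, ∑ i, r v i = 0 → ∀ x : Fin N → Fin N → K, Red (htw S L r) x →
      ∑ j, htw S L r (x j) ≤ C

/-- RC. The hyperplane case (proved in Part B). -/
def SpecRC : Prop := ∀ (K : Type) [Field K] [NumberField K] (N : ℕ), 2 ≤ N →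
  ∀ S : Finset (Place K), Good S → ∀ L : Place K → Matrix (Fin N) (Fin N) K,
  (∀ v ∈ S, (L v).det ≠ 0) → ∀ c : Place K → Fin N → ℝ, ∑ v ∈ S, ∑ i, c v i = 0 →
  ∀ δ : ℝ, 0 < δ → ∃ (t₀ : ℝ) (H : Set (Submodule K (Fin N → K))), H.Finite ∧
    ∀ t : ℝ, t₀ ≤ t → ∀ x : Fin (N - 1) → Fin N → K, LinearIndependent K x →
      (∀ l, htw S L (fun v i => t * c v i) (x l) ≤ -(δ * t)) →
      Submodule.span K (Set.range x) ∈ H

/-- PEN. A gap before the last minimum (from RC, DAV, LB, M2, CMP, RED).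

PROOF. Let `λ_j = H(x_j)` (weights `t c`).  By LB, M2: `|∑ λ_j| ≤ C`; by CMP `λ_j ≥ - C t` and hence
`|λ_j| ≤ C t` for `t ≥ 1`.  As in M2 let `λ'_j = max_{l ≤ j} λ_l`.  Let `κ t = (1/N) (∑_{j < N-1} λ'_j +
λ'_{N-2})`, `s_j t = λ'_j - κ t` for `j < N-1`, `s_{N-1} = s_{N-2}`: nondecreasing, sum 0, `|s_j| ≤ C`.  As
`∑ λ'_j = O(1)`: `N κ t = λ'_{N-2} - λ'_{N-1} + O(1) ≤ - δ t + O(1)`.  Let `v₀` be an infinite place, `π` from
DAV for `L_{v₀}`, `t c_{v₀}`, `x`; `c'` = `c`, except `c'_{v₀,π(j)} = c_{v₀,π(j)} + s_j`.  As in M2, for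
`y ∈ T_{j+1} \ T_j`: `H_{t c'}(y) ≥ λ_j - s_j t - C`, so `≥ κ t - C` for `j < N-1` and
`≥ κ t + (λ_{N-1} - λ_{N-2}) - C` for `j = N-1`.  Let `y_0, …` be a reduced basis for `H_{t c'}` (RED,
CMP); by M2 `∑ H_{t c'}(y_j) ≤ C`.  At least one `y_j` is not in `T_{N-1}`.  If two were not:
`C ≥ N κ t + 2 (λ_{N-1} - λ_{N-2}) - C ≥ δ t - C`, impossible for large `t`.  So exactly `N - 1` of them
are in `T_{N-1}`; they span it, and each of them has
`H_{t c'}(y_j) ≤ C - (N-2) κ t - (κ t + λ_{N-1} - λ_{N-2}) + C = κ t + O(1) ≤ - (δ / N) t + C`.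
*Discretization.* `η = δ / (4 N²)`; `s''_j = η ⌊s_j / η⌋` for `j < N-1`, `s''_{N-1} = - ∑_{j<N-1} s''_j`:
`|s_j - s''_j| ≤ N η`, so the `N-1` vectors have `H_{t c''}(y) ≤ - (δ/N) t + C + N η t ≤ - (δ / 2N) t` for large `t`.
There are finitely many `c''` (finitely many `π`, `s''` in a bounded part of `η ℤ^N`), to each of which RC
with `δ / (2N)` applies: `T_{N-1} = span (y's)` is in the union of the finitely many finite sets. -/
def SpecPEN : Prop := ∀ (K : Type) [Field K] [NumberField K] (N : ℕ), 2 ≤ N →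
  ∀ S : Finset (Place K), Good S → ∀ L : Place K → Matrix (Fin N) (Fin N) K,
  (∀ v ∈ S, (L v).det ≠ 0) → ∀ c : Place K → Fin N → ℝ, ∑ v ∈ S, ∑ i, c v i = 0 →
  ∀ δ : ℝ, 0 < δ → ∃ (t₀ : ℝ) (H : Set (Submodule K (Fin N → K))), H.Finite ∧
    ∀ t : ℝ, t₀ ≤ t → ∀ x : Fin N → Fin N → K, Red (htw S L (fun v i => t * c v i)) x →
      (∀ i j : Fin N, (i : ℕ) < N - 1 → (j : ℕ) = N - 1 →
        htw S L (fun v i => t * c v i) (x i) + δ * t ≤ htw S L (fun v i => t * c v i) (x j)) →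
      Fl x (N - 1) ∈ H

/-- the subsets of `Fin N` with `p` elements -/
abbrev Sub (N p : ℕ) := {s : Finset (Fin N) // s.card = p}

/-- a numbering of the subsets with `p` elements -/
noncomputable def eqv (N p : ℕ) : Fin (N.choose p) ≃ Sub N p :=
  (Fintype.equivFinOfCardEq (by
    have h := Fintype.card_finset_len (α := Fin N) p
    rwa [Fintype.card_fin] at h)).symm

/-- the minor of `A` with rows `I` and columns `J` -/
noncomputable def minor {R : Type} [CommRing R] {N p : ℕ} (A : Matrix (Fin N) (Fin N) R)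
    (I J : Sub N p) : R :=
  (A.submatrix (fun a : Fin p => I.1.orderEmbOfFin I.2 a)
    (fun a : Fin p => J.1.orderEmbOfFin J.2 a)).det

/-- the compound matrix -/
noncomputable def cpd {R : Type} [CommRing R] {N : ℕ} (p : ℕ) (A : Matrix (Fin N) (Fin N) R) :
    Matrix (Fin (N.choose p)) (Fin (N.choose p)) R :=
  fun a b => minor A (eqv N p a) (eqv N p b)

/-- CB. Cauchy-Binet: compound matrices are multiplicative.

PROOF. Cauchy-Binet formula for `minor (A B) I J = ∑_T minor A I T * minor B T J` (expand the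
determinant of `∑_k A_{ik} B_{kj}` by multilinearity over all maps `Fin p → Fin N`; the non injective ones
give 0, the injective ones are `T` with a permutation), or through Mathlib's `exteriorPower.map`.
`cpd p 1 = 1`. -/
def SpecCB : Prop := ∀ (K : Type) [Field K] (N p : ℕ),
  (∀ A B : Matrix (Fin N) (Fin N) K, cpd p (A * B) = cpd p A * cpd p B) ∧
  cpd p (1 : Matrix (Fin N) (Fin N) K) = 1

/-- GAP. A gap at any place `k` (from PEN, CB, LB, M2, CMP, RED).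

PROOF. `p = N - k`, `N' = N.choose p` (`≥ 2`), `L'_v = cpd p (L_v)` (invertible by CB), `c'_{v,I} = ∑_{i ∈ I}
c_{v,i}` (numbered by `eqv`), `∑ c' = 0` (each `i` is in the same number of sets `I`).  For a basis `x`
with matrix `X` (columns `x_j`) and a set `I` let `x_I` be the column `I` of `cpd p X`.  Then `L'_v x_I` is
the column `I` of `cpd p (L_v X)`, with entries `det (L_{v,j}(x_i))_{j ∈ J, i ∈ I}`, so
`|·|_v ≤ (p!)^{sw v} ∏_{i ∈ I} tw_v(x_i) exp (t ∑_{j ∈ J} c_{v,j})`; similarly `nrm v x_I ≤ (p!)^{sw v} ∏ nrm v x_i`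
for `v ∉ S`.  So `H'(x_I) ≤ μ_I + log p!`, `μ_I = ∑_{i ∈ I} λ_i`.  The `x_I` are a basis of `K^{N'}`.
Let `y_0, …` be a reduced basis for `H'` (RED, CMP), `ν_j = H'(y_j)`.  LB: `∑ ν_j ≥ - C`; M2 (for `x`):
`∑_I μ_I = (N-1).choose (p-1) ∑ λ_j ≤ C`.  Let `I₀ = {k, …, N-1}`.  By the hypothesis and
`|I| = |I₀|`: `μ_I ≤ μ_{I₀} - δ t` for `I ≠ I₀`.  For every `j`, `j + 1` of the `x_I` are not all in
`Fl y j`, so `ν_j ≤ μ_(j) + C` where `μ_(0) ≤ μ_(1) ≤ …` are the numbers `μ_I` in order; in particular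
`ν_j ≤ μ_{I₀} - δ t + C` for `j < N'-1`, and with the sums `ν_{N'-1} ≥ - C - ∑_{j<N'-1} ν_j ≥
- C - ∑_{I ≠ I₀} μ_I ≥ μ_{I₀} - C`.  So PEN applies with `δ / 2` if `t` is large: `Fl y (N'-1)` is in a finite
set.  For `I ≠ I₀`: `H'(x_I) + 1 < ν_{N'-1}`, so `x_I ∈ Fl y (N'-1)` (reduced); by dimension
`Fl y (N'-1) = V := span {x_I : I ≠ I₀}`.
`V` determines `T_k`: for `a, b_2, …, b_p ∈ K^N` let `a ∧ b` be the vector of the `p × p` minors of the
matrix with columns `a, b_2, …, b_p`.  If `a ∈ T_k` all `a ∧ b` are in `V` (expand in the basis `x`: by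
multilinearity `a ∧ b` is a combination of `x_I` with `I ∩ {0, …, k-1} ≠ ∅`).  If `a ∉ T_k` complete
`x_0, …, x_{k-1}, a` by `b_2, …, b_p` to a basis: then `a ∧ b ∉ V`, because the determinant of
`(x_0, …, x_{k-1}, ·)`, a linear form on `K^{N'}`, vanishes on `V` and not on `a ∧ b`.  So `T_k = {a : ∀ b,
a ∧ b ∈ V}`. -/
def SpecGAP : Prop := ∀ (K : Type) [Field K] [NumberField K] (N : ℕ),
  ∀ S : Finset (Place K), Good S → ∀ L : Place K → Matrix (Fin N) (Fin N) K,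
  (∀ v ∈ S, (L v).det ≠ 0) → ∀ c : Place K → Fin N → ℝ, ∑ v ∈ S, ∑ i, c v i = 0 →
  ∀ δ : ℝ, 0 < δ → ∀ k : ℕ, 0 < k → k < N →
  ∃ (t₀ : ℝ) (H : Set (Submodule K (Fin N → K))), H.Finite ∧
    ∀ t : ℝ, t₀ ≤ t → ∀ x : Fin N → Fin N → K, Red (htw S L (fun v i => t * c v i)) x →
      (∀ i j : Fin N, (i : ℕ) < k → k ≤ (j : ℕ) →
        htw S L (fun v i => t * c v i) (x i) + δ * t ≤ htw S L (fun v i => t * c v i) (x j)) →
      Fl x k ∈ H

/-- PST. The parametric Subspace theorem (from GAP, LB, CMP, RED).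

PROOF. Reduced basis `x` for the weights `t c` (RED, CMP), `λ_j = H(x_j)`.  Let `y ≠ 0`, `H(y) ≤ - δ t`.
LB: some `λ_{j₁} ≥ - C / N`.  Let `k₀` be the least `j` with `λ_j > - δ t + 1` (it exists for large `t`,
`k₀ ≤ j₁`).  `y ∈ T_{k₀}`, since otherwise `λ_{k₀} ≤ H(y) + 1`.  So `k₀ ≥ 1` and `λ_{k₀-1} ≤ - δ t + 1`.
Between the indices `k₀ - 1` and `j₁` there is `k` with `λ_k - λ_{k-1} ≥ (δ t - 1 - C/N) / N`,
`k₀ ≤ k ≤ j₁ < N`.  By `λ_i ≤ λ_l + 1` for `i ≤ l` (reduced) GAP applies with `δ / (2N)` for large `t`: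
`T_k` is in a finite set, `y ∈ T_{k₀} ⊆ T_k`, and `T_k ≠ ⊤` as `k < N`. -/
def SpecPST : Prop := ∀ (K : Type) [Field K] [NumberField K] (N : ℕ), 0 < N →
  ∀ S : Finset (Place K), Good S → ∀ L : Place K → Matrix (Fin N) (Fin N) K,
  (∀ v ∈ S, (L v).det ≠ 0) → ∀ c : Place K → Fin N → ℝ, ∑ v ∈ S, ∑ i, c v i = 0 →
  ∀ δ : ℝ, 0 < δ → ∃ (t₀ : ℝ) (H : Set (Submodule K (Fin N → K))), H.Finite ∧ (∀ T ∈ H, T ≠ ⊤) ∧
    ∀ t : ℝ, t₀ ≤ t → ∀ y : Fin N → K, y ≠ 0 → htw S L (fun v i => t * c v i) y ≤ -(δ * t) →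
      ∃ T ∈ H, y ∈ T

/-- SUB. Schmidt's Subspace theorem over number fields, forms over `K` (from PST, GOOD).

PROOF. By GOOD enlarge `S` to a good set, with `L_v = 1` for the new `v`: the new terms
`log nrm v y - log |y_i|_v` are `≥ 0` if no `y_i` is 0 (put the coordinate hyperplanes and the hyperplanes
`L_{v,i} = 0` into the finite set).  Let `h = ht y`, `u_{v,i} = log nrm v y - log |L_{v,i}(y)|_v ≥ - C₁`.
*Small `h`.* For fixed `(v,i)` the function `log nrm w y - log |L_{v,i}(y)|_w` of `w` is `≥ - κ_w` with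
`∑ κ_w < ∞`, and its sum is `ht y` (product formula), so `u_{v,i} ≤ h + C₂`.  Hence for `h < h₀` the sum of
all `u_{v,i}` is bounded.
*Large `h`.* Let `∑ u_{v,i} ≥ (N + ε) h`, `A = N + ε`, `a_{v,i} = min (max (u_{v,i} / h) 0) A`; then
`∑ a_{v,i} ≥ N + ε` (clear if some `a_{v,i} = A`), `u_{v,i} ≥ a_{v,i} h - C₁`.  Let `η |S| N ≤ ε / 2`,
`a'_{v,i} = η ⌊a_{v,i} / η⌋` (finitely many possible `a'`), `∑ a' ≥ N + ε / 2`,
`s_v = (1/N) ∑_i a'_{v,i}`, `c_{v,i} = s_v - a'_{v,i}` (`∑ c = 0`), `t = h`.  Then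
`|L_{v,i}(y)|_v e^{- t c_{v,i}} ≤ nrm v y · e^{C₁ - t s_v}`, so `H_{tc}(y) ≤ h + |S| C₁ - h ∑ s_v ≤
- (ε / 2N) h + |S| C₁ ≤ - (ε / 4N) t` for large `h`.  Apply PST to each of the finitely many `c`. -/
def SpecSUB : Prop := ∀ (K : Type) [Field K] [NumberField K] (N : ℕ), 0 < N →
  ∀ (S : Finset (Place K)) (L : Place K → Matrix (Fin N) (Fin N) K),
  (∀ v ∈ S, (L v).det ≠ 0) → ∀ ε : ℝ, 0 < ε →
  ∃ (C : ℝ) (H : Set (Submodule K (Fin N → K))), H.Finite ∧ (∀ T ∈ H, T ≠ ⊤) ∧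
    ∀ y : Fin N → K, y ≠ 0 → (∀ T ∈ H, y ∉ T) →
      ∑ v ∈ S, ∑ i, (Real.log (nrm v y) - Real.log (absV v ((L v).mulVec y i))) ≤
        (N + ε) * ht y + C

end Pool.Agent.Lib.MP_d0e829_nt.SS
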