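import Pool.Agent.Lib.MP_d0e829_nt.SS.DefsB

/-!
# Part B1: the Roth machine, from Roth's lemma `SpecRL` to the hyperplane case `SpecRC`

Notation in the docstrings: `|a|_v = absV v a`, `n = [K : ℚ]`, blocks `h : Fin m`, `b_h(J) = bd J h` the
degree of the exponent `J` in the block `h`, `∑ d = ∑ h, d h`.  `R_v = sbs (L v)⁻¹ P`, so that
`P(X) = R_v(L_v X)` (every block `X_h` of variables is transformed by the same matrix).  The constants `C`
depend only on the data fixed before them.  `sw v` is the exponent in the triangle inequality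
(`weight v` for infinite `v`, `0` for finite `v`; `∑ sw = 1`); `0 ≤ sw v ≤ 1`.
-/

set_option autoImplicit false

open NumberField

namespace Pool.Agent.Lib.MP_d0e829_nt.SS

open scoped Classical

/-- degree of the exponent `J` in the block `h` -/
def bd {m N : ℕ} (J : Fin m × Fin N →₀ ℕ) (h : Fin m) : ℕ := ∑ i, J (h, i)

/-- `P(M Y_0, …, M Y_(m-1))` -/
noncomputable def sbs {K : Type} [Field K] {m N : ℕ} (M : Matrix (Fin N) (Fin N) K)
    (P : MvPolynomial (Fin m × Fin N) ℤ) : MvPolynomial (Fin m × Fin N) K :=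
  MvPolynomial.aeval
    (fun p => ∑ j, MvPolynomial.C (M p.2 j) * MvPolynomial.X ((p.1, j) : Fin m × Fin N)) P

/-- weighted sum norm, weight `lam h` for the variables of the block `h` -/
noncomputable def wn {K : Type} [Field K] [NumberField K] {m N : ℕ} (v : Place K) (lam : Fin m → ℝ)
    (F : MvPolynomial (Fin m × Fin N) K) : ℝ :=
  ∑ J ∈ F.support, absV v (F.coeff J) * ∏ h, lam h ^ bd J h

/-- the exponents of multidegree `d` -/
noncomputable def mons {m : ℕ} (N : ℕ) (d : Fin m → ℕ) : Finset (Fin m × Fin N →₀ ℕ) :=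
  (Fintype.piFinset fun h => Finset.piAntidiag (Finset.univ : Finset (Fin N)) (d h)).image
    fun f => Finsupp.equivFunOnFinite.symm fun p => f p.1 p.2

lemma mem_mons {m N : ℕ} {d : Fin m → ℕ} {s : Fin m × Fin N →₀ ℕ} :
    s ∈ mons N d ↔ ∀ h, bd s h = d h := by
  unfold mons bd
  simp only [Finset.mem_image, Fintype.mem_piFinset, Finset.mem_piAntidiag]
  constructor
  · rintro ⟨f, hf, rfl⟩ h
    simpa using (hf h).1
  · intro h
    refine ⟨fun a i => s (a, i), fun a => ⟨by simpa using h a, fun i _ => Finset.mem_univ i⟩, ?_⟩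
    ext ⟨a, i⟩
    simp

/-- WNM. The weighted sum norm is submultiplicative.

PROOF. `absV v` is subadditive: for infinite `v` it is `|.|^{weight v}` with `weight v ≤ 1`
(`mult ≤ [K:ℚ]`; `Real.add_rpow_le_rpow_add` or concavity `(x+y)^w ≤ x^w + y^w`), for finite `v` it is
nonarchimedean.  `wn` is the sum over all `J` in any finite set containing the support, so (3) is clear; (4):
`coeff J (F G) = ∑_{J' + J'' = J}`, and `∏ lam^{bd (J'+J'')} = ∏ lam^{bd J'} ∏ lam^{bd J''}`.  (6): write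
`G = ∑_s C (coeff s G) ∏_p X_p^{s p}`, `aeval φ` of it, and use (1), (3), (4) (and `wn 1 = 1`). -/
def SpecWNM : Prop := ∀ (K : Type) [Field K] [NumberField K] (m N : ℕ) (v : Place K)
  (lam : Fin m → ℝ), (∀ h, 0 < lam h) →
  (∀ a : K, wn v lam (MvPolynomial.C a : MvPolynomial (Fin m × Fin N) K) = absV v a) ∧
  (∀ p : Fin m × Fin N, wn v lam (MvPolynomial.X p : MvPolynomial (Fin m × Fin N) K) = lam p.1) ∧
  (∀ F G : MvPolynomial (Fin m × Fin N) K, wn v lam (F + G) ≤ wn v lam F + wn v lam G) ∧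
  (∀ F G : MvPolynomial (Fin m × Fin N) K, wn v lam (F * G) ≤ wn v lam F * wn v lam G) ∧
  (∀ (F : MvPolynomial (Fin m × Fin N) K) (J : Fin m × Fin N →₀ ℕ),
    absV v (F.coeff J) * ∏ h, lam h ^ bd J h ≤ wn v lam F) ∧
  (∀ (G : MvPolynomial (Fin m × Fin N) K)
    (φ : Fin m × Fin N → MvPolynomial (Fin m × Fin N) K),
    wn v lam (MvPolynomial.aeval φ G) ≤
      ∑ s ∈ G.support, absV v (G.coeff s) * ∏ p, wn v lam (φ p) ^ s p)

/-- TMC. Coefficients of a shifted polynomial.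

PROOF. Both sides are additive in `P`, so let `P` be the monomial `X^s`: the coefficient at `J` of
`∏_p (C λ_p + X_p)^{s p}` is the product over `p` of the coefficients of `X^{J p}` in `(λ_p + X)^{s p}`, that is
`(s p).choose (J p) λ_p^{s p - J p}` (induction over the finite set of the variables, binomial theorem;
`choose = 0` if `J p > s p`). -/
def SpecTMC : Prop := ∀ (R A : Type) [CommRing R] [CommRing A] [Algebra R A] (ι : Type) [Fintype ι]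
  (P : MvPolynomial ι R) (lam : ι → A) (J : ι →₀ ℕ),
  (MvPolynomial.aeval (fun p => MvPolynomial.C (lam p) + MvPolynomial.X p) P :
      MvPolynomial ι A).coeff J =
    ∑ s ∈ P.support, algebraMap R A (P.coeff s) *
      ∏ p, (((s p).choose (J p) : ℕ) : A) * lam p ^ (s p - J p)

/-- CHE. Chebyshev's inequality: most exponents of multidegree `d` are balanced.

PROOF. Fix `j`, `X_h(s) = s(h,j) / d h - 1/N ∈ [-1, 1]`.  `∑_{s ∈ mons} X_h(s) = 0`, since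
`∑_{s_h} s_h(j)` over the `s_h` of degree `d h` does not depend on `j` (permute the coordinates) and the sum
over `j` is `d h` times their number.  For `h ≠ h'` `∑_s X_h X_{h'} = 0` (`mons` is a product over the
blocks; the sum is the product of the sums over the blocks, one factor is `0`).  So
`∑_s (∑_h X_h)² = ∑_h ∑_s X_h² ≤ m card mons`, and at most `card mons / (m η²)` exponents have
`|∑_h X_h| > η m`.  Sum over `j`: the bad set has at most `N card mons / (m η²)` elements.  Take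
`m ≥ W N / η²`, `m ≥ 1`. -/
def SpecCHE : Prop := ∀ N : ℕ, 0 < N → ∀ W η : ℝ, 0 ≤ W → 0 < η → ∃ m : ℕ, 0 < m ∧
  ∀ d : Fin m → ℕ, (∀ h, 0 < d h) →
    W * (((mons N d).filter fun s => ∃ j : Fin N,
      η * m < |∑ h, (s (h, j) : ℝ) / d h - m / N|).card : ℝ) ≤ ((mons N d).card : ℝ)

/-- SIE. Siegel's lemma with integer unknowns and coefficients in `K`.

PROOF. If `α` is empty take `ξ = 1`.  Let `ω` be the integral basis (Mathlib `RingOfIntegers.basis`).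
`∑_l ξ_l a_{kl} = 0` means that the `n` integer linear forms with the coordinates of the `a_{kl}` as
coefficients vanish; the coordinates are at most `C house ≤ C A` in absolute value
(`NumberField.house.basis_repr_norm_le_const_mul_house`).  `n card α ≤ card β / 2`.  Mathlib's
`Int.Matrix.exists_ne_zero_int_vec_norm_le` (exponent `p / (q - p) ≤ 1`, base `≥ 1`) gives
`|ξ_l| ≤ card β * max 1 (C A)`. -/
def SpecSIE : Prop := ∀ (K : Type) [Field K] [NumberField K], ∃ C : ℝ, 1 ≤ C ∧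
  ∀ (α β : Type) [Fintype α] [Fintype β] (a : α → β → K) (A : ℝ), 1 ≤ A → 0 < Fintype.card β →
    2 * Module.finrank ℚ K * Fintype.card α ≤ Fintype.card β →
    (∀ k l, IsIntegral ℤ (a k l) ∧ NumberField.house (a k l) ≤ A) →
    ∃ ξ : β → ℤ, ξ ≠ 0 ∧ (∀ k, ∑ l, (ξ l : K) * a k l = 0) ∧
      ∀ l, |((ξ l : ℤ) : ℝ)| ≤ C * Fintype.card β * A

/-- COE. Denominators and sizes of the coefficients of products of the forms of a matrix.

PROOF. `b > 0` with all `b M_{ij}` integral.  `b^{∑ J} sbs M X^J = ∏_p (∑_j C (b M_{p.2,j}) X_{(p.1,j)})^{J p}`: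
a product of `∑ J` linear forms with integral coefficients, so all coefficients are integral.  The sum of
the houses of the coefficients is submultiplicative (`house_mul_le`, `house_add_le`), and it is at most
`H = max 1 (∑_{i,j} house (b M_{ij}))` for each factor, so it is `≤ H^{∑ J}`; `C = log H`. -/
def SpecCOE : Prop := ∀ (K : Type) [Field K] [NumberField K] (N : ℕ)
  (M : Matrix (Fin N) (Fin N) K), ∃ (b : ℕ) (C : ℝ), 0 < b ∧ 0 ≤ C ∧
    ∀ (m : ℕ) (J s : Fin m × Fin N →₀ ℕ),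
      IsIntegral ℤ ((b : K) ^ (∑ p, J p) * (sbs M (MvPolynomial.monomial J (1 : ℤ))).coeff s) ∧
      NumberField.house
        ((b : K) ^ (∑ p, J p) * (sbs M (MvPolynomial.monomial J (1 : ℤ))).coeff s) ≤
        Real.exp (C * ∑ p, (J p : ℝ))

/-- AUX. The auxiliary polynomial (from CHE, SIE, COE).

PROOF. CHE with `W = 2 n (card S)` gives `m`.  Unknowns: integers `ξ_J`, `J ∈ mons N d`;
`P = ∑ ξ_J X^J`.  `sbs M P = ∑_J ξ_J sbs M X^J` is again homogeneous of degree `d h` in the block `h`.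
Conditions: for `v ∈ S` and every unbalanced `s ∈ mons N d` the coefficient at `s` of `sbs (L v)⁻¹ P` is 0;
coefficients of the condition (times `b_v^{∑ d}`, COE): integral, house `≤ A = exp (C ∑ d)` with the maximum
`C` of the constants of the finitely many `(L v)⁻¹`.  `2 n (card S) (card unbalanced) ≤ card mons`, so SIE
applies: `|ξ_J| ≤ C₀ card(mons) A`.  `card (mons N d) ≤ ∏ (d h + 1)^N ≤ exp (N ∑ d)`, and
`C₀ ≤ exp (log C₀ ∑ d)` as `∑ d ≥ 1`. -/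
def SpecAUX : Prop := ∀ (K : Type) [Field K] [NumberField K] (N : ℕ), 2 ≤ N →
  ∀ (S : Finset (Place K)) (L : Place K → Matrix (Fin N) (Fin N) K), (∀ v ∈ S, (L v).det ≠ 0) →
  ∃ C : ℝ, 0 ≤ C ∧ ∀ η : ℝ, 0 < η → ∃ m : ℕ, 0 < m ∧ ∀ d : Fin m → ℕ, (∀ h, 0 < d h) →
    ∃ P : MvPolynomial (Fin m × Fin N) ℤ, P ≠ 0 ∧ BH P d ∧
      (∀ J, |((P.coeff J : ℤ) : ℝ)| ≤ Real.exp (C * ∑ h, (d h : ℝ))) ∧
      ∀ v ∈ S, ∀ s ∈ (sbs (L v)⁻¹ P).support, ∀ j : Fin N,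
        |∑ h, (s (h, j) : ℝ) / d h - m / N| ≤ η * m

/-- NSC. Scaling a vector so that its local norms are as equal as possible (from NRM).

PROOF. `ρ_w = - log (lcn w x) + sw w * htw x`.  Finite support (`support_log_lcn_finite`,
`support_sw_finite`), sum `- htw x + htw x = 0` (`finsum_sw`).  For `w ∉ S`: `w` is finite, `sw w = 0`,
`lcn w x = nrm w x = |x_j|_w` for some `j`, so `ρ_w = log |x_j⁻¹|_w`.  NRM gives `a ≠ 0` with
`|a|_w ≤ exp (ρ_w + C sw w)`, and `lcn w (a x) = |a|_w lcn w x` (`lcn_smul`). -/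
def SpecNSC : Prop := ∀ (K : Type) [Field K] [NumberField K] (N : ℕ), 0 < N →
  ∀ S : Finset (Place K), Good S → ∀ L : Place K → Matrix (Fin N) (Fin N) K,
  (∀ v ∈ S, (L v).det ≠ 0) → ∃ C : ℝ, 0 ≤ C ∧ ∀ (r : Place K → Fin N → ℝ) (x : Fin N → K), x ≠ 0 →
    ∃ a : K, a ≠ 0 ∧ ∀ w, lcn S L r w (a • x) ≤ Real.exp (sw w * (htw S L r x + C))

/-- LVN. Local bound at a finite place outside `S` (from TMC).

PROOF. By TMC the coefficient is an integer polynomial in the `z_i`; `{a : |a|_w ≤ 1}` is a subring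
containing the `z_i` and the integers. -/
def SpecLVN : Prop := ∀ (K : Type) [Field K] [NumberField K] (w : FinitePlace K) (ι : Type)
  [Fintype ι] (P : MvPolynomial ι ℤ) (z : ι → K),
  (∀ i, absV (Sum.inr w : Place K) (z i) ≤ 1) →
  ∀ J, absV (Sum.inr w : Place K) ((tay P z).coeff J) ≤ 1

/-- BDJ. Degrees of the Taylor coefficients; homogeneity of `sbs M P` (from TMC).

PROOF. By TMC some `s ∈ P.support` has `J p ≤ s p` for all `p` (otherwise all products vanish), hence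
`bd J h ≤ bd s h = d h`.  (b): every monomial of `(∑_j C M_{ij} X_{(h,j)})` has block degrees `1` at `h`
and `0` elsewhere; block degrees are additive in products. (c): `(L⁻¹)(L X) = X`, composition of `aeval`. -/
def SpecBDJ : Prop := ∀ (K : Type) [Field K] (m N : ℕ) (P : MvPolynomial (Fin m × Fin N) ℤ)
  (d : Fin m → ℕ), BH P d →
  (∀ (z : Fin m × Fin N → K) (J : Fin m × Fin N →₀ ℕ), (tay P z).coeff J ≠ 0 →
    ∀ h, bd J h ≤ d h) ∧
  (∀ (M : Matrix (Fin N) (Fin N) K), ∀ s ∈ (sbs M P).support, ∀ h, bd s h = d h) ∧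
  (∀ (L : Matrix (Fin N) (Fin N) K), L.det ≠ 0 → ∀ z : Fin m × Fin N → K,
    tay P z = MvPolynomial.aeval (fun p : Fin m × Fin N =>
      MvPolynomial.C (∑ i, L p.2 i * z (p.1, i)) +
        ∑ i, MvPolynomial.C (L p.2 i) * MvPolynomial.X ((p.1, i) : Fin m × Fin N)) (sbs L⁻¹ P))

/-- LVS. Local bound at a place of `S` (from WNM, BDJ).

PROOF. Let `ℓ ≥ 1` be a bound for all `|L_{ji}|_v` and `|(L⁻¹)_{ij}|_v`, `R_v = sbs L⁻¹ P`.
(i) WNM(6) with `lam = 1`: `wn 1 R_v ≤ ∑_J |P_J|_v (N ℓ)^{∑ d} ≤ (N ℓ)^{∑ d} exp(N ∑ d) exp A`, since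
`|P_J|_v ≤ max(1, |P_J|)^{weight}` or `≤ 1`, at most `exp A`, and the support of `P` is contained in
`mons N d`, which has at most `∏ (d h + 1)^N ≤ exp(N ∑ d)` elements.
(ii) By BDJ(c) `tay P z = aeval φ R_v` with `φ_{(h,j)} = C u_{hj} + Λ_{hj}`, `|u_{hj}|_v ≤ exp(E_h + τ_h c_j)`.
Take `lam h = exp(E_h - R τ_h) / (N ℓ)`: `wn Λ_{hj} ≤ N ℓ lam h = exp(E_h - R τ_h) ≤ exp(E_h + τ_h c_j)`, so
`wn φ_{(h,j)} ≤ 2 exp(E_h + τ_h c_j)`.  WNM(6): `wn (tay P z) ≤ ∑_{s ∈ supp R_v} |coeff_s R_v|_v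
∏_{h,j} (2 exp(E_h + τ_h c_j))^{s(h,j)} ≤ (wn 1 R_v) 2^{∑ d} exp(∑_h E_h d_h + Z)`, as `bd s h = d h`.
(iii) WNM(5): `|coeff_J (tay P z)|_v ≤ wn (tay P z) ∏_h lam_h^{- bd J h}` and
`∏_h lam_h^{- bd J h} = (N ℓ)^{∑ bd J} exp(- ∑_h E_h bd J h + R ∑_h τ_h bd J h)`, `bd J h ≤ d h`. -/
def SpecLVS : Prop := ∀ (K : Type) [Field K] [NumberField K] (N : ℕ), 0 < N → ∀ (v : Place K)
  (L : Matrix (Fin N) (Fin N) K), L.det ≠ 0 → ∃ C : ℝ, 0 ≤ C ∧
    ∀ (m : ℕ) (d : Fin m → ℕ) (P : MvPolynomial (Fin m × Fin N) ℤ) (A : ℝ), 0 ≤ A → BH P d →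
      (∀ J, |((P.coeff J : ℤ) : ℝ)| ≤ Real.exp A) →
      ∀ (R Z : ℝ) (c : Fin N → ℝ) (τ E : Fin m → ℝ), 0 ≤ R → (∀ j, |c j| ≤ R) → (∀ h, 0 ≤ τ h) →
      ∀ z : Fin m × Fin N → K,
        (∀ h j, absV v (∑ i, L j i * z (h, i)) ≤ Real.exp (E h + τ h * c j)) →
        (∀ s ∈ (sbs L⁻¹ P).support, ∑ h, ∑ j, τ h * c j * (s (h, j) : ℝ) ≤ Z) →
        ∀ J, (tay P z).coeff J ≠ 0 →
          Real.log (absV v ((tay P z).coeff J)) ≤
            A + C * ∑ h, (d h : ℝ) + ∑ h, E h * ((d h : ℝ) - bd J h) + Z +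
              R * ∑ h, τ h * (bd J h : ℝ)

/-- KEY. The global inequality for a nonvanishing Taylor coefficient at a point of the domains (from LVS,
LVN, BDJ).

PROOF. `g = (tay P z).coeff J ≠ 0`.  Product formula: `0 = ∑_w log |g|_w`.  For `w ∉ S` (finite) `≤ 0` by
LVN.  For `v ∈ S` LVS with `E_h := G - sw v * E h`; `∑_h (G - sw v E h) (d h - bd J h) ≤
G ∑ d - sw v ∑_h E h (d h - bd J h)` as `0 ≤ d h - bd J h ≤ d h`.  Sum over `v ∈ S`, `∑_{v ∈ S} sw v = 1`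
(all infinite places are in `S`).  `C` = sum over `v ∈ S` of the constants of LVS. -/
def SpecKEY : Prop := ∀ (K : Type) [Field K] [NumberField K] (N : ℕ), 2 ≤ N →
  ∀ S : Finset (Place K), Good S → ∀ L : Place K → Matrix (Fin N) (Fin N) K,
  (∀ v ∈ S, (L v).det ≠ 0) → ∃ C : ℝ, 0 ≤ C ∧
    ∀ (m : ℕ) (d : Fin m → ℕ) (P : MvPolynomial (Fin m × Fin N) ℤ) (A : ℝ), 0 ≤ A → BH P d →
      (∀ J, |((P.coeff J : ℤ) : ℝ)| ≤ Real.exp A) →
      ∀ (R G : ℝ) (c : Place K → Fin N → ℝ) (Z : Place K → ℝ) (τ E : Fin m → ℝ), 0 ≤ R → 0 ≤ G →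
      (∀ v ∈ S, ∀ j, |c v j| ≤ R) → (∀ h, 0 ≤ τ h) →
      ∀ z : Fin m × Fin N → K,
        (∀ w, w ∉ S → ∀ p, absV w (z p) ≤ 1) →
        (∀ v ∈ S, ∀ h j, absV v (∑ i, L v j i * z (h, i)) ≤
          Real.exp (G - sw v * E h + τ h * c v j)) →
        (∀ v ∈ S, ∀ s ∈ (sbs (L v)⁻¹ P).support,
          ∑ h, ∑ j, τ h * c v j * (s (h, j) : ℝ) ≤ Z v) →
        ∀ J, (tay P z).coeff J ≠ 0 →
          0 ≤ S.card * (A + G * ∑ h, (d h : ℝ)) + C * ∑ h, (d h : ℝ) -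
            ∑ h, E h * ((d h : ℝ) - bd J h) + ∑ v ∈ S, Z v +
              S.card * (R * ∑ h, τ h * (bd J h : ℝ))

/-- GR1. The grid lemma with multiplicities (TMC may help).

PROOF. Induction on `n`; `n = 0`: `F` is a nonzero constant, `s = 0`, `κ = 0`.  Step: by
`MvPolynomial.finSuccEquiv` let `f ∈ R[T]`, `R = K[X_1, …, X_n]`, a domain of characteristic 0, be the
polynomial `F` in the variable `T = X_0`, `f ≠ 0`, degree `≤ e 0`.  The sum of the multiplicities of the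
roots `0, 1, …, B` of `f` is `≤ e 0`, so some `s_0 ≤ B` has multiplicity `κ_0` with `κ_0 (B+1) ≤ e 0`.
`f = (T - s_0)^{κ_0} g`, `g(s_0) ≠ 0`, so the coefficient of `T^{κ_0}` of `f(s_0 + T)` is `g(s_0) =: f_1 ≠ 0`, an
element of `R` which is a `K`-linear combination of the coefficients of `f`, so its degree in `X_i` is
`≤ e i`.  Apply the induction hypothesis to `f_1`; the coefficient at `κ` of `F(s + X)` is the coefficient at
`(κ_1, …)` of `f_1(s_1 + X_1, …)`, because shifting `X_1, …, X_n` commutes with taking the coefficient of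
`T^{κ_0}`. -/
def SpecGR1 : Prop := ∀ (K : Type) [Field K] [CharZero K] (n : ℕ) (F : MvPolynomial (Fin n) K),
  F ≠ 0 → ∀ e : Fin n → ℕ, (∀ i, F.degreeOf i ≤ e i) → ∀ B : ℕ,
    ∃ (s : Fin n → ℕ) (κ : Fin n →₀ ℕ), (∀ i, s i ≤ B) ∧ (∀ i, κ i * (B + 1) ≤ e i) ∧
      (MvPolynomial.aeval (fun i => MvPolynomial.C (s i : K) + MvPolynomial.X i) F :
        MvPolynomial (Fin n) K).coeff κ ≠ 0

/-- GRD. From a point of `∏ ker a_h` to a grid point (from GR1, TMC).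

PROOF. `x_h ∈ ker a_h = span (y h)` (dimension `N - 1`), `x_h = ∑_l u_{hl} y_{hl}`.  Let `A = K[T_{hl}]`,
`λ_{(h,i)} = ∑_l y_{hl,i} T_{hl} ∈ A` and let `F ∈ A` be the coefficient of `Y^J` in
`aeval (fun p => C λ_p + X_p) P`; by TMC `F = ∑_s P_s ∏_p choose (s p) (J p) λ_p^{s p - J p}`.  Evaluated at
`T = u` it is `(tay P x).coeff J ≠ 0`, and its degree in `T_{hl}` is `≤ ∑_i (s(h,i) - J(h,i)) ≤ d h`.  GR1
(variables numbered by `Fin m × Fin (N-1) ≃ Fin _`) gives integers `s ∈ {0, …, B}` and `κ` with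
`κ_{hl} (B+1) ≤ d h` such that the coefficient of `T^κ` in `F(s + T)` is not 0.  `F(s + T)` is the
coefficient of `Y^J` in `P(z + λ(T) + Y)`, `z_h = ∑_l s_{hl} y_{hl}`, which is `(tay P z)` with `Y` replaced by
`λ(T) + Y`; with `tay P z = ∑_{J'} g_{J'} Y^{J'}` TMC (for `R = K`) gives
`F(s + T) = ∑_{J'} g_{J'} ∏_p choose (J' p) (J p) λ_p^{J' p - J p}`, where the term `J'` (only `J ≤ J'` count) is
homogeneous of degree `bd J' h - bd J h` in the variables `T_{hl}` of the block `h`.  So some `J' ≥ J` with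
`g_{J'} ≠ 0` has `bd J' h = bd J h + ∑_l κ_{hl} ≤ bd J h + (N-1) d h / (B+1)` for all `h`. -/
def SpecGRD : Prop := ∀ (K : Type) [Field K] [CharZero K] (m N : ℕ), 2 ≤ N →
  ∀ (P : MvPolynomial (Fin m × Fin N) ℤ) (d : Fin m → ℕ), BH P d →
  ∀ (a : Fin m → Fin N → K), (∀ h, a h ≠ 0) →
  ∀ (y : Fin m → Fin (N - 1) → Fin N → K), (∀ h, LinearIndependent K (y h)) →
    (∀ h l, ∑ i, a h i * y h l i = 0) →
  ∀ (J : Fin m × Fin N →₀ ℕ) (x : Fin m × Fin N → K), (∀ h, ∑ i, a h i * x (h, i) = 0) →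
    (tay P x).coeff J ≠ 0 →
  ∀ B : ℕ, ∃ (J' : Fin m × Fin N →₀ ℕ) (s : Fin m → Fin (N - 1) → ℕ), (∀ h l, s h l ≤ B) ∧
    (∀ h, (bd J' h : ℝ) ≤ bd J h + (N - 1 : ℝ) * d h / (B + 1)) ∧
    (tay P (fun p : Fin m × Fin N => ∑ l, (s p.1 l : K) * y p.1 l p.2)).coeff J' ≠ 0

/-- the dual system -/
noncomputable def dL {K : Type} [Field K] [NumberField K] {N : ℕ} (L : Place K → Matrix (Fin N) (Fin N) K) :
    Place K → Matrix (Fin N) (Fin N) K := fun v => ((L v)⁻¹).transpose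

/-- DUA. The form of the hyperplane spanned by `x_0, …, x_{N-2}` in the dual system.

PROOF. Let `ã_i = det (e_i, x_0, …, x_{N-2})` (rows), so `∑_i ã_i y_i = det (y, x_0, …)` for all `y`; `ã ≠ 0`
(complete the `x` to a basis) and `ã` vanishes on all `x_l`, so `a = λ ã`, `λ ≠ 0` (the annihilator has
dimension 1), and `htw` is invariant under scaling (`htw_smul`; `det (dL L v) ≠ 0`).  For `v ∈ S` the number
`((dL L v) ã)_j = ∑_i (L⁻¹)_{ij} ã_i = det (L⁻¹ e_j, x_0, …) = det(L)⁻¹ det (e_j, L x_0, …, L x_{N-2})` is `±det(L)⁻¹`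
times the determinant of the `(L x_l)_i`, `i ≠ j`, so by `absV_form_le` and `absV_sum_le` (`N!` terms, in each
`i` runs through the indices `≠ j`; or expand the full determinant: only permutations using the entry 1 of
`e_j` give nonzero terms)
`|(dL ã)_j|_v exp(r_{v,j}) ≤ |det L|_v⁻¹ (N!)^{sw v} ∏_l tw_v(x_l) exp(∑_i r_{v,i})`.
For `v ∉ S`: `nrm v ã ≤ (N!)^{sw v} ∏_l nrm v x_l`.  Take logarithms and sum over all `v`; `∑_{v,i} r = 0`. -/
def SpecDUA : Prop := ∀ (K : Type) [Field K] [NumberField K] (N : ℕ), 2 ≤ N →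
  ∀ (S : Finset (Place K)) (L : Place K → Matrix (Fin N) (Fin N) K), (∀ v ∈ S, (L v).det ≠ 0) →
  ∃ C : ℝ, 0 ≤ C ∧ ∀ r : Place K → Fin N → ℝ, ∑ v ∈ S, ∑ i, r v i = 0 →
    ∀ x : Fin (N - 1) → Fin N → K, LinearIndependent K x →
    ∀ a : Fin N → K, a ≠ 0 → (∀ l, ∑ i, a i * x l i = 0) →
      htw S (dL L) (fun v i => -r v i) a ≤ C + ∑ l, htw S L r (x l)

/-- DPR. The product formula for `∑ b_i x_i ≠ 0` in dual systems.

PROOF. For `v ∈ S`: `∑_i b_i x_i = ∑_j ((dL L v) b)_j (L x)_j`, so `|∑ b x|_v ≤ N^{sw v} tw(dL, -r)(b) tw(L, r)(x)`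
(the factors `exp(± r_{v,j})` cancel; `absV_form_le`); for `v ∉ S`: `≤ N^{sw v} nrm b nrm x`.  Logarithms, sum
over all `v`, product formula; `C = log N` as `∑ sw = 1`. -/
def SpecDPR : Prop := ∀ (K : Type) [Field K] [NumberField K] (N : ℕ), 2 ≤ N →
  ∀ (S : Finset (Place K)) (L : Place K → Matrix (Fin N) (Fin N) K), (∀ v ∈ S, (L v).det ≠ 0) →
  ∃ C : ℝ, 0 ≤ C ∧ ∀ (r : Place K → Fin N → ℝ) (b x : Fin N → K), ∑ i, b i * x i ≠ 0 →
    0 ≤ C + htw S (dL L) (fun v i => -r v i) b + htw S L r x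

/-- LIO. Liouville's inequality for the values of the forms.

PROOF. `μ = (M a)_j ≠ 0`.  For every place `w`: `|μ|_w ≤ N^{sw w} κ_w nrm w a` with
`κ_w = max(1, max_{i,j} |M_{ji}|_w)` (`= 1` for almost all `w`).  Product formula:
`0 = ∑_w log |μ|_w ≤ log |μ|_v + ∑_{w ≠ v} (sw w log N + log κ_w + log nrm w a) ≤
log |μ|_v - log nrm v a + C + ht a`. -/
def SpecLIO : Prop := ∀ (K : Type) [Field K] [NumberField K] (N : ℕ)
  (M : Matrix (Fin N) (Fin N) K), ∃ C : ℝ, 0 ≤ C ∧ ∀ (v : Place K) (a : Fin N → K) (j : Fin N),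
    M.mulVec a j ≠ 0 →
      Real.log (nrm v a) - ht a - C ≤ Real.log (absV v (M.mulVec a j))

/-- PAT. Patterns: the hyperplanes whose form satisfies too many relations (from DPR).

For a pattern `J : Place K → Finset (Fin N)` the space of the forms `b` with `((dL L v) b)_j = 0` for all
`v ∈ S`, `j ∉ J v`.
PROOF. Let `A` be this space and `b_1, …, b_k` a basis.  For `b = b_i`, `t ≥ 0`: `|((dL L v) b)_j|_v exp(t c_{v,j})
≤ C_i exp (t e_v)` for `v ∈ S` (only `j ∈ J v` count), `htw S (dL L) (-t c) b_i ≤ t ∑_{v ∈ S} e_v + C_i`.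
Let `t` be so large that `t ∑ e_v + C_i - δ t + C < 0` for all `i` (`∑ e_v < 0`, `δ > 0`; `C` from DPR).  Then by
DPR `b_i · x_l = 0` for all `i, l`.  So `A` is contained in the annihilator of the `x_l`, a space of
dimension 1, and contains `a ≠ 0`: `A = K a`, and `span (x_l) = {y : b · y = 0 for all b ∈ A}` (dimensions),
a subspace which depends only on `J`. -/
def SpecPAT : Prop := ∀ (K : Type) [Field K] [NumberField K] (N : ℕ), 2 ≤ N →
  ∀ (S : Finset (Place K)) (L : Place K → Matrix (Fin N) (Fin N) K), (∀ v ∈ S, (L v).det ≠ 0) →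
  ∀ (c : Place K → Fin N → ℝ) (δ : ℝ), 0 < δ → ∀ (J : Place K → Finset (Fin N)) (e : Place K → ℝ),
    (∀ v ∈ S, ∀ j ∈ J v, c v j ≤ e v) → ∑ v ∈ S, e v < 0 →
    ∃ (t₀ : ℝ) (V : Submodule K (Fin N → K)), ∀ t : ℝ, t₀ ≤ t →
      ∀ x : Fin (N - 1) → Fin N → K, LinearIndependent K x →
        (∀ l, htw S L (fun v i => t * c v i) (x l) ≤ -(δ * t)) →
        ∀ a : Fin N → K, a ≠ 0 → (∀ l, ∑ i, a i * x l i = 0) →
          (∀ v ∈ S, ∀ j, j ∉ J v → (dL L v).mulVec a j = 0) → Submodule.span K (Set.range x) = V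

/-- RCA. Small heights (from DUA, LIO, PAT).

PROOF. For `v ∈ S` let `J_v = {j : ((dL L v) a)_j ≠ 0}` (not empty) and `e_v = max_{j ∈ J_v} c_{v,j}`.
By LIO (`M = dL L v`): `log tw_v(a) ≥ t e_v + log nrm v a - ht a - C`.  So
`htw S (dL L) (-t c) a ≥ t ∑ e_v + ht a - (card S) (ht a + C) ≥ t ∑ e_v - (card S) (ht a + C)`.  By DUA
`htw S (dL L) (-t c) a ≤ C - (N-1) δ t ≤ C - δ t` (`t ≥ 0`).  If `∑ e_v ≥ - δ / 2`:
`(card S) (ht a + C) ≥ δ t / 2 - C`, so `ht a ≥ δ t / (4 card S)` for large `t`.  Otherwise `∑ e_v < 0`, and PAT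
applies to the pattern `J` (put `J v = univ` for `v ∉ S`, `e v = 0` there): there are finitely many patterns
(determined by the values on `S`) and `e` is determined by `J`; `H` = the set of the finitely many `V`, `t₀` = the
maximum of the finitely many `t₀`. -/
def SpecRCA : Prop := ∀ (K : Type) [Field K] [NumberField K] (N : ℕ), 2 ≤ N →
  ∀ S : Finset (Place K), Good S → ∀ L : Place K → Matrix (Fin N) (Fin N) K,
  (∀ v ∈ S, (L v).det ≠ 0) → ∀ c : Place K → Fin N → ℝ, ∑ v ∈ S, ∑ i, c v i = 0 →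
  ∀ δ : ℝ, 0 < δ → ∃ (c₁ t₀ : ℝ) (H : Set (Submodule K (Fin N → K))), 0 < c₁ ∧ H.Finite ∧
    ∀ t : ℝ, t₀ ≤ t → ∀ x : Fin (N - 1) → Fin N → K, LinearIndependent K x →
      (∀ l, htw S L (fun v i => t * c v i) (x l) ≤ -(δ * t)) →
      ∀ a : Fin N → K, a ≠ 0 → (∀ l, ∑ i, a i * x l i = 0) →
        Submodule.span K (Set.range x) ∈ H ∨ c₁ * t ≤ ht a

/-- BAL. Balanced exponents, numerically.

PROOF. For each `j`: `∑_h τ_h s(h,j) = ∑_h (τ_h d_h) (s(h,j)/d_h)` lies between `D σ_j` and `(1+η) D σ_j`,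
`σ_j = ∑_h s(h,j)/d_h ≤ m` (as `s(h,j) ≤ d_h`), and `|σ_j - m/N| ≤ η m`.  So
`|∑_h τ_h s(h,j) - D m / N| ≤ 2 η m D`.  Multiply by `c_j`, `|c_j| ≤ R`, and sum over `j`. -/
def SpecBAL : Prop := ∀ (m N : ℕ), 0 < N → ∀ (d : Fin m → ℕ) (τ : Fin m → ℝ) (D η R : ℝ)
  (c : Fin N → ℝ) (s : Fin m × Fin N →₀ ℕ), 0 ≤ D → 0 ≤ η → η ≤ 1 → (∀ j, |c j| ≤ R) →
  (∀ h, 0 < d h ∧ 0 ≤ τ h ∧ D ≤ τ h * d h ∧ τ h * d h ≤ (1 + η) * D) → (∀ h, bd s h = d h) →
  (∀ j : Fin N, |∑ h, (s (h, j) : ℝ) / d h - m / N| ≤ η * m) →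
  ∑ h, ∑ j, τ h * c j * (s (h, j) : ℝ) ≤ D * m / N * (∑ j, c j) + 2 * N * R * η * m * D

/-- DEG. Choice of the degrees.

PROOF. `D > 0` so large that `τ h ≤ η D` for all `h`, `d h = ⌈D / τ h⌉`: `D ≤ τ h * d h ≤ D + τ h`. -/
def SpecDEG : Prop := ∀ (m : ℕ) (τ : Fin m → ℝ) (t₁ η : ℝ), 0 < t₁ → 0 < η → η ≤ 1 →
  (∀ h, t₁ ≤ τ h) → ∃ (D : ℝ) (d : Fin m → ℕ), 0 < D ∧
    ∀ h, 0 < d h ∧ D ≤ τ h * d h ∧ τ h * d h ≤ (1 + η) * D ∧ (d h : ℝ) * t₁ ≤ 2 * D

/-- ZBD. Local bounds for integer combinations of vectors of the domain.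

PROOF. For `w ∉ S` (finite, `sw w = 0`, `lcn = nrm`): `|y_{l,i}|_w ≤ 1`, `|s_l|_w ≤ 1`, `absV_sum_le` with exponent
`0`.  For `v ∈ S`: `(L z)_j = ∑_l s_l (L y_l)_j`, `|s_l|_v ≤ B` (for infinite `v`: `|s|^{weight}`, `weight ≤ 1`,
`B ≥ 1`), `|(L y_l)_j|_v ≤ exp(- sw v E) exp(t c_{v,j})` (`absV_form_le`), so by `absV_sum_le`
`≤ (N-1)^{sw v} B exp(- sw v E + t c_{v,j})` and `(N-1)^{sw v} B ≤ N B`. -/
def SpecZBD : Prop := ∀ (K : Type) [Field K] [NumberField K] (N : ℕ), 2 ≤ N →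
  ∀ S : Finset (Place K), Good S → ∀ (L : Place K → Matrix (Fin N) (Fin N) K)
    (r : Place K → Fin N → ℝ) (E : ℝ) (y : Fin (N - 1) → Fin N → K),
    (∀ l w, lcn S L r w (y l) ≤ Real.exp (-(sw w * E))) →
    ∀ (B : ℕ) (s : Fin (N - 1) → ℕ), 1 ≤ B → (∀ l, s l ≤ B) →
      (∀ w, w ∉ S → ∀ i, absV w (∑ l, (s l : K) * y l i) ≤ 1) ∧
      (∀ v ∈ S, ∀ j, absV v (∑ i, L v j i * ∑ l, (s l : K) * y l i) ≤
        Real.exp (Real.log ((N : ℝ) * B) - sw v * E + r v j))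

/-- NCH. There is no long chain of exceptional parameters (from RL, AUX, NSC, KEY, GRD, BAL, BDJ, DEG,
ZBD).

PROOF. Let `R ≥ 1` bound all `|c v j|`, `v ∈ S`; `s₀ = card S ≥ 1`.  Constants `C_A` (AUX), `C_N` (NSC), `C_K`
(KEY).  Let `0 < η ≤ 1` with `2 s₀ N R η ≤ δ / 8`, `m` from AUX for `η`; `0 < θ ≤ 1` with
`4 (δ + s₀ R) θ ≤ δ / 8`; `σ, C` from RL for `m, N, ε = θ`; `B ≥ 1` with `(N-1) m / (B+1) ≤ θ`;
`G = log (N B) ≥ 0`; `Ω = max 1 (2 / σ)`; `t₁ > 0` so large that `2 (s₀ (C_A + G) + C_K + C_N) ≤ (δ / 8) t₁` and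
`C (2 C_A m + 2) ≤ c₁ t₁`.
Suppose `τ, x, a` are given.  Let `D, d` be as in DEG, so
`D ≤ τ h * d h ≤ (1 + η) D ≤ 2 D`; `d h ≤ 2 D / τ h ≤ 2 D / t₁`, `∑ d ≤ 2 m D / t₁`;
`d h' ≤ 2 D / τ h' ≤ 2 D / (Ω τ h) ≤ σ d h` if `h' = h + 1`.
`P` from AUX, `A = C_A ∑ d`.  RL applies with the bound `D' = ⌊2 D / t₁⌋` for the `d h`: `C (A + D') ≤
C (2 C_A m + 2) D / t₁ ≤ c₁ D ≤ c₁ τ h d h ≤ d h ht (a h)`.  It gives `J` with `∑ bd J h / d h ≤ θ` and a point of
`∏ ker a_h`.  By NSC let `y h l = a_{hl} • x h l` with `lcn w (y h l) ≤ exp (sw w (- δ τ h + C_N))` for all `w`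
(weights `τ h c`).  They are still linearly independent and killed by `a h`.  GRD gives `J'`, `s ≤ B` with
`∑_h bd J' h / d h ≤ θ + m (N-1)/(B+1) ≤ 2 θ` and `g = (tay P z).coeff J' ≠ 0`, `z_h = ∑_l s_{hl} y_{hl}`.
By ZBD (`E_h = δ τ h - C_N`) `|z|_w ≤ 1` for `w ∉ S` and `|(L z_h)_j|_v ≤ exp (G - sw v E_h + τ h c v j)` for
`v ∈ S`.  BAL for every `s` in the support of
`sbs (L v)⁻¹ P` (BDJ: `bd s h = d h`): `Z v = D m / N ∑_j c v j + 2 N R η m D`, so `∑_{v ∈ S} Z v = 2 s₀ N R η m D`.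
KEY: `0 ≤ (s₀ (C_A + G) + C_K) ∑ d - ∑_h (δ τ h - C_N) (d h - bd J' h) + 2 s₀ N R η m D + s₀ R ∑ τ h bd J' h`.
With `∑ τ h d h ≥ m D`, `∑_h τ h bd J' h ≤ 2 D ∑ bd J' h / d h ≤ 4 θ D`, `bd J' h ≤ d h` (BDJ):
`0 ≤ (s₀ (C_A + G) + C_K + C_N) 2 m D / t₁ - δ m D + (δ + s₀ R) 4 θ D + 2 s₀ N R η m D ≤
m D (δ/8 - δ + δ/8 + δ/8) < 0`, a contradiction. -/
def SpecNCH : Prop := ∀ (K : Type) [Field K] [NumberField K] (N : ℕ), 2 ≤ N →
  ∀ S : Finset (Place K), Good S → ∀ L : Place K → Matrix (Fin N) (Fin N) K,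
  (∀ v ∈ S, (L v).det ≠ 0) → ∀ c : Place K → Fin N → ℝ, ∑ v ∈ S, ∑ i, c v i = 0 →
  ∀ δ c₁ : ℝ, 0 < δ → 0 < c₁ → ∃ (m : ℕ) (t₁ Ω : ℝ), 0 < m ∧ 0 < t₁ ∧ 1 ≤ Ω ∧
    ∀ (τ : Fin m → ℝ) (x : Fin m → Fin (N - 1) → Fin N → K) (a : Fin m → Fin N → K),
      (∀ h, t₁ ≤ τ h) → (∀ h h' : Fin m, (h : ℕ) + 1 = h' → Ω * τ h ≤ τ h') →
      (∀ h, LinearIndependent K (x h)) →
      (∀ h l, htw S L (fun v i => τ h * c v i) (x h l) ≤ -(δ * τ h)) →
      (∀ h, a h ≠ 0 ∧ c₁ * τ h ≤ ht (a h)) → (∀ h l, ∑ i, a h i * x h l i = 0) → False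

/-- RCB. The hyperplane case (from RCA, NCH).

PROOF. `c₁, t₀, H` from RCA, `m, t₁, Ω` from NCH.  Call `t ≥ t₀` exceptional if there is a linearly independent
`x` with `htw ≤ - δ t` and `span x ∉ H`.  If the exceptional `t` are bounded by `t₂` then RC holds with this
`H` and `max t₀ (t₂ + 1)`.  Otherwise choose exceptional `τ 0 ≥ t₁`, `τ (h+1) ≥ Ω τ h` one after the
other (an infinite sequence by recursion), with their `x h`; `a h ≠ 0` = a form vanishing on `x h 0, …, x h (N-2)`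
(exists by dimension).  RCA gives `c₁ τ h ≤ ht (a h)`; NCH gives a contradiction. -/
def SpecRCB : Prop := SpecRC

end Pool.Agent.Lib.MP_d0e829_nt.SS
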