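import Pool.Agent.Lib.MP_d0e829_nt.SS.CDefs

/-!
# Part C, section 1: the general machine

`Ω` is a set of points, `f : Ω → k^M` their vectors, `Sm` a system of small subsets of `Ω`
(`SmSys`).  `Gen Sm f A`: `A` is not small, and every form which does not vanish identically on `A`
vanishes only on a small part of `A`.  `FS f A m`: functions on `A` given by forms of degree `m`,
`a_m` its dimension.  `IsB f A m g`: the forms `g j` are a basis of `FS f A m`.
All docstrings are complete proofs.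
-/

set_option autoImplicit false

open NumberField MvPolynomial

namespace Pool.Agent.Lib.MP_d0e829_nt.SS

open scoped Classical

/-- `y` spans the linear functionals on `A` -/
def Spn {k : Type} [Field k] {Ω : Type} {M r : ℕ} (f : Ω → Fin M → k) (A : Set Ω)
    (y : Fin r → Fin M → k) : Prop :=
  ∀ c : Fin M → k, ∃ b : Fin r → k, ∀ ω ∈ A, c ⬝ᵥ f ω = ∑ j, b j * (y j ⬝ᵥ f ω)

/-- `y` is linearly independent on `A` -/
def Ind {k : Type} [Field k] {Ω : Type} {M r : ℕ} (f : Ω → Fin M → k) (A : Set Ω)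
    (y : Fin r → Fin M → k) : Prop :=
  ∀ b : Fin r → k, (∀ ω ∈ A, ∑ j, b j * (y j ⬝ᵥ f ω) = 0) → b = 0

/-- the weight of a monomial -/
noncomputable def wt {r : ℕ} (W : Fin r → ℝ) (s : Fin r →₀ ℕ) : ℝ := ∑ j, (s j : ℝ) * W j

/-- the monomials not divisible by `μ` are a basis modulo `G`, in every degree -/
def Std {k : Type} [Field k] {r : ℕ} (G : MvPolynomial (Fin r) k) (μ : Fin r →₀ ℕ) : Prop :=
  (∀ P : MvPolynomial (Fin r) k, G ∣ P → (∀ s ∈ P.support, ¬ μ ≤ s) → P = 0) ∧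
    ∀ (m : ℕ) (P : MvPolynomial (Fin r) k), P.IsHomogeneous m →
      ∃ Q : MvPolynomial (Fin r) k, Q.IsHomogeneous m ∧ (∀ s ∈ Q.support, ¬ μ ≤ s) ∧ G ∣ P - Q

/-- TRV. Trivial bounds.

PROOF. `|c(f)|_v ≤ M^{sw v} (max |c_i|_v) nrm v f` for every place `v`, so `val v c f ≥ - κ_v` with
`κ_v = sw v log M + log max (1, max |c_i|_v)` (zero for almost all `v`, `∑ κ_v < ∞`).  Over all places
`∑ val v c f = ht f` (product formula for `c(f) ≠ 0`), so for a finite set `S'` of places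
`∑_{S'} val ≤ ht f + ∑ κ_v`.  Second part: every monomial of `P` is `≤ |coefficient|_v (nrm v f)^m`, and
there are `card P.support` of them: `κ v = sw v log (card) + log max (1, |coefficients|_v)`. -/
def SpecTRV : Prop := ∀ (k : Type) [Field k] [NumberField k] (M : ℕ),
  (∀ (S : Finset (Place k)) (c : Fin M → k), ∃ C : ℝ, 0 ≤ C ∧ ∀ f : Fin M → k, c ⬝ᵥ f ≠ 0 →
    (∀ v ∈ S, -C ≤ val v c f) ∧ ∀ S' ⊆ S, ∑ v ∈ S', val v c f ≤ ht f + C) ∧
  ∀ (m : ℕ) (P : MvPolynomial (Fin M) k), P.IsHomogeneous m → ∃ κ : Place k → ℝ, (∀ v, 0 ≤ κ v) ∧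
    (Function.support κ).Finite ∧
    ∀ (f : Fin M → k) (v : Place k), absV v (eval f P) ≤ Real.exp (κ v) * nrm v f ^ m

/-- MAX. Existence of a set `A` with `Gen`.

PROOF. For `A ⊆ Ω` let `J(A)` be the ideal of all `P` with `P(c • f ω) = 0` for all `ω ∈ A`, `c ∈ k`.
`MvPolynomial ι k` is noetherian: choose among the sets which are not small (`Ω` is one) an `A` with `J(A)`
maximal.  Let `P` be homogeneous of degree `m`, not identically 0 on `A`, and `B = {ω ∈ A : P(f ω) = 0}`.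
`J(A) ⊆ J(B)`, and `P ∈ J(B)` as `P(c f) = c^m P(f)`, but `P ∉ J(A)` (`c = 1`).  So `J(B)` is strictly
larger, and `B` is small. -/
def SpecMAX : Prop := ∀ (k : Type) [Field k] (Ω : Type) (M : ℕ) (f : Ω → Fin M → k)
  (Sm : Set Ω → Prop), ¬ Sm Set.univ → ∃ A : Set Ω, Gen Sm f A

/-- IRR. The forms vanishing on `A` are a prime ideal.

PROOF. If neither `P` nor `Q` vanishes identically on `A`, then `{P = 0}` and `{Q = 0}` are small parts of
`A`, and their union is `A` since `P Q = 0` on `A`: `A` would be small. -/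
def SpecIRR : Prop := ∀ (k : Type) [Field k] (Ω : Type) (M : ℕ) (f : Ω → Fin M → k)
  (Sm : Set Ω → Prop), SmSys Sm → ∀ A : Set Ω, Gen Sm f A → ∀ (m n : ℕ)
  (P Q : MvPolynomial (Fin M) k), P.IsHomogeneous m → Q.IsHomogeneous n →
  evA f A (P * Q) = 0 → evA f A P = 0 ∨ evA f A Q = 0

/-- SUBI. The Subspace theorem in `FS f A m` (from SUB, TRV).

PROOF. `n = a_m`.  For `v ∈ S` the type `J v` has `n` elements; every `g v j` does not vanish identically on
`A` (part of a basis), so it is `≠ 0` off a small set; finite unions of small sets are small.  If `S = ∅`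
the sum is 0 and `ht ≥ 0`.  Otherwise fix a basis `b_1, …, b_n` of forms (`b = g v₀`), put
`y(ω) = (b_j(f ω))_j ∈ k^n`.  `n > 0` and `y(ω) ≠ 0`: otherwise all forms of degree `m` are 0 at `f ω`, in
particular `(f ω)_i^m`, but `f ω ≠ 0`.  For `v ∈ S` there is an invertible matrix `L_v` with
`g v j (f ω) = (L_v y(ω))_j` for `ω ∈ A` (two bases of `FS f A m`).  SUB with `ε₁ = ε / m`: a finite set of
proper subspaces; every proper subspace is in the kernel of a nonzero form `∑ c_j y_j`, and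
`∑ c_j b_j` does not vanish identically on `A`, so `{ω ∈ A : y(ω) ∈ T}` is small.  For the other `ω`
`∑_{v ∈ S} ∑_j (log nrm v y - log |g v j|_v) ≤ (n + ε₁) ht y + C`.  By TRV (second part, maximum of the `κ`
of the `b_j`) `nrm v y ≤ e^{κ v} (nrm v f)^m` for all places, `κ v = 0` for almost all `v`, so
`∑_{v ∈ S} (m log nrm v f - log nrm v y) ≤ m ht f - ht y + C`.  Adding `n` times this inequality:
`∑_{v} ∑_j (m log nrm v f - log |g v j|_v) ≤ (n + ε₁) ht y + n (m ht f - ht y) + C = ε₁ ht y + n m ht f + C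
≤ (n m + ε) ht f + C` since `ht y ≤ m ht f + C`. -/
def SpecSUBI : Prop := ∀ (k : Type) [Field k] [NumberField k] (Ω : Type) (M : ℕ)
  (f : Ω → Fin M → k) (Sm : Set Ω → Prop), SmSys Sm → ∀ A : Set Ω, Gen Sm f A →
  (∀ ω ∈ A, f ω ≠ 0) → ∀ (S : Finset (Place k)) (m : ℕ), 0 < m →
  ∀ (J : Place k → Type) [∀ v, Fintype (J v)] (g : ∀ v, J v → MvPolynomial (Fin M) k),
  (∀ v ∈ S, IsB f A m (g v)) → ∀ ε : ℝ, 0 < ε →
  ∃ (B : Set Ω) (C : ℝ), Sm B ∧ ∀ ω ∈ A, ω ∉ B →
    (∀ v ∈ S, ∀ j, eval (f ω) (g v j) ≠ 0) ∧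
    ∑ v ∈ S, ∑ j, (m * Real.log (nrm v (f ω)) - Real.log (absV v (eval (f ω) (g v j)))) ≤
      (Module.finrank k (FS f A m) * m + ε) * ht (f ω) + C

/-- LNS. The case `m = 1` for linear functionals (from SUBI).

PROOF. `g v j = lin (y v j)`, `eval (f ω) (lin c) = c ⬝ᵥ f ω`.  `Spn` and `Ind` say that they are a basis of
`FS f A 1` (the homogeneous polynomials of degree 1 are the `lin c`), so `finrank = n`. -/
def SpecLNS : Prop := ∀ (k : Type) [Field k] [NumberField k] (Ω : Type) (M n : ℕ)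
  (f : Ω → Fin M → k) (Sm : Set Ω → Prop), SmSys Sm → ∀ A : Set Ω, Gen Sm f A →
  (∀ ω ∈ A, f ω ≠ 0) → ∀ (S : Finset (Place k)) (y : Place k → Fin n → Fin M → k),
  (∀ v ∈ S, Spn f A (y v) ∧ Ind f A (y v)) → ∀ ε : ℝ, 0 < ε →
  ∃ (B : Set Ω) (C : ℝ), Sm B ∧ ∀ ω ∈ A, ω ∉ B →
    (∀ v ∈ S, ∀ j, y v j ⬝ᵥ f ω ≠ 0) ∧
    ∑ v ∈ S, ∑ j, val v (y v j) (f ω) ≤ (n + ε) * ht (f ω) + C

/-- GRO. A growth lemma.

PROOF. `ε ≥ 1/2`: `m = 1`.  Let `ε < 1/2`, `s_m = ∑_{j<m} a_j` (`s_1 = 1`), `γ = 1 / (1/2 - ε) = 2 + η`,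
`η > 0`, and suppose `s_m < (1/2 - ε) m a_m` for all `m ≥ 1`.  Then `s_{m+1} = s_m + a_m ≥ s_m (1 + γ / m)`.
Let `u_m = s_m / m²`.  For `m ≥ m₁` (`(1+η)/m² + η/(2m³) ≤ η/(2m)`):
`(1 + 1/m)² (1 + η/(2m)) ≤ 1 + γ/m`, so `u_{m+1} ≥ u_m (1 + η/(2m))`; `u` is increasing and
`u_{m+1} ≥ u_m + (η/2) u_{m₁} / m`, so `u_m → ∞` (harmonic series).  But `s_m ≤ 1 + D m²`, a
contradiction. -/
def SpecGRO : Prop := ∀ (a : ℕ → ℝ) (D : ℝ), a 0 = 1 → (∀ m, 0 ≤ a m) →
  (∀ m, 0 < m → a m ≤ D * m) → ∀ ε : ℝ, 0 < ε →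
  ∃ m : ℕ, 0 < m ∧ (1 / 2 - ε) * (m * a m) ≤ ∑ j ∈ Finset.range m, a j

/-- FIL. A basis adapted to the filtration by powers of a linear functional (from IRR).

PROOF. Induction on `m`.  `m = 0`: any basis of `FS f A 0`, `e = 0`.  Step: let `ξ^{e_j} h_j` be the basis for
`m`.  Multiplication by the function of `ξ = lin c` maps `FS f A m` into `FS f A (m+1)` and is injective
(IRR, as `ξ ≠ 0` on `A`).  So the `ξ^{e_j + 1} h_j` are linearly independent in `FS f A (m+1)`; complete them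
by forms `h` (`e = 0`) to a basis (`FS f A (m+1)` is the image of the forms, finite dimensional).  The sum
of the exponents is `∑ (e_j + 1) = ∑_{i<m} a_i + a_m`. -/
def SpecFIL : Prop := ∀ (k : Type) [Field k] (Ω : Type) (M : ℕ) (f : Ω → Fin M → k)
  (Sm : Set Ω → Prop), SmSys Sm → ∀ A : Set Ω, Gen Sm f A → ∀ c : Fin M → k,
  (∃ ω ∈ A, c ⬝ᵥ f ω ≠ 0) → ∀ m : ℕ, ∃ (n : ℕ) (e : Fin n → ℕ) (h : Fin n → MvPolynomial (Fin M) k),
    IsB f A m (fun j => lin c ^ e j * h j) ∧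
    (∀ j, e j ≤ m ∧ (h j).IsHomogeneous (m - e j)) ∧
    ∑ j, e j = ∑ i ∈ Finset.range m, Module.finrank k (FS f A i)

/-- CRV. The curve case (from SUBI, FIL, GRO, TRV).

PROOF. `a_0 = 1` (constants; `A ≠ ∅` since `∅` is small).  Let `ε₁ > 0` with `1 / (1/2 - ε₁) ≤ 2 + ε / 2`,
`m` from GRO, `s = ∑_{j<m} a_j ≥ a_0 = 1`.  For `v ∈ S` take the basis `ξ^{e_j} h_j` of FIL for `c v`.  SUBI
with `ε / 2`: off a small set `∑_v ∑_j (m log nrm v f - log |ξ^{e_j} h_j (f)|_v) ≤ (a_m m + ε/2) ht f + C`.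
The summand is `e_j val v (c v) f + ((m - e_j) log nrm v f - log |h_j(f)|_v) ≥ e_j val v (c v) f - C` by TRV.
So `s ∑_v val v (c v) f ≤ (a_m m + ε/2) ht f + C`; divide by `s ≥ 1`, `a_m m / s ≤ 2 + ε/2`
(`ht f ≥ 0`). -/
def SpecCRV : Prop := ∀ (k : Type) [Field k] [NumberField k] (Ω : Type) (M : ℕ)
  (f : Ω → Fin M → k) (Sm : Set Ω → Prop), SmSys Sm → ∀ A : Set Ω, Gen Sm f A →
  (∀ ω ∈ A, f ω ≠ 0) →
  (∃ D : ℝ, ∀ m : ℕ, 0 < m → (Module.finrank k (FS f A m) : ℝ) ≤ D * m) →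
  ∀ (S : Finset (Place k)) (c : Place k → Fin M → k), (∀ v ∈ S, ∃ ω ∈ A, c v ⬝ᵥ f ω ≠ 0) →
  ∀ ε : ℝ, 0 < ε → ∃ (B : Set Ω) (C : ℝ), Sm B ∧ ∀ ω ∈ A, ω ∉ B →
    (∀ v ∈ S, c v ⬝ᵥ f ω ≠ 0) ∧ ∑ v ∈ S, val v (c v) (f ω) ≤ (2 + ε) * ht (f ω) + C

/-- PAR. Change of coordinates: `f' ω = (y_j ⬝ᵥ f ω)_j`.

PROOF. `eval (f' ω) P = eval (f ω) (aeval (fun j => lin (y j)) P)`, and the substitution of linear forms
preserves homogeneity, so `FS f' A m ≤ FS f A m`, and `Gen` for `f` gives `Gen` for `f'`.  By `Spn` every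
coordinate `(f ω)_i` is on `A` a fixed combination of the `f' ω j`; substituting, every form in `f` agrees
on `A` with a form of the same degree in `f'`. -/
def SpecPAR : Prop := ∀ (k : Type) [Field k] (Ω : Type) (M r : ℕ) (f : Ω → Fin M → k)
  (A : Set Ω) (y : Fin r → Fin M → k),
  (∀ (ω : Ω) (P : MvPolynomial (Fin r) k),
    eval (fun j => y j ⬝ᵥ f ω) P = eval (f ω) (aeval (fun j => lin (y j)) P)) ∧
  (∀ (m : ℕ) (P : MvPolynomial (Fin r) k), P.IsHomogeneous m →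
    (aeval (fun j => lin (y j)) P : MvPolynomial (Fin M) k).IsHomogeneous m) ∧
  (∀ Sm : Set Ω → Prop, Gen Sm f A → Gen Sm (fun ω j => y j ⬝ᵥ f ω) A) ∧
  (Spn f A y → ∀ m, FS (fun ω j => y j ⬝ᵥ f ω) A m = FS f A m)

/-- SMB. The monomial of least weight, standard monomials.

PROOF. Order the exponents by weight `wt W s`, and lexicographically for equal weight: a total order with
`s < s' → s + t < s' + t`.  `μ` := the least exponent in the support of `G`.  (1) Let `P = G H ≠ 0`, `h` the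
least exponent of `H`: the coefficient of `μ + h` in `G H` is `G_μ H_h ≠ 0` (any other pair has a larger
sum), so `μ + h` is in the support of `P`, against `¬ μ ≤ s`.  (2) The exponents of degree `m` are finitely
many.  If `P` has an exponent divisible by `μ`, let `μ + h` be the least of these and subtract
`(P_{μ+h} / G_μ) X^h G` (homogeneous of degree `m`): its other exponents are larger than `μ + h`, so the least
exponent of `P` divisible by `μ` becomes larger; after finitely many steps none is left. -/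
def SpecSMB : Prop := ∀ (k : Type) [Field k] (r g : ℕ) (G : MvPolynomial (Fin r) k),
  G.IsHomogeneous g → G ≠ 0 → ∀ W : Fin r → ℝ,
  ∃ μ ∈ G.support, (∀ s ∈ G.support, wt W μ ≤ wt W s) ∧ Std G μ

/-- CNT. Counting monomials in four variables.

PROOF. `card = binom (m+3) 3` (stars and bars).  By symmetry `∑ s_i` is the same for the four `i`, and the
sum over `i` is `m card`.  The multiples of `μ` of degree `m = n + g` are the `μ + h`, `h` of degree `n`:
`∑ (μ_i + h_i) = μ_i binom (n+3) 3 + (n/4) binom (n+3) 3`.  Subtract. -/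
def SpecCNT : Prop := ∀ (n g : ℕ) (μ : Fin 4 →₀ ℕ), ∑ i, μ i = g →
  ((Finset.univ.finsuppAntidiag (n + g)).filter (fun s : Fin 4 →₀ ℕ => ¬ μ ≤ s)).card
      + Nat.choose (n + 3) 3 = Nat.choose (n + g + 3) 3 ∧
  ∀ i, (4 * ∑ s ∈ (Finset.univ.finsuppAntidiag (n + g)).filter (fun s : Fin 4 →₀ ℕ => ¬ μ ≤ s), s i)
      + (n + 4 * μ i) * Nat.choose (n + 3) 3 = (n + g) * Nat.choose (n + g + 3) 3

/-- HYP. The hypersurface case (from SUBI, PAR, CNT, TRV).

PROOF. `y v j` does not vanish identically on `A` (`X_j` is not divisible by `G v`, of degree `≥ 2`).  For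
`n ≥ 1`, `m = n + g`: `J v = {s : |s| = m, ¬ μ_v ≤ s}`, `g v s` = the monomial `s` in the `lin (y v j)`.  They
are a basis of `FS f A m`: PAR and `Std` (a combination vanishing on `A` is divisible by `G v`, so it is 0;
and every form is modulo `G v` a combination).  With `α = ((n+g) A' - n A'') / 4`, `A' = binom (m+3) 3`,
`A'' = binom (n+3) 3`, CNT: `∑_{s ∈ J v} s_i = α - μ_{v,i} A''`, `card (J v) = A' - A'' = finrank`.  The value
of the monomial `s` is the product of the `(y v i ⬝ᵥ f)^{s_i}`, `|s| = m`, so SUBI says (off a small set)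
`∑_v ∑_i (α - μ_{v,i} A'') val v (y v i) f ≤ (m (A' - A'') + 1) ht f + C_m`.  Divide by `g A''`:
`∑_v ∑_i (α / (g A'') - μ_{v,i} / g) val ≤ ((m (A' - A'') + 1) / (g A'')) ht f + C`.  As `n → ∞`:
`α / (g A'') → 1` and `m (A' - A'') / (g A'') → 3` (`A' - A'' ∼ g n² / 2`, `A'' ∼ n³ / 6`).  By TRV
`- C ≤ val v (y v i) f ≤ ht f + C`, so replacing the coefficient `α / (g A'')` by 1 costs at most
`4 card S |α / (g A'') - 1| (ht f + C)`.  Choose `n` large. -/
def SpecHYP : Prop := ∀ (k : Type) [Field k] [NumberField k] (Ω : Type) (M : ℕ)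
  (f : Ω → Fin M → k) (Sm : Set Ω → Prop), SmSys Sm → ∀ A : Set Ω, Gen Sm f A →
  (∀ ω ∈ A, f ω ≠ 0) → ∀ (S : Finset (Place k)) (g : ℕ), 2 ≤ g →
  ∀ (y : Place k → Fin 4 → Fin M → k) (G : Place k → MvPolynomial (Fin 4) k)
    (μ : Place k → (Fin 4 →₀ ℕ)),
  (∀ v ∈ S, Spn f A (y v) ∧ (G v).IsHomogeneous g ∧ G v ≠ 0 ∧ μ v ∈ (G v).support ∧
    Std (G v) (μ v) ∧ ∀ (m : ℕ) (P : MvPolynomial (Fin 4) k), P.IsHomogeneous m →
      ((∀ ω ∈ A, eval (fun j => y v j ⬝ᵥ f ω) P = 0) ↔ G v ∣ P)) →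
  ∀ ε : ℝ, 0 < ε → ∃ (B : Set Ω) (C : ℝ), Sm B ∧ ∀ ω ∈ A, ω ∉ B →
    (∀ v ∈ S, ∀ j, y v j ⬝ᵥ f ω ≠ 0) ∧
    ∑ v ∈ S, ∑ j, (1 - (μ v j : ℝ) / g) * val v (y v j) (f ω) ≤ (3 + ε) * ht (f ω) + C

/-- DM2. Two functionals span: `a_m ≤ m + 1` (from PAR).

PROOF. `FS f A m = FS f' A m` is spanned by the `m + 1` monomials of degree `m` in two variables. -/
def SpecDM2 : Prop := ∀ (k : Type) [Field k] (Ω : Type) (M : ℕ) (f : Ω → Fin M → k)
  (A : Set Ω) (y : Fin 2 → Fin M → k), Spn f A y →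
  ∀ m : ℕ, Module.finrank k (FS f A m) ≤ m + 1

/-- DM3. Three functionals span and satisfy a cubic relation: `a_m ≤ 3 m` for `m ≥ 1` (from PAR).

PROOF. `FS f A m` is the image of the forms of degree `m` in three variables (dimension `binom (m+2) 2`); the
kernel contains `P` times the forms of degree `m - 3` (if `m ≥ 3`), of dimension `binom (m-1) 2`, as
multiplication by `P ≠ 0` is injective.  `binom (m+2) 2 - binom (m-1) 2 = 3 m`; for `m = 1, 2`
`binom (m+2) 2 = 3, 6`. -/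
def SpecDM3 : Prop := ∀ (k : Type) [Field k] (Ω : Type) (M : ℕ) (f : Ω → Fin M → k)
  (A : Set Ω) (y : Fin 3 → Fin M → k), Spn f A y → ∀ P : MvPolynomial (Fin 3) k,
  P.IsHomogeneous 3 → P ≠ 0 → (∀ ω ∈ A, eval (fun j => y j ⬝ᵥ f ω) P = 0) →
  ∀ m : ℕ, 0 < m → Module.finrank k (FS f A m) ≤ 3 * m

/-- HFA. An irreducible homogeneous factor vanishing on `A` (from IRR).

PROOF. Divisors of a homogeneous `P ≠ 0` are homogeneous: if `P = G H`, the product of the lowest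
homogeneous components of `G` and `H`, and the product of the highest ones, are not 0 and are
homogeneous components of `P`, so all have the same degree.  Induction on `n`: `P` is not a unit (it
vanishes on `A ≠ ∅`; `A` is not small), so it is irreducible or a product of two non-units, homogeneous
of smaller degree; by IRR one of them vanishes on `A`. -/
def SpecHFA : Prop := ∀ (k : Type) [Field k] (Ω : Type) (M : ℕ) (f : Ω → Fin M → k)
  (Sm : Set Ω → Prop), SmSys Sm → ∀ A : Set Ω, Gen Sm f A → ∀ (n : ℕ)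
  (P : MvPolynomial (Fin M) k), P.IsHomogeneous n → P ≠ 0 → (∀ ω ∈ A, eval (f ω) P = 0) →
  ∃ (g : ℕ) (G : MvPolynomial (Fin M) k), G.IsHomogeneous g ∧ Irreducible G ∧ G ∣ P ∧
    ∀ ω ∈ A, eval (f ω) G = 0

/-- TWO. Two coprime forms in four variables.

PROOF. `A_j = binom (j+3) 3` = dimension of the forms of degree `j`.  Let `m ≥ g + d`.  The space
`G F_{m-g} + Q F_{m-d}` has dimension at least `A_{m-g} + A_{m-d} - A_{m-g-d}`, because the intersection
`G F_{m-g} ∩ Q F_{m-d}` is `G Q F_{m-g-d}` (`G` is prime and does not divide `Q`).  So a quotient of `F_m` in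
which `G` and `Q` vanish has dimension at most `A_m - A_{m-g} - A_{m-d} + A_{m-g-d} =
∑_{i<g} (binom (m-i+2) 2 - binom (m-i-d+2) 2) ≤ g d (m + 2)`.  For `m < g + d` use `A_m ≤ A_{g+d}`.  All in all
`≤ D m` with `D = 3 g d + A_{g+d}`. -/
def SpecTWO : Prop := ∀ (k : Type) [Field k] (g d : ℕ) (G Q : MvPolynomial (Fin 4) k),
  G.IsHomogeneous g → Q.IsHomogeneous d → Irreducible G → ¬ G ∣ Q →
  ∃ D : ℝ, ∀ m : ℕ, 0 < m → ∀ (V : Type) [AddCommGroup V] [Module k V]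
    (φ : MvPolynomial (Fin 4) k →ₗ[k] V),
    (∀ P : MvPolynomial (Fin 4) k, φ (G * P) = 0 ∧ φ (Q * P) = 0) →
    (Module.finrank k ((homogeneousSubmodule (Fin 4) k m).map φ) : ℝ) ≤ D * m

/-- DIC. The dichotomy for four functionals (from HFA, TWO, PAR).

PROOF. Let `f' ω = (y_j ⬝ᵥ f ω)_j`, `Gen` for `f'` by PAR.  HFA: an irreducible homogeneous factor `G` of `P`
vanishing on `A`, of degree `g ≤ 3`; `g ≠ 0` (not a unit), `g ≠ 1` by `Ind`.  If some form `Q` vanishing on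
`A` is not divisible by `G`: TWO with `φ = evA f' A` and `FS f' A m = FS f A m`.  Otherwise the second
alternative, where for `m = 2`: `F_2` has dimension 10 and the forms in it divisible by `G` have
dimension `1` if `g = 2`, `0` if `g = 3`, so `finrank (FS f A 2) = 7 + g`. -/
def SpecDIC : Prop := ∀ (k : Type) [Field k] (Ω : Type) (M : ℕ) (f : Ω → Fin M → k)
  (Sm : Set Ω → Prop), SmSys Sm → ∀ A : Set Ω, Gen Sm f A → ∀ y : Fin 4 → Fin M → k,
  Spn f A y → Ind f A y → ∀ P : MvPolynomial (Fin 4) k, P.IsHomogeneous 3 → P ≠ 0 →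
  (∀ ω ∈ A, eval (fun j => y j ⬝ᵥ f ω) P = 0) →
  (∃ D : ℝ, ∀ m : ℕ, 0 < m → (Module.finrank k (FS f A m) : ℝ) ≤ D * m) ∨
  ∃ (g : ℕ) (G : MvPolynomial (Fin 4) k), 2 ≤ g ∧ G.IsHomogeneous g ∧ Irreducible G ∧ G ∣ P ∧
    Module.finrank k (FS f A 2) = 7 + g ∧
    ∀ (m : ℕ) (Q : MvPolynomial (Fin 4) k), Q.IsHomogeneous m →
      ((∀ ω ∈ A, eval (fun j => y j ⬝ᵥ f ω) Q = 0) ↔ G ∣ Q)

end Pool.Agent.Lib.MP_d0e829_nt.SS
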