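import Pool.Agent.Lib.MP_d0e829_nt.SS.SpecC1

/-!
# Part C, section 2: combinatorics of a two-dimensional space `U` of functionals (K2)

Coordinates in a frame: `0 = XX, 1 = YY, 2 = ZZ, 3 = YZ, 4 = XZ, 5 = XY`.  `U ≤ k⁶` (two-dimensional, the
functionals vanishing on `A` in frame coordinates).  We look for four coordinates `e : Fin 4 → Fin 6`
which are a basis of `k⁶ / U`, with the matrix `N` expressing all six coordinates by these four modulo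
`U`.  `Dl N` is the discriminant cubic in the four variables.  `W` = weights, `T` = the number with
`∑ W - T` = sum of the mixed weights; we want the least weight of a monomial of every irreducible factor
`G` (of degree `g ≥ 2`) of `Dl N` to be at most `g R`, `R = ∑_j W (e j) - T / 2`.
All docstrings are complete proofs; `t = z + z'`, `ν = min z' (z + q)`, `μ = min z (p + z')`.
-/

set_option autoImplicit false

open NumberField MvPolynomial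

namespace Pool.Agent.Lib.MP_d0e829_nt.SS

open scoped Classical

/-- the conclusion of K2 -/
def K2C {k : Type} [Field k] (U : Submodule k (Fin 6 → k)) (W : Fin 6 → ℝ) (T κ : ℝ) : Prop :=
  ∃ (e : Fin 4 → Fin 6) (N : Fin 6 → Fin 4 → k), Function.Injective e ∧
    (∀ j, N (e j) = Pi.single j 1) ∧
    (∀ i, Pi.single i (1 : k) - ∑ j, N i j • (Pi.single (e j) (1 : k) : Fin 6 → k) ∈ U) ∧
    ((∃ s : Fin 4 →₀ ℕ, (Dl N).coeff s ≠ 0 ∧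
        ∑ j, (s j : ℝ) * W (e j) ≤ 2 * (∑ j, W (e j) - T / 2) + κ) ∨
      ∃ j₀ : Fin 4, ∀ j, j ≠ j₀ → W (e j) ≤ ∑ j, W (e j) - T / 2 + κ)

/-- the minimum of the weights over the support of `C` is attained twice, up to `κ` -/
def ExC {k : Type} [Field k] (C : Fin 6 → k) (W : Fin 6 → ℝ) (κ : ℝ) : Prop :=
  ∀ i, C i ≠ 0 → ∃ j, j ≠ i ∧ C j ≠ 0 ∧ W j ≤ W i + κ

/-- the substitution eliminating the coordinates `a, b` by means of `C, D ∈ U` -/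
noncomputable def NE {k : Type} [Field k] (a b : Fin 6) (C D : Fin 6 → k) (e : Fin 4 → Fin 6) :
    Fin 6 → Fin 4 → k :=
  fun i j => if i = a then - C (e j) else if i = b then - D (e j) else if i = e j then 1 else 0

/-- coefficient of `X_i X_j²` in the product of three linear forms -/
def c12 {k : Type} [Field k] (α β γ : Fin 4 → k) (i j : Fin 4) : k :=
  α i * β j * γ j + α j * β i * γ j + α j * β j * γ i

/-- coefficient of `X_i X_j X_l` (distinct) in the product of three linear forms -/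
def c111 {k : Type} [Field k] (α β γ : Fin 4 → k) (i j l : Fin 4) : k :=
  α i * β j * γ l + α i * β l * γ j + α j * β i * γ l + α j * β l * γ i + α l * β i * γ j +
    α l * β j * γ i

/-- COF. Coefficients of the discriminant cubic.

PROOF. Expand `lin α * lin β * lin γ = ∑_{a,b,c} α_a β_b γ_c X_a X_b X_c` and count the triples `(a,b,c)` with
`X_a X_b X_c` equal to the given monomial. -/
def SpecCOF : Prop := ∀ (k : Type) [Field k] (N : Fin 6 → Fin 4 → k),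
  (∀ i j : Fin 4, i ≠ j → (Dl N).coeff (Finsupp.single i 1 + Finsupp.single j 2) =
    4 * c12 (N 0) (N 1) (N 2) i j + c12 (N 3) (N 4) (N 5) i j - c12 (N 0) (N 3) (N 3) i j
      - c12 (N 1) (N 4) (N 4) i j - c12 (N 2) (N 5) (N 5) i j) ∧
  (∀ i j l : Fin 4, i ≠ j → i ≠ l → j ≠ l →
    (Dl N).coeff (Finsupp.single i 1 + Finsupp.single j 1 + Finsupp.single l 1) =
    4 * c111 (N 0) (N 1) (N 2) i j l + c111 (N 3) (N 4) (N 5) i j l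
      - c111 (N 0) (N 3) (N 3) i j l - c111 (N 1) (N 4) (N 4) i j l
      - c111 (N 2) (N 5) (N 5) i j l) ∧
  (Dl N).IsHomogeneous 3

/-- ELM. The elimination.

PROOF. `e` is injective with values in the four indices different from `a, b`, so it is onto them.
For `i = e j`: `N i = Pi.single j 1`, the difference is 0.  For `i = a`: `Pi.single a 1 + ∑_j C (e j) e_{e j}
= C` as `C a = 1`, `C b = 0`.  The same for `b`. -/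
def SpecELM : Prop := ∀ (k : Type) [Field k] (U : Submodule k (Fin 6 → k)) (a b : Fin 6)
  (C D : Fin 6 → k) (e : Fin 4 → Fin 6), a ≠ b → C ∈ U → D ∈ U → C a = 1 → C b = 0 → D a = 0 →
  D b = 1 → Function.Injective e → (∀ j, e j ≠ a ∧ e j ≠ b) →
  (∀ j, NE a b C D e (e j) = Pi.single j 1) ∧
  ∀ i, Pi.single i (1 : k) - ∑ j, NE a b C D e i j • (Pi.single (e j) (1 : k) : Fin 6 → k) ∈ U

/-- KA0 (from COF, ELM). `C = (1,0,c,0,0,0)`, `D = (0,1,d,0,0,0)` in `U`, `p, q, t` equal up to `κ`.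

PROOF. Eliminate `0, 1`: `e = ![2,3,4,5]`, `N = NE 0 1 C D e`.  Monomial `X_3 X_4 X_5` (indices `1,2,3` of `e`):
coefficient `c111 (N 3) (N 4) (N 5) = 1`, all other terms of COF are 0 (`N 0, N 1, N 2` are multiples of
`Pi.single 0 1`).  Weight `ν + μ`; `R = t + ν + μ - (p+q+t)/2`, `2R ≥ 2(ν+μ) - t - 2κ`, and `μ ≥ z - κ` as
`p ≥ t - κ ≥ z - κ`, `ν ≥ z' - κ`, so `ν + μ ≤ 2R + 4κ`. -/
def SpecKA0 : Prop := ∀ (k : Type) [Field k] (U : Submodule k (Fin 6 → k)) (C D : Fin 6 → k)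
  (κ p q z z' : ℝ), 0 ≤ κ → 0 ≤ p → 0 ≤ q → 0 ≤ z → 0 ≤ z' → C ∈ U → D ∈ U →
  C 0 = 1 → C 1 = 0 → C 3 = 0 → C 4 = 0 → C 5 = 0 →
  D 0 = 0 → D 1 = 1 → D 3 = 0 → D 4 = 0 → D 5 = 0 →
  |p - (z + z')| ≤ κ → |q - (z + z')| ≤ κ → K2C U (WA p q z z') (p + q + z + z') (10 * κ)

/-- KA1 (from COF, ELM). `C = (1,c₁,c₂,0,0,0)`, `p` and `q` equal up to `κ`.

PROOF. `D 0 = 0`, not all of `D 3, D 4, D 5` are 0.
(i) `D 5 ≠ 0`: scale to `D 5 = 1`, eliminate `0, 5`, `e = ![1,2,3,4]`, weights `q, t, ν, μ`,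
`R = (q - p)/2 + t/2 + ν + μ ≥ t/2 + ν + μ - κ/2`.  Second alternative: `ν, μ ≤ R + κ`, and `q ≤ R + 10 κ` or
`t ≤ R + 10 κ`: if `μ = z`, `ν = z'` then `R ≥ (3/2) t - κ/2`; if `μ = p + z'` then `R ≥ p - κ/2 ≥ q - 2κ`; if
`ν = z + q` then `R ≥ q - κ/2`.
(ii) `D 5 = 0`, `D 3 ≠ 0`: scale to `D 3 = 1`, eliminate `0, 3`, `e = ![1,2,4,5]`,
`R = (q-p)/2 + t/2 + μ ≥ t/2 - κ/2`.  Monomial `X_2 X_5²` (`single 1 1 + single 3 2`), weight `t`.  In COF only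
`c12 (N 2) (N 5) (N 5) = 1` is not 0, because apart from `N 5` no row of `N` has a nonzero entry at the
index 3 (`C 5 = D 5 = 0`): coefficient `-1`.
(iii) `D 5 = 0`, `D 4 ≠ 0`: scale, eliminate `0, 4`, `e = ![1,2,3,5]`, the same with `R ≥ t/2 + ν - κ/2`. -/
def SpecKA1 : Prop := ∀ (k : Type) [Field k] (U : Submodule k (Fin 6 → k)) (C D : Fin 6 → k)
  (κ p q z z' : ℝ), 0 ≤ κ → 0 ≤ p → 0 ≤ q → 0 ≤ z → 0 ≤ z' → C ∈ U → D ∈ U →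
  C 0 = 1 → C 3 = 0 → C 4 = 0 → C 5 = 0 → D 0 = 0 → (D 3 ≠ 0 ∨ D 4 ≠ 0 ∨ D 5 ≠ 0) →
  |p - q| ≤ κ → K2C U (WA p q z z') (p + q + z + z') (10 * κ)

/-- KA2 (from COF, ELM). `C = (1,0,c₂,0,0,0)`, `p` and `t` equal up to `κ`.

PROOF. (i) `D 5 ≠ 0`: scale to `D 5 = 1`, eliminate `0, 5`, `e = ![1,2,3,4]`,
`R = q/2 + (t-p)/2 + ν + μ ≥ q/2 + μ - κ/2`.  Monomial `X_1 X_4²` (`single 0 1 + single 3 2`), weight `q + 2μ`.
COF: `c12 (N 1) (N 4) (N 4) = 1`; the rows `N 0, N 1, N 2, N 3` are 0 at the index 3, `N 3` and `N 2` are 0 at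
the index 0, `N 4 = single 3`: all other terms are 0; coefficient `-1`.
(ii) `D 5 = 0`, `D 4 ≠ 0`: scale, eliminate `0, 4`, `e = ![1,2,3,5]`, `R ≥ q/2 + ν - κ/2`,
`N 4 = (-D 1, -D 2, -D 3, 0)`, `N 0 = (0, -c₂, 0, 0)`.  If `D 3 ≠ 0`: monomial `X_5 X_3²`
(`single 3 1 + single 2 2`), weight `2ν`, coefficient `c12 (N 3) (N 4) (N 5) = - D 3`, the others 0.  If
`D 3 = 0` then `D 1 ≠ 0`: monomial `X_1 X_3 X_5` (indices `0, 2, 3`), weight `q + ν ≤ 2R + κ`, coefficient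
`c111 (N 3) (N 4) (N 5) = - D 1`, the others 0 (the index 3 occurs only in `N 5`, and `N 5 = single 3`).
(iii) `D 5 = D 4 = 0`, `D 3 ≠ 0`: scale, eliminate `0, 3`, `e = ![1,2,4,5]`, `R ≥ q/2 + μ - κ/2`, monomial
`X_1 X_4²` (`single 0 1 + single 2 2`), weight `q + 2μ`, coefficient `- c12 (N 1) (N 4) (N 4) = -1` (the index 2
occurs only in `N 4`, since `D 4 = 0`). -/
def SpecKA2 : Prop := ∀ (k : Type) [Field k] (U : Submodule k (Fin 6 → k)) (C D : Fin 6 → k)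
  (κ p q z z' : ℝ), 0 ≤ κ → 0 ≤ p → 0 ≤ q → 0 ≤ z → 0 ≤ z' → C ∈ U → D ∈ U →
  C 0 = 1 → C 1 = 0 → C 3 = 0 → C 4 = 0 → C 5 = 0 → D 0 = 0 →
  (D 3 ≠ 0 ∨ D 4 ≠ 0 ∨ D 5 ≠ 0) → (D 1 ≠ 0 ∨ D 3 ≠ 0 ∨ D 5 ≠ 0) →
  |p - (z + z')| ≤ κ → K2C U (WA p q z z') (p + q + z + z') (10 * κ)

/-- KA3 (from COF, ELM). `C = (1,c₁,c₂,0,0,0)`, `p` and `t` equal up to `κ`, `t ≤ q + κ`.

PROOF. (i) `D 5 ≠ 0`: scale to `D 5 = 1`, eliminate `0, 5`, `e = ![1,2,3,4]`, `R ≥ q/2 + μ - κ/2`, monomial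
`X_1 X_4²` (`single 0 1 + single 3 2`), coefficient `-1` as in KA2 (i) (also with `c₁ ≠ 0`: the rows
`N 0, N 1, N 2` are 0 at the index 3, and `N 3 = single 2`).
(ii) `D 5 = 0`, `D 3 ≠ 0` (or `D 4 ≠ 0`): scale, eliminate `0, 3` (or `0, 4`), monomial `X_2 X_5²`, coefficient
`-1` as in KA1 (ii), (iii); `R ≥ q/2 - κ/2 ≥ t/2 - κ`, weight `t`. -/
def SpecKA3 : Prop := ∀ (k : Type) [Field k] (U : Submodule k (Fin 6 → k)) (C D : Fin 6 → k)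
  (κ p q z z' : ℝ), 0 ≤ κ → 0 ≤ p → 0 ≤ q → 0 ≤ z → 0 ≤ z' → C ∈ U → D ∈ U →
  C 0 = 1 → C 3 = 0 → C 4 = 0 → C 5 = 0 → D 0 = 0 → (D 3 ≠ 0 ∨ D 4 ≠ 0 ∨ D 5 ≠ 0) →
  |p - (z + z')| ≤ κ → z + z' ≤ q + κ → K2C U (WA p q z z') (p + q + z + z') (10 * κ)

/-- KA4 (from ELM). `C 5 = 1`, `D 5 = 0`.

PROOF. `D 3 ≠ 0`: scale to `D 3 = 1`, replace `C` by `C - C 3 • D`; eliminate `5, 3`, `e = ![0,1,2,4]`, weights
`p, q, t, μ`, `R = T/2 + μ`.  Second alternative: `j₀` = index of the largest of `p, q, t`; the two others are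
`≤ T/2`, and `μ ≤ R`.  `D 4 ≠ 0`: the same with `5, 4`, `e = ![0,1,2,3]`, `R = T/2 + ν`. -/
def SpecKA4 : Prop := ∀ (k : Type) [Field k] (U : Submodule k (Fin 6 → k)) (C D : Fin 6 → k)
  (κ p q z z' : ℝ), 0 ≤ κ → 0 ≤ p → 0 ≤ q → 0 ≤ z → 0 ≤ z' → C ∈ U → D ∈ U →
  C 5 = 1 → D 5 = 0 → (D 3 ≠ 0 ∨ D 4 ≠ 0) → K2C U (WA p q z z') (p + q + z + z') (10 * κ)

/-- KA5 (from COF, ELM).

PROOF. Eliminate `3, 4`: `e = ![0,1,2,5]`, `R = T/2`, monomial `X_2 X_5²` (`single 2 1 + single 3 2`), weight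
`t ≤ T`; the index 3 occurs only in `N 5` (`C 5 = D 5 = 0`), so the coefficient is
`- c12 (N 2) (N 5) (N 5) = -1`. -/
def SpecKA5 : Prop := ∀ (k : Type) [Field k] (U : Submodule k (Fin 6 → k)) (C D : Fin 6 → k)
  (κ p q z z' : ℝ), 0 ≤ κ → 0 ≤ p → 0 ≤ q → 0 ≤ z → 0 ≤ z' → C ∈ U → D ∈ U →
  C 3 = 1 → C 4 = 0 → C 5 = 0 → D 3 = 0 → D 4 = 1 → D 5 = 0 →
  K2C U (WA p q z z') (p + q + z + z') (10 * κ)

/-- the exchange of `X` and `Y` -/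
def sw6 : Fin 6 → Fin 6 := ![1, 0, 2, 4, 3, 5]

/-- KSW. Exchange of `X` and `Y`.

PROOF. If `e, N` are given for the exchanged situation, take `sw6 ∘ e` and `N ∘ sw6`.  `sw6` is an
involution, `(Pi.single i 1) ∘ sw6 = Pi.single (sw6 i) 1`, and `dlt (w ∘ sw6) = dlt w`, so
`Dl (N ∘ sw6) = Dl N`. -/
def SpecKSW : Prop := ∀ (k : Type) [Field k] (U U' : Submodule k (Fin 6 → k)) (W W' : Fin 6 → ℝ)
  (T κ : ℝ), (∀ c : Fin 6 → k, c ∈ U' ↔ (fun i => c (sw6 i)) ∈ U) → (∀ i, W' i = W (sw6 i)) →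
  K2C U' W' T κ → K2C U W T κ

/-- K2A. Frames of type A (from KA0, KA1, KA2, KA3, KA4, KA5, KSW).

PROOF. `D₀ = {c ∈ U : c 3 = c 4 = c 5 = 0}`.
*`dim D₀ = 2`*: `U ≤ ⟨e₀, e₁, e₂⟩` contains no `e_i`, so `(c 0, c 1)` is injective and bijective on `U`:
`C = (1,0,c,0,0,0)`, `D = (0,1,d,0,0,0)` in `U`, `c, d ≠ 0`.  `F = {C, D}`; `ExC` gives `|p - t|, |q - t| ≤ κ`.
KA0.
*`dim D₀ = 1`*: `F = {C}`, `D₀ = ⟨C⟩`; `C` has at least two nonzero coordinates.  Let `D ∈ U` not in `D₀`,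
so `(D 3, D 4, D 5) ≠ 0`.  Let `i` in the support of `C` have the least weight, `j ≠ i` in the support with
`W j ≤ W i + κ` (`ExC`); `|W i - W j| ≤ κ`.  `{i,j} = {0,1}`: scale `C 0 = 1`, subtract from `D`: KA1.
`{i,j} = {0,2}`: scale `C 0 = 1`, subtract from `D` to get `D 0 = 0`; if `C 1 = 0` then
`(D 1, D 3, D 5) ≠ 0` (otherwise all elements of `U = ⟨C, D⟩` are 0 at `1, 3, 5`, against the hypothesis):
KA2; if `C 1 ≠ 0` then `q ≥ W i ≥ t - κ`: KA3.  `{i,j} = {1,2}`: the same after the exchange of `X` and `Y`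
(KSW, `U' = {c : c ∘ sw6 ∈ U}`, `WA p q z z' ∘ sw6 = WA q p z' z`).
*`dim D₀ = 0`*, `F = ∅`: if some `C ∈ U` has `C 5 ≠ 0`, scale it and take `D ≠ 0` in `U` with `D 5 = 0`; then
`(D 3, D 4) ≠ 0`: KA4.  Otherwise `(c 3, c 4)` is injective on `U`, hence bijective: KA5. -/
def SpecK2A : Prop := ∀ (k : Type) [Field k] (U : Submodule k (Fin 6 → k)),
  Module.finrank k U = 2 → (∀ i : Fin 6, (i : ℕ) < 3 → Pi.single i (1 : k) ∉ U) →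
  (∃ C ∈ U, C 1 ≠ 0 ∨ C 3 ≠ 0 ∨ C 5 ≠ 0) → (∃ C ∈ U, C 0 ≠ 0 ∨ C 4 ≠ 0 ∨ C 5 ≠ 0) →
  ∃ F : Finset (Fin 6 → k), (∀ C ∈ F, C ∈ U ∧ C 3 = 0 ∧ C 4 = 0 ∧ C 5 = 0) ∧
    ∀ κ p q z z' : ℝ, 0 ≤ κ → 0 ≤ p → 0 ≤ q → 0 ≤ z → 0 ≤ z' →
      (∀ C ∈ F, ExC C (WA p q z z') κ) → K2C U (WA p q z z') (p + q + z + z') (10 * κ)

/-- KB1 (from ELM). `C = (1,c₁,0,0,0,0)`, `D 2 = 1`, `D 0 = 0`.

PROOF. `P = p + p'`, `Q = q + q'`.  Eliminate `0, 2`, `e = ![1,3,4,5]`,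
`R = Q + W 3 + W 4 + W 5 - (P + Q)/2 ≥ W 3 + W 4 + W 5 - κ/2`: second alternative with `j₀ = 0`. -/
def SpecKB1 : Prop := ∀ (k : Type) [Field k] (U : Submodule k (Fin 6 → k)) (C D : Fin 6 → k)
  (κ p p' q q' : ℝ), 0 ≤ κ → 0 ≤ p → 0 ≤ p' → 0 ≤ q → 0 ≤ q' → C ∈ U → D ∈ U →
  C 0 = 1 → C 2 = 0 → D 0 = 0 → D 2 = 1 → |p + p' - (q + q')| ≤ κ →
  K2C U (WB p p' q q') (p + p' + q + q') (10 * κ)

/-- KB2 (from ELM). `C 2 = 0`, `D 2 = 1`, some `C j ≠ 0`, `j ∈ {3,4,5}`.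

PROOF. Scale to `C j = 1`, replace `D` by `D - D j • C`; eliminate `2, j`; `e` = the other four coordinates:
`R = (P + Q)/2 +` the sum of the two remaining mixed weights.  Second alternative with `j₀` = the larger
of `P, Q`: the smaller one is `≤ (P+Q)/2 ≤ R`, the mixed ones are `≤ R`. -/
def SpecKB2 : Prop := ∀ (k : Type) [Field k] (U : Submodule k (Fin 6 → k)) (C D : Fin 6 → k)
  (κ p p' q q' : ℝ), 0 ≤ κ → 0 ≤ p → 0 ≤ p' → 0 ≤ q → 0 ≤ q' → C ∈ U → D ∈ U →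
  C 2 = 0 → D 2 = 1 → (C 3 ≠ 0 ∨ C 4 ≠ 0 ∨ C 5 ≠ 0) →
  K2C U (WB p p' q q') (p + p' + q + q') (10 * κ)

/-- KB3 (from COF, ELM). `C = (1,c₁,0,0,0,0)`, `D 0 = D 2 = 0`, `D 3 ≠ 0` or `D 4 ≠ 0`.

PROOF. `D 3 ≠ 0`: scale, eliminate `0, 3`, `e = ![1,2,4,5]`, `R = Q + W 4 + W 5 - (P+Q)/2 ≥ W 5 - κ/2`.
Monomial `X_2 X_5²` (`single 1 1 + single 3 2`), weight `2 W 5`.  Coefficient `-1`: `N 0 = (-c₁,0,0,0)`,
`N 3 = (-D 1, 0, -D 4, -D 5)`, the index 1 occurs only in `N 2 = single 1` (`C 2 = D 2 = 0`), so only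
`4 c12 (N 0) (N 1) (N 2)` (which is `4 N 0 3 N 1 3 = 0`) and `- c12 (N 2) (N 5) (N 5) = -1` matter.
`D 4 ≠ 0`: the same, eliminating `0, 4`, `e = ![1,2,3,5]`. -/
def SpecKB3 : Prop := ∀ (k : Type) [Field k] (U : Submodule k (Fin 6 → k)) (C D : Fin 6 → k)
  (κ p p' q q' : ℝ), 0 ≤ κ → 0 ≤ p → 0 ≤ p' → 0 ≤ q → 0 ≤ q' → C ∈ U → D ∈ U →
  C 0 = 1 → C 2 = 0 → C 3 = 0 → C 4 = 0 → C 5 = 0 → D 0 = 0 → D 2 = 0 → (D 3 ≠ 0 ∨ D 4 ≠ 0) →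
  |p + p' - (q + q')| ≤ κ → K2C U (WB p p' q q') (p + p' + q + q') (10 * κ)

/-- KB4 (from COF, ELM). `C = (c₀,c₁,0,0,0,1)`, `D 2 = 0`, `D 3 ≠ 0` or `D 4 ≠ 0`.

PROOF. Replace `D` by `D - D 5 • C`, so `D 5 = 0`.  `D 3 ≠ 0`: scale, eliminate `5, 3`, `e = ![0,1,2,4]`,
`R = (P+Q)/2 + W 4 ≥ (P+Q)/2`, `N 5 = (-c₀,-c₁,0,0)`, `N 3 = (-D 0,-D 1,0,-D 4)`; the index 2 occurs only in
`N 2 = single 2`.  The coefficients of `X_2 X_0²`, `X_2 X_1²`, `X_0 X_1 X_2` are `-c₀²`, `-c₁²`, `4 - 2 c₀ c₁`, the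
weights `2P`, `2Q`, `P + Q`.  If `c₀, c₁ ≠ 0` take the first or the second (`min (2P) (2Q) ≤ P + Q ≤ 2R`),
otherwise the third, with coefficient `4 ≠ 0`.  `D 4 ≠ 0`: the same, eliminating `5, 4`,
`e = ![0,1,2,3]`. -/
def SpecKB4 : Prop := ∀ (k : Type) [Field k] [CharZero k] (U : Submodule k (Fin 6 → k))
  (C D : Fin 6 → k)
  (κ p p' q q' : ℝ), 0 ≤ κ → 0 ≤ p → 0 ≤ p' → 0 ≤ q → 0 ≤ q' → C ∈ U → D ∈ U →
  C 2 = 0 → C 3 = 0 → C 4 = 0 → C 5 = 1 → D 2 = 0 → (D 3 ≠ 0 ∨ D 4 ≠ 0) →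
  K2C U (WB p p' q q') (p + p' + q + q') (10 * κ)

/-- KB5 (from COF, ELM).

PROOF. Eliminate `3, 4`: `e = ![0,1,2,5]`, `R = (P+Q)/2 + W 5 ≥ W 5`.  Monomial `X_2 X_5²`
(`single 2 1 + single 3 2`), weight `2 W 5`, coefficient `-1` (the index 2 occurs only in `N 2`, as
`C 2 = D 2 = 0`; `N 5 = single 3`, `N 0 = single 0`, `N 1 = single 1`). -/
def SpecKB5 : Prop := ∀ (k : Type) [Field k] (U : Submodule k (Fin 6 → k)) (C D : Fin 6 → k)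
  (κ p p' q q' : ℝ), 0 ≤ κ → 0 ≤ p → 0 ≤ p' → 0 ≤ q → 0 ≤ q' → C ∈ U → D ∈ U →
  C 2 = 0 → C 3 = 1 → C 4 = 0 → D 2 = 0 → D 3 = 0 → D 4 = 1 →
  K2C U (WB p p' q q') (p + p' + q + q') (10 * κ)

/-- K2B. Frames of type B (from KB1, KB2, KB3, KB4, KB5).

PROOF. *Some `D ∈ U` has `D 2 ≠ 0`*: scale to `D 2 = 1`; `{c ∈ U : c 2 = 0} = ⟨C⟩`.  If `C 3 = C 4 = C 5 = 0`
then `C 0, C 1 ≠ 0` (no `e_i` in `U`), `F = {C}`, `ExC` gives `|P - Q| ≤ κ`; scale `C 0 = 1`, subtract from `D`: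
KB1.  Otherwise KB2 (`F = ∅`).  *All `c ∈ U` have `c 2 = 0`*: if `U` contains `C ≠ 0` with
`C 2 = … = C 5 = 0`, then `C 0, C 1 ≠ 0`, scale `C 0 = 1`, `F = {C}`, `|P - Q| ≤ κ`; let `D ∈ U` not in `⟨C⟩`,
`D 0 = 0`; by the last hypothesis `D 3 ≠ 0` or `D 4 ≠ 0` (`U = ⟨C, D⟩`): KB3.  Otherwise `F = ∅`: if there is
`C ≠ 0` in `U` with `C 3 = C 4 = 0`, then `C 5 ≠ 0`, scale; there is `D ∈ U` with `(D 3, D 4) ≠ 0` (last
hypothesis): KB4.  If there is no such `C`, `(c 3, c 4)` is injective, hence bijective on `U`: KB5. -/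
def SpecK2B : Prop := ∀ (k : Type) [Field k] [CharZero k] (U : Submodule k (Fin 6 → k)),
  Module.finrank k U = 2 → (∀ i : Fin 6, (i : ℕ) < 3 → Pi.single i (1 : k) ∉ U) →
  (∃ C ∈ U, C 2 ≠ 0 ∨ C 3 ≠ 0 ∨ C 4 ≠ 0) →
  ∃ F : Finset (Fin 6 → k), (∀ C ∈ F, C ∈ U ∧ C 3 = 0 ∧ C 4 = 0 ∧ C 5 = 0) ∧
    ∀ κ p p' q q' : ℝ, 0 ≤ κ → 0 ≤ p → 0 ≤ p' → 0 ≤ q → 0 ≤ q' →
      (∀ C ∈ F, ExC C (WB p p' q q') κ) → K2C U (WB p p' q q') (p + p' + q + q') (10 * κ)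

/-- K2G. From the alternatives of K2 to the inequality used with HYP.

PROOF. `R = ∑ W_j - T/2`.  First alternative: `P = G H`, the monomial `s` of `P` is `s₁ + s₂` with `s₁` in the
support of `G`, `s₂` in that of `H`, so `wt W μ ≤ wt W s₁ ≤ wt W s ≤ 2R + κ`; hence `2R + κ ≥ 0` and, as `g ≥ 2`,
`wt W μ ≤ g (R + κ)`.  Second alternative: `G` is irreducible of degree `g ≥ 2`, so it is not divisible by
`X_{j₀}` (otherwise `G = c X_{j₀}`) and has a monomial `s₁` with `s₁ j₀ = 0`; `wt W s₁ ≤ g (R + κ)`.  So in both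
cases `wt W μ / g ≤ R + κ`. -/
def SpecK2G : Prop := ∀ (k : Type) [Field k] (g : ℕ) (G P : MvPolynomial (Fin 4) k)
  (μ : Fin 4 →₀ ℕ) (W : Fin 4 → ℝ) (T κ : ℝ), 2 ≤ g → G.IsHomogeneous g → Irreducible G → G ∣ P →
  (∀ j, 0 ≤ W j) → 0 ≤ κ → (∀ s ∈ G.support, wt W μ ≤ wt W s) →
  ((∃ s : Fin 4 →₀ ℕ, P.coeff s ≠ 0 ∧ ∑ j, (s j : ℝ) * W j ≤ 2 * (∑ j, W j - T / 2) + κ) ∨
      ∃ j₀ : Fin 4, ∀ j, j ≠ j₀ → W j ≤ ∑ j, W j - T / 2 + κ) →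
  T / 2 ≤ ∑ j, W j - wt W μ / g + κ

/-- EXA. Exactness of the squares.

PROOF. Let `C i ≠ 0` (so `i < 3`).  `C i (S2 B i ⬝ᵥ f) = - ∑_{j ≠ i, C j ≠ 0} C j (S2 B j ⬝ᵥ f)`.  The left side is
at least `|C i|_v e^{-W i - c} nrm v f > 0`, so there is such a `j`, and the right side is at most
`6^{sw v} max_j |C j|_v e^{-W j + c} nrm v f` over these `j`.  So for the `j` with the least `W j`:
`W j ≤ W i + 2 c + κ` with `κ = sw v log 6 + log max_{C j ≠ 0} |C j|_v - log min_{C i ≠ 0} |C i|_v`, maximal over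
`v ∈ S`. -/
def SpecEXA : Prop := ∀ (k : Type) [Field k] [NumberField k] (S : Finset (Place k))
  (B : Matrix (Fin 3) (Fin 3) k) (C : Fin 6 → k), C 3 = 0 → C 4 = 0 → C 5 = 0 →
  ∃ κ : ℝ, 0 ≤ κ ∧ ∀ v ∈ S, ∀ (f : Fin 6 → k) (W : Fin 6 → ℝ) (c : ℝ), f ≠ 0 →
    ∑ i, C i * (S2 B i ⬝ᵥ f) = 0 → (∀ i, Ge v (S2 B i) f (W i - c)) →
    (∀ i : Fin 6, (i : ℕ) < 3 → Le v (S2 B i) f (W i + c)) → ExC C W (κ + 2 * c)

/-- K1A. One-dimensional `U = ⟨c⟩`, frames of type A.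

PROOF. `T = p + q + t`, `∑ WA = T + μ + ν`.  `c 5 ≠ 0`: `i₀ = 5`, weight 0.  `c 4 ≠ 0` or `c 3 ≠ 0`: `i₀ = 4` or
`3`.  Otherwise the support of `c` is in `{0,1,2}` and has at least two elements.  Three: `i₀` of least
weight, `min p q t ≤ μ + ν` (`μ = z, ν = z'`: `= t`; `μ = p + z'`: `≥ p`; `ν = z + q`: `≥ q`).  Two: the second
alternative, `i₀` of least weight. -/
def SpecK1A : Prop := ∀ (k : Type) [Field k] (c : Fin 6 → k),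
  (∀ i : Fin 6, (i : ℕ) < 3 → ∃ j, j ≠ i ∧ c j ≠ 0) →
  ∀ p q z z' : ℝ, 0 ≤ p → 0 ≤ q → 0 ≤ z → 0 ≤ z' → ∃ i₀, c i₀ ≠ 0 ∧
    (p + q + z + z' ≤ ∑ i, WA p q z z' i - WA p q z z' i₀ ∨
      ∃ i₁ i₂ : Fin 6, (i₁ : ℕ) < 3 ∧ (i₂ : ℕ) < 3 ∧ i₁ ≠ i₂ ∧ (∀ i, c i ≠ 0 ↔ i = i₁ ∨ i = i₂) ∧
        p + q + z + z' ≤ ∑ i, WA p q z z' i - WA p q z z' i₀ + WA p q z z' i₁ ∧
        p + q + z + z' ≤ ∑ i, WA p q z z' i - WA p q z z' i₀ + WA p q z z' i₂)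

/-- K1D. The same with the data `α, β` of a frame of type A1.

PROOF. `∑ WA1 = T + α + β`, `T = p + q + α + β`.  `c 5`, `c 4`, `c 3`, or `c 2` is not 0: take it, its weight is
`0, α, β, α + β`.  Otherwise the support is `{0, 1}`: `i₀` of least weight. -/
def SpecK1D : Prop := ∀ (k : Type) [Field k] (c : Fin 6 → k),
  (∀ i : Fin 6, (i : ℕ) < 3 → ∃ j, j ≠ i ∧ c j ≠ 0) →
  ∀ p q α β : ℝ, 0 ≤ α → α ≤ p → 0 ≤ β → β ≤ q → ∃ i₀, c i₀ ≠ 0 ∧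
    (p + q + α + β ≤ ∑ i, WA1 p q α β i - WA1 p q α β i₀ ∨
      ((∀ i, c i ≠ 0 ↔ i = 0 ∨ i = 1) ∧
        p + q + α + β ≤ ∑ i, WA1 p q α β i - WA1 p q α β i₀ + WA1 p q α β 0 ∧
        p + q + α + β ≤ ∑ i, WA1 p q α β i - WA1 p q α β i₀ + WA1 p q α β 1))

/-- K1B. The same for frames of type B.

PROOF. `∑ WB = T + W 3 + W 4 + W 5`, `T = p + p' + q + q'`.  If `c 2`, `c 3`, `c 4` or `c 5` is not 0: take it.
Otherwise the support is `{0, 1}`: `i₀` of least weight. -/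
def SpecK1B : Prop := ∀ (k : Type) [Field k] (c : Fin 6 → k),
  (∀ i : Fin 6, (i : ℕ) < 3 → ∃ j, j ≠ i ∧ c j ≠ 0) →
  ∀ p p' q q' : ℝ, 0 ≤ p → 0 ≤ p' → 0 ≤ q → 0 ≤ q' → ∃ i₀, c i₀ ≠ 0 ∧
    (p + p' + q + q' ≤ ∑ i, WB p p' q q' i - WB p p' q q' i₀ ∨
      ((∀ i, c i ≠ 0 ↔ i = 0 ∨ i = 1) ∧
        p + p' + q + q' ≤ ∑ i, WB p p' q q' i - WB p p' q q' i₀ + WB p p' q q' 0 ∧
        p + p' + q + q' ≤ ∑ i, WB p p' q q' i - WB p p' q q' i₀ + WB p p' q q' 1))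

/-- UNP. Uniqueness of the pair of lines.

PROOF. Suppose `r ≠ r'` and `r ≠ s'`.  Let `x ≠ 0` with `ℓ_{r'}(x) = ℓ_{s'}(x) = 0`.  For all `y`, pairing both
sides with `sq x y` (`sqv c ⬝ᵥ sq x y = c(x) c(y)`): `a ℓ_r(x) ℓ_r(y) + b ℓ_s(x) ℓ_s(y) = 0`.  `ℓ_r, ℓ_s` are
linearly independent (general position; if `q = 2` then `r ∈ {r', s'}` anyway), so `ℓ_r(x) = 0`.  Then `x` is
on the three lines `r, r', s'`, against general position. -/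
def SpecUNP : Prop := ∀ (k : Type) [Field k] (q : ℕ) (ℓ : Fin q → Fin 3 → k),
  (∀ i j l, i ≠ j → i ≠ l → j ≠ l → LinearIndependent k ![ℓ i, ℓ j, ℓ l]) →
  ∀ (r s r' s' : Fin q) (a b a' b' : k), r ≠ s → r' ≠ s' → a ≠ 0 → b ≠ 0 → a' ≠ 0 → b' ≠ 0 →
  a • sqv (ℓ r) + b • sqv (ℓ s) = a' • sqv (ℓ r') + b' • sqv (ℓ s') → r = r' ∨ r = s'

end Pool.Agent.Lib.MP_d0e829_nt.SS
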