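import Pool.Agent.Lib.MP_d0e829_nt.SS.CDefs

/-!
# Part C, frames: specification of `SpecFRM` (helper76)

All modules are independent: file `SS/XXX.lean`, `import Pool.Agent.Lib.MP_d0e829_nt.SS.SpecF`,
namespace `Pool.Agent.Lib.MP_d0e829_nt.SS`, `theorem specXXX (hYYY : SpecYYY) ... : SpecXXX` with the
hypotheses in the order of `uses`, own lemmas in a namespace `XXXM`.

Notation: `c(x) = evalForm c x`; `lam av c x = log ‖x‖ - log |c(x)|`, `‖x‖ = nav av x`.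
-/

set_option autoImplicit false

open NumberField

namespace Pool.Agent.Lib.MP_d0e829_nt.SS

open scoped Classical

/-- The data of a point and its conjugate in an extension of the absolute value `v`. -/
structure LD {k : Type} [Field k] [NumberField k] (v : Place k) (F : Type) [Field F] [Algebra k F]
    (av : F → ℝ) (x x' : Fin 3 → F) (f : Fin 6 → k) : Prop where
  ext : ExtAbs v F av
  hx : x ≠ 0
  hx' : x' ≠ 0
  hf : ∀ j, algebraMap k F (f j) = sq x x' j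

/-- **FUP** (60 lines).  Upper bound for the values of a form.
Proof.  `|c(x)| ≤ 4^(sw v) max_j |c_j|_v |x_j| ≤ e^C ‖x‖` with
`C = max 0 (log (4^(sw v) (1 + nrm v c)))` (`ExtAbs.add` twice, `mul`, `ext`); `‖x‖ > 0` as some
`x_j ≠ 0`. -/
def SpecFUP : Prop := ∀ (k : Type) [Field k] [NumberField k] (c : Fin 3 → k) (v : Place k),
  ∃ C : ℝ, 0 ≤ C ∧ ∀ (F : Type) [Field F] [Algebra k F] (av : F → ℝ) (x : Fin 3 → F),
    ExtAbs v F av → x ≠ 0 → av (evalForm c x) ≤ Real.exp C * nav av x ∧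
      (evalForm c x ≠ 0 → -C ≤ lam av c x)

/-- **FLW** (90 lines).  Three independent forms are not all small at `x`.
Proof.  Let `|x_j| = ‖x‖`.  `x_j = ∑_i (B⁻¹)_(j i) B_i(x)` (map of `B⁻¹ * B = 1`), so
`‖x‖ ≤ 4^(sw v) (1 + max |(B⁻¹)_(j i)|_v) max_i |B_i(x)|`; take `i` with `|B_i(x)|` maximal. -/
def SpecFLW : Prop := ∀ (k : Type) [Field k] [NumberField k] (B : Matrix (Fin 3) (Fin 3) k),
  B.det ≠ 0 → ∀ v : Place k, ∃ C : ℝ, 0 ≤ C ∧
    ∀ (F : Type) [Field F] [Algebra k F] (av : F → ℝ) (x : Fin 3 → F),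
    ExtAbs v F av → x ≠ 0 → ∃ i, nav av x ≤ Real.exp C * av (evalForm (B i) x)

/-- **FNM** (160 lines, uses FLW).  `‖f‖_v` and `‖x‖ ‖x'‖` are equal up to constants.
Proof.  `nrm v f = max_j absV v (f j) = max_j |sq x x' j| ≤ 2^(sw v) ‖x‖ ‖x'‖` (`ext`, `mul`, `add`).
Lower bound: `c_t = (1, t, t²) ∈ k³`, `t = 0, 1, 2, 3, 4`.  Any three of them form a matrix with
nonzero (Vandermonde) determinant; let `C1` be the maximum of the constants of FLW for the ten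
triples.  Call `t` bad for `x` if `e^(C1) |c_t(x)| < ‖x‖`; by FLW at most two `t` are bad for `x` and at
most two for `x'`, so some `t` is good for both.  `c_t(x) c_t(x') = algebraMap (sqv c_t ⬝ᵥ f)`
(expand both sides, `hf`), so `‖x‖ ‖x'‖ ≤ e^(2 C1) absV v (sqv c_t ⬝ᵥ f) ≤
e^(2 C1) 6^(sw v) (max_(t, j) |(sqv c_t)_j|_v) nrm v f` (`absV_sum_le`).  In particular
`nrm v f > 0`. -/
def SpecFNM : Prop := ∀ (k : Type) [Field k] [NumberField k] (v : Place k),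
  ∃ C : ℝ, 0 ≤ C ∧ ∀ (F : Type) [Field F] [Algebra k F] (av : F → ℝ) (x x' : Fin 3 → F)
    (f : Fin 6 → k), LD v F av x x' f → 0 < nrm v f ∧
      Real.log (nav av x) + Real.log (nav av x') ≤ Real.log (nrm v f) + C ∧
      Real.log (nrm v f) ≤ Real.log (nav av x) + Real.log (nav av x') + C

/-- **FGL** (130 lines, uses FNM).  The inequalities `Ge`, `Le` from the numbers `lam`.
Proof.  `algebraMap (sqv c ⬝ᵥ f) = c(x) c(x')` and `algebraMap (mix c d ⬝ᵥ f) = c(x) d(x') + d(x) c(x')`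
(expand, `hf`).  `|c(x)| = exp (log ‖x‖ - lam c x)` for `c(x) ≠ 0`.  So
`absV v (sqv c ⬝ᵥ f) = exp (log ‖x‖ + log ‖x'‖ - lam c x - lam c x')`; compare with `FNM`.
`absV v (mix c d ⬝ᵥ f) ≤ 2^(sw v) exp (log ‖x‖ + log ‖x'‖ - min (lam c x + lam d x')
(lam d x + lam c x'))` (`ExtAbs.add`).  `C = C_FNM + sw v * log 2` (`sw_nonneg`). -/
def SpecFGL : Prop := ∀ (k : Type) [Field k] [NumberField k] (v : Place k),
  ∃ C : ℝ, 0 ≤ C ∧ ∀ (F : Type) [Field F] [Algebra k F] (av : F → ℝ) (x x' : Fin 3 → F)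
    (f : Fin 6 → k), LD v F av x x' f →
    (∀ c : Fin 3 → k, evalForm c x ≠ 0 → evalForm c x' ≠ 0 → ∀ w : ℝ,
      (w + C ≤ lam av c x + lam av c x' → Ge v (sqv c) f w) ∧
      (lam av c x + lam av c x' + C ≤ w → Le v (sqv c) f w)) ∧
    (∀ c d : Fin 3 → k, evalForm c x ≠ 0 → evalForm c x' ≠ 0 → evalForm d x ≠ 0 →
      evalForm d x' ≠ 0 → ∀ w : ℝ, w + C ≤ lam av c x + lam av d x' →
      w + C ≤ lam av d x + lam av c x' → Ge v (mix c d) f w)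

/-- **FT2** (110 lines, uses FUP, FLW).  The two lines nearest to `x`.
Proof.  `C` = maximum of the constants of FUP for the `ℓ l` and of FLW for the matrices with rows
`ℓ i, ℓ j, ℓ l` (distinct indices; nonzero determinant since the rows are independent).  Let `i`
maximise `lam (ℓ i) x`, and `j` among the indices `≠ i`.  For `l ≠ i, j`, FLW for `ℓ i, ℓ j, ℓ l` says
that one of the three numbers `lam` is `≤ C` (take logarithms), and `lam (ℓ l) x` is the least. -/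
def SpecFT2 : Prop := ∀ (k : Type) [Field k] [NumberField k] (q : ℕ), 3 ≤ q →
  ∀ ℓ : Fin q → Fin 3 → k,
  (∀ i j l, i ≠ j → i ≠ l → j ≠ l → LinearIndependent k ![ℓ i, ℓ j, ℓ l]) → ∀ v : Place k,
  ∃ C : ℝ, 0 ≤ C ∧ ∀ (F : Type) [Field F] [Algebra k F] (av : F → ℝ) (x : Fin 3 → F),
    ExtAbs v F av → x ≠ 0 → (∀ i, evalForm (ℓ i) x ≠ 0) →
    (∀ l, -C ≤ lam av (ℓ l) x) ∧ ∃ i j, i ≠ j ∧ lam av (ℓ j) x ≤ lam av (ℓ i) x ∧
      ∀ l, l ≠ i → l ≠ j → lam av (ℓ l) x ≤ C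

/-- **FZF** (90 lines).  The line through two intersection points.
Proof.  The four vectors `ℓ i, ℓ j, ℓ i', ℓ j'` of `k³` are dependent:
`a ℓ_i + b ℓ_j = a' ℓ_i' + b' ℓ_j' =: Z` with not all of `a, b, a', b'` zero.  If `Z = 0` then
`a = b = a' = b' = 0` (any two of the vectors are independent, being two of three independent ones).
`b ≠ 0`: otherwise `a ≠ 0` and `ℓ_i, ℓ_i', ℓ_j'` are dependent.  Independence of `ℓ_i, ℓ_i', Z`:
`α ℓ_i + β ℓ_i' + γ Z = 0` gives `(α + γ a) ℓ_i + β ℓ_i' + γ b ℓ_j = 0`, so `β = 0`, `γ = 0`,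
`α = 0`. -/
def SpecFZF : Prop := ∀ (k : Type) [Field k] (q : ℕ) (ℓ : Fin q → Fin 3 → k),
  (∀ i j l, i ≠ j → i ≠ l → j ≠ l → LinearIndependent k ![ℓ i, ℓ j, ℓ l]) →
  ∀ i j i' j' : Fin q, i ≠ j → i ≠ i' → i ≠ j' → j ≠ i' → j ≠ j' → i' ≠ j' →
  ∃ (Z : Fin 3 → k) (a b a' b' : k), Z ≠ 0 ∧ Z = a • ℓ i + b • ℓ j ∧ Z = a' • ℓ i' + b' • ℓ j' ∧
    LinearIndependent k ![ℓ i, ℓ i', Z]

/-- **FZB** (50 lines).  Lower bound for `lam` of a combination.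
Proof.  `|a c(x) + b d(x)| ≤ 2^(sw v) (1 + |a|_v + |b|_v) max (|c(x)|, |d(x)|)`, take logarithms;
`C = max 0 (log (2^(sw v) (1 + |a|_v + |b|_v)))`. -/
def SpecFZB : Prop := ∀ (k : Type) [Field k] [NumberField k] (c d : Fin 3 → k) (a b : k)
  (v : Place k), ∃ C : ℝ, 0 ≤ C ∧ ∀ (F : Type) [Field F] [Algebra k F] (av : F → ℝ)
    (x : Fin 3 → F), ExtAbs v F av → x ≠ 0 → evalForm c x ≠ 0 → evalForm d x ≠ 0 →
    evalForm (a • c + b • d) x ≠ 0 →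
    min (lam av c x) (lam av d x) - C ≤ lam av (a • c + b • d) x

/-- **FCA** (110 lines, uses FGL).  Frames of type A.
Proof.  `C1` from FGL.  Write `X, Y, Z = B 0, B 1, B 2`, `p = max (lam X x) 0`,
`q = max (lam Y x') 0`, `z = max (lam Z x) 0`, `z' = max (lam Z x') 0`; for each of the six numbers
`lam ≤ max lam 0 ≤ lam + C0`.  With `C = 2 C0 + C1` (indices `0..5`: `XX, YY, ZZ, YZ, XZ, XY`):
`XX`: `p - C + C1 ≤ lam X x + lam X x'`, `p + C ≥ lam X x + lam X x' + C1` (`|lam X x'| ≤ C0`);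
`YY` the same with `q`, `x ↔ x'`; `ZZ`: `z + z' - C + C1 ≤ lam Z x + lam Z x' ≤ z + z' + C - C1`;
`YZ`: `min z' (z + q) - C + C1` is `≤ lam Y x + lam Z x'` (`z' ≤ lam Z x' + C0`, `lam Y x ≥ -C0`) and
`≤ lam Z x + lam Y x'`; `XZ`: `min z (p + z') - C + C1` is `≤ lam X x + lam Z x'` and
`≤ lam Z x + lam X x'`; `XY`: `-C + C1 ≤ -2 C0`. -/
def SpecFCA : Prop := ∀ (k : Type) [Field k] [NumberField k] (v : Place k),
  ∃ C1 : ℝ, 0 ≤ C1 ∧ ∀ C0 : ℝ, 0 ≤ C0 → ∀ (F : Type) [Field F] [Algebra k F] (av : F → ℝ)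
    (x x' : Fin 3 → F) (f : Fin 6 → k), LD v F av x x' f →
    ∀ (B : Matrix (Fin 3) (Fin 3) k) (T : ℝ),
    (∀ i, evalForm (B i) x ≠ 0 ∧ evalForm (B i) x' ≠ 0) →
    (∀ i, -C0 ≤ lam av (B i) x ∧ -C0 ≤ lam av (B i) x') →
    lam av (B 0) x' ≤ C0 → lam av (B 1) x ≤ C0 →
    T ≤ lam av (B 0) x + lam av (B 1) x' + lam av (B 2) x + lam av (B 2) x' + C0 →
    FrA v B f T (2 * C0 + C1)

/-- **FC1** (90 lines, uses FGL).  Additional data of frames of type A1.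
Proof.  `α = max μ 0`, `β = max μ' 0`, `p = max (lam X x) 0`, `q = max (lam Y x') 0`,
`C = 2 C0 + C1`.  `0 ≤ α ≤ p ≤ lam X x + C0`, `α ≤ lam Z x + C0` (from `μ - C0 ≤ lam Z x` and
`-C0 ≤ lam Z x`), the same for `β, q, x'`.  `XX`, `YY` as in FCA; `ZZ`:
`α + β ≤ lam Z x + lam Z x' + 2 C0`; `YZ`: `β ≤ lam Y x + lam Z x' + 2 C0`,
`β ≤ q ≤ lam Z x + lam Y x' + 2 C0`; `XZ`: `α ≤ p ≤ lam X x + lam Z x' + 2 C0`,
`α ≤ lam Z x + lam X x' + 2 C0`; `XY`: `0 ≤ ... + 2 C0`. -/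
def SpecFC1 : Prop := ∀ (k : Type) [Field k] [NumberField k] (v : Place k),
  ∃ C1 : ℝ, 0 ≤ C1 ∧ ∀ C0 : ℝ, 0 ≤ C0 → ∀ (F : Type) [Field F] [Algebra k F] (av : F → ℝ)
    (x x' : Fin 3 → F) (f : Fin 6 → k), LD v F av x x' f →
    ∀ (B : Matrix (Fin 3) (Fin 3) k) (T μ μ' : ℝ),
    (∀ i, evalForm (B i) x ≠ 0 ∧ evalForm (B i) x' ≠ 0) →
    (∀ i, -C0 ≤ lam av (B i) x ∧ -C0 ≤ lam av (B i) x') →
    μ ≤ lam av (B 0) x → μ' ≤ lam av (B 1) x' → μ - C0 ≤ lam av (B 2) x →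
    μ' - C0 ≤ lam av (B 2) x' →
    T ≤ lam av (B 0) x + lam av (B 1) x' + μ + μ' + C0 → FrA1 v B f T (2 * C0 + C1)

/-- **FCB** (110 lines, uses FGL).  Frames of type B.
Proof.  `p = max (lam X x) 0`, `p' = max (lam X x') 0`, `q = max (lam Y x) 0`,
`q' = max (lam Y x') 0`, `|lam Z x|, |lam Z x'| ≤ C0`, `C = 2 C0 + C1`.  `XX`:
`p + p' - C + C1 ≤ lam X x + lam X x' ≤ p + p' + C - C1`; `YY` the same; `ZZ`:
`-C + C1 ≤ lam Z x + lam Z x' ≤ C - C1`; `YZ`: `min q q' - C + C1` is `≤ lam Y x + lam Z x'` and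
`≤ lam Z x + lam Y x'`; `XZ` the same with `p, p'`; `XY`: `min (p + q') (q + p') - C + C1` is
`≤ lam X x + lam Y x'` and `≤ lam Y x + lam X x'`. -/
def SpecFCB : Prop := ∀ (k : Type) [Field k] [NumberField k] (v : Place k),
  ∃ C1 : ℝ, 0 ≤ C1 ∧ ∀ C0 : ℝ, 0 ≤ C0 → ∀ (F : Type) [Field F] [Algebra k F] (av : F → ℝ)
    (x x' : Fin 3 → F) (f : Fin 6 → k), LD v F av x x' f →
    ∀ (B : Matrix (Fin 3) (Fin 3) k) (T : ℝ),
    (∀ i, evalForm (B i) x ≠ 0 ∧ evalForm (B i) x' ≠ 0) →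
    (∀ i, -C0 ≤ lam av (B i) x ∧ -C0 ≤ lam av (B i) x') →
    lam av (B 2) x ≤ C0 → lam av (B 2) x' ≤ C0 →
    T ≤ lam av (B 0) x + lam av (B 0) x' + lam av (B 1) x + lam av (B 1) x' + C0 →
    FrB v B f T (2 * C0 + C1)

/-- **FRM** (220 lines, uses FUP, FT2, FZF, FZB, FCA, FC1, FCB; proves `SpecFRM` of `CDefs.lean`).
Proof.  For pairwise distinct `(i, j, i', j')` choose `Z_(i,j,i',j')`, `a, b, a', b'` by FZF.  `M` = the
finite set of these `Z`; `BB` = all matrices with rows `ℓ i, ℓ j, ℓ l` (distinct indices) and all with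
rows `ℓ i, ℓ i', Z_(i,j,i',j')`; determinants are not zero as the rows are independent.
Fix `v`.  `C'` = a common upper bound of the constants of FT2, of FUP for the `ℓ l` and the `Z`, of FZB
for `Z = a ℓ_i + b ℓ_j` and `Z = a' ℓ_i' + b' ℓ_j'` (finitely many); `C0 = (2 q + 1) C'`;
`C = 2 C0 + (the maximum of the C1 of FCA, FC1, FCB)` (`FrA, FrA1, FrB, Fr` are monotone in `C`).
Given `LocPair` with `x, x'`: FT2 gives `i, j` for `x` and `i', j'` for `x'`, so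
`T ≤ lam_i x + lam_j x + lam_i' x' + lam_j' x' + 2 q C'`.
Case B: `{i, j} = {i', j'}`: `B` = rows `ℓ i, ℓ j, ℓ l` with a third index `l` (`q ≥ 3`): FCB.
Case A2: exactly one common index `s`: `x: {s, a}`, `x': {s, b}`, `B` = rows `ℓ a, ℓ b, ℓ s`: FCA
(`lam_a x' ≤ C'` as `a ∉ {i', j'}`, `lam_b x ≤ C'`).
Case A1: four distinct indices: `B` = rows `ℓ i, ℓ i', Z`: FCA with
`lam_j x ≤ lam_Z x + C'` (FZB, `min (lam_i x) (lam_j x) = lam_j x`), `lam_j' x' ≤ lam_Z x' + C'`,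
and FC1 with `μ = lam_j x`, `μ' = lam_j' x'`. -/
def SpecFRMX : Prop := SpecFRM

end Pool.Agent.Lib.MP_d0e829_nt.SS
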