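import Pool.Agent.Lib.MP_d0e829_nt.SS.DefsR
import Pool.Agent.Lib.MP_d0e829_nt.SS.DefsB

/-!
# Roth's lemma over a number field (part R of the Subspace theorem)

Target: `SpecRL` (`DefsB.lean`, the interface used by part B). Definitions: `DefsR.lean` (`dd`,
`bin`, `wtR`, `RothAt`, `ht1`), calculus of the divided derivatives: `RDER.lean` (module RDER,
helper69; every other module of this part may import it; statements also in the store:
SS_RDER_statements.lean). The number field enters only through the points, all polynomials have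
integer coefficients.

Modules: file `SS/RXXX.lean`, import `SS.SpecR` and `SS.RDER`, namespace
`Pool.Agent.Lib.MP_d0e829_nt.SS`, `theorem specRXXX (hRYYY : SpecRYYY) … : SpecRXXX` (hypotheses in
the order named after the word from), own lemmas in a namespace `RXXXM`.

Overview. `RothAt d A ξ ε`: every `0 ≠ P ∈ ℤ[x_i]`, `deg_i P ≤ d_i`, `|coefficients| ≤ e^A`, has a
divided derivative of weighted order `≤ ε` not vanishing at `ξ`.
* RGAU, RBAS: one variable (Gauss lemma + Mahler measure).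
* RSTP: from `σ` and one variable to `σ ⊕ Unit` by generalised Wronskians (RANN, RWRO, RDEC, RWDT,
  size RSIZ, separation RFAC, index RLOW).
* RCLA: the classical lemma of Roth, by induction on the number of variables.
* RHTS, RALG, RRED: blocks of `N` variables and hyperplanes (`SpecRL`).
-/

set_option autoImplicit false

open MvPolynomial

namespace Pool.Agent.Lib.MP_d0e829_nt.SS

noncomputable section

/-- **RGAU** (a factor `(X - ξ)^e` at one place). `p ∈ ℤ[X]`, `deg p ≤ d`, coefficients `≤ e^A`,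
`p = (X - ξ)^e q` in `K[X]`. Then `max(1, |ξ|_w)^e |q_i|_w ≤ exp (sw w (A + d log 4))` for every
place `w` and every coefficient of `q` (`sw w = weight w` for infinite, `0` for finite `w`).

Proof. We may assume `p ≠ 0` (otherwise `q = 0`).
* `w` finite: Gauss' lemma (`Polynomial.gaussNorm_mul` with `c = 1` for the nonarchimedean absolute
  value `w`, `gaussNorm` of `X - ξ` is `max(1, w ξ)`; or by hand: it is enough to treat `e = 1`
  with `p ∈ K[X]`, and `(X - ξ) q = p` gives `max_i |q_i| · max(1,|ξ|) ≤ max_i |p_i|`, reading the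
  coefficients from the top if `|ξ| ≤ 1` and from the bottom if `|ξ| > 1`): the product of the
  (unnormalised) Gauss norms is that of `p`, which is `≤ 1` because the coefficients are integers.
  Raise to the power `weight w`.
* `w` infinite, `φ` its embedding, `w a = ‖φ a‖`: Mahler measures (`Polynomial.mahlerMeasure_mul`,
  `mahlerMeasure_X_sub_C`, `norm_coeff_le_choose_mul_mahlerMeasure`,
  `mahlerMeasure_le_sum_norm_coeff`): `‖φ q_i‖ ≤ 2^d M(φ q)`, hence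
  `max(1,‖φ ξ‖)^e ‖φ q_i‖ ≤ 2^d M(X - φ ξ)^e M(φ q) = 2^d M(p) ≤ 2^d (d+1) e^A ≤ 4^d e^A`.
  Raise to the power `weight w` (`absV w a = (rawAbs w a) ^ weight w`). -/
def SpecRGAU : Prop :=
  ∀ (K : Type) [Field K] [NumberField K] (w : Place K) (d e : ℕ) (A : ℝ) (ξ : K)
    (p : Polynomial ℤ) (q : Polynomial K), 0 ≤ A → p.natDegree ≤ d →
    (∀ i, |((p.coeff i : ℤ) : ℝ)| ≤ Real.exp A) →
    p.map (Int.castRingHom K) = (Polynomial.X - Polynomial.C ξ) ^ e * q →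
    ∀ i, max 1 (absV w ξ) ^ e * absV w (q.coeff i) ≤ Real.exp (sw w * (A + d * Real.log 4))

/-- **RBAS** (one variable; from RGAU). Let `1 ≤ d`, `0 ≤ A`, `0 < ε`, `ξ ∈ K` and
`(2/ε) (A + d) < d · ht1 ξ`. Then `RothAt` holds for one variable.

Proof. Let `p ∈ ℤ[X]` be the one-variable polynomial of `P` (`MvPolynomial.uniqueAlgEquiv` or
`pUnitAlgEquiv`; `natDegree p ≤ d`, coefficients `≤ e^A`, `p ≠ 0`). By `aeval_dd` the number
`aeval ξ (dd J P)` is the coefficient of `Y^(J ())` in `p(ξ + Y)`, i.e. the coefficient number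
`J ()` of `Polynomial.taylor ξ (p.map _)`. Suppose that these vanish for all `j ≤ ε d` (i.e.
`wtR (fun _ => d) J ≤ ε`) and let `e = ⌊ε d⌋ + 1 > ε d`. Then `p = (X - ξ)^e q` in `K[X]`, `q ≠ 0`
(`X^e ∣ taylor ξ p`, apply `taylor (-ξ)`). Let `q_i ≠ 0`. RGAU for every place `w`, logarithms,
sum over all places (`product_formula` for `q_i`, `finsum_sw`, `finsum_mono`; finite support of
`w ↦ log max(1,|ξ|_w)`: `support_log_nrm_finite` for the vector `![ξ, 1]`, or the finite support of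
`log |ξ|_w`): `e · ht1 ξ ≤ A + d log 4 ≤ 2 (A + d)`. Since `e > ε d` and `ht1 ξ > 0` (it follows
from the hypothesis), `ε d · ht1 ξ ≤ e · ht1 ξ ≤ 2 (A + d)`, against the hypothesis. -/
def SpecRBAS : Prop :=
  ∀ (K : Type) [Field K] [NumberField K] (d : ℕ) (A ε : ℝ) (ξ : K), 1 ≤ d → 0 ≤ A → 0 < ε →
    2 / ε * (A + d) < d * ht1 ξ → RothAt (fun _ : Unit => d) A (fun _ => ξ) ε

/-- the relations of the derivatives of order `≤ r` of the `f_j` -/
def annR {σ : Type} [Fintype σ] {k : ℕ} (f : Fin k → MvPolynomial σ ℚ) (r : ℕ) :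
    Set (Fin k → MvPolynomial σ ℚ) :=
  {a | ∀ μ : σ →₀ ℕ, ∑ s, μ s ≤ r → ∑ j, a j * dd μ (f j) = 0}

/-- **RANN** (a stable relation module is zero). `f_0, …, f_(k-1) ∈ ℚ[x_σ]` linearly independent over
`ℚ`, `Ann_r ⊆ Ann_(r+1)`. Then `Ann_r = 0`.

Proof. `Ann_r` is stable under the partial derivatives `∂_s` (applied to the coordinates): for
`a ∈ Ann_r` (hence `a ∈ Ann_(r+1)`) and `|μ| ≤ r`,
`0 = ∂_s (∑_j a_j dd μ f_j) = ∑_j (∂_s a_j) dd μ f_j + (μ_s + 1) ∑_j a_j dd (μ + e_s) f_j`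
(`pderiv_dd`, `Derivation.leibniz`) and the last sum is `0`, as `|μ + e_s| ≤ r + 1`. Now strong
induction on `T(a) = ∑_j totalDegree a_j` for `a ∈ Ann_r`: claim `a = 0`. If all `a_j` have total
degree `0` they are constants `c_j` and (`μ = 0`, `dd_zero_idx`) `∑ c_j f_j = 0`, so `c = 0`.
Otherwise some `a_j` involves some variable `x_s`; then `∂_s a_j ≠ 0` (characteristic `0`), while
`totalDegree (∂_s a_i) ≤ totalDegree a_i` for all `i`, with `<` for `i = j` (each monomial of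
`∂_s a_j` comes from a monomial of degree one more). So `T(∂_s a) < T(a)`, `∂_s a ∈ Ann_r`, hence
`∂_s a = 0` by induction, against `∂_s a_j ≠ 0`. -/
def SpecRANN : Prop :=
  ∀ (σ : Type) [Fintype σ] (k : ℕ) (f : Fin k → MvPolynomial σ ℚ) (r : ℕ),
    LinearIndependent ℚ f → annR f r ⊆ annR f (r + 1) → ∀ a ∈ annR f r, a = 0

/-- **RWRO** (generalised Wronskians; from RANN). If `f_0, …, f_(k-1) ∈ ℚ[x_σ]` are linearly
independent over `ℚ`, then there are multi-orders `μ_i` with `|μ_i| ≤ i` and `det (dd μ_i f_j) ≠ 0`.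

Proof. Let `R = ℚ[x_σ]` and `F` its field of fractions (`FractionRing`), `V_r ⊆ F^k` the `F`-span of
the vectors `v_μ = (dd μ f_j)_j`, `|μ| ≤ r`. If `V_r ≠ F^k`, there is a nonzero linear functional on
`F^k` vanishing on `V_r`; clearing denominators gives `0 ≠ a ∈ Ann_r`. If moreover `V_r = V_(r+1)`
then `Ann_r ⊆ Ann_(r+1)` (an element of `Ann_r` is a functional vanishing on `V_r`), and RANN gives
`a = 0`, a contradiction. So `V_r = V_(r+1)` implies `V_r = F^k`. Since `V_0 ⊆ V_1 ⊆ …` and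
`V_0 ≠ 0` (for `k ≥ 1`: `f_0 ≠ 0`), `dim V_r ≥ r + 1` for `r + 1 ≤ k` (induction).
Choose `μ_0, μ_1, …` one after the other with `|μ_i| ≤ i` and `v_(μ_0), …, v_(μ_i)` linearly
independent over `F`: if `i < k` and `v_(μ_0), …, v_(μ_(i-1))` are chosen, their span has dimension
`i < i + 1 ≤ dim V_i`, so some `v_μ`, `|μ| ≤ i`, is outside their span
(`LinearIndependent.finSnoc`/`linearIndependent_finSnoc`). The matrix with the rows `v_(μ_i)` has
linearly independent rows over `F`, so its determinant is not `0` in `F`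
(`Matrix.linearIndependent_rows_iff_isUnit`), nor in `R` (`RingHom.map_det`). -/
def SpecRWRO : Prop :=
  ∀ (σ : Type) [Fintype σ] (k : ℕ) (f : Fin k → MvPolynomial σ ℚ), LinearIndependent ℚ f →
    ∃ μ : Fin k → (σ →₀ ℕ), (∀ i : Fin k, ∑ s, μ i s ≤ (i : ℕ)) ∧
      (Matrix.of fun i j : Fin k => dd (μ i) (f j)).det ≠ 0

/-- **RDEC** (shortest decomposition). `0 ≠ P ∈ ℚ[x_σ, y]`, `deg_y P ≤ e`. Then
`P = ∑_(j<k) f_j(x) g_j(y)`, `1 ≤ k ≤ e + 1`, `(f_j)` and `(g_j)` linearly independent.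

Proof. `P = ∑_(b ≤ e) p_b(x) y^b` (`MvPolynomial.sumAlgEquiv`, or: `p_b` = the sum of the monomials
of `P` with `y`-exponent `b`). The span `V` of `p_0, …, p_e` in `ℚ[x]` has dimension `k`,
`1 ≤ k ≤ e + 1` (`P ≠ 0`). Let `f_1, …, f_k` be a basis of `V` (`Module.finBasis`,
`Module.finBasisOfFinrankEq`), `p_b = ∑_j c_(b,j) f_j` and `g_j = ∑_b c_(b,j) y^b`. Then
`P = ∑_j f_j g_j`, the `f_j` are independent. If `∑_j λ_j g_j = 0` then `∑_j λ_j c_(b,j) = 0` for all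
`b`, i.e. the linear functional `f ↦ ∑_j λ_j f^*_j(f)` of `V` vanishes at all `p_b`, hence on `V`,
hence `λ = 0`. -/
def SpecRDEC : Prop :=
  ∀ (σ : Type) [Fintype σ] (e : ℕ) (P : MvPolynomial (σ ⊕ Unit) ℚ), P ≠ 0 →
    degreeOf (Sum.inr ()) P ≤ e →
    ∃ k : ℕ, 1 ≤ k ∧ k ≤ e + 1 ∧ ∃ (f : Fin k → MvPolynomial σ ℚ) (g : Fin k → MvPolynomial Unit ℚ),
      LinearIndependent ℚ f ∧ LinearIndependent ℚ g ∧
      P = ∑ j, rename Sum.inl (f j) * rename Sum.inr (g j)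

/-- The determinant of the divided derivatives of `P` of the orders `L i l`. -/
def wdet {τ R : Type} [CommRing R] {k : ℕ} (L : Fin k → Fin k → (τ →₀ ℕ)) (P : MvPolynomial τ R) :
    MvPolynomial τ R :=
  (Matrix.of fun i l : Fin k => dd (L i l) P).det

/-- **RWDT** (from RWRO, RDEC). `0 ≠ P ∈ ℤ[x_σ, y]`, `deg_y P ≤ e`. There are `1 ≤ k ≤ e + 1` and
orders `μ_i` (for `x`), `ν_l` (for `y`), `|μ_i| ≤ i`, `|ν_l| ≤ l`, such that
`W = det (dd (μ_i, ν_l) P)` is not `0` and over `ℚ` is a product `u(x) v(y)`.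

Proof. Let `P_ℚ = map (Int.castRingHom ℚ) P ≠ 0` (`map_injective`), the same degree in `y`. Take
`k, f, g` from RDEC, `μ` from RWRO for `f` and `ν` from RWRO for `g` (`σ := Unit`). By `dd_sum` and
`dd_sum_mul`: `dd (μ_i, ν_l) P_ℚ = ∑_j rename inl (dd μ_i f_j) · rename inr (dd ν_l g_j)`, i.e. the
matrix `(dd (μ_i, ν_l) P_ℚ)_(i,l)` is `A Bᵀ` with `A = (rename inl (dd μ_i f_j))_(i,j)`,
`B = (rename inr (dd ν_l g_j))_(l,j)`. So its determinant is `rename inl u · rename inr v` with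
`u = det (dd μ_i f_j) ≠ 0`, `v = det (dd ν_l g_j) ≠ 0` (`RingHom.map_det`, `Matrix.det_mul`,
`det_transpose`), not `0` as `rename` is injective. And `map _ W` is this determinant (`dd_map`,
`RingHom.map_det`). -/
def SpecRWDT : Prop :=
  ∀ (σ : Type) [Fintype σ] (e : ℕ) (P : MvPolynomial (σ ⊕ Unit) ℤ), P ≠ 0 →
    degreeOf (Sum.inr ()) P ≤ e →
    ∃ k : ℕ, 1 ≤ k ∧ k ≤ e + 1 ∧ ∃ (μ : Fin k → (σ →₀ ℕ)) (ν : Fin k → (Unit →₀ ℕ)),
      (∀ i : Fin k, ∑ s, μ i s ≤ (i : ℕ)) ∧ (∀ l : Fin k, ν l () ≤ (l : ℕ)) ∧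
      wdet (fun i l => Finsupp.sumElim (μ i) (ν l)) P ≠ 0 ∧
      ∃ (u : MvPolynomial σ ℚ) (v : MvPolynomial Unit ℚ),
        map (Int.castRingHom ℚ) (wdet (fun i l => Finsupp.sumElim (μ i) (ν l)) P) =
          rename Sum.inl u * rename Sum.inr v

/-- **RSIZ** (size of the determinant). `deg_i P ≤ d_i`, coefficients `≤ e^A`. Then
`W = det (dd (L i l) P)` (`k × k`) has `deg_i W ≤ k d_i` and coefficients
`≤ exp (k (A + k + 2 ∑ d_i))`.

Proof. Let `N₁(P) = ∑_J |coeff_J P|`; it is subadditive and submultiplicative. The number of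
monomials of `P` is at most `∏ (d_i + 1) ≤ 2^(∑ d_i)`, so `N₁(P) ≤ 2^(∑ d_i) e^A`. By `coeff_dd` the
coefficients of `dd J P` are `bin (α + J) J · coeff_(α+J) P` with `bin (α+J) J ≤ 2^(∑ (α+J)_i)
≤ 2^(∑ d_i)` if `α + J ∈ support P`, and `α ↦ α + J` is injective: `N₁(dd J P) ≤ 2^(∑ d_i) N₁(P)
≤ 4^(∑ d_i) e^A`. The determinant is a sum of `k!` products of `k` entries, with signs:
`N₁(W) ≤ k! (4^(∑ d_i) e^A)^k ≤ exp (k · k + k ∑ d_i · 2 + k A)`, as `k! ≤ k^k ≤ e^(k·k)` and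
`log 4 ≤ 2`. Degrees: `degreeOf_dd_le`, `degreeOf_mul_le`/`degreeOf_prod_le`, `degreeOf_sum_le`
(`Matrix.det_apply`). -/
def SpecRSIZ : Prop :=
  ∀ (τ : Type) [Fintype τ] (d : τ → ℕ) (A : ℝ) (P : MvPolynomial τ ℤ) (k : ℕ)
    (L : Fin k → Fin k → (τ →₀ ℕ)), 0 ≤ A → (∀ i, degreeOf i P ≤ d i) →
    (∀ J, |((coeff J P : ℤ) : ℝ)| ≤ Real.exp A) →
    (∀ i, degreeOf i (wdet L P) ≤ k * d i) ∧
    ∀ J, |((coeff J (wdet L P) : ℤ) : ℝ)| ≤ Real.exp (k * (A + k + 2 * ∑ i, (d i : ℝ)))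

/-- **RFAC** (separation). `0 ≠ W ∈ ℤ[x_σ, y]`, over `ℚ`: `W = u(x) v(y)`. Then there are nonzero
`U ∈ ℤ[x_σ]`, `V ∈ ℤ[y]` and `c ≠ 0` in `ℤ` with `U(x) V(y) = c W`; every coefficient of `U` and of
`V` is a coefficient of `W`, and `deg_i U ≤ deg_i W`, `deg V ≤ deg_y W`.

Proof. Pick `(α₀, b₀)` in the support of `W`; `c = coeff_(α₀,b₀) W = u_(α₀) v_(b₀) ≠ 0`. Let
`U = ∑_α coeff_(α,b₀)(W) x^α` (a finite sum over the `α` with `(α, b₀) ∈ support W`) and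
`V = ∑_b coeff_(α₀,b)(W) y^b`. Over `ℚ`: `coeff_(α,b) W = u_α v_b` (coefficients of
`rename inl u * rename inr v`), so `U = v_(b₀) u`, `V = u_(α₀) v` and
`rename inl U * rename inr V = u_(α₀) v_(b₀) W` over `ℚ`, hence over `ℤ` (`map_injective`). Nonzero:
both have the coefficient `c`. Degrees: `α_i ≤ deg_i W` for `(α, b₀) ∈ support W`. -/
def SpecRFAC : Prop :=
  ∀ (σ : Type) [Fintype σ] (W : MvPolynomial (σ ⊕ Unit) ℤ) (u : MvPolynomial σ ℚ)
    (v : MvPolynomial Unit ℚ), W ≠ 0 →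
    map (Int.castRingHom ℚ) W = rename Sum.inl u * rename Sum.inr v →
    ∃ (U : MvPolynomial σ ℤ) (V : MvPolynomial Unit ℤ) (c : ℤ), c ≠ 0 ∧ U ≠ 0 ∧ V ≠ 0 ∧
      rename Sum.inl U * rename Sum.inr V = C c * W ∧
      (∀ J, ∃ J', coeff J U = coeff J' W) ∧ (∀ J, ∃ J', coeff J V = coeff J' W) ∧
      (∀ i, degreeOf i U ≤ degreeOf (Sum.inl i) W) ∧ degreeOf () V ≤ degreeOf (Sum.inr ()) W

/-- **RLOW** (index of a determinant from below). If all `dd J P` with `wtR d J ≤ θ` vanish at `ξ`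
and some `dd J W`, `W = det (dd (L i l) P)`, does not, then for a permutation `π` and a decomposition
`J = ∑ J'_i` all the weights `wtR d (J'_i + L i (π i))` are greater than `θ`.

Proof. `W = ∑_π sign π ∏_i dd (L i (π i)) P` (`Matrix.det_apply` for the transpose, or the
permutation `π⁻¹`). By `dd_sum` (and `dd_smul`/`dd_neg` for the sign) there is a `π` with
`aeval ξ (dd J (∏_i dd (L i (π i)) P)) ≠ 0`; by `dd_prod_ne_zero` there are `J'_i`, `∑ J'_i = J`,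
with `aeval ξ (dd (J'_i) (dd (L i (π i)) P)) ≠ 0` for all `i`. By `dd_dd` this number is
`bin · aeval ξ (dd (J'_i + L i (π i)) P)`, so `wtR d (J'_i + L i (π i)) > θ` by the hypothesis. -/
def SpecRLOW : Prop :=
  ∀ (K : Type) [Field K] (τ : Type) [Fintype τ] (d : τ → ℕ) (θ : ℝ) (P : MvPolynomial τ ℤ)
    (ξ : τ → K) (k : ℕ) (L : Fin k → Fin k → (τ →₀ ℕ)) (J : τ →₀ ℕ),
    (∀ J, wtR d J ≤ θ → aeval ξ (dd J P) = 0) → aeval ξ (dd J (wdet L P)) ≠ 0 →
    ∃ (π : Equiv.Perm (Fin k)) (J' : Fin k → (τ →₀ ℕ)), ∑ i, J' i = J ∧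
      ∀ i, θ < wtR d (J' i + L i (π i))

/-- **RSTP** (the induction step; from RWDT, RSIZ, RFAC, RLOW). Let `B = 2 (∑_i d_i + e)`.

Proof. Let `P ∈ ℤ[x_σ, y]` be as in `RothAt` and suppose that all `dd J P` with `wtR J ≤ ε` vanish at
`(ξ, η)`. RWDT gives `k`, `μ`, `ν`, `W ≠ 0`; RSIZ (with `τ = σ ⊕ Unit`): coefficients of `W` at most
`exp (k (A + k + B))`, degrees `≤ k d_i`, `≤ k e`. RFAC gives `U, V, c`. By the two hypotheses there
are `J₁` with `∑ J₁(i)/(k d_i) ≤ ε²/64`, `dd J₁ U` not vanishing at `ξ`, and `J₂` with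
`J₂/(k e) ≤ ε²/64`, `dd J₂ V` not vanishing at `η`. Let `J = (J₁, J₂)`. By `dd_sum_mul` and
`dd_C_mul`: `c · dd J W` does not vanish at `(ξ, η)`, so `dd J W` does not, and
`wtR J ≤ k ε²/32`. RLOW (`θ = ε`, `L i l = (μ_i, ν_l)`) gives `π`, `J'` with
`wtR J'_i > ε - wtR (μ_i, 0) - ν_(π i)/e ≥ 3ε/4 - (π i)/e`, because
`wtR (μ_i, 0) = ∑_s μ_i(s)/d_s ≤ i · ε/(4e) ≤ ε/4` (`1/d_s ≤ ε/(4e)`, `i ≤ k - 1 ≤ e`). Also
`wtR J'_i ≥ 0`. With `θ' = 3ε/4`: `k ε²/32 ≥ wtR J = ∑_i wtR J'_i ≥ ∑_(l<k) max(0, θ' - l/e)`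
(reindex by `π`). The `l < k` with `l ≤ e θ'/2` contribute at least `θ'/2` each, and there are at
least `min(k, e θ'/2) ≥ k θ'/4` of them (`⌊x⌋ + 1 ≥ x`; `e ≥ k/2`, since `e ≥ k - 1` and `e ≥ 1`;
`θ' ≤ 1`). So `k ε²/32 ≥ k θ'²/8 = 9 k ε²/128`, a contradiction. -/
def SpecRSTP : Prop :=
  ∀ (K : Type) [Field K] [CharZero K] (σ : Type) [Fintype σ] (d : σ → ℕ) (e : ℕ) (A ε : ℝ)
    (ξ : σ → K) (η : K), (∀ i, 1 ≤ d i) → 1 ≤ e → 0 ≤ A → 0 < ε → ε ≤ 1 →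
    (∀ i, (e : ℝ) ≤ ε / 4 * d i) →
    (∀ k : ℕ, 1 ≤ k → k ≤ e + 1 →
      RothAt (fun i => k * d i) (k * (A + k + 2 * (∑ i, (d i : ℝ) + e))) ξ (ε ^ 2 / 64)) →
    (∀ k : ℕ, 1 ≤ k → k ≤ e + 1 →
      RothAt (fun _ : Unit => k * e) (k * (A + k + 2 * (∑ i, (d i : ℝ) + e))) (fun _ => η)
        (ε ^ 2 / 64)) →
    RothAt (σ := σ ⊕ Unit) (Sum.elim d fun _ => e) A (Sum.elim ξ fun _ => η) ε

/-- **RCLA** (Roth's lemma; from RBAS, RSTP).

Proof. `RothAt` is invariant under bijections `e : σ ≃ τ` of the variables (`rename e`,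
`dd_rename_equiv`, `degreeOf_rename_of_injective`, `coeff_rename_mapDomain`), and monotone: it may be
proved for `ε' = min ε 1 ≤ 1` instead of `ε`. So let `ε ≤ 1`. Induction on `n`.
`n = 0`: `Fin 1 ≃ Unit`, RBAS with `C = 2/ε + 1`, `σ = 1`:
`(2/ε)(A + d_0) < C (A + d_0) ≤ C (A + D) ≤ d_0 ht1 ξ_0` (`A + d_0 > 0`).
`n → n+1`: let `ε' = ε²/64`, `(σ', C')` from the case `n` for `ε'`, and put
`σ = min(σ', ε/4)` (so `σ ≤ 1`), `C = (2n + 7) (C' + 2/ε' + 1)`. Given `d : Fin (n+2) → ℕ`, let `e`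
be its last value and `d' = d ∘ castSucc`; the `d_h` are decreasing (`σ ≤ 1`), hence
`e ≤ σ d_n ≤ σ d'_i ≤ (ε/4) d'_i` for all `i ≤ n`. RSTP with `σ := Fin (n+1)` and
`Fin (n+1) ⊕ Unit ≃ Fin (n+2)`. Its hypotheses for `1 ≤ k ≤ e + 1`: let
`A' = k (A + k + 2 (∑ d' + e))`; `k ≤ 2e ≤ 2D`, `∑ d' + e ≤ (n+2) D`, hence
`A' + k D ≤ k (A + (2n + 7) D) ≤ (2n+7) k (A + D)`.
* first: the case `n` for the degrees `k d'_h ≤ k D`, bound `A'`: ratio condition
  `k d_(h+1) ≤ σ' k d_h`, and `C' (A' + k D) ≤ C' (2n+7) k (A + D) ≤ k C (A + D) ≤ k d_h ht1 ξ_h`.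
* second: RBAS for the degree `k e`: `(2/ε') (A' + k e) ≤ (2/ε')(2n+7) k (A + D) < k C (A + D)
  ≤ k e ht1 η`, since `A + D > 0`. -/
def SpecRCLA : Prop :=
  ∀ (K : Type) [Field K] [NumberField K] (n : ℕ) (ε : ℝ), 0 < ε →
    ∃ σ C : ℝ, 0 < σ ∧ 0 < C ∧ ∀ (d : Fin (n + 1) → ℕ) (D : ℕ) (A : ℝ) (ξ : Fin (n + 1) → K),
      (∀ h, 1 ≤ d h ∧ d h ≤ D) →
      (∀ h h' : Fin (n + 1), (h : ℕ) + 1 = h' → (d h' : ℝ) ≤ σ * d h) → 0 ≤ A →
      (∀ h, C * (A + D) ≤ d h * ht1 (ξ h)) → RothAt d A ξ ε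

/-- **RHTS** (a coordinate ratio of large height). If `ht a > 0` then some ratio of two nonzero
coordinates has `ht1 ≥ ht a / N`.

Proof. `a ≠ 0` (`ht 0 = 0`: `nrm w 0 = 0`, `log 0 = 0`), let `a_(i₀) ≠ 0` and `b = a_(i₀)⁻¹ • a`;
`ht b = ht a` (`ht_smul`). For every place `1 ≤ nrm w b = max_i |b_i|_w ≤ ∏_i max(1, |b_i|_w)`
(as `b_(i₀) = 1` and all factors are `≥ 1`), so `ht a ≤ ∑_i ht1 (b_i)` (finite supports:
`support_log_nrm_finite` for the vector `![b_i, 1]`; `finsum_sum_comm`, `finsum_mono`). Hence some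
`i₁` has `ht1 (b_(i₁)) ≥ ht a / N > 0`; `ht1 0 = ht1 1 = 0`, so `a_(i₁) ≠ 0` and `i₁ ≠ i₀`. Finally
`ht1 (-x) = ht1 x`. -/
def SpecRHTS : Prop :=
  ∀ (K : Type) [Field K] [NumberField K] (N : ℕ) (a : Fin N → K), 0 < ht a →
    ∃ i₀ i₁ : Fin N, i₀ ≠ i₁ ∧ a i₀ ≠ 0 ∧ a i₁ ≠ 0 ∧ ht a ≤ N * ht1 (-(a i₁ / a i₀))

/-- **RALG** (from a point to hyperplanes, the algebra). `0 ≠ P ∈ ℤ[X_(h,i)]` homogeneous of degree
`d_h` in the block `h`; `i₀(h) ≠ i₁(h)`, `a_(h,i₀(h)) ≠ 0`, `ξ_h = - a_(h,i₁)/a_(h,i₀)`. There is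
`0 ≠ p ∈ ℤ[x_h]` with `deg_h p ≤ d_h` whose coefficients are coefficients of `P` or `0`, and whenever
`dd I p` does not vanish at `ξ`, some `dd J P`, with `∑_i J(h,i) = I_h` for all `h`, does not vanish
at some point of the product of the hyperplanes `a_h · x_h = 0`.

Proof. For an exponent `α` of the variables `(h, i)` let `x(α) = (α_(h,i₀(h)))_h : Fin m →₀ ℕ` and
let `T(α)` be `α` with the entries `(h, i₀(h))`, `(h, i₁(h))` replaced by `0`. On `support P` the map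
`α ↦ (x(α), T(α))` is injective (homogeneity of the block `h` determines `α_(h,i₁)`). Let `β` be a
minimal element, for the componentwise order, of the finite nonempty set `{T(α) : α ∈ support P}`
(`Set.Finite.exists_minimal`, `Finset.exists_minimal`), and
`p = ∑_(α ∈ support P, T(α) = β) coeff_α(P) X^(x(α))`. By the injectivity its coefficients are
coefficients of `P` or `0`, and `p ≠ 0`; `deg_h p ≤ d_h`. Let `I` be given, `aeval ξ (dd I p) ≠ 0`,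
and put `J(h,i) = I_h` for `i = i₀(h)`, `0` otherwise.
Consider the point `x(t)` with coordinates in `K[t] = MvPolynomial (Fin m × Fin N) K`:
`x_(h,i₀) = C ξ_h + ℓ_h`, `ℓ_h = - ∑_(j ≠ i₀, i₁) C (a_(h,j)/a_(h,i₀)) t_(h,j)`, `x_(h,i₁) = 1`,
`x_(h,j) = t_(h,j)` otherwise; then `∑_i C a_(h,i) · x_(h,i) = 0`. Let
`F = aeval x(t) (dd J P) ∈ K[t]`. Since `P = ∑ coeff_α(P) X^α`, `dd_sum` and `coeff_dd` (i.e.
`dd J (monomial α c) = monomial (α - J) (bin α J · c)`), and `bin α J = ∏_h (α_(h,i₀) choose I_h)`: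
`F = ∑_(α ∈ support P) coeff_α(P) ∏_h (α_(h,i₀) choose I_h) (C ξ_h + ℓ_h)^(α_(h,i₀) - I_h) · t^(T(α))`.
The coefficient of `t^β` in `F`: a term with `T(α) ≠ β` contributes `0`, because `T(α) ≤ β` is
impossible by the minimality of `β` (`coeff_mul_monomial'`); a term with `T(α) = β` contributes the
constant coefficient of the other factors, `coeff_α(P) ∏_h (α_(h,i₀) choose I_h) ξ_h^(α_(h,i₀)-I_h)`
(`constantCoeff` is a ring homomorphism and kills `ℓ_h`). The sum is `aeval ξ (dd I p) ≠ 0`. So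
`F ≠ 0`, and there is `s : Fin m × Fin N → K` with `eval s F ≠ 0` (`MvPolynomial.funext`, `K` is
infinite). The point `x = (eval s (x(t)_(h,i)))` satisfies the linear equations and
`eval s F = aeval x (dd J P) = coeff J (tay P x)` (`aeval_dd`). -/
def SpecRALG : Prop :=
  ∀ (K : Type) [Field K] [CharZero K] (m N : ℕ) (d : Fin m → ℕ)
    (P : MvPolynomial (Fin m × Fin N) ℤ) (a : Fin m → Fin N → K) (i₀ i₁ : Fin m → Fin N),
    P ≠ 0 → BH P d → (∀ h, i₀ h ≠ i₁ h) → (∀ h, a h (i₀ h) ≠ 0) →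
    ∃ p : MvPolynomial (Fin m) ℤ, p ≠ 0 ∧ (∀ h, degreeOf h p ≤ d h) ∧
      (∀ J, coeff J p = 0 ∨ ∃ J', coeff J p = coeff J' P) ∧
      ∀ I : Fin m →₀ ℕ, aeval (fun h => -(a h (i₁ h) / a h (i₀ h))) (dd I p) ≠ 0 →
        ∃ (J : Fin m × Fin N →₀ ℕ) (x : Fin m × Fin N → K),
          (∀ h, ∑ i, J (h, i) = I h) ∧ (∀ h, ∑ i, a h i * x (h, i) = 0) ∧ (tay P x).coeff J ≠ 0

/-- **RRED** (from RCLA, RHTS, RALG): `SpecRL` of `DefsB.lean`.

Proof. `m = n + 1`. Let `(σ, C')` be the constants of RCLA for `n`, `ε` and take `σ`, `C = N C'`. Let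
`d, D, A, P, a` be given. For every `h`: `ht (a h) > 0` (as `C (A + D) > 0`: `D ≥ d_h ≥ 1`), so RHTS
gives `i₀(h)`, `i₁(h)` with `ht (a h) ≤ N ht1 ξ_h`, `ξ_h = - a_(h,i₁)/a_(h,i₀)`; hence
`N C' (A + D) ≤ d_h ht (a h) ≤ N d_h ht1 ξ_h`, i.e. `C' (A + D) ≤ d_h ht1 ξ_h`, and RCLA gives
`RothAt d A ξ ε`. Take `p` from RALG (coefficients `≤ e^A`, also the zero ones), `RothAt` gives `I`
with `wtR d I ≤ ε`, `aeval ξ (dd I p) ≠ 0`, RALG gives `J, x`; `∑_h (∑_i J(h,i))/d_h = wtR d I`. -/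
def SpecRRED : Prop := SpecRL

end

end Pool.Agent.Lib.MP_d0e829_nt.SS
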