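import Pool.Agent.Lib.MP_d0e829_nt.SS.SpecC1

/-!
# MP_d0e829_nt, part C: module TWO (two coprime forms in four variables)
-/

set_option autoImplicit false

open NumberField MvPolynomial

namespace Pool.Agent.Lib.MP_d0e829_nt.SS

namespace TWOM

variable {k : Type} [Field k]

theorem finrank_hom (n : ℕ) :
    Module.finrank k (homogeneousSubmodule (Fin 4) k n) = (n + 3).choose 3 := by
  classical
  have hset : {d : Fin 4 →₀ ℕ | d.degree = n} =
      ((Finset.univ.finsuppAntidiag n : Finset (Fin 4 →₀ ℕ)) : Set (Fin 4 →₀ ℕ)) := by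
    ext d
    simp only [Set.mem_ofPred_eq, Finset.mem_coe, Finset.mem_finsuppAntidiag, Finset.subset_univ,
      and_true]
    rw [Finsupp.degree_eq_sum]
  rw [homogeneousSubmodule_eq_finsupp_supported]
  have e := AddMonoidAlgebra.supportedEquivFinsupp (R := k) (S := k) {d : Fin 4 →₀ ℕ | d.degree = n}
  refine e.finrank_eq.trans ?_
  rw [hset]
  have h1 : Module.finrank k (((Finset.univ.finsuppAntidiag n : Finset (Fin 4 →₀ ℕ)) :
      Set (Fin 4 →₀ ℕ)) →₀ k) = (Finset.univ.finsuppAntidiag n : Finset (Fin 4 →₀ ℕ)).card := by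
    rw [Module.finrank_finsupp_self]
    exact Fintype.card_coe _
  rw [h1, Finset.card_finsuppAntidiag_nat_eq_choose, Finset.card_univ, Fintype.card_fin]
  have h2 : 4 + n - 1 = n + 3 := by omega
  rw [h2, ← Nat.choose_symm_add]

theorem finite_hom (n : ℕ) : Module.Finite k (homogeneousSubmodule (Fin 4) k n) := by
  apply Module.finite_of_finrank_pos
  rw [finrank_hom]
  exact Nat.choose_pos (by omega)

theorem choose_real (n : ℕ) : (((n + 3).choose 3 : ℕ) : ℝ) = (n + 1) * (n + 2) * (n + 3) / 6 := by
  have h1 : (n + 3) * (n + 2).choose 2 = (n + 3).choose 3 * 3 := Nat.add_one_mul_choose_eq (n + 2) 2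
  have h2 : (n + 2) * (n + 1).choose 1 = (n + 2).choose 2 * 2 := Nat.add_one_mul_choose_eq (n + 1) 1
  rw [Nat.choose_one_right] at h2
  have h1' : ((n : ℝ) + 3) * (((n + 2).choose 2 : ℕ) : ℝ) = (((n + 3).choose 3 : ℕ) : ℝ) * 3 := by
    exact_mod_cast h1
  have h2' : ((n : ℝ) + 2) * ((n : ℝ) + 1) = (((n + 2).choose 2 : ℕ) : ℝ) * 2 := by
    exact_mod_cast h2
  nlinarith

/-- components of a product with a form -/
theorem comp_mul {g : ℕ} {G : MvPolynomial (Fin 4) k} (hG : G.IsHomogeneous g) (n : ℕ)
    (S : MvPolynomial (Fin 4) k) :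
    homogeneousComponent (g + n) (G * S) = G * homogeneousComponent n S := by
  classical
  have hS := sum_homogeneousComponent S
  have h1 : homogeneousComponent (g + n) (G * S) =
      ∑ i ∈ Finset.range (S.totalDegree + 1), homogeneousComponent (g + n) (G * homogeneousComponent i S) := by
    conv_lhs => rw [← hS]
    rw [Finset.mul_sum, map_sum]
  have h2 : ∀ i, homogeneousComponent (g + n) (G * homogeneousComponent i S) =
      if n = i then G * homogeneousComponent n S else 0 := by
    intro i
    have hm : (G * homogeneousComponent i S).IsHomogeneous (g + i) :=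
      hG.mul (homogeneousComponent_isHomogeneous i S)
    rw [homogeneousComponent_of_mem hm]
    by_cases h : n = i
    · subst h; simp
    · rw [if_neg h, if_neg (by omega)]
  rw [h1, Finset.sum_congr rfl (fun i _ => h2 i), Finset.sum_ite_eq]
  split_ifs with h
  · rfl
  · rw [Finset.mem_range, not_lt] at h
    rw [homogeneousComponent_eq_zero n S (by omega), mul_zero]

/-- multiplication by a form -/
noncomputable def mulF {g : ℕ} {G : MvPolynomial (Fin 4) k} (hG : G.IsHomogeneous g) (n m : ℕ)
    (h : g + n = m) : homogeneousSubmodule (Fin 4) k n →ₗ[k] homogeneousSubmodule (Fin 4) k m where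
  toFun P := ⟨G * P.1, by
    have := hG.mul ((mem_homogeneousSubmodule n _).1 P.2)
    rw [h] at this
    exact (mem_homogeneousSubmodule m _).2 this⟩
  map_add' P R := Subtype.ext (by simp [mul_add])
  map_smul' c P := Subtype.ext (by simp)

/-- the main dimension count -/
theorem count {g d : ℕ} {G Q : MvPolynomial (Fin 4) k} (hG : G.IsHomogeneous g)
    (hQ : Q.IsHomogeneous d) (hirr : Irreducible G) (hdiv : ¬ G ∣ Q) (n : ℕ)
    (V : Type) [AddCommGroup V] [Module k V] (φ : MvPolynomial (Fin 4) k →ₗ[k] V)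
    (hφ : ∀ P : MvPolynomial (Fin 4) k, φ (G * P) = 0 ∧ φ (Q * P) = 0) :
    Module.finrank k ((homogeneousSubmodule (Fin 4) k (n + g + d)).map φ) +
      ((n + d + 3).choose 3 + (n + g + 3).choose 3) ≤
      (n + g + d + 3).choose 3 + (n + 3).choose 3 := by
  have hG0 : G ≠ 0 := hirr.ne_zero
  have hprime : Prime G := hirr.prime
  set m := n + g + d with hm
  have i1 := finite_hom (k := k) m
  have i2 := finite_hom (k := k) (n + d)
  have i3 := finite_hom (k := k) (n + g)
  have i4 := finite_hom (k := k) n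
  -- the quotient
  let ψ : homogeneousSubmodule (Fin 4) k m →ₗ[k] V := φ.comp (homogeneousSubmodule (Fin 4) k m).subtype
  have hr : LinearMap.range ψ = (homogeneousSubmodule (Fin 4) k m).map φ := by
    rw [LinearMap.range_comp, Submodule.range_subtype]
  have e1 : Module.finrank k (LinearMap.range ψ) + Module.finrank k (LinearMap.ker ψ) =
      (m + 3).choose 3 := by
    rw [LinearMap.finrank_range_add_finrank_ker, finrank_hom]
  -- the products
  let T : (homogeneousSubmodule (Fin 4) k (n + d) × homogeneousSubmodule (Fin 4) k (n + g)) →ₗ[k]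
      homogeneousSubmodule (Fin 4) k m :=
    (mulF hG (n + d) m (by omega)).coprod (mulF hQ (n + g) m (by omega))
  have hT : LinearMap.range T ≤ LinearMap.ker ψ := by
    rintro _ ⟨⟨P, R⟩, rfl⟩
    rw [LinearMap.mem_ker]
    show φ (G * P.1 + Q * R.1) = 0
    rw [map_add, (hφ _).1, (hφ _).2, add_zero]
  have e2 : Module.finrank k (LinearMap.range T) + Module.finrank k (LinearMap.ker T) =
      (n + d + 3).choose 3 + (n + g + 3).choose 3 := by
    rw [LinearMap.finrank_range_add_finrank_ker, Module.finrank_prod, finrank_hom, finrank_hom]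
  have e3 : Module.finrank k (LinearMap.range T) ≤ Module.finrank k (LinearMap.ker ψ) :=
    Submodule.finrank_mono hT
  -- the syzygies
  let U : homogeneousSubmodule (Fin 4) k n →ₗ[k]
      (homogeneousSubmodule (Fin 4) k (n + d) × homogeneousSubmodule (Fin 4) k (n + g)) :=
    (-(mulF hQ n (n + d) (by omega))).prod (mulF hG n (n + g) (by omega))
  have hU : LinearMap.ker T ≤ LinearMap.range U := by
    rintro ⟨P, R⟩ hPR
    rw [LinearMap.mem_ker] at hPR
    have h0 : G * P.1 + Q * R.1 = 0 := congrArg Subtype.val hPR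
    have h1 : G ∣ Q * R.1 := ⟨-P.1, by linear_combination h0⟩
    obtain ⟨S, hS⟩ := (hprime.dvd_or_dvd h1).resolve_left hdiv
    have hR : (R.1).IsHomogeneous (n + g) := (mem_homogeneousSubmodule _ _).1 R.2
    have h2 : R.1 = G * homogeneousComponent n S := by
      rw [← comp_mul hG n S, ← hS]
      have e : g + n = n + g := by omega
      rw [e, homogeneousComponent_eq_self hR]
    have h3 : P.1 = -(Q * homogeneousComponent n S) := by
      apply mul_left_cancel₀ hG0
      rw [h2] at h0
      linear_combination h0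
    refine ⟨⟨homogeneousComponent n S, homogeneousComponent_mem n S⟩, ?_⟩
    apply Prod.ext
    · apply Subtype.ext
      exact h3.symm
    · apply Subtype.ext
      exact h2.symm
  have e4 : Module.finrank k (LinearMap.ker T) ≤ (n + 3).choose 3 := by
    calc Module.finrank k (LinearMap.ker T) ≤ Module.finrank k (LinearMap.range U) :=
          Submodule.finrank_mono hU
      _ ≤ Module.finrank k (homogeneousSubmodule (Fin 4) k n) := LinearMap.finrank_range_le U
      _ = _ := finrank_hom n
  rw [← hr]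
  omega

end TWOM

open TWOM in
theorem specTWO : SpecTWO := by
  intro k _ g d G Q hG hQ hirr hdiv
  refine ⟨3 * g * d + ((g + d + 3).choose 3 : ℕ), fun m hm V _ _ φ hφ => ?_⟩
  have hm1 : (1 : ℝ) ≤ m := by exact_mod_cast hm
  have hA0 : (0 : ℝ) ≤ ((g + d + 3).choose 3 : ℕ) := Nat.cast_nonneg _
  have hg0 : (0 : ℝ) ≤ g := Nat.cast_nonneg _
  have hd0 : (0 : ℝ) ≤ d := Nat.cast_nonneg _
  have hgd : (0 : ℝ) ≤ g * d := by positivity
  rcases Nat.lt_or_ge m (g + d) with h | h
  · have i1 := finite_hom (k := k) m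
    have h1 : Module.finrank k ((homogeneousSubmodule (Fin 4) k m).map φ) ≤ (m + 3).choose 3 := by
      refine (Submodule.finrank_map_le φ _).trans ?_
      rw [finrank_hom]
    have h2 : (m + 3).choose 3 ≤ (g + d + 3).choose 3 := Nat.choose_le_choose 3 (by omega)
    have h3 : (Module.finrank k ((homogeneousSubmodule (Fin 4) k m).map φ) : ℝ) ≤
        ((g + d + 3).choose 3 : ℕ) := by exact_mod_cast h1.trans h2
    nlinarith
  · obtain ⟨n, rfl⟩ : ∃ n, m = n + g + d := ⟨m - (g + d), by omega⟩
    have h1 := count hG hQ hirr hdiv n V φ hφ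
    have h2 : (Module.finrank k ((homogeneousSubmodule (Fin 4) k (n + g + d)).map φ) : ℝ) +
      ((((n + d + 3).choose 3 : ℕ) : ℝ) + (((n + g + 3).choose 3 : ℕ) : ℝ)) ≤
      (((n + g + d + 3).choose 3 : ℕ) : ℝ) + (((n + 3).choose 3 : ℕ) : ℝ) := by exact_mod_cast h1
    rw [choose_real, choose_real, choose_real, choose_real] at h2
    push_cast at h2 hm1 ⊢
    have hn0 : (0 : ℝ) ≤ n := Nat.cast_nonneg _
    have key : ((n : ℝ) + g + d + 1) * (n + g + d + 2) * (n + g + d + 3) / 6 +
        (n + 1) * (n + 2) * (n + 3) / 6 - ((n + d + 1) * (n + d + 2) * (n + d + 3) / 6 +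
        (n + g + 1) * (n + g + 2) * (n + g + 3) / 6) = g * d * (n + 2 + (g + d) / 2) := by ring
    have h5 : (g : ℝ) * d * (n + 2 + (g + d) / 2) ≤ 3 * g * d * (n + g + d) := by
      have : (n : ℝ) + 2 + (g + d) / 2 ≤ 3 * (n + g + d) := by linarith
      nlinarith
    have h6 : (0 : ℝ) ≤ ((g + d + 3).choose 3 : ℕ) * (n + g + d) := by positivity
    nlinarith

end Pool.Agent.Lib.MP_d0e829_nt.SS
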