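import Pool.Agent.Lib.MP_d0e829_nt.SS.SpecC3

/-!
# U0: no functional vanishes
-/

set_option autoImplicit false

open NumberField MvPolynomial

namespace Pool.Agent.Lib.MP_d0e829_nt.SS

open scoped Classical

namespace U0M

theorem sm_biUnion {Ω ι : Type} {Sm : Set Ω → Prop} (hS : SmSys Sm) (s : Finset ι)
    (F : ι → Set Ω) (h : ∀ i ∈ s, Sm (F i)) : Sm {ω | ∃ i ∈ s, ω ∈ F i} := by
  induction s using Finset.induction_on with
  | empty =>
    refine hS.2.1 _ ∅ ?_ hS.1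
    rintro ω ⟨i, hi, -⟩
    simp at hi
  | insert a s ha ih =>
    refine hS.2.1 _ (F a ∪ {ω | ∃ i ∈ s, ω ∈ F i}) ?_ (hS.2.2 _ _ (h a (Finset.mem_insert_self a s))
      (ih fun i hi => h i (Finset.mem_insert_of_mem hi)))
    rintro ω ⟨i, hi, hω⟩
    rcases Finset.mem_insert.1 hi with rfl | hi
    · exact Or.inl hω
    · exact Or.inr ⟨i, hi, hω⟩

theorem spn {k : Type} [Field k] {Ω : Type} (f : Ω → Fin 6 → k) (A : Set Ω)
    (M : Matrix (Fin 6) (Fin 6) k) (hM : M.det ≠ 0) : Spn f A (fun i => M i) := by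
  intro c
  refine ⟨Matrix.vecMul c M⁻¹, fun ω _ => ?_⟩
  have h1 : Matrix.vecMul (Matrix.vecMul c M⁻¹) M = c := by
    rw [Matrix.vecMul_vecMul, Matrix.nonsing_inv_mul M (Ne.isUnit hM), Matrix.vecMul_one]
  have h2 : Matrix.vecMul (Matrix.vecMul c M⁻¹) M ⬝ᵥ f ω =
      Matrix.vecMul c M⁻¹ ⬝ᵥ (Matrix.mulVec M (f ω)) := (Matrix.dotProduct_mulVec _ _ _).symm
  rw [h1] at h2
  rw [h2]
  rfl

theorem ind {k : Type} [Field k] {Ω : Type} (f : Ω → Fin 6 → k) (A : Set Ω)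
    (M : Matrix (Fin 6) (Fin 6) k) (hM : M.det ≠ 0) (hU : UU f A = ⊥) :
    Ind f A (fun i => M i) := by
  intro b hb
  have h1 : Matrix.vecMul b M ∈ UU f A := by
    intro ω hω
    have h2 : Matrix.vecMul b M ⬝ᵥ f ω = b ⬝ᵥ (Matrix.mulVec M (f ω)) :=
      (Matrix.dotProduct_mulVec _ _ _).symm
    rw [h2]
    exact hb ω hω
  rw [hU, Submodule.mem_bot] at h1
  exact Matrix.eq_zero_of_vecMul_eq_zero hM h1

theorem fr_le {k : Type} [Field k] [NumberField k] {v : Place k} {q : ℕ} {ℓ : Fin q → Fin 3 → k}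
    {B : Matrix (Fin 3) (Fin 3) k} {g : Fin 6 → k} {T C : ℝ} (hF : Fr v ℓ B g T C)
    (hval : ∀ i w, Ge v (S2 B i) g w → w ≤ val v (S2 B i) g) :
    T ≤ ∑ i, val v (S2 B i) g + 7 * C := by
  have key : ∀ W : Fin 6 → ℝ, (∀ i, Ge v (S2 B i) g (W i - C)) →
      ∑ i, W i ≤ ∑ i, val v (S2 B i) g + 6 * C := by
    intro W hW
    have h1 : ∑ i, (W i - C) ≤ ∑ i, val v (S2 B i) g :=
      Finset.sum_le_sum fun i _ => hval i _ (hW i)
    rw [Finset.sum_sub_distrib] at h1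
    simp only [Finset.sum_const, Finset.card_univ, Fintype.card_fin, nsmul_eq_mul] at h1
    push_cast at h1
    linarith
  have hA : FrA v B g T C → T ≤ ∑ i, val v (S2 B i) g + 7 * C := by
    rintro ⟨p, q', z, z', hp, hq, hz, hz', hT, hG, -⟩
    have h1 := key _ hG
    have h2 : ∑ i, WA p q' z z' i = p + q' + (z + z') + min z' (z + q') + min z (p + z') + 0 := by
      simp [WA, Fin.sum_univ_succ]
      ring
    have h3 : 0 ≤ min z' (z + q') := le_min hz' (by linarith)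
    have h4 : 0 ≤ min z (p + z') := le_min hz (by linarith)
    linarith
  rcases hF with ⟨i, j, l, -, -, -, -, -, -, h⟩ | ⟨i, j, -, -, -, h, -⟩ |
    ⟨i, j, l, -, -, -, -, -, -, h⟩
  · exact hA h
  · exact hA h
  · obtain ⟨p, p', q', q'', hp, hp', hq, hq', hT, hG, -⟩ := h
    have h1 := key _ hG
    have h2 : ∑ i, WB p p' q' q'' i =
        (p + p') + (q' + q'') + 0 + min q' q'' + min p p' + min (p + q'') (q' + p') := by
      simp [WB, Fin.sum_univ_succ]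
      ring
    have h3 : 0 ≤ min q' q'' := le_min hq hq'
    have h4 : 0 ≤ min p p' := le_min hp hp'
    have h5 : 0 ≤ min (p + q'') (q' + p') := le_min (by linarith) (by linarith)
    linarith

end U0M

open U0M in
theorem specU0 (hLNS : SpecLNS) (hFCH : SpecFCH) (hSTA : SpecSTA) : SpecU0 := by
  intro k _ _ S q ℓ BB C ε Ω f T Sm A hε hBB hS hU0
  have hU : UU f A = ⊥ := Submodule.finrank_eq_zero.1 hU0
  obtain ⟨s1, s2, s3⟩ := hSTA k S q ℓ BB C ε Ω f T Sm A hS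
  rcases S.eq_empty_or_nonempty with hSe | ⟨v₀, hv₀⟩
  · subst hSe
    obtain ⟨B, C', hB, h⟩ := hLNS k Ω 6 6 f Sm hS.sys A hS.gen hS.ne ∅ (fun _ _ => 0)
      (fun v hv => by simp at hv) ε hε
    refine s2 B C' hB fun ω hω hωB => ?_
    have h1 := (h ω hω hωB).2
    push_cast at h1
    simpa using h1
  have hAne : A.Nonempty := by
    rw [Set.nonempty_iff_ne_empty]
    intro hA
    exact hS.gen.1 (hA ▸ hS.sys.1)
  obtain ⟨ω₀, hω₀⟩ := hAne
  obtain ⟨B₀, hB₀, -⟩ := hS.fr ω₀ hω₀ v₀ hv₀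
  obtain ⟨B₁, C₁, hB₁, h₁⟩ := hFCH k Ω {B // B ∈ BB} S Sm hS.sys A (fun ω => ht (f ω)) (6 + ε)
    (fun v B ω => ∑ i, val v (S2 B.1 i) (f ω)) (fun _ _ => True) (by
      intro φ _
      obtain ⟨B, C', hB, h⟩ := hLNS k Ω 6 6 f Sm hS.sys A hS.gen hS.ne S
        (fun v i => S2 (φ v).1 i)
        (fun v _ => ⟨spn f A _ (hBB _ (φ v).2), ind f A _ (hBB _ (φ v).2) hU⟩) ε hε
      refine ⟨B, C', hB, fun ω hω hωB => ?_⟩
      have h1 := (h ω hω hωB).2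
      push_cast at h1
      exact h1)
  have hB₂ : Sm {ω | ∃ p ∈ BB ×ˢ (Finset.univ : Finset (Fin 6)),
      ω ∈ {ω | ω ∈ A ∧ S2 p.1 p.2 ⬝ᵥ f ω = 0}} := by
    refine sm_biUnion hS.sys _ _ ?_
    rintro ⟨B, i⟩ hp
    have hB : B ∈ BB := (Finset.mem_product.1 hp).1
    refine s1 _ ?_
    rw [hU, Submodule.mem_bot]
    intro h0
    exact hBB B hB (Matrix.det_eq_zero_of_row_eq_zero i fun j => congrFun h0 j)
  refine s2 _ (C₁ + S.card * (7 * C)) (hS.sys.2.2 _ _ hB₁ hB₂) fun ω hω hωB => ?_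
  have hω1 : ω ∉ B₁ := fun h => hωB (Or.inl h)
  have hne : ∀ B ∈ BB, ∀ i, S2 B i ⬝ᵥ f ω ≠ 0 := by
    intro B hB i h0
    exact hωB (Or.inr ⟨(B, i), Finset.mem_product.2 ⟨hB, Finset.mem_univ i⟩, hω, h0⟩)
  have hfr : ∀ v : Place k, ∃ B : {B // B ∈ BB}, v ∈ S → Fr v ℓ B.1 (f ω) (T ω v) C := by
    intro v
    by_cases hv : v ∈ S
    · obtain ⟨B, hB, h⟩ := hS.fr ω hω v hv
      exact ⟨⟨B, hB⟩, fun _ => h⟩
    · exact ⟨⟨B₀, hB₀⟩, fun h => absurd h hv⟩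
  choose φ hφ using hfr
  have h2 := h₁ ω hω hω1 φ (fun _ _ => trivial)
  have h3 : ∑ v ∈ S, T ω v ≤ ∑ v ∈ S, (∑ i, val v (S2 (φ v).1 i) (f ω) + 7 * C) := by
    refine Finset.sum_le_sum fun v hv => ?_
    exact fr_le (hφ v hv) fun i w hw => s3 v _ _ w (hne _ (φ v).2 i) hw
  rw [Finset.sum_add_distrib, Finset.sum_const, nsmul_eq_mul] at h3
  linarith

end Pool.Agent.Lib.MP_d0e829_nt.SS
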